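import Pool.Agent.Run7.h278.LG.Gen

set_option autoImplicit false

/-!
# The structure of an L-function with an Euler product
-/

namespace Run7.h278.LG

open Complex Filter Topology MeasureTheory Set
open scoped ComplexConjugate ENNReal

/-- An L-function `L(s) = ∑ b(n) n^(-s)` with an Euler product, `b(1) = 1` and
`-L'/L(s) = ∑ Λ(n) c(n) n^(-s)`, `|c(n)| ≤ m`, where `m` is the degree, whose completion
`Λ(s) = (s (s - 1))^pole N^(s/2) ∏ Γ_ℝ(s + a) L(s)`, `a` in the list `shifts` of `m` non-negative real numbers, is entire of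
finite order, satisfies `Λ(s) = w · conj Λ(1 - conj s)` with `|w| = 1`, and is not zero at `1`.  This holds for the
Artin L-function over `ℚ` of an irreducible character `χ` (`m = χ(1)`, `N` the conductor, `c(p^k) = χ(Frob^k)` if `p` is
unramified, `pole = 1` for the trivial character and `0` otherwise, shifts `0` and `1`, `w` the root number) if Artin's
conjecture holds for `χ`. -/
structure LFun where
  shifts : List ℝ
  pole : ℕ
  N : ℝ
  b : ℕ → ℂ
  c : ℕ → ℂ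
  w : ℂ
  Λ : ℂ → ℂ
  shifts_ne : shifts ≠ []
  shifts_nonneg : ∀ a ∈ shifts, 0 ≤ a
  pole_le : pole ≤ shifts.length
  one_le_N : 1 ≤ N
  b_one : b 1 = 1
  c_bound : ∀ n, ‖c n‖ ≤ shifts.length
  euler : ∀ n : ℕ, n ≠ 0 → b n * ((Real.log n : ℝ) : ℂ) =
    ∑ k ∈ n.divisors, ((ArithmeticFunction.vonMangoldt k : ℝ) : ℂ) * c k * b (n / k)
  entire : Differentiable ℂ Λ
  order : ∃ A ρ : ℝ, ∀ s : ℂ, ‖Λ s‖ ≤ Real.exp (A * (1 + ‖s‖) ^ ρ)
  w_norm : ‖w‖ = 1
  fe : ∀ s : ℂ, Λ s = w * conj (Λ (1 - conj s))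
  eq : ∃ σ : ℝ, ∀ s : ℂ, σ ≤ s.re → Λ s = (s * (s - 1)) ^ pole *
    ((N : ℂ) ^ (s / 2) * (shifts.map fun a : ℝ => Gammaℝ (s + a)).prod) * LSeries b s
  one_ne : Λ 1 ≠ 0

theorem LFun.isOne (L : LFun) : One L.shifts L.pole L.N L.b L.c L.Λ := by
  refine ⟨⟨?_, ?_, L.one_le_N, fun j => ?_, L.entire, L.order, ⟨L.w, L.w_norm, L.fe⟩, L.b_one, fun n => ?_, L.euler, ?_⟩,
    L.shifts_nonneg, L.one_ne⟩
  · rw [List.length_map]
    exact List.length_pos_iff.2 L.shifts_ne
  · rw [List.length_map]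
    exact L.pole_le
  · have hm := List.get_mem (L.shifts.map fun a : ℝ => (a : ℂ)) j
    obtain ⟨a, ha1, ha2⟩ := List.mem_map.1 hm
    rw [← ha2, Complex.ofReal_re]
    linarith [L.shifts_nonneg a ha1]
  · rw [List.length_map]
    exact L.c_bound n
  · obtain ⟨σ, hσ⟩ := L.eq
    refine ⟨σ, fun s hs => ?_⟩
    rw [hσ s hs, gam_list]

/-- the order of vanishing -/
noncomputable def ordAt (f : ℂ → ℂ) (s : ℂ) : ℕ := analyticOrderNatAt f s

end Run7.h278.LG
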