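import Pool.Agent.Run7.h278.LG.RateF

set_option autoImplicit false

/-!
# Rates of convergence with the simple zeros split off; Dirichlet characters
-/

namespace Run7.h278.LG

open Complex Filter Topology MeasureTheory Set DirichletCharacter
open scoped ComplexConjugate ENNReal

theorem RateL.lim {V : ℝ → ℝ≥0∞} {L c : ℝ} (hc : 0 < c) (h : RateL V L c) {ℓ : ℝ≥0∞} (hℓ : Tendsto V (𝓝[>] 0) (𝓝 ℓ)) (hf : ℓ < ⊤) :
    ℓ = ENNReal.ofReal L ∧ 0 ≤ L := by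
  obtain ⟨C, h⟩ := h
  have h1 := rate_lim hc fun δ h0 h1 => (h δ h0 h1).2
  have h2 := (ENNReal.tendsto_toReal hf.ne).comp hℓ
  have h3 := tendsto_nhds_unique h2 h1
  rw [← h3]
  exact ⟨(ENNReal.ofReal_toReal hf.ne).symm, ENNReal.toReal_nonneg⟩

/-- relations of all lengths, with multiplicity -/
theorem all_sigma {P : Type} (μ : P → ℕ) (hμ : ∀ p, 0 < μ p) (τ : P → ℝ) :
    (∀ K : ℕ, 1 ≤ K → ¬Rl (fun x : Σ p : P, Fin (μ p) => τ x.1) (2 * K)) ↔ (∀ q : P, μ q = 1) ∧ LinearIndependent ℚ τ := by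
  have h1 : ∀ K : ℕ, 1 ≤ K → (¬Rl (fun x : Σ p : P, Fin (μ p) => τ x.1) (2 * K) ↔ (∀ q : P, μ q = 1) ∧ ¬Rl τ (2 * K)) := fun K hK =>
    Rl_sigma μ hμ τ (by omega) (even_two_mul K)
  rw [← all_rel]
  constructor
  · intro h
    exact ⟨((h1 1 le_rfl).1 (h 1 le_rfl)).1, fun K hK => ((h1 K hK).1 (h K hK)).2⟩
  · rintro ⟨a, b⟩ K hK
    exact (h1 K hK).2 ⟨a, b K hK⟩

section gen

variable {J : Type} [Fintype J] {l : J → List ℝ} {r : J → ℕ} {N : J → ℝ} {b c : J → ℕ → ℂ} {X : J → ℂ → ℂ} {d : J → ℕ}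
variable (F : Family l r N b c X d)

include F

/-- **Rates for families**, with multiplicities. -/
theorem Family.rate2 (hd : ∀ j, 1 ≤ d j) {lam' : ℕ → ℝ} {d' : ℝ} (hl' : ∀ n, |lam' n| ≤ d' * ArithmeticFunction.vonMangoldt n)
    (hC : Cl (lamF c d) lam') {ι' : Type} (e : ι' ≃ Om X) :
    ∃ C : ℝ, Tendsto (fun σ : ℝ => mF r d / (σ - 1) - RS lam' σ) (𝓝[>] 1) (𝓝 (C - mF r d)) ∧
      (∀ K : ℕ, 1 ≤ K →
        (GRHf X → Summable fun n : Dg ι' K => Tr (fun x => wO X d (e x)) n.1 ^ 2) ∧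
        ((∃ L c : ℝ, 0 < c ∧ RateL (PM (aL lam' (mF r d) C) (4 * rO X d) K) L c) ↔ GRHf X ∧ ∃ A : ℝ, 0 < A ∧ EffTA (TS X) (2 * K) A) ∧
        (∀ c : ℝ, 0 < c → c ≤ 1 → (∃ L : ℝ, RateL (PM (aL lam' (mF r d) C) (4 * rO X d) K) L c) → GRHf X ∧ EffTA (TS X) (2 * K) (4 * K / c)) ∧
        (∀ A : ℝ, 0 ≤ A → GRHf X → EffTA (TS X) (2 * K) A → ∃ L : ℝ, RateL (PM (aL lam' (mF r d) C) (4 * rO X d) K) L (1 / (2 * (A + 1))))) ∧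
      ((∀ K : ℕ, 1 ≤ K → ∃ c : ℝ, 0 < c ∧ RateL (PM (aL lam' (mF r d) C) (4 * rO X d) K)
          ((2 * K).factorial * ∑' n : Dg ι' K, Tr (fun x => wO X d (e x)) n.1 ^ 2) c) ↔
        GRHf X ∧ (∀ K : ℕ, 1 ≤ K → ¬Rl (fun x => tO X (e x)) (2 * K)) ∧ ∀ p : ℕ, ∃ A : ℝ, 0 < A ∧ EffTA (TS X) p A) := by
  obtain ⟨C, h1, h2, -⟩ := F.rate hd hl' hC
  obtain ⟨C', h1', h2'⟩ := F.even hd hl' hC (fun j => WL.mu (X j) (1 / 2)) (fun _ => le_rfl) e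
  have hCC : C' = C := by
    have := tendsto_nhds_unique h1' h1
    linarith
  subst hCC
  have hr : (4 * ∑ j, (d j : ℝ) * WL.mu (X j) (1 / 2) : ℝ) = 4 * rO X d := rfl
  rw [hr] at h2'
  refine ⟨C', h1, fun K hK => ⟨(h2' K hK).1, (h2 K hK).2.1, (h2 K hK).2.2.1, (h2 K hK).2.2.2⟩, ?_⟩
  have hall : (∀ K : ℕ, 1 ≤ K → ∃ A : ℝ, 0 < A ∧ EffTA (TS X) (2 * K) A) ↔ ∀ p : ℕ, ∃ A : ℝ, 0 < A ∧ EffTA (TS X) p A := by
    simp_rw [← EffT_iff]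
    exact EffT_all
  constructor
  · intro h
    have hG : GRHf X := by
      obtain ⟨c, hc, h⟩ := h 1 le_rfl
      exact ((h2 1 le_rfl).2.1.1 ⟨_, c, hc, h⟩).1
    have hE := hall.1 fun K hK => by
      obtain ⟨c, hc, h⟩ := h K hK
      exact ((h2 K hK).2.1.1 ⟨_, c, hc, h⟩).2
    refine ⟨hG, fun K hK => ?_, hE⟩
    obtain ⟨-, ℓ, a1, a2, -, a4⟩ := h2' K hK
    obtain ⟨c, hc, h⟩ := h K hK
    exact (a4.1 (h.lim hc a1 (a2.2 hG)).1).2.1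
  · rintro ⟨hG, hLI, hE⟩ K hK
    obtain ⟨L, c, hc, h⟩ := (h2 K hK).2.1.2 ⟨hG, hE (2 * K)⟩
    obtain ⟨-, ℓ, a1, a2, -, a4⟩ := h2' K hK
    have h3 := a4.2 ⟨hG, hLI K hK, fun _ => rfl⟩
    obtain ⟨h4, h5⟩ := h.lim hc a1 (a2.2 hG)
    have h6 : (0 : ℝ) ≤ (2 * K).factorial * ∑' n : Dg ι' K, Tr (fun x => wO X d (e x)) n.1 ^ 2 :=
      mul_nonneg (Nat.cast_nonneg _) (tsum_nonneg fun _ => sq_nonneg _)
    rw [h3, ENNReal.ofReal_eq_ofReal_iff h6 h5] at h4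
    rw [← h4] at h
    exact ⟨c, hc, h⟩

/-- **Rates for families**, with the simple zeros split off. -/
theorem Family.rate3 (hd : ∀ j, 1 ≤ d j) {lam' : ℕ → ℝ} {d' : ℝ} (hl' : ∀ n, |lam' n| ≤ d' * ArithmeticFunction.vonMangoldt n)
    (hC : Cl (lamF c d) lam') :
    ∃ C : ℝ, Tendsto (fun σ : ℝ => mF r d / (σ - 1) - RS lam' σ) (𝓝[>] 1) (𝓝 (C - mF r d)) ∧
      (∀ K : ℕ, 1 ≤ K →
        (GRHf X → Summable fun n : Dg (PM' X) K => Tr (fun x : PM' X => (d x.1.1.1 : ℝ) / (1 / 4 + x.1.1.2.im ^ 2)) n.1 ^ 2) ∧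
        ((∃ L c : ℝ, 0 < c ∧ RateL (PM (aL lam' (mF r d) C) (4 * rO X d) K) L c) ↔ GRHf X ∧ ∃ A : ℝ, 0 < A ∧ EffTA (TS X) (2 * K) A) ∧
        (∀ c : ℝ, 0 < c → c ≤ 1 → (∃ L : ℝ, RateL (PM (aL lam' (mF r d) C) (4 * rO X d) K) L c) → GRHf X ∧ EffTA (TS X) (2 * K) (4 * K / c)) ∧
        (∀ A : ℝ, 0 ≤ A → GRHf X → EffTA (TS X) (2 * K) A → ∃ L : ℝ, RateL (PM (aL lam' (mF r d) C) (4 * rO X d) K) L (1 / (2 * (A + 1))))) ∧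
      ((∀ K : ℕ, 1 ≤ K → ∃ c : ℝ, 0 < c ∧ RateL (PM (aL lam' (mF r d) C) (4 * rO X d) K)
          ((2 * K).factorial * ∑' n : Dg (PM' X) K, Tr (fun x : PM' X => (d x.1.1.1 : ℝ) / (1 / 4 + x.1.1.2.im ^ 2)) n.1 ^ 2) c) ↔
        GRHf X ∧ ((∀ p : PO X, WL.mu (X p.1.1) p.1.2 = 1) ∧ LinearIndependent ℚ fun p : PO X => p.1.2.im) ∧
          ∀ p : ℕ, ∃ A : ℝ, 0 < A ∧ EffTA (TS X) p A) := by
  set e : PM' X ≃ Om X := (eO (X := X) (fun j s h => (F.mu_ne j s).1 h)).symm with he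
  obtain ⟨C, h1, h2, h3⟩ := F.rate2 hd hl' hC e
  have ew : (fun x : PM' X => wO X d (e x)) = fun x : PM' X => (d x.1.1.1 : ℝ) / (1 / 4 + x.1.1.2.im ^ 2) := rfl
  have et : (fun x : PM' X => tO X (e x)) = fun x : PM' X => x.1.1.2.im := rfl
  rw [ew] at h2 h3
  rw [et] at h3
  have hμ : ∀ p : PO X, 0 < WL.mu (X p.1.1) p.1.2 := fun p => Nat.pos_of_ne_zero ((F.mu_ne _ _).2 p.2.2)
  have h4 := all_sigma (fun p : PO X => WL.mu (X p.1.1) p.1.2) hμ (fun p : PO X => p.1.2.im)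
  rw [h4] at h3
  exact ⟨C, h1, h2, h3⟩

end gen

section dir

variable {q : ℕ} [NeZero q] {J : Type} [Fintype J] {χ : J → DirichletCharacter ℂ q} {d : J → ℕ}

/-- **Rates for families of Dirichlet characters.** -/
theorem dir_rate (hd : ∀ j, 1 ≤ d j) (τ : J ≃ J) (hτ : ∀ j, χ (τ j) = (χ j)⁻¹) (hdτ : ∀ j, d (τ j) = d j) :
    ∃ C : ℝ, Tendsto (fun σ : ℝ => mD χ d / (σ - 1) - RS (lamD χ d) σ) (𝓝[>] 1) (𝓝 (C - mD χ d)) ∧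
      (∀ K : ℕ, 1 ≤ K →
        (GRHD χ → Summable fun n : Dg (PDM χ) K => Tr (fun x : PDM χ => (d x.1.1.1 : ℝ) / (1 / 4 + x.1.1.2.im ^ 2)) n.1 ^ 2) ∧
        ((∃ L c : ℝ, 0 < c ∧ RateL (PM (aL (lamD χ d) (mD χ d) C) (4 * rD χ d) K) L c) ↔
          GRHD χ ∧ ∃ A : ℝ, 0 < A ∧ EffTA {t : ℝ | 0 < t ∧ ∃ j, LFunction (χ j) (1 / 2 + t * I) = 0} (2 * K) A) ∧
        (∀ c : ℝ, 0 < c → c ≤ 1 → (∃ L : ℝ, RateL (PM (aL (lamD χ d) (mD χ d) C) (4 * rD χ d) K) L c) →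
          GRHD χ ∧ EffTA {t : ℝ | 0 < t ∧ ∃ j, LFunction (χ j) (1 / 2 + t * I) = 0} (2 * K) (4 * K / c)) ∧
        (∀ A : ℝ, 0 ≤ A → GRHD χ → EffTA {t : ℝ | 0 < t ∧ ∃ j, LFunction (χ j) (1 / 2 + t * I) = 0} (2 * K) A →
          ∃ L : ℝ, RateL (PM (aL (lamD χ d) (mD χ d) C) (4 * rD χ d) K) L (1 / (2 * (A + 1))))) ∧
      ((∀ K : ℕ, 1 ≤ K → ∃ c : ℝ, 0 < c ∧ RateL (PM (aL (lamD χ d) (mD χ d) C) (4 * rD χ d) K)
          ((2 * K).factorial * ∑' n : Dg (PDM χ) K, Tr (fun x : PDM χ => (d x.1.1.1 : ℝ) / (1 / 4 + x.1.1.2.im ^ 2)) n.1 ^ 2) c) ↔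
        GRHD χ ∧ ((∀ p : PD χ, analyticOrderNatAt (LFunction (χ p.1.1)) p.1.2 = 1) ∧ LinearIndependent ℚ fun p : PD χ => p.1.2.im) ∧
          ∀ p : ℕ, ∃ A : ℝ, 0 < A ∧ EffTA {t : ℝ | 0 < t ∧ ∃ j, LFunction (χ j) (1 / 2 + t * I) = 0} p A) := by
  obtain ⟨l, r, N, c, X, F, hm, hl', hC, hz, hmu⟩ := dir_set (χ := χ) (d := d) τ hτ hdτ
  have hhalf : ∀ j, WL.mu (X j) (1 / 2) = analyticOrderNatAt (LFunction (χ j)) (1 / 2) := fun j =>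
    hmu j _ (by norm_num) (by norm_num)
  have hr : rO X d = rD χ d := by
    unfold rO rD
    exact Finset.sum_congr rfl fun j _ => by rw [hhalf]
  have hT : TS X = {t : ℝ | 0 < t ∧ ∃ j, LFunction (χ j) (1 / 2 + t * I) = 0} := by
    ext t
    unfold TS
    simp only [Set.mem_ofPred_eq]
    refine and_congr_right fun _ => exists_congr fun j => ?_
    rw [hz]
    have e : (1 / 2 + (t : ℂ) * I).re = 1 / 2 := by simp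
    rw [e]
    exact ⟨fun h => h.2.2, fun h => ⟨by norm_num, by norm_num, h⟩⟩
  have hre : ∀ p : PD χ, WL.mu (X p.1.1) p.1.2 = analyticOrderNatAt (LFunction (χ p.1.1)) p.1.2 := fun p => hmu _ _ p.2.1 p.2.2.1
  have hX0 : ∀ p : PD χ, X p.1.1 p.1.2 = 0 := fun p => (hz _ _).2 ⟨p.2.1, p.2.2.1, p.2.2.2.2⟩
  have hμ : ∀ p : PD χ, 0 < analyticOrderNatAt (LFunction (χ p.1.1)) p.1.2 := fun p => by
    rw [← hre]
    exact Nat.pos_of_ne_zero ((F.mu_ne _ _).2 (hX0 p))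
  have hmem : ∀ x : Om X, 0 < x.1.2.1.re ∧ x.1.2.1.re < 1 ∧ 0 < x.1.2.1.im ∧ LFunction (χ x.1.1) x.1.2.1 = 0 := fun x => by
    have h1 := (F.mu_ne x.1.1 x.1.2.1).1 (Nat.ne_zero_of_lt x.2.2)
    obtain ⟨a, b, c⟩ := (hz _ _).1 h1
    exact ⟨a, b, x.2.1, c⟩
  have hto : ∀ x : PDM χ, 0 < x.1.1.2.im ∧ (x.2 : ℕ) < WL.mu (X x.1.1.1) x.1.1.2 := fun x =>
    ⟨x.1.2.2.2.1, by
      rw [hre]
      exact x.2.2⟩
  have hinv : ∀ x : Om X, x.1.2.2 < analyticOrderNatAt (LFunction (χ x.1.1)) x.1.2.1 := fun x => by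
    rw [← hmu _ _ (hmem x).1 (hmem x).2.1]
    exact x.2.2
  set e : PDM χ ≃ Om X := ⟨fun x => ⟨(x.1.1.1, x.1.1.2, (x.2 : ℕ)), hto x⟩,
    fun y => ⟨⟨(y.1.1, y.1.2.1), hmem y⟩, ⟨y.1.2.2, hinv y⟩⟩, fun _ => rfl, fun _ => rfl⟩ with he
  have g1 : GRHf X ↔ GRHD χ := by
    unfold GRHf GRHD
    constructor
    · intro h j s a b e
      exact h j s ((hz j s).2 ⟨a, b, e⟩)
    · intro h j s e
      obtain ⟨a, b, e⟩ := (hz j s).1 e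
      exact h j s a b e
  have ew : (fun x : PDM χ => wO X d (e x)) = fun x : PDM χ => (d x.1.1.1 : ℝ) / (1 / 4 + x.1.1.2.im ^ 2) := rfl
  have et : (fun x : PDM χ => tO X (e x)) = fun x : PDM χ => x.1.1.2.im := rfl
  obtain ⟨C, h1, h2, h3⟩ := F.rate2 hd hl' hC e
  have h4 := all_sigma (fun p : PD χ => analyticOrderNatAt (LFunction (χ p.1.1)) p.1.2) hμ (fun p : PD χ => p.1.2.im)
  rw [ew, hm, hr, hT, g1] at h2 h3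
  rw [et, h4] at h3
  rw [hm] at h1
  exact ⟨C, h1, h2, h3⟩

end dir

end Run7.h278.LG
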