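import Pool.Agent.Run7.h278.LG.RateD

set_option autoImplicit false

/-!
# Rates of convergence with prescribed lower bounds for the central orders
-/

namespace Run7.h278.LG

open Complex Filter Topology MeasureTheory Set DirichletCharacter
open scoped ComplexConjugate ENNReal

theorem RateL.tendsto {V : ℝ → ℝ≥0∞} {L c : ℝ} (hc : 0 < c) (h : RateL V L c) : Tendsto V (𝓝[>] 0) (𝓝 (ENNReal.ofReal L)) := by
  obtain ⟨C, h⟩ := h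
  have h1 := rate_lim hc fun δ h0 h1 => (h δ h0 h1).2
  have h2 := ENNReal.tendsto_ofReal h1
  refine h2.congr' ?_
  filter_upwards [Ioo_mem_nhdsGT one_pos] with δ hδ
  exact ENNReal.ofReal_toReal (h δ hδ.1 hδ.2).1.ne

section gen

variable {J : Type} [Fintype J] {l : J → List ℝ} {r : J → ℕ} {N : J → ℝ} {b c : J → ℕ → ℂ} {X : J → ℂ → ℂ} {d : J → ℕ}
variable (F : Family l r N b c X d)

include F

/-- **Rates for families**, about the prescribed centre. -/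
theorem Family.rate4 (hd : ∀ j, 1 ≤ d j) {lam' : ℕ → ℝ} {d' : ℝ} (hl' : ∀ n, |lam' n| ≤ d' * ArithmeticFunction.vonMangoldt n)
    (hC : Cl (lamF c d) lam') (κ : J → ℕ) (hκ : ∀ j, κ j ≤ WL.mu (X j) (1 / 2)) {ι' : Type} (e : ι' ≃ Om X) :
    ∃ C : ℝ, Tendsto (fun σ : ℝ => mF r d / (σ - 1) - RS lam' σ) (𝓝[>] 1) (𝓝 (C - mF r d)) ∧
      (∀ K : ℕ, 1 ≤ K →
        (GRHf X → Summable fun n : Dg ι' K => Tr (fun x => wO X d (e x)) n.1 ^ 2) ∧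
        ((∃ c : ℝ, 0 < c ∧ RateL (PM (aL lam' (mF r d) C) (4 * ∑ j, (d j : ℝ) * κ j) K)
            ((2 * K).factorial * ∑' n : Dg ι' K, Tr (fun x => wO X d (e x)) n.1 ^ 2) c) ↔
          GRHf X ∧ ¬Rl (fun x => tO X (e x)) (2 * K) ∧ (∃ A : ℝ, 0 < A ∧ EffTA (TS X) (2 * K) A) ∧ ∀ j, WL.mu (X j) (1 / 2) = κ j)) ∧
      ((∀ K : ℕ, 1 ≤ K → ∃ c : ℝ, 0 < c ∧ RateL (PM (aL lam' (mF r d) C) (4 * ∑ j, (d j : ℝ) * κ j) K)
          ((2 * K).factorial * ∑' n : Dg ι' K, Tr (fun x => wO X d (e x)) n.1 ^ 2) c) ↔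
        GRHf X ∧ (∀ K : ℕ, 1 ≤ K → ¬Rl (fun x => tO X (e x)) (2 * K)) ∧ (∀ p : ℕ, ∃ A : ℝ, 0 < A ∧ EffTA (TS X) p A) ∧
          ∀ j, WL.mu (X j) (1 / 2) = κ j) := by
  obtain ⟨C, h1, h2, -⟩ := F.rate2 hd hl' hC e
  obtain ⟨C', h1', h2'⟩ := F.even hd hl' hC κ hκ e
  have hCC : C' = C := by
    have := tendsto_nhds_unique h1' h1
    linarith
  subst hCC
  have key : ∀ K : ℕ, 1 ≤ K → ((∃ c : ℝ, 0 < c ∧ RateL (PM (aL lam' (mF r d) C') (4 * ∑ j, (d j : ℝ) * κ j) K)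
            ((2 * K).factorial * ∑' n : Dg ι' K, Tr (fun x => wO X d (e x)) n.1 ^ 2) c) ↔
          GRHf X ∧ ¬Rl (fun x => tO X (e x)) (2 * K) ∧ (∃ A : ℝ, 0 < A ∧ EffTA (TS X) (2 * K) A) ∧ ∀ j, WL.mu (X j) (1 / 2) = κ j) := by
    intro K hK
    obtain ⟨-, ℓ, a1, a2, -, a4⟩ := h2' K hK
    have hr : (∀ j, WL.mu (X j) (1 / 2) = κ j) → (4 * ∑ j, (d j : ℝ) * κ j : ℝ) = 4 * rO X d := by
      intro h
      unfold rO
      simp_rw [h]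
    constructor
    · rintro ⟨c, hc, h⟩
      have h3 := tendsto_nhds_unique a1 (h.tendsto hc)
      obtain ⟨hG, hR, hκ'⟩ := a4.1 h3
      rw [hr hκ'] at h
      exact ⟨hG, hR, ((h2 K hK).2.1.1 ⟨_, c, hc, h⟩).2, hκ'⟩
    · rintro ⟨hG, hR, hE, hκ'⟩
      obtain ⟨L, c, hc, h⟩ := (h2 K hK).2.1.2 ⟨hG, hE⟩
      have h3 := a4.2 ⟨hG, hR, hκ'⟩
      rw [hr hκ'] at a1 ⊢
      have h4 := tendsto_nhds_unique (h.tendsto hc) a1
      obtain ⟨-, h5⟩ := h.lim hc a1 (a2.2 hG)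
      have h6 : (0 : ℝ) ≤ (2 * K).factorial * ∑' n : Dg ι' K, Tr (fun x => wO X d (e x)) n.1 ^ 2 :=
        mul_nonneg (Nat.cast_nonneg _) (tsum_nonneg fun _ => sq_nonneg _)
      rw [h3, ENNReal.ofReal_eq_ofReal_iff h5 h6] at h4
      rw [h4] at h
      exact ⟨c, hc, h⟩
  refine ⟨C', h1, fun K hK => ⟨(h2' K hK).1, key K hK⟩, ?_⟩
  have hall : (∀ K : ℕ, 1 ≤ K → ∃ A : ℝ, 0 < A ∧ EffTA (TS X) (2 * K) A) ↔ ∀ p : ℕ, ∃ A : ℝ, 0 < A ∧ EffTA (TS X) p A := by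
    simp_rw [← EffT_iff]
    exact EffT_all
  constructor
  · intro h
    refine ⟨((key 1 le_rfl).1 (h 1 le_rfl)).1, fun K hK => ((key K hK).1 (h K hK)).2.1,
      hall.1 fun K hK => ((key K hK).1 (h K hK)).2.2.1, ((key 1 le_rfl).1 (h 1 le_rfl)).2.2.2⟩
  · rintro ⟨a, b, c, d⟩ K hK
    exact (key K hK).2 ⟨a, b K hK, c (2 * K), d⟩

/-- **Rates for families**, about the prescribed centre, with the simple zeros split off. -/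
theorem Family.rate5 (hd : ∀ j, 1 ≤ d j) {lam' : ℕ → ℝ} {d' : ℝ} (hl' : ∀ n, |lam' n| ≤ d' * ArithmeticFunction.vonMangoldt n)
    (hC : Cl (lamF c d) lam') (κ : J → ℕ) (hκ : ∀ j, κ j ≤ WL.mu (X j) (1 / 2)) :
    ∃ C : ℝ, Tendsto (fun σ : ℝ => mF r d / (σ - 1) - RS lam' σ) (𝓝[>] 1) (𝓝 (C - mF r d)) ∧
      (∀ K : ℕ, 1 ≤ K →
        (GRHf X → Summable fun n : Dg (PM' X) K => Tr (fun x : PM' X => (d x.1.1.1 : ℝ) / (1 / 4 + x.1.1.2.im ^ 2)) n.1 ^ 2) ∧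
        ((∃ c : ℝ, 0 < c ∧ RateL (PM (aL lam' (mF r d) C) (4 * ∑ j, (d j : ℝ) * κ j) K)
            ((2 * K).factorial * ∑' n : Dg (PM' X) K, Tr (fun x : PM' X => (d x.1.1.1 : ℝ) / (1 / 4 + x.1.1.2.im ^ 2)) n.1 ^ 2) c) ↔
          GRHf X ∧ ((∀ p : PO X, WL.mu (X p.1.1) p.1.2 = 1) ∧ ¬Rl (fun p : PO X => p.1.2.im) (2 * K)) ∧
            (∃ A : ℝ, 0 < A ∧ EffTA (TS X) (2 * K) A) ∧ ∀ j, WL.mu (X j) (1 / 2) = κ j)) ∧
      ((∀ K : ℕ, 1 ≤ K → ∃ c : ℝ, 0 < c ∧ RateL (PM (aL lam' (mF r d) C) (4 * ∑ j, (d j : ℝ) * κ j) K)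
          ((2 * K).factorial * ∑' n : Dg (PM' X) K, Tr (fun x : PM' X => (d x.1.1.1 : ℝ) / (1 / 4 + x.1.1.2.im ^ 2)) n.1 ^ 2) c) ↔
        GRHf X ∧ ((∀ p : PO X, WL.mu (X p.1.1) p.1.2 = 1) ∧ LinearIndependent ℚ fun p : PO X => p.1.2.im) ∧
          (∀ p : ℕ, ∃ A : ℝ, 0 < A ∧ EffTA (TS X) p A) ∧ ∀ j, WL.mu (X j) (1 / 2) = κ j) := by
  set e : PM' X ≃ Om X := (eO (X := X) (fun j s h => (F.mu_ne j s).1 h)).symm with he
  obtain ⟨C, h1, h2, h3⟩ := F.rate4 hd hl' hC κ hκ e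
  have ew : (fun x : PM' X => wO X d (e x)) = fun x : PM' X => (d x.1.1.1 : ℝ) / (1 / 4 + x.1.1.2.im ^ 2) := rfl
  have et : (fun x : PM' X => tO X (e x)) = fun x : PM' X => x.1.1.2.im := rfl
  rw [ew, et] at h2 h3
  have hμ : ∀ p : PO X, 0 < WL.mu (X p.1.1) p.1.2 := fun p => Nat.pos_of_ne_zero ((F.mu_ne _ _).2 p.2.2)
  have h4 := all_sigma (fun p : PO X => WL.mu (X p.1.1) p.1.2) hμ (fun p : PO X => p.1.2.im)
  rw [h4] at h3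
  refine ⟨C, h1, fun K hK => ?_, h3⟩
  have h5 := h2 K hK
  have h6 := Rl_sigma (fun p : PO X => WL.mu (X p.1.1) p.1.2) hμ (fun p : PO X => p.1.2.im) (p := 2 * K) (by omega) (even_two_mul K)
  rw [h6] at h5
  exact h5

end gen

section dir

variable {q : ℕ} [NeZero q] {J : Type} [Fintype J] {χ : J → DirichletCharacter ℂ q} {d : J → ℕ}

/-- **Rates for families of Dirichlet characters**, about the prescribed centre. -/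
theorem dir_rate4 (hd : ∀ j, 1 ≤ d j) (τ : J ≃ J) (hτ : ∀ j, χ (τ j) = (χ j)⁻¹) (hdτ : ∀ j, d (τ j) = d j)
    (κ : J → ℕ) (hκ : ∀ j, κ j ≤ analyticOrderNatAt (LFunction (χ j)) (1 / 2)) :
    ∃ C : ℝ, Tendsto (fun σ : ℝ => mD χ d / (σ - 1) - RS (lamD χ d) σ) (𝓝[>] 1) (𝓝 (C - mD χ d)) ∧
      (∀ K : ℕ, 1 ≤ K →
        (GRHD χ → Summable fun n : Dg (PDM χ) K => Tr (fun x : PDM χ => (d x.1.1.1 : ℝ) / (1 / 4 + x.1.1.2.im ^ 2)) n.1 ^ 2) ∧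
        ((∃ c : ℝ, 0 < c ∧ RateL (PM (aL (lamD χ d) (mD χ d) C) (4 * ∑ j, (d j : ℝ) * κ j) K)
            ((2 * K).factorial * ∑' n : Dg (PDM χ) K, Tr (fun x : PDM χ => (d x.1.1.1 : ℝ) / (1 / 4 + x.1.1.2.im ^ 2)) n.1 ^ 2) c) ↔
          GRHD χ ∧ ((∀ p : PD χ, analyticOrderNatAt (LFunction (χ p.1.1)) p.1.2 = 1) ∧ ¬Rl (fun p : PD χ => p.1.2.im) (2 * K)) ∧
            (∃ A : ℝ, 0 < A ∧ EffTA {t : ℝ | 0 < t ∧ ∃ j, LFunction (χ j) (1 / 2 + t * I) = 0} (2 * K) A) ∧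
            ∀ j, analyticOrderNatAt (LFunction (χ j)) (1 / 2) = κ j)) ∧
      ((∀ K : ℕ, 1 ≤ K → ∃ c : ℝ, 0 < c ∧ RateL (PM (aL (lamD χ d) (mD χ d) C) (4 * ∑ j, (d j : ℝ) * κ j) K)
          ((2 * K).factorial * ∑' n : Dg (PDM χ) K, Tr (fun x : PDM χ => (d x.1.1.1 : ℝ) / (1 / 4 + x.1.1.2.im ^ 2)) n.1 ^ 2) c) ↔
        GRHD χ ∧ ((∀ p : PD χ, analyticOrderNatAt (LFunction (χ p.1.1)) p.1.2 = 1) ∧ LinearIndependent ℚ fun p : PD χ => p.1.2.im) ∧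
          (∀ p : ℕ, ∃ A : ℝ, 0 < A ∧ EffTA {t : ℝ | 0 < t ∧ ∃ j, LFunction (χ j) (1 / 2 + t * I) = 0} p A) ∧
          ∀ j, analyticOrderNatAt (LFunction (χ j)) (1 / 2) = κ j) := by
  obtain ⟨l, r, N, c, X, F, hm, hl', hC, hz, hmu⟩ := dir_set (χ := χ) (d := d) τ hτ hdτ
  have hhalf : ∀ j, WL.mu (X j) (1 / 2) = analyticOrderNatAt (LFunction (χ j)) (1 / 2) := fun j =>
    hmu j _ (by norm_num) (by norm_num)
  have hT : TS X = {t : ℝ | 0 < t ∧ ∃ j, LFunction (χ j) (1 / 2 + t * I) = 0} := by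
    ext t
    unfold TS
    simp only [Set.mem_ofPred_eq]
    refine and_congr_right fun _ => exists_congr fun j => ?_
    rw [hz]
    have e : (1 / 2 + (t : ℂ) * I).re = 1 / 2 := by simp
    rw [e]
    exact ⟨fun h => h.2.2, fun h => ⟨by norm_num, by norm_num, h⟩⟩
  have hre : ∀ p : PD χ, WL.mu (X p.1.1) p.1.2 = analyticOrderNatAt (LFunction (χ p.1.1)) p.1.2 := fun p => hmu _ _ p.2.1 p.2.2.1
  have hX0 : ∀ p : PD χ, X p.1.1 p.1.2 = 0 := fun p => (hz _ _).2 ⟨p.2.1, p.2.2.1, p.2.2.2.2⟩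
  have hμ : ∀ p : PD χ, 0 < analyticOrderNatAt (LFunction (χ p.1.1)) p.1.2 := fun p => by
    rw [← hre]
    exact Nat.pos_of_ne_zero ((F.mu_ne _ _).2 (hX0 p))
  have hmem : ∀ x : Om X, 0 < x.1.2.1.re ∧ x.1.2.1.re < 1 ∧ 0 < x.1.2.1.im ∧ LFunction (χ x.1.1) x.1.2.1 = 0 := fun x => by
    have h1 := (F.mu_ne x.1.1 x.1.2.1).1 (Nat.ne_zero_of_lt x.2.2)
    obtain ⟨a, b, c⟩ := (hz _ _).1 h1
    exact ⟨a, b, x.2.1, c⟩
  have hto : ∀ x : PDM χ, 0 < x.1.1.2.im ∧ (x.2 : ℕ) < WL.mu (X x.1.1.1) x.1.1.2 := fun x =>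
    ⟨x.1.2.2.2.1, by
      rw [hre]
      exact x.2.2⟩
  have hinv : ∀ x : Om X, x.1.2.2 < analyticOrderNatAt (LFunction (χ x.1.1)) x.1.2.1 := fun x => by
    rw [← hmu _ _ (hmem x).1 (hmem x).2.1]
    exact x.2.2
  set e : PDM χ ≃ Om X := ⟨fun x => ⟨(x.1.1.1, x.1.1.2, (x.2 : ℕ)), hto x⟩,
    fun y => ⟨⟨(y.1.1, y.1.2.1), hmem y⟩, ⟨y.1.2.2, hinv y⟩⟩, fun _ => rfl, fun _ => rfl⟩ with he
  have g1 : GRHf X ↔ GRHD χ := by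
    unfold GRHf GRHD
    constructor
    · intro h j s a b e
      exact h j s ((hz j s).2 ⟨a, b, e⟩)
    · intro h j s e
      obtain ⟨a, b, e⟩ := (hz j s).1 e
      exact h j s a b e
  have ew : (fun x : PDM χ => wO X d (e x)) = fun x : PDM χ => (d x.1.1.1 : ℝ) / (1 / 4 + x.1.1.2.im ^ 2) := rfl
  have et : (fun x : PDM χ => tO X (e x)) = fun x : PDM χ => x.1.1.2.im := rfl
  obtain ⟨C, h1, h2, h3⟩ := F.rate4 hd hl' hC κ (fun j => by rw [hhalf]; exact hκ j) e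
  have h4 := all_sigma (fun p : PD χ => analyticOrderNatAt (LFunction (χ p.1.1)) p.1.2) hμ (fun p : PD χ => p.1.2.im)
  rw [ew, et, hm, hT, g1] at h2 h3
  rw [h4] at h3
  simp_rw [hhalf] at h3
  rw [hm] at h1
  refine ⟨C, h1, fun K hK => ?_, h3⟩
  have h5 := h2 K hK
  have h6 := Rl_sigma (fun p : PD χ => analyticOrderNatAt (LFunction (χ p.1.1)) p.1.2) hμ (fun p : PD χ => p.1.2.im)
    (p := 2 * K) (by omega) (even_two_mul K)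
  rw [h6] at h5
  simp_rw [hhalf] at h5
  exact h5

end dir

end Run7.h278.LG
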