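import Pool.Agent.Run7.h278.LG.RateLI

set_option autoImplicit false

/-!
# The order of the smallest gaps
-/

namespace Run7.h278.LG

open Filter Topology MeasureTheory Set Run7.h278.LM Run7.h278.WL
open scoped ENNReal

section

variable {T : Set ℝ} {m : ℝ → ℕ} {g : ℕ → ℝ}

/-- an enumeration with multiplicity -/
structure En (T : Set ℝ) (m : ℝ → ℕ) (g : ℕ → ℝ) : Prop where
  mono : Monotone g
  mem : ∀ n, g n ∈ T
  card : ∀ t ∈ T, {n | g n = t}.encard = m t

theorem En.count (en : En T m g) (ct : Ct T (fun t => (m t : ℝ))) (y : ℝ) :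
    ∃ N : ℕ, (N : ℝ) = Bt T (fun t => (m t : ℝ)) y ∧ ∀ n, g n ≤ y ↔ n < N := by
  classical
  rcases le_or_gt y 0 with hy | hy
  · obtain ⟨t0, ht0, ht⟩ := ct.t0
    refine ⟨0, ?_, fun n => ?_⟩
    · rw [ct.zero ht (hy.trans_lt ht0)]
      simp
    · have h1 := ct.pos _ (en.mem n)
      constructor
      · intro h
        linarith
      · intro h
        omega
  obtain ⟨A, hA⟩ := ct.A 0 y
  have hfin : ∀ t ∈ T, {n | g n = t}.Finite := fun t ht => Set.finite_of_encard_eq_coe (en.card t ht)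
  have hS : {n | g n ≤ y}.Finite := by
    refine Set.Finite.subset (Set.Finite.biUnion (A.finite_toSet) fun t ht => hfin t ((hA t).1 ht).1) fun n hn => ?_
    simp only [Set.mem_iUnion]
    exact ⟨g n, (hA _).2 ⟨en.mem n, ct.pos _ (en.mem n), hn⟩, rfl⟩
  set S := hS.toFinset with hSd
  have hmem : ∀ n, n ∈ S ↔ g n ≤ y := fun n => hS.mem_toFinset
  have h1 : S.card = ∑ t ∈ A, m t := by
    rw [Finset.card_eq_sum_card_fiberwise (f := g) (s := S) (t := A) fun n hn => (hA _).2 ⟨en.mem n, ct.pos _ (en.mem n), (hmem n).1 hn⟩]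
    refine Finset.sum_congr rfl fun t ht => ?_
    have h2 : ((S.filter fun n => g n = t : Finset ℕ) : Set ℕ) = {n | g n = t} := by
      ext n
      simp only [Finset.coe_filter, Set.mem_ofPred_eq]
      refine ⟨fun h => h.2, fun h => ⟨(hmem n).2 ?_, h⟩⟩
      rw [h]
      exact ((hA t).1 ht).2.2
    have h3 := en.card t ((hA t).1 ht).1
    rw [← h2, Set.encard_coe_eq_coe_finsetCard] at h3
    exact_mod_cast h3
  have h4 := ct.Bt_A hy.le hA
  obtain ⟨t0, ht0, ht⟩ := ct.t0
  rw [ct.zero ht ht0, sub_zero] at h4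
  refine ⟨S.card, ?_, fun n => ?_⟩
  · rw [h4, h1]
    push_cast
    rfl
  · rw [← hmem]
    constructor
    · intro hn
      have h5 : Finset.range (n + 1) ⊆ S := fun k hk => by
        rw [hmem]
        exact (en.mono (by simpa [Nat.lt_succ_iff] using hk)).trans ((hmem n).1 hn)
      have := Finset.card_le_card h5
      rw [Finset.card_range] at this
      omega
    · intro hn
      by_contra hc
      have h5 : S ⊆ Finset.range n := fun k hk => by
        rw [Finset.mem_range]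
        by_contra hk'
        exact hc ((hmem n).2 ((en.mono (not_lt.1 hk')).trans ((hmem k).1 hk)))
      have := Finset.card_le_card h5
      rw [Finset.card_range] at this
      omega

theorem bt_low {B : ℝ → ℝ} {κ : ℝ} (hκ : 0 < κ) (hl : Tendsto (fun y => B y / (y * Real.log y)) atTop (𝓝 κ)) : ∀ᶠ y in atTop, y < B y := by
  have h1 : ∀ᶠ y in atTop, κ / 2 < B y / (y * Real.log y) := hl.eventually_const_lt (by linarith)
  have h2 : ∀ᶠ y in atTop, 2 / κ ≤ Real.log y := Real.tendsto_log_atTop.eventually_ge_atTop _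
  filter_upwards [h1, h2, eventually_gt_atTop (1 : ℝ)] with y h1 h2 h3
  have h4 : 0 < Real.log y := Real.log_pos h3
  rw [lt_div_iff₀ (by positivity)] at h1
  have h5 : 1 ≤ κ / 2 * Real.log y := by
    have := mul_le_mul_of_nonneg_left h2 (by positivity : 0 ≤ κ / 2)
    have e : κ / 2 * (2 / κ) = 1 := by field_simp
    linarith
  nlinarith

theorem bt_up {B : ℝ → ℝ} {κ : ℝ} (hl : Tendsto (fun y => B y / (y * Real.log y)) atTop (𝓝 κ)) {ε : ℝ} (hε : 0 < ε) :
    ∀ᶠ y in atTop, B y ≤ y ^ (1 + ε) := by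
  have h1 : ∀ᶠ y in atTop, B y / (y * Real.log y) < |κ| + 1 := hl.eventually_lt_const (by linarith [le_abs_self κ])
  have h2 : ∀ᶠ y in atTop, ‖Real.log y‖ ≤ 1 / (|κ| + 1) * ‖y ^ ε‖ := (isLittleO_log_rpow_atTop hε).def (by positivity)
  filter_upwards [h1, h2, eventually_gt_atTop (1 : ℝ)] with y h1 h2 h3
  have h4 : 0 < Real.log y := Real.log_pos h3
  have h0 : 0 < y := by linarith
  rw [div_lt_iff₀ (by positivity)] at h1
  rw [Real.norm_of_nonneg h4.le, Real.norm_of_nonneg (by positivity)] at h2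
  have h5 : (|κ| + 1) * Real.log y ≤ y ^ ε := by
    have := mul_le_mul_of_nonneg_left h2 (by positivity : 0 ≤ |κ| + 1)
    have e : (|κ| + 1) * (1 / (|κ| + 1) * y ^ ε) = y ^ ε := by field_simp
    linarith
  rw [Real.rpow_add h0, Real.rpow_one]
  calc B y ≤ (|κ| + 1) * (y * Real.log y) := h1.le
    _ = y * ((|κ| + 1) * Real.log y) := by ring
    _ ≤ y * y ^ ε := mul_le_mul_of_nonneg_left h5 h0.le

/-- the liminf of `log (g (n+1) - g n) / log (n + 1)` -/
noncomputable def alpha (g : ℕ → ℝ) : EReal :=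
  Filter.liminf (fun n : ℕ => if g (n + 1) = g n then (⊥ : EReal) else ((Real.log (g (n + 1) - g n) / Real.log (n + 1) : ℝ) : EReal)) atTop

/-- **From gaps to the order.** -/
theorem En.lower (en : En T m g) (ct : Ct T (fun t => (m t : ℝ))) {κ : ℝ} (hκ : 0 < κ)
    (hl : Tendsto (fun y => Bt T (fun t => (m t : ℝ)) y / (y * Real.log y)) atTop (𝓝 κ)) {A : ℝ}
    (hfin : {t | t ∈ T ∧ m t ≠ 1}.Finite) (hg : GapA T A) : ((-A : ℝ) : EReal) ≤ alpha g := by
  classical
  obtain ⟨c, hc, hg⟩ := hg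
  -- `g n ≤ n`
  have h1 : ∀ᶠ n : ℕ in atTop, g n ≤ n := by
    filter_upwards [tendsto_natCast_atTop_atTop.eventually (bt_low hκ hl)] with n hn
    obtain ⟨N, hN, hN'⟩ := en.count ct (n : ℝ)
    rw [hN']
    rw [← hN] at hn
    exact_mod_cast hn
  -- `g n → ∞`
  have h2 : Tendsto g atTop atTop := by
    refine tendsto_atTop.2 fun y => ?_
    obtain ⟨N, -, hN'⟩ := en.count ct y
    filter_upwards [eventually_ge_atTop N] with n hn
    by_contra hcon
    have := (hN' n).1 (not_le.1 hcon).le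
    omega
  obtain ⟨M, hM⟩ : ∃ M : ℝ, ∀ t ∈ T, m t ≠ 1 → t ≤ M := by
    obtain ⟨M, hM⟩ := hfin.bddAbove
    exact ⟨M, fun t h3 h4 => hM ⟨h3, h4⟩⟩
  have h3 : ∀ᶠ n in atTop, g (n + 1) ≠ g n := by
    filter_upwards [h2.eventually_gt_atTop M] with n hn heq
    have h4 : m (g n) = 1 := by
      by_contra h5
      exact absurd (hM _ (en.mem n) h5) (not_le.2 hn)
    have h5 := en.card _ (en.mem n)
    rw [h4, Nat.cast_one, Set.encard_eq_one] at h5
    obtain ⟨x, hx⟩ := h5
    have h6 : n ∈ ({x} : Set ℕ) := by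
      rw [← hx]
      rfl
    have h7 : n + 1 ∈ ({x} : Set ℕ) := by
      rw [← hx]
      exact heq
    simp only [Set.mem_singleton_iff] at h6 h7
    omega
  have hlog : Tendsto (fun n : ℕ => Real.log ((n : ℝ) + 1)) atTop atTop :=
    Real.tendsto_log_atTop.comp (tendsto_atTop_add_const_right _ _ tendsto_natCast_atTop_atTop)
  have hlim : Tendsto (fun n : ℕ => ((Real.log c / Real.log ((n : ℝ) + 1) - A : ℝ) : EReal)) atTop (𝓝 ((-A : ℝ) : EReal)) := by
    refine (continuous_coe_real_ereal.tendsto _).comp ?_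
    have h4 := (hlog.const_div_atTop (Real.log c)).sub_const A
    rwa [zero_sub] at h4
  rw [← hlim.liminf_eq]
  unfold alpha
  refine liminf_le_liminf ?_
  filter_upwards [h3, (tendsto_add_atTop_nat 1).eventually h1, eventually_ge_atTop 1] with n h3 h4 h5
  rw [if_neg h3, EReal.coe_le_coe_iff]
  have h6 : g n < g (n + 1) := lt_of_le_of_ne (en.mono (Nat.le_succ n)) (Ne.symm h3)
  push_cast at h4
  have hn1 : (1 : ℝ) ≤ (n : ℝ) + 1 := by
    have : (0 : ℝ) ≤ n := Nat.cast_nonneg n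
    linarith
  have h7 := hg ((n : ℝ) + 1) hn1 (g n) (en.mem n) (g (n + 1)) (en.mem _) h6 h4
  have hn2 : (0 : ℝ) < Real.log ((n : ℝ) + 1) := Real.log_pos (by
    have : (1 : ℝ) ≤ n := by exact_mod_cast h5
    linarith)
  have h8 : Real.log (c * ((n : ℝ) + 1) ^ (-A)) ≤ Real.log (g (n + 1) - g n) := Real.log_le_log (by positivity) h7
  rw [Real.log_mul hc.ne' (by positivity), Real.log_rpow (by linarith)] at h8
  rw [div_sub' (by positivity), div_le_div_iff_of_pos_right hn2]
  linarith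

/-- **From the order to gaps.** -/
theorem En.upper (en : En T m g) (ct : Ct T (fun t => (m t : ℝ))) (hm : ∀ t ∈ T, 1 ≤ m t) {κ : ℝ}
    (hl : Tendsto (fun y => Bt T (fun t => (m t : ℝ)) y / (y * Real.log y)) atTop (𝓝 κ)) {A : ℝ} (hA : 0 < A)
    (ha : ((-A : ℝ) : EReal) < alpha g) : {t | t ∈ T ∧ m t ≠ 1}.Finite ∧ GapA T A := by
  classical
  obtain ⟨b, hb1, hb2, hb3⟩ : ∃ b : ℝ, -A < b ∧ b < 0 ∧ ((b : ℝ) : EReal) < alpha g := by
    obtain ⟨b, h1, h2⟩ := EReal.lt_iff_exists_real_btwn.1 ha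
    refine ⟨min b (-A / 2), ?_, ?_, ?_⟩
    · rw [lt_min_iff]
      exact ⟨by exact_mod_cast h1, by linarith⟩
    · exact (min_le_right _ _).trans_lt (by linarith)
    · refine lt_of_le_of_lt ?_ h2
      exact_mod_cast min_le_left _ _
  have h2 : Tendsto g atTop atTop := by
    refine tendsto_atTop.2 fun y => ?_
    obtain ⟨N, -, hN'⟩ := en.count ct y
    filter_upwards [eventually_ge_atTop N] with n hn
    by_contra hcon
    have := (hN' n).1 (not_le.1 hcon).le
    omega
  have h3 := Filter.eventually_lt_of_lt_liminf hb3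
  have h4 : ∀ᶠ n : ℕ in atTop, g (n + 1) ≠ g n ∧ ((n : ℝ) + 1) ^ b ≤ g (n + 1) - g n := by
    filter_upwards [h3, eventually_ge_atTop 1] with n h3 h5
    by_cases h6 : g (n + 1) = g n
    · rw [if_pos h6] at h3
      exact absurd h3 not_lt_bot
    · rw [if_neg h6, EReal.coe_lt_coe_iff] at h3
      refine ⟨h6, ?_⟩
      have h7 : 0 < g (n + 1) - g n := sub_pos.2 (lt_of_le_of_ne (en.mono (Nat.le_succ n)) (Ne.symm h6))
      have hn2 : (0 : ℝ) < Real.log ((n : ℝ) + 1) := Real.log_pos (by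
        have : (1 : ℝ) ≤ n := by exact_mod_cast h5
        linarith)
      rw [lt_div_iff₀ hn2] at h3
      have h8 : (0 : ℝ) < (n : ℝ) + 1 := by positivity
      rw [Real.rpow_def_of_pos h8, ← Real.le_log_iff_exp_le h7]
      linarith
  -- the exponent
  set ε : ℝ := A / (-b) - 1 with hε
  have hb0 : 0 < -b := by linarith
  have hε0 : 0 < ε := by
    rw [hε, sub_pos, one_lt_div hb0]
    linarith
  have h5 : ∀ᶠ n : ℕ in atTop, g (n + 1) ≠ g n ∧ (g (n + 1)) ^ (-A) ≤ g (n + 1) - g n := by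
    filter_upwards [h4, ((tendsto_add_atTop_nat 1).eventually (h2.eventually (bt_up hl hε0)))] with n h4 h6
    refine ⟨h4.1, le_trans ?_ h4.2⟩
    obtain ⟨N, hN, hN'⟩ := en.count ct (g (n + 1))
    have h7 : n + 1 < N := (hN' (n + 1)).1 le_rfl
    have h8 : (n : ℝ) + 1 ≤ (g (n + 1)) ^ (1 + ε) := by
      refine le_trans ?_ h6
      rw [← hN]
      exact_mod_cast h7.le
    have h9 := ct.pos _ (en.mem (n + 1))
    have h10 : (g (n + 1)) ^ (-A) = ((g (n + 1)) ^ (1 + ε)) ^ b := by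
      rw [← Real.rpow_mul h9.le]
      congr 1
      have hb' : b ≠ 0 := hb2.ne
      rw [hε]
      field_simp
      ring
    rw [h10]
    exact Real.rpow_le_rpow_of_nonpos (by positivity) h8 hb2.le
  obtain ⟨n0, hn0⟩ := eventually_atTop.1 h5
  have hall : ∀ t ∈ T, ∃ n, g n = t := by
    intro t ht
    have h6 := en.card t ht
    have h7 : {n | g n = t}.Nonempty := by
      rw [← Set.encard_ne_zero, h6]
      have := hm t ht
      exact_mod_cast (by omega : m t ≠ 0)
    exact h7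
  refine ⟨?_, ?_⟩
  · refine Set.Finite.subset (((Finset.range n0).finite_toSet).image g) ?_
    rintro t ⟨ht, hne⟩
    have h6 := en.card t ht
    have h7 : 1 < {n | g n = t}.encard := by
      rw [h6]
      have := hm t ht
      exact_mod_cast (by omega : 1 < m t)
    rw [Set.one_lt_encard_iff] at h7
    obtain ⟨i, j, hi, hj, hij⟩ := h7
    have key : ∀ i j : ℕ, g i = t → g j = t → i < j → i < n0 := by
      intro i j hi hj hij
      by_contra hcon
      have h8 := (hn0 i (not_lt.1 hcon)).1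
      apply h8
      refine le_antisymm ?_ (en.mono (Nat.le_succ i))
      rw [hi, ← hj]
      exact en.mono hij
    rcases lt_or_gt_of_ne hij with h8 | h8
    · exact ⟨i, by simpa using key i j hi hj h8, hi⟩
    · exact ⟨j, by simpa using key j i hj hi h8, hj⟩
  · -- the first gaps
    obtain ⟨c, hc, hc1⟩ : ∃ c : ℝ, 0 < c ∧ ∀ n : ℕ, g (n + 1) ≠ g n → c * (g (n + 1)) ^ (-A) ≤ g (n + 1) - g n := by
      have h6 : ∀ N : ℕ, ∃ c : ℝ, 0 < c ∧ ∀ n : ℕ, n < N → g (n + 1) ≠ g n → c * (g (n + 1)) ^ (-A) ≤ g (n + 1) - g n := by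
        intro N
        induction N with
        | zero => exact ⟨1, one_pos, fun n hn => absurd hn (Nat.not_lt_zero n)⟩
        | succ N ih =>
          obtain ⟨c, hc, h⟩ := ih
          by_cases h7 : g (N + 1) = g N
          · refine ⟨c, hc, fun n hn hne => ?_⟩
            rcases Nat.lt_succ_iff_lt_or_eq.1 hn with h8 | h8
            · exact h n h8 hne
            · subst h8
              exact absurd h7 hne
          · have h8 : 0 < g (N + 1) - g N := sub_pos.2 (lt_of_le_of_ne (en.mono (Nat.le_succ N)) (Ne.symm h7))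
            have h9 := ct.pos _ (en.mem (N + 1))
            have h10 : 0 < (g (N + 1)) ^ (-A) := by positivity
            refine ⟨min c ((g (N + 1) - g N) / (g (N + 1)) ^ (-A)), lt_min hc (by positivity), fun n hn hne => ?_⟩
            rcases Nat.lt_succ_iff_lt_or_eq.1 hn with h11 | h11
            · refine le_trans (mul_le_mul_of_nonneg_right (min_le_left _ _) ?_) (h n h11 hne)
              have := ct.pos _ (en.mem (n + 1))
              positivity
            · subst h11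
              refine le_trans (mul_le_mul_of_nonneg_right (min_le_right _ _) h10.le) ?_
              rw [div_mul_cancel₀ _ h10.ne']
      obtain ⟨c, hc, h⟩ := h6 n0
      refine ⟨min c 1, by positivity, fun n hne => ?_⟩
      have h9 := ct.pos _ (en.mem (n + 1))
      have h10 : 0 < (g (n + 1)) ^ (-A) := by positivity
      rcases lt_or_ge n n0 with h7 | h7
      · exact le_trans (mul_le_mul_of_nonneg_right (min_le_left _ _) h10.le) (h n h7 hne)
      · refine le_trans (mul_le_mul_of_nonneg_right (min_le_right _ _) h10.le) ?_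
        rw [one_mul]
        exact (hn0 n h7).2
    refine ⟨c, hc, fun X hX t ht t' ht' hlt hle => ?_⟩
    have hex : ∃ n, g n = t' := hall t' ht'
    set n := Nat.find hex with hn
    have hn1 : g n = t' := Nat.find_spec hex
    obtain ⟨k, hk⟩ := hall t ht
    have hkn : k < n := by
      by_contra hcon
      have := en.mono (not_lt.1 hcon)
      rw [hn1, hk] at this
      linarith
    obtain ⟨p, hp⟩ : ∃ p, n = p + 1 := ⟨n - 1, by omega⟩
    have h6 : g (p + 1) ≠ g p := by
      rw [← hp, hn1]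
      intro h
      exact Nat.find_min hex (m := p) (by omega) h.symm
    have h7 := hc1 p h6
    rw [← hp, hn1] at h7
    have h8 : g k ≤ g p := en.mono (by omega)
    rw [hk] at h8
    have h9 : 0 < t' := ct.pos _ ht'
    have h10 : X ^ (-A) ≤ t' ^ (-A) := Real.rpow_le_rpow_of_nonpos h9 hle (by linarith)
    have h11 := mul_le_mul_of_nonneg_left h10 hc.le
    linarith

end

/-- `g` lists the ordinates of the zeros in the upper half plane in nondecreasing order, with multiplicity -/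
def EnumZ (g : ℕ → ℝ) : Prop := Monotone g ∧ (∀ n, 0 < g n) ∧
  ∀ t : ℝ, 0 < t → {n | g n = t}.encard = ((∑ᶠ β : ℝ, analyticOrderNatAt riemannZeta (β + t * Complex.I) : ℕ) : ℕ∞)

theorem ord_zero {s : ℂ} (hs : s ≠ 1) (h : riemannZeta s ≠ 0) : analyticOrderNatAt riemannZeta s = 0 := by
  have han : AnalyticAt ℂ riemannZeta s := by
    have hd : DifferentiableOn ℂ riemannZeta {1}ᶜ := fun z hz => (differentiableAt_riemannZeta hz).differentiableWithinAt
    exact hd.analyticAt (isOpen_compl_singleton.mem_nhds hs)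
  have h1 : analyticOrderAt riemannZeta s = 0 := han.analyticOrderAt_eq_zero.2 h
  unfold analyticOrderNatAt
  rw [h1]
  rfl

theorem rh_re (hRH : RiemannHypothesis) {β t : ℝ} (ht : 0 < t) (h : riemannZeta (β + t * Complex.I) = 0) : β = 1 / 2 := by
  have h1 := hRH _ h (by
    rintro ⟨n, hn⟩
    have := congrArg Complex.im hn
    simp at this
    linarith) (by
    intro hn
    have := congrArg Complex.im hn
    simp at this
    linarith)
  simpa using h1

theorem enumZ_en (hRH : RiemannHypothesis) {g : ℕ → ℝ} (hg : EnumZ g) : En TZ WL.mt g := by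
  have hsum : ∀ t : ℝ, 0 < t → ∑ᶠ β : ℝ, analyticOrderNatAt riemannZeta (β + t * Complex.I) = WL.mt t := by
    intro t ht
    rw [finsum_eq_single _ (1 / 2 : ℝ)]
    · unfold WL.mt
      rw [mul_comm Complex.I]
      congr 1
      push_cast
      ring
    · intro β hβ
      refine ord_zero (fun h => ?_) fun h => hβ (rh_re hRH ht h)
      have := congrArg Complex.im h
      simp at this
      linarith
  refine ⟨hg.1, fun n => ?_, fun t ht => ?_⟩
  · have h1 := hg.2.2 (g n) (hg.2.1 n)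
    rw [hsum _ (hg.2.1 n)] at h1
    have h2 : {k | g k = g n}.encard ≠ 0 := Set.encard_ne_zero.2 ⟨n, rfl⟩
    have h3 : WL.mt (g n) ≠ 0 := by
      intro h4
      rw [h1, h4] at h2
      exact h2 rfl
    refine ⟨hg.2.1 n, ?_⟩
    by_contra h4
    refine h3 (ord_zero (fun h => ?_) h4)
    have := congrArg Complex.im h
    simp at this
    exact absurd this (hg.2.1 n).ne'
  · rw [hg.2.2 t ht.1, hsum t ht.1]

/-- the function `Bt` for zeta -/
theorem cmZ' (hRH : RiemannHypothesis) : Cm TZ (fun t => (WL.mt t : ℝ)) ∧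
    Tendsto (fun y => Bt TZ (fun t => (WL.mt t : ℝ)) y / (y * Real.log y)) atTop (𝓝 (1 / (2 * Real.pi))) := by
  have hG := GRHD_one.2 hRH
  obtain ⟨L, -, -, h⟩ := zeta_sd0 one_pos
  have e : oD chi1 (fun _ => 1) = fun t => (WL.mt t : ℝ) := funext oD_one
  have hs := (h hRH).1
  have cm : Cm (TSD chi1) (oD chi1 (fun _ => 1)) := dir_cm (fun _ => DirichletCharacter.isPrimitive_one_level_one) (by
    rw [TSD_one, e]
    exact hs)
  have hl := dir_count (χ := chi1) (fun _ => DirichletCharacter.isPrimitive_one_level_one) hG cm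
  rw [TSD_one, e] at cm hl
  refine ⟨cm, ?_⟩
  simpa using hl

/-- all but finitely many zeros in the upper half plane are simple -/
def FinMult : Prop := {s : ℂ | 0 < s.im ∧ riemannZeta s = 0 ∧ analyticOrderNatAt riemannZeta s ≠ 1}.Finite

theorem finMult_iff (hRH : RiemannHypothesis) : FinMult ↔ {t | t ∈ TZ ∧ WL.mt t ≠ 1}.Finite := by
  have e1 : ∀ t : ℝ, (1 / 2 + Complex.I * t : ℂ).im = t := fun t => by simp
  constructor
  · intro h
    refine (h.image Complex.im).subset ?_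
    rintro t ⟨ht, hne⟩
    exact ⟨1 / 2 + Complex.I * t, ⟨by rw [e1]; exact ht.1, ht.2, hne⟩, e1 t⟩
  · intro h
    refine (h.image fun t : ℝ => (1 / 2 + Complex.I * t : ℂ)).subset ?_
    rintro s ⟨h1, h2, h3⟩
    have h4 : s = 1 / 2 + Complex.I * (s.im : ℝ) := by
      have h5 : riemannZeta ((s.re : ℝ) + (s.im : ℝ) * Complex.I) = 0 := by
        rwa [Complex.re_add_im]
      have h6 := rh_re hRH h1 h5
      conv_lhs => rw [← Complex.re_add_im s, h6]
      push_cast
      ring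
    refine ⟨s.im, ⟨⟨h1, ?_⟩, ?_⟩, h4.symm⟩
    · rw [← h4]
      exact h2
    · unfold WL.mt
      rw [← h4]
      exact h3

/-- **The order of the smallest gaps and the rate of convergence.** -/
theorem zeta_alpha {g : ℕ → ℝ} (hg : EnumZ g) :
    (∀ c : ℝ, 0 < c → c ≤ 1 → RateAt (PM aa 0 1) c → FinMult → ((-(4 / c) : ℝ) : EReal) ≤ alpha g) ∧
    (∀ A : ℝ, 0 < A → RiemannHypothesis → ((-A : ℝ) : EReal) < alpha g → FinMult ∧ RateAt (PM aa 0 1) (1 / (2 * (A + 1)))) ∧
    ((∃ c : ℝ, 0 < c ∧ RateAt (PM aa 0 1) c) ∧ FinMult ↔ RiemannHypothesis ∧ ⊥ < alpha g) := by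
  have hpi := Real.pi_pos
  obtain ⟨h1, h2⟩ := zeta_gap_exp
  have hrate : ∀ c : ℝ, 0 < c → RateAt (PM aa 0 1) c → RateAt (PM aa 0 1) (min c 1) := by
    rintro c hc ⟨L, C, h⟩
    refine ⟨L, |C|, fun δ h0 h1 => ⟨(h δ h0 h1).1, (h δ h0 h1).2.trans ?_⟩⟩
    refine mul_le_mul (le_abs_self C) ?_ (by positivity) (abs_nonneg _)
    exact Real.rpow_le_rpow_of_exponent_ge h0 h1.le (min_le_left _ _)
  have q1 : ∀ c : ℝ, 0 < c → c ≤ 1 → RateAt (PM aa 0 1) c → FinMult → ((-(4 / c) : ℝ) : EReal) ≤ alpha g := by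
    intro c hc hc1 h hF
    obtain ⟨hRH, h3⟩ := h1 c hc hc1 h
    obtain ⟨cm, hl⟩ := cmZ' hRH
    exact (enumZ_en hRH hg).lower cm.ct (by positivity) hl ((finMult_iff hRH).1 hF) h3
  have q2 : ∀ A : ℝ, 0 < A → RiemannHypothesis → ((-A : ℝ) : EReal) < alpha g → FinMult ∧ RateAt (PM aa 0 1) (1 / (2 * (A + 1))) := by
    intro A hA hRH h
    obtain ⟨cm, hl⟩ := cmZ' hRH
    have hone : ∀ t ∈ TZ, 1 ≤ WL.mt t := fun t ht => by
      have := cm.one ⟨t, ht⟩
      exact_mod_cast this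
    obtain ⟨h3, h4⟩ := (enumZ_en hRH hg).upper cm.ct hone hl hA h
    exact ⟨(finMult_iff hRH).2 h3, h2 A hA.le hRH h4⟩
  refine ⟨q1, q2, ?_, ?_⟩
  · rintro ⟨⟨c, hc, h⟩, hF⟩
    have h3 := hrate c hc h
    have hc' : 0 < min c 1 := by positivity
    refine ⟨(h1 _ hc' (min_le_right _ _) h3).1, ?_⟩
    exact lt_of_lt_of_le (EReal.bot_lt_coe _) (q1 _ hc' (min_le_right _ _) h3 hF)
  · rintro ⟨hRH, h⟩
    obtain ⟨b, h3, h4⟩ := EReal.lt_iff_exists_real_btwn.1 h
    have h5 : ((-(|b| + 1) : ℝ) : EReal) < alpha g := by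
      refine lt_of_le_of_lt ?_ h4
      rw [EReal.coe_le_coe_iff]
      linarith [neg_abs_le b]
    obtain ⟨h6, h7⟩ := q2 (|b| + 1) (by positivity) hRH h5
    exact ⟨⟨_, by positivity, h7⟩, h6⟩

/-- the limit of the mean square -/
theorem V_LL (hRH : RiemannHypothesis) : Tendsto (fun δ => (PM aa 0 1 δ).toReal) (𝓝[>] 0) (𝓝 LL) := by
  obtain ⟨cm, -⟩ := cmZ' hRH
  obtain ⟨B, hB⟩ := nrZ hRH
  set e : TZ ≃ TI := Equiv.subtypeEquivRight fun t => by
    show 0 < t ∧ riemannZeta (1 / 2 + Complex.I * t) = 0 ↔ _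
    rw [Z_zero_iff] with he
  set W : ℝ → ℝ := fun t => (WL.mt t : ℝ) / (1 / 4 + t ^ 2) with hW
  have w1 : ∀ t : TZ, 0 < W t := fun t => WW_pos (e t)
  have s1 : Summable fun t : TZ => W t := cm.sum
  have hF : FFz = fun u => 0 + FI (fun t : TZ => W t) (fun t : TZ => (t : ℝ)) u := by
    funext u
    rw [zero_add]
    exact (e.tsum_eq (fun t : TI => 2 * WW t * Real.cos (t * u))).symm
  rw [hF] at hB
  have l1 := even_lim _ hB w1 s1 1
  have l2 := (ENNReal.tendsto_toReal ENNReal.ofReal_ne_top).comp l1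
  obtain ⟨n1, n2, -⟩ := Ek_Mk (fun t : TZ => (t : ℝ)) w1 s1 (2 * 1)
  rw [ENNReal.toReal_ofReal (n1.trans n2)] at l2
  have l3 := Ek_tendsto (fun t : TZ => (t : ℝ)) w1 s1 (2 * 1)
  have l4 := cov11 TZ TZ W W (fun t ht => ht.1) (fun t ht => ht.1) w1 s1 w1 s1
  have e1 : (fun u => FI (fun t : TZ => W t) (fun t : TZ => (t : ℝ)) u ^ (2 * 1)) =
      fun u => FI (fun t : TZ => W t) (fun t : TZ => (t : ℝ)) u * FI (fun t : TZ => W t) (fun t : TZ => (t : ℝ)) u := by
    funext u
    ring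
  rw [e1] at l3
  have l5 := tendsto_nhds_unique l3 l4
  have l6 : ∑' t : ↥(TZ ∩ TZ), 2 * (W t * W t) = LL := by
    rw [LL_T hRH, Set.inter_self, ← e.tsum_eq]
    refine tsum_congr fun t => ?_
    show 2 * (W t * W t) = 2 * ((WL.mt (t : ℝ) : ℝ) / (1 / 4 + (t : ℝ) ^ 2)) ^ 2
    rw [hW]
    ring
  rw [l5, l6] at l2
  exact l2

/-- all zeros in the upper half plane are simple -/
def AllSimple : Prop := ∀ s : ℂ, 0 < s.im → riemannZeta s = 0 → analyticOrderNatAt riemannZeta s = 1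

theorem allSimple_iff (hRH : RiemannHypothesis) : AllSimple ↔ ∀ v : ZI, WL.mu LI.Fs v = 1 := by
  obtain ⟨e, he⟩ := equivT hRH
  have e1 : ∀ t : ℝ, (1 / 2 + Complex.I * t : ℂ).im = t := fun t => by simp
  constructor
  · intro h v
    obtain ⟨t, rfl⟩ := e.surjective v
    rw [he, ← mult_eq t.2.1.ne']
    refine h _ ?_ ?_
    · rw [e1]
      exact t.2.1
    · exact (Z_zero_iff _).1 t.2.2
  · intro h s h1 h2
    have h4 : s = 1 / 2 + Complex.I * (s.im : ℝ) := by
      have h5 : riemannZeta ((s.re : ℝ) + (s.im : ℝ) * Complex.I) = 0 := by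
        rwa [Complex.re_add_im]
      have h6 := rh_re hRH h1 h5
      conv_lhs => rw [← Complex.re_add_im s, h6]
      push_cast
      ring
    have h5 : hZ s.im = 0 := by
      rw [Z_zero_iff, ← h4]
      exact h2
    have h6 := h (e ⟨s.im, h1, h5⟩)
    rw [he, ← mult_eq h1.ne', ← h4] at h6
    exact h6

/-- **Simplicity, the order of the smallest gaps and the rate of convergence.** -/
theorem zeta_alpha_simple {g : ℕ → ℝ} (hg : EnumZ g) :
    (∃ c C : ℝ, 0 < c ∧ ∀ δ : ℝ, 0 < δ → δ < 1 → PM aa 0 1 δ < ⊤ ∧ |(PM aa 0 1 δ).toReal - (8 * LI.li 1 - 2 * LI.li 2)| ≤ C * δ ^ c) ↔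
      RiemannHypothesis ∧ AllSimple ∧ ⊥ < alpha g := by
  obtain ⟨-, -, q3⟩ := zeta_alpha hg
  constructor
  · rintro ⟨c, C, hc, h⟩
    obtain ⟨hRH, -⟩ := zeta_gap.1 ⟨_, c, C, hc, h⟩
    have h1 := tendsto_nhds_unique (V_LL hRH) (rate_lim hc fun δ h0 h1 => (h δ h0 h1).2)
    have h2 : AllSimple := (allSimple_iff hRH).2 ((LL_eq_iff hRH).1 h1)
    have h3 : FinMult := by
      refine Set.Finite.subset Set.finite_empty ?_
      rintro s ⟨a1, a2, a3⟩
      exact absurd (h2 s a1 a2) a3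
    exact ⟨hRH, h2, (q3.1 ⟨⟨c, hc, _, C, h⟩, h3⟩).2⟩
  · rintro ⟨hRH, h2, h3⟩
    obtain ⟨⟨c, hc, L, C, h⟩, -⟩ := q3.2 ⟨hRH, h3⟩
    have h1 := tendsto_nhds_unique (V_LL hRH) (rate_lim hc fun δ h0 h1 => (h δ h0 h1).2)
    have h4 := (LL_eq_iff hRH).2 ((allSimple_iff hRH).1 h2)
    rw [← h1, h4] at h
    exact ⟨c, C, hc, h⟩

end Run7.h278.LG
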