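import Pool.Agent.Run7.h278.LG.Fam

set_option autoImplicit false

/-!
# The sum over the zeros of a family
-/

namespace Run7.h278.LG

open Complex Filter Topology MeasureTheory Set Run7.h278.LM Run7.h278.WL
open scoped ComplexConjugate
open Run7.h278.LI (Gr32 stF stF_diff)

section

variable {J : Type} [Fintype J] {l : J → List ℝ} {r : J → ℕ} {N : J → ℝ} {b c : J → ℕ → ℂ} {X : J → ℂ → ℂ} {d : J → ℕ}
variable (F : Family l r N b c X d)

/-- the zeros in the upper half plane with multiplicities -/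
abbrev Om (X : J → ℂ → ℂ) : Type := {x : J × ℂ × ℕ // 0 < x.2.1.im ∧ x.2.2 < mu (X x.1) x.2.1}

/-- the ordinates -/
noncomputable def tO (X : J → ℂ → ℂ) (x : Om X) : ℝ := x.1.2.1.im

/-- the weights -/
noncomputable def wO (X : J → ℂ → ℂ) (d : J → ℕ) (x : Om X) : ℝ := (d x.1.1 : ℝ) / (1 / 4 + x.1.2.1.im ^ 2)

/-- the weighted central order -/
noncomputable def rO (X : J → ℂ → ℂ) (d : J → ℕ) : ℝ := ∑ j, (d j : ℝ) * mu (X j) (1 / 2)

/-- the total multiplicity at height `t` -/
noncomputable def MO (X : J → ℂ → ℂ) (d : J → ℕ) (t : ℝ) : ℝ := ∑ j, (d j : ℝ) * mu (X j) (1 / 2 + t * I)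

/-- GRH for the family -/
def GRHf (X : J → ℂ → ℂ) : Prop := ∀ j s, X j s = 0 → s.re = 1 / 2

omit [Fintype J] in
theorem order_prod' (S : Finset J) {L : J → ℂ → ℂ} {z : ℂ} (h : ∀ j, AnalyticAt ℂ (L j) z) (e : J → ℕ) :
    analyticOrderAt (fun s => ∏ j ∈ S, L j s ^ e j) z = ∑ j ∈ S, e j * analyticOrderAt (L j) z := by
  classical
  induction S using Finset.induction_on with
  | empty =>
    simp only [Finset.prod_empty, Finset.sum_empty]
    exact analyticAt_const.analyticOrderAt_eq_zero.2 one_ne_zero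
  | insert i S hi ih =>
    have e1 : (fun s => ∏ j ∈ insert i S, L j s ^ e j) = (L i ^ e i) * fun s => ∏ j ∈ S, L j s ^ e j := by
      funext s
      rw [Finset.prod_insert hi]
      rfl
    rw [e1, analyticOrderAt_mul ((h i).pow _) (by
      exact Finset.analyticAt_fun_prod S fun j _ => (h j).fun_pow _), analyticOrderAt_pow (h i), Finset.sum_insert hi, ih, nsmul_eq_mul]

include F

theorem Family.diff (j : J) : Differentiable ℂ (X j) := (F.one j).raw.entire

theorem Family.ne_top (j : J) (s : ℂ) : analyticOrderAt (X j) s ≠ ⊤ := by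
  intro htop
  have h1 := analyticOrderAt_eq_top.1 htop
  have h2 : AnalyticOnNhd ℂ (X j) univ := fun w _ => (F.diff j).analyticAt w
  have h3 := h2.eqOn_of_preconnected_of_eventuallyEq (g := 0) (fun w _ => analyticAt_const) isPreconnected_univ (mem_univ s) h1
  exact (F.one j).one (h3 (mem_univ 1))

theorem Family.mu_cast (j : J) (s : ℂ) : ((mu (X j) s : ℕ) : ℕ∞) = analyticOrderAt (X j) s := by
  unfold mu
  exact Nat.cast_analyticOrderNatAt (F.ne_top j s)

theorem Family.mu_ne (j : J) (s : ℂ) : mu (X j) s ≠ 0 ↔ X j s = 0 := by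
  rw [← ((F.diff j).analyticAt s).analyticOrderAt_ne_zero, ← F.mu_cast]
  exact_mod_cast Iff.rfl

theorem Family.order_PL (s : ℂ) : analyticOrderAt (PL X d) s = ((∑ j, d j * mu (X j) s : ℕ) : ℕ∞) := by
  unfold PL
  rw [order_prod' Finset.univ (fun j => (F.diff j).analyticAt s) d]
  push_cast
  refine Finset.sum_congr rfl fun j _ => ?_
  rw [F.mu_cast]

theorem Family.PL_zero (hd : ∀ j, 1 ≤ d j) (s : ℂ) : PL X d s = 0 ↔ ∃ j, X j s = 0 := by
  unfold PL
  rw [Finset.prod_eq_zero_iff]
  constructor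
  · rintro ⟨j, -, h⟩
    exact ⟨j, pow_eq_zero_iff (by have := hd j; omega) |>.1 h⟩
  · rintro ⟨j, h⟩
    refine ⟨j, Finset.mem_univ j, ?_⟩
    rw [h]
    exact zero_pow (by have := hd j; omega)

theorem Family.rh_iff (hd : ∀ j, 1 ≤ d j) : RHf (fL (PL X d)) ↔ GRHf X := by
  obtain ⟨w, D⟩ := F.rd
  rw [RH_iff D]
  unfold GRHf
  constructor
  · intro h j s hs
    exact h s ((F.PL_zero hd s).2 ⟨j, hs⟩)
  · intro h s hs
    obtain ⟨j, hj⟩ := (F.PL_zero hd s).1 hs
    exact h j s hj

/-- the multiplicity of a zero of `fL` -/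
theorem Family.mu_f {t : ℝ} (ht : 0 < t) : (mu (fL (PL X d)) (-(1 / 4 + (t : ℂ) ^ 2)) : ℝ) = 2 * MO X d t := by
  obtain ⟨w, D⟩ := F.rd
  have hne : (1 / 2 + t * I : ℂ) ≠ 1 / 2 := by
    intro h
    have := congrArg Complex.im h
    simp at this
    exact ht.ne' this
  have h1 := order_f D hne
  rw [F.order_PL] at h1
  have e : (1 / 2 + t * I : ℂ) * (1 / 2 + t * I - 1) = -(1 / 4 + (t : ℂ) ^ 2) := by
    linear_combination (t : ℂ) ^ 2 * Complex.I_sq
  rw [e] at h1
  have h2 : mu (fL (PL X d)) (-(1 / 4 + (t : ℂ) ^ 2)) = 2 * ∑ j, d j * mu (X j) (1 / 2 + t * I) := by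
    unfold mu analyticOrderNatAt
    unfold mu analyticOrderNatAt at h1
    rw [h1]
    exact ENat.toNat_natCast (2 * _)
  rw [h2]
  unfold MO
  push_cast
  rfl

theorem Family.mu_half : (mu (fL (PL X d)) (-(1 / 4)) : ℝ) = rO X d := by
  obtain ⟨w, D⟩ := F.rd
  have h1 := order_half D
  rw [F.order_PL] at h1
  have htop : analyticOrderAt (fL (PL X d)) (-(1 / 4)) ≠ ⊤ := by
    intro h
    rw [h] at h1
    exact absurd h1 (by
      rw [ENat.top_mul (by norm_num)]
      exact (ENat.natCast_ne_top (2 * _)).symm)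
  have h2 : ((mu (fL (PL X d)) (-(1 / 4)) : ℕ) : ℕ∞) = analyticOrderAt (fL (PL X d)) (-(1 / 4)) :=
    Nat.cast_analyticOrderNatAt htop
  rw [← h2] at h1
  have h3 : mu (fL (PL X d)) (-(1 / 4)) * 2 = 2 * ∑ j, d j * mu (X j) (1 / 2) := by exact_mod_cast h1
  have h4 : mu (fL (PL X d)) (-(1 / 4)) = ∑ j, d j * mu (X j) (1 / 2) := by omega
  rw [h4]
  unfold rO
  push_cast
  rfl

theorem Family.MO_pos (hd : ∀ j, 1 ≤ d j) {t : ℝ} : 0 < MO X d t ↔ ∃ j, X j (1 / 2 + t * I) = 0 := by
  unfold MO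
  constructor
  · intro h
    by_contra hcon
    push Not at hcon
    have : ∑ j, (d j : ℝ) * mu (X j) (1 / 2 + t * I) = 0 := by
      refine Finset.sum_eq_zero fun j _ => ?_
      have : mu (X j) (1 / 2 + t * I) = 0 := by
        by_contra h0
        exact hcon j ((F.mu_ne j _).1 h0)
      rw [this]
      simp
    linarith
  · rintro ⟨j, hj⟩
    refine Finset.sum_pos' (fun i _ => by positivity) ⟨j, Finset.mem_univ j, ?_⟩
    have h1 := (F.mu_ne j (1 / 2 + t * I)).2 hj
    have h2 := hd j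
    have h3 : (0 : ℝ) < d j := by exact_mod_cast h2
    have h4 : (0 : ℝ) < mu (X j) (1 / 2 + t * I) := by exact_mod_cast Nat.pos_of_ne_zero h1
    positivity

/-- the sum over the zeros as a sum over the real line -/
theorem Family.sum_line (hd : ∀ j, 1 ≤ d j) (hG : GRHf X) (u : ℝ) :
    HasSum (fun t : ℝ => if 0 < t then 2 * MO X d t / (1 / 4 + t ^ 2) * Real.cos (t * u) else 0) (Ff (fL (PL X d)) u - 4 * rO X d) := by
  obtain ⟨w, D⟩ := F.rd
  have hRH := (F.rh_iff hd).2 hG
  have hDf := fL_data D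
  set f := fL (PL X d) with hf
  have hs := wv_summable hDf
  have hp := fun v => wv_pos hDf v
  have h1 : HasSum (fun v : ZF f => 2 * wv f v * Real.cos (fv f v * u)) (Ff f u) := by
    refine Summable.hasSum ?_
    exact Summable.of_norm_bounded (hs.mul_left 2) fun v => term_le _ (fv f) hp v u
  set g : ℝ → ℝ := fun t => (if 0 < t then 2 * MO X d t / (1 / 4 + t ^ 2) * Real.cos (t * u) else 0) +
    (if t = 0 then 4 * rO X d else 0) with hg
  have hval : ∀ v : ZF f, (v : ℂ) = -(1 / 4 + (fv f v : ℂ) ^ 2) := by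
    intro v
    obtain ⟨y, hy, hvy⟩ := hRH v v.2
    have ht2 : fv f v ^ 2 = -y - 1 / 4 := by
      unfold fv
      rw [hvy, Complex.ofReal_re]
      exact Real.sq_sqrt (by linarith)
    rw [hvy, ← Complex.ofReal_pow, ht2]
    push_cast
    ring
  have hinj : Function.Injective (fv f) := by
    intro v v' h
    apply Subtype.ext
    rw [hval v, hval v', h]
  have hnorm : ∀ v : ZF f, ‖(v : ℂ)‖ = 1 / 4 + fv f v ^ 2 := by
    intro v
    conv_lhs => rw [hval v]
    rw [norm_neg]
    have : (1 / 4 + (fv f v : ℂ) ^ 2) = ((1 / 4 + fv f v ^ 2 : ℝ) : ℂ) := by push_cast; rfl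
    rw [this, Complex.norm_real, Real.norm_eq_abs, abs_of_pos (by positivity)]
  have hgv : ∀ v : ZF f, g (fv f v) = 2 * wv f v * Real.cos (fv f v * u) := by
    intro v
    have h0 : 0 ≤ fv f v := Real.sqrt_nonneg _
    rw [hg]
    simp only
    rcases h0.eq_or_lt with h2 | h2
    · rw [if_neg (by rw [← h2]; exact lt_irrefl _), if_pos h2.symm]
      unfold wv
      rw [hnorm v, ← h2]
      have hv := hval v
      rw [← h2] at hv
      have hv' : (v : ℂ) = -(1 / 4) := by
        rw [hv]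
        push_cast
        ring
      rw [hv', F.mu_half]
      simp
      ring
    · rw [if_pos h2, if_neg h2.ne', add_zero]
      unfold wv
      rw [hnorm v]
      have h3 := F.mu_f h2
      rw [← hval v] at h3
      rw [h3]
      field_simp
  have h2 : HasSum g (Ff f u) := by
    rw [← hinj.hasSum_iff]
    · refine h1.congr_fun ?_
      intro v
      exact (hgv v)
    · intro t ht
      rw [hg]
      simp only
      rcases lt_trichotomy t 0 with h0 | h0 | h0
      · rw [if_neg (not_lt.2 h0.le), if_neg h0.ne, add_zero]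
      · rw [if_neg (by rw [h0]; exact lt_irrefl _), if_pos h0, zero_add]
        have : rO X d = 0 := by
          by_contra hr
          apply ht
          have h3 : mu f (-(1 / 4)) ≠ 0 := by
            intro h4
            have h5 := F.mu_half
            rw [← hf, h4] at h5
            exact hr (by simpa using h5.symm)
          have h4 := (mu_pos hDf.diff hDf.ne _).1 h3
          refine ⟨⟨-(1 / 4), h4⟩, ?_⟩
          unfold fv
          rw [h0]
          norm_num
        rw [this, mul_zero]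
      · rw [if_pos h0, if_neg h0.ne', add_zero]
        have : MO X d t = 0 := by
          by_contra hr
          apply ht
          have h3 : mu f (-(1 / 4 + (t : ℂ) ^ 2)) ≠ 0 := by
            intro h4
            have h5 := F.mu_f h0
            rw [← hf, h4] at h5
            have : (0 : ℝ) = 2 * MO X d t := by simpa using h5
            exact hr (by linarith)
          have h4 := (mu_pos hDf.diff hDf.ne _).1 h3
          refine ⟨⟨-(1 / 4 + (t : ℂ) ^ 2), h4⟩, ?_⟩
          unfold fv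
          have h5 : (-(1 / 4 + (t : ℂ) ^ 2)).re = -(1 / 4 + t ^ 2) := by
            have h6 : (-(1 / 4 + (t : ℂ) ^ 2)) = ((-(1 / 4 + t ^ 2) : ℝ) : ℂ) := by push_cast; rfl
            rw [h6, Complex.ofReal_re]
          simp only
          rw [h5]
          have h6 : -(-(1 / 4 + t ^ 2)) - 1 / 4 = t ^ 2 := by ring
          rw [h6, Real.sqrt_sq h0.le]
        rw [this]
        simp
  have h3 : HasSum (fun t : ℝ => if t = 0 then 4 * rO X d else 0) (4 * rO X d) := hasSum_ite_eq 0 _
  have h4 := h2.sub h3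
  refine h4.congr_fun ?_
  intro t
  rw [hg]
  simp only
  ring

/-- summability of the total weights -/
theorem Family.sum_w (hd : ∀ j, 1 ≤ d j) (hG : GRHf X) :
    Summable fun t : ℝ => if 0 < t then MO X d t / (1 / 4 + t ^ 2) else 0 := by
  have h := (F.sum_line hd hG 0).summable.mul_left (1 / 2)
  refine h.congr fun t => ?_
  split_ifs
  · rw [mul_zero, Real.cos_zero]
    ring
  · simp

omit F in
/-- a function on the zeros as a function on the product -/
noncomputable def hO (X : J → ℂ → ℂ) (d : J → ℕ) (g : ℝ → ℝ) (x : ℝ × (J × ℕ)) : ℝ :=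
  if 0 < x.1 ∧ x.2.2 < mu (X x.2.1) (1 / 2 + x.1 * I) then (d x.2.1 : ℝ) / (1 / 4 + x.1 ^ 2) * g x.1 else 0

omit F in
theorem fib (g : ℝ → ℝ) (t : ℝ) : HasSum (fun y : J × ℕ => hO X d g (t, y)) (if 0 < t then MO X d t / (1 / 4 + t ^ 2) * g t else 0) := by
  classical
  have h : ∀ j : J, HasSum (fun k : ℕ => hO X d g (t, (j, k))) (if 0 < t then (d j : ℝ) * mu (X j) (1 / 2 + t * I) / (1 / 4 + t ^ 2) * g t else 0) := by
    intro j
    have h1 : HasSum (fun k : ℕ => hO X d g (t, (j, k))) (∑ k ∈ Finset.range (mu (X j) (1 / 2 + t * I)), hO X d g (t, (j, k))) := by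
      refine hasSum_sum_of_ne_finset_zero fun k hk => ?_
      unfold hO
      rw [if_neg]
      rintro ⟨-, h2⟩
      exact hk (Finset.mem_range.2 h2)
    have h2 : ∑ k ∈ Finset.range (mu (X j) (1 / 2 + t * I)), hO X d g (t, (j, k)) =
        (if 0 < t then (d j : ℝ) * mu (X j) (1 / 2 + t * I) / (1 / 4 + t ^ 2) * g t else 0) := by
      split_ifs with ht
      · rw [Finset.sum_congr rfl (g := fun _ => (d j : ℝ) / (1 / 4 + t ^ 2) * g t) (fun k hk => by
          unfold hO
          rw [if_pos ⟨ht, Finset.mem_range.1 hk⟩])]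
        rw [Finset.sum_const, Finset.card_range, nsmul_eq_mul]
        ring
      · refine Finset.sum_eq_zero fun k _ => ?_
        unfold hO
        rw [if_neg]
        rintro ⟨h3, -⟩
        exact ht h3
    rwa [h2] at h1
  have hs : Summable fun y : J × ℕ => hO X d g (t, y) := by
    refine summable_of_ne_finset_zero (s := Finset.univ ×ˢ Finset.range (∑ j, mu (X j) (1 / 2 + t * I))) fun y hy => ?_
    unfold hO
    rw [if_neg]
    rintro ⟨-, h2⟩
    apply hy
    rw [Finset.mem_product]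
    refine ⟨Finset.mem_univ _, Finset.mem_range.2 (h2.trans_le ?_)⟩
    exact Finset.single_le_sum (f := fun j => mu (X j) (1 / 2 + t * I)) (fun _ _ => Nat.zero_le _) (Finset.mem_univ y.1)
  have h2 := (hasSum_fintype (fun j : J => if 0 < t then (d j : ℝ) * mu (X j) (1 / 2 + t * I) / (1 / 4 + t ^ 2) * g t else 0))
  have h4 := hs.hasSum
  have h5 := h4.prod_fiberwise h
  have h6 := h5.unique h2
  rw [h6] at h4
  have e : ∑ j : J, (if 0 < t then (d j : ℝ) * mu (X j) (1 / 2 + t * I) / (1 / 4 + t ^ 2) * g t else 0) =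
      if 0 < t then MO X d t / (1 / 4 + t ^ 2) * g t else 0 := by
    unfold MO
    split_ifs
    · rw [Finset.sum_div, Finset.sum_mul]
    · simp
  rwa [e] at h4

/-- sums over the zeros -/
theorem Family.sum_all (hd : ∀ j, 1 ≤ d j) (hG : GRHf X) (g : ℝ → ℝ) {B : ℝ} (hB : ∀ t, |g t| ≤ B) :
    HasSum (hO X d g) (∑' t : ℝ, if 0 < t then MO X d t / (1 / 4 + t ^ 2) * g t else 0) := by
  have h1 : Summable (hO X d fun _ => 1) := by
    have hnn : 0 ≤ hO X d fun _ => 1 := fun x => by
      unfold hO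
      split_ifs
      · positivity
      · exact le_rfl
    rw [summable_prod_of_nonneg hnn]
    refine ⟨fun t => (fib (fun _ => 1) t).summable, ?_⟩
    refine (F.sum_w hd hG).congr fun t => ?_
    rw [(fib (X := X) (d := d) (fun _ => 1) t).tsum_eq]
    simp
  have h2 : Summable (hO X d g) := by
    refine Summable.of_norm_bounded (h1.mul_left B) fun x => ?_
    unfold hO
    have h0 : 0 ≤ B := (abs_nonneg _).trans (hB 0)
    split_ifs
    · rw [norm_mul, Real.norm_eq_abs, Real.norm_eq_abs, abs_of_nonneg (by positivity), mul_one, mul_comm]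
      have := hB x.1
      gcongr
    · simp
  have h3 := h2.hasSum.prod_fiberwise fun t => fib g t
  rw [h3.tsum_eq]
  exact h2.hasSum

omit F [Fintype J] in
/-- the embedding of the zeros -/
def iO (X : J → ℂ → ℂ) (x : Om X) : ℝ × (J × ℕ) := (x.1.2.1.im, (x.1.1, x.1.2.2))

theorem Family.iO_inj (hG : GRHf X) : Function.Injective (iO X) := by
  have hz : ∀ x : Om X, x.1.2.1 = 1 / 2 + x.1.2.1.im * I := by
    intro x
    have h1 : mu (X x.1.1) x.1.2.1 ≠ 0 := by
      have := x.2.2
      omega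
    have h2 := hG _ _ ((F.mu_ne _ _).1 h1)
    apply Complex.ext
    · rw [h2]
      simp
    · simp
  intro x y h
  unfold iO at h
  rw [Prod.mk.injEq, Prod.mk.injEq] at h
  obtain ⟨h1, h2, h3⟩ := h
  apply Subtype.ext
  apply Prod.ext h2
  apply Prod.ext
  · rw [hz x, hz y, h1]
  · exact h3

theorem Family.iO_range {t : ℝ} {j : J} {k : ℕ} (h : (t, (j, k)) ∉ range (iO X)) (g : ℝ → ℝ) : hO X d g (t, (j, k)) = 0 := by
  unfold hO
  rw [if_neg]
  rintro ⟨h1, h2⟩
  apply h
  refine ⟨⟨(j, 1 / 2 + t * I, k), ?_, h2⟩, ?_⟩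
  · simpa using h1
  · unfold iO
    simp

theorem Family.iO_val (hG : GRHf X) (g : ℝ → ℝ) (x : Om X) : hO X d g (iO X x) = wO X d x * g (tO X x) := by
  have h1 : mu (X x.1.1) x.1.2.1 ≠ 0 := by
    have := x.2.2
    omega
  have h2 := hG _ _ ((F.mu_ne _ _).1 h1)
  have hz : x.1.2.1 = 1 / 2 + x.1.2.1.im * I := by
    apply Complex.ext
    · rw [h2]
      simp
    · simp
  unfold hO iO wO tO
  simp only
  rw [if_pos]
  rw [← hz]
  exact x.2

/-- sums over the zeros -/
theorem Family.sum_Om (hd : ∀ j, 1 ≤ d j) (hG : GRHf X) (g : ℝ → ℝ) {B : ℝ} (hB : ∀ t, |g t| ≤ B) :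
    HasSum (fun x : Om X => wO X d x * g (tO X x)) (∑' t : ℝ, if 0 < t then MO X d t / (1 / 4 + t ^ 2) * g t else 0) := by
  have h1 := F.sum_all hd hG g hB
  have h2 := ((F.iO_inj hG).hasSum_iff (f := hO X d g) (fun x hx => F.iO_range hx g)).2 h1
  refine h2.congr_fun ?_
  intro x
  simp only [Function.comp_apply]
  rw [F.iO_val hG]

theorem Family.wO_sum (hd : ∀ j, 1 ≤ d j) (hG : GRHf X) : Summable (wO X d) := by
  have := (F.sum_Om hd hG (fun _ => 1) (B := 1) (fun _ => by simp)).summable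
  simpa using this

omit F in
theorem wO_pos (hd : ∀ j, 1 ≤ d j) (x : Om X) : 0 < wO X d x := by
  unfold wO
  have : (0 : ℝ) < d x.1.1 := by exact_mod_cast hd x.1.1
  positivity

/-- the sum of cosines over the zeros with multiplicity -/
theorem Family.Ff_Om (hd : ∀ j, 1 ≤ d j) (hG : GRHf X) (s u : ℝ) :
    s * Ff (fL (PL X d)) u = 4 * s * rO X d + FI (fun x => s * wO X d x) (tO X) u := by
  have h1 := F.sum_Om hd hG (fun t => Real.cos (t * u)) (B := 1) (fun t => Real.abs_cos_le_one _)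
  have h2 := F.sum_line hd hG u
  have h3 : (∑' t : ℝ, if 0 < t then MO X d t / (1 / 4 + t ^ 2) * Real.cos (t * u) else 0) = (Ff (fL (PL X d)) u - 4 * rO X d) / 2 := by
    have h4 := h2.div_const 2
    rw [← h4.tsum_eq]
    refine tsum_congr fun t => ?_
    split_ifs
    · ring
    · simp
  rw [h3] at h1
  have h5 := (h1.mul_left (2 * s)).tsum_eq
  unfold FI
  have h6 : ∀ x : Om X, 2 * (s * wO X d x) * Real.cos (tO X x * u) = 2 * s * (wO X d x * Real.cos (tO X x * u)) := fun x => by ring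
  simp_rw [h6]
  rw [h5]
  ring

/-- the distinct ordinates -/
abbrev TO (X : J → ℂ → ℂ) : Type := {t : ℝ // 0 < t ∧ ∃ j, X j (1 / 2 + t * I) = 0}

omit F in
noncomputable def wT (X : J → ℂ → ℂ) (d : J → ℕ) (t : TO X) : ℝ := MO X d t / (1 / 4 + (t : ℝ) ^ 2)

theorem Family.sum_T (hd : ∀ j, 1 ≤ d j) (hG : GRHf X) (g : ℝ → ℝ) {B : ℝ} (hB : ∀ t, |g t| ≤ B) :
    HasSum (fun t : TO X => wT X d t * g t) (∑' t : ℝ, if 0 < t then MO X d t / (1 / 4 + t ^ 2) * g t else 0) := by
  have hs : Summable fun t : ℝ => if 0 < t then MO X d t / (1 / 4 + t ^ 2) * g t else 0 := by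
    refine Summable.of_norm_bounded ((F.sum_w hd hG).mul_left B) fun t => ?_
    have h0 : 0 ≤ B := (abs_nonneg _).trans (hB 0)
    have h1 : 0 ≤ MO X d t := Finset.sum_nonneg fun j _ => by positivity
    split_ifs
    · rw [norm_mul, Real.norm_eq_abs, Real.norm_eq_abs, abs_of_nonneg (by positivity), mul_comm]
      have := hB t
      gcongr
    · simp
  have h2 := ((Subtype.val_injective (p := fun t : ℝ => 0 < t ∧ ∃ j, X j (1 / 2 + t * I) = 0)).hasSum_iff
    (f := fun t : ℝ => if 0 < t then MO X d t / (1 / 4 + t ^ 2) * g t else 0) (fun t ht => by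
      split_ifs with h0
      · have : MO X d t = 0 := by
          by_contra h
          apply ht
          have h1 : 0 ≤ MO X d t := Finset.sum_nonneg fun j _ => by positivity
          exact ⟨⟨t, h0, (F.MO_pos hd).1 (lt_of_le_of_ne h1 (Ne.symm h))⟩, rfl⟩
        rw [this]
        simp
      · rfl)).2 hs.hasSum
  refine h2.congr_fun ?_
  intro t
  simp only [Function.comp_apply]
  rw [if_pos t.2.1]
  rfl

theorem Family.wT_pos (hd : ∀ j, 1 ≤ d j) (t : TO X) : 0 < wT X d t := by
  unfold wT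
  have := (F.MO_pos hd).2 t.2.2
  positivity

theorem Family.wT_sum (hd : ∀ j, 1 ≤ d j) (hG : GRHf X) : Summable (wT X d) := by
  have := (F.sum_T hd hG (fun _ => 1) (B := 1) (fun _ => by simp)).summable
  simpa using this

theorem Family.Ff_T (hd : ∀ j, 1 ≤ d j) (hG : GRHf X) (s u : ℝ) :
    s * Ff (fL (PL X d)) u = 4 * s * rO X d + FI (fun x => s * wT X d x) (fun t : TO X => (t : ℝ)) u := by
  have h1 := F.sum_T hd hG (fun t => Real.cos (t * u)) (B := 1) (fun t => Real.abs_cos_le_one _)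
  have h2 := F.sum_line hd hG u
  have h3 : (∑' t : ℝ, if 0 < t then MO X d t / (1 / 4 + t ^ 2) * Real.cos (t * u) else 0) = (Ff (fL (PL X d)) u - 4 * rO X d) / 2 := by
    have h4 := h2.div_const 2
    rw [← h4.tsum_eq]
    refine tsum_congr fun t => ?_
    split_ifs
    · ring
    · simp
  rw [h3] at h1
  have h5 := (h1.mul_left (2 * s)).tsum_eq
  unfold FI
  have h6 : ∀ x : TO X, 2 * (s * wT X d x) * Real.cos ((x : ℝ) * u) = 2 * s * (wT X d x * Real.cos ((x : ℝ) * u)) := fun x => by ring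
  simp_rw [h6]
  rw [h5]
  ring

end

end Run7.h278.LG
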