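import Pool.Agent.Run7.h278.LG.Near

set_option autoImplicit false

/-!
# Correlation of two almost periodic cosine sums
-/

namespace Run7.h278.LG

open Complex Filter Topology MeasureTheory Set Run7.h278.LM
open scoped ENNReal

section

variable {ι ι' : Type} (w t : ι → ℝ) (w' t' : ι' → ℝ)

/-- the mean of the product of powers -/
noncomputable def E2 (p q : ℕ) : ℝ := ∑' x : Dg (ι ⊕ ι) p × Dg (ι' ⊕ ι') q, open Classical in
  if fr (tt t) x.1.1 + fr (tt t') x.2.1 = 0 then (p.factorial * Tr (xx w) x.1.1) * (q.factorial * Tr (xx w') x.2.1) else 0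

/-- the sums of `p` frequencies with signs -/
def Vl (t : ι → ℝ) (p : ℕ) : Set ℝ := range fun a : Dg (ι ⊕ ι) p => fr (tt t) a.1

variable {w w'}

theorem prod_term (c c' y y' : ℝ) (u : ℝ) : ((c * c' : ℝ) : ℂ) * cexp (I * ((y + y' : ℝ) : ℂ) * u) =
    ((c : ℂ) * cexp (I * y * u)) * ((c' : ℂ) * cexp (I * y' * u)) := by
  have h : I * ((y + y' : ℝ) : ℂ) * u = I * y * u + I * y' * u := by
    rw [Complex.ofReal_add]
    ring
  rw [h, Complex.exp_add, Complex.ofReal_mul]
  ring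

theorem prod_aux {κ κ' : Type} {f : κ → ℂ} {g : κ' → ℂ} {a b : ℂ} (hf : HasSum f a) (hg : HasSum g b) (h1 : Summable fun i => ‖f i‖)
    (h2 : Summable fun i => ‖g i‖) : HasSum (fun x : κ × κ' => f x.1 * g x.2) (a * b) :=
  hf.mul hg (summable_mul_of_summable_norm h1 h2)

theorem prod_rep {κ κ' : Type} {d θ : κ → ℝ} {d' θ' : κ' → ℝ} (h0 : ∀ i, 0 < d i) (hs : Summable d) (h0' : ∀ i, 0 < d' i)
    (hs' : Summable d') {G G' : ℝ → ℝ}
    (hrep : ∀ u : ℝ, HasSum (fun i => (d i : ℂ) * cexp (I * θ i * u)) (G u : ℂ))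
    (hrep' : ∀ u : ℝ, HasSum (fun i => (d' i : ℂ) * cexp (I * θ' i * u)) (G' u : ℂ)) (u : ℝ) :
    HasSum (fun x : κ × κ' => ((d x.1 * d' x.2 : ℝ) : ℂ) * cexp (I * ((θ x.1 + θ' x.2 : ℝ) : ℂ) * u)) ((G u * G' u : ℝ) : ℂ) := by
  have n1 : Summable fun i => ‖(d i : ℂ) * cexp (I * θ i * u)‖ := by
    refine hs.congr fun i => ?_
    rw [norm_mul, LM.norm_I, Complex.norm_real, Real.norm_eq_abs, abs_of_pos (h0 i), mul_one]
  have n2 : Summable fun i => ‖(d' i : ℂ) * cexp (I * θ' i * u)‖ := by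
    refine hs'.congr fun i => ?_
    rw [norm_mul, LM.norm_I, Complex.norm_real, Real.norm_eq_abs, abs_of_pos (h0' i), mul_one]
  have h3 := prod_aux (hrep u) (hrep' u) n1 n2
  have e : (fun x : κ × κ' => ((d x.1 * d' x.2 : ℝ) : ℂ) * cexp (I * ((θ x.1 + θ' x.2 : ℝ) : ℂ) * u)) =
      fun x : κ × κ' => ((d x.1 : ℂ) * cexp (I * θ x.1 * u)) * ((d' x.2 : ℂ) * cexp (I * θ' x.2 * u)) :=
    funext fun x => prod_term _ _ _ _ _
  have e2 : ((G u * G' u : ℝ) : ℂ) = (G u : ℂ) * (G' u : ℂ) := Complex.ofReal_mul _ _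
  rw [e, e2]
  exact h3

/-- the mean of the product -/
theorem prod_mean {κ κ' : Type} {d θ : κ → ℝ} {d' θ' : κ' → ℝ} (h0 : ∀ i, 0 < d i) (hs : Summable d) (h0' : ∀ i, 0 < d' i)
    (hs' : Summable d') {G G' : ℝ → ℝ}
    (hrep : ∀ u : ℝ, HasSum (fun i => (d i : ℂ) * cexp (I * θ i * u)) (G u : ℂ))
    (hrep' : ∀ u : ℝ, HasSum (fun i => (d' i : ℂ) * cexp (I * θ' i * u)) (G' u : ℂ)) :
    Tendsto (Am fun u => G u * G' u) (𝓝[>] 0)
      (𝓝 (∑' x : κ × κ', open Classical in if θ x.1 + θ' x.2 = 0 then d x.1 * d' x.2 else 0)) :=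
  mean_rep (κ := κ × κ') (d := fun x => d x.1 * d' x.2) (θ := fun x => θ x.1 + θ' x.2) (fun x => mul_pos (h0 _) (h0' _))
    (hs.mul_of_nonneg hs' (fun a => (h0 a).le) (fun a => (h0' a).le)) fun u => prod_rep h0 hs h0' hs' hrep hrep' u

theorem E2_tendsto (hw : ∀ i, 0 < w i) (hs : Summable w) (hw' : ∀ i, 0 < w' i) (hs' : Summable w') (p q : ℕ) :
    Tendsto (Am fun u => FI w t u ^ p * FI w' t' u ^ q) (𝓝[>] 0) (𝓝 (E2 w t w' t' p q)) := by
  have hc1 : ∀ a : Dg (ι ⊕ ι) p, 0 < (p.factorial : ℝ) * Tr (xx w) a.1 := fun a => mul_pos (by positivity) (Tr_pos (xx_pos hw) _)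
  have hc2 : ∀ a : Dg (ι' ⊕ ι') q, 0 < (q.factorial : ℝ) * Tr (xx w') a.1 := fun a => mul_pos (by positivity) (Tr_pos (xx_pos hw') _)
  have s1 := (Tr_summable (xx_pos hw) (xx_sum hs) p).mul_left (p.factorial : ℝ)
  have s2 := (Tr_summable (xx_pos hw') (xx_sum hs') q).mul_left (q.factorial : ℝ)
  exact prod_mean hc1 s1 hc2 s2 (fun u => FI_pow t hw hs p u) (fun u => FI_pow t' hw' hs' q u)

/-- the values are symmetric -/
theorem Vl_neg {p : ℕ} {x : ℝ} (h : x ∈ Vl t p) : -x ∈ Vl t p := by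
  obtain ⟨a, rfl⟩ := h
  set P := Finsupp.comapDomain Sum.inl a.1 Sum.inl_injective.injOn with hP
  set Q := Finsupp.comapDomain Sum.inr a.1 Sum.inr_injective.injOn with hQ
  have e : P.sumElim Q = a.1 := Finsupp.comapDomain_sumElim_comapDomain a.1
  refine ⟨⟨Q.sumElim P, ?_⟩, ?_⟩
  · rw [deg_sumElim, add_comm, ← deg_sumElim, e, a.2]
  · show fr (tt t) (Q.sumElim P) = -fr (tt t) a.1
    rw [← e, fr_sumElim, fr_sumElim]
    ring

/-- **The correlation inequality.** -/
theorem E2_ge (hw : ∀ i, 0 < w i) (hs : Summable w) (hw' : ∀ i, 0 < w' i) (hs' : Summable w') (p q : ℕ) :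
    Ek w t p * Ek w' t' q ≤ E2 w t w' t' p q ∧
    (E2 w t w' t' p q = Ek w t p * Ek w' t' q ↔ ∀ x ∈ Vl t p, x ∈ Vl t' q → x = 0) := by
  classical
  have hc1 : ∀ a : Dg (ι ⊕ ι) p, 0 < (p.factorial : ℝ) * Tr (xx w) a.1 := fun a => mul_pos (by positivity) (Tr_pos (xx_pos hw) _)
  have hc2 : ∀ a : Dg (ι' ⊕ ι') q, 0 < (q.factorial : ℝ) * Tr (xx w') a.1 := fun a => mul_pos (by positivity) (Tr_pos (xx_pos hw') _)
  have s1 := (Tr_summable (xx_pos hw) (xx_sum hs) p).mul_left (p.factorial : ℝ)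
  have s2 := (Tr_summable (xx_pos hw') (xx_sum hs') q).mul_left (q.factorial : ℝ)
  have s12 := s1.mul_of_nonneg s2 (fun a => (hc1 a).le) (fun a => (hc2 a).le)
  set f1 : Dg (ι ⊕ ι) p → ℝ := fun a => if fr (tt t) a.1 = 0 then p.factorial * Tr (xx w) a.1 else 0 with hf1
  set f2 : Dg (ι' ⊕ ι') q → ℝ := fun a => if fr (tt t') a.1 = 0 then q.factorial * Tr (xx w') a.1 else 0 with hf2
  have p1 : ∀ a, 0 ≤ f1 a := fun a => by
    rw [hf1]
    simp only
    split_ifs
    · exact (hc1 a).le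
    · exact le_refl 0
  have p2 : ∀ a, 0 ≤ f2 a := fun a => by
    rw [hf2]
    simp only
    split_ifs
    · exact (hc2 a).le
    · exact le_refl 0
  have u1 : Summable f1 := Summable.of_nonneg_of_le p1 (fun a => by
    rw [hf1]
    simp only
    split_ifs
    · exact le_refl _
    · exact (hc1 a).le) s1
  have u2 : Summable f2 := Summable.of_nonneg_of_le p2 (fun a => by
    rw [hf2]
    simp only
    split_ifs
    · exact le_refl _
    · exact (hc2 a).le) s2
  have u12 := u1.mul_of_nonneg u2 p1 p2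
  have e1 : Ek w t p * Ek w' t' q = ∑' x : Dg (ι ⊕ ι) p × Dg (ι' ⊕ ι') q, f1 x.1 * f2 x.2 := by
    have h1 : Ek w t p = ∑' a, f1 a := by
      unfold Ek
      refine tsum_congr fun a => ?_
      rw [hf1]
    have h2 : Ek w' t' q = ∑' a, f2 a := by
      unfold Ek
      refine tsum_congr fun a => ?_
      rw [hf2]
    rw [h1, h2, u1.tsum_mul_tsum u2 u12]
  set g : Dg (ι ⊕ ι) p × Dg (ι' ⊕ ι') q → ℝ := fun x =>
    if fr (tt t) x.1.1 + fr (tt t') x.2.1 = 0 then (p.factorial * Tr (xx w) x.1.1) * (q.factorial * Tr (xx w') x.2.1) else 0 with hg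
  have e2 : E2 w t w' t' p q = ∑' x, g x := by
    unfold E2
    refine tsum_congr fun x => ?_
    rw [hg]
  have hg0 : ∀ x, 0 ≤ g x := fun x => by
    rw [hg]
    simp only
    split_ifs
    · exact (mul_pos (hc1 _) (hc2 _)).le
    · exact le_refl 0
  have hgs : Summable g := Summable.of_nonneg_of_le hg0 (fun x => by
    rw [hg]
    simp only
    split_ifs
    · exact le_refl _
    · exact (mul_pos (hc1 _) (hc2 _)).le) s12
  have hle : ∀ x, f1 x.1 * f2 x.2 ≤ g x := fun x => by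
    by_cases h1 : fr (tt t) x.1.1 = 0
    · by_cases h2 : fr (tt t') x.2.1 = 0
      · rw [hf1, hf2, hg]
        simp only
        rw [if_pos h1, if_pos h2, if_pos (by rw [h1, h2, add_zero])]
      · have : f2 x.2 = 0 := by
          rw [hf2]
          simp only
          rw [if_neg h2]
        rw [this, mul_zero]
        exact hg0 x
    · have : f1 x.1 = 0 := by
        rw [hf1]
        simp only
        rw [if_neg h1]
      rw [this, zero_mul]
      exact hg0 x
  have hdiff : HasSum (fun x => g x - f1 x.1 * f2 x.2) (E2 w t w' t' p q - Ek w t p * Ek w' t' q) := by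
    rw [e1, e2]
    exact hgs.hasSum.sub u12.hasSum
  have hd0 : ∀ x, 0 ≤ g x - f1 x.1 * f2 x.2 := fun x => sub_nonneg.2 (hle x)
  refine ⟨?_, ?_⟩
  · have := hdiff.nonneg hd0
    linarith
  · have h1 : E2 w t w' t' p q = Ek w t p * Ek w' t' q ↔ ∀ x, g x - f1 x.1 * f2 x.2 = 0 := by
      rw [← sub_eq_zero]
      constructor
      · intro h
        rw [h] at hdiff
        have h2 := (hasSum_zero_iff_of_nonneg hd0).1 hdiff
        exact fun a => congrFun h2 a
      · intro h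
        have h2 : HasSum (fun x => g x - f1 x.1 * f2 x.2) 0 := by
          simp_rw [h]
          exact hasSum_zero
        exact hdiff.unique h2
    rw [h1]
    constructor
    · intro h x hx hx'
      obtain ⟨a, ha⟩ := hx
      obtain ⟨b, hb⟩ := Vl_neg t' hx'
      have ha' : fr (tt t) a.1 = x := ha
      have hb' : fr (tt t') b.1 = -x := hb
      by_contra hne
      have h2 := h (a, b)
      have h3 : f1 a = 0 := by
        rw [hf1]
        simp only
        rw [if_neg (by rw [ha']; exact hne)]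
      have h4 : g (a, b) = (p.factorial * Tr (xx w) a.1) * (q.factorial * Tr (xx w') b.1) := by
        rw [hg]
        simp only
        rw [if_pos (by rw [ha', hb']; ring)]
      simp only [h3, zero_mul, sub_zero] at h2
      rw [h4] at h2
      exact absurd h2 (mul_pos (hc1 _) (hc2 _)).ne'
    · rintro h ⟨a, b⟩
      by_cases hab : fr (tt t) a.1 + fr (tt t') b.1 = 0
      · have h2 : fr (tt t) a.1 ∈ Vl t' q := by
          have h3 : fr (tt t') b.1 ∈ Vl t' q := ⟨b, rfl⟩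
          have h4 := Vl_neg t' h3
          have h5 : fr (tt t) a.1 = -fr (tt t') b.1 := by linarith
          rwa [h5]
        have h3 := h _ ⟨a, rfl⟩ h2
        have h3' : fr (tt t) a.1 = 0 := h3
        have h4 : fr (tt t') b.1 = 0 := by linarith
        rw [hf1, hf2, hg]
        simp only
        rw [if_pos h3', if_pos h4, if_pos hab, sub_self]
      · have h2 : f1 a * f2 b = 0 := by
          by_cases h3 : fr (tt t) a.1 = 0
          · have h4 : fr (tt t') b.1 ≠ 0 := fun h5 => hab (by rw [h3, h5, add_zero])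
            rw [hf2]
            simp only
            rw [if_neg h4, mul_zero]
          · rw [hf1]
            simp only
            rw [if_neg h3, zero_mul]
        have h3 : g (a, b) = 0 := by
          rw [hg]
          simp only
          rw [if_neg hab]
        show g (a, b) - f1 a * f2 b = 0
        rw [h2, h3, sub_zero]

theorem fr_toMultiset {Y : Type} (τ : Y → ℝ) (a : Y →₀ ℕ) : ((Finsupp.toMultiset a).map τ).sum = fr τ a := by
  classical
  unfold fr
  induction a using Finsupp.induction_linear with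
  | zero => simp
  | add f g hf hg =>
    rw [map_add, Multiset.map_add, Multiset.sum_add, hf, hg, Finsupp.sum_add_index' (by simp) (by intro i m n; push_cast; ring)]
  | single i n =>
    rw [Finsupp.toMultiset_single, Multiset.map_nsmul, Multiset.map_singleton, Multiset.sum_nsmul, Multiset.sum_singleton,
      Finsupp.sum_single_index (by simp), nsmul_eq_mul]

/-- the values as sums of multisets -/
theorem Vl_iff (p : ℕ) (x : ℝ) : x ∈ Vl t p ↔ ∃ s : Multiset ℝ, Multiset.card s = p ∧ (∀ y ∈ s, y ∈ range t ∨ -y ∈ range t) ∧ s.sum = x := by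
  classical
  constructor
  · rintro ⟨a, rfl⟩
    refine ⟨(Finsupp.toMultiset a.1).map (tt t), ?_, ?_, fr_toMultiset _ _⟩
    · rw [Multiset.card_map, Finsupp.card_toMultiset]
      exact a.2
    · intro y hy
      obtain ⟨z, -, rfl⟩ := Multiset.mem_map.1 hy
      rcases z with i | i
      · exact Or.inl ⟨i, rfl⟩
      · exact Or.inr ⟨i, by simp [tt]⟩
  · rintro ⟨s, h1, h2, rfl⟩
    have h3 : ∀ s : Multiset ℝ, (∀ y ∈ s, y ∈ range t ∨ -y ∈ range t) → ∃ s' : Multiset (ι ⊕ ι), s'.map (tt t) = s := by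
      intro s
      induction s using Multiset.induction with
      | empty => exact fun _ => ⟨0, rfl⟩
      | cons y s ih =>
        intro h
        obtain ⟨s', hs'⟩ := ih fun z hz => h z (Multiset.mem_cons_of_mem hz)
        rcases h y (Multiset.mem_cons_self y s) with ⟨i, hi⟩ | ⟨i, hi⟩
        · exact ⟨Sum.inl i ::ₘ s', by rw [Multiset.map_cons, hs', ← hi]; rfl⟩
        · refine ⟨Sum.inr i ::ₘ s', ?_⟩
          rw [Multiset.map_cons, hs']
          congr 1
          show -t i = y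
          rw [hi, neg_neg]
    obtain ⟨s', hs'⟩ := h3 s h2
    refine ⟨⟨Multiset.toFinsupp s', ?_⟩, ?_⟩
    · have h4 := Finsupp.card_toMultiset (Multiset.toFinsupp s')
      rw [Multiset.toFinsupp_toMultiset] at h4
      have h5 : (Multiset.toFinsupp s').degree = (Multiset.toFinsupp s').sum fun _ => id := rfl
      rw [h5, ← h4, ← h1, ← hs', Multiset.card_map]
    · show fr (tt t) (Multiset.toFinsupp s') = s.sum
      rw [← fr_toMultiset, Multiset.toFinsupp_toMultiset, hs']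

theorem Vl_zero : (0 : ℝ) ∈ Vl t 0 := (Vl_iff t 0 0).2 ⟨0, rfl, by simp, rfl⟩

theorem Vl_add {p q : ℕ} {x y : ℝ} (hx : x ∈ Vl t p) (hy : y ∈ Vl t q) : x + y ∈ Vl t (p + q) := by
  obtain ⟨s, h1, h2, h3⟩ := (Vl_iff t p x).1 hx
  obtain ⟨s', h1', h2', h3'⟩ := (Vl_iff t q y).1 hy
  refine (Vl_iff t (p + q) (x + y)).2 ⟨s + s', by rw [Multiset.card_add, h1, h1'], fun z hz => ?_, by rw [Multiset.sum_add, h3, h3']⟩
  rcases Multiset.mem_add.1 hz with h | h
  · exact h2 z h
  · exact h2' z h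

theorem Vl_closure (x : ℝ) : (∃ p, x ∈ Vl t p) ↔ x ∈ AddSubgroup.closure (range t) := by
  constructor
  · rintro ⟨p, h⟩
    obtain ⟨s, -, h2, rfl⟩ := (Vl_iff t p x).1 h
    refine AddSubgroup.multiset_sum_mem _ s fun y hy => ?_
    rcases h2 y hy with h3 | h3
    · exact AddSubgroup.subset_closure h3
    · have := (AddSubgroup.closure (range t)).neg_mem (AddSubgroup.subset_closure h3)
      rwa [neg_neg] at this
  · intro h
    induction h using AddSubgroup.closure_induction with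
    | mem y hy => exact ⟨1, (Vl_iff t 1 y).2 ⟨{y}, by simp, by simpa using Or.inl hy, by simp⟩⟩
    | zero => exact ⟨0, Vl_zero t⟩
    | add y z _ _ hy hz =>
      obtain ⟨p, hp⟩ := hy
      obtain ⟨q, hq⟩ := hz
      exact ⟨p + q, Vl_add t hp hq⟩
    | neg y _ hy =>
      obtain ⟨p, hp⟩ := hy
      exact ⟨p, Vl_neg t hp⟩

end

section two

variable {a F a' F' : ℝ → ℝ} {B B' : ℝ}

theorem Nr.comp2 (h : Nr a F B) (h' : Nr a' F' B') {φ ψ : ℝ → ℝ} (hφ : Continuous φ) (hψ : Continuous ψ) {L : ℝ}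
    (hL : Tendsto (Am fun u => φ (F u) * ψ (F' u)) (𝓝[>] 0) (𝓝 L)) :
    Tendsto (Am fun u => φ (a u) * ψ (a' u)) (𝓝[>] 0) (𝓝 L) := by
  obtain ⟨M, m1, m2⟩ := h.bound hφ
  obtain ⟨M', m1', m2'⟩ := h'.bound hψ
  have hM : 0 ≤ M := (abs_nonneg _).trans (m2 0)
  have hd : Tendsto (fun u => φ (a u) * ψ (a' u) - φ (F u) * ψ (F' u)) atTop (𝓝 0) := by
    have d1 := h.diff hφ
    have d2 := h'.diff hψ
    have e1 : Tendsto (fun u => (φ (a u) - φ (F u)) * ψ (a' u)) atTop (𝓝 0) := by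
      have := d1.norm.mul_const M'
      rw [norm_zero, zero_mul] at this
      rw [tendsto_zero_iff_norm_tendsto_zero]
      refine squeeze_zero' (Eventually.of_forall fun u => norm_nonneg _) ?_ this
      filter_upwards [eventually_gt_atTop 0] with u hu
      rw [norm_mul]
      exact mul_le_mul_of_nonneg_left (m1' u hu) (norm_nonneg _)
    have e2 : Tendsto (fun u => φ (F u) * (ψ (a' u) - ψ (F' u))) atTop (𝓝 0) := by
      have := d2.norm.const_mul M
      rw [norm_zero, mul_zero] at this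
      rw [tendsto_zero_iff_norm_tendsto_zero]
      refine squeeze_zero' (Eventually.of_forall fun u => norm_nonneg _) ?_ this
      filter_upwards with u
      rw [norm_mul]
      exact mul_le_mul_of_nonneg_right (m2 u) (norm_nonneg _)
    have e3 := e1.add e2
    rw [add_zero] at e3
    refine e3.congr fun u => ?_
    ring
  have h3 := Am_tail (f := fun u => φ (a u) * ψ (a' u)) (g := fun u => φ (F u) * ψ (F' u)) (B := M * M')
    ((hφ.comp h.ca).mul (hψ.comp h'.ca)).continuousOn ((hφ.comp h.cF).mul (hψ.comp h'.cF)).continuousOn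
    (fun u hu => by
      rw [abs_mul]
      exact mul_le_mul (m1 u hu) (m1' u hu) (abs_nonneg _) hM)
    (fun u _ => by
      rw [abs_mul]
      exact mul_le_mul (m2 u) (m2' u) (abs_nonneg _) hM) hd
  have h4 := h3.add hL
  rw [zero_add] at h4
  refine h4.congr fun δ => ?_
  ring

/-- the covariance -/
noncomputable def Cv (f g : ℝ → ℝ) (δ : ℝ) : ℝ := Am (fun u => f u * g u) δ - Am f δ * Am g δ

theorem Am_abs {f : ℝ → ℝ} (hf : ContinuousOn f (Ioi 0)) {M : ℝ} (hM : ∀ u, 0 < u → |f u| ≤ M) {δ : ℝ} (hδ : 0 < δ) : |Am f δ| ≤ M := by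
  have h1 := Am_int hf hM hδ
  have h2 : Am (fun _ => M) δ = M := by
    unfold Am
    rw [integral_mul_const, integral_exp_mul_Ioi (by linarith : -δ < 0)]
    simp
    field_simp
  have h3 : |∫ u : ℝ in Ioi 0, Real.exp (-δ * u) * f u| ≤ ∫ u : ℝ in Ioi 0, Real.exp (-δ * u) * M := by
    refine (abs_integral_le_integral_abs).trans ?_
    refine setIntegral_mono_on h1.abs ((integrableOn_exp_mul_Ioi (a := -δ) (by linarith) 0).mul_const _) measurableSet_Ioi fun u hu => ?_
    rw [abs_mul, abs_of_pos (Real.exp_pos _)]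
    exact mul_le_mul_of_nonneg_left (hM u hu) (Real.exp_pos _).le
  rw [← h2]
  unfold Am
  rw [abs_mul, abs_of_pos hδ]
  exact mul_le_mul_of_nonneg_left h3 hδ.le

theorem Am_add {f g : ℝ → ℝ} (hf : ContinuousOn f (Ioi 0)) {M : ℝ} (hM : ∀ u, 0 < u → |f u| ≤ M) (hg : ContinuousOn g (Ioi 0)) {M' : ℝ}
    (hM' : ∀ u, 0 < u → |g u| ≤ M') {δ : ℝ} (hδ : 0 < δ) : Am (fun u => f u + g u) δ = Am f δ + Am g δ := by
  unfold Am
  rw [← mul_add, ← integral_add (Am_int hf hM hδ) (Am_int hg hM' hδ)]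
  congr 1
  refine integral_congr_ae (Eventually.of_forall fun u => ?_)
  simp only
  ring

theorem Am_smul (c : ℝ) (f : ℝ → ℝ) (δ : ℝ) : Am (fun u => c * f u) δ = c * Am f δ := by
  have e : (fun u : ℝ => Real.exp (-δ * u) * (c * f u)) = fun u : ℝ => c * (Real.exp (-δ * u) * f u) := by
    funext u
    ring
  unfold Am
  rw [e, integral_const_mul]
  ring

/-- continuous and bounded on the positive half line -/
structure Bc (f : ℝ → ℝ) (M : ℝ) : Prop where
  c : Continuous f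
  b : ∀ u, 0 < u → |f u| ≤ M

theorem Bc.nonneg {f : ℝ → ℝ} {M : ℝ} (h : Bc f M) : 0 ≤ M := (abs_nonneg _).trans (h.b 1 one_pos)

theorem Bc.mul {f g : ℝ → ℝ} {M M' : ℝ} (h : Bc f M) (h' : Bc g M') : Bc (fun u => f u * g u) (M * M') :=
  ⟨h.c.mul h'.c, fun u hu => by
    rw [abs_mul]
    exact mul_le_mul (h.b u hu) (h'.b u hu) (abs_nonneg _) h.nonneg⟩

theorem Bc.add {f g : ℝ → ℝ} {M M' : ℝ} (h : Bc f M) (h' : Bc g M') : Bc (fun u => f u + g u) (M + M') :=
  ⟨h.c.add h'.c, fun u hu => (abs_add_le _ _).trans (add_le_add (h.b u hu) (h'.b u hu))⟩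

theorem Nr.bc (h : Nr a F B) {φ : ℝ → ℝ} (hφ : Continuous φ) : ∃ M, Bc (fun u => φ (a u)) M := by
  obtain ⟨M, m1, -⟩ := h.bound hφ
  exact ⟨M, hφ.comp h.ca, m1⟩

theorem Cv_symm (f g : ℝ → ℝ) (δ : ℝ) : Cv f g δ = Cv g f δ := by
  unfold Cv
  rw [mul_comm (Am f δ)]
  congr 2
  funext u
  ring

theorem Cv_abs {f g : ℝ → ℝ} {M M' : ℝ} (h : Bc f M) (h' : Bc g M') {δ : ℝ} (hδ : 0 < δ) : |Cv f g δ| ≤ 2 * (M * M') := by
  have h1 := Am_abs (h.mul h').c.continuousOn (h.mul h').b hδ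
  have h2 := Am_abs h.c.continuousOn h.b hδ
  have h3 := Am_abs h'.c.continuousOn h'.b hδ
  unfold Cv
  have h4 : |Am f δ * Am g δ| ≤ M * M' := by
    rw [abs_mul]
    exact mul_le_mul h2 h3 (abs_nonneg _) h.nonneg
  calc |Am (fun u => f u * g u) δ - Am f δ * Am g δ| ≤ |Am (fun u => f u * g u) δ| + |Am f δ * Am g δ| := abs_sub _ _
    _ ≤ _ := by linarith

theorem Cv_add {f f' g : ℝ → ℝ} {M M' N : ℝ} (h : Bc f M) (h' : Bc f' M') (hg : Bc g N) {δ : ℝ} (hδ : 0 < δ) :
    Cv (fun u => f u + f' u) g δ = Cv f g δ + Cv f' g δ := by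
  unfold Cv
  have e : (fun u => (f u + f' u) * g u) = fun u => f u * g u + f' u * g u := by
    funext u
    ring
  rw [e, Am_add (h.mul hg).c.continuousOn (h.mul hg).b (h'.mul hg).c.continuousOn (h'.mul hg).b hδ,
    Am_add h.c.continuousOn h.b h'.c.continuousOn h'.b hδ]
  ring

theorem Cv_smul (c : ℝ) (f g : ℝ → ℝ) (δ : ℝ) : Cv (fun u => c * f u) g δ = c * Cv f g δ := by
  unfold Cv
  have e : (fun u => (c * f u) * g u) = fun u => c * (f u * g u) := by
    funext u
    ring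
  rw [e, Am_smul, Am_smul]
  ring

/-- from the powers to all continuous functions -/
theorem cv_dense (h : Nr a F B) {g : ℝ → ℝ} {M' : ℝ} (hg : Bc g M') (c : ℝ)
    (hp : ∀ p : ℕ, Tendsto (Cv (fun u => (a u - c) ^ p) g) (𝓝[>] 0) (𝓝 0)) {φ : ℝ → ℝ} (hφ : Continuous φ) :
    Tendsto (Cv (fun u => φ (a u)) g) (𝓝[>] 0) (𝓝 0) := by
  have hP : ∀ P : Polynomial ℝ, Tendsto (Cv (fun u => P.eval (a u - c)) g) (𝓝[>] 0) (𝓝 0) := by
    intro P
    induction P using Polynomial.induction_on' with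
    | add P Q hP hQ =>
      have h1 := hP.add hQ
      rw [add_zero] at h1
      refine h1.congr' ?_
      filter_upwards [self_mem_nhdsWithin] with δ hδ
      obtain ⟨M1, m1⟩ := h.bc (φ := fun x => P.eval (x - c)) (by fun_prop)
      obtain ⟨M2, m2⟩ := h.bc (φ := fun x => Q.eval (x - c)) (by fun_prop)
      rw [← Cv_add m1 m2 hg hδ]
      simp_rw [Polynomial.eval_add]
    | monomial n x =>
      have h1 := (hp n).const_mul x
      rw [mul_zero] at h1
      refine h1.congr fun δ => ?_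
      rw [← Cv_smul]
      simp_rw [Polynomial.eval_monomial]
  rw [Metric.tendsto_nhds]
  intro ε hε
  have hM0 := hg.nonneg
  obtain ⟨η, hη, hη2⟩ : ∃ η : ℝ, 0 < η ∧ 2 * (η * M') < ε / 2 := by
    refine ⟨ε / (4 * (M' + 1)), by positivity, ?_⟩
    rw [div_mul_eq_mul_div, ← mul_div_assoc, div_lt_div_iff₀ (by positivity) (by norm_num)]
    nlinarith
  obtain ⟨P, hPa⟩ := exists_polynomial_near_of_continuousOn (-(B + |c|)) (B + |c|) (fun y => φ (y + c)) (by fun_prop) η hη
  have hb : ∀ u, 0 < u → |φ (a u) - P.eval (a u - c)| ≤ η := by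
    intro u hu
    have h1 := h.ba u hu
    have h2 : |a u - c| ≤ B + |c| := (abs_sub _ _).trans (by linarith)
    have h3 := hPa (a u - c) (abs_le.1 h2)
    simp only [sub_add_cancel] at h3
    rw [abs_sub_comm]
    exact h3.le
  obtain ⟨M1, m1⟩ := h.bc (φ := fun x => P.eval (x - c)) (by fun_prop)
  have m2 : Bc (fun u => φ (a u) - P.eval (a u - c)) η := ⟨(hφ.comp h.ca).sub (by
    have := h.ca
    fun_prop), hb⟩
  filter_upwards [self_mem_nhdsWithin, (Metric.tendsto_nhds.1 (hP P)) (ε / 2) (by linarith)] with δ hδ h1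
  rw [dist_zero_right, Real.norm_eq_abs] at h1 ⊢
  have e : (fun u => φ (a u)) = fun u => (φ (a u) - P.eval (a u - c)) + P.eval (a u - c) := by
    funext u
    ring
  have h2 := Cv_abs m2 hg hδ
  have h3 := Cv_add m2 m1 hg hδ
  rw [e, h3]
  calc |Cv (fun u => φ (a u) - P.eval (a u - c)) g δ + Cv (fun u => P.eval (a u - c)) g δ| ≤
      |Cv (fun u => φ (a u) - P.eval (a u - c)) g δ| + |Cv (fun u => P.eval (a u - c)) g δ| := abs_add_le _ _
    _ < ε := by linarith

/-- the joint moments -/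
theorem joint {ι ι' : Type} {w t : ι → ℝ} {w' t' : ι' → ℝ} {c c' : ℝ} (h : Nr a (fun u => c + FI w t u) B)
    (h' : Nr a' (fun u => c' + FI w' t' u) B') (hw : ∀ i, 0 < w i) (hs : Summable w) (hw' : ∀ i, 0 < w' i) (hs' : Summable w') (p q : ℕ) :
    Tendsto (Am fun u => (a u - c) ^ p * (a' u - c') ^ q) (𝓝[>] 0) (𝓝 (E2 w t w' t' p q)) ∧
    Tendsto (Cv (fun u => (a u - c) ^ p) (fun u => (a' u - c') ^ q)) (𝓝[>] 0) (𝓝 (E2 w t w' t' p q - Ek w t p * Ek w' t' q)) := by
  have h1 : Tendsto (Am fun u => (a u - c) ^ p * (a' u - c') ^ q) (𝓝[>] 0) (𝓝 (E2 w t w' t' p q)) := by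
    refine h.comp2 h' (φ := fun x => (x - c) ^ p) (ψ := fun x => (x - c') ^ q) (by fun_prop) (by fun_prop) ?_
    have := E2_tendsto t t' hw hs hw' hs' p q
    simp only [add_sub_cancel_left]
    exact this
  exact ⟨h1, h1.sub ((mom_lim t h hw hs p).mul (mom_lim t' h' hw' hs' q))⟩

/-- **Asymptotic independence.** -/
theorem indep {ι ι' : Type} {w t : ι → ℝ} {w' t' : ι' → ℝ} {c c' : ℝ} (h : Nr a (fun u => c + FI w t u) B)
    (h' : Nr a' (fun u => c' + FI w' t' u) B') (hw : ∀ i, 0 < w i) (hs : Summable w) (hw' : ∀ i, 0 < w' i) (hs' : Summable w') :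
    (∀ φ ψ : ℝ → ℝ, Continuous φ → Continuous ψ → Tendsto (Cv (fun u => φ (a u)) (fun u => ψ (a' u))) (𝓝[>] 0) (𝓝 0)) ↔
      ∀ x : ℝ, x ∈ AddSubgroup.closure (range t) → x ∈ AddSubgroup.closure (range t') → x = 0 := by
  constructor
  · intro hh x hx hx'
    obtain ⟨p, hp⟩ := (Vl_closure t x).2 hx
    obtain ⟨q, hq⟩ := (Vl_closure t' x).2 hx'
    have h1 := hh (fun y => (y - c) ^ p) (fun y => (y - c') ^ q) (by fun_prop) (by fun_prop)
    have h2 := (joint h h' hw hs hw' hs' p q).2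
    have h3 := tendsto_nhds_unique h1 h2
    exact (E2_ge t t' hw hs hw' hs' p q).2.1 (by linarith) x hp hq
  · intro hh φ ψ hφ hψ
    have key : ∀ p q : ℕ, Tendsto (Cv (fun u => (a u - c) ^ p) (fun u => (a' u - c') ^ q)) (𝓝[>] 0) (𝓝 0) := by
      intro p q
      have h2 := (joint h h' hw hs hw' hs' p q).2
      have h3 := (E2_ge t t' hw hs hw' hs' p q).2.2 fun x hx hx' => hh x ((Vl_closure t x).1 ⟨p, hx⟩) ((Vl_closure t' x).1 ⟨q, hx'⟩)
      rwa [h3, sub_self] at h2
    have k1 : ∀ q : ℕ, Tendsto (Cv (fun u => φ (a u)) (fun u => (a' u - c') ^ q)) (𝓝[>] 0) (𝓝 0) := by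
      intro q
      obtain ⟨M, m⟩ := h'.bc (φ := fun x => (x - c') ^ q) (by fun_prop)
      exact cv_dense h m c (fun p => key p q) hφ
    obtain ⟨M, m⟩ := h.bc hφ
    have k2 := cv_dense h' m c' (fun q => by
      refine (k1 q).congr fun δ => ?_
      exact Cv_symm _ _ δ) hψ
    refine k2.congr fun δ => ?_
    exact Cv_symm _ _ δ

end two

end Run7.h278.LG
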