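import Pool.Agent.Run7.h278.LG.Gam
import Pool.Agent.Run7.h278.LM.Off

set_option autoImplicit false

/-!
# The explicit formula for general L-functions with real coefficients
-/

namespace Run7.h278.LG

open Complex Filter Topology MeasureTheory Set Run7.h278.LM Run7.h278.WL
open Pool.Agent.H24R2.JP (Par)

/-- The analytic data: `f(w (w - 1))` is the square of a completed L-function. -/
structure LD {J : Type} [Fintype J] (f : ℂ → ℂ) (lam : ℕ → ℝ) (d m m' Q : ℝ) (μ : J → ℝ) : Prop where
  diff : Differentiable ℂ f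
  ne : f 0 ≠ 0
  zer : ∃ Z : ℕ → Multiset ℂ, Zeros f Z
  par : ∀ u, f u = 0 → u ∈ Par
  lam_le : ∀ n, |lam n| ≤ d * ArithmeticFunction.vonMangoldt n
  pos : ∀ j, 0 < μ j
  right : ∀ w : ℂ, 1 < w.re → f (w * (w - 1)) ≠ 0
  log : ∀ w : ℂ, 1 < w.re → (2 * w - 1) * logDeriv f (w * (w - 1)) =
    2 * (m' / w + m / (w - 1) + Q + ∑ j, GG (μ j) w - LSeries (fun n => (lam n : ℂ)) w)

section coeff

variable {lam : ℕ → ℝ} {d : ℝ} (hl : ∀ n, |lam n| ≤ d * ArithmeticFunction.vonMangoldt n)

/-- the sum of the coefficients -/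
noncomputable def SL (lam : ℕ → ℝ) (u : ℝ) : ℝ :=
  ∑ n ∈ Finset.Icc 1 ⌊Real.exp u⌋₊, lam n * (1 / (n : ℝ) - Real.exp (-u))

noncomputable def sl (lam : ℕ → ℝ) (n : ℕ) (u : ℝ) : ℝ := lam n * max (1 / (n : ℝ) - Real.exp (-u)) 0

include hl

theorem lam_zero : lam 0 = 0 := by
  have h := hl 0
  simp at h
  exact h

theorem d_nonneg : 0 ≤ d := by
  have h := hl 2
  have h1 : 0 < ArithmeticFunction.vonMangoldt 2 := by
    rw [ArithmeticFunction.vonMangoldt_apply_prime Nat.prime_two]
    exact Real.log_pos (by norm_num)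
  by_contra hd
  push Not at hd
  have := abs_nonneg (lam 2)
  nlinarith

theorem sl_le (n : ℕ) (u : ℝ) : |sl lam n u| ≤ d * st n u := by
  unfold sl st
  have h0 : 0 ≤ max (1 / (n : ℝ) - Real.exp (-u)) 0 := le_max_right _ _
  rw [abs_mul, abs_of_nonneg h0, ← mul_assoc]
  have := hl n
  gcongr

theorem sl_zero {n : ℕ} {u : ℝ} (h : Real.exp u ≤ n) : sl lam n u = 0 := by
  have h1 := sl_le hl n u
  rw [st_zero h, mul_zero] at h1
  exact abs_eq_zero.1 (le_antisymm h1 (abs_nonneg _))

theorem SL_eq {u : ℝ} {N : ℕ} (hN : Real.exp u < N) : SL lam u = ∑ n ∈ Finset.range N, sl lam n u := by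
  unfold SL
  have h0 : 0 < Real.exp u := Real.exp_pos u
  have hsub : Finset.Icc 1 ⌊Real.exp u⌋₊ ⊆ Finset.range N := by
    intro n hn
    rw [Finset.mem_Icc] at hn
    rw [Finset.mem_range]
    have : (n : ℝ) ≤ Real.exp u := (Nat.le_floor_iff h0.le).1 hn.2
    exact_mod_cast this.trans_lt hN
  rw [← Finset.sum_subset hsub]
  · refine Finset.sum_congr rfl fun n hn => ?_
    rw [Finset.mem_Icc] at hn
    unfold sl
    rw [max_eq_left]
    have h1 : (n : ℝ) ≤ Real.exp u := (Nat.le_floor_iff h0.le).1 hn.2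
    have h2 : (0 : ℝ) < n := by exact_mod_cast hn.1
    have : 1 / Real.exp u ≤ 1 / (n : ℝ) := one_div_le_one_div_of_le h2 h1
    rw [Real.exp_neg, ← one_div]
    linarith
  · intro n _ hn
    rw [Finset.mem_Icc] at hn
    push Not at hn
    rcases Nat.eq_zero_or_pos n with h1 | h1
    · rw [h1]
      unfold sl
      rw [lam_zero hl, zero_mul]
    · have h2 := hn h1
      exact sl_zero hl ((Nat.lt_of_floor_lt h2).le)

theorem SL_hasSum (u : ℝ) : HasSum (fun n => sl lam n u) (SL lam u) := by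
  obtain ⟨N, hN⟩ := exists_nat_gt (Real.exp u)
  rw [SL_eq hl hN]
  refine hasSum_sum_of_ne_finset_zero fun n hn => ?_
  rw [Finset.mem_range] at hn
  push Not at hn
  refine sl_zero hl ?_
  have : (N : ℝ) ≤ n := by exact_mod_cast hn
  linarith

theorem SL_cont : Continuous (SL lam) := by
  rw [continuous_iff_continuousAt]
  intro u
  obtain ⟨N, hN⟩ := exists_nat_gt (Real.exp u)
  have h1 : SL lam =ᶠ[𝓝 u] fun u => ∑ n ∈ Finset.range N, sl lam n u := by
    filter_upwards [Real.continuous_exp.continuousAt.eventually (gt_mem_nhds hN)] with y hy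
    exact SL_eq hl hy
  refine ContinuousAt.congr ?_ h1.symm
  refine Continuous.continuousAt ?_
  unfold sl
  fun_prop

theorem SL_le (u : ℝ) : |SL lam u| ≤ d * Real.exp u := by
  have h1 := SL_hasSum hl u
  have h2 := (SS_hasSum u).mul_left d
  have h3 : Summable fun n => ‖sl lam n u‖ :=
    Summable.of_nonneg_of_le (fun n => norm_nonneg _) (fun n => sl_le hl n u) h2.summable
  have h4 : |SL lam u| ≤ d * SS u := by
    rw [← h1.tsum_eq, ← h2.tsum_eq, ← Real.norm_eq_abs]
    exact (norm_tsum_le_tsum_norm h3).trans (h3.tsum_le_tsum (fun n => sl_le hl n u) h2.summable)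
  have h5 := SS_le u
  have h6 := d_nonneg hl
  calc |SL lam u| ≤ d * SS u := h4
    _ ≤ _ := by gcongr

theorem lam_summable {s : ℂ} (hs : 1 < s.re) : LSeriesSummable (fun n => (lam n : ℂ)) s := by
  have h1 := (ArithmeticFunction.LSeriesSummable_vonMangoldt hs).norm.mul_left d
  refine Summable.of_norm_bounded h1 fun n => ?_
  rw [LSeries.norm_term_eq, LSeries.norm_term_eq]
  split_ifs
  · simp
  · rw [Complex.norm_real, Complex.norm_real, Real.norm_eq_abs, Real.norm_eq_abs,
      abs_of_nonneg ArithmeticFunction.vonMangoldt_nonneg, ← mul_div_assoc]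
    have := hl n
    gcongr

/-- the transform of the sum of the coefficients -/
theorem SL_lap {p : ℂ} (hp : 1 < p.re) : IntegrableOn (fun u : ℝ => (SL lam u : ℂ) * cexp (-p * u)) (Ioi 0) ∧
    ∫ u : ℝ in Ioi 0, (SL lam u : ℂ) * cexp (-p * u) = LSeries (fun n => (lam n : ℂ)) (p + 1) / (p * (p + 1)) := by
  have hp0 : 0 < p.re := by linarith
  constructor
  · have h1 : IntegrableOn (fun u : ℝ => d * Real.exp (-(p.re - 1) * u)) (Ioi 0) :=
      (integrableOn_exp_mul_Ioi (a := -(p.re - 1)) (by linarith) 0).const_mul d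
    have hc : Continuous fun u : ℝ => (SL lam u : ℂ) * cexp (-p * u) :=
      (Complex.continuous_ofReal.comp (SL_cont hl)).mul (by fun_prop)
    refine Integrable.mono' h1 hc.aestronglyMeasurable ?_
    refine (ae_restrict_mem measurableSet_Ioi).mono fun u hu => ?_
    rw [norm_mul, norm_exp_neg, Complex.norm_real, Real.norm_eq_abs]
    have h2 := SL_le hl u
    have h3 : Real.exp (-(p.re - 1) * u) = Real.exp u * Real.exp (-p.re * u) := by
      rw [← Real.exp_add]
      congr 1
      ring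
    rw [h3, ← mul_assoc]
    gcongr
  · set F : ℕ → ℝ → ℂ := fun n u => ((sl lam n u : ℝ) : ℂ) * cexp (-p * u) with hF
    have hFe : ∀ n u, F n u = (lam n : ℂ) *
        (((max (1 / (n : ℝ) - Real.exp (-u)) 0 : ℝ) : ℂ) * cexp (-p * u)) := by
      intro n u
      rw [hF]
      simp only
      unfold sl
      push_cast
      ring
    have hs1 : 1 < (p + 1).re := by simp; linarith
    have hz : ∀ n, n = 0 → F n = fun _ => 0 := by
      intro n h
      funext u
      rw [hFe, h, lam_zero hl]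
      simp
    have hint : ∀ n, Integrable (F n) (volume.restrict (Ioi 0)) := by
      intro n
      rcases Nat.eq_zero_or_pos n with h | h
      · rw [hz n h]
        exact integrable_zero _ _ _
      · have := ((st_lap h hp0).1).const_mul (lam n : ℂ)
        refine this.congr (Eventually.of_forall fun u => ?_)
        exact (hFe n u).symm
    have hval : ∀ n, ∫ u : ℝ in Ioi 0, F n u = 1 / (p * (p + 1)) *
        LSeries.term (fun n => (lam n : ℂ)) (p + 1) n := by
      intro n
      rw [LSeries.term_def]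
      split_ifs with h
      · rw [hz n h]
        simp
      · simp_rw [hFe]
        rw [integral_const_mul, (st_lap (Nat.pos_of_ne_zero h) hp0).2]
        ring
    have hnorm : ∀ n, ∫ u : ℝ in Ioi 0, ‖F n u‖ = 1 / (p.re * (p.re + 1)) *
        ‖LSeries.term (fun n => (lam n : ℂ)) (p + 1) n‖ := by
      intro n
      rw [LSeries.norm_term_eq]
      split_ifs with h
      · rw [hz n h]
        simp
      · have hpr : 0 < ((p.re : ℝ) : ℂ).re := by simpa using hp0
        have h1 := (st_lap (Nat.pos_of_ne_zero h) hpr).2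
        have h2 : ∀ u : ℝ, ‖F n u‖ = |lam n| *
            (max (1 / (n : ℝ) - Real.exp (-u)) 0 * Real.exp (-p.re * u)) := by
          intro u
          have h0 : 0 ≤ max (1 / (n : ℝ) - Real.exp (-u)) 0 := le_max_right _ _
          rw [hFe, norm_mul, norm_mul, norm_exp_neg, Complex.norm_real, Complex.norm_real, Real.norm_eq_abs, Real.norm_eq_abs,
            abs_of_nonneg h0]
        simp_rw [h2]
        rw [integral_const_mul]
        have h3 : ∫ u : ℝ in Ioi 0, max (1 / (n : ℝ) - Real.exp (-u)) 0 * Real.exp (-p.re * u) =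
            1 / (p.re * (p.re + 1)) * (1 / (n : ℝ) ^ (p.re + 1)) := by
          apply Complex.ofReal_injective
          rw [← integral_complex_ofReal]
          have h4 : ∀ u : ℝ, ((max (1 / (n : ℝ) - Real.exp (-u)) 0 * Real.exp (-p.re * u) : ℝ) : ℂ) =
              ((max (1 / (n : ℝ) - Real.exp (-u)) 0 : ℝ) : ℂ) * cexp (-(p.re : ℂ) * u) := by
            intro u
            push_cast
            rfl
          simp_rw [h4]
          rw [h1]
          push_cast
          congr 2
          rw [Complex.ofReal_cpow (Nat.cast_nonneg n)]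
          push_cast
          rfl
        rw [h3, Complex.norm_real, Real.norm_eq_abs]
        simp only [Complex.add_re, Complex.one_re]
        ring
    have hsum : Summable fun n => ∫ u : ℝ in Ioi 0, ‖F n u‖ := by
      simp_rw [hnorm]
      exact (lam_summable hl hs1).norm.mul_left _
    have h1 := hasSum_integral_of_summable_integral_norm hint hsum
    have h2 : ∀ u : ℝ, ∑' n, F n u = (SL lam u : ℂ) * cexp (-p * u) := by
      intro u
      have := (Complex.hasSum_ofReal.2 (SL_hasSum hl u)).mul_right (cexp (-p * u))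
      exact this.tsum_eq
    simp_rw [h2, hval] at h1
    have h3 := (lam_summable hl hs1).hasSum.mul_left (1 / (p * (p + 1)))
    have h4 := h1.unique h3
    rw [h4]
    unfold LSeries
    ring

end coeff

/-- the function of the theorem -/
noncomputable def aL (lam : ℕ → ℝ) (m c : ℝ) (u : ℝ) : ℝ :=
  Real.exp (u / 2) * (∑ n ∈ Finset.Icc 1 ⌊Real.exp u⌋₊, lam n * (1 / (n : ℝ) - Real.exp (-u)) - m * u + c)

theorem aL_eq (lam : ℕ → ℝ) (m c : ℝ) (u : ℝ) : aL lam m c u = Real.exp (u / 2) * (SL lam u - m * u + c) := rfl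

theorem aL_cont {lam : ℕ → ℝ} {d : ℝ} (hl : ∀ n, |lam n| ≤ d * ArithmeticFunction.vonMangoldt n) (m c : ℝ) :
    Continuous (aL lam m c) := by
  have : aL lam m c = fun u => Real.exp (u / 2) * (SL lam u - m * u + c) := rfl
  rw [this]
  have := SL_cont hl
  fun_prop

/-- the transform of the function -/
theorem aL_lap {lam : ℕ → ℝ} {d : ℝ} (hl : ∀ n, |lam n| ≤ d * ArithmeticFunction.vonMangoldt n) (m c : ℝ)
    {w : ℂ} (hw : 2 < w.re) : IntegrableOn (fun u : ℝ => (aL lam m c u : ℂ) * cexp (-(w - 1 / 2) * u)) (Ioi 0) ∧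
    ∫ u : ℝ in Ioi 0, (aL lam m c u : ℂ) * cexp (-(w - 1 / 2) * u) =
      LSeries (fun n => (lam n : ℂ)) w / (w * (w - 1)) - m / (w - 1) ^ 2 + c / (w - 1) := by
  have hp : 1 < (w - 1).re := by simp; linarith
  have hp0 : 0 < (w - 1).re := by linarith
  have e : ∀ u : ℝ, (aL lam m c u : ℂ) * cexp (-(w - 1 / 2) * u) = (SL lam u : ℂ) * cexp (-(w - 1) * u) -
      m * ((u : ℂ) * cexp (-(w - 1) * u)) + c * cexp (-(w - 1) * u) := by
    intro u
    rw [aL_eq]
    push_cast
    have h1 : cexp ((u : ℂ) / 2) * cexp (-(w - 1 / 2) * u) = cexp (-(w - 1) * u) := by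
      rw [← Complex.exp_add]
      congr 1
      ring
    rw [← h1]
    ring
  have i1 := (SL_lap hl hp).1
  have i2 : IntegrableOn (fun u : ℝ => (m : ℂ) * ((u : ℂ) * cexp (-(w - 1) * u))) (Ioi 0) := ((lap_u hp0).1).const_mul _
  have i3 : IntegrableOn (fun u : ℝ => (c : ℂ) * cexp (-(w - 1) * u)) (Ioi 0) :=
    (lap_exp_int hp0 0).const_mul _
  simp_rw [e]
  have i12 : IntegrableOn (fun u : ℝ => (SL lam u : ℂ) * cexp (-(w - 1) * u) - m * ((u : ℂ) * cexp (-(w - 1) * u))) (Ioi 0) :=
    i1.sub i2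
  refine ⟨i12.add i3, ?_⟩
  rw [integral_add i12 i3, integral_sub i1 i2, integral_const_mul, integral_const_mul, (SL_lap hl hp).2, (lap_u hp0).2,
    lap_exp0 hp0, sub_add_cancel]
  ring

section main

variable {J : Type} [Fintype J] {f : ℂ → ℂ} {lam : ℕ → ℝ} {d m m' Q : ℝ} {μ : J → ℝ}

/-- the constant -/
noncomputable def cL (f : ℂ → ℂ) (m m' Q : ℝ) (μ : J → ℝ) : ℂ :=
  logDeriv f 0 / 2 - m' + m - Q - ∑ j, GG (μ j) 1

theorem GG_cont {ν : ℝ} (hν : 0 < ν) {w : ℂ} (hw : 0 ≤ w.re) : AnalyticAt ℂ (GG ν) w := by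
  have hre : 0 < (w + ν).re := by
    simp
    linarith
  have h1 : AnalyticAt ℂ Gammaℝ (w + ν) := by
    have hU : IsOpen {z : ℂ | 0 < z.re} := isOpen_lt continuous_const continuous_re
    have : DifferentiableOn ℂ Gammaℝ {z : ℂ | 0 < z.re} := fun z hz =>
      (gammaR_deriv hz).differentiableAt.differentiableWithinAt
    exact this.analyticAt (hU.mem_nhds hre)
  have h2 : AnalyticAt ℂ (logDeriv Gammaℝ) (w + ν) := by
    have : logDeriv Gammaℝ = fun z => deriv Gammaℝ z / Gammaℝ z := by
      funext z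
      rw [logDeriv_apply]
    rw [this]
    exact h1.deriv.div h1 (Gammaℝ_ne_zero_of_re_pos hre)
  have h3 : AnalyticAt ℂ (fun z : ℂ => z + ν) w := by fun_prop
  exact AnalyticAt.fun_comp (f := fun z : ℂ => z + (ν : ℂ)) h2 h3

variable (D : LD f lam d m m' Q μ)

include D

/-- the constant is the constant term of the Laurent series -/
theorem cL_lim : Tendsto (fun σ : ℝ => (m : ℂ) / (σ - 1) - LSeries (fun n => (lam n : ℂ)) σ) (𝓝[>] 1)
    (𝓝 (cL f m m' Q μ - m)) := by
  have hc : ContinuousAt (fun w : ℂ => -(m' : ℂ) / w - Q - ∑ j, GG (μ j) w + (2 * w - 1) / 2 * logDeriv f (w * (w - 1))) 1 := by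
    have h1 : ContinuousAt (logDeriv f) 0 := by
      have : logDeriv f = fun z => deriv f z / f z := by
        funext z
        rw [logDeriv_apply]
      rw [this]
      exact ((D.diff.analyticAt 0).deriv.continuousAt).div (D.diff 0).continuousAt D.ne
    have h2 : ContinuousAt (fun w : ℂ => logDeriv f (w * (w - 1))) 1 := by
      have h3 : ContinuousAt (fun w : ℂ => w * (w - 1)) 1 := by fun_prop
      have h4 : (1 : ℂ) * (1 - 1) = 0 := by norm_num
      exact ContinuousAt.comp (g := logDeriv f) (f := fun w : ℂ => w * (w - 1)) (by rw [h4]; exact h1) h3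
    have h5 : ContinuousAt (fun w : ℂ => ∑ j, GG (μ j) w) 1 := by
      refine tendsto_finsetSum _ fun j _ => ?_
      exact (GG_cont (D.pos j) (by simp)).continuousAt
    have h6 : ContinuousAt (fun w : ℂ => -(m' : ℂ) / w) 1 := by
      have : (1 : ℂ) ≠ 0 := one_ne_zero
      fun_prop (disch := exact this)
    have h7 : ContinuousAt (fun w : ℂ => (2 * w - 1) / 2) 1 := by fun_prop
    exact ((h6.sub continuousAt_const).sub h5).add (h7.mul h2)
  have h1 := hc.tendsto
  have e1 : -(m' : ℂ) / 1 - Q - ∑ j, GG (μ j) 1 + (2 * 1 - 1) / 2 * logDeriv f (1 * (1 - 1)) = cL f m m' Q μ - m := by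
    unfold cL
    rw [show (1 : ℂ) * (1 - 1) = 0 by norm_num]
    ring
  rw [e1] at h1
  have h2 : Tendsto (fun σ : ℝ => (σ : ℂ)) (𝓝[>] 1) (𝓝 1) := by
    have := (Complex.continuous_ofReal.tendsto 1).mono_left (nhdsWithin_le_nhds (s := Ioi (1 : ℝ)))
    simpa using this
  refine (h1.comp h2).congr' ?_
  filter_upwards [self_mem_nhdsWithin] with σ hσ
  have hσ' : 1 < ((σ : ℝ) : ℂ).re := by simpa using hσ
  have h3 := D.log σ hσ'
  simp only [Function.comp_apply]
  linear_combination (1 / 2) * h3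

theorem cL_real : cL f m m' Q μ = ((cL f m m' Q μ).re : ℂ) := by
  have h := (Complex.continuous_im.tendsto _).comp (cL_lim D)
  have h1 : ∀ᶠ σ : ℝ in 𝓝[>] 1, (Complex.im ∘ fun σ : ℝ => (m : ℂ) / (σ - 1) - LSeries (fun n => (lam n : ℂ)) σ) σ = 0 := by
    filter_upwards [self_mem_nhdsWithin] with σ hσ
    have hσ' : (1 : ℝ) < σ := hσ
    simp only [Function.comp_apply]
    have e1 : (m : ℂ) / (σ - 1) = ((m / (σ - 1) : ℝ) : ℂ) := by push_cast; rfl
    have e2 : LSeries (fun n => (lam n : ℂ)) σ = ((∑' n : ℕ, (if n = 0 then 0 else lam n / (n : ℝ) ^ σ) : ℝ) : ℂ) := by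
      unfold LSeries
      rw [Complex.ofReal_tsum]
      refine tsum_congr fun n => ?_
      rw [LSeries.term_def]
      split_ifs
      · simp
      · push_cast
        rw [Complex.ofReal_cpow (Nat.cast_nonneg n)]
        push_cast
        rfl
    rw [e1, e2, Complex.sub_im, Complex.ofReal_im, Complex.ofReal_im, sub_zero]
  have h2 : Tendsto (Complex.im ∘ fun σ : ℝ => (m : ℂ) / (σ - 1) - LSeries (fun n => (lam n : ℂ)) σ) (𝓝[>] 1) (𝓝 0) :=
    tendsto_const_nhds.congr' (h1.mono fun σ hσ => hσ.symm)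
  have h3 := tendsto_nhds_unique h h2
  rw [Complex.sub_im, Complex.ofReal_im, sub_zero] at h3
  exact Complex.ext (by simp) (by simp [h3])

end main

end Run7.h278.LG
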