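import Pool.Agent.Run7.h278.LG.FamMain

set_option autoImplicit false

/-!
# The L-functions of the characters modulo `q`
-/

namespace Run7.h278.LG

open Complex Filter Topology MeasureTheory Set DirichletCharacter
open scoped ComplexConjugate
open Pool.Agent.W355.UN (RawL Raw zeta_raw dir_raw)
open Pool.Agent.W355.LJ (parD)

/-- the order through a product formula -/
theorem ord_of {X LF LP G E : ℂ → ℂ} {s : ℂ} (hX : X =ᶠ[𝓝 s] fun z => G z * LP z) (hLF : LF =ᶠ[𝓝 s] fun z => LP z * E z)
    (hG : AnalyticAt ℂ G s) (hG0 : G s ≠ 0) (hE : AnalyticAt ℂ E s) (hE0 : E s ≠ 0) (hLP : AnalyticAt ℂ LP s) :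
    analyticOrderAt X s = analyticOrderAt LF s := by
  rw [analyticOrderAt_congr hX, analyticOrderAt_congr hLF]
  have h1 : analyticOrderAt (fun z => G z * LP z) s = analyticOrderAt LP s := by
    have := analyticOrderAt_mul hG hLP
    rw [hG.analyticOrderAt_eq_zero.2 hG0, zero_add] at this
    exact this
  have h2 : analyticOrderAt (fun z => LP z * E z) s = analyticOrderAt LP s := by
    have := analyticOrderAt_mul hLP hE
    rw [hE.analyticOrderAt_eq_zero.2 hE0, add_zero] at this
    exact this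
  rw [h1, h2]

theorem analyticAt_gammaR {s : ℂ} (hs : 0 < s.re) : AnalyticAt ℂ Gammaℝ s := by
  have hU : IsOpen {z : ℂ | 0 < z.re} := isOpen_lt continuous_const continuous_re
  have : DifferentiableOn ℂ Gammaℝ {z : ℂ | 0 < z.re} := fun z hz =>
    (LM.gammaR_deriv hz).differentiableAt.differentiableWithinAt
  exact this.analyticAt (hU.mem_nhds hs)

/-- the Euler factors -/
theorem euler_ne {f : ℕ} (ψ : DirichletCharacter ℂ f) (q : ℕ) {s : ℂ} (hs : 0 < s.re) :
    ∏ p ∈ q.primeFactors, (1 - ψ p * (p : ℂ) ^ (-s)) ≠ 0 := by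
  refine Finset.prod_ne_zero_iff.2 fun p hp h => ?_
  have hpp := Nat.prime_of_mem_primeFactors hp
  have h1 : ψ p * (p : ℂ) ^ (-s) = 1 := (sub_eq_zero.1 h).symm
  have h2 : ‖ψ p * (p : ℂ) ^ (-s)‖ < 1 := by
    rw [norm_mul]
    have h3 := ψ.norm_le_one p
    have h4 : ‖(p : ℂ) ^ (-s)‖ < 1 := by
      rw [Complex.norm_natCast_cpow_of_pos hpp.pos, Complex.neg_re]
      exact Real.rpow_lt_one_of_one_lt_of_neg (by exact_mod_cast hpp.one_lt) (by linarith)
    calc ‖ψ p‖ * ‖(p : ℂ) ^ (-s)‖ ≤ 1 * ‖(p : ℂ) ^ (-s)‖ := by gcongr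
      _ < 1 := by rw [one_mul]; exact h4
  rw [h1, norm_one] at h2
  exact lt_irrefl _ h2

theorem euler_an {f : ℕ} (ψ : DirichletCharacter ℂ f) (q : ℕ) (s : ℂ) :
    AnalyticAt ℂ (fun s : ℂ => ∏ p ∈ q.primeFactors, (1 - ψ p * (p : ℂ) ^ (-s))) s := by
  have : Differentiable ℂ fun s : ℂ => ∏ p ∈ q.primeFactors, (1 - ψ p * (p : ℂ) ^ (-s)) := by
    refine Differentiable.fun_finsetProd fun p hp => ?_
    have : NeZero p := ⟨(Nat.pos_of_mem_primeFactors hp).ne'⟩
    fun_prop
  exact this.analyticAt s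

/-- data of one character -/
structure MemD {q : ℕ} [NeZero q] (χ : DirichletCharacter ℂ q) (l : List ℝ) (r : ℕ) (N : ℝ) (X : ℂ → ℂ) : Prop where
  one : One l r N (fun n => χ.primitiveCharacter (n : ZMod χ.conductor)) (fun n => χ.primitiveCharacter (n : ZMod χ.conductor)) X
  pole : r = (open Classical in if χ = 1 then 1 else 0)
  form : ∃ G E LP : ℂ → ℂ, ∀ s : ℂ, 0 < s.re → s ≠ 1 → AnalyticAt ℂ G s ∧ G s ≠ 0 ∧ AnalyticAt ℂ E s ∧ E s ≠ 0 ∧ AnalyticAt ℂ LP s ∧
    X s = G s * LP s ∧ LFunction χ s = LP s * E s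

theorem exists_mem {q : ℕ} [NeZero q] (χ : DirichletCharacter ℂ q) : ∃ (l : List ℝ) (r : ℕ) (N : ℝ) (X : ℂ → ℂ), MemD χ l r N X := by
  classical
  have : NeZero χ.conductor := ⟨conductor_ne_zero χ⟩
  have hcl : ∀ s : ℂ, χ.primitiveCharacter ≠ 1 ∨ s ≠ 1 → LFunction χ s = LFunction χ.primitiveCharacter s *
      ∏ p ∈ q.primeFactors, (1 - χ.primitiveCharacter p * (p : ℂ) ^ (-s)) := by
    intro s h
    conv_lhs => rw [← changeLevel_primitiveCharacter χ]
    exact LFunction_changeLevel χ.conductor_dvd_level χ.primitiveCharacter h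
  by_cases hχ : χ = 1
  · have hf : χ.conductor = 1 := eq_one_iff_conductor_eq_one.1 hχ
    have hss : Subsingleton (ZMod χ.conductor) := by
      rw [hf]
      infer_instance
    have hψ : ∀ n : ℕ, χ.primitiveCharacter (n : ZMod χ.conductor) = 1 := fun n => by
      rw [Subsingleton.elim (n : ZMod χ.conductor) 1, map_one]
    have hfun : (fun n : ℕ => χ.primitiveCharacter (n : ZMod χ.conductor)) = fun _ => (1 : ℂ) := funext hψ
    refine ⟨[0], 1, 1, fun s => s * (s - 1) * completedRiemannZeta₀ s + 1, ⟨⟨?_, ?_, ?_⟩, ?_, ?_⟩⟩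
    · rw [hfun]
      have := zeta_raw
      simpa using this
    · intro a ha
      rw [List.mem_singleton] at ha
      rw [ha]
    · simp
    · rw [if_pos hχ]
    · refine ⟨fun s => s * (s - 1) * Gammaℝ s, fun s : ℂ => ∏ p ∈ q.primeFactors, (1 - χ.primitiveCharacter p * (p : ℂ) ^ (-s)),
        LFunction χ.primitiveCharacter, fun s hs hs1 => ?_⟩
      have hs0 : s ≠ 0 := fun h => by rw [h] at hs; simp at hs
      have hG := Complex.Gammaℝ_ne_zero_of_re_pos hs
      refine ⟨?_, ?_, euler_an _ _ _, euler_ne _ _ hs, ?_, ?_, hcl s (Or.inr hs1)⟩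
      · exact (by fun_prop : AnalyticAt ℂ (fun s : ℂ => s * (s - 1)) s).mul (analyticAt_gammaR hs)
      · exact mul_ne_zero (mul_ne_zero hs0 (sub_ne_zero.2 hs1)) hG
      · have : DifferentiableOn ℂ (LFunction χ.primitiveCharacter) {z : ℂ | z ≠ 1} := fun z hz =>
          (differentiableAt_LFunction _ z (Or.inl hz)).differentiableWithinAt
        exact this.analyticAt (isOpen_ne.mem_nhds hs1)
      · have h1 : LFunction χ.primitiveCharacter s = riemannZeta s := by
          have h2 : (χ.primitiveCharacter : DirichletCharacter ℂ χ.conductor) = 1 := by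
            ext u
            rw [Subsingleton.elim (u : ZMod χ.conductor) 1, map_one, map_one]
          have h3 := LFunctionTrivChar_eq_mul_riemannZeta (N := χ.conductor) hs1
          rw [h2]
          unfold LFunctionTrivChar at h3
          rw [h3, hf]
          simp
        rw [h1]
        have h2 : completedRiemannZeta s = Gammaℝ s * riemannZeta s := by
          rw [riemannZeta_def_of_ne_zero hs0]
          field_simp
        have h3 := completedRiemannZeta_eq s
        have h4 : s - 1 ≠ 0 := sub_ne_zero.2 hs1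
        have h5 : 1 - s ≠ 0 := sub_ne_zero.2 (Ne.symm hs1)
        have h6 : Gammaℝ s * riemannZeta s = completedRiemannZeta₀ s - 1 / s - 1 / (1 - s) := by
          rw [← h2, h3]
        rw [mul_assoc (s * (s - 1)), h6]
        field_simp
        ring
  · have hf : 1 < χ.conductor := by
      have h1 := conductor_ne_zero χ
      have h2 : χ.conductor ≠ 1 := fun h => hχ (eq_one_iff_conductor_eq_one.2 h)
      omega
    have hprim : χ.primitiveCharacter ≠ 1 := by
      intro h
      have h1 := changeLevel_primitiveCharacter χ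
      rw [h, changeLevel_one] at h1
      exact hχ h1.symm
    obtain ⟨X, hX⟩ := dir_raw χ.conductor χ.primitiveCharacter hf χ.primitiveCharacter_isPrimitive
    have hpar : 0 ≤ parD χ.primitiveCharacter := by
      unfold parD
      split_ifs <;> norm_num
    have hU : IsOpen {s : ℂ | 0 < s.re} := isOpen_lt continuous_const continuous_re
    have hNC : (χ.conductor : ℂ) ≠ 0 := Nat.cast_ne_zero.2 (conductor_ne_zero χ)
    have hform : ∀ s : ℂ, 0 < s.re → X s = (χ.conductor : ℂ) ^ (s / 2) * Gammaℝ (s + parD χ.primitiveCharacter) *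
        LFunction χ.primitiveCharacter s := by
      have hraw := fun (z : ℂ) (hz : 1 < z.re) => Raw.eq' Pool.Agent.W672.UN.coef hX (s := z) hz
      have h1 : AnalyticOnNhd ℂ X {s : ℂ | 0 < s.re} := fun z _ => hX.entire.analyticAt z
      have h2 : AnalyticOnNhd ℂ (fun s => (χ.conductor : ℂ) ^ (s / 2) * Gammaℝ (s + parD χ.primitiveCharacter) *
        LFunction χ.primitiveCharacter s) {s : ℂ | 0 < s.re} := by
        intro z hz
        have hz' : 0 < z.re := hz
        have a1 : AnalyticAt ℂ (fun s : ℂ => (χ.conductor : ℂ) ^ (s / 2)) z := by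
          have : Differentiable ℂ fun s : ℂ => (χ.conductor : ℂ) ^ (s / 2) := by
            intro s
            exact DifferentiableAt.const_cpow (by fun_prop) (Or.inl hNC)
          exact this.analyticAt z
        have a2 : AnalyticAt ℂ (fun s : ℂ => Gammaℝ (s + parD χ.primitiveCharacter)) z := by
          refine AnalyticAt.fun_comp (f := fun s : ℂ => s + (parD χ.primitiveCharacter : ℂ)) (analyticAt_gammaR ?_) (by fun_prop)
          rw [Complex.add_re, Complex.ofReal_re]
          linarith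
        exact (a1.mul a2).mul ((differentiable_LFunction hprim).analyticAt z)
      have h3 : X =ᶠ[𝓝 (2 : ℂ)] fun s => (χ.conductor : ℂ) ^ (s / 2) * Gammaℝ (s + parD χ.primitiveCharacter) *
        LFunction χ.primitiveCharacter s := by
        have hU1 : IsOpen {s : ℂ | 1 < s.re} := isOpen_lt continuous_const continuous_re
        filter_upwards [hU1.mem_nhds (show (2 : ℂ) ∈ {s : ℂ | 1 < s.re} by show 1 < (2 : ℂ).re; norm_num)] with z hz
        have hz' : 1 < z.re := hz
        rw [hraw z hz', Pool.Agent.W355.UN.gaf_eq, LFunction_eq_LSeries _ hz']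
        have e1 : ∏ j : Fin ([(parD χ.primitiveCharacter : ℂ)] : List ℂ).length, Gammaℝ (z + ([(parD χ.primitiveCharacter : ℂ)] : List ℂ).get j) =
            Gammaℝ (z + parD χ.primitiveCharacter) := by
          rw [Pool.Agent.W355.UN.prod_get [(parD χ.primitiveCharacter : ℂ)] (fun a : ℂ => Gammaℝ (z + a))]
          simp
        rw [e1, pow_zero, one_mul]
        norm_cast
      intro s hs
      exact h1.eqOn_of_preconnected_of_eventuallyEq h2 (convex_halfSpace_re_gt 0).isPreconnected
        (show (2 : ℂ) ∈ {s : ℂ | 0 < s.re} by show 0 < (2 : ℂ).re; norm_num) h3 hs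
    refine ⟨[parD χ.primitiveCharacter], 0, χ.conductor, X, ⟨⟨?_, ?_, ?_⟩, ?_, ?_⟩⟩
    · simpa using hX
    · intro a ha
      rw [List.mem_singleton] at ha
      rw [ha]
      exact hpar
    · rw [hform 1 (by simp)]
      refine mul_ne_zero (mul_ne_zero ?_ ?_) (LFunction_apply_one_ne_zero hprim)
      · rw [Complex.cpow_def_of_ne_zero hNC]
        exact Complex.exp_ne_zero _
      · refine Gammaℝ_ne_zero_of_re_pos ?_
        rw [Complex.add_re, Complex.ofReal_re, Complex.one_re]
        linarith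
    · rw [if_neg hχ]
    · refine ⟨fun s => (χ.conductor : ℂ) ^ (s / 2) * Gammaℝ (s + parD χ.primitiveCharacter),
        fun s : ℂ => ∏ p ∈ q.primeFactors, (1 - χ.primitiveCharacter p * (p : ℂ) ^ (-s)),
        LFunction χ.primitiveCharacter, fun s hs hs1 => ?_⟩
      have hre : 0 < (s + parD χ.primitiveCharacter).re := by
        rw [Complex.add_re, Complex.ofReal_re]
        linarith
      refine ⟨?_, ?_, euler_an _ _ _, euler_ne _ _ hs, (differentiable_LFunction hprim).analyticAt s, hform s hs, hcl s (Or.inr hs1)⟩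
      · have a1 : AnalyticAt ℂ (fun s : ℂ => (χ.conductor : ℂ) ^ (s / 2)) s := by
          have : Differentiable ℂ fun s : ℂ => (χ.conductor : ℂ) ^ (s / 2) := by
            intro s
            exact DifferentiableAt.const_cpow (by fun_prop) (Or.inl hNC)
          exact this.analyticAt s
        have a2 : AnalyticAt ℂ (fun s : ℂ => Gammaℝ (s + parD χ.primitiveCharacter)) s :=
          AnalyticAt.fun_comp (f := fun s : ℂ => s + (parD χ.primitiveCharacter : ℂ)) (analyticAt_gammaR hre) (by fun_prop)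
        exact a1.mul a2
      · refine mul_ne_zero ?_ (Gammaℝ_ne_zero_of_re_pos hre)
        rw [Complex.cpow_def_of_ne_zero hNC]
        exact Complex.exp_ne_zero _

section mem

variable {q : ℕ} [NeZero q] {χ : DirichletCharacter ℂ q} {l : List ℝ} {r : ℕ} {N : ℝ} {X : ℂ → ℂ} (h : MemD χ l r N X)

include h

theorem MemD.zero_iff' {s : ℂ} (hs : 0 < s.re) (hs1 : s ≠ 1) : X s = 0 ↔ LFunction χ s = 0 := by
  obtain ⟨G, E, LP, H⟩ := h.form
  obtain ⟨-, h1, -, h2, -, h3, h4⟩ := H s hs hs1
  rw [h3, h4]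
  simp [h1, h2]

theorem MemD.order {s : ℂ} (hs : 0 < s.re) (hs1 : s ≠ 1) : WL.mu X s = WL.mu (LFunction χ) s := by
  obtain ⟨G, E, LP, H⟩ := h.form
  have hU : IsOpen {s : ℂ | 0 < s.re ∧ s ≠ 1} := (isOpen_lt continuous_const continuous_re).inter isOpen_ne
  obtain ⟨a1, a2, a3, a4, a5, -, -⟩ := H s hs hs1
  have h1 : X =ᶠ[𝓝 s] fun z => G z * LP z := by
    filter_upwards [hU.mem_nhds ⟨hs, hs1⟩] with z hz
    exact (H z hz.1 hz.2).2.2.2.2.2.1
  have h2 : LFunction χ =ᶠ[𝓝 s] fun z => LP z * E z := by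
    filter_upwards [hU.mem_nhds ⟨hs, hs1⟩] with z hz
    exact (H z hz.1 hz.2).2.2.2.2.2.2
  unfold WL.mu analyticOrderNatAt
  rw [ord_of h1 h2 a1 a2 a3 a4 a5]

theorem MemD.ne_one_le {s : ℂ} (hs : 1 ≤ s.re) : X s ≠ 0 := by
  by_cases hs1 : s = 1
  · rw [hs1]
    exact h.one.one
  · intro h0
    exact LFunction_ne_zero_of_one_le_re χ (Or.inr hs1) hs ((h.zero_iff' (by linarith) hs1).1 h0)

theorem MemD.zero_iff (s : ℂ) : X s = 0 ↔ 0 < s.re ∧ s.re < 1 ∧ LFunction χ s = 0 := by
  constructor
  · intro h0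
    have h1 : s.re < 1 := by
      by_contra hc
      push Not at hc
      exact h.ne_one_le hc h0
    have h2 : 0 < s.re := by
      by_contra hc
      push Not at hc
      obtain ⟨ε, hε, hfe⟩ := h.one.raw.fe
      have h3 := hfe s
      rw [h0] at h3
      have hε0 : ε ≠ 0 := fun e => by
        rw [e, norm_zero] at hε
        exact zero_ne_one hε
      have h4 := (mul_eq_zero.1 h3.symm).resolve_left hε0
      exact h.ne_one_le (by simp; linarith) ((_root_.map_eq_zero _).1 h4)
    exact ⟨h2, h1, (h.zero_iff' h2 (fun e => by rw [e] at h1; simp at h1)).1 h0⟩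
  · rintro ⟨h2, h1, h0⟩
    exact (h.zero_iff' h2 (fun e => by rw [e] at h1; simp at h1)).2 h0

end mem

/-- the primitive character of the inverse -/
theorem prim_inv {q : ℕ} [NeZero q] (χ : DirichletCharacter ℂ q) (n : ℕ) :
    (χ⁻¹).primitiveCharacter (n : ZMod (χ⁻¹).conductor) = conj (χ.primitiveCharacter (n : ZMod χ.conductor)) := by
  have : NeZero χ.conductor := ⟨conductor_ne_zero χ⟩
  set ψ := χ.primitiveCharacter with hψ
  have h1 : changeLevel χ.conductor_dvd_level ψ⁻¹ = χ⁻¹ := by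
    rw [map_inv, changeLevel_primitiveCharacter]
  have h2 := primitiveCharacter_changeLevel_apply χ.conductor_dvd_level ψ⁻¹ (n : ℤ)
  rw [h1, Int.cast_natCast, Int.cast_natCast] at h2
  rw [h2]
  have h3 : (ψ⁻¹).primitiveCharacter ((n : ℕ) : ZMod (ψ⁻¹).conductor) = ψ⁻¹ ((n : ℕ) : ZMod χ.conductor) := by
    have hcond : (ψ⁻¹).conductor = χ.conductor := by
      rw [conductor_inv]
      exact χ.primitiveCharacter_isPrimitive
    by_cases hc : IsCoprime (n : ℤ) (χ.conductor : ℤ)
    · have := primitiveCharacter_apply_of_isCoprime (χ := ψ⁻¹) (a := (n : ℤ)) hc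
      rwa [Int.cast_natCast, Int.cast_natCast] at this
    · have e1 : (ψ⁻¹).primitiveCharacter (((n : ℤ)) : ZMod (ψ⁻¹).conductor) = 0 := by
        rw [apply_eq_zero_iff, hcond]
        exact hc
      have e2 : ψ⁻¹ (((n : ℤ)) : ZMod χ.conductor) = 0 := by
        rw [apply_eq_zero_iff]
        exact hc
      rw [Int.cast_natCast] at e1 e2
      rw [e1, e2]
  rw [h3, MulChar.inv_apply_eq_inv', Complex.inv_def]
  have h4 : ψ ((n : ℕ) : ZMod χ.conductor) = 0 ∨ ‖ψ ((n : ℕ) : ZMod χ.conductor)‖ = 1 := by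
    by_cases hu : IsUnit ((n : ℕ) : ZMod χ.conductor)
    · right
      obtain ⟨u, hu⟩ := hu
      rw [← hu]
      exact ψ.unit_norm_eq_one u
    · left
      exact ψ.map_nonunit hu
  rcases h4 with h4 | h4
  · rw [h4]
    simp
  · rw [Complex.normSq_eq_norm_sq, h4]
    simp

end Run7.h278.LG
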