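import Pool.Agent.Run7.h278.LG.FamCor

set_option autoImplicit false

/-!
# Correlation of the prime sums of two families of Dirichlet characters
-/

namespace Run7.h278.LG

open Complex Filter Topology MeasureTheory Set Run7.h278.LM DirichletCharacter
open scoped ENNReal

section

variable {q : ℕ} [NeZero q] {J : Type} [Fintype J] (χ : J → DirichletCharacter ℂ q) (d : J → ℕ)

/-- the ordinates as a set -/
def TSD : Set ℝ := {t : ℝ | 0 < t ∧ ∃ j, LFunction (χ j) (1 / 2 + t * I) = 0}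

/-- the total order -/
noncomputable def oD (t : ℝ) : ℝ := ∑ j, (d j : ℝ) * analyticOrderNatAt (LFunction (χ j)) (1 / 2 + t * I)

end

section

variable {q : ℕ} [NeZero q] {J : Type} [Fintype J] {χ : J → DirichletCharacter ℂ q} {d : J → ℕ}
variable {q' : ℕ} [NeZero q'] {J' : Type} [Fintype J'] {χ' : J' → DirichletCharacter ℂ q'} {d' : J' → ℕ}

/-- **Correlation of two families of Dirichlet characters.** -/
theorem dir_cor (hd : ∀ j, 1 ≤ d j) (hd' : ∀ j, 1 ≤ d' j) (τ : J ≃ J) (hτ : ∀ j, χ (τ j) = (χ j)⁻¹) (hdτ : ∀ j, d (τ j) = d j)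
    (τ' : J' ≃ J') (hτ' : ∀ j, χ' (τ' j) = (χ' j)⁻¹) (hdτ' : ∀ j, d' (τ' j) = d' j) :
    ∃ C C' : ℝ, Tendsto (fun σ : ℝ => mD χ d / (σ - 1) - RS (lamD χ d) σ) (𝓝[>] 1) (𝓝 (C - mD χ d)) ∧
      Tendsto (fun σ : ℝ => mD χ' d' / (σ - 1) - RS (lamD χ' d') σ) (𝓝[>] 1) (𝓝 (C' - mD χ' d')) ∧
      ((∃ B : ℝ, ∀ u, 0 < u → |aL (lamD χ d) (mD χ d) C u| ≤ B) ↔ GRHD χ) ∧
      ((∃ B : ℝ, ∀ u, 0 < u → |aL (lamD χ' d') (mD χ' d') C' u| ≤ B) ↔ GRHD χ') ∧
      (GRHD χ → GRHD χ' →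
        Tendsto (Am fun u => (aL (lamD χ d) (mD χ d) C u - 4 * rD χ d) * (aL (lamD χ' d') (mD χ' d') C' u - 4 * rD χ' d')) (𝓝[>] 0)
          (𝓝 (∑' t : ↥(TSD χ ∩ TSD χ'), 2 * ((oD χ d t / (1 / 4 + (t : ℝ) ^ 2)) * (oD χ' d' t / (1 / 4 + (t : ℝ) ^ 2))))) ∧
        ∀ p p' : ℕ, ∃ E E₁ E₂ : ℝ,
          Tendsto (Am fun u => (aL (lamD χ d) (mD χ d) C u - 4 * rD χ d) ^ p * (aL (lamD χ' d') (mD χ' d') C' u - 4 * rD χ' d') ^ p') (𝓝[>] 0) (𝓝 E) ∧
          Tendsto (Am fun u => (aL (lamD χ d) (mD χ d) C u - 4 * rD χ d) ^ p) (𝓝[>] 0) (𝓝 E₁) ∧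
          Tendsto (Am fun u => (aL (lamD χ' d') (mD χ' d') C' u - 4 * rD χ' d') ^ p') (𝓝[>] 0) (𝓝 E₂) ∧
          0 ≤ E₁ * E₂ ∧ E₁ * E₂ ≤ E ∧
          (E = E₁ * E₂ ↔ ∀ x ∈ Vl (fun t : TSD χ => (t : ℝ)) p, x ∈ Vl (fun t : TSD χ' => (t : ℝ)) p' → x = 0)) ∧
      ((∃ B : ℝ, ∀ u, 0 < u → |aL (lamD χ d) (mD χ d) C u| ≤ B) ∧ (∃ B : ℝ, ∀ u, 0 < u → |aL (lamD χ' d') (mD χ' d') C' u| ≤ B) ∧
        (∀ φ ψ : ℝ → ℝ, Continuous φ → Continuous ψ →
          Tendsto (Cv (fun u => φ (aL (lamD χ d) (mD χ d) C u)) (fun u => ψ (aL (lamD χ' d') (mD χ' d') C' u))) (𝓝[>] 0) (𝓝 0)) ↔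
        GRHD χ ∧ GRHD χ' ∧ ∀ x : ℝ, x ∈ AddSubgroup.closure (TSD χ) → x ∈ AddSubgroup.closure (TSD χ') → x = 0) := by
  obtain ⟨l, r, N, c, X, F, hm, hl, hC, hz, hmu⟩ := dir_set (χ := χ) (d := d) τ hτ hdτ
  obtain ⟨l', r', N', c', X', F', hm', hl', hC', hz', hmu'⟩ := dir_set (χ := χ') (d := d') τ' hτ' hdτ'
  have k := fam_cor F F' hd hd' hl hC hl' hC'
  have g1 : GRHf X ↔ GRHD χ := by
    unfold GRHf GRHD
    constructor
    · intro h j s a b e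
      exact h j s ((hz j s).2 ⟨a, b, e⟩)
    · intro h j s e
      obtain ⟨a, b, e⟩ := (hz j s).1 e
      exact h j s a b e
  have g1' : GRHf X' ↔ GRHD χ' := by
    unfold GRHf GRHD
    constructor
    · intro h j s a b e
      exact h j s ((hz' j s).2 ⟨a, b, e⟩)
    · intro h j s e
      obtain ⟨a, b, e⟩ := (hz' j s).1 e
      exact h j s a b e
  have g2 : rO X d = rD χ d := by
    unfold rO rD
    refine Finset.sum_congr rfl fun j _ => ?_
    rw [hmu j _ (by norm_num) (by norm_num)]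
  have g2' : rO X' d' = rD χ' d' := by
    unfold rO rD
    refine Finset.sum_congr rfl fun j _ => ?_
    rw [hmu' j _ (by norm_num) (by norm_num)]
  have g3 : TS X = TSD χ := by
    ext t
    unfold TS TSD
    simp only [Set.mem_ofPred_eq]
    refine and_congr_right fun _ => exists_congr fun j => ?_
    rw [hz]
    have a : (1 / 2 + t * I : ℂ).re = 1 / 2 := by simp
    rw [a]
    norm_num
  have g3' : TS X' = TSD χ' := by
    ext t
    unfold TS TSD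
    simp only [Set.mem_ofPred_eq]
    refine and_congr_right fun _ => exists_congr fun j => ?_
    rw [hz']
    have a : (1 / 2 + t * I : ℂ).re = 1 / 2 := by simp
    rw [a]
    norm_num
  have g4 : MO X d = oD χ d := by
    funext t
    unfold MO oD
    refine Finset.sum_congr rfl fun j _ => ?_
    rw [hmu j _ (by simp) (by simp; norm_num)]
  have g4' : MO X' d' = oD χ' d' := by
    funext t
    unfold MO oD
    refine Finset.sum_congr rfl fun j _ => ?_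
    rw [hmu' j _ (by simp) (by simp; norm_num)]
  rw [hm, hm', g1, g1', g2, g2', g3, g3', g4, g4'] at k
  exact k

end

end Run7.h278.LG
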