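import Pool.Agent.Run7.h278.LG.Dir

set_option autoImplicit false

/-!
# The main theorem for families of Dirichlet characters
-/

namespace Run7.h278.LG

open Complex Filter Topology MeasureTheory Set DirichletCharacter
open scoped ComplexConjugate ENNReal

/-- coefficients which differ at the primes dividing `q` only -/
theorem cl_of {lam lam' : ℕ → ℝ} {d d' : ℝ} (hl : ∀ n, |lam n| ≤ d * ArithmeticFunction.vonMangoldt n)
    (hl' : ∀ n, |lam' n| ≤ d' * ArithmeticFunction.vonMangoldt n) {q : ℕ} (hq : q ≠ 0)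
    (h : ∀ n : ℕ, ArithmeticFunction.vonMangoldt n ≠ 0 → Nat.Coprime n q → lam n = lam' n) : Cl lam lam' := by
  refine ⟨?_⟩
  set f : ℕ → ℝ := fun n => |lam n - lam' n| / (n : ℝ) ^ (1 / 4 : ℝ) with hf
  set g : q.primeFactors × ℕ → ℕ := fun x => (x.1 : ℕ) ^ (x.2 + 1) with hg
  have hpr : ∀ p : q.primeFactors, (p : ℕ).Prime := fun p => Nat.prime_of_mem_primeFactors p.2
  have hinj : Function.Injective g := by
    intro x y hxy
    have h1 : (x.1 : ℕ) ^ (x.2 + 1) = (y.1 : ℕ) ^ (y.2 + 1) := hxy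
    have h2 := congrArg Nat.minFac h1
    rw [(hpr x.1).pow_minFac (Nat.succ_ne_zero _), (hpr y.1).pow_minFac (Nat.succ_ne_zero _)] at h2
    rw [h2] at h1
    have h3 := Nat.pow_right_injective (hpr y.1).two_le h1
    refine Prod.ext (Subtype.ext h2) ?_
    omega
  have hb : ∀ n, |lam n - lam' n| ≤ (d + d') * ArithmeticFunction.vonMangoldt n := by
    intro n
    calc |lam n - lam' n| ≤ |lam n| + |lam' n| := abs_sub _ _
      _ ≤ _ := by linarith [hl n, hl' n]
  have hsupp : ∀ n, n ∉ range g → f n = 0 := by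
    intro n hn
    rw [hf]
    simp only
    by_cases hΛ : ArithmeticFunction.vonMangoldt n = 0
    · have h1 := hb n
      rw [hΛ, mul_zero] at h1
      rw [le_antisymm h1 (abs_nonneg _), zero_div]
    · by_cases hc : Nat.Coprime n q
      · rw [h n hΛ hc]
        simp
      · exfalso
        apply hn
        have h1 := ArithmeticFunction.vonMangoldt_ne_zero_iff.1 hΛ
        obtain ⟨p, k, hp, hk, rfl⟩ := (isPrimePow_nat_iff n).1 h1
        have hpq : p ∣ q := by
          by_contra hnd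
          apply hc
          exact Nat.Coprime.pow_left _ ((Nat.Prime.coprime_iff_not_dvd hp).2 hnd)
        refine ⟨(⟨p, Nat.mem_primeFactors.2 ⟨hp, hpq, hq⟩⟩, k - 1), ?_⟩
        rw [hg]
        simp only
        congr 1
        omega
  rw [← hinj.summable_iff hsupp]
  have hnn : 0 ≤ f ∘ g := fun x => by
    simp only [Function.comp_apply, hf]
    positivity
  rw [summable_prod_of_nonneg hnn]
  refine ⟨fun p => ?_, (hasSum_fintype _).summable⟩
  have hp := hpr p
  have hp1 : (1 : ℝ) < (p : ℕ) := by exact_mod_cast hp.one_lt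
  have hp0 : (0 : ℝ) < (p : ℕ) := by linarith
  set x : ℝ := (((p : ℕ) : ℝ) ^ (1 / 4 : ℝ))⁻¹ with hx
  have hx1 : x < 1 := by
    rw [hx]
    exact inv_lt_one_of_one_lt₀ (Real.one_lt_rpow hp1 (by norm_num))
  have hx0 : 0 ≤ x := by positivity
  have hgeo := (summable_geometric_of_lt_one hx0 hx1).mul_left ((d + d') * Real.log (p : ℕ) * x)
  refine Summable.of_nonneg_of_le (fun k => hnn (p, k)) (fun k => ?_) hgeo
  simp only [Function.comp_apply, hf, hg]
  have h1 := hb ((p : ℕ) ^ (k + 1))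
  rw [ArithmeticFunction.vonMangoldt_apply_pow (Nat.succ_ne_zero k), ArithmeticFunction.vonMangoldt_apply_prime hp] at h1
  have h2 : (((p : ℕ) ^ (k + 1) : ℕ) : ℝ) ^ (1 / 4 : ℝ) = (((p : ℕ) : ℝ) ^ (1 / 4 : ℝ)) ^ (k + 1) := by
    push_cast
    rw [← Real.rpow_natCast, ← Real.rpow_natCast, ← Real.rpow_mul hp0.le, ← Real.rpow_mul hp0.le, mul_comm]
  rw [h2, div_eq_mul_inv, ← inv_pow, pow_succ, ← hx]
  calc |lam ((p : ℕ) ^ (k + 1)) - lam' ((p : ℕ) ^ (k + 1))| * (x ^ k * x) ≤ ((d + d') * Real.log (p : ℕ)) * (x ^ k * x) := by gcongr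
    _ = _ := by ring

section main

variable {q : ℕ} [NeZero q] {J : Type} [Fintype J] (χ : J → DirichletCharacter ℂ q) (d : J → ℕ)

/-- the coefficients, imprimitive -/
noncomputable def lamD (n : ℕ) : ℝ := ArithmeticFunction.vonMangoldt n * (∑ j, (d j : ℂ) * χ j (n : ZMod q)).re

/-- the number of trivial characters -/
noncomputable def mD : ℝ := open Classical in ∑ j, (d j : ℝ) * if χ j = 1 then 1 else 0

/-- zeros in the critical strip, upper half -/
abbrev PD : Type := {p : J × ℂ // 0 < p.2.re ∧ p.2.re < 1 ∧ 0 < p.2.im ∧ LFunction (χ p.1) p.2 = 0}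

/-- the weighted central order -/
noncomputable def rD : ℝ := ∑ j, (d j : ℝ) * analyticOrderNatAt (LFunction (χ j)) (1 / 2)

/-- GRH -/
def GRHD : Prop := ∀ j (s : ℂ), 0 < s.re → s.re < 1 → LFunction (χ j) s = 0 → s.re = 1 / 2

/-- the product -/
noncomputable def CD (s : ℝ) : ℝ :=
  ∏' p : PD χ, (LM.J (s * ((d p.1.1 : ℝ) / (1 / 4 + p.1.2.im ^ 2)))) ^ analyticOrderNatAt (LFunction (χ p.1.1)) p.1.2

/-- distinct ordinates -/
abbrev TD : Type := {t : ℝ // 0 < t ∧ ∃ j, LFunction (χ j) (1 / 2 + t * I) = 0}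

/-- the product over the distinct ordinates -/
noncomputable def CDT (s : ℝ) : ℝ :=
  ∏' t : TD χ, LM.J (s * ((∑ j, (d j : ℝ) * analyticOrderNatAt (LFunction (χ j)) (1 / 2 + (t : ℝ) * I)) / (1 / 4 + (t : ℝ) ^ 2)))

variable {χ d}

/-- **The main theorem for families of Dirichlet characters.** -/
theorem dir_main (hd : ∀ j, 1 ≤ d j) (τ : J ≃ J) (hτ : ∀ j, χ (τ j) = (χ j)⁻¹) (hdτ : ∀ j, d (τ j) = d j) :
    ∃ C : ℝ, Tendsto (fun σ : ℝ => mD χ d / (σ - 1) - RS (lamD χ d) σ) (𝓝[>] 1) (𝓝 (C - mD χ d)) ∧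
      ∀ s : ℝ, 0 < s → (GRHD χ →
        (Multipliable fun p : PD χ => (LM.J (s * ((d p.1.1 : ℝ) / (1 / 4 + p.1.2.im ^ 2)))) ^ analyticOrderNatAt (LFunction (χ p.1.1)) p.1.2) ∧
        Multipliable fun t : TD χ => LM.J (s * ((∑ j, (d j : ℝ) * analyticOrderNatAt (LFunction (χ j)) (1 / 2 + (t : ℝ) * I)) / (1 / 4 + (t : ℝ) ^ 2)))) ∧
        ∃ L : ℝ≥0∞, Tendsto (ML (lamD χ d) (mD χ d) C s) (𝓝[>] 0) (𝓝 L) ∧
        (L < ⊤ ↔ GRHD χ) ∧
        ENNReal.ofReal (Real.cosh (4 * s * rD χ d) * CD χ d s) ≤ L ∧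
        (L = ENNReal.ofReal (Real.cosh (4 * s * rD χ d) * CD χ d s) ↔ GRHD χ ∧
          (∀ p : PD χ, analyticOrderNatAt (LFunction (χ p.1.1)) p.1.2 = 1) ∧ LinearIndependent ℚ fun p : PD χ => p.1.2.im) ∧
        ENNReal.ofReal (Real.cosh (4 * s * rD χ d) * CDT χ d s) ≤ L ∧
        (L = ENNReal.ofReal (Real.cosh (4 * s * rD χ d) * CDT χ d s) ↔
          GRHD χ ∧ LinearIndependent ℚ fun t : TD χ => (t : ℝ)) := by
  classical
  choose l r N X hX using fun j => exists_mem (χ j)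
  set c : J → ℕ → ℂ := fun j n => (χ j).primitiveCharacter (n : ZMod (χ j).conductor) with hc
  have F : Family l r N c c X d := by
    refine ⟨fun j => (hX j).one, fun n _ => ?_⟩
    have h1 : conj (∑ j, (d j : ℂ) * c j n) = ∑ j, (d j : ℂ) * c j n := by
      rw [map_sum]
      refine Fintype.sum_equiv τ _ _ fun j => ?_
      rw [map_mul, map_natCast, hdτ]
      congr 1
      rw [hc]
      simp only
      rw [hτ, prim_inv]
    exact Complex.conj_eq_iff_im.1 h1
  have hm : mF r d = mD χ d := by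
    unfold mF mD
    refine Finset.sum_congr rfl fun j _ => ?_
    rw [(hX j).pole]
    push_cast
    split_ifs <;> simp
  have hl : ∀ n, |lamF c d n| ≤ dF l d * ArithmeticFunction.vonMangoldt n := by
    obtain ⟨w, D⟩ := F.rd
    exact D.lam_le
  have hl' : ∀ n, |lamD χ d n| ≤ (∑ j, (d j : ℝ)) * ArithmeticFunction.vonMangoldt n := by
    intro n
    unfold lamD
    rw [abs_mul, abs_of_nonneg ArithmeticFunction.vonMangoldt_nonneg, mul_comm]
    refine mul_le_mul_of_nonneg_right ?_ ArithmeticFunction.vonMangoldt_nonneg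
    refine (Complex.abs_re_le_norm _).trans ((norm_sum_le _ _).trans (Finset.sum_le_sum fun j _ => ?_))
    rw [norm_mul, Complex.norm_natCast]
    exact mul_le_of_le_one_right (Nat.cast_nonneg _) ((χ j).norm_le_one _)
  have hC : Cl (lamF c d) (lamD χ d) := by
    refine cl_of hl hl' (NeZero.ne q) fun n _ hn => ?_
    unfold lamF lamD
    congr 2
    refine Finset.sum_congr rfl fun j _ => ?_
    congr 1
    have := primitiveCharacter_apply_of_isCoprime (χ := χ j) (a := (n : ℤ)) (Nat.isCoprime_iff_coprime.2 hn)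
    rwa [Int.cast_natCast, Int.cast_natCast] at this
  obtain ⟨C, hC1, hC2⟩ := F.main hd hl' hC
  rw [hm] at hC1 hC2
  refine ⟨C, hC1, fun s hs => ?_⟩
  obtain ⟨hM, L, h1, h2, h3, h4, h5, h6⟩ := hC2 s hs
  have g1 : GRHf X ↔ GRHD χ := by
    unfold GRHf GRHD
    constructor
    · intro h j s a b e
      exact h j s (((hX j).zero_iff s).2 ⟨a, b, e⟩)
    · intro h j s e
      obtain ⟨a, b, e⟩ := ((hX j).zero_iff s).1 e
      exact h j s a b e
  have hmu : ∀ (j : J) (s : ℂ), 0 < s.re → s.re < 1 → WL.mu (X j) s = analyticOrderNatAt (LFunction (χ j)) s := by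
    intro j s a b
    exact (hX j).order a fun e => by
      rw [e] at b
      simp at b
  have g2 : rO X d = rD χ d := by
    unfold rO rD
    refine Finset.sum_congr rfl fun j _ => ?_
    rw [hmu j _ (by norm_num) (by norm_num)]
  set e : PO X ≃ PD χ := Equiv.subtypeEquivRight fun p => by
    rw [(hX p.1).zero_iff p.2]
    tauto
  have he : ∀ p : PO X, (e p).1 = p.1 := fun p => rfl
  have hre : ∀ p : PO X, 0 < p.1.2.re ∧ p.1.2.re < 1 := fun p => by
    obtain ⟨a, b, -⟩ := ((hX _).zero_iff _).1 p.2.2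
    exact ⟨a, b⟩
  have g3' : (fun p : PO X => (LM.J (s * ((d p.1.1 : ℝ) / (1 / 4 + p.1.2.im ^ 2)))) ^ WL.mu (X p.1.1) p.1.2) =
      (fun p : PD χ => (LM.J (s * ((d p.1.1 : ℝ) / (1 / 4 + p.1.2.im ^ 2)))) ^ analyticOrderNatAt (LFunction (χ p.1.1)) p.1.2) ∘ e := by
    funext p
    simp only [Function.comp_apply]
    rw [he, hmu _ _ (hre p).1 (hre p).2]
  have g3 : CP X d s = CD χ d s := by
    unfold CP CD
    rw [g3', ← e.tprod_eq]
    rfl
  have g4 : LIf X ↔ (∀ p : PD χ, analyticOrderNatAt (LFunction (χ p.1.1)) p.1.2 = 1) ∧ LinearIndependent ℚ fun p : PD χ => p.1.2.im := by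
    unfold LIf
    refine and_congr ?_ ?_
    · rw [← e.forall_congr_right (q := fun p : PD χ => analyticOrderNatAt (LFunction (χ p.1.1)) p.1.2 = 1)]
      refine forall_congr' fun p => ?_
      rw [he, hmu _ _ (hre p).1 (hre p).2]
    · rw [← linearIndependent_equiv e]
      rfl
  have g5 : ∀ t : ℝ, (∃ j, X j (1 / 2 + t * I) = 0) ↔ ∃ j, LFunction (χ j) (1 / 2 + t * I) = 0 := by
    intro t
    refine exists_congr fun j => ?_
    rw [(hX j).zero_iff]
    have a : (1 / 2 + t * I : ℂ).re = 1 / 2 := by simp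
    rw [a]
    norm_num
  set e' : TO X ≃ TD χ := Equiv.subtypeEquivRight fun t => by rw [g5]
  have he' : ∀ p : TO X, (e' p).1 = p.1 := fun p => rfl
  have g6' : (fun t : TO X => LM.J (s * (MO X d t / (1 / 4 + (t : ℝ) ^ 2)))) =
      (fun t : TD χ => LM.J (s * ((∑ j, (d j : ℝ) * analyticOrderNatAt (LFunction (χ j)) (1 / 2 + (t : ℝ) * I)) / (1 / 4 + (t : ℝ) ^ 2)))) ∘ e' := by
    funext t
    simp only [Function.comp_apply]
    rw [he']
    unfold MO
    congr 3
    refine Finset.sum_congr rfl fun j _ => ?_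
    rw [hmu j _ (by simp) (by simp; norm_num)]
  have g6 : CT X d s = CDT χ d s := by
    unfold CT CDT
    rw [g6', ← e'.tprod_eq]
    rfl
  have g7 : (LinearIndependent ℚ fun t : TO X => (t : ℝ)) ↔ LinearIndependent ℚ fun t : TD χ => (t : ℝ) := by
    rw [← linearIndependent_equiv e']
    rfl
  rw [g1, g3', g6', e.multipliable_iff, e'.multipliable_iff] at hM
  rw [g1] at h2
  rw [g2, g3] at h3
  rw [g1, g2, g3, g4] at h4
  rw [g2, g6] at h5
  rw [g1, g2, g6, g7] at h6
  exact ⟨hM, L, h1, h2, h3, h4, h5, h6⟩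

end main

end Run7.h278.LG
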