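import Pool.Agent.Run7.h278.LG.FamPow
import Pool.Agent.Run7.h278.LG.DirMain

set_option autoImplicit false

/-!
# Even moments and extreme values for families of Dirichlet characters
-/

namespace Run7.h278.LG

open Complex Filter Topology MeasureTheory Set DirichletCharacter
open scoped ComplexConjugate ENNReal

section gen

variable {J : Type} [Fintype J] {l : J → List ℝ} {r : J → ℕ} {N : J → ℝ} {b c : J → ℕ → ℂ} {X : J → ℂ → ℂ} {d : J → ℕ}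
variable (F : Family l r N b c X d)

/-- zeros with multiplicities -/
abbrev PM' (X : J → ℂ → ℂ) : Type := Σ p : PO X, Fin (WL.mu (X p.1.1) p.1.2)

include F

/-- **Even moments for families**, with the simple zeros split off. -/
theorem Family.even2 (hd : ∀ j, 1 ≤ d j) {lam' : ℕ → ℝ} {d' : ℝ} (hl' : ∀ n, |lam' n| ≤ d' * ArithmeticFunction.vonMangoldt n)
    (hC : Cl (lamF c d) lam') (κ : J → ℕ) (hκ : ∀ j, κ j ≤ WL.mu (X j) (1 / 2)) :
    ∃ C : ℝ, Tendsto (fun σ : ℝ => mF r d / (σ - 1) - RS lam' σ) (𝓝[>] 1) (𝓝 (C - mF r d)) ∧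
      ∀ K : ℕ, 1 ≤ K → (GRHf X → Summable fun n : Dg (PM' X) K => Tr (fun x : PM' X => (d x.1.1.1 : ℝ) / (1 / 4 + x.1.1.2.im ^ 2)) n.1 ^ 2) ∧
        ∃ L : ℝ≥0∞, Tendsto (PM (aL lam' (mF r d) C) (4 * ∑ j, (d j : ℝ) * κ j) K) (𝓝[>] 0) (𝓝 L) ∧
        (L < ⊤ ↔ GRHf X) ∧
        ENNReal.ofReal ((2 * K).factorial * ∑' n : Dg (PM' X) K, Tr (fun x : PM' X => (d x.1.1.1 : ℝ) / (1 / 4 + x.1.1.2.im ^ 2)) n.1 ^ 2) ≤ L ∧
        (L = ENNReal.ofReal ((2 * K).factorial * ∑' n : Dg (PM' X) K, Tr (fun x : PM' X => (d x.1.1.1 : ℝ) / (1 / 4 + x.1.1.2.im ^ 2)) n.1 ^ 2) ↔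
          GRHf X ∧ ((∀ p : PO X, WL.mu (X p.1.1) p.1.2 = 1) ∧ ¬Rl (fun p : PO X => p.1.2.im) (2 * K)) ∧ ∀ j, WL.mu (X j) (1 / 2) = κ j) := by
  set e : PM' X ≃ Om X := (eO (X := X) (fun j s h => (F.mu_ne j s).1 h)).symm with he
  obtain ⟨C, h1, h2⟩ := F.even hd hl' hC κ hκ e
  refine ⟨C, h1, fun K hK => ?_⟩
  have h3 := h2 K hK
  have ew : (fun x : PM' X => wO X d (e x)) = fun x : PM' X => (d x.1.1.1 : ℝ) / (1 / 4 + x.1.1.2.im ^ 2) := rfl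
  have et : (fun x : PM' X => tO X (e x)) = fun x : PM' X => x.1.1.2.im := rfl
  rw [ew, et] at h3
  have hμ : ∀ p : PO X, 0 < WL.mu (X p.1.1) p.1.2 := fun p => Nat.pos_of_ne_zero ((F.mu_ne _ _).2 p.2.2)
  have h4 := Rl_sigma (fun p : PO X => WL.mu (X p.1.1) p.1.2) hμ (fun p : PO X => p.1.2.im) (p := 2 * K) (by omega) (even_two_mul K)
  rw [h4] at h3
  exact h3

/-- **Symmetric oscillation.** -/
theorem Family.sym (hd : ∀ j, 1 ≤ d j) {lam' : ℕ → ℝ} {d' : ℝ} (hl' : ∀ n, |lam' n| ≤ d' * ArithmeticFunction.vonMangoldt n)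
    (hC : Cl (lamF c d) lam') (κ : J → ℕ) (hκ : ∀ j, κ j ≤ WL.mu (X j) (1 / 2)) :
    ∃ C : ℝ, Tendsto (fun σ : ℝ => mF r d / (σ - 1) - RS lam' σ) (𝓝[>] 1) (𝓝 (C - mF r d)) ∧
      ((∃ B : ℝ, ∀ u, 0 < u → |aL lam' (mF r d) C u| ≤ B) ↔ GRHf X) ∧
      (GRHf X → Summable (wT X d) ∧ limsup (aL lam' (mF r d) C) atTop = 4 * rO X d + ∑' t : TO X, 2 * wT X d t ∧
        4 * rO X d - ∑' t : TO X, 2 * wT X d t ≤ liminf (aL lam' (mF r d) C) atTop ∧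
        (liminf (aL lam' (mF r d) C) atTop = 4 * rO X d - ∑' t : TO X, 2 * wT X d t ↔ ¬Od (fun t : TO X => (t : ℝ)))) ∧
      (GRHf X → 8 * ∑ j, (d j : ℝ) * κ j ≤ limsup (aL lam' (mF r d) C) atTop + liminf (aL lam' (mF r d) C) atTop) ∧
      ((∃ B : ℝ, ∀ u, 0 < u → |aL lam' (mF r d) C u| ≤ B) ∧
        limsup (aL lam' (mF r d) C) atTop + liminf (aL lam' (mF r d) C) atTop = 8 * ∑ j, (d j : ℝ) * κ j ↔
        GRHf X ∧ ¬Od (fun t : TO X => (t : ℝ)) ∧ ∀ j, WL.mu (X j) (1 / 2) = κ j) := by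
  obtain ⟨C, h1, h2, h3⟩ := F.ext hd hl' hC
  set k0 := ∑ j, (d j : ℝ) * κ j with hk0
  have hle : k0 ≤ rO X d := by
    unfold rO
    refine Finset.sum_le_sum fun j _ => ?_
    have : (κ j : ℝ) ≤ WL.mu (X j) (1 / 2) := by exact_mod_cast hκ j
    gcongr
  have heq : rO X d = k0 ↔ ∀ j, WL.mu (X j) (1 / 2) = κ j := by
    constructor
    · intro h j
      have h7 : k0 = ∑ j, (d j : ℝ) * WL.mu (X j) (1 / 2) := h.symm
      have h8 := (Finset.sum_eq_sum_iff_of_le (f := fun j => (d j : ℝ) * κ j) (g := fun j => (d j : ℝ) * WL.mu (X j) (1 / 2))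
        (s := Finset.univ) (fun j _ => by
          have : (κ j : ℝ) ≤ WL.mu (X j) (1 / 2) := by exact_mod_cast hκ j
          gcongr)).1 h7 j (Finset.mem_univ j)
      have h9 : (0 : ℝ) < d j := by exact_mod_cast hd j
      have h10 := mul_left_cancel₀ h9.ne' h8
      exact_mod_cast h10.symm
    · intro h
      unfold rO
      refine Finset.sum_congr rfl fun j _ => ?_
      rw [h j]
  refine ⟨C, h1, h2, fun hG => ⟨(h3 hG).1, (h3 hG).2.1, (h3 hG).2.2.1, (h3 hG).2.2.2.1⟩, fun hG => ?_, ?_⟩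
  · obtain ⟨-, g1, g2, -⟩ := h3 hG
    linarith
  · constructor
    · rintro ⟨q1, q2⟩
      have hG := h2.1 q1
      obtain ⟨-, g1, g2, g3, -⟩ := h3 hG
      have h5 : rO X d = k0 := by linarith
      refine ⟨hG, g3.1 (by linarith), heq.1 h5⟩
    · rintro ⟨hG, q2, q3⟩
      obtain ⟨-, g1, g2, g3, -⟩ := h3 hG
      refine ⟨h2.2 hG, ?_⟩
      rw [g1, g3.2 q2, heq.2 q3]
      ring

end gen

section dir

variable {q : ℕ} [NeZero q] {J : Type} [Fintype J] {χ : J → DirichletCharacter ℂ q} {d : J → ℕ}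

/-- the primitive family behind a family of Dirichlet characters -/
theorem dir_set (τ : J ≃ J) (hτ : ∀ j, χ (τ j) = (χ j)⁻¹) (hdτ : ∀ j, d (τ j) = d j) :
    ∃ (l : J → List ℝ) (r : J → ℕ) (N : J → ℝ) (c : J → ℕ → ℂ) (X : J → ℂ → ℂ), Family l r N c c X d ∧ mF r d = mD χ d ∧
      (∀ n, |lamD χ d n| ≤ (∑ j, (d j : ℝ)) * ArithmeticFunction.vonMangoldt n) ∧ Cl (lamF c d) (lamD χ d) ∧
      (∀ j s, X j s = 0 ↔ 0 < s.re ∧ s.re < 1 ∧ LFunction (χ j) s = 0) ∧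
      ∀ (j : J) (s : ℂ), 0 < s.re → s.re < 1 → WL.mu (X j) s = analyticOrderNatAt (LFunction (χ j)) s := by
  classical
  choose l r N X hX using fun j => exists_mem (χ j)
  set c : J → ℕ → ℂ := fun j n => (χ j).primitiveCharacter (n : ZMod (χ j).conductor) with hc
  have F : Family l r N c c X d := by
    refine ⟨fun j => (hX j).one, fun n _ => ?_⟩
    have h1 : conj (∑ j, (d j : ℂ) * c j n) = ∑ j, (d j : ℂ) * c j n := by
      rw [map_sum]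
      refine Fintype.sum_equiv τ _ _ fun j => ?_
      rw [map_mul, map_natCast, hdτ]
      congr 1
      rw [hc]
      simp only
      rw [hτ, prim_inv]
    exact Complex.conj_eq_iff_im.1 h1
  have hm : mF r d = mD χ d := by
    unfold mF mD
    refine Finset.sum_congr rfl fun j _ => ?_
    rw [(hX j).pole]
    push_cast
    split_ifs <;> simp
  have hl : ∀ n, |lamF c d n| ≤ dF l d * ArithmeticFunction.vonMangoldt n := by
    obtain ⟨w, D⟩ := F.rd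
    exact D.lam_le
  have hl' : ∀ n, |lamD χ d n| ≤ (∑ j, (d j : ℝ)) * ArithmeticFunction.vonMangoldt n := by
    intro n
    unfold lamD
    rw [abs_mul, abs_of_nonneg ArithmeticFunction.vonMangoldt_nonneg, mul_comm]
    refine mul_le_mul_of_nonneg_right ?_ ArithmeticFunction.vonMangoldt_nonneg
    refine (Complex.abs_re_le_norm _).trans ((norm_sum_le _ _).trans (Finset.sum_le_sum fun j _ => ?_))
    rw [norm_mul, Complex.norm_natCast]
    exact mul_le_of_le_one_right (Nat.cast_nonneg _) ((χ j).norm_le_one _)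
  have hC : Cl (lamF c d) (lamD χ d) := by
    refine cl_of hl hl' (NeZero.ne q) fun n _ hn => ?_
    unfold lamF lamD
    congr 2
    refine Finset.sum_congr rfl fun j _ => ?_
    congr 1
    have := primitiveCharacter_apply_of_isCoprime (χ := χ j) (a := (n : ℤ)) (Nat.isCoprime_iff_coprime.2 hn)
    rwa [Int.cast_natCast, Int.cast_natCast] at this
  refine ⟨l, r, N, c, X, F, hm, hl', hC, fun j s => (hX j).zero_iff s, ?_⟩
  intro j s a b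
  exact (hX j).order a fun e => by
    rw [e] at b
    simp at b

variable (χ d)

/-- zeros with multiplicities -/
abbrev PDM : Type := Σ p : PD χ, Fin (analyticOrderNatAt (LFunction (χ p.1.1)) p.1.2)

/-- the weight of an ordinate -/
noncomputable def wD (t : TD χ) : ℝ := (∑ j, (d j : ℝ) * analyticOrderNatAt (LFunction (χ j)) (1 / 2 + (t : ℝ) * I)) / (1 / 4 + (t : ℝ) ^ 2)

variable {χ d}

/-- **Even moments for families of Dirichlet characters.** -/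
theorem dir_even (hd : ∀ j, 1 ≤ d j) (τ : J ≃ J) (hτ : ∀ j, χ (τ j) = (χ j)⁻¹) (hdτ : ∀ j, d (τ j) = d j)
    (κ : J → ℕ) (hκ : ∀ j, κ j ≤ analyticOrderNatAt (LFunction (χ j)) (1 / 2)) :
    ∃ C : ℝ, Tendsto (fun σ : ℝ => mD χ d / (σ - 1) - RS (lamD χ d) σ) (𝓝[>] 1) (𝓝 (C - mD χ d)) ∧
      ∀ K : ℕ, 1 ≤ K → (GRHD χ → Summable fun n : Dg (PDM χ) K => Tr (fun x : PDM χ => (d x.1.1.1 : ℝ) / (1 / 4 + x.1.1.2.im ^ 2)) n.1 ^ 2) ∧
        ∃ L : ℝ≥0∞, Tendsto (PM (aL (lamD χ d) (mD χ d) C) (4 * ∑ j, (d j : ℝ) * κ j) K) (𝓝[>] 0) (𝓝 L) ∧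
        (L < ⊤ ↔ GRHD χ) ∧
        ENNReal.ofReal ((2 * K).factorial * ∑' n : Dg (PDM χ) K, Tr (fun x : PDM χ => (d x.1.1.1 : ℝ) / (1 / 4 + x.1.1.2.im ^ 2)) n.1 ^ 2) ≤ L ∧
        (L = ENNReal.ofReal ((2 * K).factorial * ∑' n : Dg (PDM χ) K, Tr (fun x : PDM χ => (d x.1.1.1 : ℝ) / (1 / 4 + x.1.1.2.im ^ 2)) n.1 ^ 2) ↔
          GRHD χ ∧ ((∀ p : PD χ, analyticOrderNatAt (LFunction (χ p.1.1)) p.1.2 = 1) ∧ ¬Rl (fun p : PD χ => p.1.2.im) (2 * K)) ∧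
            ∀ j, analyticOrderNatAt (LFunction (χ j)) (1 / 2) = κ j) := by
  obtain ⟨l, r, N, c, X, F, hm, hl', hC, hz, hmu⟩ := dir_set (χ := χ) (d := d) τ hτ hdτ
  have hhalf : ∀ j, WL.mu (X j) (1 / 2) = analyticOrderNatAt (LFunction (χ j)) (1 / 2) := fun j =>
    hmu j _ (by norm_num) (by norm_num)
  have hre : ∀ p : PD χ, WL.mu (X p.1.1) p.1.2 = analyticOrderNatAt (LFunction (χ p.1.1)) p.1.2 := fun p => hmu _ _ p.2.1 p.2.2.1
  have hX0 : ∀ p : PD χ, X p.1.1 p.1.2 = 0 := fun p => (hz _ _).2 ⟨p.2.1, p.2.2.1, p.2.2.2.2⟩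
  have hμ : ∀ p : PD χ, 0 < analyticOrderNatAt (LFunction (χ p.1.1)) p.1.2 := fun p => by
    rw [← hre]
    exact Nat.pos_of_ne_zero ((F.mu_ne _ _).2 (hX0 p))
  have hmem : ∀ x : Om X, 0 < x.1.2.1.re ∧ x.1.2.1.re < 1 ∧ 0 < x.1.2.1.im ∧ LFunction (χ x.1.1) x.1.2.1 = 0 := fun x => by
    have h1 := (F.mu_ne x.1.1 x.1.2.1).1 (Nat.ne_zero_of_lt x.2.2)
    obtain ⟨a, b, c⟩ := (hz _ _).1 h1
    exact ⟨a, b, x.2.1, c⟩
  have hto : ∀ x : PDM χ, 0 < x.1.1.2.im ∧ (x.2 : ℕ) < WL.mu (X x.1.1.1) x.1.1.2 := fun x =>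
    ⟨x.1.2.2.2.1, by
      rw [hre]
      exact x.2.2⟩
  have hinv : ∀ x : Om X, x.1.2.2 < analyticOrderNatAt (LFunction (χ x.1.1)) x.1.2.1 := fun x => by
    rw [← hmu _ _ (hmem x).1 (hmem x).2.1]
    exact x.2.2
  set e : PDM χ ≃ Om X := ⟨fun x => ⟨(x.1.1.1, x.1.1.2, (x.2 : ℕ)), hto x⟩,
    fun y => ⟨⟨(y.1.1, y.1.2.1), hmem y⟩, ⟨y.1.2.2, hinv y⟩⟩, fun _ => rfl, fun _ => rfl⟩ with he
  obtain ⟨C, h1, h2⟩ := F.even hd hl' hC κ (fun j => by rw [hhalf]; exact hκ j) e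
  rw [hm] at h1 h2
  refine ⟨C, h1, fun K hK => ?_⟩
  have h3 := h2 K hK
  have ew : (fun x : PDM χ => wO X d (e x)) = fun x : PDM χ => (d x.1.1.1 : ℝ) / (1 / 4 + x.1.1.2.im ^ 2) := rfl
  have et : (fun x : PDM χ => tO X (e x)) = fun x : PDM χ => x.1.1.2.im := rfl
  have h4 := Rl_sigma (fun p : PD χ => analyticOrderNatAt (LFunction (χ p.1.1)) p.1.2) hμ (fun p : PD χ => p.1.2.im)
    (p := 2 * K) (by omega) (even_two_mul K)
  have g1 : GRHf X ↔ GRHD χ := by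
    unfold GRHf GRHD
    constructor
    · intro h j s a b e
      exact h j s ((hz j s).2 ⟨a, b, e⟩)
    · intro h j s e
      obtain ⟨a, b, e⟩ := (hz j s).1 e
      exact h j s a b e
  rw [ew, et, h4, g1] at h3
  simp_rw [hhalf] at h3
  exact h3

/-- **Symmetric oscillation for families of Dirichlet characters.** -/
theorem dir_sym (hd : ∀ j, 1 ≤ d j) (τ : J ≃ J) (hτ : ∀ j, χ (τ j) = (χ j)⁻¹) (hdτ : ∀ j, d (τ j) = d j)
    (κ : J → ℕ) (hκ : ∀ j, κ j ≤ analyticOrderNatAt (LFunction (χ j)) (1 / 2)) :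
    ∃ C : ℝ, Tendsto (fun σ : ℝ => mD χ d / (σ - 1) - RS (lamD χ d) σ) (𝓝[>] 1) (𝓝 (C - mD χ d)) ∧
      ((∃ B : ℝ, ∀ u, 0 < u → |aL (lamD χ d) (mD χ d) C u| ≤ B) ↔ GRHD χ) ∧
      (GRHD χ → Summable (wD χ d) ∧ limsup (aL (lamD χ d) (mD χ d) C) atTop = 4 * rD χ d + ∑' t : TD χ, 2 * wD χ d t ∧
        4 * rD χ d - ∑' t : TD χ, 2 * wD χ d t ≤ liminf (aL (lamD χ d) (mD χ d) C) atTop ∧
        (liminf (aL (lamD χ d) (mD χ d) C) atTop = 4 * rD χ d - ∑' t : TD χ, 2 * wD χ d t ↔ ¬Od (fun t : TD χ => (t : ℝ)))) ∧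
      (GRHD χ → 8 * ∑ j, (d j : ℝ) * κ j ≤ limsup (aL (lamD χ d) (mD χ d) C) atTop + liminf (aL (lamD χ d) (mD χ d) C) atTop) ∧
      ((∃ B : ℝ, ∀ u, 0 < u → |aL (lamD χ d) (mD χ d) C u| ≤ B) ∧
        limsup (aL (lamD χ d) (mD χ d) C) atTop + liminf (aL (lamD χ d) (mD χ d) C) atTop = 8 * ∑ j, (d j : ℝ) * κ j ↔
        GRHD χ ∧ ¬Od (fun t : TD χ => (t : ℝ)) ∧ ∀ j, analyticOrderNatAt (LFunction (χ j)) (1 / 2) = κ j) := by
  obtain ⟨l, r, N, c, X, F, hm, hl', hC, hz, hmu⟩ := dir_set (χ := χ) (d := d) τ hτ hdτ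
  have hhalf : ∀ j, WL.mu (X j) (1 / 2) = analyticOrderNatAt (LFunction (χ j)) (1 / 2) := fun j =>
    hmu j _ (by norm_num) (by norm_num)
  obtain ⟨C, h1, h2, h3, h4, h5⟩ := F.sym hd hl' hC κ (fun j => by rw [hhalf]; exact hκ j)
  have g1 : GRHf X ↔ GRHD χ := by
    unfold GRHf GRHD
    constructor
    · intro h j s a b e
      exact h j s ((hz j s).2 ⟨a, b, e⟩)
    · intro h j s e
      obtain ⟨a, b, e⟩ := (hz j s).1 e
      exact h j s a b e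
  have g2 : rO X d = rD χ d := by
    unfold rO rD
    refine Finset.sum_congr rfl fun j _ => ?_
    rw [hhalf j]
  have g5 : ∀ t : ℝ, (∃ j, X j (1 / 2 + t * I) = 0) ↔ ∃ j, LFunction (χ j) (1 / 2 + t * I) = 0 := by
    intro t
    refine exists_congr fun j => ?_
    rw [hz]
    have a : (1 / 2 + t * I : ℂ).re = 1 / 2 := by simp
    rw [a]
    norm_num
  set e' : TO X ≃ TD χ := Equiv.subtypeEquivRight fun t => by rw [g5]
  have he' : ∀ p : TO X, (e' p).1 = p.1 := fun p => rfl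
  have g6 : wT X d = fun t => wD χ d (e' t) := by
    funext t
    unfold wT wD MO
    rw [he']
    congr 1
    refine Finset.sum_congr rfl fun j _ => ?_
    rw [hmu j _ (by simp) (by simp; norm_num)]
  have g7 : Summable (wT X d) ↔ Summable (wD χ d) := by
    rw [g6]
    exact e'.summable_iff (f := wD χ d)
  have g8 : ∑' t : TO X, 2 * wT X d t = ∑' t : TD χ, 2 * wD χ d t := by
    rw [g6]
    exact e'.tsum_eq (fun t : TD χ => 2 * wD χ d t)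
  have g9 : Od (fun t : TO X => (t : ℝ)) ↔ Od (fun t : TD χ => (t : ℝ)) := Od_equiv _ (t' := fun t : TD χ => (t : ℝ)) e' (fun x => rfl)
  rw [hm] at h1 h2 h3 h4 h5
  rw [g1] at h2 h3 h4 h5
  rw [g7, g8, g2, g9] at h3
  rw [g9] at h5
  simp_rw [hhalf] at h5
  exact ⟨C, h1, h2, h3, h4, h5⟩

end dir

end Run7.h278.LG
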