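import Pool.Agent.Run7.h278.LG.Tau

set_option autoImplicit false

/-!
# The constant
-/

namespace Run7.h278.LG

open Filter Topology MeasureTheory Set
open scoped ENNReal

theorem bern4 (x : ℝ) : Polynomial.eval x (Polynomial.map (algebraMap ℚ ℝ) (Polynomial.bernoulli 4)) = x ^ 4 - 2 * x ^ 3 + x ^ 2 - 1 / 30 := by
  have h2 : bernoulli 2 = 1 / 6 := by rw [bernoulli_eq_bernoulli'_of_ne_one (by norm_num), bernoulli'_two]
  have h3 : bernoulli 3 = 0 := by rw [bernoulli_eq_bernoulli'_of_ne_one (by norm_num), bernoulli'_three]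
  have h4 : bernoulli 4 = -1 / 30 := by rw [bernoulli_eq_bernoulli'_of_ne_one (by norm_num), bernoulli'_four]
  simp only [Polynomial.bernoulli, Finset.sum_range_succ, Finset.sum_range_zero, zero_add, bernoulli_zero, bernoulli_one, h2, h3, h4,
    Polynomial.map_add, Polynomial.map_monomial, Polynomial.eval_add, Polynomial.eval_monomial]
  norm_num [Nat.choose]
  ring

theorem cos4 {x : ℝ} (hx : x ∈ Icc (0 : ℝ) 1) :
    HasSum (fun n : ℕ => 1 / (n : ℝ) ^ 4 * Real.cos (2 * Real.pi * n * x)) (-(2 * Real.pi) ^ 4 / 48 * (x ^ 4 - 2 * x ^ 3 + x ^ 2 - 1 / 30)) := by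
  have h := hasSum_one_div_nat_pow_mul_cos (k := 2) (by norm_num) hx
  rw [show 2 * 2 = 4 by norm_num, bern4] at h
  have e : -(2 * Real.pi) ^ 4 / 48 * (x ^ 4 - 2 * x ^ 3 + x ^ 2 - 1 / 30) =
      (-1) ^ (2 + 1) * (2 * Real.pi) ^ 4 / 2 / ((Nat.factorial 4 : ℕ) : ℝ) * (x ^ 4 - 2 * x ^ 3 + x ^ 2 - 1 / 30) := by
    have : ((Nat.factorial 4 : ℕ) : ℝ) = 24 := by norm_num [Nat.factorial]
    rw [this]
    ring
  rw [e]
  exact h

theorem hs_congr {f g : ℕ → ℝ} {a b : ℝ} (h : HasSum f a) (e : ∀ n, g n = f n) (e' : b = a) : HasSum g b := by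
  rw [funext e, e']
  exact h

theorem sin4_sum {h : ℝ} (h0 : 0 ≤ h) (h1 : h ≤ Real.pi) :
    HasSum (fun n : ℕ => Real.sin (n * h / 2) ^ 4 / (n : ℝ) ^ 4) (Real.pi * h ^ 3 / 24 - h ^ 4 / 32) := by
  have hp := Real.pi_pos
  have a0 := cos4 (x := 0) ⟨le_refl 0, zero_le_one⟩
  have a1 := cos4 (x := h / (2 * Real.pi)) ⟨by positivity, by
    rw [div_le_one (by positivity)]
    linarith⟩
  have a2 := cos4 (x := h / Real.pi) ⟨by positivity, by
    rw [div_le_one (by positivity)]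
    linarith⟩
  have a3 := (((a0.mul_left 3).sub (a1.mul_left 4)).add a2).div_const 8
  refine hs_congr a3 ?_ ?_
  · intro n
    have e1 : 2 * Real.pi * (n : ℝ) * (h / (2 * Real.pi)) = 2 * (n * h / 2) := by
      field_simp
    have e2 : 2 * Real.pi * (n : ℝ) * (h / Real.pi) = 2 * (2 * (n * h / 2)) := by
      field_simp
    rw [e1, e2, mul_zero, Real.cos_zero, Real.cos_two_mul (2 * (n * h / 2)), Real.cos_two_mul (n * h / 2)]
    have e3 : Real.sin (n * h / 2) ^ 4 = (1 - Real.cos (n * h / 2) ^ 2) ^ 2 := by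
      rw [← Real.sin_sq]
      ring
    rw [e3]
    ring
  · field_simp
    ring

/-- positive integers -/
def Tn : Set ℝ := {x | ∃ n : ℕ, x = n + 1}

theorem Tn_bij : Function.Bijective (fun n : ℕ => (⟨(n : ℝ) + 1, n, rfl⟩ : Tn)) := by
  constructor
  · intro a b hab
    have := congrArg (fun x : Tn => (x : ℝ)) hab
    simpa using this
  · rintro ⟨x, n, rfl⟩
    exact ⟨n, rfl⟩

theorem Tn_tsum (g : ℝ → ℝ) : ∑' t : Tn, g t = ∑' n : ℕ, g (n + 1) :=
  ((Equiv.ofBijective _ Tn_bij).tsum_eq (fun t : Tn => g t)).symm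

theorem Tn_ct : Ct Tn (fun _ => 1) := by
  refine ⟨?_, fun _ => zero_le_one, fun y => ?_⟩
  · rintro t ⟨n, rfl⟩
    positivity
  · have : Tn ∩ Iic y ⊆ (fun n : ℕ => (n : ℝ) + 1) '' (Finset.range (⌊y⌋₊ + 1) : Set ℕ) := by
      rintro t ⟨⟨n, rfl⟩, hn⟩
      have hn' : (n : ℝ) + 1 ≤ y := hn
      refine ⟨n, ?_, rfl⟩
      rw [Finset.coe_range, mem_Iio]
      have : n ≤ ⌊y⌋₊ := Nat.le_floor (by linarith)
      omega
    exact ((Finset.finite_toSet _).image _).subset this

theorem Tn_Bt {y : ℝ} (hy : 0 ≤ y) : Bt Tn (fun _ => 1) y = ⌊y⌋₊ := by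
  unfold Bt
  rw [Tn_tsum (fun t => if t ≤ y then 1 else 0), tsum_eq_sum (s := Finset.range ⌊y⌋₊)]
  · rw [Finset.sum_congr rfl (g := fun _ => (1 : ℝ))]
    · simp
    · intro n hn
      refine if_pos ?_
      have h1 : n + 1 ≤ ⌊y⌋₊ := Finset.mem_range.1 hn
      have h2 : ((n + 1 : ℕ) : ℝ) ≤ ⌊y⌋₊ := by exact_mod_cast h1
      push_cast at h2
      exact h2.trans (Nat.floor_le hy)
  · intro n hn
    refine if_neg ?_
    have h1 : ⌊y⌋₊ ≤ n := not_lt.1 fun h => hn (Finset.mem_range.2 h)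
    have h2 : (⌊y⌋₊ : ℝ) ≤ n := by exact_mod_cast h1
    have h3 := Nat.lt_floor_add_one y
    intro h4
    linarith

/-- **the value of the constant** -/
theorem Gc_eq : Gc = 4 * Real.pi / 3 := by
  have hB : ∀ y : ℝ, 0 ≤ y → Bt Tn (fun _ => 1) y ≤ y := fun y hy => by
    rw [Tn_Bt hy]
    exact Nat.floor_le hy
  have key := Tn_ct.lim (ε := fun _ => 0) (ℓ := fun h => h) (C := 1) (κ := 1) (fun _ => le_refl 0) tendsto_const_nhds
    (by
      filter_upwards [self_mem_nhdsWithin] with h hh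
      exact le_of_lt hh) zero_le_one
    (by
      filter_upwards [self_mem_nhdsWithin] with h hh x hx
      have hh' : (0 : ℝ) < h := hh
      have h1 := mul_le_mul_of_nonneg_left (hB (x / h) (by positivity)) hh'.le
      have h2 : h * (x / h) = x := by field_simp
      rw [h2] at h1
      nlinarith)
    (fun h hh => ⟨1 / h, fun x hx => by
      have h1 := hB (x / h) (by positivity)
      have h2 : x / h = 1 / h * x := by ring
      have h3 : 1 / h * x ≤ 1 / h * x * (1 + x) := le_mul_of_one_le_right (by positivity) (by linarith)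
      linarith⟩)
    (fun x hx => by
      rw [one_mul]
      have h1 : Tendsto (fun h : ℝ => x - h) (𝓝[>] 0) (𝓝 x) := by
        have : Tendsto (fun h : ℝ => x - h) (𝓝 0) (𝓝 (x - 0)) := (by fun_prop : Continuous fun h : ℝ => x - h).tendsto 0
        rw [sub_zero] at this
        exact this.mono_left nhdsWithin_le_nhds
      refine tendsto_of_tendsto_of_tendsto_of_le_of_le' h1 tendsto_const_nhds ?_ ?_
      · filter_upwards [self_mem_nhdsWithin] with h hh
        have hh' : (0 : ℝ) < h := hh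
        rw [Tn_Bt (by positivity)]
        have h2 := Nat.lt_floor_add_one (x / h)
        have h3 : h * (x / h) = x := by field_simp
        nlinarith [mul_le_mul_of_nonneg_left h2.le hh'.le]
      · filter_upwards [self_mem_nhdsWithin] with h hh
        have hh' : (0 : ℝ) < h := hh
        have h2 := mul_le_mul_of_nonneg_left (hB (x / h) (by positivity)) hh'.le
        have h3 : h * (x / h) = x := by field_simp
        linarith)
  rw [one_mul] at key
  have h2 : Tendsto (fun h : ℝ => 4 * Real.pi / 3 - h) (𝓝[>] 0) (𝓝 (4 * Real.pi / 3)) := by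
    have : Tendsto (fun h : ℝ => 4 * Real.pi / 3 - h) (𝓝 0) (𝓝 (4 * Real.pi / 3 - 0)) :=
      (by fun_prop : Continuous fun h : ℝ => 4 * Real.pi / 3 - h).tendsto 0
    rw [sub_zero] at this
    exact this.mono_left nhdsWithin_le_nhds
  refine tendsto_nhds_unique key (h2.congr' ?_)
  have hpi : ∀ᶠ h in 𝓝[>] (0 : ℝ), h < Real.pi := eventually_nhdsWithin_of_eventually_nhds (eventually_lt_nhds Real.pi_pos)
  filter_upwards [hpi, self_mem_nhdsWithin] with h h1 hh
  have hh' : (0 : ℝ) < h := hh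
  rw [Tn_tsum (fun t => 1 * gk 0 (t * h))]
  have h3 := (hasSum_nat_add_iff' 1).2 (sin4_sum hh'.le h1.le)
  have h4 := (h3.mul_left (32 / h ^ 4)).tsum_eq
  have e : ∀ n : ℕ, 32 / h ^ 4 * (Real.sin (((n + 1 : ℕ) : ℝ) * h / 2) ^ 4 / ((n + 1 : ℕ) : ℝ) ^ 4) = 1 * gk 0 (((n : ℝ) + 1) * h) := by
    intro n
    unfold gk
    push_cast
    have : (0 : ℝ) < (n : ℝ) + 1 := by positivity
    field_simp
    ring
  rw [tsum_congr e] at h4
  rw [h4]
  simp
  field_simp
  ring

end Run7.h278.LG
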