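import Pool.Agent.Run7.h278.LG.Tau3
import Pool.Agent.Run7.h278.LG.Gc
import Pool.Agent.Run7.h278.LG.DirCor
import Pool.Agent.H370R2.Count

set_option autoImplicit false

/-!
# Second differences for families of Dirichlet characters
-/

namespace Run7.h278.LG

open Filter Topology MeasureTheory Set DirichletCharacter
open scoped ENNReal

section

variable {T : Set ℝ} {b : ℝ → ℝ}

theorem Ct.A (ct : Ct T b) (y z : ℝ) : ∃ A : Finset ℝ, ∀ t, t ∈ A ↔ t ∈ T ∧ y < t ∧ t ≤ z := by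
  have h : {t : ℝ | t ∈ T ∧ y < t ∧ t ≤ z}.Finite := (ct.fin z).subset fun t ht => ⟨ht.1, ht.2.2⟩
  refine ⟨h.toFinset, fun t => ?_⟩
  rw [Set.Finite.mem_toFinset]
  rfl

theorem Ct.Bt_A (ct : Ct T b) {y z : ℝ} (hyz : y ≤ z) {A : Finset ℝ} (hA : ∀ t, t ∈ A ↔ t ∈ T ∧ y < t ∧ t ≤ z) :
    Bt T b z - Bt T b y = ∑ t ∈ A, b t := by
  unfold Bt
  rw [← (ct.sm z).tsum_sub (ct.sm y)]
  have e : ∀ t : T, ((if (t : ℝ) ≤ z then b t else 0) - if (t : ℝ) ≤ y then b t else 0) =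
      (fun t : ℝ => if y < t ∧ t ≤ z then b t else 0) t := by
    intro t
    simp only
    by_cases h1 : (t : ℝ) ≤ y
    · rw [if_pos h1, if_pos (h1.trans hyz), if_neg (fun h => absurd h.1 (not_lt.2 h1)), sub_self]
    · rw [if_neg h1, sub_zero]
      by_cases h2 : (t : ℝ) ≤ z
      · rw [if_pos h2, if_pos ⟨not_le.1 h1, h2⟩]
      · rw [if_neg h2, if_neg fun h => h2 h.2]
  rw [tsum_congr e, tsum_subtype T (fun t : ℝ => if y < t ∧ t ≤ z then b t else 0), tsum_eq_sum (s := A)]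
  · refine Finset.sum_congr rfl fun t ht => ?_
    obtain ⟨h1, h2⟩ := (hA t).1 ht
    rw [indicator_of_mem h1, if_pos h2]
  · intro t ht
    by_cases h1 : t ∈ T
    · rw [indicator_of_mem h1, if_neg fun h2 => ht ((hA t).2 ⟨h1, h2⟩)]
    · rw [indicator_of_notMem h1]

end

section

variable {F : ℂ → ℂ}

theorem phi_inj {A : Finset ℝ} : Set.InjOn (fun t : ℝ => (1 / 2 + t * Complex.I : ℂ)) A := by
  intro a _ b _ hab
  have := congrArg Complex.im hab
  simpa using this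

theorem NN_A (hF : H370.GoodL F) (hG : ∀ s : ℂ, 0 < s.re → s.re < 1 → F s = 0 → s.re = 1 / 2) {y z : ℝ} (hy : 0 ≤ y) {A : Finset ℝ}
    (hA1 : ∀ t ∈ A, y < t ∧ t ≤ z) (hA2 : ∀ t : ℝ, y < t → t ≤ z → F (1 / 2 + t * Complex.I) = 0 → t ∈ A) :
    H370.NN F y z = ∑ t ∈ A, H370.mult F (1 / 2 + t * Complex.I) ∧
      H370.Nd F y z = ∑ t ∈ A, (if H370.mult F (1 / 2 + t * Complex.I) ≠ 0 then 1 else 0) ∧
      H370.Ns F y z = ∑ t ∈ A, (if H370.mult F (1 / 2 + t * Complex.I) = 1 then 1 else 0) := by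
  classical
  have hre : ∀ t : ℝ, (1 / 2 + t * Complex.I : ℂ).re = 1 / 2 := fun t => by simp
  have him : ∀ t : ℝ, (1 / 2 + t * Complex.I : ℂ).im = t := fun t => by simp
  have hz : ∀ s : ℂ, s ∈ H370.zset F y z → s = 1 / 2 + s.im * Complex.I ∧ s.im ∈ A := by
    rintro s ⟨h1, h2, h3, h4, h5⟩
    have h6 : s = 1 / 2 + s.im * Complex.I := by
      refine Complex.ext ?_ ?_
      · rw [hre, hG s h1 h2 h5]
      · rw [him]
    refine ⟨h6, hA2 _ h3 h4 ?_⟩
    rw [← h6]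
    exact h5
  have hz' : ∀ t ∈ A, H370.mult F (1 / 2 + t * Complex.I) ≠ 0 → (1 / 2 + t * Complex.I : ℂ) ∈ H370.zset F y z := by
    intro t ht hm
    obtain ⟨h1, h2⟩ := hA1 t ht
    refine ⟨?_, ?_, ?_, ?_, apply_eq_zero_of_analyticOrderNatAt_ne_zero hm⟩
    · rw [hre]; norm_num
    · rw [hre]; norm_num
    · rw [him]; exact h1
    · rw [him]; exact h2
  have hm : ∀ s ∈ H370.zset F y z, H370.mult F s ≠ 0 := fun s hs =>
    Nat.one_le_iff_ne_zero.1 (H370.Loc.mult_pos' hF (hy.trans_lt hs.2.2.1) hs.2.2.2.2)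
  refine ⟨?_, ?_, ?_⟩
  · unfold H370.NN
    rw [finsum_mem_eq_sum_of_inter_support_eq (t := A.image fun t : ℝ => (1 / 2 + t * Complex.I : ℂ)), Finset.sum_image phi_inj]
    ext s
    simp only [mem_inter_iff, Finset.coe_image, mem_image, Finset.mem_coe, Function.mem_support]
    constructor
    · rintro ⟨h1, h2⟩
      obtain ⟨h3, h4⟩ := hz s h1
      exact ⟨⟨s.im, h4, h3.symm⟩, h2⟩
    · rintro ⟨⟨t, h1, rfl⟩, h2⟩
      exact ⟨hz' t h1 h2, h2⟩
  · unfold H370.Nd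
    have e : H370.zset F y z = ((A.filter fun t : ℝ => H370.mult F (1 / 2 + t * Complex.I) ≠ 0).image
        fun t : ℝ => (1 / 2 + t * Complex.I : ℂ) : Finset ℂ) := by
      ext s
      simp only [Finset.coe_image, mem_image, Finset.mem_coe, Finset.mem_filter]
      constructor
      · intro h1
        obtain ⟨h3, h4⟩ := hz s h1
        refine ⟨s.im, ⟨h4, ?_⟩, h3.symm⟩
        rw [← h3]
        exact hm s h1
      · rintro ⟨t, ⟨h1, h2⟩, rfl⟩
        exact hz' t h1 h2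
    rw [e, Set.ncard_coe_finset, Finset.card_image_of_injOn, Finset.card_filter]
    intro a _ b _ hab
    have := congrArg Complex.im hab
    simpa using this
  · unfold H370.Ns
    have e : {s : ℂ | s ∈ H370.zset F y z ∧ s.re = 1 / 2 ∧ H370.mult F s = 1} =
        ((A.filter fun t : ℝ => H370.mult F (1 / 2 + t * Complex.I) = 1).image
        fun t : ℝ => (1 / 2 + t * Complex.I : ℂ) : Finset ℂ) := by
      ext s
      simp only [Set.mem_ofPred_eq, Finset.coe_image, mem_image, Finset.mem_coe, Finset.mem_filter]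
      constructor
      · rintro ⟨h1, -, h2⟩
        obtain ⟨h3, h4⟩ := hz s h1
        refine ⟨s.im, ⟨h4, ?_⟩, h3.symm⟩
        rw [← h3]
        exact h2
      · rintro ⟨t, ⟨h1, h2⟩, rfl⟩
        exact ⟨hz' t h1 (by rw [h2]; exact one_ne_zero), hre t, h2⟩
    rw [e, Set.ncard_coe_finset, Finset.card_image_of_injOn, Finset.card_filter]
    intro a _ b _ hab
    have := congrArg Complex.im hab
    simpa using this

theorem nat_ineq {a : ℕ} {c : ℝ} (h : (a : ℝ) ≤ c) (hc : ∃ n : ℕ, c = n) :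
    (a : ℝ) - (if a = 1 then 1 else 0) ≤ c ^ 2 - c ∧ (a : ℝ) - (if a ≠ 0 then 1 else 0) ≤ 1 / 2 * (c ^ 2 - c) := by
  obtain ⟨n, rfl⟩ := hc
  have hn : a ≤ n := by exact_mod_cast h
  rcases Nat.lt_or_ge a 2 with h1 | h1
  · have h2 : (0 : ℝ) ≤ (n : ℝ) ^ 2 - n := by
      rcases Nat.eq_zero_or_pos n with h3 | h3
      · rw [h3]
        norm_num
      · have : (1 : ℝ) ≤ n := by exact_mod_cast h3
        nlinarith
    interval_cases a
    · norm_num
      linarith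
    · norm_num
      linarith
  · have h2 : (2 : ℝ) ≤ a := by exact_mod_cast h1
    rw [if_neg (by omega), if_pos (by omega)]
    constructor <;> nlinarith

end

section

variable {q : ℕ} [NeZero q] {J : Type} [Fintype J] {χ : J → DirichletCharacter ℂ q} {d : J → ℕ}

/-- **The mean square of the second difference for families of Dirichlet characters.** -/
theorem dir_sd0 (hd : ∀ j, 1 ≤ d j) (τ : J ≃ J) (hτ : ∀ j, χ (τ j) = (χ j)⁻¹) (hdτ : ∀ j, d (τ j) = d j) :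
    ∃ C : ℝ, Tendsto (fun σ : ℝ => mD χ d / (σ - 1) - RS (lamD χ d) σ) (𝓝[>] 1) (𝓝 (C - mD χ d)) ∧
      ∀ h : ℝ, 0 < h → ∃ L : ℝ≥0∞, Tendsto (VM (aL (lamD χ d) (mD χ d) C) h) (𝓝[>] 0) (𝓝 L) ∧ (L < ⊤ ↔ GRHD χ) ∧
        (GRHD χ → (Summable fun t : TSD χ => oD χ d t / (1 / 4 + (t : ℝ) ^ 2)) ∧
          L = ENNReal.ofReal (∑' t : TSD χ, 32 * Real.sin (t * h / 2) ^ 4 * (oD χ d t / (1 / 4 + (t : ℝ) ^ 2)) ^ 2)) := by
  obtain ⟨l, r, N, c, X, F, hm, hl, hC, hz, hmu⟩ := dir_set (χ := χ) (d := d) τ hτ hdτ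
  have k := F.sd hd hl hC
  have g1 : GRHf X ↔ GRHD χ := by
    unfold GRHf GRHD
    constructor
    · intro h j s a b e
      exact h j s ((hz j s).2 ⟨a, b, e⟩)
    · intro h j s e
      obtain ⟨a, b, e⟩ := (hz j s).1 e
      exact h j s a b e
  have g3 : TS X = TSD χ := by
    ext t
    unfold TS TSD
    simp only [Set.mem_ofPred_eq]
    refine and_congr_right fun _ => exists_congr fun j => ?_
    rw [hz]
    have a : (1 / 2 + t * Complex.I : ℂ).re = 1 / 2 := by simp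
    rw [a]
    norm_num
  have g4 : MO X d = oD χ d := by
    funext t
    unfold MO oD
    refine Finset.sum_congr rfl fun j _ => ?_
    rw [hmu j _ (by simp) (by simp; norm_num)]
  rw [hm, g1, g3, g4] at k
  exact k

theorem oD_nat (t : ℝ) : ∃ n : ℕ, oD χ (fun _ => 1) t = n := by
  refine ⟨∑ j, analyticOrderNatAt (LFunction (χ j)) (1 / 2 + t * Complex.I), ?_⟩
  unfold oD
  push_cast
  refine Finset.sum_congr rfl fun j _ => ?_
  rw [one_mul]

theorem le_oD (j : J) (t : ℝ) : (H370.mult (LFunction (χ j)) (1 / 2 + t * Complex.I) : ℝ) ≤ oD χ (fun _ => 1) t := by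
  unfold oD H370.mult
  have h := Finset.single_le_sum (f := fun j => ((1 : ℕ) : ℝ) * (analyticOrderNatAt (LFunction (χ j)) (1 / 2 + t * Complex.I) : ℝ))
    (fun i _ => by positivity) (Finset.mem_univ j)
  simpa using h

theorem dir_cm (hp : ∀ j, (χ j).IsPrimitive) (hs : Summable fun t : TSD χ => oD χ (fun _ => 1) t / (1 / 4 + (t : ℝ) ^ 2)) :
    Cm (TSD χ) (oD χ (fun _ => 1)) := by
  refine ⟨fun t ht => ht.1, fun t => ?_, hs⟩
  obtain ⟨n, hn⟩ := oD_nat (χ := χ) t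
  refine ⟨n, ?_, hn⟩
  obtain ⟨h0, j, h1⟩ := t.2
  have h2 := H370.Loc.mult_pos' (H370.good_dirichlet (χ j) (hp j)) (s := 1 / 2 + (t : ℝ) * Complex.I) (by simpa using h0) h1
  have h3 := le_oD (χ := χ) j t
  rw [hn] at h3
  have h4 : (1 : ℝ) ≤ n := le_trans (by exact_mod_cast h2) h3
  exact_mod_cast h4

theorem dir_count (hp : ∀ j, (χ j).IsPrimitive) (hG : GRHD χ) (cm : Cm (TSD χ) (oD χ (fun _ => 1))) :
    Tendsto (fun y => Bt (TSD χ) (oD χ (fun _ => 1)) y / (y * Real.log y)) atTop (𝓝 (Fintype.card J / (2 * Real.pi))) := by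
  have hpi := Real.pi_pos
  choose C T0 hC hT0 hN using fun j => H370.nn_asymp (H370.good_dirichlet (χ j) (hp j))
  have hY : ∀ j, T0 j ≤ 10 + ∑ j, T0 j := fun j => by
    have := Finset.single_le_sum (f := T0) (fun i _ => by linarith [hT0 i]) (Finset.mem_univ j)
    linarith
  have hS : 0 ≤ ∑ j, T0 j := Finset.sum_nonneg fun j _ => by linarith [hT0 j]
  refine dyad_lim (C := ∑ j, C j) (Y := 10 + ∑ j, T0 j) (by linarith) (Finset.sum_nonneg fun j _ => (hC j).le) (by positivity)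
    (fun y hy => ?_) (fun y => cm.ct.Bt_nn y) (fun y z hyz => cm.ct.mono hyz)
  have hy10 : 10 ≤ y := by linarith
  obtain ⟨A, hA⟩ := cm.ct.A y (2 * y)
  rw [cm.ct.Bt_A (by linarith) hA]
  have e1 : ∑ t ∈ A, oD χ (fun _ => 1) t = ∑ j, (H370.NN (LFunction (χ j)) y (2 * y) : ℝ) := by
    unfold oD
    rw [Finset.sum_comm]
    refine Finset.sum_congr rfl fun j _ => ?_
    rw [(NN_A (H370.good_dirichlet (χ j) (hp j)) (fun s h1 h2 h3 => hG j s h1 h2 h3) (by linarith) (fun t ht => ((hA t).1 ht).2)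
      (fun t h1 h2 h3 => (hA t).2 ⟨⟨by linarith, j, h3⟩, h1, h2⟩)).1]
    push_cast
    refine Finset.sum_congr rfl fun t _ => ?_
    rw [one_mul]
    rfl
  have e2 : (∑ j, (H370.NN (LFunction (χ j)) y (2 * y) : ℝ)) - (Fintype.card J / (2 * Real.pi)) * (y * Real.log y) =
      ∑ j, ((H370.NN (LFunction (χ j)) y (2 * y) : ℝ) - y * Real.log y / (2 * Real.pi)) := by
    rw [Finset.sum_sub_distrib, Finset.sum_const, Finset.card_univ, nsmul_eq_mul]
    ring
  rw [e1, e2, Finset.sum_mul]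
  refine (Finset.abs_sum_le_sum_abs _ _).trans (Finset.sum_le_sum fun j _ => ?_)
  exact hN j y ((hY j).trans hy) y (2 * y) le_rfl (by linarith) (by linarith) le_rfl

/-- simple zeros from the multiplicities -/
theorem dir_simple (hp : ∀ j, (χ j).IsPrimitive) (hG : GRHD χ) (cm : Cm (TSD χ) (oD χ (fun _ => 1))) {η : ℝ}
    (hD : ∀ ε : ℝ, 0 < ε → ∀ᶠ y in atTop, Bt (TSD χ) (fun t => oD χ (fun _ => 1) t ^ 2 - oD χ (fun _ => 1) t) (2 * y) -
      Bt (TSD χ) (fun t => oD χ (fun _ => 1) t ^ 2 - oD χ (fun _ => 1) t) y ≤ Real.pi ^ 3 / 32 * (η + ε) * (y * Real.log y))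
    (j : J) {ε : ℝ} (hε : 0 < ε) :
    ∀ᶠ y in atTop, (1 - Real.pi ^ 4 / 16 * η - ε) * (H370.NN (LFunction (χ j)) y (2 * y) : ℝ) ≤ H370.Ns (LFunction (χ j)) y (2 * y) ∧
      (1 - Real.pi ^ 4 / 32 * η - ε) * (H370.NN (LFunction (χ j)) y (2 * y) : ℝ) ≤ H370.Nd (LFunction (χ j)) y (2 * y) := by
  have hpi := Real.pi_pos
  have hgood := H370.good_dirichlet (χ j) (hp j)
  obtain ⟨C, T0, hC, hT0, hN⟩ := H370.nn_asymp hgood
  have hlim : Tendsto (fun y : ℝ => (H370.NN (LFunction (χ j)) y (2 * y) : ℝ) / (y * Real.log y)) atTop (𝓝 (1 / (2 * Real.pi))) := by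
    have h1 : Tendsto (fun y : ℝ => C / Real.log y) atTop (𝓝 0) := tendsto_const_nhds.div_atTop Real.tendsto_log_atTop
    have h2 : Tendsto (fun y : ℝ => (H370.NN (LFunction (χ j)) y (2 * y) : ℝ) / (y * Real.log y) - 1 / (2 * Real.pi)) atTop (𝓝 0) := by
      rw [tendsto_zero_iff_norm_tendsto_zero]
      refine squeeze_zero' (Eventually.of_forall fun _ => norm_nonneg _) ?_ h1
      filter_upwards [eventually_ge_atTop T0] with y hy
      have hy0 : 0 < y := by linarith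
      have hly : 0 < Real.log y := Real.log_pos (by linarith)
      have h3 := hN y hy y (2 * y) le_rfl (by linarith) (by linarith) le_rfl
      have h4 : (H370.NN (LFunction (χ j)) y (2 * y) : ℝ) / (y * Real.log y) - 1 / (2 * Real.pi) =
          ((H370.NN (LFunction (χ j)) y (2 * y) : ℝ) - y * Real.log y / (2 * Real.pi)) / (y * Real.log y) := by
        field_simp
      rw [h4, Real.norm_eq_abs, abs_div, abs_of_pos (by positivity : 0 < y * Real.log y), div_le_div_iff₀ (by positivity) hly]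
      nlinarith [mul_le_mul_of_nonneg_right h3 hly.le]
    have h5 := h2.add_const (1 / (2 * Real.pi))
    simpa using h5
  have hlim2 := hlim.const_mul (Real.pi ^ 4 / 16 * η + ε)
  have e0 : (Real.pi ^ 4 / 16 * η + ε) * (1 / (2 * Real.pi)) = Real.pi ^ 3 / 32 * η + ε / (2 * Real.pi) := by
    field_simp
    ring
  rw [e0] at hlim2
  have hgt : Real.pi ^ 3 / 32 * (η + 8 * ε / Real.pi ^ 4) < Real.pi ^ 3 / 32 * η + ε / (2 * Real.pi) := by
    have h1 : Real.pi ^ 3 / 32 * (η + 8 * ε / Real.pi ^ 4) = Real.pi ^ 3 / 32 * η + ε / (4 * Real.pi) := by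
      field_simp
      ring
    rw [h1]
    have h2 : ε / (4 * Real.pi) < ε / (2 * Real.pi) := by
      refine div_lt_div_of_pos_left hε (by positivity) (by linarith)
    linarith
  have hev := hlim2.eventually_const_lt hgt
  filter_upwards [hev, hD (8 * ε / Real.pi ^ 4) (by positivity), eventually_ge_atTop 10] with y h1 h2 hy
  have hy0 : 0 < y := by linarith
  have hly : 0 < Real.log y := Real.log_pos (by linarith)
  obtain ⟨A, hA⟩ := cm.cd.A y (2 * y)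
  rw [cm.cd.Bt_A (by linarith) hA] at h2
  obtain ⟨n1, n2, n3⟩ := NN_A hgood (fun s h1 h2 h3 => hG j s h1 h2 h3) (by linarith) (fun t ht => ((hA t).1 ht).2)
    (fun t h1 h2 h3 => (hA t).2 ⟨⟨by linarith, j, h3⟩, h1, h2⟩)
  have h3 : ∑ t ∈ A, (oD χ (fun _ => 1) t ^ 2 - oD χ (fun _ => 1) t) ≤
      (Real.pi ^ 4 / 16 * η + ε) * (H370.NN (LFunction (χ j)) y (2 * y) : ℝ) := by
    refine h2.trans ?_
    have h4 := mul_le_mul_of_nonneg_right h1.le (by positivity : 0 ≤ y * Real.log y)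
    refine h4.trans (le_of_eq ?_)
    field_simp
  have h5 : (H370.NN (LFunction (χ j)) y (2 * y) : ℝ) - H370.Ns (LFunction (χ j)) y (2 * y) ≤
      ∑ t ∈ A, (oD χ (fun _ => 1) t ^ 2 - oD χ (fun _ => 1) t) := by
    rw [n1, n3]
    push_cast
    rw [← Finset.sum_sub_distrib]
    refine Finset.sum_le_sum fun t _ => ?_
    exact (nat_ineq (le_oD j t) (oD_nat t)).1
  have h6 : (H370.NN (LFunction (χ j)) y (2 * y) : ℝ) - H370.Nd (LFunction (χ j)) y (2 * y) ≤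
      1 / 2 * ∑ t ∈ A, (oD χ (fun _ => 1) t ^ 2 - oD χ (fun _ => 1) t) := by
    rw [n1, n2]
    push_cast
    rw [← Finset.sum_sub_distrib, Finset.mul_sum]
    refine Finset.sum_le_sum fun t _ => ?_
    exact (nat_ineq (le_oD j t) (oD_nat t)).2
  have h7 : (0 : ℝ) ≤ H370.NN (LFunction (χ j)) y (2 * y) := Nat.cast_nonneg _
  constructor
  · linarith
  · have h8 : 0 ≤ ε * (H370.NN (LFunction (χ j)) y (2 * y) : ℝ) := by positivity
    linarith

theorem log_pos_ev : ∀ᶠ h in 𝓝[>] (0 : ℝ), 0 < h ^ 3 * Real.log (1 / h) := by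
  have hinv : Tendsto (fun h : ℝ => 1 / h) (𝓝[>] 0) atTop := by
    simpa using tendsto_inv_nhdsGT_zero (𝕜 := ℝ)
  have hL : Tendsto (fun h : ℝ => Real.log (1 / h)) (𝓝[>] 0) atTop := Real.tendsto_log_atTop.comp hinv
  filter_upwards [hL.eventually_ge_atTop 1, self_mem_nhdsWithin] with h h3 h4
  have h4' : (0 : ℝ) < h := h4
  have : 0 < Real.log (1 / h) := by linarith
  positivity

/-- **The mean square of the second differences and simple zeros.** -/
theorem dir_sd (hp : ∀ j, (χ j).IsPrimitive) (τ : J ≃ J) (hτ : ∀ j, χ (τ j) = (χ j)⁻¹) :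
    ∃ C : ℝ, Tendsto (fun σ : ℝ => mD χ (fun _ => 1) / (σ - 1) - RS (lamD χ (fun _ => 1)) σ) (𝓝[>] 1) (𝓝 (C - mD χ (fun _ => 1))) ∧
      ∃ W : ℝ → ℝ≥0∞, (∀ h : ℝ, 0 < h → Tendsto (VM (aL (lamD χ (fun _ => 1)) (mD χ (fun _ => 1)) C) h) (𝓝[>] 0) (𝓝 (W h)) ∧
          (W h < ⊤ ↔ GRHD χ) ∧
          (GRHD χ → W h = ENNReal.ofReal (∑' t : TSD χ, 32 * Real.sin (t * h / 2) ^ 4 * (oD χ (fun _ => 1) t / (1 / 4 + (t : ℝ) ^ 2)) ^ 2))) ∧
        (∀ ε : ℝ, 0 < ε → ∀ᶠ h in 𝓝[>] (0 : ℝ), ENNReal.ofReal ((2 / 3 * Fintype.card J - ε) * (h ^ 3 * Real.log (1 / h))) ≤ W h) ∧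
        ((∀ ε : ℝ, 0 < ε → ∀ᶠ h in 𝓝[>] (0 : ℝ), W h ≤ ENNReal.ofReal ((2 / 3 * Fintype.card J + ε) * (h ^ 3 * Real.log (1 / h)))) ↔
          GRHD χ ∧ Tendsto (fun y => Bt (TSD χ) (fun t => oD χ (fun _ => 1) t ^ 2 - oD χ (fun _ => 1) t) y / (y * Real.log y)) atTop (𝓝 0)) ∧
        ∀ η : ℝ, 0 ≤ η → (∀ᶠ h in 𝓝[>] (0 : ℝ), W h ≤ ENNReal.ofReal ((2 / 3 * Fintype.card J + η) * (h ^ 3 * Real.log (1 / h)))) →
          GRHD χ ∧ ∀ j, ∀ ε : ℝ, 0 < ε → ∀ᶠ y in atTop,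
            (1 - Real.pi ^ 4 / 16 * η - ε) * (H370.NN (LFunction (χ j)) y (2 * y) : ℝ) ≤ H370.Ns (LFunction (χ j)) y (2 * y) ∧
            (1 - Real.pi ^ 4 / 32 * η - ε) * (H370.NN (LFunction (χ j)) y (2 * y) : ℝ) ≤ H370.Nd (LFunction (χ j)) y (2 * y) := by
  have hpi := Real.pi_pos
  obtain ⟨C, hC, hW⟩ := dir_sd0 (χ := χ) (d := fun _ => 1) (fun _ => le_rfl) τ hτ (fun _ => rfl)
  choose! W hW1 hW2 hW3 using hW
  have hGc : Fintype.card J / (2 * Real.pi) * Gc = 2 / 3 * Fintype.card J := by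
    rw [Gc_eq]
    field_simp
    ring
  have hfin : ∀ M : ℝ, (∀ᶠ h in 𝓝[>] (0 : ℝ), W h ≤ ENNReal.ofReal (M * (h ^ 3 * Real.log (1 / h)))) → GRHD χ := by
    intro M h
    obtain ⟨x, hx⟩ := (h.and self_mem_nhdsWithin).exists
    exact (hW2 x hx.2).1 (hx.1.trans_lt ENNReal.ofReal_lt_top)
  have hks : ∀ h : ℝ, 0 < h → GRHD χ → W h = ENNReal.ofReal (KS (TSD χ) (fun t => oD χ (fun _ => 1) t ^ 2) h) := by
    intro h hh hG
    rw [(hW3 h hh hG).2]
    unfold KS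
    congr 1
    refine tsum_congr fun t => ?_
    rw [div_pow]
  have hcm : GRHD χ → Cm (TSD χ) (oD χ (fun _ => 1)) := fun hG => dir_cm hp (hW3 1 one_pos hG).1
  have hup : ∀ M : ℝ, 0 ≤ M → GRHD χ → ((∀ᶠ h in 𝓝[>] (0 : ℝ), W h ≤ ENNReal.ofReal (M * (h ^ 3 * Real.log (1 / h)))) ↔
      ∀ᶠ h in 𝓝[>] (0 : ℝ), KS (TSD χ) (fun t => oD χ (fun _ => 1) t ^ 2) h ≤ M * (h ^ 3 * Real.log (1 / h))) := by
    intro M hM hG
    refine eventually_congr ?_
    filter_upwards [log_pos_ev, self_mem_nhdsWithin] with h h1 h2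
    rw [hks h h2 hG, ENNReal.ofReal_le_ofReal_iff (mul_nonneg hM h1.le)]
  refine ⟨C, hC, W, fun h hh => ⟨hW1 h hh, hW2 h hh, fun hG => (hW3 h hh hG).2⟩, fun ε hε => ?_, ⟨fun h => ?_, fun h ε hε => ?_⟩, fun η hη h => ?_⟩
  · by_cases hG : GRHD χ
    · have h1 := (hcm hG).lower (dir_count hp hG (hcm hG)) hε
      filter_upwards [h1, self_mem_nhdsWithin] with h h1 h2
      rw [hks h h2 hG]
      rw [hGc] at h1
      exact ENNReal.ofReal_le_ofReal h1
    · filter_upwards [self_mem_nhdsWithin] with h h2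
      have : W h = ⊤ := by
        by_contra hc
        exact hG ((hW2 h h2).1 (lt_top_iff_ne_top.2 hc))
      rw [this]
      exact le_top
  · have hG := hfin _ (h 1 one_pos)
    refine ⟨hG, ((hcm hG).iff (dir_count hp hG (hcm hG))).1 fun ε hε => ?_⟩
    rw [hGc]
    exact (hup _ (by positivity) hG).1 (h ε hε)
  · obtain ⟨hG, h⟩ := h
    refine (hup _ (by positivity) hG).2 ?_
    have h1 := ((hcm hG).iff (dir_count hp hG (hcm hG))).2 h ε hε
    rwa [hGc] at h1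
  · have hG := hfin _ h
    refine ⟨hG, fun j ε hε => ?_⟩
    refine dir_simple hp hG (hcm hG) (fun ε hε => ?_) j hε
    refine (hcm hG).upper (dir_count hp hG (hcm hG)) ?_ hε
    rw [hGc]
    exact (hup _ (by positivity) hG).1 h

end

end Run7.h278.LG
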