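import Pool.Agent.Run7.h278.LG.DirSd

set_option autoImplicit false

/-!
# The mean square of the second differences at scale `h` and the zeros at height `π / (4 h)`
-/

namespace Run7.h278.LG

open Filter Topology MeasureTheory Set DirichletCharacter
open scoped ENNReal

section

variable {T : Set ℝ} {m : ℝ → ℝ}

/-- the contribution of `(y, 2y]` -/
theorem Cm.ker (cm : Cm T m) {y : ℝ} (hy : 1 ≤ y) :
    1 / (2 * y ^ 4) * (1 - 1 / (2 * y ^ 2)) * (Bt T (fun t => m t ^ 2 - m t) (2 * y) - Bt T (fun t => m t ^ 2 - m t) y) ≤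
      KS T (fun t => m t ^ 2 - m t) (Real.pi / (4 * y)) := by
  unfold Bt KS
  have s1 := cm.cd.sm (2 * y)
  have s2 := cm.cd.sm y
  rw [← s1.tsum_sub s2, ← tsum_mul_left]
  refine Summable.tsum_le_tsum (fun t => ?_) ((s1.sub s2).mul_left _) (cm.ks_sum (b := fun t => m t ^ 2 - m t) (fun t => cm.cd.nn t) (fun t => by
    show m t ^ 2 - m t ≤ m t ^ 2
    linarith [cm.one t]) _)
  have hD : 0 ≤ m t ^ 2 - m t := cm.cd.nn t
  have hR : 0 ≤ 32 * Real.sin (t * (Real.pi / (4 * y)) / 2) ^ 4 * ((m t ^ 2 - m t) / (1 / 4 + (t : ℝ) ^ 2) ^ 2) := by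
    rw [show Real.sin (t * (Real.pi / (4 * y)) / 2) ^ 4 = (Real.sin (t * (Real.pi / (4 * y)) / 2) ^ 2) ^ 2 by ring]
    positivity
  by_cases a1 : (t : ℝ) ≤ y
  · rw [if_pos a1, if_pos (by linarith), sub_self, mul_zero]
    exact hR
  · rw [if_neg a1, sub_zero]
    by_cases a2 : (t : ℝ) ≤ 2 * y
    · rw [if_pos a2]
      have h6 := mul_le_mul_of_nonneg_right (ker_lb hy (not_le.1 a1) a2) hD
      refine h6.trans (le_of_eq ?_)
      ring
    · rw [if_neg a2, mul_zero]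
      exact hR

end

theorem h_tend : Tendsto (fun y : ℝ => Real.pi / (4 * y)) atTop (𝓝[>] 0) := by
  have hp := Real.pi_pos
  rw [tendsto_nhdsWithin_iff]
  refine ⟨tendsto_const_nhds.div_atTop (tendsto_id.const_mul_atTop (by norm_num)), ?_⟩
  filter_upwards [eventually_gt_atTop 0] with y hy
  show 0 < Real.pi / (4 * y)
  positivity

theorem y_tend : Tendsto (fun h : ℝ => Real.pi / (4 * h)) (𝓝[>] 0) atTop := by
  have hp := Real.pi_pos
  have hinv : Tendsto (fun h : ℝ => 1 / h) (𝓝[>] 0) atTop := by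
    simpa using tendsto_inv_nhdsGT_zero (𝕜 := ℝ)
  have h1 := hinv.const_mul_atTop (show 0 < Real.pi / 4 by positivity)
  refine h1.congr fun h => ?_
  ring

theorem log_ratio2 : Tendsto (fun y : ℝ => Real.log y / Real.log (1 / (Real.pi / (4 * y))) * (1 - 1 / (2 * y ^ 2))) atTop (𝓝 1) := by
  have h1 := log_ratio.inv₀ one_ne_zero
  rw [inv_one] at h1
  refine h1.congr fun y => ?_
  rw [mul_inv, inv_div, one_div_one_div_inv]
where
  one_div_one_div_inv {a : ℝ} : (1 / a)⁻¹ = a := by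
    rw [one_div, inv_inv]

section

variable {q : ℕ} [NeZero q] {J : Type} [Fintype J] {χ : J → DirichletCharacter ℂ q}

theorem nn_lim {F : ℂ → ℂ} (hF : H370.GoodL F) :
    Tendsto (fun y : ℝ => (H370.NN F y (2 * y) : ℝ) / (y * Real.log y)) atTop (𝓝 (1 / (2 * Real.pi))) := by
  have hpi := Real.pi_pos
  obtain ⟨C, T0, hC, hT0, hN⟩ := H370.nn_asymp hF
  have h1 : Tendsto (fun y : ℝ => C / Real.log y) atTop (𝓝 0) := tendsto_const_nhds.div_atTop Real.tendsto_log_atTop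
  have h2 : Tendsto (fun y : ℝ => (H370.NN F y (2 * y) : ℝ) / (y * Real.log y) - 1 / (2 * Real.pi)) atTop (𝓝 0) := by
    rw [tendsto_zero_iff_norm_tendsto_zero]
    refine squeeze_zero' (Eventually.of_forall fun _ => norm_nonneg _) ?_ h1
    filter_upwards [eventually_ge_atTop T0] with y hy
    have hy0 : 0 < y := by linarith
    have hly : 0 < Real.log y := Real.log_pos (by linarith)
    have h3 := hN y hy y (2 * y) le_rfl (by linarith) (by linarith) le_rfl
    have h4 : (H370.NN F y (2 * y) : ℝ) / (y * Real.log y) - 1 / (2 * Real.pi) =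
        ((H370.NN F y (2 * y) : ℝ) - y * Real.log y / (2 * Real.pi)) / (y * Real.log y) := by
      field_simp
    rw [h4, Real.norm_eq_abs, abs_div, abs_of_pos (by positivity : 0 < y * Real.log y), div_le_div_iff₀ (by positivity) hly]
    nlinarith [mul_le_mul_of_nonneg_right h3 hly.le]
  have h5 := h2.add_const (1 / (2 * Real.pi))
  simpa using h5

/-- superadditivity -/
theorem sq_super (M : J → ℝ) (h : ∀ j, 0 ≤ M j) : ∑ j, (M j ^ 2 - M j) ≤ (∑ j, M j) ^ 2 - ∑ j, M j := by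
  rw [Finset.sum_sub_distrib]
  have h1 : ∑ j, M j ^ 2 ≤ (∑ j, M j) ^ 2 := by
    rw [sq (∑ j, M j), Finset.sum_mul]
    refine Finset.sum_le_sum fun j _ => ?_
    rw [sq]
    exact mul_le_mul_of_nonneg_left (Finset.single_le_sum (fun i _ => h i) (Finset.mem_univ j)) (h j)
  linarith

/-- **The local inequality.** -/
theorem dir_local (hp : ∀ j, (χ j).IsPrimitive) (hG : GRHD χ) (cm : Cm (TSD χ) (oD χ (fun _ => 1))) (N' : J → ℝ → ℝ) (w : ℕ → ℝ) {c : ℝ}
    (hc : 0 < c) (hw0 : ∀ a, 0 ≤ w a) (hwa : ∀ a : ℕ, w a ≤ a) (hw : ∀ a : ℕ, w a ≤ c * ((a : ℝ) ^ 2 - a))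
    (hN' : ∀ j (y : ℝ), 1 ≤ y → ∀ A : Finset ℝ, (∀ t, t ∈ A ↔ t ∈ TSD χ ∧ y < t ∧ t ≤ 2 * y) →
      (H370.NN (LFunction (χ j)) y (2 * y) : ℝ) - N' j y = ∑ t ∈ A, w (H370.mult (LFunction (χ j)) (1 / 2 + t * Complex.I)))
    {ε : ℝ} (hε : 0 < ε) :
    ∀ᶠ h in 𝓝[>] (0 : ℝ), (2 / 3 * Fintype.card J + 16 / (c * Real.pi ^ 4) * ∑ j, (1 - N' j (Real.pi / (4 * h)) /
      H370.NN (LFunction (χ j)) (Real.pi / (4 * h)) (2 * (Real.pi / (4 * h)))) - ε) * (h ^ 3 * Real.log (1 / h)) ≤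
      KS (TSD χ) (fun t => oD χ (fun _ => 1) t ^ 2) h := by
  have hpi := Real.pi_pos
  have hGc : Fintype.card J / (2 * Real.pi) * Gc = 2 / 3 * Fintype.card J := by
    rw [Gc_eq]
    field_simp
    ring
  have hl := dir_count hp hG cm
  -- the main term
  have h1 : ∀ᶠ h in 𝓝[>] (0 : ℝ), (2 / 3 * Fintype.card J - ε / 2) * (h ^ 3 * Real.log (1 / h)) ≤ KS (TSD χ) (oD χ (fun _ => 1)) h := by
    have h2 := (cm.ct.tau hl).eventually_const_lt (show Fintype.card J / (2 * Real.pi) * Gc - ε / 2 < Fintype.card J / (2 * Real.pi) * Gc by linarith)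
    rw [hGc] at h2
    filter_upwards [h2, log_pos_ev] with h h2 h3
    rw [lt_div_iff₀ h3] at h2
    exact h2.le
  -- the zeros in `(y, 2y]`
  have h2 : ∀ᶠ y in atTop, ∀ j, 16 / Real.pi ^ 4 - c * ε / (2 * (Fintype.card J + 1)) ≤
      32 / Real.pi ^ 3 * ((H370.NN (LFunction (χ j)) y (2 * y) : ℝ) / (y * Real.log y)) *
        (Real.log y / Real.log (1 / (Real.pi / (4 * y))) * (1 - 1 / (2 * y ^ 2))) := by
    rw [eventually_all]
    intro j
    have h3 := ((nn_lim (H370.good_dirichlet (χ j) (hp j))).const_mul (32 / Real.pi ^ 3)).mul log_ratio2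
    rw [mul_one] at h3
    have h4 : 32 / Real.pi ^ 3 * (1 / (2 * Real.pi)) = 16 / Real.pi ^ 4 := by
      field_simp
      ring
    rw [h4] at h3
    have h5 : 0 < c * ε / (2 * (Fintype.card J + 1)) := by positivity
    exact (h3.eventually_const_lt (by linarith)).mono fun y hy => hy.le
  have h3 : ∀ᶠ h in 𝓝[>] (0 : ℝ), (16 / (c * Real.pi ^ 4) * ∑ j, (1 - N' j (Real.pi / (4 * h)) /
      H370.NN (LFunction (χ j)) (Real.pi / (4 * h)) (2 * (Real.pi / (4 * h)))) - ε / 2) * (h ^ 3 * Real.log (1 / h)) ≤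
      KS (TSD χ) (fun t => oD χ (fun _ => 1) t ^ 2 - oD χ (fun _ => 1) t) h := by
    have hNpos : ∀ᶠ y in atTop, ∀ j, (0 : ℝ) < H370.NN (LFunction (χ j)) y (2 * y) := by
      rw [eventually_all]
      intro j
      have h4 := (nn_lim (H370.good_dirichlet (χ j) (hp j))).eventually_const_lt (show (0 : ℝ) < 1 / (2 * Real.pi) by positivity)
      filter_upwards [h4, eventually_ge_atTop 3] with y h4 hy
      have hly : 0 < Real.log y := Real.log_pos (by linarith)
      have h5 : 0 < y * Real.log y := by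
        have : 0 < y := by linarith
        positivity
      by_contra hcon
      have h6 : (H370.NN (LFunction (χ j)) y (2 * y) : ℝ) ≤ 0 := not_lt.1 hcon
      have h7 := div_nonpos_of_nonpos_of_nonneg h6 h5.le
      linarith
    filter_upwards [y_tend.eventually h2, y_tend.eventually hNpos, y_tend.eventually (eventually_ge_atTop 3), log_pos_ev, self_mem_nhdsWithin]
      with h h2 h3 hy h4 h5
    have hh0 : (0 : ℝ) < h := h5
    set y := Real.pi / (4 * h) with hydef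
    have hy0 : 0 < y := by linarith
    have hly : 0 < Real.log y := Real.log_pos (by linarith)
    have hhy : Real.pi / (4 * y) = h := by
      rw [hydef]
      field_simp
    obtain ⟨A, hA⟩ := cm.cd.A y (2 * y)
    have h6 := cm.ker (show 1 ≤ y by linarith)
    rw [hhy, cm.cd.Bt_A (by linarith) hA] at h6
    refine le_trans ?_ h6
    have h7 : ∑ j, ((H370.NN (LFunction (χ j)) y (2 * y) : ℝ) - N' j y) ≤ c * ∑ t ∈ A, (oD χ (fun _ => 1) t ^ 2 - oD χ (fun _ => 1) t) := by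
      rw [Finset.sum_congr rfl fun j _ => hN' j y (by linarith) A hA, Finset.sum_comm, Finset.mul_sum]
      refine Finset.sum_le_sum fun t _ => ?_
      refine (Finset.sum_le_sum fun j _ => hw _).trans ?_
      rw [← Finset.mul_sum]
      refine mul_le_mul_of_nonneg_left ?_ hc.le
      refine (sq_super (fun j => (H370.mult (LFunction (χ j)) (1 / 2 + t * Complex.I) : ℝ)) fun j => Nat.cast_nonneg _).trans (le_of_eq ?_)
      have : oD χ (fun _ => 1) t = ∑ j, (H370.mult (LFunction (χ j)) (1 / 2 + t * Complex.I) : ℝ) := by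
        unfold oD
        refine Finset.sum_congr rfl fun j _ => ?_
        rw [Nat.cast_one, one_mul]
        rfl
      rw [this]
    set L := h ^ 3 * Real.log (1 / h) with hL
    -- shares
    have hs0 : ∀ j, 0 ≤ 1 - N' j y / H370.NN (LFunction (χ j)) y (2 * y) ∧ 1 - N' j y / H370.NN (LFunction (χ j)) y (2 * y) ≤ 1 ∧
        (H370.NN (LFunction (χ j)) y (2 * y) : ℝ) - N' j y =
          (1 - N' j y / H370.NN (LFunction (χ j)) y (2 * y)) * H370.NN (LFunction (χ j)) y (2 * y) := by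
      intro j
      have a1 := h3 j
      have a2 := hN' j y (by linarith) A hA
      have a3 : 0 ≤ ∑ t ∈ A, w (H370.mult (LFunction (χ j)) (1 / 2 + t * Complex.I)) := Finset.sum_nonneg fun t _ => hw0 _
      have a4 : ∑ t ∈ A, w (H370.mult (LFunction (χ j)) (1 / 2 + t * Complex.I)) ≤ H370.NN (LFunction (χ j)) y (2 * y) := by
        rw [(NN_A (H370.good_dirichlet (χ j) (hp j)) (fun s h1 h2 h3 => hG j s h1 h2 h3) (by linarith) (fun t ht => ((hA t).1 ht).2)
          (fun t h1 h2 h3 => (hA t).2 ⟨⟨by linarith, j, h3⟩, h1, h2⟩)).1]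
        push_cast
        exact Finset.sum_le_sum fun t _ => hwa _
      refine ⟨?_, ?_, ?_⟩
      · rw [sub_nonneg, div_le_one a1]
        linarith
      · have : 0 ≤ N' j y / H370.NN (LFunction (χ j)) y (2 * y) := div_nonneg (by linarith) a1.le
        linarith
      · field_simp
    have h8 : ∀ j, (16 / Real.pi ^ 4 - c * ε / (2 * (Fintype.card J + 1))) * L ≤
        1 / (2 * y ^ 4) * (1 - 1 / (2 * y ^ 2)) * H370.NN (LFunction (χ j)) y (2 * y) := by
      intro j
      have a1 := mul_le_mul_of_nonneg_right (h2 j) h4.le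
      refine a1.trans (le_of_eq ?_)
      rw [hhy]
      have a2 : h = Real.pi / (4 * y) := hhy.symm
      have a3 : 0 < Real.log (1 / h) := by
        by_contra hcon
        have := mul_nonpos_of_nonneg_of_nonpos (pow_nonneg hh0.le 3) (not_lt.1 hcon)
        linarith
      rw [hL]
      generalize Real.log (1 / h) = LL at a3
      rw [a2]
      generalize (H370.NN (LFunction (χ j)) y (2 * y) : ℝ) = NNN
      field_simp
      ring
    have h9 : (16 / (c * Real.pi ^ 4) * ∑ j, (1 - N' j y / H370.NN (LFunction (χ j)) y (2 * y)) - ε / 2) * L ≤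
        1 / c * ∑ j, (1 - N' j y / H370.NN (LFunction (χ j)) y (2 * y)) * ((16 / Real.pi ^ 4 - c * ε / (2 * (Fintype.card J + 1))) * L) := by
      rw [← Finset.sum_mul]
      set Sg := ∑ j, (1 - N' j y / H370.NN (LFunction (χ j)) y (2 * y)) with hSg
      have a1 : Sg ≤ Fintype.card J := by
        rw [hSg]
        refine (Finset.sum_le_sum fun j _ => (hs0 j).2.1).trans ?_
        rw [Finset.sum_const, Finset.card_univ, nsmul_eq_mul, mul_one]
      have a2 : 1 / c * (Sg * ((16 / Real.pi ^ 4 - c * ε / (2 * (Fintype.card J + 1))) * L)) =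
          (16 / (c * Real.pi ^ 4) * Sg - ε / 2 * (Sg / (Fintype.card J + 1))) * L := by
        field_simp
      rw [a2]
      refine mul_le_mul_of_nonneg_right ?_ h4.le
      have a3 : Sg / (Fintype.card J + 1) ≤ 1 := by
        rw [div_le_one (by positivity)]
        linarith
      nlinarith
    refine h9.trans ?_
    have c0 : 0 < 1 - 1 / (2 * y ^ 2) := by
      rw [sub_pos, div_lt_one (by positivity)]
      nlinarith
    have h10 : ∑ j, (1 - N' j y / H370.NN (LFunction (χ j)) y (2 * y)) * ((16 / Real.pi ^ 4 - c * ε / (2 * (Fintype.card J + 1))) * L) ≤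
        1 / (2 * y ^ 4) * (1 - 1 / (2 * y ^ 2)) * ∑ j, ((H370.NN (LFunction (χ j)) y (2 * y) : ℝ) - N' j y) := by
      rw [Finset.mul_sum]
      refine Finset.sum_le_sum fun j _ => ?_
      rw [(hs0 j).2.2]
      have a1 := mul_le_mul_of_nonneg_left (h8 j) (hs0 j).1
      refine a1.trans (le_of_eq ?_)
      ring
    have h11 := h10.trans (mul_le_mul_of_nonneg_left h7 (by positivity : 0 ≤ 1 / (2 * y ^ 4) * (1 - 1 / (2 * y ^ 2))))
    have h12 := mul_le_mul_of_nonneg_left h11 (by positivity : 0 ≤ 1 / c)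
    refine h12.trans (le_of_eq ?_)
    field_simp
  filter_upwards [h1, h3] with h h1 h3
  rw [cm.split h]
  have := add_le_add h1 h3
  refine le_trans (le_of_eq ?_) this
  ring

theorem w_facts (a : ℕ) : (0 : ℝ) ≤ (a : ℝ) - (if a = 1 then 1 else 0) ∧ (0 : ℝ) ≤ (a : ℝ) - (if a ≠ 0 then 1 else 0) ∧
    (a : ℝ) - (if a = 1 then 1 else 0) ≤ a ∧ (a : ℝ) - (if a ≠ 0 then 1 else 0) ≤ a := by
  rcases Nat.lt_or_ge a 2 with h | h
  · interval_cases a <;> norm_num
  · have h2 : (2 : ℝ) ≤ a := by exact_mod_cast h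
    rw [if_neg (by omega), if_pos (by omega)]
    refine ⟨?_, ?_, ?_, ?_⟩ <;> linarith

/-- **The mean square of the second differences and the zeros of height `π / (4 h)`.** -/
theorem dir_sd2 (hp : ∀ j, (χ j).IsPrimitive) (τ : J ≃ J) (hτ : ∀ j, χ (τ j) = (χ j)⁻¹) :
    ∃ C : ℝ, Tendsto (fun σ : ℝ => mD χ (fun _ => 1) / (σ - 1) - RS (lamD χ (fun _ => 1)) σ) (𝓝[>] 1) (𝓝 (C - mD χ (fun _ => 1))) ∧
      ∃ W : ℝ → ℝ≥0∞, (∀ h : ℝ, 0 < h → Tendsto (VM (aL (lamD χ (fun _ => 1)) (mD χ (fun _ => 1)) C) h) (𝓝[>] 0) (𝓝 (W h)) ∧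
          (W h < ⊤ ↔ GRHD χ) ∧
          (GRHD χ → W h = ENNReal.ofReal (∑' t : TSD χ, 32 * Real.sin (t * h / 2) ^ 4 * (oD χ (fun _ => 1) t / (1 / 4 + (t : ℝ) ^ 2)) ^ 2))) ∧
        (∀ ε : ℝ, 0 < ε → ∀ᶠ h in 𝓝[>] (0 : ℝ), ENNReal.ofReal ((2 / 3 * Fintype.card J - ε) * (h ^ 3 * Real.log (1 / h))) ≤ W h) ∧
        (∀ ε : ℝ, 0 < ε → ∀ᶠ h in 𝓝[>] (0 : ℝ), ENNReal.ofReal ((2 / 3 * Fintype.card J + 16 / Real.pi ^ 4 *
          ∑ j, (1 - (H370.Ns (LFunction (χ j)) (Real.pi / (4 * h)) (2 * (Real.pi / (4 * h))) : ℝ) /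
            H370.NN (LFunction (χ j)) (Real.pi / (4 * h)) (2 * (Real.pi / (4 * h)))) - ε) * (h ^ 3 * Real.log (1 / h))) ≤ W h) ∧
        (∀ ε : ℝ, 0 < ε → ∀ᶠ h in 𝓝[>] (0 : ℝ), ENNReal.ofReal ((2 / 3 * Fintype.card J + 32 / Real.pi ^ 4 *
          ∑ j, (1 - (H370.Nd (LFunction (χ j)) (Real.pi / (4 * h)) (2 * (Real.pi / (4 * h))) : ℝ) /
            H370.NN (LFunction (χ j)) (Real.pi / (4 * h)) (2 * (Real.pi / (4 * h)))) - ε) * (h ^ 3 * Real.log (1 / h))) ≤ W h) ∧
        ((∀ ε : ℝ, 0 < ε → ∀ᶠ h in 𝓝[>] (0 : ℝ), W h ≤ ENNReal.ofReal ((2 / 3 * Fintype.card J + ε) * (h ^ 3 * Real.log (1 / h)))) ↔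
          GRHD χ ∧ Tendsto (fun y => Bt (TSD χ) (fun t => oD χ (fun _ => 1) t ^ 2 - oD χ (fun _ => 1) t) y / (y * Real.log y)) atTop (𝓝 0)) ∧
        ∀ η : ℝ, 0 ≤ η → (∀ᶠ h in 𝓝[>] (0 : ℝ), W h ≤ ENNReal.ofReal ((2 / 3 * Fintype.card J + η) * (h ^ 3 * Real.log (1 / h)))) →
          GRHD χ ∧ ∀ j, ∀ ε : ℝ, 0 < ε → ∀ᶠ y in atTop,
            (1 - Real.pi ^ 4 / 16 * η - ε) * (H370.NN (LFunction (χ j)) y (2 * y) : ℝ) ≤ H370.Ns (LFunction (χ j)) y (2 * y) ∧
            (1 - Real.pi ^ 4 / 32 * η - ε) * (H370.NN (LFunction (χ j)) y (2 * y) : ℝ) ≤ H370.Nd (LFunction (χ j)) y (2 * y) := by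
  obtain ⟨C, hC, W, hW, hlow, hiff, hη⟩ := dir_sd hp τ hτ
  obtain ⟨_, _, h0⟩ := dir_sd0 (χ := χ) (d := fun _ => 1) (fun _ => le_rfl) τ hτ (fun _ => rfl)
  obtain ⟨_, _, _, h0⟩ := h0 1 one_pos
  have hks : ∀ h : ℝ, 0 < h → GRHD χ → W h = ENNReal.ofReal (KS (TSD χ) (fun t => oD χ (fun _ => 1) t ^ 2) h) := by
    intro h hh hG
    rw [(hW h hh).2.2 hG]
    unfold KS
    congr 1
    refine tsum_congr fun t => ?_
    rw [div_pow]
  have htop : ¬GRHD χ → ∀ h : ℝ, 0 < h → W h = ⊤ := by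
    intro hG h hh
    by_contra hc
    exact hG ((hW h hh).2.1.1 (lt_top_iff_ne_top.2 hc))
  refine ⟨C, hC, W, hW, hlow, fun ε hε => ?_, fun ε hε => ?_, hiff, hη⟩
  · by_cases hG : GRHD χ
    · have hcm := dir_cm hp (h0 hG).1
      have h1 := dir_local hp hG hcm (fun j y => (H370.Ns (LFunction (χ j)) y (2 * y) : ℝ)) (fun a => (a : ℝ) - (if a = 1 then 1 else 0))
        (c := 1) one_pos (fun a => (w_facts a).1) (fun a => (w_facts a).2.2.1) (fun a => by
          rw [one_mul]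
          exact (nat_ineq le_rfl ⟨a, rfl⟩).1) (fun j y hy A hA => by
          obtain ⟨n1, -, n3⟩ := NN_A (H370.good_dirichlet (χ j) (hp j)) (fun s h1 h2 h3 => hG j s h1 h2 h3) (show (0 : ℝ) ≤ y by linarith) (fun t ht => ((hA t).1 ht).2)
            (fun t h1 h2 h3 => (hA t).2 ⟨⟨by linarith, j, h3⟩, h1, h2⟩)
          rw [n1, n3]
          push_cast
          rw [← Finset.sum_sub_distrib]) hε
      filter_upwards [h1, self_mem_nhdsWithin] with h h1 h2
      rw [hks h h2 hG]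
      rw [one_mul] at h1
      exact ENNReal.ofReal_le_ofReal h1
    · filter_upwards [self_mem_nhdsWithin] with h h2
      rw [htop hG h h2]
      exact le_top
  · by_cases hG : GRHD χ
    · have hcm := dir_cm hp (h0 hG).1
      have h1 := dir_local hp hG hcm (fun j y => (H370.Nd (LFunction (χ j)) y (2 * y) : ℝ)) (fun a => (a : ℝ) - (if a ≠ 0 then 1 else 0))
        (c := 1 / 2) (by norm_num) (fun a => (w_facts a).2.1) (fun a => (w_facts a).2.2.2) (fun a => (nat_ineq le_rfl ⟨a, rfl⟩).2) (fun j y hy A hA => by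
          obtain ⟨n1, n2, -⟩ := NN_A (H370.good_dirichlet (χ j) (hp j)) (fun s h1 h2 h3 => hG j s h1 h2 h3) (show (0 : ℝ) ≤ y by linarith) (fun t ht => ((hA t).1 ht).2)
            (fun t h1 h2 h3 => (hA t).2 ⟨⟨by linarith, j, h3⟩, h1, h2⟩)
          rw [n1, n2]
          push_cast
          rw [← Finset.sum_sub_distrib]) hε
      filter_upwards [h1, self_mem_nhdsWithin] with h h1 h2
      rw [hks h h2 hG]
      rw [show 16 / (1 / 2 * Real.pi ^ 4) = 32 / Real.pi ^ 4 by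
        have := Real.pi_pos
        field_simp
        norm_num] at h1
      exact ENNReal.ofReal_le_ofReal h1
    · filter_upwards [self_mem_nhdsWithin] with h h2
      rw [htop hG h h2]
      exact le_top

end

end Run7.h278.LG
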