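import Pool.Agent.Run7.h278.LG.Pd

set_option autoImplicit false

/-!
# Extreme values of almost periodic cosine sums and relations of odd length
-/

namespace Run7.h278.LG

open Complex Filter Topology MeasureTheory Set Run7.h278.LM

/-! ### Lower bounds for the Bessel function -/

theorem J_ge {w r : ℝ} (hr : 0 ≤ r) (hr1 : r < 1) : (1 - r ^ 2) * Real.exp (2 * r * w) ≤ J w := by
  have hr2 : r ^ 2 < 1 := by nlinarith
  have h1 : HasSum (fun k : ℕ => w ^ k / (k.factorial : ℝ) * r ^ k) (Real.exp (r * w)) := by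
    have h := NormedSpace.expSeries_div_hasSum_exp (𝔸 := ℝ) (r * w)
    rw [← Real.exp_eq_exp_ℝ] at h
    refine hs_congr h fun k => ?_
    rw [mul_pow]
    ring
  have h2 : HasSum (fun k : ℕ => (r ^ 2) ^ k) (1 - r ^ 2)⁻¹ := hasSum_geometric_of_lt_one (by positivity) hr2
  have h3 : HasSum (fun k : ℕ => (w ^ k / (k.factorial : ℝ)) ^ 2) (J w) := (J_summable w).hasSum
  set E := Real.exp (r * w) with hE
  have hE0 : 0 < E := Real.exp_pos _
  set l := 1 / (E * (1 - r ^ 2)⁻¹)⁻¹ with hl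
  have hR : 0 < (1 - r ^ 2)⁻¹ := inv_pos.2 (by linarith)
  have h4 : 2 * E ≤ (1 / (E * (1 - r ^ 2))) * (J w) + (E * (1 - r ^ 2)) * (1 - r ^ 2)⁻¹ := by
    refine hasSum_le (fun k => ?_) (h1.mul_left 2) ((h3.mul_left (1 / (E * (1 - r ^ 2)))).add (h2.mul_left (E * (1 - r ^ 2))))
    set a := w ^ k / (k.factorial : ℝ)
    set b := r ^ k with hb
    have hb2 : (r ^ 2) ^ k = b ^ 2 := by
      rw [hb, ← pow_mul, ← pow_mul, mul_comm]
    rw [hb2]
    set c := E * (1 - r ^ 2) with hc
    have hc0 : 0 < c := mul_pos hE0 (by linarith)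
    have h5 : 0 ≤ (1 / c) * (a - c * b) ^ 2 := by positivity
    have h6 : (1 / c) * (a - c * b) ^ 2 = 1 / c * a ^ 2 + c * b ^ 2 - 2 * (a * b) := by
      field_simp
      ring
    linarith
  have h5 : (E * (1 - r ^ 2)) * (1 - r ^ 2)⁻¹ = E := by
    have : (1 : ℝ) - r ^ 2 ≠ 0 := by linarith
    field_simp
  rw [h5] at h4
  have h6 : E ≤ (1 / (E * (1 - r ^ 2))) * J w := by linarith
  have h7 : 0 < E * (1 - r ^ 2) := mul_pos hE0 (by linarith)
  rw [one_div, inv_mul_eq_div, le_div_iff₀ h7] at h6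
  have h8 : Real.exp (2 * r * w) = E * E := by
    rw [hE, ← Real.exp_add]
    congr 1
    ring
  rw [h8]
  linarith

section

variable {ι : Type} {w : ι → ℝ} (t : ι → ℝ) (hw : ∀ i, 0 < w i) (hs : Summable w)

include hw hs

theorem growth {B : ℝ} (h : ∀ s : ℝ, 0 < s → ∏' i, J (s * w i) ≤ Real.exp (s * B)) : ∑' i, 2 * w i ≤ B := by
  classical
  have key : ∀ T : Finset ι, ∀ r : ℝ, 0 ≤ r → r < 1 → r * (∑ i ∈ T, 2 * w i) ≤ B := by
    intro T r hr0 hr1
    by_contra hc
    push Not at hc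
    set c := r * (∑ i ∈ T, 2 * w i) with hcd
    have hr2 : 0 < 1 - r ^ 2 := by nlinarith
    set K := ((1 - r ^ 2) ^ T.card)⁻¹ with hK
    have hK0 : 0 < K := by positivity
    have h1 : ∀ s : ℝ, 0 < s → Real.exp (s * (c - B)) ≤ K := by
      intro s hs0
      have hws : ∀ i, 0 < s * w i := fun i => mul_pos hs0 (hw i)
      have h2 := (J_mult hws (hs.mul_left s)).hasProd
      have h3 : ∏ i ∈ T, J (s * w i) ≤ ∏' i, J (s * w i) := by
        refine ge_of_tendsto h2 ?_
        filter_upwards [eventually_ge_atTop T] with T' hT'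
        rw [← Finset.prod_sdiff hT']
        have h5 := prodJ_pos (w := fun i => s * w i) (T' \ T)
        have h6 := prodJ_pos (w := fun i => s * w i) T
        nlinarith
      have h4 : (1 - r ^ 2) ^ T.card * Real.exp (s * c) ≤ ∏ i ∈ T, J (s * w i) := by
        have h5 : (1 - r ^ 2) ^ T.card * Real.exp (s * c) = ∏ i ∈ T, ((1 - r ^ 2) * Real.exp (2 * r * (s * w i))) := by
          rw [Finset.prod_mul_distrib, Finset.prod_const, ← Real.exp_sum, hcd]
          congr 2
          rw [Finset.mul_sum, Finset.mul_sum]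
          refine Finset.sum_congr rfl fun i _ => ?_
          ring
        rw [h5]
        refine Finset.prod_le_prod (fun i _ => by positivity) fun i _ => J_ge hr0 hr1
      have h5 := (h4.trans h3).trans (h s hs0)
      have h6 : Real.exp (s * (c - B)) = Real.exp (s * c) / Real.exp (s * B) := by
        rw [← Real.exp_sub]
        congr 1
        ring
      rw [h6, div_le_iff₀ (Real.exp_pos _), hK, inv_mul_eq_div, le_div_iff₀ (by positivity)]
      linarith
    have h2 : 0 < c - B := by linarith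
    have h3 := h1 (K / (c - B)) (by positivity)
    rw [div_mul_cancel₀ _ h2.ne'] at h3
    have h4 := Real.add_one_le_exp K
    linarith
  refine (hs.mul_left 2).tsum_le_of_sum_le fun T => ?_
  by_contra hc
  push Not at hc
  set T0 := ∑ i ∈ T, 2 * w i with hT0
  have hT0n : 0 ≤ T0 := Finset.sum_nonneg fun i _ => by have := hw i; positivity
  have h0 : 0 ≤ B := by simpa using key ∅ 0 (le_refl _) (by norm_num)
  have hT1 : 0 < T0 := by linarith
  have h1 := key T ((B / T0 + 1) / 2) (by positivity) (by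
    have : B / T0 < 1 := by rwa [div_lt_one hT1]
    linarith)
  rw [← hT0] at h1
  have h2 : (B / T0 + 1) / 2 * T0 = (B + T0) / 2 := by field_simp
  linarith

end

/-! ### Means and upper bounds -/

theorem Am_le {f : ℝ → ℝ} (hf : ContinuousOn f (Ioi 0)) {B : ℝ} (hfb : ∀ u, 0 < u → |f u| ≤ B) {a b : ℝ}
    (h : ∀ u, 0 < u → f u ≤ a + b * Real.exp (-1 * u)) {δ : ℝ} (hδ : 0 < δ) : Am f δ ≤ a + b * (δ / (1 + δ)) := by
  have h1 : IntegrableOn (fun u : ℝ => a * Real.exp (-δ * u) + b * Real.exp (-(1 + δ) * u)) (Ioi 0) :=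
    ((integrableOn_exp_mul_Ioi (a := -δ) (by linarith) 0).const_mul _).add
      ((integrableOn_exp_mul_Ioi (a := -(1 + δ)) (by linarith) 0).const_mul _)
  have h2 : ∫ u : ℝ in Ioi 0, Real.exp (-δ * u) * f u ≤ ∫ u : ℝ in Ioi 0, (a * Real.exp (-δ * u) + b * Real.exp (-(1 + δ) * u)) := by
    refine setIntegral_mono_on (Am_int hf hfb hδ) h1 measurableSet_Ioi fun u hu => ?_
    have h3 := h u hu
    have h4 : Real.exp (-(1 + δ) * u) = Real.exp (-δ * u) * Real.exp (-1 * u) := by
      rw [← Real.exp_add]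
      congr 1
      ring
    rw [h4]
    calc Real.exp (-δ * u) * f u ≤ Real.exp (-δ * u) * (a + b * Real.exp (-1 * u)) := by gcongr
      _ = _ := by ring
  have h3 : ∫ u : ℝ in Ioi 0, (a * Real.exp (-δ * u) + b * Real.exp (-(1 + δ) * u)) = a * (1 / δ) + b * (1 / (1 + δ)) := by
    rw [integral_add ((integrableOn_exp_mul_Ioi (a := -δ) (by linarith) 0).const_mul _)
      ((integrableOn_exp_mul_Ioi (a := -(1 + δ)) (by linarith) 0).const_mul _), integral_const_mul, integral_const_mul,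
      exp_int hδ, exp_int (by linarith)]
  rw [h3] at h2
  calc Am f δ ≤ δ * (a * (1 / δ) + b * (1 / (1 + δ))) := mul_le_mul_of_nonneg_left h2 hδ.le
    _ = a + b * (δ / (1 + δ)) := by field_simp

/-- an eventual upper bound bounds the limit of the means -/
theorem lim_le {f : ℝ → ℝ} (hf : ContinuousOn f (Ioi 0)) {B : ℝ} (hfb : ∀ u, 0 < u → |f u| ≤ B) {a L : ℝ} (ha : 0 ≤ a)
    (h : ∀ᶠ u in atTop, f u ≤ a) (hL : Tendsto (Am f) (𝓝[>] 0) (𝓝 L)) : L ≤ a := by
  obtain ⟨U, hU⟩ := eventually_atTop.1 h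
  have hB : 0 ≤ B := (abs_nonneg _).trans (hfb 1 one_pos)
  have h1 : ∀ u, 0 < u → f u ≤ a + (B * Real.exp U) * Real.exp (-1 * u) := by
    intro u hu
    have h0 : 0 ≤ (B * Real.exp U) * Real.exp (-1 * u) := by positivity
    rcases le_total U u with h2 | h2
    · linarith [hU u h2]
    · have h4 : 1 ≤ Real.exp U * Real.exp (-1 * u) := by
        rw [← Real.exp_add]
        exact Real.one_le_exp (by linarith)
      have h5 : B ≤ B * (Real.exp U * Real.exp (-1 * u)) := le_mul_of_one_le_right hB h4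
      have := (le_abs_self _).trans (hfb u hu)
      linarith
  have h2 : Tendsto (fun δ : ℝ => a + (B * Real.exp U) * (δ / (1 + δ))) (𝓝[>] 0) (𝓝 a) := by
    have h3 : ContinuousAt (fun δ : ℝ => a + (B * Real.exp U) * (δ / (1 + δ))) 0 := by
      have h4 : (1 : ℝ) + 0 ≠ 0 := by norm_num
      fun_prop (disch := exact h4)
    have h5 := h3.tendsto
    simp only [zero_div, mul_zero, add_zero] at h5
    exact h5.mono_left nhdsWithin_le_nhds
  refine le_of_tendsto_of_tendsto hL h2 ?_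
  filter_upwards [self_mem_nhdsWithin] with δ hδ
  exact Am_le hf hfb h1 hδ

section

variable {ι : Type} {w : ι → ℝ} (t : ι → ℝ)

/-- a relation with odd sum of the coefficients -/
def Od (t : ι → ℝ) : Prop := ∃ m : ι →₀ ℤ, (m.sum fun i n => (n : ℝ) * t i) = 0 ∧ Odd (m.sum fun _ n => n)

theorem natAbs_sum_odd (m : ι →₀ ℤ) : Odd (m.sum fun _ n => n) ↔ Odd (m.sum fun _ n => n.natAbs) := by
  have h : Even ((m.sum fun _ n => n) + ((m.sum fun _ n => n.natAbs : ℕ) : ℤ)) := by
    unfold Finsupp.sum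
    rw [Nat.cast_sum, ← Finset.sum_add_distrib]
    refine Finset.even_sum _ fun i _ => ?_
    rw [Int.even_iff]
    show (m i + ((m i).natAbs : ℤ)) % 2 = 0
    omega
  rw [Int.even_iff] at h
  rw [Int.odd_iff, Nat.odd_iff]
  omega

theorem Od_iff : Od t ↔ ∃ n, Rl t (2 * n + 1) := by
  constructor
  · rintro ⟨m, h1, h2⟩
    rw [natAbs_sum_odd] at h2
    obtain ⟨n, hn⟩ := h2
    refine ⟨n, m, ?_, h1, hn.le, ?_⟩
    · rintro rfl
      simp at hn
    · rw [hn, Nat.even_iff]
      omega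
  · rintro ⟨n, m, h1, h2, h3, h4⟩
    refine ⟨m, h2, ?_⟩
    rw [natAbs_sum_odd, Nat.odd_iff]
    rw [Nat.even_iff] at h4
    omega

theorem odd_term {n : ℕ} : (∀ a : Dg (ι ⊕ ι) (2 * n + 1), fr (tt t) a.1 ≠ 0) ↔ ¬Rl t (2 * n + 1) := by
  constructor
  · intro h hR
    obtain ⟨P, Q, h1, h2, h3⟩ := of_rel t hR
    exact h ⟨P.sumElim Q, by rw [deg_sumElim, h1]⟩ h3
  · intro hR a h4
    apply hR
    set P := Finsupp.comapDomain Sum.inl a.1 Sum.inl_injective.injOn with hP
    set Q := Finsupp.comapDomain Sum.inr a.1 Sum.inr_injective.injOn with hQ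
    have e : P.sumElim Q = a.1 := Finsupp.comapDomain_sumElim_comapDomain a.1
    have hdeg : P.degree + Q.degree = 2 * n + 1 := by
      rw [← deg_sumElim, e, a.2]
    refine rel_of t hdeg ?_ (by rw [e]; exact h4)
    intro hPQ
    rw [← hPQ] at hdeg
    omega

theorem Tr_hasSum {Y : Type} {x : Y → ℝ} (hx : ∀ y, 0 < x y) (hs : Summable x) (p : ℕ) :
    HasSum (fun a : Dg Y p => Tr x a.1) ((∑' y, x y) ^ p / (p.factorial : ℝ)) := by
  have h1 := mult_hasSum (x := fun y => (x y : ℂ)) (by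
    refine hs.congr fun y => ?_
    rw [Complex.norm_real, Real.norm_eq_abs, abs_of_pos (hx y)]) p
  have h2 : (∑' y, (x y : ℂ)) ^ p / (p.factorial : ℂ) = (((∑' y, x y) ^ p / (p.factorial : ℝ) : ℝ) : ℂ) := by
    push_cast
    rfl
  rw [h2] at h1
  refine Complex.hasSum_ofReal.1 (hs_congr h1 fun a => ?_)
  rw [Tm_real]

include t in
/-- the mean of the hyperbolic sine -/
theorem sinh_mean (hw : ∀ i, 0 < w i) (hs : Summable w) : ∃ S : ℝ, Tendsto (Am fun u => Real.sinh (FI w t u)) (𝓝[>] 0) (𝓝 S) ∧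
    0 ≤ S ∧ (S = 0 ↔ ¬Od t) := by
  classical
  set κ := Σ n : ℕ, Dg (ι ⊕ ι) (2 * n + 1) with hκ
  set d : κ → ℝ := fun z => Tr (xx w) z.2.1 with hd
  set θ : κ → ℝ := fun z => fr (tt t) z.2.1 with hθ
  have hd0 : ∀ z, 0 < d z := fun z => Tr_pos (xx_pos hw) _
  have hds : Summable d := by
    rw [summable_sigma_of_nonneg fun z => (hd0 z).le]
    refine ⟨fun n => Tr_summable (xx_pos hw) (xx_sum hs) _, ?_⟩
    refine (Real.hasSum_sinh (∑' y, xx w y)).summable.congr fun n => ?_
    exact (Tr_hasSum (xx_pos hw) (xx_sum hs) (2 * n + 1)).tsum_eq.symm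
  have hrep : ∀ u : ℝ, HasSum (fun z => (d z : ℂ) * cexp (I * θ z * u)) ((Real.sinh (FI w t u) : ℝ) : ℂ) := by
    intro u
    have h1 : HasSum (fun n : ℕ => ((FI w t u ^ (2 * n + 1) / ((2 * n + 1).factorial : ℝ) : ℝ) : ℂ)) ((Real.sinh (FI w t u) : ℝ) : ℂ) :=
      Complex.hasSum_ofReal.2 (Real.hasSum_sinh _)
    have h2 : ∀ n : ℕ, HasSum (fun a : Dg (ι ⊕ ι) (2 * n + 1) => (d ⟨n, a⟩ : ℂ) * cexp (I * θ ⟨n, a⟩ * u))
        ((FI w t u ^ (2 * n + 1) / ((2 * n + 1).factorial : ℝ) : ℝ) : ℂ) := by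
      intro n
      have h3 := (FI_pow t hw hs (2 * n + 1) u).mul_left (1 / ((2 * n + 1).factorial : ℂ))
      have hf : ((2 * n + 1).factorial : ℂ) ≠ 0 := Nat.cast_ne_zero.2 (Nat.factorial_ne_zero _)
      have e : 1 / ((2 * n + 1).factorial : ℂ) * ((FI w t u ^ (2 * n + 1) : ℝ) : ℂ) =
          ((FI w t u ^ (2 * n + 1) / ((2 * n + 1).factorial : ℝ) : ℝ) : ℂ) := by
        push_cast
        ring
      rw [e] at h3
      refine hs_congr h3 fun a => ?_
      rw [hd, hθ]
      simp only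
      push_cast
      field_simp
    refine HasSum.sigma_of_hasSum h1 h2 ?_
    rw [← summable_norm_iff]
    refine hds.congr fun z => ?_
    rw [norm_mul, LM.norm_I, Complex.norm_real, Real.norm_eq_abs, abs_of_pos (hd0 z), mul_one]
  have hm := mean_rep hd0 hds hrep
  set g : κ → ℝ := fun z => if θ z = 0 then d z else 0 with hg
  have hg0 : ∀ z, 0 ≤ g z := fun z => by
    rw [hg]
    simp only
    split_ifs
    · exact (hd0 z).le
    · exact le_refl 0
  have hgs : Summable g := Summable.of_nonneg_of_le hg0 (fun z => by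
    rw [hg]
    simp only
    split_ifs
    · exact le_refl _
    · exact (hd0 z).le) hds
  refine ⟨∑' z, g z, hm, tsum_nonneg hg0, ?_⟩
  have h1 : ∑' z, g z = 0 ↔ ∀ z, g z = 0 := by
    constructor
    · intro h
      have h2 := hgs.hasSum
      rw [h] at h2
      exact fun z => congrFun ((hasSum_zero_iff_of_nonneg hg0).1 h2) z
    · intro h
      simp_rw [h]
      exact tsum_zero
  rw [h1, Od_iff]
  push Not
  constructor
  · intro h n
    rw [← odd_term]
    intro a ha
    have h2 := h ⟨n, a⟩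
    rw [hg] at h2
    simp only at h2
    rw [if_pos (show θ ⟨n, a⟩ = 0 from ha)] at h2
    exact absurd h2 (hd0 _).ne'
  · rintro h ⟨n, a⟩
    rw [hg]
    simp only
    rw [if_neg]
    exact (odd_term t).2 (h n) a

/-- an odd relation keeps the sum away from its trivial lower bound -/
theorem od_bound (hw : ∀ i, 0 < w i) (hs : Summable w) (h : Od t) : ∃ ε : ℝ, 0 < ε ∧ ∀ u : ℝ, -(∑' i, 2 * w i) + ε ≤ FI w t u := by
  obtain ⟨m, hm0, hm1⟩ := h
  have hne : m.support.Nonempty := by
    rw [Finset.nonempty_iff_ne_empty]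
    intro h
    rw [Finsupp.support_eq_empty.1 h] at hm1
    simp at hm1
  set K : ℝ := ∑ i ∈ m.support, |(m i : ℝ)| with hK
  have hK0 : 0 < K := by
    refine Finset.sum_pos (fun i hi => ?_) hne
    rw [Finsupp.mem_support_iff] at hi
    exact abs_pos.2 (by exact_mod_cast hi)
  obtain ⟨j, hj, hjm⟩ := m.support.exists_min_image w hne
  refine ⟨4 * w j / K ^ 2, by have := hw j; positivity, fun u => ?_⟩
  by_contra hc
  push Not at hc
  have hterm : ∀ i, 0 ≤ 2 * w i * (1 + Real.cos (t i * u)) := fun i => by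
    have := hw i
    have := Real.neg_one_le_cos (t i * u)
    have : 0 ≤ 1 + Real.cos (t i * u) := by linarith
    positivity
  have hsum : HasSum (fun i => 2 * w i * (1 + Real.cos (t i * u))) ((∑' i, 2 * w i) + FI w t u) := by
    have h1 : Summable fun i => 2 * w i * Real.cos (t i * u) :=
      Summable.of_norm_bounded (hs.mul_left 2) fun i => term_le w t hw i u
    have h2 := (hs.mul_left 2).hasSum.add h1.hasSum
    refine hs_congr h2 fun i => ?_
    ring
  have hle : ∀ i, 2 * w i * (1 + Real.cos (t i * u)) < 4 * w j / K ^ 2 := fun i => by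
    have := le_hasSum hsum i fun k _ => hterm k
    linarith
  -- the phases
  set n : ι → ℤ := fun i => round ((t i * u - Real.pi) / (2 * Real.pi)) with hn
  set η : ι → ℝ := fun i => t i * u - Real.pi - 2 * Real.pi * n i with hη
  have hπ := Real.pi_pos
  have hη1 : ∀ i, |η i| ≤ Real.pi := by
    intro i
    have h1 := abs_sub_round ((t i * u - Real.pi) / (2 * Real.pi))
    have h2 : η i = 2 * Real.pi * ((t i * u - Real.pi) / (2 * Real.pi) - n i) := by
      rw [hη]
      field_simp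
    rw [h2, abs_mul, abs_of_pos (by positivity)]
    calc 2 * Real.pi * |(t i * u - Real.pi) / (2 * Real.pi) - n i| ≤ 2 * Real.pi * (1 / 2) := by gcongr
      _ = Real.pi := by ring
  have hcos : ∀ i, Real.cos (t i * u) = -Real.cos (η i) := by
    intro i
    have h1 : t i * u = η i + Real.pi + n i * (2 * Real.pi) := by
      rw [hη]
      ring
    rw [h1, Real.cos_add_int_mul_two_pi, Real.cos_add_pi]
  have hη2 : ∀ i ∈ m.support, |η i| < Real.pi / K := by
    intro i hi
    have h1 := Real.cos_le_one_sub_mul_cos_sq (hη1 i)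
    have h2 := hle i
    rw [hcos i] at h2
    have h3 := hjm i hi
    have h4 : 2 * w i * (2 / Real.pi ^ 2 * η i ^ 2) < 4 * w i / K ^ 2 := by
      calc 2 * w i * (2 / Real.pi ^ 2 * η i ^ 2) ≤ 2 * w i * (1 + -Real.cos (η i)) := by
            have := hw i
            gcongr
            linarith
        _ < 4 * w j / K ^ 2 := h2
        _ ≤ 4 * w i / K ^ 2 := by gcongr
    have h5 : η i ^ 2 < (Real.pi / K) ^ 2 := by
      have h6 := hw i
      rw [div_pow, lt_div_iff₀ (by positivity)]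
      rw [lt_div_iff₀ (by positivity)] at h4
      have h7 : 2 * w i * (2 / Real.pi ^ 2 * η i ^ 2) * K ^ 2 = (4 * w i) * (η i ^ 2 * K ^ 2 / Real.pi ^ 2) := by ring
      rw [h7] at h4
      have h8 : η i ^ 2 * K ^ 2 / Real.pi ^ 2 < 1 := by
        by_contra hcc
        push Not at hcc
        have : 4 * w i * 1 ≤ 4 * w i * (η i ^ 2 * K ^ 2 / Real.pi ^ 2) := by gcongr
        linarith
      rwa [div_lt_one (by positivity)] at h8
    exact abs_lt_of_sq_lt_sq h5 (by positivity)
  -- the relation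
  have hmu : ∑ i ∈ m.support, (m i : ℝ) * t i = 0 := hm0
  obtain ⟨k, hk⟩ := hm1
  have hk' : ∑ i ∈ m.support, m i = 2 * k + 1 := hk
  have h1 : ∑ i ∈ m.support, (m i : ℝ) * η i = -Real.pi * ((2 * (k + ∑ i ∈ m.support, m i * n i) + 1 : ℤ) : ℝ) := by
    have h2 : ∀ i, (m i : ℝ) * η i = u * (m i * t i) - Real.pi * m i - 2 * Real.pi * (m i * n i : ℤ) := fun i => by
      rw [hη]
      push_cast
      ring
    simp_rw [h2]
    rw [Finset.sum_sub_distrib, Finset.sum_sub_distrib, ← Finset.mul_sum, ← Finset.mul_sum, ← Finset.mul_sum, hmu,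
      ← Int.cast_sum, ← Int.cast_sum, hk']
    push_cast
    ring
  have h2 : |∑ i ∈ m.support, (m i : ℝ) * η i| < Real.pi := by
    calc |∑ i ∈ m.support, (m i : ℝ) * η i| ≤ ∑ i ∈ m.support, |(m i : ℝ) * η i| := Finset.abs_sum_le_sum_abs _ _
      _ < ∑ i ∈ m.support, |(m i : ℝ)| * (Real.pi / K) := by
        refine Finset.sum_lt_sum_of_nonempty hne fun i hi => ?_
        rw [abs_mul]
        have h3 : 0 < |(m i : ℝ)| := abs_pos.2 (by exact_mod_cast Finsupp.mem_support_iff.1 hi)
        exact mul_lt_mul_of_pos_left (hη2 i hi) h3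
      _ = K * (Real.pi / K) := by rw [← Finset.sum_mul]
      _ = Real.pi := by field_simp
  rw [h1, abs_mul, abs_neg, abs_of_pos hπ] at h2
  have h3 : (1 : ℝ) ≤ |((2 * (k + ∑ i ∈ m.support, m i * n i) + 1 : ℤ) : ℝ)| := by
    rw [← Int.cast_abs]
    have : (1 : ℤ) ≤ |2 * (k + ∑ i ∈ m.support, m i * n i) + 1| := Int.one_le_abs (by omega)
    exact_mod_cast this
  nlinarith

/-- scaling -/
theorem FI_smul (s : ℝ) : FI (fun i => s * w i) t = fun u => s * FI w t u := by
  funext u
  unfold FI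
  rw [← tsum_mul_left]
  refine tsum_congr fun i => ?_
  ring

theorem cosh_le_exp_abs (x : ℝ) : Real.cosh x ≤ Real.exp |x| := by
  rw [← Real.cosh_abs, ← Real.cosh_add_sinh]
  have := Real.sinh_nonneg_iff.2 (abs_nonneg x)
  linarith

/-- **Extreme values.** -/
theorem extremes (hw : ∀ i, 0 < w i) (hs : Summable w) (ht : ∀ i, t i ≠ 0) :
    (∀ B : ℝ, B < ∑' i, 2 * w i → ∃ᶠ u in atTop, B < FI w t u) ∧
    ((∀ B : ℝ, B < ∑' i, 2 * w i → ∃ᶠ u in atTop, FI w t u < -B) ↔ ¬Od t) := by
  set S := ∑' i, 2 * w i with hS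
  have hF : ∀ u, |FI w t u| ≤ S := FI_le t hw hs
  have hSn : 0 ≤ S := (abs_nonneg _).trans (hF 0)
  have hc := FI_cont t hw hs
  have hws : ∀ s : ℝ, 0 < s → ∀ i, 0 < s * w i := fun s hs0 i => mul_pos hs0 (hw i)
  have hcb : ∀ s : ℝ, 0 < s → ∀ u, |Real.cosh (s * FI w t u)| ≤ Real.exp (s * S) := by
    intro s hs0 u
    rw [abs_of_pos (Real.cosh_pos _)]
    refine (cosh_le_exp_abs _).trans ?_
    rw [Real.exp_le_exp, abs_mul, abs_of_pos hs0]
    have := hF u
    gcongr
  have hsb : ∀ s : ℝ, 0 < s → ∀ u, |Real.sinh (s * FI w t u)| ≤ Real.exp (s * S) := by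
    intro s hs0 u
    rw [Real.abs_sinh]
    refine ((Real.sinh_lt_cosh _).le.trans (cosh_le_exp_abs _)).trans ?_
    rw [Real.exp_le_exp, abs_abs, abs_mul, abs_of_pos hs0]
    have := hF u
    gcongr
  have heb : ∀ s : ℝ, 0 < s → ∀ ε : ℝ, (ε = 1 ∨ ε = -1) → ∀ u, |Real.exp (ε * (s * FI w t u))| ≤ Real.exp (s * S) := by
    intro s hs0 ε hε u
    rw [abs_of_pos (Real.exp_pos _), Real.exp_le_exp]
    have h1 : |ε * (s * FI w t u)| = s * |FI w t u| := by
      rcases hε with rfl | rfl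
      · rw [one_mul, abs_mul, abs_of_pos hs0]
      · rw [neg_one_mul, abs_neg, abs_mul, abs_of_pos hs0]
    have h2 := (le_abs_self (ε * (s * FI w t u)))
    rw [h1] at h2
    have := hF u
    have h3 : s * |FI w t u| ≤ s * S := by gcongr
    linarith
  have hmean : ∀ s : ℝ, 0 < s → ∃ L Q : ℝ, ∏' i, J (s * w i) ≤ L ∧ 0 ≤ Q ∧ (Q = 0 ↔ ¬Od t) ∧
      Tendsto (Am fun u => Real.exp (1 * (s * FI w t u))) (𝓝[>] 0) (𝓝 (L + Q)) ∧
      Tendsto (Am fun u => Real.exp (-1 * (s * FI w t u))) (𝓝[>] 0) (𝓝 (L - Q)) := by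
    intro s hs0
    obtain ⟨L, h1, h2, -⟩ := main_mean (w := fun i => s * w i) t (hws s hs0) (hs.mul_left s) ht
    obtain ⟨Q, h3, h4, h5⟩ := sinh_mean (w := fun i => s * w i) t (hws s hs0) (hs.mul_left s)
    rw [FI_smul] at h1 h3
    have hci : ∀ δ : ℝ, 0 < δ → IntegrableOn (fun u : ℝ => Real.exp (-δ * u) * Real.cosh (s * FI w t u)) (Ioi 0) := fun δ hδ =>
      Am_int (f := fun u => Real.cosh (s * FI w t u)) (by fun_prop) (fun u _ => hcb s hs0 u) hδ
    have hsi : ∀ δ : ℝ, 0 < δ → IntegrableOn (fun u : ℝ => Real.exp (-δ * u) * Real.sinh (s * FI w t u)) (Ioi 0) := fun δ hδ =>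
      Am_int (f := fun u => Real.sinh (s * FI w t u)) (by fun_prop) (fun u _ => hsb s hs0 u) hδ
    refine ⟨L, Q, h2, h4, h5, ?_, ?_⟩
    · refine (h1.add h3).congr' ?_
      filter_upwards [self_mem_nhdsWithin] with δ hδ
      unfold Am
      rw [← mul_add, ← integral_add (hci δ hδ) (hsi δ hδ)]
      congr 1
      refine integral_congr_ae (Eventually.of_forall fun u => ?_)
      simp only
      rw [one_mul, ← mul_add, Real.cosh_add_sinh]
    · refine (h1.sub h3).congr' ?_
      filter_upwards [self_mem_nhdsWithin] with δ hδ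
      unfold Am
      rw [← mul_sub, ← integral_sub (hci δ hδ) (hsi δ hδ)]
      congr 1
      refine integral_congr_ae (Eventually.of_forall fun u => ?_)
      simp only
      rw [neg_one_mul, ← mul_sub, Real.cosh_sub_sinh]
  refine ⟨fun B hB => ?_, ?_⟩
  · by_contra hcon
    rw [not_frequently] at hcon
    have h1 : S ≤ B := by
      rw [hS]
      refine growth hw hs fun s hs0 => ?_
      obtain ⟨L, Q, h1, h2, -, h3, -⟩ := hmean s hs0
      have h4 := lim_le (f := fun u => Real.exp (1 * (s * FI w t u))) (by fun_prop) (fun u _ => heb s hs0 1 (Or.inl rfl) u)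
        (Real.exp_pos (s * B)).le (by
          filter_upwards [hcon] with u hu
          rw [Real.exp_le_exp, one_mul]
          push Not at hu
          gcongr) h3
      linarith
    linarith
  · constructor
    · intro h hOd
      obtain ⟨ε, h1, h2⟩ := od_bound t hw hs hOd
      rw [← hS] at h2
      obtain ⟨u, hu⟩ := (h (S - ε) (by linarith)).exists
      linarith [h2 u]
    · intro hOd B hB
      by_contra hcon
      rw [not_frequently] at hcon
      have h1 : S ≤ B := by
        rw [hS]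
        refine growth hw hs fun s hs0 => ?_
        obtain ⟨L, Q, h1, h2, h5, -, h3⟩ := hmean s hs0
        rw [h5.2 hOd, sub_zero] at h3
        have h4 := lim_le (f := fun u => Real.exp (-1 * (s * FI w t u))) (by fun_prop) (fun u _ => heb s hs0 (-1) (Or.inr rfl) u)
          (Real.exp_pos (s * B)).le (by
            filter_upwards [hcon] with u hu
            rw [Real.exp_le_exp, neg_one_mul, ← mul_neg]
            push Not at hu
            have : -FI w t u ≤ B := by linarith
            gcongr) h3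
        linarith
      linarith

end

end Run7.h278.LG
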