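import Pool.Agent.Run7.h278.LG.RateLI

set_option autoImplicit false

/-!
# The exact exponent of the rate of convergence of the moments
-/

namespace Run7.h278.LG

open Complex Filter Topology MeasureTheory Set Run7.h278.LM
open scoped ENNReal

section

variable {Y : Type} {x τ : Y → ℝ} {G : ℝ → ℝ}

/-- the term of a near relation -/
noncomputable def nT (x τ : Y → ℝ) (K : ℕ) (v : ℝ) (f : Fin K → Y) : ℝ :=
  open Classical in if ∑ i, τ (f i) ≠ 0 ∧ |∑ i, τ (f i)| ≤ v then ∏ i, x (f i) else 0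

theorem nT_nn (h0 : ∀ y, 0 < x y) {K : ℕ} (v : ℝ) (f : Fin K → Y) : 0 ≤ nT x τ K v f := by
  unfold nT
  split_ifs
  · exact Finset.prod_nonneg fun i _ => (h0 _).le
  · exact le_refl 0

theorem nT_le (h0 : ∀ y, 0 < x y) {K : ℕ} (v : ℝ) (f : Fin K → Y) : nT x τ K v f ≤ ∏ i, x (f i) := by
  unfold nT
  split_ifs
  · exact le_refl _
  · exact Finset.prod_nonneg fun i _ => (h0 _).le

theorem nT_sum (h0 : ∀ y, 0 < x y) (hs : Summable x) (K : ℕ) (v : ℝ) : Summable (nT x τ K v) :=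
  Summable.of_nonneg_of_le (nT_nn h0 v) (nT_le h0 v) (pi_hasSum (fun y => (h0 y).le) hs K).summable

/-- the weighted number of near relations -/
noncomputable def nr (x τ : Y → ℝ) (K : ℕ) (v : ℝ) : ℝ := ∑' f : Fin K → Y, nT x τ K v f

theorem nr_le (h0 : ∀ y, 0 < x y) (hs : Summable x) (K : ℕ) (v : ℝ) : nr x τ K v ≤ (∑' y, x y) ^ K := by
  rw [← (pi_hasSum (fun y => (h0 y).le) hs K).tsum_eq]
  exact Summable.tsum_le_tsum (nT_le h0 v) (nT_sum h0 hs K v) (pi_hasSum (fun y => (h0 y).le) hs K).summable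

theorem nr_lower (h0 : ∀ y, 0 < x y) (hs : Summable x)
    (hrep : ∀ u : ℝ, HasSum (fun y => (x y : ℂ) * cexp (I * τ y * u)) (G u : ℂ)) (K : ℕ) {δ : ℝ} (hδ : 0 < δ) :
    nr x τ K δ ≤ 2 * (Am (fun u => G u ^ K) δ - LK x τ K) := by
  classical
  refine hasSum_le (fun f => ?_) (nT_sum h0 hs K δ).hasSum ((rate_sum h0 hs hrep K hδ).mul_left 2)
  have hp : 0 < ∏ i, x (f i) := Finset.prod_pos fun i _ => h0 _
  have hn := term_nn (x := x) (τ := τ) h0 δ f
  unfold nT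
  by_cases h : ∑ i, τ (f i) ≠ 0 ∧ |∑ i, τ (f i)| ≤ δ
  · rw [if_pos h, if_neg h.1]
    have h1 : (∑ i, τ (f i)) ^ 2 ≤ δ ^ 2 := by
      rw [← sq_abs (∑ i, τ (f i))]
      exact pow_le_pow_left₀ (abs_nonneg _) h.2 2
    have h2 : 1 / 2 ≤ δ ^ 2 / (δ ^ 2 + (∑ i, τ (f i)) ^ 2) := by
      rw [div_le_div_iff₀ (by norm_num) (by positivity)]
      linarith
    nlinarith
  · rw [if_neg h]
    positivity

theorem nr_upper (h0 : ∀ y, 0 < x y) (hs : Summable x)
    (hrep : ∀ u : ℝ, HasSum (fun y => (x y : ℂ) * cexp (I * τ y * u)) (G u : ℂ)) (K : ℕ) {c C : ℝ} (hc : 0 < c) (hc1 : c ≤ 1)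
    (hC : 0 ≤ C) (h : ∀ v : ℝ, 0 < v → nr x τ K v ≤ C * v ^ c) {δ : ℝ} (hδ : 0 < δ) :
    Am (fun u => G u ^ K) δ - LK x τ K ≤ 4 * C * δ ^ c := by
  classical
  have hx := (pi_hasSum (fun y => (h0 y).le) hs K).summable
  have hg : Summable fun j : ℕ => ((1 : ℝ) / 4) ^ j := summable_geometric_of_lt_one (by norm_num) (by norm_num)
  have hb0 : Summable fun p : ℕ × (Fin K → Y) => ((1 : ℝ) / 4) ^ p.1 * ∏ i, x (p.2 i) :=
    Summable.mul_of_nonneg (f := fun j : ℕ => ((1 : ℝ) / 4) ^ j) (g := fun f : Fin K → Y => ∏ i, x (f i)) hg hx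
      (fun j => by positivity) (fun f => Finset.prod_nonneg fun i _ => (h0 _).le)
  have hb : Summable fun p : ℕ × (Fin K → Y) => ((1 : ℝ) / 4) ^ p.1 * nT x τ K (2 ^ (p.1 + 1) * δ) p.2 :=
    Summable.of_nonneg_of_le (fun p => mul_nonneg (by positivity) (nT_nn h0 _ _))
      (fun p => mul_le_mul_of_nonneg_left (nT_le h0 _ _) (by positivity)) hb0
  have hbs : Summable fun p : (Fin K → Y) × ℕ => ((1 : ℝ) / 4) ^ p.2 * nT x τ K (2 ^ (p.2 + 1) * δ) p.1 :=
    (Equiv.prodComm _ _).summable_iff.1 hb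
  have h1 := rate_sum h0 hs hrep K hδ
  have key : ∀ f : Fin K → Y, (if ∑ i, τ (f i) = 0 then 0 else (∏ i, x (f i)) * (δ ^ 2 / (δ ^ 2 + (∑ i, τ (f i)) ^ 2))) ≤
      ∑' j : ℕ, ((1 : ℝ) / 4) ^ j * nT x τ K (2 ^ (j + 1) * δ) f := by
    intro f
    have hsf : Summable fun j : ℕ => ((1 : ℝ) / 4) ^ j * nT x τ K (2 ^ (j + 1) * δ) f := hbs.prod_factor f
    have hp : 0 < ∏ i, x (f i) := Finset.prod_pos fun i _ => h0 _
    have hnn : ∀ j : ℕ, 0 ≤ ((1 : ℝ) / 4) ^ j * nT x τ K (2 ^ (j + 1) * δ) f := fun j => mul_nonneg (by positivity) (nT_nn h0 _ _)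
    by_cases hz : ∑ i, τ (f i) = 0
    · rw [if_pos hz]
      exact tsum_nonneg hnn
    · rw [if_neg hz]
      set s := ∑ i, τ (f i) with hs'
      have hs0 : 0 < |s| := abs_pos.2 hz
      have hex : ∃ j : ℕ, |s| ≤ 2 ^ (j + 1) * δ := by
        obtain ⟨j, hj⟩ := pow_unbounded_of_one_lt (|s| / δ) (one_lt_two)
        refine ⟨j, ?_⟩
        rw [div_lt_iff₀ hδ] at hj
        have : (2 : ℝ) ^ (j + 1) = 2 * 2 ^ j := by ring
        rw [this]
        have h2 : 0 < (2 : ℝ) ^ j * δ := by positivity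
        linarith
      set j := Nat.find hex with hj
      have hj1 : |s| ≤ 2 ^ (j + 1) * δ := Nat.find_spec hex
      refine le_trans ?_ (hsf.le_tsum j fun i _ => hnn i)
      have e : nT x τ K (2 ^ (j + 1) * δ) f = ∏ i, x (f i) := by
        unfold nT
        exact if_pos ⟨hz, hj1⟩
      rw [e, mul_comm]
      refine mul_le_mul_of_nonneg_right ?_ hp.le
      rcases Nat.eq_zero_or_pos j with h2 | h2
      · rw [h2, pow_zero, div_le_one (by positivity)]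
        nlinarith [sq_nonneg s]
      · have h3 : ¬ |s| ≤ 2 ^ (j - 1 + 1) * δ := Nat.find_min hex (by omega)
        rw [Nat.sub_add_cancel h2, not_le] at h3
        have h4 : (2 ^ j * δ) ^ 2 ≤ s ^ 2 := by
          rw [← sq_abs s]
          exact pow_le_pow_left₀ (by positivity) h3.le 2
        have h5 : ((2 : ℝ) ^ j * δ) ^ 2 = 4 ^ j * δ ^ 2 := by
          rw [mul_pow, ← pow_mul, mul_comm j 2, pow_mul]
          norm_num
        rw [h5] at h4
        rw [one_div, inv_pow, ← one_div, div_le_div_iff₀ (by positivity) (by positivity)]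
        nlinarith [sq_nonneg δ]
  have h2 : Am (fun u => G u ^ K) δ - LK x τ K ≤ ∑' f : Fin K → Y, ∑' j : ℕ, ((1 : ℝ) / 4) ^ j * nT x τ K (2 ^ (j + 1) * δ) f :=
    hasSum_le key h1 hbs.prod.hasSum
  rw [Summable.tsum_comm (f := fun (j : ℕ) (f : Fin K → Y) => ((1 : ℝ) / 4) ^ j * nT x τ K (2 ^ (j + 1) * δ) f) hb] at h2
  refine h2.trans ?_
  have h3 : ∀ j : ℕ, ∑' f : Fin K → Y, ((1 : ℝ) / 4) ^ j * nT x τ K (2 ^ (j + 1) * δ) f ≤ 2 * C * δ ^ c * (1 / 2) ^ j := by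
    intro j
    rw [tsum_mul_left]
    have h4 := h (2 ^ (j + 1) * δ) (by positivity)
    rw [Real.mul_rpow (by positivity) hδ.le] at h4
    have h5 : ((2 : ℝ) ^ (j + 1)) ^ c ≤ 2 ^ (j + 1) := by
      have h6 : (1 : ℝ) ≤ 2 ^ (j + 1) := one_le_pow₀ one_le_two
      have := Real.rpow_le_rpow_of_exponent_le h6 hc1
      rwa [Real.rpow_one] at this
    have h7 : 0 ≤ δ ^ c := by positivity
    have h8 : nr x τ K (2 ^ (j + 1) * δ) ≤ C * (2 ^ (j + 1) * δ ^ c) :=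
      h4.trans (mul_le_mul_of_nonneg_left (mul_le_mul_of_nonneg_right h5 h7) hC)
    calc ((1 : ℝ) / 4) ^ j * nr x τ K (2 ^ (j + 1) * δ) ≤ (1 / 4) ^ j * (C * (2 ^ (j + 1) * δ ^ c)) :=
          mul_le_mul_of_nonneg_left h8 (by positivity)
      _ = _ := by
        have h9 : ((1 : ℝ) / 2) ^ j = (1 / 4) ^ j * 2 ^ j := by
          rw [← mul_pow]
          norm_num
        rw [h9]
        ring
  have hg2 : HasSum (fun j : ℕ => 2 * C * δ ^ c * ((1 : ℝ) / 2) ^ j) (2 * C * δ ^ c * 2) := hasSum_geometric_two.mul_left _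
  have h4 := Summable.tsum_le_tsum h3 hb.prod hg2.summable
  rw [hg2.tsum_eq] at h4
  refine h4.trans (le_of_eq ?_)
  ring

/-- **The exact exponent.** -/
theorem exact_iff (h0 : ∀ y, 0 < x y) (hs : Summable x)
    (hrep : ∀ u : ℝ, HasSum (fun y => (x y : ℂ) * cexp (I * τ y * u)) (G u : ℂ)) (K : ℕ) {c : ℝ} (hc : 0 < c) (hc1 : c ≤ 1) :
    (∃ C : ℝ, ∀ δ : ℝ, 0 < δ → δ < 1 → Am (fun u => G u ^ K) δ - LK x τ K ≤ C * δ ^ c) ↔
      ∃ C : ℝ, ∀ v : ℝ, 0 < v → v < 1 → nr x τ K v ≤ C * v ^ c := by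
  constructor
  · rintro ⟨C, h⟩
    refine ⟨2 * C, fun v hv hv1 => ?_⟩
    have h1 := nr_lower h0 hs hrep K hv
    have h2 := h v hv hv1
    linarith
  · rintro ⟨C, h⟩
    have hS : 0 ≤ (∑' y, x y) ^ K := pow_nonneg (tsum_nonneg fun y => (h0 y).le) K
    refine ⟨4 * (|C| + (∑' y, x y) ^ K), fun δ hδ hδ1 => nr_upper h0 hs hrep K hc hc1 (by positivity) (fun v hv => ?_) hδ⟩
    have hvc : 0 < v ^ c := by positivity
    rcases lt_or_ge v 1 with h1 | h1
    · have h2 := h v hv h1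
      have h3 : C * v ^ c ≤ |C| * v ^ c := mul_le_mul_of_nonneg_right (le_abs_self C) hvc.le
      have h4 := mul_nonneg hS hvc.le
      linarith
    · have h2 := nr_le (τ := τ) h0 hs K v
      have h3 : 1 ≤ v ^ c := Real.one_le_rpow h1 hc.le
      have h4 := mul_le_mul_of_nonneg_left h3 hS
      have h5 : 0 ≤ |C| * v ^ c := by positivity
      linarith

end

end Run7.h278.LG
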