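import Pool.Agent.Run7.h278.LG.Exact

set_option autoImplicit false

/-!
# The exact exponent of the rate for the Riemann zeta function
-/

namespace Run7.h278.LG

open Filter Topology MeasureTheory Set Run7.h278.LM Run7.h278.WL
open scoped ENNReal

/-- the weights -/
noncomputable def wZ (t : TZ) : ℝ := (WL.mt t : ℝ) / (1 / 4 + (t : ℝ) ^ 2)

theorem zeta_core (hRH : RiemannHypothesis) : (∀ t : TZ, 0 < wZ t) ∧ Summable wZ ∧
    ∀ u : ℝ, HasSum (fun y => (xx wZ y : ℂ) * Complex.exp (Complex.I * tt (fun t : TZ => (t : ℝ)) y * u)) (FFz u : ℂ) := by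
  obtain ⟨cm, -⟩ := cmZ hRH
  have w1 : ∀ t : TZ, 0 < wZ t := fun t => by
    have h1 : (1 : ℝ) ≤ WL.mt t := cm.one t
    unfold wZ
    positivity
  have s1 : Summable wZ := cm.sum
  set e : TZ ≃ TI := Equiv.subtypeEquivRight fun t => by
    show 0 < t ∧ riemannZeta (1 / 2 + Complex.I * t) = 0 ↔ _
    rw [Z_zero_iff] with he
  have hF : FFz = FI wZ (fun t : TZ => (t : ℝ)) := by
    funext u
    exact (e.tsum_eq (fun t : TI => 2 * WW t * Real.cos (t * u))).symm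
  refine ⟨w1, s1, fun u => ?_⟩
  rw [hF, ← FI_rep (fun t : TZ => (t : ℝ)) w1 s1 u]
  refine Summable.hasSum ?_
  rw [← summable_norm_iff]
  refine (xx_sum s1).congr fun y => ?_
  rw [norm_mul, LM.norm_I, Complex.norm_real, Real.norm_eq_abs, abs_of_pos (xx_pos w1 y), mul_one]

theorem zeta_rate_Am (hRH : RiemannHypothesis) (K : ℕ) {c : ℝ} (hc : 0 < c) (hc1 : c ≤ 1) : RateAt (PM aa 0 K) c ↔
    ∃ C : ℝ, ∀ δ : ℝ, 0 < δ → δ < 1 → Am (fun u => FFz u ^ (2 * K)) δ - LK (xx wZ) (tt fun t : TZ => (t : ℝ)) (2 * K) ≤ C * δ ^ c := by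
  classical
  obtain ⟨M, hM, hnear⟩ := aa_near hRH
  obtain ⟨B, hB, hFB, haB⟩ := aa_bdd hRH
  obtain ⟨w1, s1, hrep⟩ := zeta_core hRH
  have x0 := xx_pos w1
  have xs := xx_sum s1
  -- comparison of the means
  have hclose : ∃ C1 : ℝ, 0 ≤ C1 ∧ ∀ δ : ℝ, 0 < δ → |Am (fun u => aa u ^ (2 * K)) δ - Am (fun u => FFz u ^ (2 * K)) δ| ≤ C1 * δ := by
    refine ⟨2 * |(2 * K : ℕ) * B ^ (2 * K - 1) * M|, by positivity, fun δ hδ => ?_⟩
    refine Am_close (f := fun u => aa u ^ (2 * K)) (g := fun u => FFz u ^ (2 * K)) (B := B ^ (2 * K)) (aa_cont.pow _) (FFz_cont.pow _) (fun u hu => ?_) (fun u _ => ?_) (fun u hu => ?_) hδ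
    · rw [abs_pow]
      exact pow_le_pow_left₀ (abs_nonneg _) (haB u hu) _
    · rw [abs_pow]
      exact pow_le_pow_left₀ (abs_nonneg _) (hFB u) _
    · refine (pow_close (haB u hu) (hFB u) (2 * K)).trans ?_
      refine (mul_le_mul_of_nonneg_left (hnear u hu) (by positivity)).trans (le_of_eq ?_)
      ring
  obtain ⟨C1, hC1, hclose⟩ := hclose
  obtain ⟨B', hNr⟩ := nrZ hRH
  have hV : ∀ δ : ℝ, 0 < δ → PM aa 0 K δ = ENNReal.ofReal (Am (fun u => aa u ^ (2 * K)) δ) := by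
    intro δ hδ
    have h1 := hNr.lint (φ := fun x => x ^ (2 * K)) (by fun_prop) (fun x => by
      rw [pow_mul]
      positivity) hδ
    unfold PM
    simp only [sub_zero]
    exact h1
  have hAnn : ∀ δ : ℝ, 0 < δ → 0 ≤ Am (fun u => aa u ^ (2 * K)) δ := by
    intro δ hδ
    unfold Am
    refine mul_nonneg hδ.le (setIntegral_nonneg measurableSet_Ioi fun u _ => ?_)
    show 0 ≤ Real.exp (-δ * u) * aa u ^ (2 * K)
    rw [pow_mul]
    positivity
  have hLK : Tendsto (Am fun u => FFz u ^ (2 * K)) (𝓝[>] 0) (𝓝 (LK (xx wZ) (tt fun t : TZ => (t : ℝ)) (2 * K))) :=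
    mean_rep (fun f => Finset.prod_pos fun i _ => x0 _) (pi_hasSum (fun y => (x0 y).le) xs (2 * K)).summable (pi_rep x0 xs hrep (2 * K))
  have hmin : ∀ (c C : ℝ), 0 < c → ∀ δ : ℝ, 0 < δ → δ < 1 → C * δ ^ c + C1 * δ ≤ (|C| + C1) * δ ^ (min c 1) := by
    intro c C hc δ h0 h1
    have a1 : δ ^ c ≤ δ ^ (min c 1) := Real.rpow_le_rpow_of_exponent_ge h0 h1.le (min_le_left _ _)
    have a2 : δ ≤ δ ^ (min c 1) := by
      have := Real.rpow_le_rpow_of_exponent_ge h0 h1.le (min_le_right c 1)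
      rwa [Real.rpow_one] at this
    have a3 : C * δ ^ c ≤ |C| * δ ^ (min c 1) :=
      (mul_le_mul_of_nonneg_right (le_abs_self C) (by positivity)).trans (mul_le_mul_of_nonneg_left a1 (abs_nonneg _))
    have a4 := mul_le_mul_of_nonneg_left a2 hC1
    linarith
  constructor
  · rintro ⟨L, C, h⟩
    have hA : ∀ δ : ℝ, 0 < δ → δ < 1 → |Am (fun u => aa u ^ (2 * K)) δ - L| ≤ C * δ ^ c := by
      intro δ h0 h1
      have h2 := (h δ h0 h1).2
      rwa [hV δ h0, ENNReal.toReal_ofReal (hAnn δ h0)] at h2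
    have hb : ∀ δ : ℝ, 0 < δ → δ < 1 → |Am (fun u => FFz u ^ (2 * K)) δ - L| ≤ (|C| + C1) * δ ^ c := by
      intro δ h0 h1
      have a1 := hA δ h0 h1
      have a2 := hclose δ h0
      rw [abs_sub_comm] at a2
      have a3 := abs_sub_le (Am (fun u => FFz u ^ (2 * K)) δ) (Am (fun u => aa u ^ (2 * K)) δ) L
      have a4 := hmin c C hc δ h0 h1
      rw [min_eq_left hc1] at a4
      linarith
    have hL : L = LK (xx wZ) (tt fun t : TZ => (t : ℝ)) (2 * K) := by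
      have h2 : Tendsto (fun δ : ℝ => (|C| + C1) * δ ^ c) (𝓝[>] 0) (𝓝 0) := by
        have h3 : Tendsto (fun δ : ℝ => δ ^ c) (𝓝[>] 0) (𝓝 0) := by
          have h4 : Tendsto (fun δ : ℝ => δ ^ c) (𝓝 0) (𝓝 (0 ^ c)) :=
            (Real.continuousAt_rpow_const 0 c (Or.inr hc.le)).tendsto
          rw [Real.zero_rpow hc.ne'] at h4
          exact h4.mono_left nhdsWithin_le_nhds
        have h5 := h3.const_mul (|C| + C1)
        rwa [mul_zero] at h5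
      have h3 : Tendsto (fun δ : ℝ => Am (fun u => FFz u ^ (2 * K)) δ - L) (𝓝[>] 0) (𝓝 0) := by
        rw [tendsto_zero_iff_norm_tendsto_zero]
        refine squeeze_zero' (Eventually.of_forall fun _ => norm_nonneg _) ?_ h2
        have h4 : ∀ᶠ δ in 𝓝[>] (0 : ℝ), δ < 1 := eventually_nhdsWithin_of_eventually_nhds (eventually_lt_nhds one_pos)
        filter_upwards [h4, self_mem_nhdsWithin] with δ h4 h5
        exact hb δ h5 h4
      have h6 := h3.add_const L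
      simp only [sub_add_cancel, zero_add] at h6
      exact tendsto_nhds_unique h6 hLK
    refine ⟨|C| + C1, fun δ h0 h1 => ?_⟩
    have h2 := hb δ h0 h1
    rw [hL] at h2
    exact (le_abs_self _).trans h2
  · rintro ⟨C, h⟩
    refine ⟨LK (xx wZ) (tt fun t : TZ => (t : ℝ)) (2 * K), |C| + C1, fun δ h0 h1 => ⟨?_, ?_⟩⟩
    · rw [hV δ h0]
      exact ENNReal.ofReal_lt_top
    · rw [hV δ h0, ENNReal.toReal_ofReal (hAnn δ h0)]
      have a1 := h δ h0 h1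
      have a2 := rate_pos x0 xs hrep (2 * K) h0
      have a3 := hclose δ h0
      have a4 := abs_sub_le (Am (fun u => aa u ^ (2 * K)) δ) (Am (fun u => FFz u ^ (2 * K)) δ) (LK (xx wZ) (tt fun t : TZ => (t : ℝ)) (2 * K))
      rw [abs_of_nonneg a2] at a4
      have a5 := hmin c C hc δ h0 h1
      rw [min_eq_left hc1] at a5
      linarith

/-- **The exact exponent for zeta.** -/
theorem zeta_exact {K : ℕ} (hK : 1 ≤ K) {c : ℝ} (hc : 0 < c) (hc1 : c ≤ 1) : RateAt (PM aa 0 K) c ↔ RiemannHypothesis ∧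
    ∃ C : ℝ, ∀ v : ℝ, 0 < v → v < 1 → nr (xx wZ) (tt fun t : TZ => (t : ℝ)) (2 * K) v ≤ C * v ^ c := by
  constructor
  · intro h
    have hRH : RiemannHypothesis := by
      obtain ⟨L, C, h⟩ := h
      exact ((zeta_rate hK).1 ⟨L, c, C, hc, h⟩).1
    obtain ⟨w1, s1, hrep⟩ := zeta_core hRH
    exact ⟨hRH, (exact_iff (xx_pos w1) (xx_sum s1) hrep (2 * K) hc hc1).1 ((zeta_rate_Am hRH K hc hc1).1 h)⟩
  · rintro ⟨hRH, h⟩
    obtain ⟨w1, s1, hrep⟩ := zeta_core hRH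
    exact (zeta_rate_Am hRH K hc hc1).2 ((exact_iff (xx_pos w1) (xx_sum s1) hrep (2 * K) hc hc1).2 h)

/-- the weighted number of `p`-tuples of signed ordinates with a small nonzero sum -/
noncomputable def NZ (p : ℕ) (v : ℝ) : ℝ := ∑' f : Fin p → {t : ℝ // |t| ∈ TZ},
  open Classical in if 0 < |∑ i, (f i : ℝ)| ∧ |∑ i, (f i : ℝ)| ≤ v then ∏ i, ((WL.mt |(f i : ℝ)| : ℝ) / (1 / 4 + (f i : ℝ) ^ 2)) else 0

theorem TZ_pos (t : TZ) : (0 : ℝ) < t := t.2.1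

/-- signed ordinates -/
noncomputable def eZ : TZ ⊕ TZ ≃ {t : ℝ // |t| ∈ TZ} where
  toFun y := Sum.elim (fun t : TZ => (⟨(t : ℝ), by rw [abs_of_pos (TZ_pos t)]; exact t.2⟩ : {t : ℝ // |t| ∈ TZ}))
    (fun t : TZ => (⟨-(t : ℝ), by rw [abs_neg, abs_of_pos (TZ_pos t)]; exact t.2⟩ : {t : ℝ // |t| ∈ TZ})) y
  invFun t := open Classical in if 0 ≤ (t : ℝ) then Sum.inl ⟨|(t : ℝ)|, t.2⟩ else Sum.inr ⟨|(t : ℝ)|, t.2⟩
  left_inv y := by
    rcases y with t | t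
    · have h : (0 : ℝ) < t := t.2.1
      simp only [Sum.elim_inl]
      rw [if_pos h.le]
      congr 1
      ext
      exact abs_of_pos h
    · have h : (0 : ℝ) < t := t.2.1
      simp only [Sum.elim_inr]
      rw [if_neg (by linarith)]
      congr 1
      ext
      show |-(t : ℝ)| = t
      rw [abs_neg, abs_of_pos h]
  right_inv t := by
    dsimp only
    by_cases h : 0 ≤ (t : ℝ)
    · rw [if_pos h]
      ext
      exact abs_of_nonneg h
    · rw [if_neg h]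
      ext
      show -|(t : ℝ)| = t
      rw [abs_of_neg (not_le.1 h), neg_neg]

/-- the term of `NZ` -/
noncomputable def NZt (p : ℕ) (v : ℝ) (f : Fin p → {t : ℝ // |t| ∈ TZ}) : ℝ :=
  open Classical in if 0 < |∑ i, (f i : ℝ)| ∧ |∑ i, (f i : ℝ)| ≤ v then ∏ i, ((WL.mt |(f i : ℝ)| : ℝ) / (1 / 4 + (f i : ℝ) ^ 2)) else 0

theorem NZt_eq (p : ℕ) (v : ℝ) (f : Fin p → TZ ⊕ TZ) : NZt p v ((Equiv.arrowCongr (Equiv.refl (Fin p)) eZ) f) =
    nT (xx wZ) (tt fun t : TZ => (t : ℝ)) p v f := by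
  classical
  unfold NZt
  have e1 : ∀ i, ((Equiv.arrowCongr (Equiv.refl (Fin p)) eZ) f i : ℝ) = tt (fun t : TZ => (t : ℝ)) (f i) := by
    intro i
    rcases h : f i with t | t
    · show ((eZ (f i) : {t : ℝ // |t| ∈ TZ}) : ℝ) = t
      rw [h]
      rfl
    · show ((eZ (f i) : {t : ℝ // |t| ∈ TZ}) : ℝ) = -t
      rw [h]
      rfl
  have e2 : ∀ i, (WL.mt |((Equiv.arrowCongr (Equiv.refl (Fin p)) eZ) f i : ℝ)| : ℝ) /
      (1 / 4 + ((Equiv.arrowCongr (Equiv.refl (Fin p)) eZ) f i : ℝ) ^ 2) = xx wZ (f i) := by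
    intro i
    rw [e1]
    rcases f i with t | t
    · show (WL.mt |(t : ℝ)| : ℝ) / (1 / 4 + (t : ℝ) ^ 2) = wZ t
      rw [abs_of_pos t.2.1]
      rfl
    · show (WL.mt |-(t : ℝ)| : ℝ) / (1 / 4 + (-(t : ℝ)) ^ 2) = wZ t
      rw [abs_neg, abs_of_pos t.2.1, neg_sq]
      rfl
  simp only [e2]
  simp only [e1]
  unfold nT
  simp only [abs_pos]

theorem NZ_eq (p : ℕ) (v : ℝ) : NZ p v = nr (xx wZ) (tt fun t : TZ => (t : ℝ)) p v := by
  unfold nr
  rw [show NZ p v = ∑' f, NZt p v f from rfl, ← (Equiv.arrowCongr (Equiv.refl (Fin p)) eZ).tsum_eq]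
  exact tsum_congr fun f => NZt_eq p v f

theorem NZ_summable (p : ℕ) (v : ℝ) : Summable (NZt p v) ↔ Summable (nT (xx wZ) (tt fun t : TZ => (t : ℝ)) p v) := by
  rw [← (Equiv.arrowCongr (Equiv.refl (Fin p)) eZ).summable_iff]
  refine summable_congr fun f => NZt_eq p v f

/-- the limits for independent phases -/
theorem zeta_exact_LI {c : ℕ → ℝ} (hc : ∀ K, 0 < c K) (hc1 : ∀ K, c K ≤ 1) :
    (∀ K : ℕ, 1 ≤ K → ∃ C : ℝ, ∀ δ : ℝ, 0 < δ → δ < 1 → PM aa 0 K δ < ⊤ ∧ |(PM aa 0 K δ).toReal - DmZ K| ≤ C * δ ^ c K) ↔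
      RiemannHypothesis ∧ (LinearIndependent ℚ fun t : TZ => (t : ℝ)) ∧
        ∀ K : ℕ, 1 ≤ K → ∃ C : ℝ, ∀ v : ℝ, 0 < v → v < 1 → NZ (2 * K) v ≤ C * v ^ c K := by
  constructor
  · intro h
    obtain ⟨h1, h2, -⟩ := zeta_rate_LI.2.2.1 fun K hK => by
      obtain ⟨C, h⟩ := h K hK
      exact ⟨c K, C, hc K, h⟩
    refine ⟨h1, h2, fun K hK => ?_⟩
    obtain ⟨C, h⟩ := h K hK
    obtain ⟨-, C', h3⟩ := (zeta_exact hK (hc K) (hc1 K)).1 ⟨DmZ K, C, h⟩
    exact ⟨C', fun v hv hv1 => by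
      rw [NZ_eq]
      exact h3 v hv hv1⟩
  · rintro ⟨hRH, hLI, h⟩ K hK
    have hR : ∀ K : ℕ, 1 ≤ K → RateAt (PM aa 0 K) (c K) := fun K hK => by
      obtain ⟨C, h⟩ := h K hK
      exact (zeta_exact hK (hc K) (hc1 K)).2 ⟨hRH, C, fun v hv hv1 => by
        rw [← NZ_eq]
        exact h v hv hv1⟩
    have hE := (zeta_rate_LI.2.1.1 fun K hK => by
      obtain ⟨L, C, h⟩ := hR K hK
      exact ⟨L, c K, C, hc K, h⟩).2
    obtain ⟨c', C', hc', h1⟩ := zeta_rate_LI.2.2.2 ⟨hRH, hLI, hE⟩ K hK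
    obtain ⟨L, C, h2⟩ := hR K hK
    have h3 := rate_lim hc' fun δ h0 h1' => (h1 δ h0 h1').2
    have h4 := rate_lim (hc K) fun δ h0 h1' => (h2 δ h0 h1').2
    have h5 : L = DmZ K := tendsto_nhds_unique h4 h3
    rw [h5] at h2
    exact ⟨C, h2⟩

end Run7.h278.LG
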