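import Pool.Agent.Run7.h278.LG.Core

set_option autoImplicit false

/-!
# The explicit formula, the sum over the zeros
-/

namespace Run7.h278.LG

open Complex Filter Topology MeasureTheory Set Run7.h278.LM Run7.h278.WL
open Pool.Agent.H24R2.JP (Par)

/-- the zeros -/
abbrev ZF (f : ℂ → ℂ) : Type := {v : ℂ // f v = 0}

/-- the Riemann hypothesis for `f` -/
def RHf (f : ℂ → ℂ) : Prop := ∀ v, f v = 0 → ∃ y : ℝ, y ≤ -(1 / 4) ∧ v = y

/-- the weight of a zero -/
noncomputable def wv (f : ℂ → ℂ) (v : ZF f) : ℝ := (mu f v : ℝ) / (2 * ‖(v : ℂ)‖)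

/-- the ordinate of a zero -/
noncomputable def fv (f : ℂ → ℂ) (v : ZF f) : ℝ := Real.sqrt (-(v : ℂ).re - 1 / 4)

/-- the sum over the zeros -/
noncomputable def Ff (f : ℂ → ℂ) (u : ℝ) : ℝ := ∑' v : ZF f, 2 * wv f v * Real.cos (fv f v * u)

section main

variable {J : Type} [Fintype J] {f : ℂ → ℂ} {lam : ℕ → ℝ} {d m m' Q : ℝ} {μ : J → ℝ}
variable (D : LD f lam d m m' Q μ)

include D

theorem v_ne {v : ℂ} (hv : f v = 0) : v ≠ 0 := by
  rintro rfl
  exact D.ne hv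

theorem wv_pos (v : ZF f) : 0 < wv f v := by
  have h1 : 0 < mu f v := Nat.pos_of_ne_zero ((mu_pos D.diff D.ne _).2 v.2)
  have h2 : 0 < ‖(v : ℂ)‖ := norm_pos_iff.2 (v_ne D v.2)
  unfold wv
  have : (0 : ℝ) < mu f v := by exact_mod_cast h1
  positivity

theorem wv_summable : Summable (wv f) := by
  obtain ⟨Z, hZ⟩ := D.zer
  obtain ⟨c, hc, h1⟩ := dist_zeros D.diff D.ne
  have h2 := (summable_mu D.diff D.ne hZ D.par).mul_right (1 / (2 * c))
  have h3 := h2.comp_injective (Subtype.val_injective (p := fun v : ℂ => f v = 0))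
  refine Summable.of_nonneg_of_le (fun v => (wv_pos D v).le) (fun v => ?_) h3
  have h4 := h1 v v.2
  rw [zero_sub, norm_neg] at h4
  simp only [Function.comp_apply]
  unfold wv
  have h5 : 0 < ‖(v : ℂ)‖ := norm_pos_iff.2 (v_ne D v.2)
  have h6 : (0 : ℝ) ≤ mu f v := Nat.cast_nonneg _
  rw [mul_assoc, div_eq_mul_one_div]
  refine mul_le_mul_of_nonneg_left ?_ h6
  rw [one_div_mul_one_div]
  refine one_div_le_one_div_of_le (by positivity) ?_
  nlinarith

theorem zf_countable : Countable (ZF f) := by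
  have h := (wv_summable D).countable_support
  have h1 : Function.support (wv f) = univ := by
    ext t
    simp [(wv_pos D t).ne']
  rw [h1] at h
  exact countable_univ_iff.1 h

theorem f_log (hRH : RHf f) {w : ℂ} (hw : 1 < w.re) :
    HasSum (fun v : ZF f => (wv f v : ℂ) * (1 / (w - 1 / 2 - I * fv f v)) + (wv f v : ℂ) * (1 / (w - 1 / 2 + I * fv f v)))
      ((2 * w - 1) / (w * (w - 1)) * (logDeriv f 0 - logDeriv f (w * (w - 1))) / 2) := by
  obtain ⟨Z, hZ⟩ := D.zer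
  have hre : 0 < w.re := by linarith
  have hw0 : w ≠ 0 := fun h => by rw [h] at hre; simp at hre
  have hw1 : w ≠ 1 := fun h => by rw [h] at hw; simp at hw
  have hw2 : w - 1 ≠ 0 := sub_ne_zero.2 hw1
  have hx : f (w * (w - 1)) ≠ 0 := D.right w hw
  have h1 := hasSum_logDeriv D.diff D.ne hZ D.par hx
  have h0 := hasSum_logDeriv D.diff D.ne hZ D.par D.ne
  have h2 := (h0.sub h1).mul_left ((2 * w - 1) / (w * (w - 1)) / 2)
  have h3 : HasSum (fun v : ZF f => (2 * w - 1) / (w * (w - 1)) / 2 * ((mu f (v : ℂ) : ℂ) * (1 / (0 - (v : ℂ))) -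
      (mu f (v : ℂ) : ℂ) * (1 / (w * (w - 1) - (v : ℂ))))) ((2 * w - 1) / (w * (w - 1)) / 2 * (logDeriv f 0 - logDeriv f (w * (w - 1)))) := by
    refine (hasSum_subtype_iff_of_support_subset (s := {v | f v = 0}) ?_).2 h2
    intro v hv
    by_contra hcon
    apply hv
    have : mu f v = 0 := by
      by_contra h
      exact hcon ((mu_pos D.diff D.ne v).1 h)
    simp [this]
  have e0 : (2 * w - 1) / (w * (w - 1)) * (logDeriv f 0 - logDeriv f (w * (w - 1))) / 2 =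
      (2 * w - 1) / (w * (w - 1)) / 2 * (logDeriv f 0 - logDeriv f (w * (w - 1))) := by ring
  rw [e0]
  refine hs_congr h3 fun v => ?_
  obtain ⟨y, hy, hvy⟩ := hRH v v.2
  set t := fv f v with ht
  have ht2 : t ^ 2 = -y - 1 / 4 := by
    rw [ht]
    unfold fv
    rw [hvy, Complex.ofReal_re]
    exact Real.sq_sqrt (by linarith)
  have hv : (v : ℂ) = -(1 / 4 + (t : ℂ) ^ 2) := by
    rw [hvy]
    have : y = -(1 / 4 + t ^ 2) := by linarith
    rw [this]
    push_cast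
    ring
  have hd : ∀ ε : ℂ, ε = I ∨ ε = -I → w - 1 / 2 + ε * t ≠ 0 := by
    intro ε hε h
    have := congrArg Complex.re h
    rcases hε with rfl | rfl <;> simp at this <;> linarith
  have n1 := hd (-I) (Or.inr rfl)
  have n2 := hd I (Or.inl rfl)
  have n3 : (1 / 4 + (t : ℂ) ^ 2) ≠ 0 := by
    have h5 : ((1 / 4 + t ^ 2 : ℝ) : ℂ) ≠ 0 := Complex.ofReal_ne_zero.2 (by positivity)
    push_cast at h5
    exact h5
  have hW : (wv f v : ℂ) = (mu f (v : ℂ) : ℂ) / (2 * (1 / 4 + (t : ℂ) ^ 2)) := by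
    unfold wv
    have h6 : ‖(v : ℂ)‖ = 1 / 4 + t ^ 2 := by
      rw [hvy, Complex.norm_real, Real.norm_eq_abs, abs_of_nonpos (by linarith)]
      linarith
    rw [h6]
    push_cast
    ring
  rw [hW, hv]
  have n4 : w * (w - 1) - -(1 / 4 + (t : ℂ) ^ 2) = (w - 1 / 2 - I * t) * (w - 1 / 2 + I * t) := by
    have := Complex.I_sq
    linear_combination (t : ℂ) ^ 2 * this
  rw [show w - 1 / 2 + -I * (t : ℂ) = w - 1 / 2 - I * t by ring] at n1
  have n5 : w * (w - 1) = (w - 1 / 2 - I * t) * (w - 1 / 2 + I * t) - (1 / 4 + (t : ℂ) ^ 2) := by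
    rw [← n4]; ring
  have n6 : w * (w - 1) ≠ 0 := mul_ne_zero hw0 hw2
  have hAB : 2 * w - 1 = (w - 1 / 2 - I * t) + (w - 1 / 2 + I * t) := by ring
  rw [n4, hAB]
  rw [n5] at n6 ⊢
  generalize (mu f (-(1 / 4 + (t : ℂ) ^ 2)) : ℂ) = M
  generalize (w - 1 / 2 - I * (t : ℂ)) = A at *
  generalize (w - 1 / 2 + I * (t : ℂ)) = B at *
  generalize (1 / 4 + (t : ℂ) ^ 2) = C at *
  rw [zero_sub, neg_neg]
  field_simp
  ring

omit D in
theorem Ff_term (hs : Summable (wv f)) (hp : ∀ v, 0 < wv f v) (w : ℂ) (u : ℝ) : (Ff f u : ℂ) * cexp (-(w - 1 / 2) * u) =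
    ∑' v : ZF f, (wv f v : ℂ) * cexp (-(w - 1 / 2 - I * fv f v) * u) +
      ∑' v : ZF f, (wv f v : ℂ) * cexp (-(w - 1 / 2 + I * fv f v) * u) := by
  have hs : ∀ ε : ℂ, ε = I ∨ ε = -I → Summable fun v : ZF f => (wv f v : ℂ) * cexp (ε * fv f v * u) := by
    intro ε hε
    refine Summable.of_norm_bounded hs fun v => ?_
    have h1 : ‖cexp (ε * fv f v * u)‖ = 1 := by
      rcases hε with rfl | rfl <;> (rw [Complex.norm_exp]; simp)
    rw [norm_mul, h1, mul_one, Complex.norm_real, Real.norm_eq_abs, abs_of_pos (hp v)]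
  have h1 : (Ff f u : ℂ) = ∑' v : ZF f, (wv f v : ℂ) * cexp (I * fv f v * u) + ∑' v : ZF f, (wv f v : ℂ) * cexp (-I * fv f v * u) := by
    unfold Ff
    rw [Complex.ofReal_tsum, ← (hs I (Or.inl rfl)).tsum_add (hs (-I) (Or.inr rfl))]
    refine tsum_congr fun v => ?_
    push_cast
    rw [Complex.cos, show (fv f v : ℂ) * u * I = I * fv f v * u by ring, show -((fv f v : ℂ) * u) * I = -I * fv f v * u by ring]
    ring
  rw [h1, add_mul, ← tsum_mul_right, ← tsum_mul_right]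
  congr 1
  · refine tsum_congr fun v => ?_
    rw [mul_assoc, ← Complex.exp_add]
    congr 2
    ring
  · refine tsum_congr fun v => ?_
    rw [mul_assoc, ← Complex.exp_add]
    congr 2
    ring

/-- the second constant -/
noncomputable def BL (f : ℂ → ℂ) (m m' Q : ℝ) (μ : J → ℝ) : ℂ :=
  logDeriv f 0 / 2 + m' - m + Q + ∑ j, GG (μ j) 0

/-- the coefficients of the remainder -/
noncomputable def rk (ν : ℝ) (k : ℕ) : ℝ := 1 / ((ν + 2 * k) * (ν + 2 * k + 1))

/-- the remainder -/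
noncomputable def rL (f : ℂ → ℂ) (m m' Q : ℝ) (μ : J → ℝ) (u : ℝ) : ℂ :=
  m' * (u * cexp (-(1 / 2 : ℂ) * u)) + BL f m m' Q μ * cexp (-(1 / 2 : ℂ) * u) +
    ∑ j, ∑' k : ℕ, (rk (μ j) k : ℂ) * cexp (-((1 / 2 : ℂ) + ((μ j + 2 * k : ℝ) : ℂ)) * u)

omit D in
theorem rk_norm {ν : ℝ} (hν : 0 < ν) : Summable fun k : ℕ => ‖(rk ν k : ℂ)‖ := by
  refine (gam_sum hν).congr fun k => ?_
  rw [Complex.norm_real, Real.norm_eq_abs]
  unfold rk
  rw [abs_of_nonneg (by positivity)]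

theorem rL_lap {w : ℂ} (hw : 1 < w.re) : IntegrableOn (fun u : ℝ => rL f m m' Q μ u * cexp (-(w - 1 / 2) * u)) (Ioi 0) ∧
    ∫ u : ℝ in Ioi 0, rL f m m' Q μ u * cexp (-(w - 1 / 2) * u) =
      (2 * w - 1) / (w * (w - 1)) * (logDeriv f 0 - logDeriv f (w * (w - 1))) / 2 -
      (LSeries (fun n => (lam n : ℂ)) w / (w * (w - 1)) - m / (w - 1) ^ 2 + cL f m m' Q μ / (w - 1)) := by
  have hre : 0 < w.re := by linarith
  have hw0 : w ≠ 0 := fun h => by rw [h] at hre; simp at hre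
  have hw1 : w ≠ 1 := fun h => by rw [h] at hw; simp at hw
  have hw2 : w - 1 ≠ 0 := sub_ne_zero.2 hw1
  have e : ∀ u : ℝ, rL f m m' Q μ u * cexp (-(w - 1 / 2) * u) =
      m' * (u * cexp (-w * u)) + BL f m m' Q μ * cexp (-w * u) +
        ∑ j, ∑' k : ℕ, (rk (μ j) k : ℂ) * cexp (-(w + ((μ j + 2 * k : ℝ) : ℂ)) * u) := by
    intro u
    unfold rL
    have h1 : cexp (-(1 / 2 : ℂ) * u) * cexp (-(w - 1 / 2) * u) = cexp (-w * u) := by
      rw [← Complex.exp_add]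
      congr 1
      ring
    have h2 : (∑ j, ∑' k : ℕ, (rk (μ j) k : ℂ) * cexp (-((1 / 2 : ℂ) + ((μ j + 2 * k : ℝ) : ℂ)) * u)) * cexp (-(w - 1 / 2) * u) =
        ∑ j, ∑' k : ℕ, (rk (μ j) k : ℂ) * cexp (-(w + ((μ j + 2 * k : ℝ) : ℂ)) * u) := by
      rw [Finset.sum_mul]
      refine Finset.sum_congr rfl fun j _ => ?_
      rw [← tsum_mul_right]
      refine tsum_congr fun k => ?_
      rw [mul_assoc, ← Complex.exp_add]
      congr 2
      ring
    rw [add_mul, add_mul, h2, ← h1]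
    ring
  simp_rw [e]
  have a1 : ∀ j, ∀ k : ℕ, (1 : ℝ) ≤ (w + ((μ j + 2 * k : ℝ) : ℂ)).re := by
    intro j k
    have hk : (0 : ℝ) ≤ k := Nat.cast_nonneg k
    have := D.pos j
    rw [Complex.add_re, Complex.ofReal_re]
    linarith
  have i1 : IntegrableOn (fun u : ℝ => (m' : ℂ) * (u * cexp (-w * u))) (Ioi 0) := (lap_u hre).1.const_mul _
  have i2 : IntegrableOn (fun u : ℝ => BL f m m' Q μ * cexp (-w * u)) (Ioi 0) := (lap_exp_int hre 0).const_mul _
  have i3 : ∀ j ∈ Finset.univ, IntegrableOn (fun u : ℝ => ∑' k : ℕ, (rk (μ j) k : ℂ) * cexp (-(w + ((μ j + 2 * k : ℝ) : ℂ)) * u)) (Ioi 0) :=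
    fun j _ => (lap_sum_int one_pos (a1 j) (rk_norm (D.pos j))).2
  have i4 : IntegrableOn (fun u : ℝ => ∑ j, ∑' k : ℕ, (rk (μ j) k : ℂ) * cexp (-(w + ((μ j + 2 * k : ℝ) : ℂ)) * u)) (Ioi 0) :=
    integrable_finset_sum _ i3
  have i12 : IntegrableOn (fun u : ℝ => (m' : ℂ) * (u * cexp (-w * u)) + BL f m m' Q μ * cexp (-w * u)) (Ioi 0) := i1.add i2
  refine ⟨i12.add i4, ?_⟩
  rw [integral_add i12 i4, integral_add i1 i2, integral_const_mul, integral_const_mul, (lap_u hre).2, lap_exp0 hre,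
    integral_finset_sum _ i3]
  have h5 : ∀ j, ∫ u : ℝ in Ioi 0, ∑' k : ℕ, (rk (μ j) k : ℂ) * cexp (-(w + ((μ j + 2 * k : ℝ) : ℂ)) * u) =
      -GG (μ j) w / (w * (w - 1)) + GG (μ j) 1 / (w - 1) - GG (μ j) 0 / w := by
    intro j
    exact (lap_sum one_pos (a1 j) (rk_norm (D.pos j))).unique (gam_frac (D.pos j) hw)
  simp_rw [h5]
  rw [Finset.sum_sub_distrib, Finset.sum_add_distrib, ← Finset.sum_div, ← Finset.sum_div, ← Finset.sum_div, Finset.sum_neg_distrib]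
  have h6 := D.log w hw
  have h7 : (2 * w - 1) / (w * (w - 1)) * (logDeriv f 0 - logDeriv f (w * (w - 1))) / 2 =
      ((2 * w - 1) * logDeriv f 0 - (2 * w - 1) * logDeriv f (w * (w - 1))) / (2 * (w * (w - 1))) := by
    field_simp
  rw [h7, h6]
  unfold BL cL
  generalize (∑ j, GG (μ j) w) = A
  generalize (∑ j, GG (μ j) 0) = B
  generalize (∑ j, GG (μ j) 1) = C
  generalize LSeries (fun n => (lam n : ℂ)) w = L
  generalize logDeriv f 0 = κ
  field_simp
  ring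

/-- the difference -/
noncomputable def DL (f : ℂ → ℂ) (lam : ℕ → ℝ) (m m' Q : ℝ) (μ : J → ℝ) (u : ℝ) : ℂ :=
  aL lam m (cL f m m' Q μ).re u + rL f m m' Q μ u - Ff f u

theorem DL_lap (hRH : RHf f) {w : ℂ} (hw : 2 < w.re) :
    IntegrableOn (fun u : ℝ => DL f lam m m' Q μ u * cexp (-(w - 1 / 2) * u)) (Ioi 0) ∧
    ∫ u : ℝ in Ioi 0, DL f lam m m' Q μ u * cexp (-(w - 1 / 2) * u) = 0 := by
  haveI := zf_countable D
  have hw1 : 1 < w.re := by linarith
  have e : ∀ u : ℝ, DL f lam m m' Q μ u * cexp (-(w - 1 / 2) * u) =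
      (aL lam m (cL f m m' Q μ).re u : ℂ) * cexp (-(w - 1 / 2) * u) + rL f m m' Q μ u * cexp (-(w - 1 / 2) * u) -
      ((∑' v : ZF f, (wv f v : ℂ) * cexp (-(w - 1 / 2 - I * fv f v) * u)) +
      ∑' v : ZF f, (wv f v : ℂ) * cexp (-(w - 1 / 2 + I * fv f v) * u)) := by
    intro u
    rw [← Ff_term (wv_summable D) (wv_pos D)]
    unfold DL
    ring
  simp_rw [e]
  have hn : Summable fun v : ZF f => ‖(wv f v : ℂ)‖ := by
    refine (wv_summable D).congr fun v => ?_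
    rw [Complex.norm_real, Real.norm_eq_abs, abs_of_pos (wv_pos D v)]
  have a2 : ∀ v : ZF f, (1 : ℝ) ≤ (w - 1 / 2 - I * fv f v).re := by
    intro t
    simp
    linarith
  have a3 : ∀ v : ZF f, (1 : ℝ) ≤ (w - 1 / 2 + I * fv f v).re := by
    intro t
    simp
    linarith
  have i1 := (aL_lap D.lam_le m (cL f m m' Q μ).re hw).1
  have i2 := (rL_lap D hw1).1
  have i4 := (lap_sum_int one_pos a2 hn).2
  have i5 := (lap_sum_int one_pos a3 hn).2
  have i12 : IntegrableOn (fun u : ℝ => (aL lam m (cL f m m' Q μ).re u : ℂ) * cexp (-(w - 1 / 2) * u) +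
      rL f m m' Q μ u * cexp (-(w - 1 / 2) * u)) (Ioi 0) := i1.add i2
  have i45 : IntegrableOn (fun u : ℝ => (∑' v : ZF f, (wv f v : ℂ) * cexp (-(w - 1 / 2 - I * fv f v) * u)) +
      ∑' v : ZF f, (wv f v : ℂ) * cexp (-(w - 1 / 2 + I * fv f v) * u)) (Ioi 0) := i4.add i5
  refine ⟨i12.sub i45, ?_⟩
  rw [integral_sub i12 i45, integral_add i1 i2, integral_add i4 i5,
    (aL_lap D.lam_le m (cL f m m' Q μ).re hw).2, (rL_lap D hw1).2]
  have s4 := lap_sum one_pos a2 hn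
  have s5 := lap_sum one_pos a3 hn
  have e2 := (s4.add s5).unique (f_log D hRH hw1)
  rw [e2, ← cL_real D]
  ring

theorem Ff_cont : Continuous (Ff f) := by
  unfold Ff
  refine continuous_tsum (fun t => by fun_prop) ((wv_summable D).mul_left 2) fun v u => ?_
  have := wv_pos D v
  rw [norm_mul, Real.norm_eq_abs, Real.norm_eq_abs, abs_of_pos (by positivity)]
  exact mul_le_of_le_one_right (by positivity) (Real.abs_cos_le_one _)

theorem rL_cont : ContinuousOn (rL f m m' Q μ) (Ici 0) := by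
  unfold rL
  refine ContinuousOn.add (by fun_prop) ?_
  refine continuousOn_finset_sum _ fun j _ => ?_
  refine (lap_sum_int (σ := 1 / 2) (by norm_num) (fun k => ?_) (rk_norm (D.pos j))).1
  have hk : (0 : ℝ) ≤ k := Nat.cast_nonneg k
  have := D.pos j
  rw [Complex.add_re, Complex.ofReal_re]
  norm_num
  linarith

/-- **The explicit formula.** -/
theorem explicit (hRH : RHf f) {u : ℝ} (hu : 0 < u) : DL f lam m m' Q μ u = 0 := by
  set G : ℝ → ℂ := (Ioi (0 : ℝ)).indicator fun u => DL f lam m m' Q μ u * cexp (-2 * u) with hG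
  have hint : Integrable G := by
    have h := (DL_lap D hRH (w := 5 / 2) (by norm_num)).1
    rw [show ((5 / 2 : ℂ) - 1 / 2) = 2 by norm_num] at h
    exact (integrable_indicator_iff measurableSet_Ioi).2 h
  have hF : FourierTransform.fourier G = fun _ => 0 := by
    funext ξ
    rw [Real.fourier_real_eq_integral_exp_smul]
    have h1 : ∀ v : ℝ, cexp (((-2 * Real.pi * v * ξ : ℝ) : ℂ) * I) • G v =
        (Ioi (0 : ℝ)).indicator (fun u : ℝ => DL f lam m m' Q μ u * cexp (-((5 / 2 + 2 * Real.pi * ξ * I) - 1 / 2) * u)) v := by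
      intro v
      rw [hG]
      by_cases hv : v ∈ Ioi (0 : ℝ)
      · rw [indicator_of_mem hv, indicator_of_mem hv, smul_eq_mul]
        have : cexp (-((5 / 2 + 2 * Real.pi * ξ * I) - 1 / 2) * v) = cexp (((-2 * Real.pi * v * ξ : ℝ) : ℂ) * I) * cexp (-2 * v) := by
          rw [← Complex.exp_add]
          congr 1
          push_cast
          ring
        rw [this]
        ring
      · rw [indicator_of_notMem hv, indicator_of_notMem hv, smul_zero]
    simp_rw [h1]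
    rw [integral_indicator measurableSet_Ioi]
    exact (DL_lap D hRH (w := 5 / 2 + 2 * Real.pi * ξ * I) (by simp; norm_num)).2
  have hc : ContinuousAt G u := by
    have h1 : ContinuousAt (fun u : ℝ => DL f lam m m' Q μ u * cexp (-2 * u)) u := by
      have h3 : ContinuousAt (rL f m m' Q μ) u := (rL_cont D).continuousAt (Ici_mem_nhds hu)
      have h4 : ContinuousAt (fun u : ℝ => (aL lam m (cL f m m' Q μ).re u : ℂ)) u :=
        (Complex.continuous_ofReal.comp (aL_cont D.lam_le m _)).continuousAt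
      have h5 : ContinuousAt (fun u : ℝ => (Ff f u : ℂ)) u := (Complex.continuous_ofReal.comp (Ff_cont D)).continuousAt
      have h7 : ContinuousAt (fun u : ℝ => cexp (-2 * u)) u := by fun_prop
      exact ((h4.add h3).sub h5).mul h7
    refine h1.congr ?_
    filter_upwards [Ioi_mem_nhds hu] with v hv
    rw [hG, indicator_of_mem hv]
  have h2 := hint.fourierInv_fourier_eq (by rw [hF]; exact integrable_zero _ _ _) hc
  rw [hF] at h2
  have h3 : G u = 0 := by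
    rw [← h2, Real.fourierInv_eq']
    simp
  rw [hG, indicator_of_mem (by exact hu), mul_eq_zero] at h3
  rcases h3 with h3 | h3
  · exact h3
  · exact absurd h3 (Complex.exp_ne_zero _)

/-- the remainder is small -/
theorem near (hRH : RHf f) : ∃ K : ℝ, 0 ≤ K ∧ ∀ u : ℝ, 0 < u →
    |aL lam m (cL f m m' Q μ).re u - Ff f u| ≤ K * ((1 + u) * Real.exp (-u / 2)) := by
  refine ⟨|m'| + ‖BL f m m' Q μ‖ + ∑ j, ∑' k, ‖(rk (μ j) k : ℂ)‖, ?_, fun u hu => ?_⟩
  · have : 0 ≤ ∑ j, ∑' k, ‖(rk (μ j) k : ℂ)‖ := Finset.sum_nonneg fun j _ => tsum_nonneg fun k => norm_nonneg _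
    positivity
  have h := explicit D hRH hu
  unfold DL at h
  have h1 : ((aL lam m (cL f m m' Q μ).re u - Ff f u : ℝ) : ℂ) = -rL f m m' Q μ u := by
    push_cast
    linear_combination h
  have h2 : |aL lam m (cL f m m' Q μ).re u - Ff f u| = ‖rL f m m' Q μ u‖ := by
    rw [← norm_neg, ← h1, Complex.norm_real, Real.norm_eq_abs]
  rw [h2]
  have hE : Real.exp (-(1 / 2) * u) = Real.exp (-u / 2) := by
    congr 1
    ring
  have he : ‖cexp (-(1 / 2 : ℂ) * u)‖ = Real.exp (-u / 2) := by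
    rw [norm_exp_neg, ← hE]
    norm_num
  have hE0 : 0 < Real.exp (-u / 2) := Real.exp_pos _
  have h3 : ∀ j, ‖∑' k : ℕ, (rk (μ j) k : ℂ) * cexp (-((1 / 2 : ℂ) + ((μ j + 2 * k : ℝ) : ℂ)) * u)‖ ≤
      (∑' k, ‖(rk (μ j) k : ℂ)‖) * Real.exp (-u / 2) := by
    intro j
    have hb : ∀ k : ℕ, ‖(rk (μ j) k : ℂ) * cexp (-((1 / 2 : ℂ) + ((μ j + 2 * k : ℝ) : ℂ)) * u)‖ ≤ ‖(rk (μ j) k : ℂ)‖ * Real.exp (-u / 2) := by
      intro k
      have hk : (0 : ℝ) ≤ k := Nat.cast_nonneg k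
      have := D.pos j
      rw [norm_mul, norm_exp_neg]
      have h4 : Real.exp (-((1 / 2 : ℂ) + ((μ j + 2 * k : ℝ) : ℂ)).re * u) ≤ Real.exp (-u / 2) := by
        rw [Real.exp_le_exp, Complex.add_re, Complex.ofReal_re]
        norm_num
        nlinarith
      gcongr
    have h5 := (rk_norm (D.pos j)).mul_right (Real.exp (-u / 2))
    have h6 : Summable fun k : ℕ => ‖(rk (μ j) k : ℂ) * cexp (-((1 / 2 : ℂ) + ((μ j + 2 * k : ℝ) : ℂ)) * u)‖ :=
      Summable.of_nonneg_of_le (fun k => norm_nonneg _) hb h5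
    rw [← tsum_mul_right]
    exact (norm_tsum_le_tsum_norm h6).trans (h6.tsum_le_tsum hb h5)
  unfold rL
  have h7 : ‖(m' : ℂ) * (u * cexp (-(1 / 2 : ℂ) * u))‖ = |m'| * (u * Real.exp (-u / 2)) := by
    rw [norm_mul, norm_mul, he, Complex.norm_real, Complex.norm_real, Real.norm_eq_abs, Real.norm_eq_abs, abs_of_pos hu]
  have h8 : ‖BL f m m' Q μ * cexp (-(1 / 2 : ℂ) * u)‖ = ‖BL f m m' Q μ‖ * Real.exp (-u / 2) := by rw [norm_mul, he]
  have h9 : ‖∑ j, ∑' k : ℕ, (rk (μ j) k : ℂ) * cexp (-((1 / 2 : ℂ) + ((μ j + 2 * k : ℝ) : ℂ)) * u)‖ ≤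
      (∑ j, ∑' k, ‖(rk (μ j) k : ℂ)‖) * Real.exp (-u / 2) := by
    rw [Finset.sum_mul]
    exact (norm_sum_le _ _).trans (Finset.sum_le_sum fun j _ => h3 j)
  have hS : 0 ≤ ∑ j, ∑' k, ‖(rk (μ j) k : ℂ)‖ := Finset.sum_nonneg fun j _ => tsum_nonneg fun k => norm_nonneg _
  refine (norm_add_le _ _).trans ((add_le_add (norm_add_le _ _) h9).trans ?_)
  rw [h7, h8]
  set E := Real.exp (-u / 2)
  have hm : 0 ≤ |m'| := abs_nonneg _
  have hB : 0 ≤ ‖BL f m m' Q μ‖ := norm_nonneg _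
  nlinarith [mul_nonneg hm hE0.le, mul_nonneg (mul_nonneg hB hu.le) hE0.le, mul_nonneg (mul_nonneg hS hu.le) hE0.le]

end main

end Run7.h278.LG
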