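import Pool.Agent.Run7.h278.LG.Real
import Pool.Agent.Run7.h278.LI.Art

set_option autoImplicit false

/-!
# Finite families of completed L-functions
-/

namespace Run7.h278.LG

open Complex Filter Topology MeasureTheory Set Run7.h278.LM Run7.h278.WL
open scoped ComplexConjugate
open Pool.Agent.W355.UN (RawL Raw cser prod_get)
open Run7.h278.LI (Gr32 stF stF_diff Adm adm_raw)

/-- one completed L-function with real non-negative shifts -/
structure One (l : List ℝ) (r : ℕ) (N : ℝ) (b c : ℕ → ℂ) (X : ℂ → ℂ) : Prop where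
  raw : RawL (l.map fun a : ℝ => (a : ℂ)) r N b c X
  nonneg : ∀ a ∈ l, 0 ≤ a
  one : X 1 ≠ 0

section one

variable {l : List ℝ} {r : ℕ} {N : ℝ} {b c : ℕ → ℂ} {X : ℂ → ℂ} (h : One l r N b c X)

include h

theorem One.formula {s : ℂ} (hs : 1 < s.re) :
    X s = (s * (s - 1)) ^ r * ((N : ℂ) ^ (s / 2) * ∏ j : Fin l.length, Gammaℝ (s + (l.get j : ℝ))) * LSeries b s := by
  have h1 := Raw.eq' Pool.Agent.W672.UN.coef h.raw hs
  rw [h1, Pool.Agent.W355.UN.gaf_eq]
  have e := prod_get (l.map fun a : ℝ => (a : ℂ)) (fun a : ℂ => Gammaℝ (s + a))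
  have e2 : ∏ j : Fin l.length, Gammaℝ (s + (l.get j : ℝ)) = ((l.map fun a : ℝ => (a : ℂ)).map fun a : ℂ => Gammaℝ (s + a)).prod := by
    rw [List.map_map, ← List.prod_ofFn]
    congr 1
    conv_rhs => rw [← List.ofFn_get l]
    rw [List.map_ofFn]
    rfl
  rw [e2, ← e]
  ring

theorem One.N_pos : 0 < N := by
  have := h.raw.hN
  linarith

theorem One.c_le (n : ℕ) : ‖c n‖ ≤ l.length := by
  have := h.raw.cb n
  rwa [List.length_map] at this

theorem One.coef {s : ℂ} (hs : 1 < s.re) : LSeriesSummable b s ∧ LSeries b s ≠ 0 ∧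
    logDeriv (LSeries b) s = -LSeries (fun n => ((ArithmeticFunction.vonMangoldt n : ℝ) : ℂ) * c n) s :=
  Pool.Agent.W672.UN.coef _ b c h.raw.one h.raw.cb h.raw.conv s hs

theorem One.diffL {s : ℂ} (hs : 1 < s.re) : DifferentiableAt ℂ (LSeries b) s :=
  Pool.Agent.W355.UN.lser_an Pool.Agent.W672.UN.coef h.raw hs

theorem One.gam_ne {s : ℂ} (hs : 0 < s.re) (j : Fin l.length) : Gammaℝ (s + (l.get j : ℝ)) ≠ 0 := by
  refine Gammaℝ_ne_zero_of_re_pos ?_
  have := h.nonneg _ (List.get_mem l j)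
  rw [Complex.add_re, Complex.ofReal_re]
  linarith

theorem One.fac_ne {s : ℂ} (hs : 0 < s.re) : (N : ℂ) ^ (s / 2) * ∏ j : Fin l.length, Gammaℝ (s + (l.get j : ℝ)) ≠ 0 := by
  refine mul_ne_zero ?_ (Finset.prod_ne_zero_iff.2 fun j _ => h.gam_ne hs j)
  have : (N : ℂ) ≠ 0 := Complex.ofReal_ne_zero.2 h.N_pos.ne'
  rw [Complex.cpow_def_of_ne_zero this]
  exact Complex.exp_ne_zero _

theorem One.ne {s : ℂ} (hs : 1 < s.re) : X s ≠ 0 := by
  rw [h.formula hs]
  have h0 : s ≠ 0 := fun e => by rw [e] at hs; norm_num at hs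
  have h1 : s - 1 ≠ 0 := fun e => by
    rw [sub_eq_zero.1 e] at hs
    norm_num at hs
  exact mul_ne_zero (mul_ne_zero (pow_ne_zero _ (mul_ne_zero h0 h1)) (h.fac_ne (by linarith))) (h.coef hs).2.1

theorem One.logD {s : ℂ} (hs : 1 < s.re) : logDeriv X s = r / s + r / (s - 1) + Real.log N / 2 +
    ∑ j : Fin l.length, GG (l.get j) s - LSeries (fun n => ((ArithmeticFunction.vonMangoldt n : ℝ) : ℂ) * c n) s := by
  have hs0 : 0 < s.re := by linarith
  have h0 : s ≠ 0 := fun e => by rw [e] at hs; norm_num at hs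
  have h1 : s - 1 ≠ 0 := fun e => by
    rw [sub_eq_zero.1 e] at hs
    norm_num at hs
  have hN : (N : ℂ) ≠ 0 := Complex.ofReal_ne_zero.2 h.N_pos.ne'
  have hU : IsOpen {z : ℂ | 1 < z.re} := isOpen_lt continuous_const continuous_re
  have he : X =ᶠ[𝓝 s] fun s => (s * (s - 1)) ^ r * ((N : ℂ) ^ (s / 2) * ∏ j : Fin l.length, Gammaℝ (s + (l.get j : ℝ))) * LSeries b s := by
    filter_upwards [hU.mem_nhds hs] with z hz
    exact h.formula hz
  have hld : logDeriv X s = logDeriv (fun s => (s * (s - 1)) ^ r * ((N : ℂ) ^ (s / 2) * ∏ j : Fin l.length, Gammaℝ (s + (l.get j : ℝ))) * LSeries b s) s := by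
    rw [logDeriv_apply, logDeriv_apply, he.deriv_eq, he.eq_of_nhds]
  have hg : ∀ j : Fin l.length, DifferentiableAt ℂ (fun s : ℂ => Gammaℝ (s + (l.get j : ℝ))) s := by
    intro j
    have := h.nonneg _ (List.get_mem l j)
    have h2 : 0 < (s + (l.get j : ℝ)).re := by
      rw [Complex.add_re, Complex.ofReal_re]
      linarith
    exact ((gammaR_deriv h2).comp_add_const s (l.get j : ℂ)).differentiableAt
  have hgp : DifferentiableAt ℂ (fun s : ℂ => ∏ j : Fin l.length, Gammaℝ (s + (l.get j : ℝ))) s :=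
    DifferentiableAt.fun_finsetProd fun j _ => hg j
  have hcp : DifferentiableAt ℂ (fun s : ℂ => (N : ℂ) ^ (s / 2)) s := by
    exact (DifferentiableAt.const_cpow (by fun_prop) (Or.inl hN))
  have hpp : DifferentiableAt ℂ (fun s : ℂ => (s * (s - 1)) ^ r) s := by fun_prop
  have n1 : (s * (s - 1)) ^ r ≠ 0 := pow_ne_zero _ (mul_ne_zero h0 h1)
  have n2 : (N : ℂ) ^ (s / 2) ≠ 0 := left_ne_zero_of_mul (h.fac_ne hs0)
  have n3 : ∏ j : Fin l.length, Gammaℝ (s + (l.get j : ℝ)) ≠ 0 := right_ne_zero_of_mul (h.fac_ne hs0)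
  rw [hld, logDeriv_mul (f := fun s : ℂ => (s * (s - 1)) ^ r * ((N : ℂ) ^ (s / 2) * ∏ j : Fin l.length, Gammaℝ (s + (l.get j : ℝ)))) s
      (mul_ne_zero n1 (mul_ne_zero n2 n3)) (h.coef hs).2.1 (hpp.mul (hcp.mul hgp)) (h.diffL hs),
    logDeriv_mul (f := fun s : ℂ => (s * (s - 1)) ^ r) (g := fun s : ℂ => ((N : ℂ) ^ (s / 2) * ∏ j : Fin l.length, Gammaℝ (s + (l.get j : ℝ)))) s
      n1 (mul_ne_zero n2 n3) hpp (hcp.mul hgp),
    logDeriv_mul (f := fun s : ℂ => (N : ℂ) ^ (s / 2)) (g := fun s : ℂ => ∏ j : Fin l.length, Gammaℝ (s + (l.get j : ℝ))) s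
      n2 n3 hcp hgp, (h.coef hs).2.2]
  have p1 : logDeriv (fun s : ℂ => (s * (s - 1)) ^ r) s = r / s + r / (s - 1) := by
    rw [logDeriv_fun_pow (f := fun s : ℂ => s * (s - 1)) (by fun_prop),
      logDeriv_mul (f := fun s : ℂ => s) (g := fun s : ℂ => s - 1) s h0 h1 (by fun_prop) (by fun_prop)]
    rw [logDeriv_apply, logDeriv_apply]
    have e1 : deriv (fun s : ℂ => s) s = 1 := (hasDerivAt_id' s).deriv
    have e2 : deriv (fun s : ℂ => s - 1) s = 1 := by
      rw [deriv_sub_const]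
      exact e1
    rw [e1, e2]
    ring
  have p2 : logDeriv (fun s : ℂ => (N : ℂ) ^ (s / 2)) s = Real.log N / 2 := by
    have h2 : HasDerivAt (fun s : ℂ => (N : ℂ) ^ (s / 2)) ((N : ℂ) ^ (s / 2) * Complex.log N * (1 / 2)) s := by
      have := (((hasDerivAt_id s).div_const 2).const_cpow (c := (N : ℂ)) (Or.inl hN))
      exact this
    rw [logDeriv_apply, h2.deriv, Complex.ofReal_log h.N_pos.le]
    field_simp
  have p3 : logDeriv (fun s : ℂ => ∏ j : Fin l.length, Gammaℝ (s + (l.get j : ℝ))) s = ∑ j : Fin l.length, GG (l.get j) s := by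
    rw [logDeriv_prod (f := fun (j : Fin l.length) (s : ℂ) => Gammaℝ (s + (l.get j : ℝ))) (fun j _ => h.gam_ne hs0 j) (fun j _ => hg j)]
    refine Finset.sum_congr rfl fun j _ => ?_
    unfold GG
    rw [logDeriv_apply, logDeriv_apply, deriv_comp_add_const]
  rw [p1, p2, p3]
  ring

end one

section family

variable {J : Type} [Fintype J] (l : J → List ℝ) (r : J → ℕ) (N : J → ℝ) (b c : J → ℕ → ℂ) (X : J → ℂ → ℂ) (d : J → ℕ)

/-- a finite family of completed L-functions with real total coefficients -/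
structure Family : Prop where
  one : ∀ j, One (l j) (r j) (N j) (b j) (c j) (X j)
  real : ∀ n, ArithmeticFunction.vonMangoldt n ≠ 0 → (∑ j, (d j : ℂ) * c j n).im = 0

/-- the product -/
noncomputable def PL (X : J → ℂ → ℂ) (d : J → ℕ) (s : ℂ) : ℂ := ∏ j, X j s ^ d j

/-- the total coefficients -/
noncomputable def lamF (c : J → ℕ → ℂ) (d : J → ℕ) (n : ℕ) : ℝ :=
  ArithmeticFunction.vonMangoldt n * (∑ j, (d j : ℂ) * c j n).re

/-- the total order of the pole -/
noncomputable def mF (r d : J → ℕ) : ℝ := ∑ j, (d j : ℝ) * r j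

/-- the index type of the archimedean factors -/
abbrev JF (l : J → List ℝ) (d : J → ℕ) : Type := Σ j : J, Fin (d j) × Fin (l j).length

/-- the shift, `0` replaced by `2` -/
noncomputable def μF (l : J → List ℝ) (d : J → ℕ) (x : JF l d) : ℝ :=
  if (l x.1).get x.2.2 = 0 then 2 else (l x.1).get x.2.2

/-- the number of the shifts `0` -/
noncomputable def zF (l : J → List ℝ) (d : J → ℕ) : ℝ := ∑ x : JF l d, if (l x.1).get x.2.2 = 0 then 1 else 0

/-- the conductor term -/
noncomputable def QF (N : J → ℝ) (d : J → ℕ) : ℝ := ∑ j, (d j : ℝ) * (Real.log (N j) / 2)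

/-- the degree -/
noncomputable def dF (l : J → List ℝ) (d : J → ℕ) : ℝ := ∑ j, (d j : ℝ) * (l j).length

variable {l r N b c X d}

theorem gr_pow {L : ℂ → ℂ} (h : Gr32 L) (k : ℕ) : Gr32 fun s => L s ^ k := by
  obtain ⟨K, hK⟩ := h
  refine ⟨k * K, fun s => ?_⟩
  rw [norm_pow, mul_assoc, Real.exp_nat_mul]
  exact pow_le_pow_left₀ (norm_nonneg _) (hK s) k

theorem gr_prod (S : Finset J) {L : J → ℂ → ℂ} (h : ∀ j, Gr32 (L j)) : Gr32 fun s => ∏ j ∈ S, L j s := by
  classical
  choose K hK using h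
  refine ⟨∑ j ∈ S, K j, fun s => ?_⟩
  rw [norm_prod, Finset.sum_mul, Real.exp_sum]
  exact Finset.prod_le_prod (fun _ _ => norm_nonneg _) fun j _ => hK j s

/-- the data of the product -/
theorem Family.rd (F : Family l r N b c X d) : ∃ w : ℂ, RD (PL X d) w (lamF c d) (dF l d) (mF r d) (mF r d - zF l d) (QF N d) (μF l d) := by
  have hA : ∀ j, ∃ w, Adm w (X j) (cser (r j) (N j) ((l j).map fun a : ℝ => (a : ℂ)) (b j)) := fun j => adm_raw (F.one j).raw
  choose w hw using hA
  refine ⟨∏ j, w j ^ d j, ?_, ?_, ?_, ?_, ?_, ?_, ?_, ?_, ?_⟩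
  · rw [norm_prod]
    refine Finset.prod_eq_one fun j _ => ?_
    rw [norm_pow, (hw j).norm, one_pow]
  · unfold PL
    exact Differentiable.fun_finsetProd fun j _ => ((hw j).diff.pow (d j))
  · intro s
    unfold PL
    rw [map_prod, ← Finset.prod_mul_distrib]
    refine Finset.prod_congr rfl fun j _ => ?_
    rw [(hw j).fe, map_pow, mul_pow]
  · unfold PL
    exact gr_prod Finset.univ fun j => gr_pow (hw j).gr (d j)
  · unfold PL
    exact Finset.prod_ne_zero_iff.2 fun j _ => pow_ne_zero _ (F.one j).one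
  · intro s hs
    unfold PL
    exact Finset.prod_ne_zero_iff.2 fun j _ => pow_ne_zero _ ((F.one j).ne hs)
  · intro n
    unfold lamF dF
    rw [abs_mul, abs_of_nonneg ArithmeticFunction.vonMangoldt_nonneg, mul_comm]
    refine mul_le_mul_of_nonneg_right ?_ ArithmeticFunction.vonMangoldt_nonneg
    refine (Complex.abs_re_le_norm _).trans ((norm_sum_le _ _).trans (Finset.sum_le_sum fun j _ => ?_))
    rw [norm_mul, Complex.norm_natCast]
    exact mul_le_mul_of_nonneg_left ((F.one j).c_le n) (Nat.cast_nonneg _)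
  · intro x
    unfold μF
    split_ifs with h
    · norm_num
    · exact lt_of_le_of_ne ((F.one x.1).nonneg _ (List.get_mem _ _)) (Ne.symm h)
  · intro s hs
    have hs0 : 0 < s.re := by linarith
    have e0 : logDeriv (PL X d) s = ∑ j, (d j : ℂ) * logDeriv (X j) s := by
      unfold PL
      rw [logDeriv_prod (f := fun (j : J) (s : ℂ) => X j s ^ d j) (fun j _ => pow_ne_zero _ ((F.one j).ne hs))
        (fun j _ => (((hw j).diff.pow (d j)) s))]
      refine Finset.sum_congr rfl fun j _ => ?_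
      rw [logDeriv_fun_pow ((hw j).diff s)]
    have e1 : LSeries (fun n => (lamF c d n : ℂ)) s =
        ∑ j, (d j : ℂ) * LSeries (fun n => ((ArithmeticFunction.vonMangoldt n : ℝ) : ℂ) * c j n) s := by
      have h1 : ∀ j, LSeriesSummable (fun n => ((ArithmeticFunction.vonMangoldt n : ℝ) : ℂ) * c j n) s := fun j =>
        Pool.Agent.W672.UN.c_summable _ (c j) (F.one j).raw.cb hs
      have h2 : ∀ j, HasSum (fun n => (d j : ℂ) * LSeries.term (fun n => ((ArithmeticFunction.vonMangoldt n : ℝ) : ℂ) * c j n) s n)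
          ((d j : ℂ) * LSeries (fun n => ((ArithmeticFunction.vonMangoldt n : ℝ) : ℂ) * c j n) s) := fun j => (h1 j).hasSum.mul_left _
      have h3 := hasSum_sum (s := Finset.univ) fun j _ => h2 j
      rw [← h3.tsum_eq]
      unfold LSeries
      refine tsum_congr fun n => ?_
      simp only [LSeries.term_def]
      split_ifs
      · simp
      · have h4 : (lamF c d n : ℂ) = ((ArithmeticFunction.vonMangoldt n : ℝ) : ℂ) * ∑ j, (d j : ℂ) * c j n := by
          unfold lamF
          push_cast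
          rcases eq_or_ne (ArithmeticFunction.vonMangoldt n) 0 with h0 | h0
          · rw [h0]
            simp
          · congr 1
            apply Complex.ext
            · simp
            · rw [F.real n h0]
              simp
        rw [h4, Finset.mul_sum, Finset.sum_div]
        refine Finset.sum_congr rfl fun j _ => ?_
        ring
    have e2 : ∑ x : JF l d, GG (μF l d x) s = ∑ j, (d j : ℂ) * ∑ k : Fin (l j).length, GG ((l j).get k) s + (zF l d : ℂ) / s := by
      have h1 : ∀ x : JF l d, GG (μF l d x) s = GG ((l x.1).get x.2.2) s + ((if (l x.1).get x.2.2 = 0 then 1 else 0 : ℝ) : ℂ) / s := by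
        intro x
        unfold μF
        split_ifs with h
        · rw [h, GG_two hs0]
          push_cast
          ring
        · simp
      rw [Finset.sum_congr rfl fun x _ => h1 x, Finset.sum_add_distrib, ← Finset.sum_div]
      congr 1
      · rw [Fintype.sum_sigma]
        refine Finset.sum_congr rfl fun j _ => ?_
        rw [Fintype.sum_prod_type]
        simp
      · unfold zF
        push_cast
        rfl
    rw [e0, e1, e2]
    have h5 : ∀ j, logDeriv (X j) s = (r j : ℂ) / s + r j / (s - 1) + Real.log (N j) / 2 +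
      ∑ k : Fin (l j).length, GG ((l j).get k) s - LSeries (fun n => ((ArithmeticFunction.vonMangoldt n : ℝ) : ℂ) * c j n) s :=
      fun j => (F.one j).logD hs
    simp_rw [h5]
    unfold mF QF
    push_cast
    simp_rw [mul_sub, mul_add, Finset.sum_sub_distrib, Finset.sum_add_distrib]
    rw [sub_div, Finset.sum_div, Finset.sum_div]
    have e3 : ∀ x : ℂ, ∑ j, (d j : ℂ) * ((r j : ℂ) / x) = ∑ j, (d j : ℂ) * r j / x := fun x =>
      Finset.sum_congr rfl fun j _ => by ring
    rw [e3, e3]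
    ring

end family

end Run7.h278.LG
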