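import Pool.Agent.Run7.h278.LG.Cor
import Pool.Agent.Run7.h278.LG.DirPow

set_option autoImplicit false

/-!
# Correlation of the prime sums of two families of L-functions
-/

namespace Run7.h278.LG

open Complex Filter Topology MeasureTheory Set Run7.h278.LM Run7.h278.WL DirichletCharacter
open scoped ENNReal

section

variable (T T' : Set ℝ) (W W' : ℝ → ℝ)

/-- the mean of the product of two sums -/
theorem cov11 (hT : ∀ t ∈ T, 0 < t) (hT' : ∀ t ∈ T', 0 < t) (hw : ∀ t : T, 0 < W t) (hs : Summable fun t : T => W t)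
    (hw' : ∀ t : T', 0 < W' t) (hs' : Summable fun t : T' => W' t) :
    Tendsto (Am fun u => FI (fun t : T => W t) (fun t : T => (t : ℝ)) u * FI (fun t : T' => W' t) (fun t : T' => (t : ℝ)) u) (𝓝[>] 0)
      (𝓝 (∑' t : ↥(T ∩ T'), 2 * (W t * W' t))) := by
  classical
  have r1 : ∀ u : ℝ, HasSum (fun y => (xx (fun t : T => W t) y : ℂ) * cexp (I * tt (fun t : T => (t : ℝ)) y * u))
      (FI (fun t : T => W t) (fun t : T => (t : ℝ)) u : ℂ) := by
    intro u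
    rw [← FI_rep (fun t : T => (t : ℝ)) hw hs u]
    refine Summable.hasSum ?_
    rw [← summable_norm_iff]
    refine (xx_sum hs).congr fun y => ?_
    rw [norm_mul, LM.norm_I, Complex.norm_real, Real.norm_eq_abs, abs_of_pos (xx_pos hw y), mul_one]
  have r2 : ∀ u : ℝ, HasSum (fun y => (xx (fun t : T' => W' t) y : ℂ) * cexp (I * tt (fun t : T' => (t : ℝ)) y * u))
      (FI (fun t : T' => W' t) (fun t : T' => (t : ℝ)) u : ℂ) := by
    intro u
    rw [← FI_rep (fun t : T' => (t : ℝ)) hw' hs' u]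
    refine Summable.hasSum ?_
    rw [← summable_norm_iff]
    refine (xx_sum hs').congr fun y => ?_
    rw [norm_mul, LM.norm_I, Complex.norm_real, Real.norm_eq_abs, abs_of_pos (xx_pos hw' y), mul_one]
  have h1 := prod_mean (xx_pos hw) (xx_sum hs) (xx_pos hw') (xx_sum hs') r1 r2
  have s12 := (xx_sum hs).mul_of_nonneg (xx_sum hs') (fun a => (xx_pos hw a).le) (fun a => (xx_pos hw' a).le)
  set g : (T ⊕ T) × (T' ⊕ T') → ℝ := fun x => if tt (fun t : T => (t : ℝ)) x.1 + tt (fun t : T' => (t : ℝ)) x.2 = 0 then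
    xx (fun t : T => W t) x.1 * xx (fun t : T' => W' t) x.2 else 0 with hg
  have hgs : Summable g := Summable.of_nonneg_of_le (fun x => by
    rw [hg]
    simp only
    split_ifs
    · exact (mul_pos (xx_pos hw _) (xx_pos hw' _)).le
    · exact le_refl 0) (fun x => by
    rw [hg]
    simp only
    split_ifs
    · exact le_refl _
    · exact (mul_pos (xx_pos hw _) (xx_pos hw' _)).le) s12
  have e : ∑' x, g x = ∑' t : ↥(T ∩ T'), 2 * (W t * W' t) := by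
    set ψ : ↥(T ∩ T') ⊕ ↥(T ∩ T') → (T ⊕ T) × (T' ⊕ T') := Sum.elim (fun t => (Sum.inl ⟨t.1, t.2.1⟩, Sum.inr ⟨t.1, t.2.2⟩))
      (fun t => (Sum.inr ⟨t.1, t.2.1⟩, Sum.inl ⟨t.1, t.2.2⟩)) with hψ
    have hinj : Function.Injective ψ := by
      rintro (a | a) (b | b) h <;> simp only [hψ, Sum.elim_inl, Sum.elim_inr, Prod.mk.injEq, Sum.inl.injEq, Sum.inr.injEq, Subtype.mk.injEq] at h
      · rw [Subtype.ext h.1]
      · exact absurd h.1 (by simp)
      · exact absurd h.1 (by simp)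
      · rw [Subtype.ext h.1]
    have hsupp : Function.support g ⊆ range ψ := by
      intro x hx
      have hx' : g x ≠ 0 := hx
      have h0 : tt (fun t : T => (t : ℝ)) x.1 + tt (fun t : T' => (t : ℝ)) x.2 = 0 := by
        by_contra hc
        apply hx'
        rw [hg]
        simp only
        rw [if_neg hc]
      obtain ⟨a, b⟩ := x
      rcases a with a | a <;> rcases b with b | b
      · exfalso
        have h2 : (a : ℝ) + (b : ℝ) = 0 := h0
        linarith [hT a a.2, hT' b b.2]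
      · have h2 : (a : ℝ) + -(b : ℝ) = 0 := h0
        have h3 : (b : ℝ) = a := by linarith
        refine ⟨Sum.inl ⟨a, a.2, by rw [← h3]; exact b.2⟩, ?_⟩
        rw [hψ]
        refine Prod.ext rfl ?_
        exact congrArg Sum.inr (Subtype.ext h3.symm)
      · have h2 : -(a : ℝ) + (b : ℝ) = 0 := h0
        have h3 : (b : ℝ) = a := by linarith
        refine ⟨Sum.inr ⟨a, a.2, by rw [← h3]; exact b.2⟩, ?_⟩
        rw [hψ]
        refine Prod.ext rfl ?_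
        exact congrArg Sum.inl (Subtype.ext h3.symm)
      · exfalso
        have h2 : -(a : ℝ) + -(b : ℝ) = 0 := h0
        linarith [hT a a.2, hT' b b.2]
    rw [← hinj.tsum_eq hsupp]
    have hval : ∀ z, g (ψ z) = Sum.elim (fun t : ↥(T ∩ T') => W t * W' t) (fun t : ↥(T ∩ T') => W t * W' t) z := by
      rintro (t | t)
      · have h2 : (t : ℝ) + -(t : ℝ) = 0 := by ring
        exact if_pos h2
      · have h2 : -(t : ℝ) + (t : ℝ) = 0 := by ring
        exact if_pos h2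
    have hgψ : Summable fun z => g (ψ z) := hgs.comp_injective hinj
    simp_rw [hval] at hgψ ⊢
    have hw2 : Summable fun t : ↥(T ∩ T') => W t * W' t := hgψ.comp_injective Sum.inl_injective
    have h3 := HasSum.sum (f := Sum.elim (fun t : ↥(T ∩ T') => W t * W' t) (fun t : ↥(T ∩ T') => W t * W' t)) hw2.hasSum hw2.hasSum
    rw [h3.tsum_eq, tsum_mul_left]
    ring
  rw [← e]
  exact h1

end

section

variable {J : Type} [Fintype J] {l : J → List ℝ} {r : J → ℕ} {N : J → ℝ} {b c : J → ℕ → ℂ} {X : J → ℂ → ℂ} {d : J → ℕ}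
variable {J' : Type} [Fintype J'] {l' : J' → List ℝ} {r' : J' → ℕ} {N' : J' → ℝ} {b' c' : J' → ℕ → ℂ} {X' : J' → ℂ → ℂ} {d' : J' → ℕ}
variable (F : Family l r N b c X d) (F' : Family l' r' N' b' c' X' d')

/-- the ordinates as a set -/
def TS (X : J → ℂ → ℂ) : Set ℝ := {t : ℝ | 0 < t ∧ ∃ j, X j (1 / 2 + t * I) = 0}

include F F'

/-- **Correlation of two families.** -/
theorem fam_cor (hd : ∀ j, 1 ≤ d j) (hd' : ∀ j, 1 ≤ d' j) {lam lam' : ℕ → ℝ} {e e' : ℝ}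
    (hl : ∀ n, |lam n| ≤ e * ArithmeticFunction.vonMangoldt n) (hC : Cl (lamF c d) lam)
    (hl' : ∀ n, |lam' n| ≤ e' * ArithmeticFunction.vonMangoldt n) (hC' : Cl (lamF c' d') lam') :
    ∃ C C' : ℝ, Tendsto (fun σ : ℝ => mF r d / (σ - 1) - RS lam σ) (𝓝[>] 1) (𝓝 (C - mF r d)) ∧
      Tendsto (fun σ : ℝ => mF r' d' / (σ - 1) - RS lam' σ) (𝓝[>] 1) (𝓝 (C' - mF r' d')) ∧
      ((∃ B : ℝ, ∀ u, 0 < u → |aL lam (mF r d) C u| ≤ B) ↔ GRHf X) ∧
      ((∃ B : ℝ, ∀ u, 0 < u → |aL lam' (mF r' d') C' u| ≤ B) ↔ GRHf X') ∧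
      (GRHf X → GRHf X' →
        Tendsto (Am fun u => (aL lam (mF r d) C u - 4 * rO X d) * (aL lam' (mF r' d') C' u - 4 * rO X' d')) (𝓝[>] 0)
          (𝓝 (∑' t : ↥(TS X ∩ TS X'), 2 * ((MO X d t / (1 / 4 + (t : ℝ) ^ 2)) * (MO X' d' t / (1 / 4 + (t : ℝ) ^ 2))))) ∧
        ∀ p q : ℕ, ∃ E E₁ E₂ : ℝ,
          Tendsto (Am fun u => (aL lam (mF r d) C u - 4 * rO X d) ^ p * (aL lam' (mF r' d') C' u - 4 * rO X' d') ^ q) (𝓝[>] 0) (𝓝 E) ∧
          Tendsto (Am fun u => (aL lam (mF r d) C u - 4 * rO X d) ^ p) (𝓝[>] 0) (𝓝 E₁) ∧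
          Tendsto (Am fun u => (aL lam' (mF r' d') C' u - 4 * rO X' d') ^ q) (𝓝[>] 0) (𝓝 E₂) ∧
          0 ≤ E₁ * E₂ ∧ E₁ * E₂ ≤ E ∧
          (E = E₁ * E₂ ↔ ∀ x ∈ Vl (fun t : TS X => (t : ℝ)) p, x ∈ Vl (fun t : TS X' => (t : ℝ)) q → x = 0)) ∧
      ((∃ B : ℝ, ∀ u, 0 < u → |aL lam (mF r d) C u| ≤ B) ∧ (∃ B : ℝ, ∀ u, 0 < u → |aL lam' (mF r' d') C' u| ≤ B) ∧
        (∀ φ ψ : ℝ → ℝ, Continuous φ → Continuous ψ →
          Tendsto (Cv (fun u => φ (aL lam (mF r d) C u)) (fun u => ψ (aL lam' (mF r' d') C' u))) (𝓝[>] 0) (𝓝 0)) ↔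
        GRHf X ∧ GRHf X' ∧ ∀ x : ℝ, x ∈ AddSubgroup.closure (TS X) → x ∈ AddSubgroup.closure (TS X') → x = 0) := by
  obtain ⟨C, h1, h2, h3⟩ := F.pack hd hl hC
  obtain ⟨C', h1', h2', h3'⟩ := F'.pack hd' hl' hC'
  have g : (∃ B : ℝ, ∀ u, 0 < u → |aL lam (mF r d) C u| ≤ B) ↔ GRHf X := by
    constructor
    · intro h
      by_contra hG
      obtain ⟨b', K', δ₀, q1, q2, q3, q4⟩ := h3 hG
      exact not_bdd q1 q2 (half_pos q3) (q4 _ (half_pos q3) (by linarith)) h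
    · intro hG
      obtain ⟨B, hB⟩ := h2 hG
      exact ⟨B, hB.ba⟩
  have g' : (∃ B : ℝ, ∀ u, 0 < u → |aL lam' (mF r' d') C' u| ≤ B) ↔ GRHf X' := by
    constructor
    · intro h
      by_contra hG
      obtain ⟨b', K', δ₀, q1, q2, q3, q4⟩ := h3' hG
      exact not_bdd q1 q2 (half_pos q3) (q4 _ (half_pos q3) (by linarith)) h
    · intro hG
      obtain ⟨B, hB⟩ := h2' hG
      exact ⟨B, hB.ba⟩
  have n1 : GRHf X → ∃ B : ℝ, Nr (aL lam (mF r d) C) (fun u => 4 * rO X d + FI (fun t : TS X => MO X d t / (1 / 4 + (t : ℝ) ^ 2))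
      (fun t : TS X => (t : ℝ)) u) B := by
    intro hG
    obtain ⟨B, hB⟩ := h2 hG
    have hF : Ff (fL (PL X d)) = fun u => 4 * rO X d + FI (wT X d) (fun t : TO X => (t : ℝ)) u := by
      funext u
      have h4 := F.Ff_T hd hG 1 u
      rw [one_mul] at h4
      rw [h4]
      simp_rw [one_mul]
      ring
    rw [hF] at hB
    exact ⟨B, hB⟩
  have n2 : GRHf X' → ∃ B : ℝ, Nr (aL lam' (mF r' d') C') (fun u => 4 * rO X' d' + FI (fun t : TS X' => MO X' d' t / (1 / 4 + (t : ℝ) ^ 2))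
      (fun t : TS X' => (t : ℝ)) u) B := by
    intro hG
    obtain ⟨B, hB⟩ := h2' hG
    have hF : Ff (fL (PL X' d')) = fun u => 4 * rO X' d' + FI (wT X' d') (fun t : TO X' => (t : ℝ)) u := by
      funext u
      have h4 := F'.Ff_T hd' hG 1 u
      rw [one_mul] at h4
      rw [h4]
      simp_rw [one_mul]
      ring
    rw [hF] at hB
    exact ⟨B, hB⟩
  have w1 : ∀ t : TS X, 0 < MO X d t / (1 / 4 + (t : ℝ) ^ 2) := fun t => F.wT_pos hd t
  have w2 : ∀ t : TS X', 0 < MO X' d' t / (1 / 4 + (t : ℝ) ^ 2) := fun t => F'.wT_pos hd' t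
  have s1 : GRHf X → Summable fun t : TS X => MO X d t / (1 / 4 + (t : ℝ) ^ 2) := fun hG => F.wT_sum hd hG
  have s2 : GRHf X' → Summable fun t : TS X' => MO X' d' t / (1 / 4 + (t : ℝ) ^ 2) := fun hG => F'.wT_sum hd' hG
  refine ⟨C, C', h1, h1', g, g', fun hG hG' => ⟨?_, fun p q => ?_⟩, ?_⟩
  · obtain ⟨B, hB⟩ := n1 hG
    obtain ⟨B', hB'⟩ := n2 hG'
    refine hB.comp2 hB' (φ := fun x => x - 4 * rO X d) (ψ := fun x => x - 4 * rO X' d') (by fun_prop) (by fun_prop) ?_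
    simp only [add_sub_cancel_left]
    exact cov11 (TS X) (TS X') (fun t => MO X d t / (1 / 4 + t ^ 2)) (fun t => MO X' d' t / (1 / 4 + t ^ 2))
      (fun t ht => ht.1) (fun t ht => ht.1) w1 (s1 hG) w2 (s2 hG')
  · obtain ⟨B, hB⟩ := n1 hG
    obtain ⟨B', hB'⟩ := n2 hG'
    have k1 := joint hB hB' w1 (s1 hG) w2 (s2 hG') p q
    have k2 := E2_ge (fun t : TS X => (t : ℝ)) (fun t : TS X' => (t : ℝ)) w1 (s1 hG) w2 (s2 hG') p q
    obtain ⟨m1, m2, -⟩ := Ek_Mk (fun t : TS X => (t : ℝ)) w1 (s1 hG) p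
    obtain ⟨m1', m2', -⟩ := Ek_Mk (fun t : TS X' => (t : ℝ)) w2 (s2 hG') q
    exact ⟨_, _, _, k1.1, mom_lim _ hB w1 (s1 hG) p, mom_lim _ hB' w2 (s2 hG') q, mul_nonneg (m1.trans m2) (m1'.trans m2'), k2.1, k2.2⟩
  · have hr : ∀ S : Set ℝ, range (fun t : S => (t : ℝ)) = S := fun S => Subtype.range_coe
    constructor
    · rintro ⟨a1, a2, a3⟩
      have hG := g.1 a1
      have hG' := g'.1 a2
      obtain ⟨B, hB⟩ := n1 hG
      obtain ⟨B', hB'⟩ := n2 hG'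
      have := (indep hB hB' w1 (s1 hG) w2 (s2 hG')).1 a3
      rw [hr, hr] at this
      exact ⟨hG, hG', this⟩
    · rintro ⟨hG, hG', h⟩
      obtain ⟨B, hB⟩ := n1 hG
      obtain ⟨B', hB'⟩ := n2 hG'
      refine ⟨g.2 hG, g'.2 hG', (indep hB hB' w1 (s1 hG) w2 (s2 hG')).2 ?_⟩
      rw [hr, hr]
      exact h

end

end Run7.h278.LG
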