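import Pool.Agent.Run7.h278.LG.Off

set_option autoImplicit false

/-!
# Perturbation of the coefficients
-/

namespace Run7.h278.LG

open Complex Filter Topology MeasureTheory Set Run7.h278.LM Run7.h278.WL
open scoped ENNReal
open Pool.Agent.H24R2.JP (Par)

/-- the real Dirichlet series -/
noncomputable def RS (lam : ℕ → ℝ) (σ : ℝ) : ℝ := ∑' n : ℕ, lam n / (n : ℝ) ^ σ

theorem LS_real {lam : ℕ → ℝ} (h0 : lam 0 = 0) (σ : ℝ) : LSeries (fun n => (lam n : ℂ)) σ = ((RS lam σ : ℝ) : ℂ) := by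
  unfold LSeries RS
  rw [Complex.ofReal_tsum]
  refine tsum_congr fun n => ?_
  rw [LSeries.term_def]
  split_ifs with h
  · rw [h, h0]
    simp
  · push_cast
    rw [Complex.ofReal_cpow (Nat.cast_nonneg n)]
    push_cast
    rfl

/-- the two functions are close -/
structure Cl (lam lam' : ℕ → ℝ) : Prop where
  sum : Summable fun n : ℕ => |lam n - lam' n| / (n : ℝ) ^ (1 / 4 : ℝ)

section cmp

variable {lam lam' : ℕ → ℝ} {d d' : ℝ} (hl : ∀ n, |lam n| ≤ d * ArithmeticFunction.vonMangoldt n)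
  (hl' : ∀ n, |lam' n| ≤ d' * ArithmeticFunction.vonMangoldt n) (hC : Cl lam lam')

/-- the difference of the constants -/
noncomputable def dc (lam lam' : ℕ → ℝ) : ℝ := ∑' n : ℕ, (lam n - lam' n) / n

include hl hl' hC

theorem dc_hasSum : HasSum (fun n : ℕ => (lam n - lam' n) / n) (dc lam lam') := by
  refine Summable.hasSum (Summable.of_norm_bounded hC.sum fun n => ?_)
  rcases Nat.eq_zero_or_pos n with h | h
  · rw [h, lam_zero hl, lam_zero hl']
    simp
  · have hn : (1 : ℝ) ≤ n := by exact_mod_cast h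
    rw [norm_div, Real.norm_eq_abs, Real.norm_eq_abs, abs_of_nonneg (by positivity : (0 : ℝ) ≤ n)]
    have h1 : (n : ℝ) ^ (1 / 4 : ℝ) ≤ n := by
      calc (n : ℝ) ^ (1 / 4 : ℝ) ≤ (n : ℝ) ^ (1 : ℝ) := Real.rpow_le_rpow_of_exponent_le hn (by norm_num)
        _ = n := Real.rpow_one _
    have h2 : 0 < (n : ℝ) ^ (1 / 4 : ℝ) := by positivity
    gcongr

theorem cmp {u : ℝ} (m c : ℝ) : |aL lam' m (c + dc lam lam') u - aL lam m c u| ≤
    (∑' n : ℕ, |lam n - lam' n| / (n : ℝ) ^ (1 / 4 : ℝ)) * Real.exp (-u / 4) := by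
  have h1 := (dc_hasSum hl hl' hC).sub ((SL_hasSum hl u).sub (SL_hasSum hl' u))
  have e : aL lam' m (c + dc lam lam') u - aL lam m c u = Real.exp (u / 2) * (dc lam lam' - (SL lam u - SL lam' u)) := by
    rw [aL_eq, aL_eq]
    ring
  rw [e, abs_mul, abs_of_pos (Real.exp_pos _), ← h1.tsum_eq]
  have hb : ∀ n : ℕ, ‖(lam n - lam' n) / n - (sl lam n u - sl lam' n u)‖ ≤
      Real.exp (-(3 / 4) * u) * (|lam n - lam' n| / (n : ℝ) ^ (1 / 4 : ℝ)) := by
    intro n
    unfold sl
    have e2 : (lam n - lam' n) / n - (lam n * max (1 / (n : ℝ) - Real.exp (-u)) 0 - lam' n * max (1 / (n : ℝ) - Real.exp (-u)) 0) =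
        (lam n - lam' n) * (1 / n - max (1 / (n : ℝ) - Real.exp (-u)) 0) := by ring
    rw [e2, norm_mul, Real.norm_eq_abs, Real.norm_eq_abs]
    rcases Nat.eq_zero_or_pos n with h | h
    · rw [h, lam_zero hl, lam_zero hl']
      simp
    have hn : (0 : ℝ) < n := by exact_mod_cast h
    have e3 : 1 / (n : ℝ) - max (1 / (n : ℝ) - Real.exp (-u)) 0 = min (Real.exp (-u)) (1 / n) := by
      rcases le_total (1 / (n : ℝ) - Real.exp (-u)) 0 with h2 | h2
      · rw [max_eq_right h2, min_eq_right (by linarith)]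
        ring
      · rw [max_eq_left h2, min_eq_left (by linarith)]
        ring
    have h3 : min (Real.exp (-u)) (1 / (n : ℝ)) ≤ Real.exp (-(3 / 4) * u) * (1 / (n : ℝ) ^ (1 / 4 : ℝ)) := by
      set x := min (Real.exp (-u)) (1 / (n : ℝ)) with hx
      have hx0 : 0 < x := lt_min (Real.exp_pos _) (by positivity)
      have h4 : x = x ^ (3 / 4 : ℝ) * x ^ (1 / 4 : ℝ) := by
        rw [← Real.rpow_add hx0]
        norm_num
      have h5 : x ^ (3 / 4 : ℝ) ≤ Real.exp (-(3 / 4) * u) := by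
        calc x ^ (3 / 4 : ℝ) ≤ Real.exp (-u) ^ (3 / 4 : ℝ) := Real.rpow_le_rpow hx0.le (min_le_left _ _) (by norm_num)
          _ = Real.exp (-(3 / 4) * u) := by
            rw [← Real.exp_mul]
            congr 1
            ring
      have h6 : x ^ (1 / 4 : ℝ) ≤ 1 / (n : ℝ) ^ (1 / 4 : ℝ) := by
        calc x ^ (1 / 4 : ℝ) ≤ (1 / (n : ℝ)) ^ (1 / 4 : ℝ) := Real.rpow_le_rpow hx0.le (min_le_right _ _) (by norm_num)
          _ = _ := by rw [Real.div_rpow (by norm_num) hn.le, Real.one_rpow]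
      rw [h4]
      exact mul_le_mul h5 h6 (by positivity) (Real.exp_pos _).le
    rw [e3, abs_of_nonneg (le_min (Real.exp_pos _).le (by positivity))]
    calc |lam n - lam' n| * min (Real.exp (-u)) (1 / (n : ℝ)) ≤ |lam n - lam' n| * (Real.exp (-(3 / 4) * u) * (1 / (n : ℝ) ^ (1 / 4 : ℝ))) := by
          gcongr
      _ = _ := by ring
  have h2 := hC.sum.mul_left (Real.exp (-(3 / 4) * u))
  have h3 : Summable fun n : ℕ => ‖(lam n - lam' n) / n - (sl lam n u - sl lam' n u)‖ :=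
    Summable.of_nonneg_of_le (fun _ => norm_nonneg _) hb h2
  have h4 : |∑' n : ℕ, ((lam n - lam' n) / n - (sl lam n u - sl lam' n u))| ≤
      Real.exp (-(3 / 4) * u) * ∑' n : ℕ, |lam n - lam' n| / (n : ℝ) ^ (1 / 4 : ℝ) := by
    rw [← tsum_mul_left, ← Real.norm_eq_abs]
    exact (norm_tsum_le_tsum_norm h3).trans (h3.tsum_le_tsum hb h2)
  calc Real.exp (u / 2) * |∑' n : ℕ, ((lam n - lam' n) / n - (sl lam n u - sl lam' n u))| ≤
        Real.exp (u / 2) * (Real.exp (-(3 / 4) * u) * ∑' n : ℕ, |lam n - lam' n| / (n : ℝ) ^ (1 / 4 : ℝ)) := by gcongr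
    _ = _ := by
      rw [← mul_assoc, ← Real.exp_add, mul_comm]
      congr 2
      ring

theorem dc_lim : Tendsto (fun σ : ℝ => RS lam σ - RS lam' σ) (𝓝[>] 1) (𝓝 (dc lam lam')) := by
  have h1 : Tendsto (fun σ : ℝ => ∑' n : ℕ, (lam n - lam' n) / (n : ℝ) ^ σ) (𝓝[>] 1) (𝓝 (∑' n : ℕ, (lam n - lam' n) / n)) := by
    refine tendsto_tsum_of_dominated_convergence hC.sum (fun n => ?_) ?_
    · rcases Nat.eq_zero_or_pos n with h | h
      · rw [h, lam_zero hl, lam_zero hl']
        simp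
      have hn : (0 : ℝ) < n := by exact_mod_cast h
      have h2 : ContinuousAt (fun σ : ℝ => (lam n - lam' n) / (n : ℝ) ^ σ) 1 := by
        have h3 : ContinuousAt (fun σ : ℝ => (n : ℝ) ^ σ) 1 := Real.continuousAt_const_rpow hn.ne'
        exact continuousAt_const.div h3 (by positivity)
      have h3 := h2.tendsto.mono_left (nhdsWithin_le_nhds (s := Ioi (1 : ℝ)))
      rwa [Real.rpow_one] at h3
    · filter_upwards [self_mem_nhdsWithin] with σ hσ n
      have hσ' : (1 : ℝ) < σ := hσ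
      rcases Nat.eq_zero_or_pos n with h | h
      · rw [h, lam_zero hl, lam_zero hl']
        simp
      have hn : (1 : ℝ) ≤ n := by exact_mod_cast h
      have hn0 : (0 : ℝ) < n := by linarith
      rw [norm_div, Real.norm_eq_abs, Real.norm_eq_abs, abs_of_nonneg (Real.rpow_nonneg hn0.le _)]
      have h1 : (n : ℝ) ^ (1 / 4 : ℝ) ≤ (n : ℝ) ^ σ := Real.rpow_le_rpow_of_exponent_le hn (by linarith)
      have h2 : 0 < (n : ℝ) ^ (1 / 4 : ℝ) := by positivity
      gcongr
  refine h1.congr' ?_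
  filter_upwards [self_mem_nhdsWithin] with σ hσ
  have hσ' : (1 : ℝ) < σ := hσ
  have hs : ∀ {lam : ℕ → ℝ} {d : ℝ}, (∀ n, |lam n| ≤ d * ArithmeticFunction.vonMangoldt n) → Summable fun n : ℕ => lam n / (n : ℝ) ^ σ := by
    intro lam d hl
    have h2 := (lam_summable hl (s := (σ : ℂ)) (by rw [Complex.ofReal_re]; exact hσ')).norm
    refine Summable.of_norm_bounded h2 fun n => ?_
    rw [LSeries.norm_term_eq]
    split_ifs with h
    · rw [h, lam_zero hl]
      simp
    · rw [norm_div, Complex.norm_real, Complex.ofReal_re]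
      have : (0 : ℝ) ≤ (n : ℝ) ^ σ := by positivity
      rw [Real.norm_eq_abs ((n : ℝ) ^ σ), abs_of_nonneg this]
  unfold RS
  rw [← (hs hl).tsum_sub (hs hl')]
  refine tsum_congr fun n => ?_
  ring

end cmp

section main

variable {J : Type} [Fintype J] {f : ℂ → ℂ} {lam : ℕ → ℝ} {d m m' Q : ℝ} {μ : J → ℝ}
variable (D : LD f lam d m m' Q μ)

include D

theorem cL_lim_real : Tendsto (fun σ : ℝ => m / (σ - 1) - RS lam σ) (𝓝[>] 1) (𝓝 ((cL f m m' Q μ).re - m)) := by
  have h1 := (Complex.continuous_re.tendsto _).comp (cL_lim D)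
  rw [Complex.sub_re, Complex.ofReal_re] at h1
  refine h1.congr fun σ => ?_
  simp only [Function.comp_apply]
  rw [LS_real (lam_zero D.lam_le)]
  have e1 : (m : ℂ) / (σ - 1) - ((RS lam σ : ℝ) : ℂ) = ((m / (σ - 1) - RS lam σ : ℝ) : ℂ) := by push_cast; rfl
  rw [e1, Complex.ofReal_re]

theorem aL_mean' (hRH : RHf f) {lam' : ℕ → ℝ} {d' : ℝ} (hl' : ∀ n, |lam' n| ≤ d' * ArithmeticFunction.vonMangoldt n)
    {c' K' : ℝ} (hK' : 0 ≤ K') (hcl : ∀ u : ℝ, |aL lam' m c' u - aL lam m (cL f m m' Q μ).re u| ≤ K' * Real.exp (-u / 4))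
    {s : ℝ} (hs : 0 < s) {L : ℝ}
    (h : Tendsto (Am fun u => Real.cosh (s * Ff f u)) (𝓝[>] 0) (𝓝 L)) :
    Tendsto (ML lam' m c' s) (𝓝[>] 0) (𝓝 (ENNReal.ofReal L)) ∧
      ∀ δ : ℝ, 0 < δ → ML lam' m c' s δ < ⊤ := by
  obtain ⟨K, hK, hn0⟩ := near D hRH
  obtain ⟨B0, hB0, hF0, ha0⟩ := aL_bdd D hRH
  set bb : ℝ → ℝ := aL lam m (cL f m m' Q μ).re with hbb0
  set aa : ℝ → ℝ := aL lam' m c' with haa
  set B := B0 + K' with hBd
  have hB : 0 ≤ B := by positivity
  have hF : ∀ u, |Ff f u| ≤ B := fun u => by linarith [hF0 u]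
  have he1 : ∀ u : ℝ, 0 < u → Real.exp (-u / 4) ≤ 1 := fun u hu => by
    rw [Real.exp_le_one_iff]
    linarith
  have ha : ∀ u : ℝ, 0 < u → |aa u| ≤ B := by
    intro u hu
    have h1 := hcl u
    have h2 := ha0 u hu
    have h3 := he1 u hu
    have h4 : |aa u| ≤ |aa u - bb u| + |bb u| := by
      calc |aa u| = |(aa u - bb u) + bb u| := by rw [sub_add_cancel]
        _ ≤ _ := abs_add_le _ _
    nlinarith
  have hn : ∀ u : ℝ, 0 < u → |aa u - Ff f u| ≤ K * ((1 + u) * Real.exp (-u / 2)) + K' * Real.exp (-u / 4) := by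
    intro u hu
    calc |aa u - Ff f u| = |(bb u - Ff f u) + (aa u - bb u)| := by
          congr 1
          ring
      _ ≤ |bb u - Ff f u| + |aa u - bb u| := abs_add_le _ _
      _ ≤ _ := add_le_add (hn0 u hu) (hcl u)
  have aa_cont : Continuous aa := aL_cont hl' m _
  have hbb : ∀ x : ℝ, |x| ≤ B → |Real.cosh (s * x)| ≤ Real.cosh (s * B) := by
    intro x hx
    rw [abs_of_pos (Real.cosh_pos _), Real.cosh_le_cosh, abs_mul, abs_mul, abs_of_pos hs, abs_of_nonneg hB]
    gcongr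
  have hc1 : ContinuousOn (fun u => Real.cosh (s * aa u)) (Ioi 0) :=
    (Real.continuous_cosh.comp (continuous_const.mul aa_cont)).continuousOn
  have hc2 : ContinuousOn (fun u => Real.cosh (s * Ff f u)) (Ioi 0) :=
    (Real.continuous_cosh.comp (continuous_const.mul (Ff_cont D))).continuousOn
  have hdiff : Tendsto (fun u => Real.cosh (s * aa u) - Real.cosh (s * Ff f u)) atTop (𝓝 0) := by
    have h1 : Tendsto (fun u : ℝ => Real.cosh (s * B) * (s * (K * ((1 + u) * Real.exp (-u / 2)) + K' * Real.exp (-u / 4)))) atTop (𝓝 0) := by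
      have h2 : Tendsto (fun u : ℝ => (1 + u) * Real.exp (-u / 2)) atTop (𝓝 0) := by
        have a1 : Tendsto (fun u : ℝ => u ^ 1 * Real.exp (-(1 / 2) * u)) atTop (𝓝 0) := by
          simpa using tendsto_rpow_mul_exp_neg_mul_atTop_nhds_zero 1 (1 / 2) (by norm_num)
        have a2 : Tendsto (fun u : ℝ => Real.exp (-(1 / 2) * u)) atTop (𝓝 0) := by
          simpa using tendsto_rpow_mul_exp_neg_mul_atTop_nhds_zero 0 (1 / 2) (by norm_num)
        have a3 := a2.add a1
        rw [add_zero] at a3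
        refine a3.congr fun u => ?_
        have : -u / 2 = -(1 / 2) * u := by ring
        rw [this]
        ring
      have h2' : Tendsto (fun u : ℝ => Real.exp (-u / 4)) atTop (𝓝 0) := by
        have a2 : Tendsto (fun u : ℝ => Real.exp (-(1 / 4) * u)) atTop (𝓝 0) := by
          simpa using tendsto_rpow_mul_exp_neg_mul_atTop_nhds_zero 0 (1 / 4) (by norm_num)
        refine a2.congr fun u => ?_
        have : -u / 4 = -(1 / 4) * u := by ring
        rw [this]
      have h3 := (((h2.const_mul K).add (h2'.const_mul K')).const_mul s).const_mul (Real.cosh (s * B))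
      simpa using h3
    rw [tendsto_zero_iff_norm_tendsto_zero]
    refine squeeze_zero' (Eventually.of_forall fun u => norm_nonneg _) ?_ h1
    filter_upwards [eventually_gt_atTop 0] with u hu
    rw [Real.norm_eq_abs]
    have h4 : |s * aa u| ≤ s * B := by
      rw [abs_mul, abs_of_pos hs]
      have := ha u hu
      gcongr
    have h5 : |s * Ff f u| ≤ s * B := by
      rw [abs_mul, abs_of_pos hs]
      have := hF u
      gcongr
    refine (cosh_lip h4 h5).trans ?_
    rw [← mul_sub, abs_mul, abs_of_pos hs]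
    have h6 := hn u hu
    have := Real.cosh_pos (s * B)
    gcongr
  have h1 := Am_tail hc1 hc2 (fun u hu => hbb _ (ha u hu)) (fun u _ => hbb _ (hF u)) hdiff
  have h2 : Tendsto (Am fun u => Real.cosh (s * aa u)) (𝓝[>] 0) (𝓝 L) := by
    have := h1.add h
    rw [zero_add] at this
    refine this.congr fun δ => ?_
    ring
  have h3 : ∀ δ : ℝ, 0 < δ → ML lam' m c' s δ = ENNReal.ofReal (Am (fun u => Real.cosh (s * aa u)) δ) := by
    intro δ hδ
    have hi := (Am_int hc1 (fun u hu => hbb _ (ha u hu)) hδ).const_mul δ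
    unfold ML Am
    rw [← integral_const_mul, ofReal_integral_eq_lintegral_ofReal hi (Eventually.of_forall fun u => by
      have := Real.cosh_pos (s * aa u)
      show 0 ≤ δ * (Real.exp (-δ * u) * Real.cosh (s * aa u))
      positivity)]
    refine lintegral_congr fun u => ?_
    rw [mul_assoc]
  refine ⟨?_, fun δ hδ => by rw [h3 δ hδ]; exact ENNReal.ofReal_lt_top⟩
  refine (ENNReal.tendsto_ofReal h2).congr' ?_
  filter_upwards [self_mem_nhdsWithin] with δ hδ
  exact (h3 δ hδ).symm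

/-- without RH the means are infinite -/
theorem off_top' (hRH : ¬RHf f) {lam' : ℕ → ℝ} {c' K' : ℝ} (hK' : 0 ≤ K')
    (hcl : ∀ u : ℝ, |aL lam' m c' u - aL lam m (cL f m m' Q μ).re u| ≤ K' * Real.exp (-u / 4)) {s : ℝ} (hs : 0 < s) :
    ∃ δ₀ : ℝ, 0 < δ₀ ∧ ∀ δ : ℝ, 0 < δ → δ < δ₀ → ML lam' m c' s δ = ⊤ := by
  obtain ⟨δ₀, h0, h⟩ := off_top D hRH hs
  refine ⟨δ₀, h0, fun δ hδ hlt => ?_⟩
  have h1 := h δ hδ hlt
  have h2 : ML lam m (cL f m m' Q μ).re s δ ≤ ENNReal.ofReal (Real.exp (s * K')) * ML lam' m c' s δ := by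
    unfold ML
    rw [← lintegral_const_mul' _ _ ENNReal.ofReal_ne_top]
    refine setLIntegral_mono' measurableSet_Ioi fun u hu => ?_
    rw [← ENNReal.ofReal_mul (Real.exp_pos _).le]
    apply ENNReal.ofReal_le_ofReal
    have hu' : (0 : ℝ) < u := hu
    have h3 : |aL lam' m c' u - aL lam m (cL f m m' Q μ).re u| ≤ K' := by
      refine (hcl u).trans ?_
      have : Real.exp (-u / 4) ≤ 1 := by
        rw [Real.exp_le_one_iff]
        linarith
      nlinarith
    set x := aL lam' m c' u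
    set y := aL lam m (cL f m m' Q μ).re u
    have h4 : Real.cosh (s * y) ≤ Real.exp (s * K') * Real.cosh (s * x) := by
      rw [Real.cosh_eq, Real.cosh_eq]
      have h5 : |s * (x - y)| ≤ s * K' := by
        rw [abs_mul, abs_of_pos hs]
        gcongr
      have h6 := abs_le.1 h5
      have e1 : Real.exp (s * y) ≤ Real.exp (s * K') * Real.exp (s * x) := by
        rw [← Real.exp_add, Real.exp_le_exp]
        linarith [h6.1]
      have e2 : Real.exp (-(s * y)) ≤ Real.exp (s * K') * Real.exp (-(s * x)) := by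
        rw [← Real.exp_add, Real.exp_le_exp]
        linarith [h6.2]
      linarith
    calc δ * Real.exp (-δ * u) * Real.cosh (s * y) ≤ δ * Real.exp (-δ * u) * (Real.exp (s * K') * Real.cosh (s * x)) := by gcongr
      _ = _ := by ring
  rw [h1, top_le_iff] at h2
  rcases ENNReal.mul_eq_top.1 h2 with h3 | h3
  · exact h3.2
  · exact absurd h3.1 ENNReal.ofReal_ne_top

end main

end Run7.h278.LG
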