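import Pool.Agent.Run7.h278.LG.Cent
import Pool.Agent.Run7.h278.LG.Pert

set_option autoImplicit false

/-!
# The main theorem for a finite family of L-functions
-/

namespace Run7.h278.LG

open Complex Filter Topology MeasureTheory Set Run7.h278.LM Run7.h278.WL
open scoped ENNReal

section

variable {J : Type} [Fintype J] {l : J → List ℝ} {r : J → ℕ} {N : J → ℝ} {b c : J → ℕ → ℂ} {X : J → ℂ → ℂ} {d : J → ℕ}
variable (F : Family l r N b c X d)

/-- the zeros in the upper half plane -/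
abbrev PO (X : J → ℂ → ℂ) : Type := {p : J × ℂ // 0 < p.2.im ∧ X p.1 p.2 = 0}

/-- the product over the zeros with multiplicities -/
noncomputable def CP (X : J → ℂ → ℂ) (d : J → ℕ) (s : ℝ) : ℝ :=
  ∏' p : PO X, (LM.J (s * ((d p.1.1 : ℝ) / (1 / 4 + p.1.2.im ^ 2)))) ^ mu (X p.1.1) p.1.2

/-- the product over the distinct ordinates -/
noncomputable def CT (X : J → ℂ → ℂ) (d : J → ℕ) (s : ℝ) : ℝ :=
  ∏' t : TO X, LM.J (s * (MO X d t / (1 / 4 + (t : ℝ) ^ 2)))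

/-- all the zeros in the upper half plane are simple and the ordinates, listed with the functions, are independent -/
def LIf (X : J → ℂ → ℂ) : Prop :=
  (∀ p : PO X, mu (X p.1.1) p.1.2 = 1) ∧ LinearIndependent ℚ fun p : PO X => p.1.2.im

omit [Fintype J] in
/-- zeros with multiplicities as a sigma type -/
def eO (hz : ∀ j s, mu (X j) s ≠ 0 → X j s = 0) : Om X ≃ Σ p : PO X, Fin (mu (X p.1.1) p.1.2) where
  toFun x := ⟨⟨(x.1.1, x.1.2.1), x.2.1, hz _ _ (Nat.ne_zero_of_lt x.2.2)⟩, ⟨x.1.2.2, x.2.2⟩⟩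
  invFun y := ⟨(y.1.1.1, y.1.1.2, y.2.1), y.1.2.1, y.2.2⟩
  left_inv _ := rfl
  right_inv _ := rfl

include F

theorem Family.CP_hasProd (hd : ∀ j, 1 ≤ d j) (hG : GRHf X) {s : ℝ} (hs : 0 < s) :
    HasProd (fun p : PO X => (LM.J (s * ((d p.1.1 : ℝ) / (1 / 4 + p.1.2.im ^ 2)))) ^ mu (X p.1.1) p.1.2)
      (∏' x : Om X, LM.J (s * wO X d x)) := by
  have hw : ∀ x : Om X, 0 < s * wO X d x := fun x => mul_pos hs (wO_pos hd x)
  have hm := (J_mult hw ((F.wO_sum hd hG).mul_left s)).hasProd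
  set e := eO (X := X) (fun j s h => (F.mu_ne j s).1 h)
  have h1 := e.symm.hasProd_iff.2 hm
  have h2 := h1.sigma (g := fun p : PO X => (LM.J (s * ((d p.1.1 : ℝ) / (1 / 4 + p.1.2.im ^ 2)))) ^ mu (X p.1.1) p.1.2) (fun p => by
    have h3 := hasProd_fintype (fun k : Fin (mu (X p.1.1) p.1.2) => ((fun x : Om X => LM.J (s * wO X d x)) ∘ e.symm) ⟨p, k⟩)
    have h4 : ∏ k : Fin (mu (X p.1.1) p.1.2), ((fun x : Om X => LM.J (s * wO X d x)) ∘ e.symm) ⟨p, k⟩ =
        (LM.J (s * ((d p.1.1 : ℝ) / (1 / 4 + p.1.2.im ^ 2)))) ^ mu (X p.1.1) p.1.2 := by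
      have h5 : ∀ k : Fin (mu (X p.1.1) p.1.2), ((fun x : Om X => LM.J (s * wO X d x)) ∘ e.symm) ⟨p, k⟩ =
          LM.J (s * ((d p.1.1 : ℝ) / (1 / 4 + p.1.2.im ^ 2))) := fun k => rfl
      simp_rw [h5]
      rw [Finset.prod_const, Finset.card_univ, Fintype.card_fin]
    rwa [h4] at h3)
  exact h2

theorem Family.CP_eq (hd : ∀ j, 1 ≤ d j) (hG : GRHf X) {s : ℝ} (hs : 0 < s) : CP X d s = ∏' x : Om X, LM.J (s * wO X d x) :=
  (F.CP_hasProd hd hG hs).tprod_eq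

theorem Family.LI_iff : LinearIndependent ℚ (tO X) ↔ LIf X := by
  constructor
  · intro h
    have h1 : ∀ p : PO X, mu (X p.1.1) p.1.2 = 1 := by
      intro p
      have h2 := (F.mu_ne _ _).2 p.2.2
      by_contra h3
      have h4 : 1 < mu (X p.1.1) p.1.2 := by omega
      have h5 := h.injective (a₁ := ⟨(p.1.1, p.1.2, 0), p.2.1, by simpa using Nat.pos_of_ne_zero h2⟩)
        (a₂ := ⟨(p.1.1, p.1.2, 1), p.2.1, h4⟩) rfl
      simp at h5
    refine ⟨h1, ?_⟩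
    have h2 := h.comp (fun p : PO X => (⟨(p.1.1, p.1.2, 0), p.2.1, by simp [h1 p]⟩ : Om X)) (by
      intro p q h3
      simp at h3
      exact Subtype.ext (Prod.ext h3.1 h3.2))
    exact h2
  · rintro ⟨h1, h2⟩
    have h3 := h2.comp (fun x : Om X => (⟨(x.1.1, x.1.2.1), x.2.1, (F.mu_ne _ _).1 (Nat.ne_zero_of_lt x.2.2)⟩ : PO X)) (by
      intro x y h
      simp at h
      have hx := x.2.2
      have hy := y.2.2
      rw [h1 ⟨(x.1.1, x.1.2.1), x.2.1, (F.mu_ne _ _).1 (Nat.ne_zero_of_lt x.2.2)⟩] at hx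
      rw [h1 ⟨(y.1.1, y.1.2.1), y.2.1, (F.mu_ne _ _).1 (Nat.ne_zero_of_lt y.2.2)⟩] at hy
      refine Subtype.ext (Prod.ext h.1 (Prod.ext h.2 ?_))
      omega)
    exact h3

/-- **The main theorem for families.** -/
theorem Family.main (hd : ∀ j, 1 ≤ d j) {lam' : ℕ → ℝ} {d' : ℝ} (hl' : ∀ n, |lam' n| ≤ d' * ArithmeticFunction.vonMangoldt n)
    (hC : Cl (lamF c d) lam') : ∃ C : ℝ, Tendsto (fun σ : ℝ => mF r d / (σ - 1) - RS lam' σ) (𝓝[>] 1) (𝓝 (C - mF r d)) ∧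
      ∀ s : ℝ, 0 < s → (GRHf X →
        (Multipliable fun p : PO X => (LM.J (s * ((d p.1.1 : ℝ) / (1 / 4 + p.1.2.im ^ 2)))) ^ mu (X p.1.1) p.1.2) ∧
        Multipliable fun t : TO X => LM.J (s * (MO X d t / (1 / 4 + (t : ℝ) ^ 2)))) ∧
        ∃ L : ℝ≥0∞, Tendsto (ML lam' (mF r d) C s) (𝓝[>] 0) (𝓝 L) ∧
        (L < ⊤ ↔ GRHf X) ∧
        ENNReal.ofReal (Real.cosh (4 * s * rO X d) * CP X d s) ≤ L ∧
        (L = ENNReal.ofReal (Real.cosh (4 * s * rO X d) * CP X d s) ↔ GRHf X ∧ LIf X) ∧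
        ENNReal.ofReal (Real.cosh (4 * s * rO X d) * CT X d s) ≤ L ∧
        (L = ENNReal.ofReal (Real.cosh (4 * s * rO X d) * CT X d s) ↔
          GRHf X ∧ LinearIndependent ℚ fun t : TO X => (t : ℝ)) := by
  obtain ⟨w, D⟩ := F.rd
  have hDf := fL_data D
  have hl := hDf.lam_le
  set C0 := (cL (fL (PL X d)) (mF r d) (mF r d - zF l d) (QF N d) (μF l d)).re with hC0
  refine ⟨C0 + dc (lamF c d) lam', ?_, fun s hs => ?_⟩
  · have h1 := (cL_lim_real hDf).add (dc_lim hl hl' hC)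
    have e : (C0 - mF r d) + dc (lamF c d) lam' = C0 + dc (lamF c d) lam' - mF r d := by ring
    rw [← hC0, e] at h1
    refine h1.congr fun σ => ?_
    ring
  have hcl : ∀ u : ℝ, |aL lam' (mF r d) (C0 + dc (lamF c d) lam') u - aL (lamF c d) (mF r d) C0 u| ≤
      (∑' n : ℕ, |lamF c d n - lam' n| / (n : ℝ) ^ (1 / 4 : ℝ)) * Real.exp (-u / 4) := fun u => cmp hl hl' hC _ _
  have hK0 : 0 ≤ ∑' n : ℕ, |lamF c d n - lam' n| / (n : ℝ) ^ (1 / 4 : ℝ) := tsum_nonneg fun n => by positivity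
  refine ⟨fun hG => ⟨(F.CP_hasProd hd hG hs).multipliable,
    J_mult (fun x => mul_pos hs (F.wT_pos hd x)) ((F.wT_sum hd hG).mul_left s)⟩, ?_⟩
  by_cases hG : GRHf X
  · have hRH := (F.rh_iff hd).2 hG
    have hr0 : 0 ≤ rO X d := Finset.sum_nonneg fun j _ => by positivity
    have hc0 : 0 ≤ 4 * s * rO X d := by positivity
    have hw : ∀ x : Om X, 0 < s * wO X d x := fun x => mul_pos hs (wO_pos hd x)
    have hwT : ∀ x : TO X, 0 < s * wT X d x := fun x => mul_pos hs (F.wT_pos hd x)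
    obtain ⟨L, hL, hge, heq⟩ := main_meanC (4 * s * rO X d) (tO X) hc0 hw ((F.wO_sum hd hG).mul_left s) (fun x => x.2.1.ne')
    obtain ⟨L2, hL2, hge2, heq2⟩ := main_meanC (4 * s * rO X d) (fun t : TO X => (t : ℝ)) hc0 hwT ((F.wT_sum hd hG).mul_left s)
      (fun x => x.2.1.ne')
    have e1 : (fun u => Real.cosh (4 * s * rO X d + FI (fun x => s * wO X d x) (tO X) u)) =
        fun u => Real.cosh (s * Ff (fL (PL X d)) u) := by
      funext u
      rw [F.Ff_Om hd hG]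
    have e2 : (fun u => Real.cosh (4 * s * rO X d + FI (fun x => s * wT X d x) (fun t : TO X => (t : ℝ)) u)) =
        fun u => Real.cosh (s * Ff (fL (PL X d)) u) := by
      funext u
      rw [F.Ff_T hd hG]
    rw [e1] at hL
    rw [e2] at hL2
    have hLL : L = L2 := tendsto_nhds_unique hL hL2
    obtain ⟨hm, hf⟩ := aL_mean' hDf hRH hl' hK0 hcl hs hL
    rw [← F.CP_eq hd hG hs] at hge heq
    have eT : ∏' x : TO X, LM.J (s * wT X d x) = CT X d s := rfl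
    rw [eT, ← hLL] at hge2
    rw [eT, ← hLL] at heq2
    have hJ1 : ∀ (S : Type) (g : S → ℝ), (∀ x, 0 < g x) → Summable g → 1 ≤ ∏' x, LM.J (g x) := by
      intro S g h1 h2
      exact ge_of_tendsto' (J_mult h1 h2).hasProd fun T => prodJ_pos T
    have p1 : 0 ≤ Real.cosh (4 * s * rO X d) * CP X d s := by
      rw [F.CP_eq hd hG hs]
      have := hJ1 _ _ hw ((F.wO_sum hd hG).mul_left s)
      have := Real.cosh_pos (4 * s * rO X d)
      positivity
    have p2 : 0 ≤ Real.cosh (4 * s * rO X d) * CT X d s := by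
      rw [← eT]
      have := hJ1 _ _ hwT ((F.wT_sum hd hG).mul_left s)
      have := Real.cosh_pos (4 * s * rO X d)
      positivity
    refine ⟨ENNReal.ofReal L, hm, ⟨fun _ => hG, fun _ => ENNReal.ofReal_lt_top⟩, ENNReal.ofReal_le_ofReal hge, ?_,
      ENNReal.ofReal_le_ofReal hge2, ?_⟩
    · rw [ENNReal.ofReal_eq_ofReal_iff (p1.trans hge) p1, heq, F.LI_iff]
      exact ⟨fun h => ⟨hG, h⟩, fun h => h.2⟩
    · rw [ENNReal.ofReal_eq_ofReal_iff (p2.trans hge2) p2, heq2]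
      exact ⟨fun h => ⟨hG, h⟩, fun h => h.2⟩
  · have hRH : ¬RHf (fL (PL X d)) := fun h => hG ((F.rh_iff hd).1 h)
    obtain ⟨δ₀, h0, h⟩ := off_top' hDf hRH hK0 hcl hs
    refine ⟨⊤, ?_, ⟨fun h => absurd h (lt_irrefl _), fun h => absurd h hG⟩, le_top, ⟨fun h => ?_, fun h => absurd h.1 hG⟩, le_top,
      ⟨fun h => ?_, fun h => absurd h.1 hG⟩⟩
    · refine tendsto_const_nhds.congr' ?_
      filter_upwards [Ioo_mem_nhdsGT h0] with δ hδ
      exact (h δ hδ.1 hδ.2).symm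
    · exact absurd h.symm ENNReal.ofReal_ne_top
    · exact absurd h.symm ENNReal.ofReal_ne_top

end

end Run7.h278.LG
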