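import Pool.Agent.Run7.h278.LG.Sub

set_option autoImplicit false

/-!
# Families given by a structure; the order at the centre
-/

namespace Run7.h278.LG

open Complex Filter Topology MeasureTheory Set Run7.h278.LM Run7.h278.WL
open scoped ComplexConjugate ENNReal
open Pool.Agent.W355.UN (RawL Raw Conv)

/-- the product of the gamma factors over a list -/
theorem gam_list (l : List ℝ) (s : ℂ) : (l.map fun a : ℝ => Gammaℝ (s + a)).prod = ∏ j : Fin (l.map fun a : ℝ => (a : ℂ)).length,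
    Gammaℝ (s + (l.map fun a : ℝ => (a : ℂ)).get j) := by
  rw [Pool.Agent.W355.UN.prod_get (l.map fun a : ℝ => (a : ℂ)) (fun a : ℂ => Gammaℝ (s + a)), List.map_map]
  rfl

theorem cl_refl (lam : ℕ → ℝ) : Cl lam lam := by
  refine ⟨?_⟩
  simp only [sub_self, abs_zero, zero_div]
  exact summable_zero

section

variable {l : List ℝ} {r : ℕ} {N : ℝ} {b c : ℕ → ℂ} {X : ℂ → ℂ} (h : One l r N b c X)

include h

/-- a completed L-function with real coefficients is real on the real line -/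
theorem One.real (hb : ∀ n, (b n).im = 0) (s : ℂ) : X (conj s) = conj (X s) := by
  obtain ⟨σ, hσ⟩ := h.raw.eq
  have hd : Differentiable ℂ X := h.raw.entire
  have hst := LI.stF_diff hd
  have hN : 0 < N := h.N_pos
  have key : ∀ s : ℂ, max σ 2 < s.re → X s = LI.stF X s := by
    intro s hs
    have h1 : σ ≤ s.re := (le_max_left σ 2).trans hs.le
    have h1' : σ ≤ (conj s).re := by rwa [Complex.conj_re]
    unfold LI.stF
    rw [hσ s h1, hσ (conj s) h1', map_mul, map_mul, map_mul, map_pow, map_mul, map_sub, map_one, Complex.conj_conj, map_prod]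
    have e1 : conj ((N : ℂ) ^ (conj s / 2)) = (N : ℂ) ^ (s / 2) := by
      have e2 : (conj s / 2 : ℂ) = conj (s / 2) := by rw [map_div₀, map_ofNat]
      rw [e2, Complex.cpow_conj _ _ (by
        rw [Complex.arg_ofReal_of_nonneg hN.le]
        exact Real.pi_pos.ne), Complex.conj_ofReal, Complex.conj_conj]
    have e2 : ∀ j : Fin (l.map fun a : ℝ => (a : ℂ)).length, conj (Gammaℝ (conj s + (l.map fun a : ℝ => (a : ℂ)).get j)) =
        Gammaℝ (s + (l.map fun a : ℝ => (a : ℂ)).get j) := by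
      intro j
      have hm := List.get_mem (l.map fun a : ℝ => (a : ℂ)) j
      obtain ⟨a, -, ha⟩ := List.mem_map.1 hm
      rw [← ha]
      have e3 : conj s + (a : ℂ) = conj (s + a) := by rw [map_add, Complex.conj_ofReal]
      rw [e3]
      rw [Gammaℝ_def, Gammaℝ_def]
      have e4 : -conj (s + (a : ℂ)) / 2 = conj (-(s + a) / 2) := by rw [map_div₀, map_neg, map_ofNat]
      have e5 : conj (s + (a : ℂ)) / 2 = conj ((s + a) / 2) := by rw [map_div₀, map_ofNat]
      rw [e4, e5, Complex.cpow_conj _ _ (by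
        rw [Complex.arg_ofReal_of_nonneg Real.pi_pos.le]
        exact Real.pi_pos.ne), Complex.conj_ofReal, Complex.Gamma_conj, map_mul, Complex.conj_conj, Complex.conj_conj]
    have e3 : conj (LSeries b (conj s)) = LSeries b s := by
      unfold LSeries
      rw [Complex.conj_tsum]
      refine tsum_congr fun n => ?_
      rw [LSeries.term_def, LSeries.term_def]
      split_ifs
      · simp
      · rw [map_div₀, Complex.conj_eq_iff_im.2 (hb n)]
        congr 1
        rw [← Complex.ofReal_natCast, Complex.cpow_conj _ _ (by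
          rw [Complex.arg_ofReal_of_nonneg (Nat.cast_nonneg n)]
          exact Real.pi_pos.ne), Complex.conj_ofReal, Complex.conj_conj]
    rw [e1, e3]
    simp_rw [e2]
  have hev : X =ᶠ[𝓝 ((max σ 2 + 1 : ℝ) : ℂ)] LI.stF X := by
    have hopen : IsOpen {z : ℂ | max σ 2 < z.re} := isOpen_lt continuous_const Complex.continuous_re
    filter_upwards [hopen.mem_nhds (show ((max σ 2 + 1 : ℝ) : ℂ) ∈ {z : ℂ | max σ 2 < z.re} by
      show max σ 2 < _
      rw [Complex.ofReal_re]
      linarith)] with z hz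
    exact key z hz
  have hall : X = LI.stF X := AnalyticOnNhd.eq_of_eventuallyEq (𝕜 := ℂ) (fun z _ => hd.analyticAt z) (fun z _ => hst.analyticAt z) hev
  have h1 := congrFun hall (conj s)
  rw [h1]
  unfold LI.stF
  rw [Complex.conj_conj]

/-- odd functional equation -/
theorem One.half (hb : ∀ n, (b n).im = 0) (hfe : ∀ s : ℂ, X s = -conj (X (1 - conj s))) : X (1 / 2) = 0 := by
  have h1 := hfe (1 / 2)
  have h2 := h.real hb (1 / 2)
  have e1 : conj (1 / 2 : ℂ) = 1 / 2 := by rw [map_div₀, map_one, map_ofNat]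
  rw [e1] at h1 h2
  have e2 : (1 - 1 / 2 : ℂ) = 1 / 2 := by norm_num
  rw [e2, ← h2] at h1
  have h3 : (2 : ℂ) * X (1 / 2) = 0 := by linear_combination h1
  simpa using h3

end

section

variable {J : Type} [Fintype J] {l : J → List ℝ} {r : J → ℕ} {N : J → ℝ} {b c : J → ℕ → ℂ} {X : J → ℂ → ℂ} {d : J → ℕ}
variable (F : Family l r N b c X d)

include F

theorem Family.CP_pos (hd : ∀ j, 1 ≤ d j) (hG : GRHf X) {s : ℝ} (hs : 0 < s) : 0 < CP X d s := by
  rw [F.CP_eq hd hG hs]
  have h : 1 ≤ ∏' x : Om X, LM.J (s * wO X d x) :=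
    ge_of_tendsto' (J_mult (fun x => mul_pos hs (wO_pos hd x)) ((F.wO_sum hd hG).mul_left s)).hasProd fun T => prodJ_pos T
  linarith

/-- the theorem with prescribed lower bounds for the orders at the centre -/
theorem Family.main_center (hd : ∀ j, 1 ≤ d j) {lam' : ℕ → ℝ} {d' : ℝ} (hl' : ∀ n, |lam' n| ≤ d' * ArithmeticFunction.vonMangoldt n)
    (hC : Cl (lamF c d) lam') (κ : J → ℕ) (hκ : ∀ j, κ j ≤ mu (X j) (1 / 2)) :
    ∃ C : ℝ, Tendsto (fun σ : ℝ => mF r d / (σ - 1) - RS lam' σ) (𝓝[>] 1) (𝓝 (C - mF r d)) ∧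
      ∀ s : ℝ, 0 < s → (GRHf X →
        (Multipliable fun p : PO X => (LM.J (s * ((d p.1.1 : ℝ) / (1 / 4 + p.1.2.im ^ 2)))) ^ mu (X p.1.1) p.1.2)) ∧
        ∃ L : ℝ≥0∞, Tendsto (ML lam' (mF r d) C s) (𝓝[>] 0) (𝓝 L) ∧
        (L < ⊤ ↔ GRHf X) ∧
        ENNReal.ofReal (Real.cosh (4 * s * ∑ j, (d j : ℝ) * κ j) * CP X d s) ≤ L ∧
        (L = ENNReal.ofReal (Real.cosh (4 * s * ∑ j, (d j : ℝ) * κ j) * CP X d s) ↔ GRHf X ∧ LIf X ∧ ∀ j, mu (X j) (1 / 2) = κ j) := by
  obtain ⟨C, h1, h2⟩ := F.main hd hl' hC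
  refine ⟨C, h1, fun s hs => ?_⟩
  obtain ⟨hM, L, h3, h4, h5, h6, -, -⟩ := h2 s hs
  have hle : ∑ j, (d j : ℝ) * κ j ≤ rO X d := by
    unfold rO
    refine Finset.sum_le_sum fun j _ => ?_
    have : (κ j : ℝ) ≤ mu (X j) (1 / 2) := by exact_mod_cast hκ j
    gcongr
  have hK0 : 0 ≤ ∑ j, (d j : ℝ) * κ j := Finset.sum_nonneg fun j _ => by positivity
  have heq : rO X d = ∑ j, (d j : ℝ) * κ j ↔ ∀ j, mu (X j) (1 / 2) = κ j := by
    constructor
    · intro h j
      have h7 : ∑ j, (d j : ℝ) * κ j = ∑ j, (d j : ℝ) * mu (X j) (1 / 2) := h.symm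
      have h8 := (Finset.sum_eq_sum_iff_of_le (f := fun j => (d j : ℝ) * κ j) (g := fun j => (d j : ℝ) * mu (X j) (1 / 2))
        (s := Finset.univ) (fun j _ => by
          have : (κ j : ℝ) ≤ mu (X j) (1 / 2) := by exact_mod_cast hκ j
          gcongr)).1 h7 j (Finset.mem_univ j)
      have h9 : (0 : ℝ) < d j := by exact_mod_cast hd j
      have h10 := mul_left_cancel₀ h9.ne' h8
      exact_mod_cast h10.symm
    · intro h
      unfold rO
      refine Finset.sum_congr rfl fun j _ => ?_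
      rw [h j]
  have hcosh : Real.cosh (4 * s * ∑ j, (d j : ℝ) * κ j) ≤ Real.cosh (4 * s * rO X d) := by
    rw [Real.cosh_le_cosh, abs_of_nonneg (by positivity), abs_of_nonneg (by
      have := hK0.trans hle
      positivity)]
    gcongr
  refine ⟨fun hG => (hM hG).1, L, h3, h4, ?_, ?_⟩
  · by_cases hG : GRHf X
    · refine le_trans (ENNReal.ofReal_le_ofReal ?_) h5
      have := (F.CP_pos hd hG hs).le
      gcongr
    · have : L = ⊤ := by
        by_contra hne
        exact hG (h4.1 (lt_top_iff_ne_top.2 hne))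
      rw [this]
      exact le_top
  · constructor
    · intro h
      have hG : GRHf X := h4.1 (by rw [h]; exact ENNReal.ofReal_lt_top)
      have hpos := F.CP_pos hd hG hs
      have h7 : ENNReal.ofReal (Real.cosh (4 * s * rO X d) * CP X d s) ≤
          ENNReal.ofReal (Real.cosh (4 * s * ∑ j, (d j : ℝ) * κ j) * CP X d s) := h ▸ h5
      have h8 : Real.cosh (4 * s * rO X d) * CP X d s ≤ Real.cosh (4 * s * ∑ j, (d j : ℝ) * κ j) * CP X d s := by
        refine (ENNReal.ofReal_le_ofReal_iff ?_).1 h7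
        have := Real.cosh_pos (4 * s * ∑ j, (d j : ℝ) * κ j)
        positivity
      have h9 : Real.cosh (4 * s * rO X d) ≤ Real.cosh (4 * s * ∑ j, (d j : ℝ) * κ j) := le_of_mul_le_mul_right h8 hpos
      have h10 : rO X d ≤ ∑ j, (d j : ℝ) * κ j := by
        rw [Real.cosh_le_cosh, abs_of_nonneg (by
          have := hK0.trans hle
          positivity), abs_of_nonneg (by positivity)] at h9
        exact le_of_mul_le_mul_left h9 (by positivity)
      have h11 : rO X d = ∑ j, (d j : ℝ) * κ j := le_antisymm h10 hle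
      rw [← h11] at h
      exact ⟨hG, (h6.1 h).2, heq.1 h11⟩
    · rintro ⟨hG, hL, hj⟩
      rw [← heq.2 hj]
      exact h6.2 ⟨hG, hL⟩

end

end Run7.h278.LG
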