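import Pool.Agent.Run7.h278.LG.Near
import Pool.Agent.Run7.h278.LG.Gen
import Pool.Agent.Run7.h278.LG.FamMain

set_option autoImplicit false

/-!
# Even moments and extreme values for a finite family of L-functions
-/

namespace Run7.h278.LG

open Complex Filter Topology MeasureTheory Set Run7.h278.LM Run7.h278.WL
open scoped ENNReal

/-! ### General facts -/

section

variable {ι : Type} {w : ι → ℝ} (t : ι → ℝ)

/-- relations with multiplicity -/
theorem Rl_sigma {P : Type} (μ : P → ℕ) (hμ : ∀ p, 0 < μ p) (τ : P → ℝ) {p : ℕ} (hp : 2 ≤ p) (he : Even p) :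
    ¬Rl (fun x : Σ p : P, Fin (μ p) => τ x.1) p ↔ (∀ q : P, μ q = 1) ∧ ¬Rl τ p := by
  classical
  have hsimple : (∀ q : P, μ q = 1) → (Rl (fun x : Σ p : P, Fin (μ p) => τ x.1) p ↔ Rl τ p) := by
    intro h1
    have hl : Function.LeftInverse (fun q : P => (⟨q, ⟨0, hμ q⟩⟩ : Σ p : P, Fin (μ p))) (fun x => x.1) := by
      rintro ⟨q, k⟩
      have h3 := h1 q
      have h4 : (⟨0, hμ q⟩ : Fin (μ q)) = k := by
        apply Fin.ext
        simp only
        omega
      simp only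
      rw [h4]
    have e : ∃ e : (Σ p : P, Fin (μ p)) ≃ P, ∀ x, e x = x.1 := ⟨⟨fun x => x.1, fun q => ⟨q, ⟨0, hμ q⟩⟩, hl, fun t => rfl⟩, fun x => rfl⟩
    obtain ⟨e, he'⟩ := e
    exact Rl_equiv _ (t' := τ) e (fun x => by rw [he']) p
  constructor
  · intro h
    have h1 : ∀ q : P, μ q = 1 := by
      intro q
      by_contra hne
      have h1 := hμ q
      have h2 : 1 < μ q := by omega
      apply h
      set x : Σ p : P, Fin (μ p) := ⟨q, ⟨0, h1⟩⟩ with hx
      set y : Σ p : P, Fin (μ p) := ⟨q, ⟨1, h2⟩⟩ with hy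
      have hxy : x ≠ y := by
        intro hh
        rw [hx, hy] at hh
        simp at hh
      set m : (Σ p : P, Fin (μ p)) →₀ ℤ := Finsupp.single x 1 + Finsupp.single y (-1) with hm
      have hmx : m x = 1 := by
        rw [hm, Finsupp.add_apply, Finsupp.single_eq_same, Finsupp.single_apply, if_neg hxy.symm, add_zero]
      have hmy : m y = -1 := by
        rw [hm, Finsupp.add_apply, Finsupp.single_eq_same, Finsupp.single_apply, if_neg hxy, zero_add]
      have hS : m.support ⊆ {x, y} := by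
        intro z hz
        rw [Finsupp.mem_support_iff, hm, Finsupp.add_apply, Finsupp.single_apply, Finsupp.single_apply] at hz
        rw [Finset.mem_insert, Finset.mem_singleton]
        by_contra hc
        push Not at hc
        rw [if_neg (fun hh => hc.1 hh.symm), if_neg (fun hh => hc.2 hh.symm)] at hz
        exact hz (by simp)
      have hL : (m.sum fun _ n => n.natAbs) = 2 := by
        rw [sum_supZ hS (fun _ n => n.natAbs) (fun _ => rfl), Finset.sum_pair hxy, hmx, hmy]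
        rfl
      refine ⟨m, ?_, ?_, ?_, ?_⟩
      · intro hh
        rw [hh] at hmx
        simp at hmx
      · rw [sum_supZ hS (fun (i : Σ p : P, Fin (μ p)) n => (n : ℝ) * τ i.1) (fun _ => by simp), Finset.sum_pair hxy, hmx, hmy]
        push_cast
        ring
      · rw [hL]
        exact hp
      · rw [hL]
        exact he.add (by decide)
    exact ⟨h1, fun h2 => h ((hsimple h1).2 h2)⟩
  · rintro ⟨h1, h2⟩ h3
    exact h2 ((hsimple h1).1 h3)

theorem Mk_even' (K : ℕ) : Mk w (2 * K) = (2 * K).factorial * ∑' n : Dg ι K, Tr w n.1 ^ 2 := by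
  unfold Mk
  congr 1
  exact (Equiv.subtypeEquivRight (fun n : ι →₀ ℕ => by
    constructor
    · intro h
      omega
    · intro h
      rw [h])).tsum_eq (fun n : Dg ι K => Tr w n.1 ^ 2)

theorem sq_summable' (hw : ∀ i, 0 < w i) (hs : Summable w) (K : ℕ) : Summable fun n : Dg ι K => Tr w n.1 ^ 2 := by
  have h1 := Tr_summable hw hs K
  refine Summable.of_nonneg_of_le (fun n => sq_nonneg _) (fun n => ?_) (h1.mul_left (∑' n : Dg ι K, Tr w n.1))
  have h2 := h1.le_tsum n fun k _ => (Tr_pos hw _).le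
  have h3 := Tr_pos hw n.1
  rw [sq]
  gcongr

/-- moments about another centre -/
theorem shift_lim {a : ℝ → ℝ} {c x B : ℝ} (h : Nr a (fun u => (c + x) + FI w t u) B) (hw : ∀ i, 0 < w i) (hs : Summable w) (p : ℕ) :
    Tendsto (Am fun u => (a u - c) ^ p) (𝓝[>] 0) (𝓝 (∑ j ∈ Finset.range (p + 1), x ^ j * Ek w t (p - j) * (p.choose j : ℝ))) := by
  have hφ : Continuous fun y : ℝ => (y - c) ^ p := by fun_prop
  refine h.comp hφ ?_
  have hF := FI_cont t hw hs
  have h1 : Tendsto (fun δ => ∑ j ∈ Finset.range (p + 1), x ^ j * Am (fun u => FI w t u ^ (p - j)) δ * (p.choose j : ℝ)) (𝓝[>] 0)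
      (𝓝 (∑ j ∈ Finset.range (p + 1), x ^ j * Ek w t (p - j) * (p.choose j : ℝ))) :=
    tendsto_finset_sum _ fun j _ => ((Ek_tendsto t hw hs (p - j)).const_mul _).mul_const _
  refine h1.congr' ?_
  filter_upwards [self_mem_nhdsWithin] with δ hδ
  have hi : ∀ j, IntegrableOn (fun u : ℝ => Real.exp (-δ * u) * FI w t u ^ j) (Ioi 0) := fun j =>
    Am_int (f := fun u => FI w t u ^ j) (hF.pow j).continuousOn (B := (∑' i, 2 * w i) ^ j) (fun u _ => by
      rw [abs_pow]
      have := FI_le t hw hs u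
      gcongr) hδ
  unfold Am
  have h2 : ∀ u : ℝ, Real.exp (-δ * u) * ((c + x) + FI w t u - c) ^ p =
      ∑ j ∈ Finset.range (p + 1), (x ^ j * (p.choose j : ℝ)) * (Real.exp (-δ * u) * FI w t u ^ (p - j)) := by
    intro u
    have : (c + x) + FI w t u - c = x + FI w t u := by ring
    rw [this, add_pow, Finset.mul_sum]
    refine Finset.sum_congr rfl fun j _ => ?_
    ring
  simp_rw [h2]
  rw [integral_finset_sum _ fun j _ => (hi (p - j)).const_mul _, Finset.mul_sum]
  refine Finset.sum_congr rfl fun j _ => ?_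
  rw [integral_const_mul]
  ring

theorem Ek_zero (hw : ∀ i, 0 < w i) (hs : Summable w) : 1 ≤ Ek w t 0 := by
  obtain ⟨-, h1, -⟩ := Ek_Mk t hw hs 0
  refine le_trans ?_ h1
  rw [show (0 : ℕ) = 2 * 0 by rfl, Mk_even']
  have h2 := (sq_summable' hw hs 0).le_tsum (⟨0, by simp⟩ : Dg ι 0) fun n _ => sq_nonneg _
  have h3 : Tr w (0 : ι →₀ ℕ) = 1 := Finsupp.prod_zero_index
  simp only [h3, one_pow] at h2
  simpa using h2

/-- even moments about a point to the left of the mean -/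
theorem shift_ge {x : ℝ} (hx : 0 ≤ x) (hw : ∀ i, 0 < w i) (hs : Summable w) (p : ℕ) :
    Ek w t p ≤ ∑ j ∈ Finset.range (p + 1), x ^ j * Ek w t (p - j) * (p.choose j : ℝ) ∧
    (1 ≤ p → 0 < x → Ek w t p < ∑ j ∈ Finset.range (p + 1), x ^ j * Ek w t (p - j) * (p.choose j : ℝ)) := by
  have h0 : ∀ j, 0 ≤ x ^ j * Ek w t (p - j) * (p.choose j : ℝ) := fun j => by
    obtain ⟨h1, h2, -⟩ := Ek_Mk t hw hs (p - j)
    have := h1.trans h2
    positivity
  have e0 : Ek w t p = x ^ 0 * Ek w t (p - 0) * (p.choose 0 : ℝ) := by simp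
  constructor
  · rw [e0]
    exact Finset.single_le_sum (f := fun j => x ^ j * Ek w t (p - j) * (p.choose j : ℝ)) (fun j _ => h0 j) (Finset.mem_range.2 (by omega))
  · intro hp hx0
    have h1 : (0 : ℕ) ∈ Finset.range (p + 1) := Finset.mem_range.2 (by omega)
    have h2 : p ∈ (Finset.range (p + 1)).erase 0 := Finset.mem_erase.2 ⟨by omega, Finset.mem_range.2 (by omega)⟩
    rw [← Finset.add_sum_erase _ _ h1, ← e0]
    have h3 := Finset.single_le_sum (f := fun j => x ^ j * Ek w t (p - j) * (p.choose j : ℝ)) (fun j _ => h0 j) h2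
    simp only [Nat.sub_self, Nat.choose_self, Nat.cast_one, mul_one] at h3
    have h4 : 0 < x ^ p * Ek w t 0 := by
      have := Ek_zero t hw hs
      positivity
    linarith

end

/-! ### Families -/

section

variable {J : Type} [Fintype J] {l : J → List ℝ} {r : J → ℕ} {N : J → ℝ} {b c : J → ℕ → ℂ} {X : J → ℂ → ℂ} {d : J → ℕ}
variable (F : Family l r N b c X d)

include F

/-- the function of the family and its behaviour -/
theorem Family.pack (hd : ∀ j, 1 ≤ d j) {lam' : ℕ → ℝ} {d' : ℝ} (hl' : ∀ n, |lam' n| ≤ d' * ArithmeticFunction.vonMangoldt n)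
    (hC : Cl (lamF c d) lam') : ∃ C : ℝ, Tendsto (fun σ : ℝ => mF r d / (σ - 1) - RS lam' σ) (𝓝[>] 1) (𝓝 (C - mF r d)) ∧
      (GRHf X → ∃ B : ℝ, Nr (aL lam' (mF r d) C) (Ff (fL (PL X d))) B) ∧
      (¬GRHf X → ∃ (b' : ℝ → ℝ) (K' δ₀ : ℝ), Continuous b' ∧ (∀ u, 0 < u → |aL lam' (mF r d) C u - b' u| ≤ K') ∧ 0 < δ₀ ∧
        ∀ δ : ℝ, 0 < δ → δ < δ₀ → ¬IntegrableOn (fun u : ℝ => Real.exp (-δ * u) * b' u ^ 2) (Ioi 0)) := by
  obtain ⟨w, D⟩ := F.rd
  have hDf := fL_data D
  have hl := hDf.lam_le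
  set C0 := (cL (fL (PL X d)) (mF r d) (mF r d - zF l d) (QF N d) (μF l d)).re with hC0
  set K' := ∑' n : ℕ, |lamF c d n - lam' n| / (n : ℝ) ^ (1 / 4 : ℝ) with hK'
  have hcl : ∀ u : ℝ, |aL lam' (mF r d) (C0 + dc (lamF c d) lam') u - aL (lamF c d) (mF r d) C0 u| ≤ K' * Real.exp (-u / 4) :=
    fun u => cmp hl hl' hC _ _
  have hK0 : 0 ≤ K' := tsum_nonneg fun n => by positivity
  have he1 : ∀ u : ℝ, 0 < u → Real.exp (-u / 4) ≤ 1 := fun u hu => by
    rw [Real.exp_le_one_iff]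
    linarith
  refine ⟨C0 + dc (lamF c d) lam', ?_, ?_, ?_⟩
  · have h1 := (cL_lim_real hDf).add (dc_lim hl hl' hC)
    have e : (C0 - mF r d) + dc (lamF c d) lam' = C0 + dc (lamF c d) lam' - mF r d := by ring
    rw [← hC0, e] at h1
    refine h1.congr fun σ => ?_
    ring
  · intro hG
    have hRH := (F.rh_iff hd).2 hG
    obtain ⟨K, hK, hn0⟩ := near hDf hRH
    obtain ⟨B0, hB0, hF0, ha0⟩ := aL_bdd hDf hRH
    rw [← hC0] at hn0 ha0
    set bb : ℝ → ℝ := aL (lamF c d) (mF r d) C0 with hbb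
    set aa : ℝ → ℝ := aL lam' (mF r d) (C0 + dc (lamF c d) lam') with haa
    refine ⟨B0 + K', aL_cont hl' _ _, Ff_cont hDf, by positivity, ?_, fun u => by linarith [hF0 u], ?_⟩
    · intro u hu
      have h1 := hcl u
      have h2 := ha0 u hu
      have h3 := he1 u hu
      have h4 : |aa u| ≤ |aa u - bb u| + |bb u| := by
        calc |aa u| = |(aa u - bb u) + bb u| := by rw [sub_add_cancel]
          _ ≤ _ := abs_add_le _ _
      nlinarith
    · have hn : ∀ u : ℝ, 0 < u → |aa u - Ff (fL (PL X d)) u| ≤ K * ((1 + u) * Real.exp (-u / 2)) + K' * Real.exp (-u / 4) := by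
        intro u hu
        calc |aa u - Ff (fL (PL X d)) u| = |(bb u - Ff (fL (PL X d)) u) + (aa u - bb u)| := by
              congr 1
              ring
          _ ≤ |bb u - Ff (fL (PL X d)) u| + |aa u - bb u| := abs_add_le _ _
          _ ≤ _ := add_le_add (hn0 u hu) (hcl u)
      have h1 : Tendsto (fun u : ℝ => K * ((1 + u) * Real.exp (-u / 2)) + K' * Real.exp (-u / 4)) atTop (𝓝 0) := by
        have h2 : Tendsto (fun u : ℝ => (1 + u) * Real.exp (-u / 2)) atTop (𝓝 0) := by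
          have a1 : Tendsto (fun u : ℝ => u ^ 1 * Real.exp (-(1 / 2) * u)) atTop (𝓝 0) := by
            simpa using tendsto_rpow_mul_exp_neg_mul_atTop_nhds_zero 1 (1 / 2) (by norm_num)
          have a2 : Tendsto (fun u : ℝ => Real.exp (-(1 / 2) * u)) atTop (𝓝 0) := by
            simpa using tendsto_rpow_mul_exp_neg_mul_atTop_nhds_zero 0 (1 / 2) (by norm_num)
          have a3 := a2.add a1
          rw [add_zero] at a3
          refine a3.congr fun u => ?_
          have : -u / 2 = -(1 / 2) * u := by ring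
          rw [this]
          ring
        have h2' : Tendsto (fun u : ℝ => Real.exp (-u / 4)) atTop (𝓝 0) := by
          have a2 : Tendsto (fun u : ℝ => Real.exp (-(1 / 4) * u)) atTop (𝓝 0) := by
            simpa using tendsto_rpow_mul_exp_neg_mul_atTop_nhds_zero 0 (1 / 4) (by norm_num)
          refine a2.congr fun u => ?_
          have : -u / 4 = -(1 / 4) * u := by ring
          rw [this]
        have h3 := (h2.const_mul K).add (h2'.const_mul K')
        simpa using h3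
      rw [tendsto_zero_iff_norm_tendsto_zero]
      refine squeeze_zero' (Eventually.of_forall fun u => norm_nonneg _) ?_ h1
      filter_upwards [eventually_gt_atTop 0] with u hu
      exact hn u hu
  · intro hG
    have hRH : ¬RHf (fL (PL X d)) := fun h => hG ((F.rh_iff hd).1 h)
    obtain ⟨ρ, h1, h2⟩ := off_zero hRH
    refine ⟨aL (lamF c d) (mF r d) C0, K', 2 * (ρ.re - 1 / 2), aL_cont hl _ _, fun u hu => ?_, by linarith, fun δ hδ hlt hi => ?_⟩
    · have h3 := hcl u
      have h4 := he1 u hu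
      nlinarith
    · exact no_zero hDf hδ hi (by linarith : 1 / 2 + δ / 2 < ρ.re) h2

/-- **Even moments for families.** -/
theorem Family.even (hd : ∀ j, 1 ≤ d j) {lam' : ℕ → ℝ} {d' : ℝ} (hl' : ∀ n, |lam' n| ≤ d' * ArithmeticFunction.vonMangoldt n)
    (hC : Cl (lamF c d) lam') (κ : J → ℕ) (hκ : ∀ j, κ j ≤ mu (X j) (1 / 2)) {ι' : Type} (e : ι' ≃ Om X) :
    ∃ C : ℝ, Tendsto (fun σ : ℝ => mF r d / (σ - 1) - RS lam' σ) (𝓝[>] 1) (𝓝 (C - mF r d)) ∧
      ∀ K : ℕ, 1 ≤ K → (GRHf X → Summable fun n : Dg ι' K => Tr (fun x => wO X d (e x)) n.1 ^ 2) ∧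
        ∃ L : ℝ≥0∞, Tendsto (PM (aL lam' (mF r d) C) (4 * ∑ j, (d j : ℝ) * κ j) K) (𝓝[>] 0) (𝓝 L) ∧
        (L < ⊤ ↔ GRHf X) ∧
        ENNReal.ofReal ((2 * K).factorial * ∑' n : Dg ι' K, Tr (fun x => wO X d (e x)) n.1 ^ 2) ≤ L ∧
        (L = ENNReal.ofReal ((2 * K).factorial * ∑' n : Dg ι' K, Tr (fun x => wO X d (e x)) n.1 ^ 2) ↔
          GRHf X ∧ ¬Rl (fun x => tO X (e x)) (2 * K) ∧ ∀ j, mu (X j) (1 / 2) = κ j) := by
  obtain ⟨C, h1, h2, h3⟩ := F.pack hd hl' hC
  refine ⟨C, h1, fun K hK => ?_⟩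
  rw [← Mk_even']
  have hw : ∀ x : ι', 0 < wO X d (e x) := fun x => wO_pos hd _
  have hs : GRHf X → Summable fun x : ι' => wO X d (e x) := fun hG => e.summable_iff.2 (F.wO_sum hd hG)
  refine ⟨fun hG => sq_summable' hw (hs hG) K, ?_⟩
  set k0 := ∑ j, (d j : ℝ) * κ j with hk0
  have hle : k0 ≤ rO X d := by
    unfold rO
    refine Finset.sum_le_sum fun j _ => ?_
    have : (κ j : ℝ) ≤ mu (X j) (1 / 2) := by exact_mod_cast hκ j
    gcongr
  have heq : rO X d = k0 ↔ ∀ j, mu (X j) (1 / 2) = κ j := by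
    constructor
    · intro h j
      have h7 : k0 = ∑ j, (d j : ℝ) * mu (X j) (1 / 2) := h.symm
      have h8 := (Finset.sum_eq_sum_iff_of_le (f := fun j => (d j : ℝ) * κ j) (g := fun j => (d j : ℝ) * mu (X j) (1 / 2))
        (s := Finset.univ) (fun j _ => by
          have : (κ j : ℝ) ≤ mu (X j) (1 / 2) := by exact_mod_cast hκ j
          gcongr)).1 h7 j (Finset.mem_univ j)
      have h9 : (0 : ℝ) < d j := by exact_mod_cast hd j
      have h10 := mul_left_cancel₀ h9.ne' h8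
      exact_mod_cast h10.symm
    · intro h
      unfold rO
      refine Finset.sum_congr rfl fun j _ => ?_
      rw [h j]
  by_cases hG : GRHf X
  · obtain ⟨B, hB⟩ := h2 hG
    have hs' := hs hG
    have hF : Ff (fL (PL X d)) = fun u => (4 * k0 + 4 * (rO X d - k0)) + FI (fun x => wO X d (e x)) (fun x => tO X (e x)) u := by
      funext u
      have h4 := F.Ff_Om hd hG 1 u
      rw [one_mul] at h4
      rw [h4]
      have h5 : FI (fun x => 1 * wO X d x) (tO X) u = FI (fun x => wO X d (e x)) (fun x => tO X (e x)) u := by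
        unfold FI
        simp_rw [one_mul]
        exact (e.tsum_eq (fun x : Om X => 2 * wO X d x * Real.cos (tO X x * u))).symm
      rw [h5]
      ring
    rw [hF] at hB
    have hx : 0 ≤ 4 * (rO X d - k0) := by linarith
    have l1 := shift_lim _ hB hw hs' (2 * K)
    obtain ⟨g1, g2⟩ := shift_ge (fun x => tO X (e x)) hx hw hs' (2 * K)
    obtain ⟨m1, m2, m3⟩ := Ek_Mk (fun x => tO X (e x)) hw hs' (2 * K)
    set E := Ek (fun x => wO X d (e x)) (fun x => tO X (e x)) (2 * K) with hE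
    set M := Mk (fun x => wO X d (e x)) (2 * K) with hM
    set S := ∑ j ∈ Finset.range (2 * K + 1), (4 * (rO X d - k0)) ^ j *
      Ek (fun x => wO X d (e x)) (fun x => tO X (e x)) (2 * K - j) * ((2 * K).choose j : ℝ) with hS
    have l2 : Tendsto (PM (aL lam' (mF r d) C) (4 * k0) K) (𝓝[>] 0) (𝓝 (ENNReal.ofReal S)) := by
      refine (ENNReal.tendsto_ofReal l1).congr' ?_
      filter_upwards [self_mem_nhdsWithin] with δ hδ
      exact (hB.lint (φ := fun y => (y - 4 * k0) ^ (2 * K)) (by fun_prop) (fun x => Even.pow_nonneg (even_two_mul K) _) hδ).symm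
    have hMS : M ≤ S := m2.trans g1
    refine ⟨_, l2, ⟨fun _ => hG, fun _ => ENNReal.ofReal_lt_top⟩, ENNReal.ofReal_le_ofReal hMS, ?_⟩
    rw [ENNReal.ofReal_eq_ofReal_iff (m1.trans hMS) m1]
    constructor
    · intro h
      have h4 : ¬0 < 4 * (rO X d - k0) := fun h5 => by
        have := g2 (by omega) h5
        linarith
      have h5 : rO X d = k0 := by linarith
      refine ⟨hG, m3.1 (by linarith), heq.1 h5⟩
    · rintro ⟨-, h4, h5⟩
      have h6 := heq.2 h5
      have h7 : S = E := by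
        rw [hS, h6, sub_self, mul_zero, Finset.sum_eq_single 0]
        · simp [hE]
        · intro j _ hj
          rw [zero_pow hj]
          ring
        · intro h
          exact absurd (Finset.mem_range.2 (by omega)) h
      rw [h7]
      exact m3.2 h4
  · obtain ⟨b', K', δ₀, q1, q2, q3, q4⟩ := h3 hG
    refine ⟨⊤, ?_, ⟨fun h => absurd h (lt_irrefl _), fun h => absurd h hG⟩, le_top,
      ⟨fun h => absurd h.symm ENNReal.ofReal_ne_top, fun h => absurd h.1 hG⟩⟩
    refine tendsto_const_nhds.congr' ?_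
    filter_upwards [Ioo_mem_nhdsGT q3] with δ hδ
    exact (pow_top (aL_cont hl' _ _) q1 q2 hδ.1 (q4 δ hδ.1 hδ.2) _ hK).symm

/-- **Extreme values for families.** -/
theorem Family.ext (hd : ∀ j, 1 ≤ d j) {lam' : ℕ → ℝ} {d' : ℝ} (hl' : ∀ n, |lam' n| ≤ d' * ArithmeticFunction.vonMangoldt n)
    (hC : Cl (lamF c d) lam') :
    ∃ C : ℝ, Tendsto (fun σ : ℝ => mF r d / (σ - 1) - RS lam' σ) (𝓝[>] 1) (𝓝 (C - mF r d)) ∧
      ((∃ B : ℝ, ∀ u, 0 < u → |aL lam' (mF r d) C u| ≤ B) ↔ GRHf X) ∧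
      (GRHf X → Summable (wT X d) ∧ limsup (aL lam' (mF r d) C) atTop = 4 * rO X d + ∑' t : TO X, 2 * wT X d t ∧
        4 * rO X d - ∑' t : TO X, 2 * wT X d t ≤ liminf (aL lam' (mF r d) C) atTop ∧
        (liminf (aL lam' (mF r d) C) atTop = 4 * rO X d - ∑' t : TO X, 2 * wT X d t ↔ ¬Od (fun t : TO X => (t : ℝ))) ∧
        ∀ k : ℕ, ∃ E : ℝ, 0 ≤ E ∧ Tendsto (Am fun u => (aL lam' (mF r d) C u - 4 * rO X d) ^ (2 * k + 1)) (𝓝[>] 0) (𝓝 E) ∧
          (E = 0 ↔ ¬Rl (fun t : TO X => (t : ℝ)) (2 * k + 1))) := by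
  obtain ⟨C, h1, h2, h3⟩ := F.pack hd hl' hC
  refine ⟨C, h1, ⟨fun h => ?_, fun hG => ?_⟩, fun hG => ?_⟩
  · by_contra hG
    obtain ⟨b', K', δ₀, q1, q2, q3, q4⟩ := h3 hG
    exact not_bdd q1 q2 (half_pos q3) (q4 _ (half_pos q3) (by linarith)) h
  · obtain ⟨B, hB⟩ := h2 hG
    exact ⟨B, hB.ba⟩
  · obtain ⟨B, hB⟩ := h2 hG
    have hw := F.wT_pos hd
    have hs := F.wT_sum hd hG
    have hF : Ff (fL (PL X d)) = fun u => 4 * rO X d + FI (wT X d) (fun t : TO X => (t : ℝ)) u := by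
      funext u
      have h4 := F.Ff_T hd hG 1 u
      rw [one_mul] at h4
      rw [h4]
      simp_rw [one_mul]
      ring
    rw [hF] at hB
    obtain ⟨l1, l2, l3⟩ := lims _ hB hw hs (fun t => t.2.1.ne')
    refine ⟨hs, l1, l2, l3, fun k => ?_⟩
    obtain ⟨m1, m2, m3⟩ := Ek_Mk (fun t : TO X => (t : ℝ)) hw hs (2 * k + 1)
    have hM0 : Mk (wT X d) (2 * k + 1) = 0 := Mk_odd (by
      rw [Nat.even_iff]
      omega)
    rw [hM0] at m2 m3
    exact ⟨_, m2, mom_lim _ hB hw hs (2 * k + 1), m3⟩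

end

end Run7.h278.LG
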