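import Pool.Agent.Run7.h278.LM.Expl

set_option autoImplicit false

/-!
# The archimedean factors
-/

namespace Run7.h278.LG

open Complex Filter Topology MeasureTheory Set Run7.h278.LM

/-- the logarithmic derivative of `Γ_ℝ(w + μ)` -/
noncomputable def GG (μ : ℝ) (w : ℂ) : ℂ := logDeriv Gammaℝ (w + μ)

theorem GG_eq {μ : ℝ} {w : ℂ} (h : 0 < w.re + μ) :
    GG μ w = -(Real.log Real.pi) / 2 + logDeriv Gamma ((w + μ) / 2) / 2 := by
  unfold GG
  exact logDeriv_gammaR (by simpa using h)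

/-- partial fractions of the archimedean factor -/
theorem gam_frac {μ : ℝ} (hμ : 0 < μ) {w : ℂ} (hw : 1 < w.re) :
    HasSum (fun k : ℕ => ((1 / ((μ + 2 * k) * (μ + 2 * k + 1)) : ℝ) : ℂ) * (1 / (w + ((μ + 2 * k : ℝ) : ℂ))))
      (-GG μ w / (w * (w - 1)) + GG μ 1 / (w - 1) - GG μ 0 / w) := by
  have h0 : 0 < w.re := by linarith
  have hw0 : w ≠ 0 := fun h => by rw [h] at h0; simp at h0
  have hw1 : w ≠ 1 := fun h => by rw [h] at hw; simp at hw
  have hw2 : w - 1 ≠ 0 := sub_ne_zero.2 hw1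
  have hre : ∀ z : ℂ, 0 ≤ z.re → 0 < ((z + μ) / 2).re := by
    intro z hz
    have : ((z + μ) / 2).re = (z.re + μ) / 2 := by simp
    rw [this]
    linarith
  have p1 := psi_series (hre w h0.le)
  have p2 := psi_series (hre 1 (by simp))
  have p3 := psi_series (hre 0 (by simp))
  have h := ((p1.mul_left (-(1 / (2 * (w * (w - 1)))))).add (p2.mul_left (1 / (2 * (w - 1))))).sub (p3.mul_left (1 / (2 * w)))
  have e : -(1 / (2 * (w * (w - 1)))) * (logDeriv Gamma ((w + μ) / 2) + Real.eulerMascheroniConstant) +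
      1 / (2 * (w - 1)) * (logDeriv Gamma ((1 + μ) / 2) + Real.eulerMascheroniConstant) -
      1 / (2 * w) * (logDeriv Gamma ((0 + μ) / 2) + Real.eulerMascheroniConstant) =
      -GG μ w / (w * (w - 1)) + GG μ 1 / (w - 1) - GG μ 0 / w := by
    rw [GG_eq (by linarith), GG_eq (by simp; linarith), GG_eq (by simp; exact hμ)]
    field_simp
    ring
  rw [e] at h
  refine hs_congr h fun k => ?_
  have hk : (0 : ℝ) ≤ k := Nat.cast_nonneg k
  have hne : ∀ z : ℂ, 0 ≤ z.re → z + μ + 2 * k ≠ 0 := by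
    intro z hz h
    have := congrArg Complex.re h
    simp at this
    linarith
  have n1 := hne w h0.le
  have n2 := hne 1 (by simp)
  have n3 := hne 0 (by simp)
  have n4 : ((k : ℂ) + 1) ≠ 0 := by
    intro h
    have := congrArg Complex.re h
    simp at this
    linarith
  have d : ∀ z : ℂ, (z + μ) / 2 + k = (z + μ + 2 * k) / 2 := fun z => by ring
  rw [d, d, d]
  push_cast
  have e1 : (1 : ℂ) + μ + 2 * k = μ + 2 * k + 1 := by ring
  have e2 : (0 : ℂ) + μ + 2 * k = μ + 2 * k := by ring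
  have e3 : w + μ + 2 * k = w + (μ + 2 * k) := by ring
  rw [e1] at n2 ⊢
  rw [e2] at n3 ⊢
  rw [e3] at n1 ⊢
  generalize (μ : ℂ) + 2 * k = b at *
  field_simp
  ring

/-- the shift by two -/
theorem GG_two {w : ℂ} (hw : 0 < w.re) : GG 0 w = GG 2 w - 1 / w := by
  have hw0 : w ≠ 0 := fun h => by rw [h] at hw; simp at hw
  rw [GG_eq (by linarith), GG_eq (by linarith)]
  have h1 := psi_shift hw
  push_cast
  rw [add_zero, show (w + 2) / 2 = w / 2 + 1 by ring, h1]
  field_simp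
  ring

theorem gam_sum {μ : ℝ} (hμ : 0 < μ) : Summable fun k : ℕ => 1 / ((μ + 2 * (k : ℝ)) * (μ + 2 * k + 1)) := by
  have h := (gam_frac hμ (w := 2) (by norm_num)).summable
  have h1 : Summable fun k : ℕ => 1 / ((μ + 2 * (k : ℝ)) * (μ + 2 * k + 1)) * (1 / (2 + (μ + 2 * k))) := by
    have h2 : Summable fun k : ℕ => ((1 / ((μ + 2 * (k : ℝ)) * (μ + 2 * k + 1)) * (1 / (2 + (μ + 2 * k))) : ℝ) : ℂ) := by
      refine h.congr fun k => ?_
      push_cast
      ring
    exact Complex.summable_ofReal.1 h2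
  have h3 : Summable fun k : ℕ => 1 / ((2 * (k : ℝ) + 2) * (2 * k + 3)) * (12 / min μ 1 ^ 2 + 12) := by
    refine Summable.mul_right _ ?_
    have h := sum_log2.summable
    have h1 : Summable fun k : ℕ => ((1 / ((2 * (k : ℝ) + 2) * (2 * k + 3)) : ℝ) : ℂ) := by
      refine h.congr fun k => ?_
      push_cast
      rfl
    exact Complex.summable_ofReal.1 h1
  refine Summable.of_nonneg_of_le (fun k => ?_) (fun k => ?_) h3
  · positivity
  · have hk : (0 : ℝ) ≤ k := Nat.cast_nonneg k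
    set ν := min μ 1 with hν
    have hν0 : 0 < ν := lt_min hμ one_pos
    have hν1 : ν ≤ 1 := min_le_right _ _
    have hνμ : ν ≤ μ := min_le_left _ _
    rw [div_mul_eq_mul_div, one_mul, div_le_div_iff₀ (by positivity) (by positivity)]
    have h4 : ν * (2 * k + 2) ≤ 2 * (μ + 2 * k) := by nlinarith
    have h5 : (2 * (k : ℝ) + 3) ≤ 3 * (μ + 2 * k + 1) := by nlinarith
    have h6 : 12 ≤ 12 / ν ^ 2 * ν := by
      rw [div_mul_eq_mul_div, le_div_iff₀ (by positivity)]
      nlinarith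
    have hX : 0 < μ + 2 * (k : ℝ) := by positivity
    have h7 : (2 * (k : ℝ) + 2) ≤ 2 * (μ + 2 * k) / ν := by
      rw [le_div_iff₀ hν0]
      linarith
    have h8 : 2 * (μ + 2 * (k : ℝ)) / ν * (3 * (μ + 2 * k + 1)) ≤ (12 / ν ^ 2 + 12) * ((μ + 2 * k) * (μ + 2 * k + 1)) := by
      have h9 : 6 / ν ≤ 12 / ν ^ 2 := by
        rw [div_le_div_iff₀ hν0 (by positivity)]
        nlinarith
      have h10 : 2 * (μ + 2 * (k : ℝ)) / ν * (3 * (μ + 2 * k + 1)) = 6 / ν * ((μ + 2 * k) * (μ + 2 * k + 1)) := by ring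
      rw [h10]
      have h11 : 6 / ν ≤ 12 / ν ^ 2 + 12 := by linarith
      gcongr
    calc 1 * ((2 * (k : ℝ) + 2) * (2 * k + 3)) ≤ 2 * (μ + 2 * (k : ℝ)) / ν * (3 * (μ + 2 * k + 1)) := by
          rw [one_mul]
          have : 0 ≤ 2 * (μ + 2 * (k : ℝ)) / ν := by positivity
          gcongr
      _ ≤ _ := h8

end Run7.h278.LG
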