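import Pool.Agent.Run7.h278.LG.Loc2

set_option autoImplicit false

/-!
# The order of the smallest gaps within a factor 4/3
-/

namespace Run7.h278.LG

open Filter Topology MeasureTheory Set Run7.h278.LM Run7.h278.WL
open scoped ENNReal

theorem kappa_aux {R : ℝ → Prop} {al : EReal} (h1 : ∀ c : ℝ, 0 < c → c ≤ 1 → R c → ((-(4 / c) : ℝ) : EReal) ≤ al)
    (h2 : ∀ A : ℝ, 0 < A → ((-A : ℝ) : EReal) < al → ∀ c : ℝ, 0 < c → c ≤ 1 → A * c < 3 → R c) {κ : ℝ}
    (hκ : κ = sSup {c : ℝ | 0 < c ∧ c ≤ 1 ∧ R c}) :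
    (0 < κ → ((-(4 / κ) : ℝ) : EReal) ≤ al) ∧ (0 < κ → κ < 1 → al ≤ ((-(3 / κ) : ℝ) : EReal)) ∧ (κ = 0 → al = ⊥) := by
  have hbd : BddAbove {c : ℝ | 0 < c ∧ c ≤ 1 ∧ R c} := ⟨1, fun c hc => hc.2.1⟩
  have hle : ∀ c : ℝ, 0 < c → c ≤ 1 → R c → c ≤ κ := fun c a b d => by
    rw [hκ]
    exact le_csSup hbd ⟨a, b, d⟩
  refine ⟨fun hp => ?_, fun hp hp1 => ?_, fun h0 => ?_⟩
  · by_contra hne
    rw [not_le] at hne
    obtain ⟨b, hb1, hb2⟩ := EReal.lt_iff_exists_real_btwn.1 hne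
    have hb3 : b < -(4 / κ) := by exact_mod_cast hb2
    have h4 : 0 < 4 / κ := by positivity
    have hb : 0 < -b := by linarith
    have hc0 : 4 / (-b) < κ := by
      rw [div_lt_iff₀ hb]
      have h5 : 4 / κ < -b := by linarith
      rw [div_lt_iff₀ hp] at h5
      linarith
    have hne' : {c : ℝ | 0 < c ∧ c ≤ 1 ∧ R c}.Nonempty := by
      by_contra he
      rw [Set.not_nonempty_iff_eq_empty] at he
      rw [he, Real.sSup_empty] at hκ
      linarith
    rw [hκ] at hc0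
    obtain ⟨c, ⟨c1, c2, c3⟩, c4⟩ := exists_lt_of_lt_csSup hne' hc0
    have h5 := (h1 c c1 c2 c3).trans_lt hb1
    have h6 : -(4 / c) < b := by exact_mod_cast h5
    rw [div_lt_iff₀ hb] at c4
    have h7 : -b < 4 / c := by linarith
    rw [lt_div_iff₀ c1] at h7
    linarith
  · by_contra hne
    rw [not_le] at hne
    obtain ⟨b, hb1, hb2⟩ := EReal.lt_iff_exists_real_btwn.1 hne
    have hb3 : -(3 / κ) < b := by exact_mod_cast hb1
    set A := max (-b) (1 / κ) with hA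
    have hA0 : 0 < A := lt_max_of_lt_right (by positivity)
    have hA1 : A < 3 / κ := max_lt (by linarith) (div_lt_div_of_pos_right (by norm_num) hp)
    have hAκ : A * κ < 3 := by rwa [lt_div_iff₀ hp] at hA1
    have hAal : ((-A : ℝ) : EReal) < al := lt_of_le_of_lt (by
      rw [EReal.coe_le_coe_iff]
      linarith [le_max_left (-b) (1 / κ)]) hb2
    set c := min 1 ((3 / A + κ) / 2) with hc
    have h3A : κ < 3 / A := by
      rw [lt_div_iff₀ hA0]
      linarith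
    have hcκ : κ < c := lt_min hp1 (by linarith)
    have hAc : A * c < 3 := by
      have h5 : A * c ≤ A * ((3 / A + κ) / 2) := mul_le_mul_of_nonneg_left (min_le_right _ _) hA0.le
      have h6 : A * ((3 / A + κ) / 2) = (3 + A * κ) / 2 := by field_simp
      linarith
    have h5 := hle c (hp.trans hcκ) (min_le_left _ _) (h2 A hA0 hAal c (hp.trans hcκ) (min_le_left _ _) hAc)
    linarith
  · by_contra hne
    obtain ⟨b, hb1, hb2⟩ := EReal.lt_iff_exists_real_btwn.1 (bot_lt_iff_ne_bot.2 hne)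
    set A := max (-b) 1 with hA
    have hA1 : 1 ≤ A := le_max_right _ _
    have hA0 : 0 < A := by linarith
    have hAal : ((-A : ℝ) : EReal) < al := lt_of_le_of_lt (by
      rw [EReal.coe_le_coe_iff]
      linarith [le_max_left (-b) 1]) hb2
    have hc0 : 0 < 1 / A := by positivity
    have hc1 : 1 / A ≤ 1 := by rwa [div_le_one hA0]
    have h5 := hle (1 / A) hc0 hc1 (h2 A hA0 hAal (1 / A) hc0 hc1 (by
      rw [mul_one_div_cancel hA0.ne']
      norm_num))
    linarith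

/-- **The order of the smallest gaps within a factor 4/3.** -/
theorem alpha_kappa {g : ℕ → ℝ} (hg : EnumZ g) (hRH : RiemannHypothesis) (hF : FinMult) {κ : ℝ}
    (hκ : κ = sSup {c : ℝ | 0 < c ∧ c ≤ 1 ∧ RateAt (PM aa 0 1) c}) :
    (0 < κ → ((-(4 / κ) : ℝ) : EReal) ≤ alpha g) ∧ (0 < κ → κ < 1 → alpha g ≤ ((-(3 / κ) : ℝ) : EReal)) ∧ (κ = 0 → alpha g = ⊥) :=
  kappa_aux (fun c hc hc1 h => (zeta_alpha hg).1 c hc hc1 h hF) (fun _ hA h => (alpha_rate hg hA hRH h).2) hκ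

end Run7.h278.LG
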