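import Pool.Agent.Run7.h278.LG.Pair

set_option autoImplicit false

/-!
# Local density and the weighted number of close pairs
-/

namespace Run7.h278.LG

open Filter Topology MeasureTheory Set Run7.h278.LM Run7.h278.WL
open scoped ENNReal

section

variable {T : Set ℝ} {m : ℝ → ℝ}

/-- sums of powers -/
theorem Cm.powsum (cm : Cm T m) {C : ℝ} (hC : 0 ≤ C) (hb : ∀ y, 0 < y → Bt T m y ≤ C * y * (1 + Real.log (1 + y))) {σ : ℝ} (hσ : 1 < σ) :
    Summable fun t : T => m t * (t : ℝ) ^ (-σ) := by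
  classical
  obtain ⟨t0, ht0, ht⟩ := cm.ct.t0
  set η := (σ - 1) / 2 with hη
  have hη0 : 0 < η := by
    rw [hη]
    linarith
  set D : ℝ := (2 * t0) ^ (-η) + (1 + 1 / (2 * t0)) ^ η / η with hD
  have hD0 : 0 ≤ D := by positivity
  have hlog : ∀ y : ℝ, 2 * t0 ≤ y → 1 + Real.log (1 + y) ≤ D * y ^ η := by
    intro y hy
    have hy0 : 0 < y := by linarith
    have h1 : 1 ≤ (2 * t0) ^ (-η) * y ^ η := by
      rw [Real.rpow_neg (by positivity), ← div_eq_inv_mul, one_le_div (by positivity)]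
      exact Real.rpow_le_rpow (by positivity) hy hη0.le
    have h2 : Real.log (1 + y) ≤ (1 + y) ^ η / η := Real.log_le_rpow_div (by linarith) hη0
    have h3 : (1 + y) ^ η ≤ (1 + 1 / (2 * t0)) ^ η * y ^ η := by
      rw [← Real.mul_rpow (by positivity) hy0.le]
      refine Real.rpow_le_rpow (by linarith) ?_ hη0.le
      have h4 : 1 ≤ 1 / (2 * t0) * y := by
        rw [one_div, ← div_eq_inv_mul, one_le_div (by positivity)]
        exact hy
      nlinarith
    have h5 : (1 + y) ^ η / η ≤ (1 + 1 / (2 * t0)) ^ η * y ^ η / η := div_le_div_of_nonneg_right h3 hη0.le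
    rw [hD]
    have h6 : ((2 * t0) ^ (-η) + (1 + 1 / (2 * t0)) ^ η / η) * y ^ η = (2 * t0) ^ (-η) * y ^ η + (1 + 1 / (2 * t0)) ^ η * y ^ η / η := by ring
    rw [h6]
    linarith
  set Y : ℕ → ℝ := fun k => 2 ^ (k + 1) * t0 with hY
  have hY0 : ∀ k, 0 < Y k := fun k => by
    rw [hY]
    positivity
  have hY2 : ∀ k, 2 * t0 ≤ Y k := fun k => by
    rw [hY]
    simp only
    have : (1 : ℝ) ≤ 2 ^ k := one_le_pow₀ one_le_two
    rw [pow_succ]
    nlinarith
  set r : ℕ → ℝ := fun k => 2 ^ σ * C * D * (2 * t0) ^ (-η) * ((2 : ℝ) ^ (-η)) ^ k with hr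
  have hrs : Summable r := by
    refine (summable_geometric_of_lt_one (by positivity) ?_).mul_left _
    exact Real.rpow_lt_one_of_one_lt_of_neg one_lt_two (by linarith)
  set g : ℕ → T → ℝ := fun k t => 2 ^ σ * Y k ^ (-σ) * (if (t : ℝ) ≤ Y k then m t else 0) with hg
  have gnn : ∀ k t, 0 ≤ g k t := fun k t => by
    rw [hg]
    simp only
    have := cm.one t
    have h1 := hY0 k
    split_ifs
    · positivity
    · simp
  have hgsum : ∀ (s : Finset T) (k : ℕ), ∑ t ∈ s, g k t ≤ r k := by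
    intro s k
    have h1 : ∑ t ∈ s, (if (t : ℝ) ≤ Y k then m t else 0) ≤ Bt T m (Y k) :=
      (cm.ct.sm (Y k)).sum_le_tsum s fun t _ => by
        have := cm.one t
        split_ifs
        · linarith
        · exact le_refl 0
    have h2 := hb (Y k) (hY0 k)
    have h3 := hlog (Y k) (hY2 k)
    have h4 : C * Y k * (1 + Real.log (1 + Y k)) ≤ C * Y k * (D * Y k ^ η) :=
      mul_le_mul_of_nonneg_left h3 (mul_nonneg hC (hY0 k).le)
    rw [hg]
    simp only
    rw [← Finset.mul_sum]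
    have h5 : (0 : ℝ) ≤ 2 ^ σ * Y k ^ (-σ) := mul_nonneg (by positivity) (Real.rpow_nonneg (hY0 k).le _)
    refine (mul_le_mul_of_nonneg_left ((h1.trans h2).trans h4) h5).trans (le_of_eq ?_)
    have h6 : Y k ^ (-σ) * Y k * Y k ^ η = Y k ^ (-η) := by
      nth_rewrite 2 [← Real.rpow_one (Y k)]
      rw [← Real.rpow_add (hY0 k), ← Real.rpow_add (hY0 k)]
      congr 1
      rw [hη]
      ring
    have h7 : Y k ^ (-η) = (2 * t0) ^ (-η) * ((2 : ℝ) ^ (-η)) ^ k := by
      have e : Y k = 2 ^ k * (2 * t0) := by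
        rw [hY]
        simp only
        ring
      rw [e, Real.mul_rpow (by positivity) (by positivity), ← Real.rpow_natCast 2 k, ← Real.rpow_mul (by norm_num),
        ← Real.rpow_natCast (2 ^ (-η)) k, ← Real.rpow_mul (by norm_num), mul_comm (k : ℝ) (-η)]
      ring
    rw [hr]
    simp only
    calc 2 ^ σ * Y k ^ (-σ) * (C * Y k * (D * Y k ^ η)) = 2 ^ σ * C * D * (Y k ^ (-σ) * Y k * Y k ^ η) := by ring
      _ = _ := by
        rw [h6, h7]
        ring
  have gle : ∀ (k : ℕ) (t : T), g k t ≤ r k := fun k t => by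
    have := hgsum {t} k
    simpa using this
  have gs : ∀ t : T, Summable fun k => g k t := fun t => Summable.of_nonneg_of_le (fun k => gnn k t) (fun k => gle k t) hrs
  have key : ∀ t : T, m t * (t : ℝ) ^ (-σ) ≤ ∑' k, g k t := by
    intro t
    have h0 : t0 ≤ (t : ℝ) := ht t t.2
    have h1 : (0 : ℝ) < t := by linarith
    have hex : ∃ k : ℕ, (t : ℝ) ≤ Y k := by
      obtain ⟨k, hk⟩ := pow_unbounded_of_one_lt ((t : ℝ) / t0) one_lt_two
      refine ⟨k, ?_⟩
      rw [div_lt_iff₀ ht0] at hk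
      rw [hY]
      simp only
      have h2 : (0 : ℝ) < 2 ^ k * t0 := by positivity
      rw [pow_succ]
      linarith
    set k := Nat.find hex with hk
    have hk1 : (t : ℝ) ≤ Y k := Nat.find_spec hex
    refine le_trans ?_ ((gs t).le_tsum k fun i _ => gnn i t)
    have h2 : Y k / 2 ≤ t := by
      rcases Nat.eq_zero_or_pos k with h3 | h3
      · rw [h3, hY]
        simp only
        linarith
      · have h4 : ¬ (t : ℝ) ≤ Y (k - 1) := Nat.find_min hex (by omega)
        have h5 : Y k / 2 = Y (k - 1) := by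
          rw [hY]
          simp only
          rw [Nat.sub_add_cancel h3]
          ring
        rw [h5]
        exact (not_le.1 h4).le
    have h3 : (t : ℝ) ^ (-σ) ≤ 2 ^ σ * Y k ^ (-σ) := by
      have h4 : (t : ℝ) ^ (-σ) ≤ (Y k / 2) ^ (-σ) := Real.rpow_le_rpow_of_nonpos (by have := hY0 k; positivity) h2 (by linarith)
      refine h4.trans (le_of_eq ?_)
      rw [Real.div_rpow (hY0 k).le (by norm_num), Real.rpow_neg (by norm_num : (0 : ℝ) ≤ 2), div_inv_eq_mul, mul_comm]
    rw [hg]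
    simp only
    rw [if_pos hk1, mul_comm]
    exact mul_le_mul_of_nonneg_right h3 (by linarith [cm.one t])
  refine summable_of_sum_le (c := ∑' k, r k) (fun t => ?_) fun s => ?_
  · have := cm.one t
    have h1 : (0 : ℝ) < t := cm.pos t t.2
    positivity
  · calc ∑ t ∈ s, m t * (t : ℝ) ^ (-σ) ≤ ∑ t ∈ s, ∑' k, g k t := Finset.sum_le_sum fun t _ => key t
      _ = ∑' k, ∑ t ∈ s, g k t := (Summable.tsum_finsetSum fun t _ => gs t).symm
      _ ≤ ∑' k, r k := Summable.tsum_le_tsum (hgsum s) (Summable.of_nonneg_of_le (fun k => Finset.sum_nonneg fun t _ => gnn k t) (hgsum s) hrs) hrs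

end

/-- the local density of the zeros -/
theorem locZ (hRH : RiemannHypothesis) : ∃ C : ℝ, 0 < C ∧ ∀ (y : ℝ) (A : Finset ℝ), 3 ≤ y →
    (∀ t ∈ A, t ∈ TZ ∧ y - 1 < t ∧ t ≤ y + 1) → ∑ t ∈ A, (WL.mt t : ℝ) ≤ C * Real.log y := by
  classical
  have hgood : H370.GoodL riemannZeta := by
    have := H370.good_dirichlet (1 : DirichletCharacter ℂ 1) DirichletCharacter.isPrimitive_one_level_one
    rwa [L_one] at this
  obtain ⟨C, hC, h⟩ := H370.zcount hgood
  obtain ⟨cm, -⟩ := cmZ hRH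
  have hG : ∀ s : ℂ, 0 < s.re → s.re < 1 → riemannZeta s = 0 → s.re = 1 / 2 := by
    have := GRHD_one.2 hRH ()
    rwa [show chi1 () = 1 from rfl, L_one] at this
  refine ⟨C, hC, fun y A hy hA => ?_⟩
  obtain ⟨A', hA'⟩ := cm.ct.A (y - 1) (y + 1)
  have h1 := (NN_A hgood hG (y := y - 1) (z := y + 1) (by linarith) (A := A') (fun t ht => ((hA' t).1 ht).2)
    (fun t h1 h2 h3 => (hA' t).2 ⟨⟨by linarith, by rwa [mul_comm Complex.I]⟩, h1, h2⟩)).1
  have h2 := h y hy
  have h3 : ∑ t ∈ A, (WL.mt t : ℝ) ≤ ∑ t ∈ A', (WL.mt t : ℝ) :=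
    Finset.sum_le_sum_of_subset_of_nonneg (fun t ht => (hA' t).2 (hA t ht)) fun t _ _ => Nat.cast_nonneg _
  refine h3.trans (le_trans (le_of_eq ?_) h2)
  rw [h1]
  push_cast
  refine Finset.sum_congr rfl fun t _ => ?_
  unfold WL.mt H370.mult
  rw [mul_comm Complex.I]

end Run7.h278.LG
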