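import Pool.Agent.Run7.h278.LG.Loc

set_option autoImplicit false

/-!
# From the gaps to the rate
-/

namespace Run7.h278.LG

open Filter Topology MeasureTheory Set Run7.h278.LM Run7.h278.WL
open scoped ENNReal

/-- the weight of the ordinates just below -/
noncomputable def qZ (t' : TZ) : ℝ := ∑' t : TZ, open Classical in if (t : ℝ) < t' ∧ (t' : ℝ) - t ≤ 1 then wZ t else 0

theorem qZ_le (hRH : RiemannHypothesis) : ∃ C : ℝ, 0 < C ∧ ∀ t' : TZ, 4 ≤ (t' : ℝ) → qZ t' ≤ C * Real.log t' / (t' : ℝ) ^ 2 := by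
  classical
  obtain ⟨w1, s1, -⟩ := zeta_core hRH
  obtain ⟨C, hC, h⟩ := locZ hRH
  refine ⟨2 * C, by positivity, fun t' h4 => ?_⟩
  have ht0 : (0 : ℝ) < t' := by linarith
  unfold qZ
  refine Real.tsum_le_of_sum_le (fun t => ?_) fun s => ?_
  · split_ifs
    · exact (w1 t).le
    · exact le_refl 0
  · rw [← Finset.sum_filter]
    set s' := s.filter fun t : TZ => (t : ℝ) < t' ∧ (t' : ℝ) - t ≤ 1 with hs'
    have hmem : ∀ t ∈ s', (t : ℝ) < t' ∧ (t' : ℝ) - t ≤ 1 := fun t ht => (Finset.mem_filter.1 ht).2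
    have h1 : ∀ t ∈ s', wZ t ≤ 2 / (t' : ℝ) ^ 2 * (WL.mt t : ℝ) := by
      intro t ht
      obtain ⟨a1, a2⟩ := hmem t ht
      unfold wZ
      rw [div_mul_eq_mul_div, div_le_div_iff₀ (by positivity) (by positivity)]
      have a3 : (t' : ℝ) ^ 2 ≤ 2 * (1 / 4 + (t : ℝ) ^ 2) := by nlinarith
      have a4 : (0 : ℝ) ≤ WL.mt t := Nat.cast_nonneg _
      calc (WL.mt t : ℝ) * (t' : ℝ) ^ 2 ≤ WL.mt t * (2 * (1 / 4 + (t : ℝ) ^ 2)) := mul_le_mul_of_nonneg_left a3 a4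
        _ = _ := by ring
    have h2 : ∑ t ∈ s', (WL.mt t : ℝ) ≤ C * Real.log (t' - 1 / 2) := by
      have h3 := h (t' - 1 / 2) (s'.map ⟨Subtype.val, Subtype.val_injective⟩) (by linarith) (fun t ht => by
        obtain ⟨x, hx, rfl⟩ := Finset.mem_map.1 ht
        obtain ⟨a1, a2⟩ := hmem x hx
        refine ⟨x.2, ?_, ?_⟩
        · show (t' : ℝ) - 1 / 2 - 1 < (x : ℝ)
          linarith
        · show (x : ℝ) ≤ t' - 1 / 2 + 1
          linarith)
      rw [Finset.sum_map] at h3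
      exact h3
    have h3 : Real.log (t' - 1 / 2) ≤ Real.log t' := Real.log_le_log (by linarith) (by linarith)
    calc ∑ t ∈ s', wZ t ≤ ∑ t ∈ s', 2 / (t' : ℝ) ^ 2 * (WL.mt t : ℝ) := Finset.sum_le_sum h1
      _ = 2 / (t' : ℝ) ^ 2 * ∑ t ∈ s', (WL.mt t : ℝ) := by rw [Finset.mul_sum]
      _ ≤ 2 / (t' : ℝ) ^ 2 * (C * Real.log t') := mul_le_mul_of_nonneg_left (h2.trans (mul_le_mul_of_nonneg_left h3 hC.le)) (by positivity)
      _ = _ := by ring

/-- the term with a power -/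
noncomputable def QT (β : ℝ) (p : TZ × TZ) : ℝ :=
  open Classical in if (p.2 : ℝ) < p.1 ∧ (p.1 : ℝ) - p.2 ≤ 1 then wZ p.2 * wZ p.1 * max 1 (p.1 : ℝ) ^ β else 0

theorem QT_sum (hRH : RiemannHypothesis) {β : ℝ} (hβ0 : 0 ≤ β) (hβ : β < 3) : Summable (QT β) := by
  classical
  obtain ⟨w1, s1, -⟩ := zeta_core hRH
  obtain ⟨cm, Cb, hCb, hbd⟩ := cmZ hRH
  obtain ⟨C, hC, hq⟩ := qZ_le hRH
  have hX : ∀ t : TZ, 0 < max 1 (t : ℝ) := fun t => lt_max_of_lt_left one_pos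
  have hnn : ∀ p, 0 ≤ QT β p := fun p => by
    unfold QT
    split_ifs
    · exact mul_nonneg (mul_nonneg (w1 _).le (w1 _).le) (Real.rpow_nonneg (hX _).le _)
    · exact le_refl 0
  set ε := (3 - β) / 2 with hε
  have hε0 : 0 < ε := by
    rw [hε]
    linarith
  have hσ : 1 < 4 - β - ε := by
    rw [hε]
    linarith
  have hps := cm.powsum hCb hbd hσ
  have hterm : ∀ t' t : TZ, QT β (t', t) = wZ t' * max 1 (t' : ℝ) ^ β * (if (t : ℝ) < t' ∧ (t' : ℝ) - t ≤ 1 then wZ t else 0) := by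
    intro t' t
    unfold QT
    simp only
    split_ifs
    · ring
    · rw [mul_zero]
  have hsq : ∀ t' : TZ, Summable fun t : TZ => if (t : ℝ) < t' ∧ (t' : ℝ) - t ≤ 1 then wZ t else 0 := fun t' =>
    Summable.of_nonneg_of_le (fun t => by
      split_ifs
      · exact (w1 t).le
      · exact le_refl 0) (fun t => by
      split_ifs
      · exact le_refl _
      · exact (w1 t).le) s1
  rw [summable_prod_of_nonneg hnn]
  refine ⟨fun t' => ?_, ?_⟩
  · simp_rw [hterm]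
    exact (hsq t').mul_left _
  · have e : ∀ t' : TZ, ∑' t : TZ, QT β (t', t) = wZ t' * max 1 (t' : ℝ) ^ β * qZ t' := by
      intro t'
      simp_rw [hterm]
      rw [tsum_mul_left]
      rfl
    simp_rw [e]
    have hq0 : ∀ t' : TZ, 0 ≤ qZ t' := fun t' => tsum_nonneg fun t => by
      split_ifs
      · exact (w1 t).le
      · exact le_refl 0
    have hqS : ∀ t' : TZ, qZ t' ≤ ∑' t, wZ t := fun t' => Summable.tsum_le_tsum (fun t => by
      split_ifs
      · exact le_refl _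
      · exact (w1 t).le) (hsq t') s1
    have hS0 : 0 ≤ ∑' t, wZ t := tsum_nonneg fun t => (w1 t).le
    refine Summable.of_nonneg_of_le (fun t' => mul_nonneg (mul_nonneg (w1 _).le (Real.rpow_nonneg (hX _).le _)) (hq0 t')) (fun t' => ?_)
      ((s1.mul_right (4 ^ β * ∑' t, wZ t)).add (hps.mul_left (C / ε)))
    have hm : (0 : ℝ) ≤ WL.mt t' := Nat.cast_nonneg _
    have ht0 : (0 : ℝ) < t' := TZ_pos t'
    have hp2 : 0 ≤ C / ε * ((WL.mt t' : ℝ) * (t' : ℝ) ^ (-(4 - β - ε))) := by positivity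
    have hp1 : 0 ≤ wZ t' * (4 ^ β * ∑' t, wZ t) := mul_nonneg (w1 _).le (by positivity)
    rcases lt_or_ge (t' : ℝ) 4 with h4 | h4
    · have h1 : max 1 (t' : ℝ) ^ β ≤ 4 ^ β := Real.rpow_le_rpow (hX _).le (max_le (by norm_num) h4.le) hβ0
      have h2 : wZ t' * max 1 (t' : ℝ) ^ β * qZ t' ≤ wZ t' * 4 ^ β * ∑' t, wZ t :=
        mul_le_mul (mul_le_mul_of_nonneg_left h1 (w1 _).le) (hqS t') (hq0 t') (mul_nonneg (w1 _).le (by positivity))
      have h3 : wZ t' * 4 ^ β * ∑' t, wZ t = wZ t' * (4 ^ β * ∑' t, wZ t) := by ring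
      linarith
    · have h1 : max 1 (t' : ℝ) = t' := max_eq_right (by linarith)
      rw [h1]
      have h2 : wZ t' ≤ (WL.mt t' : ℝ) / (t' : ℝ) ^ 2 := by
        unfold wZ
        exact div_le_div_of_nonneg_left hm (by positivity) (by linarith)
      have h3 := hq t' h4
      have h5 : Real.log t' ≤ (t' : ℝ) ^ ε / ε := Real.log_le_rpow_div ht0.le hε0
      have h6 : qZ t' ≤ C * ((t' : ℝ) ^ ε / ε) / (t' : ℝ) ^ 2 := h3.trans (div_le_div_of_nonneg_right (mul_le_mul_of_nonneg_left h5 hC.le) (by positivity))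
      have h7 : wZ t' * (t' : ℝ) ^ β * qZ t' ≤ (WL.mt t' : ℝ) / (t' : ℝ) ^ 2 * (t' : ℝ) ^ β * (C * ((t' : ℝ) ^ ε / ε) / (t' : ℝ) ^ 2) :=
        mul_le_mul (mul_le_mul_of_nonneg_right h2 (by positivity)) h6 (hq0 t') (by positivity)
      have h8 : (WL.mt t' : ℝ) / (t' : ℝ) ^ 2 * (t' : ℝ) ^ β * (C * ((t' : ℝ) ^ ε / ε) / (t' : ℝ) ^ 2) =
          C / ε * ((WL.mt t' : ℝ) * (t' : ℝ) ^ (-(4 - β - ε))) := by
        have h9 : (t' : ℝ) ^ (-(4 - β - ε)) = (t' : ℝ) ^ β * (t' : ℝ) ^ ε / ((t' : ℝ) ^ 2 * (t' : ℝ) ^ 2) := by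
          rw [eq_div_iff (by positivity), ← pow_add, ← Real.rpow_natCast (t' : ℝ) (2 + 2), ← Real.rpow_add ht0, ← Real.rpow_add ht0]
          congr 1
          push_cast
          ring
        rw [h9]
        field_simp
      linarith

/-- **From the gaps to the pairs.** -/
theorem gap_pairs (hRH : RiemannHypothesis) {A c : ℝ} (hA : 0 ≤ A) (hc : 0 < c) (hAc : A * c < 3) (h : GapA TZ A) :
    ∃ C : ℝ, ∀ v : ℝ, 0 < v → v < 1 → PP v ≤ C * v ^ c := by
  classical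
  obtain ⟨w1, s1, -⟩ := zeta_core hRH
  obtain ⟨c', hc', h⟩ := h
  have hQ := QT_sum hRH (β := A * c) (by positivity) hAc
  have hQ' : HasSum (fun p : TZ × TZ => QT (A * c) (p.2, p.1)) (∑' p, QT (A * c) p) := by
    have := (Equiv.prodComm TZ TZ).hasSum_iff.2 hQ.hasSum
    exact this
  refine ⟨(1 / c') ^ c * ∑' p, QT (A * c) p, fun v hv hv1 => ?_⟩
  have h1 := hasSum_le (fun p => ?_) (PT_sum w1 s1 v).hasSum (hQ'.mul_left ((v / c') ^ c))
  · refine le_trans h1 (le_of_eq ?_)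
    rw [div_eq_mul_one_div v c', Real.mul_rpow hv.le (by positivity)]
    ring
  · show PT v p ≤ (v / c') ^ c * QT (A * c) (p.2, p.1)
    unfold PT QT
    simp only
    by_cases hp : (p.1 : ℝ) < p.2 ∧ (p.2 : ℝ) - p.1 ≤ v
    · rw [if_pos hp, if_pos ⟨hp.1, by linarith [hp.2]⟩]
      have hX0 : 0 < max 1 (p.2 : ℝ) := lt_max_of_lt_left one_pos
      have h2 := h (max 1 (p.2 : ℝ)) (le_max_left _ _) p.1 p.1.2 p.2 p.2.2 hp.1 (le_max_right _ _)
      have h3 : 1 ≤ v / c' * max 1 (p.2 : ℝ) ^ A := by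
        have h4 : c' * max 1 (p.2 : ℝ) ^ (-A) ≤ v := h2.trans hp.2
        rw [Real.rpow_neg hX0.le, ← div_eq_mul_inv, div_le_iff₀ (by positivity)] at h4
        rw [div_mul_eq_mul_div, one_le_div hc']
        exact h4
      have h5 : 1 ≤ (v / c') ^ c * max 1 (p.2 : ℝ) ^ (A * c) := by
        have h6 := Real.one_le_rpow h3 hc.le
        rwa [Real.mul_rpow (by positivity) (by positivity), ← Real.rpow_mul hX0.le] at h6
      have h7 : 0 ≤ wZ p.1 * wZ p.2 := mul_nonneg (w1 _).le (w1 _).le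
      calc wZ p.1 * wZ p.2 = wZ p.1 * wZ p.2 * 1 := (mul_one _).symm
        _ ≤ wZ p.1 * wZ p.2 * ((v / c') ^ c * max 1 (p.2 : ℝ) ^ (A * c)) := mul_le_mul_of_nonneg_left h5 h7
        _ = _ := by ring
    · rw [if_neg hp]
      refine mul_nonneg (by positivity) ?_
      split_ifs
      · exact mul_nonneg (mul_nonneg (w1 _).le (w1 _).le) (by positivity)
      · exact le_refl 0

/-- **The order of the smallest gaps and the rate.** -/
theorem alpha_rate {g : ℕ → ℝ} (hg : EnumZ g) {A : ℝ} (hA : 0 < A) (hRH : RiemannHypothesis) (h : ((-A : ℝ) : EReal) < alpha g) :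
    FinMult ∧ ∀ c : ℝ, 0 < c → c ≤ 1 → A * c < 3 → RateAt (PM aa 0 1) c := by
  obtain ⟨cm, hl⟩ := cmZ' hRH
  have hone : ∀ t ∈ TZ, 1 ≤ WL.mt t := fun t ht => by
    have := cm.one ⟨t, ht⟩
    exact_mod_cast this
  obtain ⟨h3, h4⟩ := (enumZ_en hRH hg).upper cm.ct hone hl hA h
  exact ⟨(finMult_iff hRH).2 h3, fun c hc hc1 hAc => (zeta_pairs hc hc1).2 ⟨hRH, gap_pairs hRH hA.le hc hAc h4⟩⟩

end Run7.h278.LG
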