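import Pool.Agent.Run7.h278.LM.Lim

set_option autoImplicit false

/-!
# Sums of cosines with a constant term
-/

namespace Run7.h278.LG

open Complex Filter Topology MeasureTheory Set Run7.h278.LM

theorem exists_const {c : ℝ} (hc : 0 ≤ c) : ∃ (κ : Type) (a θ : κ → ℝ) (p : κ → ℕ), Rp (fun _ => c) κ a θ p ∧
    (∀ i, θ i = 0) ∧ (∃ i, Even (p i)) ∧ Mn a θ p = Real.cosh c := by
  classical
  rcases hc.eq_or_lt with h0 | h0
  · refine ⟨Unit, fun _ => 1, fun _ => 0, fun _ => 0, ?_, fun _ => rfl, ⟨(), by simp⟩, ?_⟩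
    · rw [← h0]
      exact Rp.zero
    · unfold Mn
      simp [← h0]
  · refine ⟨Bool, fun b => if b then Real.cosh c else Real.sinh c, fun _ => 0, fun b => if b then 0 else 1,
      ⟨fun b => ?_, (hasSum_fintype _).summable, fun ε hε u => ?_⟩, fun _ => rfl, ⟨true, by simp⟩, ?_⟩
    · cases b
      · simpa using Real.sinh_pos_iff.2 h0
      · simpa using Real.cosh_pos c
    · have h1 := hasSum_fintype (fun b : Bool => (((if b then Real.cosh c else Real.sinh c) * ε ^ (if b then 0 else 1) : ℝ) : ℂ) *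
        cexp (I * ((0 : ℝ) : ℂ) * u))
      have h2 : ∑ b : Bool, (((if b then Real.cosh c else Real.sinh c) * ε ^ (if b then 0 else 1) : ℝ) : ℂ) *
          cexp (I * ((0 : ℝ) : ℂ) * u) = cexp (ε * c) := by
        rw [Fintype.sum_bool]
        rcases hε with rfl | rfl
        · simp [Complex.cosh_add_sinh]
        · simp only [if_true, Bool.false_eq_true, if_false, pow_zero, pow_one, mul_one, Complex.ofReal_zero, mul_zero, zero_mul,
            Complex.exp_zero]
          push_cast
          rw [mul_neg_one, ← sub_eq_add_neg, Complex.cosh_sub_sinh, neg_one_mul]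
      rw [h2] at h1
      exact h1
    · unfold Mn
      rw [tsum_fintype, Fintype.sum_bool]
      simp

variable {ι : Type} (c0 : ℝ) (w t : ι → ℝ)

/-- a representation with control of the frequencies -/
structure GoodC (S : Finset ι) (κ : Type) (c θ : κ → ℝ) (p : κ → ℕ) : Prop where
  rp : Rp (fun u => c0 + FS w t S u) κ c θ p
  spanA : ∀ i, ∃ n : ι → ℤ, θ i = ∑ k ∈ S, n k * t k
  spanB : ∀ n : ι → ℤ, ∃ i, θ i = ∑ k ∈ S, 2 * n k * t k ∧ Even (p i)

variable (hc0 : 0 ≤ c0)

include hc0 in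
theorem good_empty : ∃ (κ : Type) (c θ : κ → ℝ) (p : κ → ℕ), GoodC c0 w t ∅ κ c θ p ∧ Mn c θ p = Real.cosh c0 := by
  obtain ⟨κ, a, θ, p, h1, h2, ⟨i, h3⟩, h4⟩ := exists_const hc0
  refine ⟨κ, a, θ, p, ⟨?_, fun i => ⟨0, by simp [h2 i]⟩, fun n => ⟨i, by simp [h2 i], h3⟩⟩, h4⟩
  have : (fun u => c0 + FS w t ∅ u) = fun _ => c0 := by
    funext u
    simp [FS]
  rw [this]
  exact h1

theorem good_insert [DecidableEq ι] {S : Finset ι} {j : ι} (hj : j ∉ S) (hw : 0 < w j) {κ : Type} {c θ : κ → ℝ} {p : κ → ℕ}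
    (h : GoodC c0 w t S κ c θ p) : GoodC c0 w t (insert j S) (κ × (ℕ × ℕ))
      (fun x => c x.1 * (w j ^ x.2.1 / (x.2.1.factorial : ℝ) * (w j ^ x.2.2 / (x.2.2.factorial : ℝ))))
      (fun x => θ x.1 + ((x.2.1 : ℝ) - x.2.2) * t j) (fun x => p x.1 + (x.2.1 + x.2.2)) := by
  refine ⟨?_, ?_, ?_⟩
  · have h1 := h.rp.mul (Rp.one hw (t j))
    have e : (fun u => c0 + FS w t (insert j S) u) = fun u => c0 + FS w t S u + 2 * w j * Real.cos (t j * u) := by
      funext u
      unfold FS
      rw [Finset.sum_insert hj]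
      ring
    rw [e]
    exact h1
  · intro x
    obtain ⟨n, hn⟩ := h.spanA x.1
    refine ⟨Function.update n j ((x.2.1 : ℤ) - x.2.2), ?_⟩
    rw [Finset.sum_insert hj, Function.update_self, hn, add_comm]
    congr 1
    · push_cast
      ring
    · refine Finset.sum_congr rfl fun k hk => ?_
      rw [Function.update_of_ne]
      rintro rfl
      exact hj hk
  · intro n
    obtain ⟨i, hi, hp⟩ := h.spanB n
    obtain ⟨a, b, hab⟩ : ∃ a b : ℕ, (a : ℤ) - b = n j := by
      rcases le_total 0 (n j) with h1 | h1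
      · refine ⟨(n j).toNat, 0, ?_⟩
        rw [Int.toNat_of_nonneg h1]
        simp
      · refine ⟨0, (-n j).toNat, ?_⟩
        rw [Int.toNat_of_nonneg (by linarith)]
        simp
    have hab' : (a : ℝ) - b = n j := by exact_mod_cast hab
    refine ⟨(i, (2 * a, 2 * b)), ?_, hp.add ⟨a + b, by ring⟩⟩
    rw [Finset.sum_insert hj, hi]
    push_cast
    linear_combination 2 * t j * hab'

variable (hw : ∀ i, 0 < w i)

include hc0 hw

theorem exists_good (S : Finset ι) : ∃ (κ : Type) (c θ : κ → ℝ) (p : κ → ℕ), GoodC c0 w t S κ c θ p := by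
  classical
  induction S using Finset.induction_on with
  | empty =>
    obtain ⟨κ, c, θ, p, h, -⟩ := good_empty c0 w t hc0
    exact ⟨κ, c, θ, p, h⟩
  | insert j S hj ih =>
    obtain ⟨κ, c, θ, p, h⟩ := ih
    exact ⟨_, _, _, _, good_insert c0 w t hj (hw j) h⟩

omit hc0 hw

/-- the mean value -/
noncomputable def MC (S : Finset ι) : ℝ := limUnder (𝓝[>] (0 : ℝ)) (Am fun u => Real.cosh (c0 + FS w t S u))

theorem MC_eq {S : Finset ι} {κ : Type} {c θ : κ → ℝ} {p : κ → ℕ} (h : GoodC c0 w t S κ c θ p) : MC c0 w t S = Mn c θ p :=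
  h.rp.tendsto.limUnder_eq

include hc0 hw

theorem MC_tendsto (S : Finset ι) : Tendsto (Am fun u => Real.cosh (c0 + FS w t S u)) (𝓝[>] 0) (𝓝 (MC c0 w t S)) := by
  obtain ⟨κ, c, θ, p, h⟩ := exists_good c0 w t hc0 hw S
  rw [MC_eq c0 w t h]
  exact h.rp.tendsto

theorem MC_ge [DecidableEq ι] {S : Finset ι} {j : ι} (hj : j ∉ S) : MC c0 w t S * J (w j) ≤ MC c0 w t (insert j S) := by
  obtain ⟨κ, c, θ, p, h⟩ := exists_good c0 w t hc0 hw S
  rw [MC_eq c0 w t h, MC_eq c0 w t (good_insert c0 w t hj (hw j) h)]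
  exact Mp_ge h.rp.pos h.rp.sum (hw j) (t j)

theorem MC_ins_eq [DecidableEq ι] {S : Finset ι} {j : ι} (hj : j ∉ S) (hli : LinearIndepOn ℚ t (insert j S : Finset ι)) :
    MC c0 w t (insert j S) = MC c0 w t S * J (w j) := by
  obtain ⟨κ, c, θ, p, h⟩ := exists_good c0 w t hc0 hw S
  rw [MC_eq c0 w t h, MC_eq c0 w t (good_insert c0 w t hj (hw j) h)]
  refine Mp_eq' h.rp.pos h.rp.sum (hw j) fun i n hn => ?_
  obtain ⟨m, hm⟩ := h.spanA i
  rw [linearIndepOn_finset_iff] at hli
  have h1 := hli (fun k => ((Function.update m j n k : ℤ) : ℚ)) (by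
    rw [Finset.sum_insert hj]
    simp only [Function.update_self]
    rw [← hn, hm, add_comm]
    congr 1
    refine Finset.sum_congr rfl fun k hk => ?_
    rw [Function.update_of_ne (by rintro rfl; exact hj hk)]
    simp [Algebra.smul_def]) j (Finset.mem_insert_self _ _)
  simpa using h1

theorem MC_ins_lt [DecidableEq ι] {S : Finset ι} {j : ι} (hj : j ∉ S) (hli : LinearIndepOn ℚ t (S : Set ι))
    (hld : ¬LinearIndepOn ℚ t (insert j S : Finset ι)) (ht : t j ≠ 0) :
    MC c0 w t S * J (w j) < MC c0 w t (insert j S) := by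
  obtain ⟨κ, c, θ, p, h⟩ := exists_good c0 w t hc0 hw S
  rw [MC_eq c0 w t h, MC_eq c0 w t (good_insert c0 w t hj (hw j) h)]
  refine Mp_gt h.rp.pos h.rp.sum (hw j) ht ?_
  rw [linearIndepOn_finset_iff] at hli hld
  push Not at hld
  obtain ⟨f, hf, i, hi, hfi⟩ := hld
  have hfj : f j ≠ 0 := by
    intro h0
    rw [Finset.sum_insert hj, h0, zero_smul, zero_add] at hf
    rcases Finset.mem_insert.1 hi with rfl | hi
    · exact hfi h0
    · exact hfi (hli f hf i hi)
  obtain ⟨b, hb⟩ := IsLocalization.exist_integer_multiples (nonZeroDivisors ℤ) (insert j S) f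
  choose! n hn using hb
  have hb0 : ((b : ℤ) : ℚ) ≠ 0 := by
    have := nonZeroDivisors.ne_zero b.2
    exact_mod_cast this
  have hn' : ∀ k ∈ insert j S, (n k : ℚ) = (b : ℤ) * f k := by
    intro k hk
    have := hn k hk
    simpa [Algebra.smul_def] using this
  have hnj : n j ≠ 0 := by
    intro h0
    have := hn' j (Finset.mem_insert_self _ _)
    rw [h0, Int.cast_zero] at this
    exact mul_ne_zero hb0 hfj this.symm
  have hrel : (n j : ℝ) * t j + ∑ k ∈ S, (n k : ℝ) * t k = 0 := by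
    have h1 : ∀ k ∈ insert j S, (n k : ℝ) * t k = ((b : ℤ) : ℝ) * (f k • t k) := by
      intro k hk
      have h2 : (n k : ℝ) = ((b : ℤ) : ℝ) * ((f k : ℚ) : ℝ) := by
        have := hn' k hk
        exact_mod_cast congrArg (fun q : ℚ => (q : ℝ)) this
      rw [h2, Algebra.smul_def]
      simp
      ring
    rw [← Finset.sum_insert (f := fun k => (n k : ℝ) * t k) hj, Finset.sum_congr rfl h1, ← Finset.mul_sum, hf, mul_zero]
  obtain ⟨i, hi, hp⟩ := h.spanB fun k => -n k
  refine ⟨i, n j, hnj, ?_, hp⟩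
  rw [hi]
  have h3 : ∑ k ∈ S, 2 * ((-n k : ℤ) : ℝ) * t k = -2 * ∑ k ∈ S, (n k : ℝ) * t k := by
    rw [Finset.mul_sum]
    refine Finset.sum_congr rfl fun k _ => ?_
    push_cast
    ring
  rw [h3]
  linear_combination -2 * hrel

variable {w} (hs : Summable w)

include hs

omit hc0 in
/-- uniform approximation of the means -/
theorem Am_unifC : TendstoUniformlyOn (fun (S : Finset ι) (δ : ℝ) => Am (fun u => Real.cosh (c0 + FS w t S u)) δ)
    (Am fun u => Real.cosh (c0 + FI w t u)) atTop (Ioi 0) := by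
  set B := |c0| + ∑' i, 2 * w i with hB
  have hB1 : 0 ≤ ∑' i, 2 * w i := tsum_nonneg fun i => by have := hw i; positivity
  have hB0 : 0 ≤ B := by positivity
  have h1 := tendstoUniformly_tsum (hs.mul_left 2) (fun i u => term_le w t hw i u)
  rw [Metric.tendstoUniformly_iff] at h1
  rw [Metric.tendstoUniformlyOn_iff]
  intro ε hε
  have hc := Real.cosh_pos B
  have h2 := h1 (ε / 2 / Real.cosh B) (by positivity)
  have b1 : ∀ u, |c0 + FI w t u| ≤ B := fun u => (abs_add_le _ _).trans (by have := FI_le t hw hs u; linarith)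
  have b2 : ∀ S u, |c0 + FS w t S u| ≤ B := fun S u => (abs_add_le _ _).trans (by have := FS_le t hw hs S u; linarith)
  filter_upwards [h2] with S hS δ hδ
  have hδ' : (0 : ℝ) < δ := hδ
  have h3 : ∀ u : ℝ, 0 < u → |Real.cosh (c0 + FI w t u) - Real.cosh (c0 + FS w t S u)| ≤ ε / 2 + 0 * Real.exp (-1 * u) := by
    intro u _
    have h4 := hS u
    rw [Real.dist_eq] at h4
    have h5 := cosh_lip (b1 u) (b2 S u)
    rw [add_sub_add_left_eq_sub] at h5
    have h6 : |FI w t u - FS w t S u| ≤ ε / 2 / Real.cosh B := h4.le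
    rw [zero_mul, add_zero]
    refine h5.trans ?_
    calc Real.cosh B * |FI w t u - FS w t S u| ≤ Real.cosh B * (ε / 2 / Real.cosh B) := by gcongr
      _ = ε / 2 := by field_simp
  have hb : ∀ x : ℝ, |x| ≤ B → |Real.cosh x| ≤ Real.cosh B := by
    intro x hx
    rw [abs_of_pos (Real.cosh_pos x), Real.cosh_le_cosh, abs_of_nonneg hB0]
    exact hx
  have c1 : Continuous fun u => Real.cosh (c0 + FI w t u) := Real.continuous_cosh.comp (continuous_const.add (FI_cont t hw hs))
  have c2 : Continuous fun u => Real.cosh (c0 + FS w t S u) := Real.continuous_cosh.comp (continuous_const.add (FS_cont w t S))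
  have h7 := Am_dist c1.continuousOn c2.continuousOn
    (fun u _ => hb _ (b1 u)) (fun u _ => hb _ (b2 S u)) h3 hδ'
  rw [Real.dist_eq]
  rw [zero_mul, add_zero] at h7
  linarith

theorem MC_le (S : Finset ι) : MC c0 w t S ≤ Real.cosh (|c0| + ∑' i, 2 * w i) := by
  set B := |c0| + ∑' i, 2 * w i with hB
  have hB1 : 0 ≤ ∑' i, 2 * w i := tsum_nonneg fun i => by have := hw i; positivity
  have hB0 : 0 ≤ B := by positivity
  refine le_of_tendsto (MC_tendsto c0 w t hc0 hw S) ?_
  filter_upwards [self_mem_nhdsWithin] with δ hδ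
  have hδ' : (0 : ℝ) < δ := hδ
  have b2 : ∀ S u, |c0 + FS w t S u| ≤ B := fun S u => (abs_add_le _ _).trans (by have := FS_le t hw hs S u; linarith)
  have h0 : ∀ u : ℝ, 0 < u → |Real.cosh (c0 + FS w t S u) - 0| ≤ Real.cosh B + 0 * Real.exp (-1 * u) := by
    intro u _
    rw [sub_zero, abs_of_pos (Real.cosh_pos _), zero_mul, add_zero, Real.cosh_le_cosh, abs_of_nonneg hB0]
    exact b2 S u
  have c2 : Continuous fun u => Real.cosh (c0 + FS w t S u) := Real.continuous_cosh.comp (continuous_const.add (FS_cont w t S))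
  have h1 := Am_dist (B := Real.cosh B) c2.continuousOn (continuous_const (y := (0 : ℝ))).continuousOn
    (fun u hu => by have := h0 u hu; rw [sub_zero, zero_mul, add_zero] at this; exact this)
    (fun u _ => by simp [(Real.cosh_pos B).le]) h0 hδ'
  rw [zero_mul, add_zero] at h1
  have h2 : Am (fun _ => (0 : ℝ)) δ = 0 := by simp [Am]
  rw [h2, sub_zero] at h1
  exact (le_abs_self _).trans h1

omit hs

/-- the ratio -/
noncomputable def rhoC (c0 : ℝ) (w t : ι → ℝ) (S : Finset ι) : ℝ := MC c0 w t S / ∏ i ∈ S, J (w i)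

omit hw in
theorem rhoC_empty : rhoC c0 w t ∅ = Real.cosh c0 := by
  unfold rhoC
  obtain ⟨κ, c, θ, p, h, h1⟩ := good_empty c0 w t hc0
  rw [MC_eq c0 w t h, h1]
  simp

theorem rhoC_ins [DecidableEq ι] {S : Finset ι} {j : ι} (hj : j ∉ S) : rhoC c0 w t S ≤ rhoC c0 w t (insert j S) := by
  have h1 := MC_ge c0 w t hc0 hw hj
  have h2 := prodJ_pos (w := w) S
  have h3 := one_le_J (w j)
  unfold rhoC
  rw [Finset.prod_insert hj, div_le_div_iff₀ (by positivity) (by positivity)]
  nlinarith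

theorem rhoC_ins_eq [DecidableEq ι] {S : Finset ι} {j : ι} (hj : j ∉ S) (hli : LinearIndepOn ℚ t (insert j S : Finset ι)) :
    rhoC c0 w t (insert j S) = rhoC c0 w t S := by
  have h1 := MC_ins_eq c0 w t hc0 hw hj hli
  have h2 := prodJ_pos (w := w) S
  have h3 := one_le_J (w j)
  unfold rhoC
  rw [Finset.prod_insert hj, h1]
  field_simp

theorem rhoC_ins_lt [DecidableEq ι] {S : Finset ι} {j : ι} (hj : j ∉ S) (hli : LinearIndepOn ℚ t (S : Set ι))
    (hld : ¬LinearIndepOn ℚ t (insert j S : Finset ι)) (ht : t j ≠ 0) : rhoC c0 w t S < rhoC c0 w t (insert j S) := by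
  have h1 := MC_ins_lt c0 w t hc0 hw hj hli hld ht
  have h2 := prodJ_pos (w := w) S
  have h3 := one_le_J (w j)
  unfold rhoC
  rw [Finset.prod_insert hj, div_lt_div_iff₀ (by positivity) (by positivity)]
  nlinarith

theorem rhoC_mono : Monotone (rhoC c0 w t) := by
  classical
  rw [Finset.monotone_iff_forall_le_insert]
  intro S a ha
  exact rhoC_ins c0 t hc0 hw ha

include hs

theorem rhoC_bdd : BddAbove (Set.range (rhoC c0 w t)) := by
  refine ⟨Real.cosh (|c0| + ∑' i, 2 * w i), ?_⟩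
  rintro _ ⟨S, rfl⟩
  have h2 := prodJ_pos (w := w) S
  have h1 := MC_le c0 t hc0 hw hs S
  unfold rhoC
  rw [div_le_iff₀ (by positivity)]
  have := Real.cosh_pos (|c0| + ∑' i, 2 * w i)
  nlinarith

/-- **The mean value of `cosh` of a sum of cosines with a constant term.** -/
theorem main_meanC (ht : ∀ i, t i ≠ 0) : ∃ L : ℝ, Tendsto (Am fun u => Real.cosh (c0 + FI w t u)) (𝓝[>] 0) (𝓝 L) ∧
    Real.cosh c0 * ∏' i, J (w i) ≤ L ∧ (L = Real.cosh c0 * ∏' i, J (w i) ↔ LinearIndependent ℚ t) := by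
  classical
  set R := ⨆ S, rhoC c0 w t S with hR
  have hρ := tendsto_atTop_ciSup (rhoC_mono c0 t hc0 hw) (rhoC_bdd c0 t hc0 hw hs)
  have hP := (J_mult hw hs).hasProd
  have hP' : Tendsto (fun S : Finset ι => ∏ i ∈ S, J (w i)) atTop (𝓝 (∏' i, J (w i))) := hP
  have hM : Tendsto (fun S : Finset ι => MC c0 w t S) atTop (𝓝 (R * ∏' i, J (w i))) := by
    refine (hρ.mul hP').congr fun S => ?_
    have h2 := prodJ_pos (w := w) S
    unfold rhoC
    field_simp
  have hC : 1 ≤ ∏' i, J (w i) := ge_of_tendsto' hP' fun S => prodJ_pos S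
  have hR1 : Real.cosh c0 ≤ R := by
    rw [← rhoC_empty c0 t hc0 (w := w)]
    exact le_ciSup (rhoC_bdd c0 t hc0 hw hs) ∅
  refine ⟨R * ∏' i, J (w i), ?_, ?_, ?_⟩
  · have h1 := (tendstoUniformlyOn_iff_tendstoUniformlyOnFilter.1 (Am_unifC c0 t hw hs))
    have h2 : TendstoUniformlyOnFilter (fun (S : Finset ι) (δ : ℝ) => Am (fun u => Real.cosh (c0 + FS w t S u)) δ)
        (Am fun u => Real.cosh (c0 + FI w t u)) atTop (𝓝[>] 0) := h1.mono_right (by
          rw [Filter.le_principal_iff]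
          exact self_mem_nhdsWithin)
    exact h2.tendsto_of_eventually_tendsto (Eventually.of_forall fun S => MC_tendsto c0 w t hc0 hw S) hM
  · nlinarith
  · have hC0 : 0 < ∏' i, J (w i) := by linarith
    have e1 : R * ∏' i, J (w i) = Real.cosh c0 * ∏' i, J (w i) ↔ R = Real.cosh c0 := by
      constructor
      · intro h
        exact mul_right_cancel₀ hC0.ne' h
      · intro h
        rw [h]
    rw [e1]
    constructor
    · intro hR1
      by_contra hld
      have hex : ∃ (S : Finset ι) (j : ι), j ∉ S ∧ LinearIndepOn ℚ t (S : Set ι) ∧ ¬LinearIndepOn ℚ t (insert j S : Finset ι) := by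
        by_contra hcon
        push Not at hcon
        apply hld
        have hall : ∀ S : Finset ι, LinearIndepOn ℚ t (S : Set ι) := by
          intro S
          induction S using Finset.induction_on with
          | empty => simp
          | insert j S hj ih => exact hcon S j hj ih
        rw [linearIndependent_iff']
        intro s g hg i hi
        exact (linearIndepOn_finset_iff.1 (hall s)) g hg i hi
      obtain ⟨S, j, hj, h1, h2⟩ := hex
      have h3 := rhoC_ins_lt c0 t hc0 hw hj h1 h2 (ht j)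
      have h4 : Real.cosh c0 ≤ rhoC c0 w t S := by
        rw [← rhoC_empty c0 t hc0 (w := w)]
        exact rhoC_mono c0 t hc0 hw (Finset.empty_subset S)
      have h5 : rhoC c0 w t (insert j S) ≤ R := le_ciSup (rhoC_bdd c0 t hc0 hw hs) _
      linarith
    · intro hli
      have hall : ∀ S : Finset ι, rhoC c0 w t S = Real.cosh c0 := by
        intro S
        induction S using Finset.induction_on with
        | empty => exact rhoC_empty c0 t hc0
        | insert j S hj ih =>
          rw [rhoC_ins_eq c0 t hc0 hw hj (hli.linearIndepOn _), ih]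
      rw [hR]
      simp_rw [hall]
      exact ciSup_const

end Run7.h278.LG
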