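import Pool.Agent.Run7.h278.LM.Lim

set_option autoImplicit false

/-!
# The powers of an absolutely convergent series
-/

namespace Run7.h278.LG

open Complex Filter Topology MeasureTheory Set Run7.h278.LM

section

variable {Y : Type}

/-- the multinomial term -/
noncomputable def Tm (x : Y → ℂ) (a : Y →₀ ℕ) : ℂ := a.prod fun i n => x i ^ n / (n.factorial : ℂ)

/-- the real multinomial term -/
noncomputable def Tr (x : Y → ℝ) (a : Y →₀ ℕ) : ℝ := a.prod fun i n => x i ^ n / (n.factorial : ℝ)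

theorem Tm_zero (x : Y → ℂ) : Tm x 0 = 1 := Finsupp.prod_zero_index

theorem Tm_add (x : Y → ℂ) (a : Y →₀ ℕ) (i : Y) : Tm x (a + Finsupp.single i 1) * ((a i + 1 : ℕ) : ℂ) = x i * Tm x a := by
  classical
  unfold Tm
  have h0 : ∀ j, x j ^ 0 / ((0 : ℕ).factorial : ℂ) = 1 := fun j => by simp
  rw [Finsupp.prod_of_support_subset (a + Finsupp.single i 1) (s := insert i a.support) (by
      intro j hj
      rw [Finsupp.mem_support_iff, Finsupp.add_apply] at hj
      rw [Finset.mem_insert, Finsupp.mem_support_iff]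
      by_contra hc
      push Not at hc
      apply hj
      rw [hc.2, Finsupp.single_apply, if_neg (fun h => hc.1 h.symm), add_zero]) _ (fun j _ => h0 j),
    Finsupp.prod_of_support_subset a (s := insert i a.support) (Finset.subset_insert _ _) _ (fun j _ => h0 j)]
  rw [← Finset.mul_prod_erase _ _ (Finset.mem_insert_self i a.support), ← Finset.mul_prod_erase (insert i a.support) _ (Finset.mem_insert_self i a.support)]
  have h1 : ∏ j ∈ (insert i a.support).erase i, x j ^ ((a + Finsupp.single i 1 : Y →₀ ℕ) j) / (((a + Finsupp.single i 1 : Y →₀ ℕ) j).factorial : ℂ) =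
      ∏ j ∈ (insert i a.support).erase i, x j ^ (a j) / ((a j).factorial : ℂ) := by
    refine Finset.prod_congr rfl fun j hj => ?_
    have hji : j ≠ i := Finset.ne_of_mem_erase hj
    rw [Finsupp.add_apply, Finsupp.single_apply, if_neg (fun h => hji h.symm), add_zero]
  rw [h1, Finsupp.add_apply, Finsupp.single_eq_same, pow_succ, Nat.factorial_succ]
  have h2 : ((a i).factorial : ℂ) ≠ 0 := Nat.cast_ne_zero.2 (Nat.factorial_ne_zero _)
  have h3 : (((a i + 1 : ℕ)) : ℂ) ≠ 0 := Nat.cast_ne_zero.2 (Nat.succ_ne_zero _)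
  rw [Nat.cast_mul]
  field_simp

/-- the exponents of degree `p` -/
abbrev Dg (Y : Type) (p : ℕ) : Type := {a : Y →₀ ℕ // a.degree = p}

theorem mult_hasSum {x : Y → ℂ} (hx : Summable fun y => ‖x y‖) (p : ℕ) :
    HasSum (fun a : Dg Y p => Tm x a.1) ((∑' y, x y) ^ p / (p.factorial : ℂ)) := by
  classical
  induction p with
  | zero =>
    have h0 : (0 : Y →₀ ℕ).degree = 0 := by simp
    have h1 : ∀ a : Dg Y 0, a = ⟨0, h0⟩ := fun a => Subtype.ext ((Finsupp.degree_eq_zero_iff a.1).1 a.2)
    have h2 := hasSum_single (f := fun a : Dg Y 0 => Tm x a.1) ⟨0, h0⟩ (fun b hb => absurd (h1 b) hb)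
    rw [Tm_zero] at h2
    simpa using h2
  | succ p ih =>
    set S := ∑' y, x y with hS
    have hn : Summable fun a : Dg Y p => ‖Tm x a.1‖ := summable_norm_iff.2 ih.summable
    have hm : Summable fun z : Y × Dg Y p => x z.1 * (fun a : Dg Y p => Tm x a.1) z.2 :=
      summable_mul_of_summable_norm (f := x) (g := fun a : Dg Y p => Tm x a.1) hx hn
    have h1 : HasSum (fun z : Y × Dg Y p => x z.1 * (fun a : Dg Y p => Tm x a.1) z.2) (S * (S ^ p / (p.factorial : ℂ))) :=
      HasSum.mul (f := x) (g := fun a : Dg Y p => Tm x a.1) hx.of_norm.hasSum ih hm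
    set F : Dg Y (p + 1) × Y → ℂ := fun z => (z.1.1 z.2 : ℂ) * Tm x z.1.1 with hF
    have hdeg : ∀ (a : Y →₀ ℕ) (i : Y), (a + Finsupp.single i 1).degree = a.degree + 1 := fun a i => by
      rw [map_add, Finsupp.degree_single]
    set φ : Y × Dg Y p → Dg Y (p + 1) × Y := fun z => (⟨z.2.1 + Finsupp.single z.1 1, by rw [hdeg, z.2.2]⟩, z.1) with hφ
    have hinj : Function.Injective φ := by
      intro z z' h
      rw [hφ] at h
      simp only [Prod.mk.injEq, Subtype.mk.injEq] at h
      obtain ⟨h1, h2⟩ := h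
      rw [h2] at h1
      exact Prod.ext h2 (Subtype.ext (add_right_cancel h1))
    have hout : ∀ z, z ∉ range φ → F z = 0 := by
      rintro ⟨b, i⟩ hz
      rw [hF]
      simp only
      by_cases hb : b.1 i = 0
      · rw [hb]
        simp
      · exfalso
        apply hz
        have hle : Finsupp.single i 1 ≤ b.1 := by
          rw [Finsupp.single_le_iff]
          omega
        have he : b.1 - Finsupp.single i 1 + Finsupp.single i 1 = b.1 := tsub_add_cancel_of_le hle
        have hd : (b.1 - Finsupp.single i 1).degree = p := by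
          have h3 := hdeg (b.1 - Finsupp.single i 1) i
          rw [he, b.2] at h3
          omega
        refine ⟨(i, ⟨_, hd⟩), ?_⟩
        rw [hφ]
        exact Prod.ext (Subtype.ext he) rfl
    have h2 : HasSum F (S * (S ^ p / (p.factorial : ℂ))) := by
      rw [← hinj.hasSum_iff hout]
      refine hs_congr h1 fun z => ?_
      rw [hF, hφ]
      simp only [Function.comp_apply]
      rw [← Tm_add x z.2.1 z.1, Finsupp.add_apply, Finsupp.single_eq_same]
      ring
    have h3 : ∀ b : Dg Y (p + 1), HasSum (fun i => F (b, i)) (((p + 1 : ℕ) : ℂ) * Tm x b.1) := by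
      intro b
      have h4 : HasSum (fun i => (b.1 i : ℂ)) ((p + 1 : ℕ) : ℂ) := by
        have h5 : HasSum (fun i => (b.1 i : ℂ)) (∑ i ∈ b.1.support, (b.1 i : ℂ)) := hasSum_sum_of_ne_finset_zero (fun i hi => by
          rw [Finsupp.notMem_support_iff.1 hi]
          simp)
        have h6 : ∑ i ∈ b.1.support, (b.1 i : ℂ) = ((p + 1 : ℕ) : ℂ) := by
          rw [← Nat.cast_sum]
          congr 1
          exact b.2
        rwa [h6] at h5
      exact h4.mul_right _
    have h4 := h2.prod_fiberwise h3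
    have h5 := h4.mul_left (1 / ((p + 1 : ℕ) : ℂ))
    have hp : ((p + 1 : ℕ) : ℂ) ≠ 0 := by exact_mod_cast (Nat.succ_ne_zero p)
    have e : 1 / ((p + 1 : ℕ) : ℂ) * (S * (S ^ p / (p.factorial : ℂ))) = S ^ (p + 1) / ((p + 1).factorial : ℂ) := by
      rw [Nat.factorial_succ, Nat.cast_mul, pow_succ]
      have : (p.factorial : ℂ) ≠ 0 := by exact_mod_cast (Nat.factorial_ne_zero _)
      field_simp
    rw [e] at h5
    refine hs_congr h5 fun b => ?_
    field_simp

theorem Tm_real (x : Y → ℝ) (a : Y →₀ ℕ) : Tm (fun y => (x y : ℂ)) a = (Tr x a : ℂ) := by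
  unfold Tm Tr Finsupp.prod
  push_cast
  rfl

theorem Tr_pos {x : Y → ℝ} (hx : ∀ y, 0 < x y) (a : Y →₀ ℕ) : 0 < Tr x a := by
  unfold Tr Finsupp.prod
  refine Finset.prod_pos fun i _ => ?_
  have := hx i
  positivity

theorem Tr_summable {x : Y → ℝ} (hx : ∀ y, 0 < x y) (hs : Summable x) (p : ℕ) : Summable fun a : Dg Y p => Tr x a.1 := by
  have h1 := mult_hasSum (x := fun y => (x y : ℂ)) (by
    refine hs.congr fun y => ?_
    rw [Complex.norm_real, Real.norm_eq_abs, abs_of_pos (hx y)]) p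
  have h2 := h1.summable
  rw [← summable_norm_iff] at h2
  refine h2.congr fun a => ?_
  rw [Tm_real, Complex.norm_real, Real.norm_eq_abs, abs_of_pos (Tr_pos hx _)]

/-- the frequency of a term -/
noncomputable def fr (τ : Y → ℝ) (a : Y →₀ ℕ) : ℝ := a.sum fun i n => n * τ i

theorem Tm_exp (x τ : Y → ℝ) (u : ℝ) (a : Y →₀ ℕ) :
    Tm (fun y => (x y : ℂ) * cexp (I * τ y * u)) a = (Tr x a : ℂ) * cexp (I * fr τ a * u) := by
  unfold Tm Tr fr Finsupp.prod Finsupp.sum
  have h1 : cexp (I * ((∑ i ∈ a.support, (a i : ℝ) * τ i : ℝ) : ℂ) * u) = ∏ i ∈ a.support, cexp (I * τ i * u) ^ a i := by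
    rw [Complex.ofReal_sum, Finset.mul_sum, Finset.sum_mul, Complex.exp_sum]
    refine Finset.prod_congr rfl fun i _ => ?_
    rw [← Complex.exp_nat_mul]
    congr 1
    push_cast
    ring
  rw [h1]
  push_cast
  rw [← Finset.prod_mul_distrib]
  refine Finset.prod_congr rfl fun i _ => ?_
  rw [mul_pow]
  ring

/-- the powers of a sum of exponentials -/
theorem pow_rep {x τ : Y → ℝ} (hx : ∀ y, 0 < x y) (hs : Summable x) (p : ℕ) (u : ℝ) :
    HasSum (fun a : Dg Y p => ((p.factorial * Tr x a.1 : ℝ) : ℂ) * cexp (I * fr τ a.1 * u))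
      ((∑' y, (x y : ℂ) * cexp (I * τ y * u)) ^ p) := by
  have h1 := mult_hasSum (x := fun y => (x y : ℂ) * cexp (I * τ y * u)) (by
    refine hs.congr fun y => ?_
    rw [norm_mul, LM.norm_I, Complex.norm_real, Real.norm_eq_abs, abs_of_pos (hx y), mul_one]) p
  have h2 := h1.mul_left (p.factorial : ℂ)
  have h3 : (p.factorial : ℂ) ≠ 0 := by exact_mod_cast (Nat.factorial_ne_zero _)
  rw [mul_div_cancel₀ _ h3] at h2
  refine hs_congr h2 fun a => ?_
  rw [Tm_exp]
  push_cast
  ring

end

end Run7.h278.LG
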