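import Pool.Agent.Run7.h278.LG.Ex

set_option autoImplicit false

/-!
# Functions asymptotic to almost periodic cosine sums
-/

namespace Run7.h278.LG

open Complex Filter Topology MeasureTheory Set Run7.h278.LM
open scoped ENNReal

/-- `a` and `F` are bounded, continuous and have the same behaviour at infinity -/
structure Nr (a F : ℝ → ℝ) (B : ℝ) : Prop where
  ca : Continuous a
  cF : Continuous F
  hB : 0 ≤ B
  ba : ∀ u, 0 < u → |a u| ≤ B
  bF : ∀ u, |F u| ≤ B
  lim : Tendsto (fun u => a u - F u) atTop (𝓝 0)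

section

variable {a F : ℝ → ℝ} {B : ℝ} (h : Nr a F B)

include h

theorem Nr.bound {φ : ℝ → ℝ} (hφ : Continuous φ) : ∃ M : ℝ, (∀ u, 0 < u → |φ (a u)| ≤ M) ∧ ∀ u, |φ (F u)| ≤ M := by
  obtain ⟨M, hM⟩ := (isCompact_Icc (a := -B) (b := B)).exists_bound_of_continuousOn hφ.continuousOn
  exact ⟨M, fun u hu => hM _ (abs_le.1 (h.ba u hu)), fun u => hM _ (abs_le.1 (h.bF u))⟩

theorem Nr.diff {φ : ℝ → ℝ} (hφ : Continuous φ) : Tendsto (fun u => φ (a u) - φ (F u)) atTop (𝓝 0) := by
  have hu := (isCompact_Icc (a := -B) (b := B)).uniformContinuousOn_of_continuous hφ.continuousOn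
  rw [Metric.uniformContinuousOn_iff] at hu
  rw [Metric.tendsto_nhds]
  intro ε hε
  obtain ⟨η, h1, h2⟩ := hu ε hε
  filter_upwards [(Metric.tendsto_nhds.1 h.lim) η h1, eventually_gt_atTop 0] with u h3 h4
  have h5 := h2 (a u) (abs_le.1 (h.ba u h4)) (F u) (abs_le.1 (h.bF u)) (by
    rw [Real.dist_eq]
    rwa [dist_zero_right, Real.norm_eq_abs] at h3)
  rw [dist_zero_right, Real.norm_eq_abs]
  rwa [Real.dist_eq] at h5

theorem Nr.comp {φ : ℝ → ℝ} (hφ : Continuous φ) {L : ℝ} (hL : Tendsto (Am fun u => φ (F u)) (𝓝[>] 0) (𝓝 L)) :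
    Tendsto (Am fun u => φ (a u)) (𝓝[>] 0) (𝓝 L) := by
  obtain ⟨M, h1, h2⟩ := h.bound hφ
  have h3 := Am_tail (hφ.comp h.ca).continuousOn (hφ.comp h.cF).continuousOn h1 (fun u _ => h2 u) (h.diff hφ)
  have h4 := h3.add hL
  rw [zero_add] at h4
  refine h4.congr fun δ => ?_
  simp only [Function.comp_def]
  ring

theorem Nr.lint {φ : ℝ → ℝ} (hφ : Continuous φ) (h0 : ∀ x, 0 ≤ φ x) {δ : ℝ} (hδ : 0 < δ) :
    ∫⁻ u in Ioi (0 : ℝ), ENNReal.ofReal (δ * Real.exp (-δ * u) * φ (a u)) = ENNReal.ofReal (Am (fun u => φ (a u)) δ) := by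
  obtain ⟨M, h1, -⟩ := h.bound hφ
  have hi := (Am_int (f := fun u => φ (a u)) (hφ.comp h.ca).continuousOn h1 hδ).const_mul δ
  unfold Am
  rw [← integral_const_mul, ofReal_integral_eq_lintegral_ofReal hi (Eventually.of_forall fun u => by
    have := h0 (a u)
    show 0 ≤ δ * (Real.exp (-δ * u) * φ (a u))
    positivity)]
  refine lintegral_congr fun u => ?_
  rw [mul_assoc]

end

/-- the Abel mean of an even power, with values in `[0, ∞]` -/
noncomputable def PM (a : ℝ → ℝ) (c : ℝ) (K : ℕ) (δ : ℝ) : ℝ≥0∞ :=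
  ∫⁻ u in Ioi (0 : ℝ), ENNReal.ofReal (δ * Real.exp (-δ * u) * (a u - c) ^ (2 * K))

theorem pow_top {a b : ℝ → ℝ} (ca : Continuous a) (cb : Continuous b) {K' : ℝ} (hab : ∀ u, 0 < u → |a u - b u| ≤ K')
    {δ : ℝ} (hδ : 0 < δ) (hno : ¬IntegrableOn (fun u : ℝ => Real.exp (-δ * u) * b u ^ 2) (Ioi 0)) (c : ℝ) {K : ℕ} (hK : 1 ≤ K) :
    PM a c K δ = ⊤ := by
  by_contra htop
  apply hno
  have hc : Continuous fun u : ℝ => δ * Real.exp (-δ * u) * (a u - c) ^ (2 * K) := by fun_prop
  have hev : ∀ u, 0 ≤ (a u - c) ^ (2 * K) := fun u => Even.pow_nonneg (even_two_mul K) _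
  have hint : IntegrableOn (fun u : ℝ => δ * Real.exp (-δ * u) * (a u - c) ^ (2 * K)) (Ioi 0) := by
    refine ⟨hc.aestronglyMeasurable, ?_⟩
    rw [hasFiniteIntegral_iff_ofReal (Eventually.of_forall fun u => by
      have := hev u
      show 0 ≤ δ * Real.exp (-δ * u) * (a u - c) ^ (2 * K)
      positivity)]
    exact lt_top_iff_ne_top.2 htop
  have hc2 : Continuous fun u : ℝ => Real.exp (-δ * u) * b u ^ 2 := by fun_prop
  set M := |c| + K' with hM
  have h1 : IntegrableOn (fun u : ℝ => (2 / δ) * (δ * Real.exp (-δ * u) * (a u - c) ^ (2 * K)) + (2 + 2 * M ^ 2) * Real.exp (-δ * u)) (Ioi 0) :=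
    (hint.const_mul (2 / δ)).add ((integrableOn_exp_mul_Ioi (a := -δ) (by linarith) 0).const_mul _)
  refine Integrable.mono' h1 hc2.aestronglyMeasurable ?_
  refine (ae_restrict_mem measurableSet_Ioi).mono fun u hu => ?_
  have hu' : (0 : ℝ) < u := hu
  rw [Real.norm_eq_abs, abs_of_nonneg (by positivity)]
  have h2 : |b u - (a u - c)| ≤ M := by
    have h3 := hab u hu'
    calc |b u - (a u - c)| = |c + -(a u - b u)| := by
          congr 1
          ring
      _ ≤ |c| + |-(a u - b u)| := abs_add_le _ _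
      _ ≤ M := by
        rw [abs_neg]
        linarith
  set x := a u - c with hx
  have h3 : b u ^ 2 ≤ 2 * x ^ 2 + 2 * M ^ 2 := by
    have h4 : (b u - x) ^ 2 ≤ M ^ 2 := sq_le_sq' (by linarith [(abs_le.1 h2).1]) (abs_le.1 h2).2
    nlinarith [sq_nonneg (b u - 2 * x)]
  have h4 : x ^ 2 ≤ 1 + x ^ (2 * K) := by
    rw [pow_mul]
    rcases le_total (x ^ 2) 1 with h5 | h5
    · have : 0 ≤ (x ^ 2) ^ K := by positivity
      linarith
    · have h6 := pow_le_pow_right₀ h5 hK
      rw [pow_one] at h6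
      linarith
  have h5 : b u ^ 2 ≤ 2 * x ^ (2 * K) + (2 + 2 * M ^ 2) := by linarith
  calc Real.exp (-δ * u) * b u ^ 2 ≤ Real.exp (-δ * u) * (2 * x ^ (2 * K) + (2 + 2 * M ^ 2)) := by gcongr
    _ = _ := by
      field_simp

/-- without boundedness -/
theorem not_bdd {a b : ℝ → ℝ} (cb : Continuous b) {K' : ℝ} (hab : ∀ u, 0 < u → |a u - b u| ≤ K')
    {δ : ℝ} (hδ : 0 < δ) (hno : ¬IntegrableOn (fun u : ℝ => Real.exp (-δ * u) * b u ^ 2) (Ioi 0)) :
    ¬∃ B : ℝ, ∀ u, 0 < u → |a u| ≤ B := by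
  rintro ⟨B, hB⟩
  apply hno
  have hb : ∀ u, 0 < u → |b u ^ 2| ≤ (B + K') ^ 2 := by
    intro u hu
    rw [abs_of_nonneg (sq_nonneg _), ← sq_abs]
    have h1 : |b u| ≤ B + K' := by
      calc |b u| = |a u - (a u - b u)| := by
            congr 1
            ring
        _ ≤ |a u| + |a u - b u| := abs_sub _ _
        _ ≤ _ := add_le_add (hB u hu) (hab u hu)
    gcongr
  exact Am_int (f := fun u => b u ^ 2) (cb.pow 2).continuousOn hb hδ

section

variable {ι : Type} {w : ι → ℝ} (t : ι → ℝ)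

/-- even moments: convergence -/
theorem even_lim {a : ℝ → ℝ} {c B : ℝ} (h : Nr a (fun u => c + FI w t u) B) (hw : ∀ i, 0 < w i) (hs : Summable w) (K : ℕ) :
    Tendsto (PM a c K) (𝓝[>] 0) (𝓝 (ENNReal.ofReal (Ek w t (2 * K)))) := by
  have hφ : Continuous fun x : ℝ => (x - c) ^ (2 * K) := by fun_prop
  have h1 := Ek_tendsto t hw hs (2 * K)
  have e : (fun u => FI w t u ^ (2 * K)) = fun u => (c + FI w t u - c) ^ (2 * K) := by
    funext u
    rw [add_sub_cancel_left]
  rw [e] at h1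
  have h2 := h.comp hφ h1
  refine (ENNReal.tendsto_ofReal h2).congr' ?_
  filter_upwards [self_mem_nhdsWithin] with δ hδ
  exact (h.lint hφ (fun x => Even.pow_nonneg (even_two_mul K) _) hδ).symm

/-- all moments -/
theorem mom_lim {a : ℝ → ℝ} {c B : ℝ} (h : Nr a (fun u => c + FI w t u) B) (hw : ∀ i, 0 < w i) (hs : Summable w) (p : ℕ) :
    Tendsto (Am fun u => (a u - c) ^ p) (𝓝[>] 0) (𝓝 (Ek w t p)) := by
  have hφ : Continuous fun x : ℝ => (x - c) ^ p := by fun_prop
  have h1 := Ek_tendsto t hw hs p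
  have e : (fun u => FI w t u ^ p) = fun u => (c + FI w t u - c) ^ p := by
    funext u
    rw [add_sub_cancel_left]
  rw [e] at h1
  exact h.comp hφ h1

/-- upper and lower limits -/
theorem lims {a : ℝ → ℝ} {c B : ℝ} (h : Nr a (fun u => c + FI w t u) B) (hw : ∀ i, 0 < w i) (hs : Summable w)
    (ht : ∀ i, t i ≠ 0) : limsup a atTop = c + ∑' i, 2 * w i ∧ c - ∑' i, 2 * w i ≤ liminf a atTop ∧
      (liminf a atTop = c - ∑' i, 2 * w i ↔ ¬Od t) := by
  set S := ∑' i, 2 * w i with hS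
  obtain ⟨e1, e2⟩ := extremes t hw hs ht
  rw [← hS] at e1 e2
  have hF : ∀ u, |FI w t u| ≤ S := FI_le t hw hs
  have hba : ∀ᶠ u in atTop, a u ≤ B := by
    filter_upwards [eventually_gt_atTop 0] with u hu
    exact (abs_le.1 (h.ba u hu)).2
  have hbb : ∀ᶠ u in atTop, -B ≤ a u := by
    filter_upwards [eventually_gt_atTop 0] with u hu
    exact (abs_le.1 (h.ba u hu)).1
  have b1 : IsBoundedUnder (· ≤ ·) atTop a := ⟨B, hba⟩
  have b2 : IsBoundedUnder (· ≥ ·) atTop a := ⟨-B, hbb⟩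
  have hclose : ∀ ε : ℝ, 0 < ε → ∀ᶠ u in atTop, |a u - (c + FI w t u)| < ε := by
    intro ε hε
    filter_upwards [(Metric.tendsto_nhds.1 h.lim) ε hε] with u h3
    rwa [dist_zero_right, Real.norm_eq_abs] at h3
  refine ⟨?_, ?_, ?_⟩
  · refine le_antisymm ?_ ?_
    · refine le_of_forall_pos_le_add fun ε hε => ?_
      refine limsup_le_of_le b2.isCoboundedUnder_le ?_
      filter_upwards [hclose ε hε] with u hu
      have h1 := (abs_lt.1 hu).2
      have h2 := (abs_le.1 (hF u)).2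
      linarith
    · refine le_of_forall_sub_le fun ε hε => ?_
      refine le_limsup_of_frequently_le ?_ b1
      refine ((e1 (S - ε / 2) (by linarith)).and_eventually (hclose (ε / 2) (by linarith))).mono fun u hu => ?_
      have h1 := (abs_lt.1 hu.2).1
      linarith [hu.1]
  · refine le_of_forall_sub_le fun ε hε => ?_
    refine le_liminf_of_le b1.isCoboundedUnder_ge ?_
    filter_upwards [hclose ε hε] with u hu
    have h1 := (abs_lt.1 hu).1
    have h2 := (abs_le.1 (hF u)).1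
    linarith
  · rw [← e2]
    constructor
    · intro hl C hC
      have h1 : liminf a atTop < c - C - (S - C) / 2 := by linarith
      have h2 := frequently_lt_of_liminf_lt b1.isCoboundedUnder_ge h1
      refine (h2.and_eventually (hclose ((S - C) / 2) (by linarith))).mono fun u hu => ?_
      have h3 := (abs_lt.1 hu.2).1
      linarith [hu.1]
    · intro hC
      refine le_antisymm ?_ ?_
      · refine le_of_forall_pos_le_add fun ε hε => ?_
        refine liminf_le_of_frequently_le ?_ b2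
        refine ((hC (S - ε / 2) (by linarith)).and_eventually (hclose (ε / 2) (by linarith))).mono fun u hu => ?_
        have h1 := (abs_lt.1 hu.2).2
        linarith [hu.1]
      · refine le_of_forall_sub_le fun ε hε => ?_
        refine le_liminf_of_le b1.isCoboundedUnder_ge ?_
        filter_upwards [hclose ε hε] with u hu
        have h1 := (abs_lt.1 hu).1
        have h2 := (abs_le.1 (hF u)).1
        linarith

theorem Rl_equiv {ι' : Type} {t' : ι' → ℝ} (e : ι ≃ ι') (h : ∀ i, t i = t' (e i)) (p : ℕ) : Rl t p ↔ Rl t' p := by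
  have key : ∀ {α β : Type} (e : α ≃ β) (s : α → ℝ) (s' : β → ℝ), (∀ i, s i = s' (e i)) → Rl s p → Rl s' p := by
    intro α β e s s' h ⟨m, h1, h2, h3, h4⟩
    have hs : (m.equivMapDomain e).sum (fun _ n => n.natAbs) = m.sum fun _ n => n.natAbs := by
      rw [Finsupp.equivMapDomain_eq_mapDomain, Finsupp.sum_mapDomain_index_inj e.injective]
    refine ⟨m.equivMapDomain e, ?_, ?_, ?_, ?_⟩
    · intro h0
      apply h1
      ext i
      have := DFunLike.congr_fun h0 (e i)
      simpa [Finsupp.equivMapDomain_apply] using this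
    · rw [Finsupp.equivMapDomain_eq_mapDomain, Finsupp.sum_mapDomain_index_inj e.injective, ← h2]
      unfold Finsupp.sum
      refine Finset.sum_congr rfl fun i _ => ?_
      simp only
      rw [h i]
    · rw [hs]
      exact h3
    · rw [hs]
      exact h4
  exact ⟨key e t t' h, key e.symm t' t fun i => by rw [h, e.apply_symm_apply]⟩

theorem Od_equiv {ι' : Type} {t' : ι' → ℝ} (e : ι ≃ ι') (h : ∀ i, t i = t' (e i)) : Od t ↔ Od t' := by
  rw [Od_iff, Od_iff]
  exact exists_congr fun n => Rl_equiv t e h _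

end

end Run7.h278.LG
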