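import Pool.Agent.Run7.h278.LG.NearF

set_option autoImplicit false

/-!
# The exact exponent of the rate for families of Dirichlet characters
-/

namespace Run7.h278.LG

open Complex Filter Topology MeasureTheory Set DirichletCharacter
open scoped ComplexConjugate ENNReal

variable {q : ℕ} [NeZero q] {J : Type} [Fintype J] {χ : J → DirichletCharacter ℂ q} {d : J → ℕ}

/-- **Exact rates for families of Dirichlet characters.** -/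
theorem dir_near (hd : ∀ j, 1 ≤ d j) (τ : J ≃ J) (hτ : ∀ j, χ (τ j) = (χ j)⁻¹) (hdτ : ∀ j, d (τ j) = d j) :
    ∃ C : ℝ, Tendsto (fun σ : ℝ => mD χ d / (σ - 1) - RS (lamD χ d) σ) (𝓝[>] 1) (𝓝 (C - mD χ d)) ∧
      (GRHD χ → ∀ (p : ℕ) (v : ℝ), Summable (nS {t : ℝ | 0 < t ∧ ∃ j, LFunction (χ j) (1 / 2 + t * I) = 0} (oD χ d) p v)) ∧
      (GRHD χ → ∀ K : ℕ, 1 ≤ K → Summable fun n : Dg (PDM χ) K => Tr (fun x : PDM χ => (d x.1.1.1 : ℝ) / (1 / 4 + x.1.1.2.im ^ 2)) n.1 ^ 2) ∧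
      (∀ K : ℕ, 1 ≤ K → ∀ s : ℝ, 0 < s → s ≤ 1 →
        ((∃ L : ℝ, RateL (PM (aL (lamD χ d) (mD χ d) C) (4 * rD χ d) K) L s) ↔
          GRHD χ ∧ NearT {t : ℝ | 0 < t ∧ ∃ j, LFunction (χ j) (1 / 2 + t * I) = 0} (oD χ d) (2 * K) s)) ∧
      (∀ s : ℕ → ℝ, (∀ K, 0 < s K ∧ s K ≤ 1) → ((∀ K : ℕ, 1 ≤ K → RateL (PM (aL (lamD χ d) (mD χ d) C) (4 * rD χ d) K)
          ((2 * K).factorial * ∑' n : Dg (PDM χ) K, Tr (fun x : PDM χ => (d x.1.1.1 : ℝ) / (1 / 4 + x.1.1.2.im ^ 2)) n.1 ^ 2) (s K)) ↔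
        GRHD χ ∧ ((∀ p : PD χ, analyticOrderNatAt (LFunction (χ p.1.1)) p.1.2 = 1) ∧ LinearIndependent ℚ fun p : PD χ => p.1.2.im) ∧
          ∀ K : ℕ, 1 ≤ K → NearT {t : ℝ | 0 < t ∧ ∃ j, LFunction (χ j) (1 / 2 + t * I) = 0} (oD χ d) (2 * K) (s K))) := by
  obtain ⟨l, r, N, c, X, F, hm, hl', hC, hz, hmu⟩ := dir_set (χ := χ) (d := d) τ hτ hdτ
  have hhalf : ∀ j, WL.mu (X j) (1 / 2) = analyticOrderNatAt (LFunction (χ j)) (1 / 2) := fun j =>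
    hmu j _ (by norm_num) (by norm_num)
  have hr : rO X d = rD χ d := by
    unfold rO rD
    exact Finset.sum_congr rfl fun j _ => by rw [hhalf]
  have hT : TS X = {t : ℝ | 0 < t ∧ ∃ j, LFunction (χ j) (1 / 2 + t * I) = 0} := by
    ext t
    unfold TS
    simp only [Set.mem_ofPred_eq]
    refine and_congr_right fun _ => exists_congr fun j => ?_
    rw [hz]
    have e : (1 / 2 + (t : ℂ) * I).re = 1 / 2 := by simp
    rw [e]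
    exact ⟨fun h => h.2.2, fun h => ⟨by norm_num, by norm_num, h⟩⟩
  have hre : ∀ p : PD χ, WL.mu (X p.1.1) p.1.2 = analyticOrderNatAt (LFunction (χ p.1.1)) p.1.2 := fun p => hmu _ _ p.2.1 p.2.2.1
  have hX0 : ∀ p : PD χ, X p.1.1 p.1.2 = 0 := fun p => (hz _ _).2 ⟨p.2.1, p.2.2.1, p.2.2.2.2⟩
  have hμ : ∀ p : PD χ, 0 < analyticOrderNatAt (LFunction (χ p.1.1)) p.1.2 := fun p => by
    rw [← hre]
    exact Nat.pos_of_ne_zero ((F.mu_ne _ _).2 (hX0 p))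
  have hmem : ∀ x : Om X, 0 < x.1.2.1.re ∧ x.1.2.1.re < 1 ∧ 0 < x.1.2.1.im ∧ LFunction (χ x.1.1) x.1.2.1 = 0 := fun x => by
    have h1 := (F.mu_ne x.1.1 x.1.2.1).1 (Nat.ne_zero_of_lt x.2.2)
    obtain ⟨a, b, c⟩ := (hz _ _).1 h1
    exact ⟨a, b, x.2.1, c⟩
  have hto : ∀ x : PDM χ, 0 < x.1.1.2.im ∧ (x.2 : ℕ) < WL.mu (X x.1.1.1) x.1.1.2 := fun x =>
    ⟨x.1.2.2.2.1, by
      rw [hre]
      exact x.2.2⟩
  have hinv : ∀ x : Om X, x.1.2.2 < analyticOrderNatAt (LFunction (χ x.1.1)) x.1.2.1 := fun x => by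
    rw [← hmu _ _ (hmem x).1 (hmem x).2.1]
    exact x.2.2
  set e : PDM χ ≃ Om X := ⟨fun x => ⟨(x.1.1.1, x.1.1.2, (x.2 : ℕ)), hto x⟩,
    fun y => ⟨⟨(y.1.1, y.1.2.1), hmem y⟩, ⟨y.1.2.2, hinv y⟩⟩, fun _ => rfl, fun _ => rfl⟩ with he
  have g1 : GRHf X ↔ GRHD χ := by
    unfold GRHf GRHD
    constructor
    · intro h j s a b e
      exact h j s ((hz j s).2 ⟨a, b, e⟩)
    · intro h j s e
      obtain ⟨a, b, e⟩ := (hz j s).1 e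
      exact h j s a b e
  have ew : (fun x : PDM χ => wO X d (e x)) = fun x : PDM χ => (d x.1.1.1 : ℝ) / (1 / 4 + x.1.1.2.im ^ 2) := rfl
  have et : (fun x : PDM χ => tO X (e x)) = fun x : PDM χ => x.1.1.2.im := rfl
  have hMO : MO X d = oD χ d := by
    funext t
    unfold MO oD
    refine Finset.sum_congr rfl fun j _ => ?_
    have e : (1 / 2 + (t : ℂ) * I).re = 1 / 2 := by simp
    have h1 := hmu j (1 / 2 + (t : ℂ) * I) (by rw [e]; norm_num) (by rw [e]; norm_num)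
    rw [← h1]
  obtain ⟨C, h1, h2, h3⟩ := F.rate2 hd hl' hC e
  obtain ⟨h5, h6⟩ := F.near0 hd hl' hC h1
  have hE : (∀ K : ℕ, 1 ≤ K → ∃ L s : ℝ, 0 < s ∧ RateL (PM (aL (lamD χ d) (mF r d) C) (4 * rO X d) K) L s) →
      ∀ p : ℕ, ∃ A : ℝ, 0 < A ∧ EffTA (TS X) p A := fun h => by
    simp_rw [← EffT_iff]
    exact EffT_all.1 fun K hK => (EffT_iff _ _).2 ((h2 K hK).2.1.1 (h K hK)).2
  have h4 := all_sigma (fun p : PD χ => analyticOrderNatAt (LFunction (χ p.1.1)) p.1.2) hμ (fun p : PD χ => p.1.2.im)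
  rw [et, h4] at h3
  have h7 := fun s hs => near_all (s := s) h6 h3 hE hs
  have h8 : GRHf X → ∀ K : ℕ, 1 ≤ K → Summable fun n : Dg (PDM χ) K => Tr (fun x : PDM χ => (d x.1.1.1 : ℝ) / (1 / 4 + x.1.1.2.im ^ 2)) n.1 ^ 2 :=
    fun hG K hK => (h2 K hK).1 hG
  rw [ew, hm, hr, hT, g1, hMO] at h7
  rw [hm, hr, hT, g1, hMO] at h6
  rw [hT, g1, hMO] at h5
  rw [g1] at h8
  rw [hm] at h1
  exact ⟨C, h1, h5, h8, h6, h7⟩

end Run7.h278.LG
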