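import Pool.Agent.Run7.h278.LG.RateD
import Pool.Agent.Run7.h278.LG.Exact
import Pool.Agent.Run7.h278.LG.DirCor

set_option autoImplicit false

/-!
# The exact exponent of the rate for families of L-functions
-/

namespace Run7.h278.LG

open Complex Filter Topology MeasureTheory Set DirichletCharacter Run7.h278.LM
open scoped ComplexConjugate ENNReal

section signed

variable {T : Set ℝ}

/-- signed elements -/
noncomputable def eT (hT : ∀ t ∈ T, 0 < t) : T ⊕ T ≃ {t : ℝ // |t| ∈ T} where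
  toFun y := Sum.elim (fun t : T => (⟨(t : ℝ), by rw [abs_of_pos (hT t t.2)]; exact t.2⟩ : {t : ℝ // |t| ∈ T}))
    (fun t : T => (⟨-(t : ℝ), by rw [abs_neg, abs_of_pos (hT t t.2)]; exact t.2⟩ : {t : ℝ // |t| ∈ T})) y
  invFun t := open Classical in if 0 ≤ (t : ℝ) then Sum.inl ⟨|(t : ℝ)|, t.2⟩ else Sum.inr ⟨|(t : ℝ)|, t.2⟩
  left_inv y := by
    rcases y with t | t
    · have h : (0 : ℝ) < t := hT t t.2
      simp only [Sum.elim_inl]
      rw [if_pos h.le]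
      congr 1
      ext
      exact abs_of_pos h
    · have h : (0 : ℝ) < t := hT t t.2
      simp only [Sum.elim_inr]
      rw [if_neg (by linarith)]
      congr 1
      ext
      show |-(t : ℝ)| = t
      rw [abs_neg, abs_of_pos h]
  right_inv t := by
    dsimp only
    by_cases h : 0 ≤ (t : ℝ)
    · rw [if_pos h]
      ext
      exact abs_of_nonneg h
    · rw [if_neg h]
      ext
      show -|(t : ℝ)| = t
      rw [abs_of_neg (not_le.1 h), neg_neg]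

/-- the term of a near relation between signed elements of `T` -/
noncomputable def nS (T : Set ℝ) (m : ℝ → ℝ) (p : ℕ) (v : ℝ) (f : Fin p → {t : ℝ // |t| ∈ T}) : ℝ :=
  open Classical in if 0 < |∑ i, (f i : ℝ)| ∧ |∑ i, (f i : ℝ)| ≤ v then ∏ i, (m |(f i : ℝ)| / (1 / 4 + (f i : ℝ) ^ 2)) else 0

theorem nS_eq (hT : ∀ t ∈ T, 0 < t) (m : ℝ → ℝ) (p : ℕ) (v : ℝ) (f : Fin p → T ⊕ T) :
    nS T m p v ((Equiv.arrowCongr (Equiv.refl (Fin p)) (eT hT)) f) =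
      nT (xx fun t : T => m t / (1 / 4 + (t : ℝ) ^ 2)) (tt fun t : T => (t : ℝ)) p v f := by
  classical
  unfold nS
  have e1 : ∀ i, ((Equiv.arrowCongr (Equiv.refl (Fin p)) (eT hT)) f i : ℝ) = tt (fun t : T => (t : ℝ)) (f i) := by
    intro i
    rcases h : f i with t | t
    · show ((eT hT (f i) : {t : ℝ // |t| ∈ T}) : ℝ) = t
      rw [h]
      rfl
    · show ((eT hT (f i) : {t : ℝ // |t| ∈ T}) : ℝ) = -t
      rw [h]
      rfl
  have e2 : ∀ i, m |((Equiv.arrowCongr (Equiv.refl (Fin p)) (eT hT)) f i : ℝ)| /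
      (1 / 4 + ((Equiv.arrowCongr (Equiv.refl (Fin p)) (eT hT)) f i : ℝ) ^ 2) = xx (fun t : T => m t / (1 / 4 + (t : ℝ) ^ 2)) (f i) := by
    intro i
    rw [e1]
    rcases f i with t | t
    · show m |(t : ℝ)| / (1 / 4 + (t : ℝ) ^ 2) = m t / (1 / 4 + (t : ℝ) ^ 2)
      rw [abs_of_pos (hT t t.2)]
    · show m |-(t : ℝ)| / (1 / 4 + (-(t : ℝ)) ^ 2) = m t / (1 / 4 + (t : ℝ) ^ 2)
      rw [abs_neg, abs_of_pos (hT t t.2), neg_sq]
  simp only [e2]
  simp only [e1]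
  unfold nT
  simp only [abs_pos]

theorem nS_tsum (hT : ∀ t ∈ T, 0 < t) (m : ℝ → ℝ) (p : ℕ) (v : ℝ) :
    ∑' f, nS T m p v f = nr (xx fun t : T => m t / (1 / 4 + (t : ℝ) ^ 2)) (tt fun t : T => (t : ℝ)) p v := by
  unfold nr
  rw [← (Equiv.arrowCongr (Equiv.refl (Fin p)) (eT hT)).tsum_eq]
  exact tsum_congr fun f => nS_eq hT m p v f

theorem nS_summable (hT : ∀ t ∈ T, 0 < t) (m : ℝ → ℝ) (p : ℕ) (v : ℝ) :
    Summable (nS T m p v) ↔ Summable (nT (xx fun t : T => m t / (1 / 4 + (t : ℝ) ^ 2)) (tt fun t : T => (t : ℝ)) p v) := by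
  rw [← (Equiv.arrowCongr (Equiv.refl (Fin p)) (eT hT)).summable_iff]
  exact summable_congr fun f => nS_eq hT m p v f

end signed

section

variable {T : Type} {a : ℝ → ℝ} {k : ℝ} {w τ : T → ℝ} {M B Ct cw : ℝ}

/-- **The exact exponent.** -/
theorem Rt.exact (r : Rt a k w τ M B Ct cw) (K : ℕ) {c : ℝ} (hc : 0 < c) (hc1 : c ≤ 1) : RateAt (PM a k K) c ↔
    ∃ C : ℝ, ∀ v : ℝ, 0 < v → v < 1 → nr (xx w) (tt τ) (2 * K) v ≤ C * v ^ c := by
  classical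
  have w1 := r.w1
  have s1 := r.s1
  have hB := r.hB
  have x0 := xx_pos w1
  have xs := xx_sum s1
  have cF : Continuous (FI w τ) := FI_cont _ w1 s1
  have hrep : ∀ u : ℝ, HasSum (fun y => (xx w y : ℂ) * Complex.exp (Complex.I * tt τ y * u)) (FI w τ u : ℂ) := by
    intro u
    rw [← FI_rep τ w1 s1 u]
    refine Summable.hasSum ?_
    rw [← summable_norm_iff]
    refine (xx_sum s1).congr fun y => ?_
    rw [norm_mul, LM.norm_I, Complex.norm_real, Real.norm_eq_abs, abs_of_pos (xx_pos w1 y), mul_one]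
  rw [← exact_iff x0 xs hrep (2 * K) hc hc1]
  have ca : Continuous fun u => a u - k := r.ca.sub continuous_const
  have hclose : ∃ C1 : ℝ, 0 ≤ C1 ∧ ∀ δ : ℝ, 0 < δ → |Am (fun u => (a u - k) ^ (2 * K)) δ - Am (fun u => FI w τ u ^ (2 * K)) δ| ≤ C1 * δ := by
    refine ⟨4 * |(2 * K : ℕ) * B ^ (2 * K - 1) * M|, by positivity, fun δ hδ => ?_⟩
    refine Am_close4 (f := fun u => (a u - k) ^ (2 * K)) (g := fun u => FI w τ u ^ (2 * K)) (B := B ^ (2 * K)) (ca.pow _) (cF.pow _) (fun u hu => ?_) (fun u _ => ?_) (fun u hu => ?_) hδ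
    · rw [abs_pow]
      exact pow_le_pow_left₀ (abs_nonneg _) (r.ba u hu) _
    · rw [abs_pow]
      exact pow_le_pow_left₀ (abs_nonneg _) (r.bF u) _
    · refine (pow_close (r.ba u hu) (r.bF u) (2 * K)).trans ?_
      refine (mul_le_mul_of_nonneg_left (r.near u hu) (by positivity)).trans (le_of_eq ?_)
      ring
  obtain ⟨C1, hC1, hclose⟩ := hclose
  have hint : ∀ δ : ℝ, 0 < δ → IntegrableOn (fun u : ℝ => Real.exp (-δ * u) * (a u - k) ^ (2 * K)) (Ioi 0) := fun δ hδ =>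
    Am_int (f := fun u => (a u - k) ^ (2 * K)) (ca.pow _).continuousOn (B := B ^ (2 * K)) (fun u hu => by
      rw [abs_pow]
      exact pow_le_pow_left₀ (abs_nonneg _) (r.ba u hu) _) hδ
  have hV : ∀ δ : ℝ, 0 < δ → PM a k K δ = ENNReal.ofReal (Am (fun u => (a u - k) ^ (2 * K)) δ) := by
    intro δ hδ
    unfold PM Am
    have e : ∀ u : ℝ, δ * Real.exp (-δ * u) * (a u - k) ^ (2 * K) = δ * (Real.exp (-δ * u) * (a u - k) ^ (2 * K)) := fun u => by ring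
    simp_rw [e]
    rw [← integral_const_mul, ofReal_integral_eq_lintegral_ofReal ((hint δ hδ).const_mul δ)]
    refine (ae_restrict_mem measurableSet_Ioi).mono fun u _ => ?_
    have : 0 ≤ (a u - k) ^ (2 * K) := Even.pow_nonneg (even_two_mul K) _
    show 0 ≤ δ * (Real.exp (-δ * u) * (a u - k) ^ (2 * K))
    positivity
  have hAnn : ∀ δ : ℝ, 0 < δ → 0 ≤ Am (fun u => (a u - k) ^ (2 * K)) δ := by
    intro δ hδ
    unfold Am
    refine mul_nonneg hδ.le (setIntegral_nonneg measurableSet_Ioi fun u _ => ?_)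
    show 0 ≤ Real.exp (-δ * u) * (a u - k) ^ (2 * K)
    have : 0 ≤ (a u - k) ^ (2 * K) := Even.pow_nonneg (even_two_mul K) _
    positivity
  have hLK : Tendsto (Am fun u => FI w τ u ^ (2 * K)) (𝓝[>] 0) (𝓝 (LK (xx w) (tt τ) (2 * K))) :=
    mean_rep (fun f => Finset.prod_pos fun i _ => x0 _) (pi_hasSum (fun y => (x0 y).le) xs (2 * K)).summable (pi_rep x0 xs hrep (2 * K))
  have hmin : ∀ (C : ℝ), ∀ δ : ℝ, 0 < δ → δ < 1 → C * δ ^ c + C1 * δ ≤ (|C| + C1) * δ ^ c := by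
    intro C δ h0 h1
    have a2 : δ ≤ δ ^ c := by
      have := Real.rpow_le_rpow_of_exponent_ge h0 h1.le hc1
      rwa [Real.rpow_one] at this
    have a3 : C * δ ^ c ≤ |C| * δ ^ c := mul_le_mul_of_nonneg_right (le_abs_self C) (by positivity)
    have a4 := mul_le_mul_of_nonneg_left a2 hC1
    linarith
  constructor
  · rintro ⟨L, C, h⟩
    have hb : ∀ δ : ℝ, 0 < δ → δ < 1 → |Am (fun u => FI w τ u ^ (2 * K)) δ - L| ≤ (|C| + C1) * δ ^ c := by
      intro δ h0 h1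
      have a1 := (h δ h0 h1).2
      rw [hV δ h0, ENNReal.toReal_ofReal (hAnn δ h0)] at a1
      have a2 := hclose δ h0
      rw [abs_sub_comm] at a2
      have a3 := abs_sub_le (Am (fun u => FI w τ u ^ (2 * K)) δ) (Am (fun u => (a u - k) ^ (2 * K)) δ) L
      have a4 := hmin C δ h0 h1
      linarith
    have hL : L = LK (xx w) (tt τ) (2 * K) := tendsto_nhds_unique (rate_lim hc hb) hLK
    refine ⟨|C| + C1, fun δ h0 h1 => ?_⟩
    have h2 := hb δ h0 h1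
    rw [hL] at h2
    exact (le_abs_self _).trans h2
  · rintro ⟨C, h⟩
    refine ⟨LK (xx w) (tt τ) (2 * K), |C| + C1, fun δ h0 h1 => ⟨?_, ?_⟩⟩
    · rw [hV δ h0]
      exact ENNReal.ofReal_lt_top
    · rw [hV δ h0, ENNReal.toReal_ofReal (hAnn δ h0)]
      have a1 := h δ h0 h1
      have a2 := rate_pos x0 xs hrep (2 * K) h0
      have a3 := hclose δ h0
      have a4 := abs_sub_le (Am (fun u => (a u - k) ^ (2 * K)) δ) (Am (fun u => FI w τ u ^ (2 * K)) δ) (LK (xx w) (tt τ) (2 * K))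
      rw [abs_of_nonneg a2] at a4
      have a5 := hmin C δ h0 h1
      linarith

end

/-- the weighted number of near relations of length `p` is `O(v^c)` -/
def NearT (T : Set ℝ) (m : ℝ → ℝ) (p : ℕ) (c : ℝ) : Prop := ∃ C : ℝ, ∀ v : ℝ, 0 < v → v < 1 → ∑' f, nS T m p v f ≤ C * v ^ c

section gen

variable {J : Type} [Fintype J] {l : J → List ℝ} {r : J → ℕ} {N : J → ℝ} {b c : J → ℕ → ℂ} {X : J → ℂ → ℂ} {d : J → ℕ}
variable (F : Family l r N b c X d)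

include F

/-- **Exact rates for families.** -/
theorem Family.near0 (hd : ∀ j, 1 ≤ d j) {lam' : ℕ → ℝ} {d' : ℝ} (hl' : ∀ n, |lam' n| ≤ d' * ArithmeticFunction.vonMangoldt n)
    (hC : Cl (lamF c d) lam') {C : ℝ} (hCt : Tendsto (fun σ : ℝ => mF r d / (σ - 1) - RS lam' σ) (𝓝[>] 1) (𝓝 (C - mF r d))) :
    (GRHf X → ∀ (p : ℕ) (v : ℝ), Summable (nS (TS X) (MO X d) p v)) ∧
    (∀ K : ℕ, 1 ≤ K → ∀ s : ℝ, 0 < s → s ≤ 1 →
      ((∃ L : ℝ, RateL (PM (aL lam' (mF r d) C) (4 * rO X d) K) L s) ↔ GRHf X ∧ NearT (TS X) (MO X d) (2 * K) s)) := by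
  obtain ⟨C', h1, h2, h3⟩ := F.rt hd hl' hC
  have hCC : C' = C := by
    have := tendsto_nhds_unique h1 hCt
    linarith
  subst hCC
  have hT : ∀ t ∈ TS X, 0 < t := fun t ht => ht.1
  refine ⟨fun hG p v => ?_, fun K hK s hs hs1 => ?_⟩
  · obtain ⟨M, B, Ct, cw, r⟩ := h2 hG
    rw [nS_summable hT]
    exact nT_sum (xx_pos r.w1) (xx_sum r.s1) p v
  · constructor
    · intro h
      have hG : GRHf X := by
        by_contra hG
        obtain ⟨L, C', h⟩ := h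
        obtain ⟨δ₀, h0, h4⟩ := h3 hG K hK (4 * rO X d)
        have hδ0 : 0 < min (δ₀ / 2) (1 / 2) := by positivity
        have hδ1 : min (δ₀ / 2) (1 / 2) < 1 := (min_le_right _ _).trans_lt (by norm_num)
        have hδ2 : min (δ₀ / 2) (1 / 2) < δ₀ := (min_le_left _ _).trans_lt (by linarith)
        have h5 := (h _ hδ0 hδ1).1
        rw [h4 _ hδ0 hδ2] at h5
        exact absurd h5 (lt_irrefl _)
      obtain ⟨M, B, Ct, cw, r⟩ := h2 hG
      refine ⟨hG, ?_⟩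
      unfold NearT
      simp only [nS_tsum hT]
      obtain ⟨L, C', h⟩ := h
      exact (r.exact K hs hs1).1 ⟨L, C', h⟩
    · rintro ⟨hG, h⟩
      obtain ⟨M, B, Ct, cw, r⟩ := h2 hG
      unfold NearT at h
      simp only [nS_tsum hT] at h
      obtain ⟨L, C', h⟩ := (r.exact K hs hs1).2 h
      exact ⟨L, C', h⟩

end gen

/-- abstract form of the last step -/
theorem near_all {V : ℕ → ℝ → ℝ≥0∞} {D : ℕ → ℝ} {G S : Prop} {E : Prop} {Nn : ℕ → ℝ → Prop}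
    (h1 : ∀ K : ℕ, 1 ≤ K → ∀ s : ℝ, 0 < s → s ≤ 1 → ((∃ L : ℝ, RateL (V K) L s) ↔ G ∧ Nn K s))
    (h2 : (∀ K : ℕ, 1 ≤ K → ∃ s : ℝ, 0 < s ∧ RateL (V K) (D K) s) ↔ G ∧ S ∧ E)
    (h3 : (∀ K : ℕ, 1 ≤ K → ∃ L s : ℝ, 0 < s ∧ RateL (V K) L s) → E)
    {s : ℕ → ℝ} (hs : ∀ K, 0 < s K ∧ s K ≤ 1) :
    (∀ K : ℕ, 1 ≤ K → RateL (V K) (D K) (s K)) ↔ G ∧ S ∧ ∀ K : ℕ, 1 ≤ K → Nn K (s K) := by
  constructor
  · intro h
    obtain ⟨a1, a2, -⟩ := h2.1 fun K hK => ⟨s K, (hs K).1, h K hK⟩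
    exact ⟨a1, a2, fun K hK => ((h1 K hK _ (hs K).1 (hs K).2).1 ⟨_, h K hK⟩).2⟩
  · rintro ⟨hG, hS, hN⟩ K hK
    have hR : ∀ K : ℕ, 1 ≤ K → ∃ L : ℝ, RateL (V K) L (s K) := fun K hK => (h1 K hK _ (hs K).1 (hs K).2).2 ⟨hG, hN K hK⟩
    have hE := h3 fun K hK => by
      obtain ⟨L, h⟩ := hR K hK
      exact ⟨L, s K, (hs K).1, h⟩
    obtain ⟨s', hs', C', b1⟩ := h2.2 ⟨hG, hS, hE⟩ K hK
    obtain ⟨L, C, b2⟩ := hR K hK
    have b3 := rate_lim hs' fun δ h0 h1' => (b1 δ h0 h1').2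
    have b4 := rate_lim (hs K).1 fun δ h0 h1' => (b2 δ h0 h1').2
    have b5 : L = D K := tendsto_nhds_unique b4 b3
    rw [b5] at b2
    exact ⟨C, b2⟩

section gen2

variable {J : Type} [Fintype J] {l : J → List ℝ} {r : J → ℕ} {N : J → ℝ} {b c : J → ℕ → ℂ} {X : J → ℂ → ℂ} {d : J → ℕ}
variable (F : Family l r N b c X d)

include F

/-- **Exact rates for families**, with multiplicities. -/
theorem Family.near (hd : ∀ j, 1 ≤ d j) {lam' : ℕ → ℝ} {d' : ℝ} (hl' : ∀ n, |lam' n| ≤ d' * ArithmeticFunction.vonMangoldt n)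
    (hC : Cl (lamF c d) lam') :
    ∃ C : ℝ, Tendsto (fun σ : ℝ => mF r d / (σ - 1) - RS lam' σ) (𝓝[>] 1) (𝓝 (C - mF r d)) ∧
      (GRHf X → ∀ (p : ℕ) (v : ℝ), Summable (nS (TS X) (MO X d) p v)) ∧
      (GRHf X → ∀ K : ℕ, Summable fun n : Dg (PM' X) K => Tr (fun x : PM' X => (d x.1.1.1 : ℝ) / (1 / 4 + x.1.1.2.im ^ 2)) n.1 ^ 2) ∧
      (∀ K : ℕ, 1 ≤ K → ∀ s : ℝ, 0 < s → s ≤ 1 →
        ((∃ L : ℝ, RateL (PM (aL lam' (mF r d) C) (4 * rO X d) K) L s) ↔ GRHf X ∧ NearT (TS X) (MO X d) (2 * K) s)) ∧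
      (∀ s : ℕ → ℝ, (∀ K, 0 < s K ∧ s K ≤ 1) → ((∀ K : ℕ, 1 ≤ K → RateL (PM (aL lam' (mF r d) C) (4 * rO X d) K)
          ((2 * K).factorial * ∑' n : Dg (PM' X) K, Tr (fun x : PM' X => (d x.1.1.1 : ℝ) / (1 / 4 + x.1.1.2.im ^ 2)) n.1 ^ 2) (s K)) ↔
        GRHf X ∧ ((∀ p : PO X, WL.mu (X p.1.1) p.1.2 = 1) ∧ LinearIndependent ℚ fun p : PO X => p.1.2.im) ∧
          ∀ K : ℕ, 1 ≤ K → NearT (TS X) (MO X d) (2 * K) (s K))) := by
  obtain ⟨C, h1, h2, h3⟩ := F.rate3 hd hl' hC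
  obtain ⟨h4, h5⟩ := F.near0 hd hl' hC h1
  refine ⟨C, h1, h4, fun hG K => ?_, h5, fun s hs => near_all h5 h3 (fun h => ?_) hs⟩
  · rcases Nat.eq_zero_or_pos K with h0 | h0
    · subst h0
      have : Subsingleton (Dg (PM' X) 0) := ⟨fun x y => by
        have hx : x.1 = 0 := (Finsupp.degree_eq_zero_iff _).1 x.2
        have hy : y.1 = 0 := (Finsupp.degree_eq_zero_iff _).1 y.2
        exact Subtype.ext (hx.trans hy.symm)⟩
      exact Summable.of_finite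
    · exact (h2 K h0).1 hG
  · simp_rw [← EffT_iff]
    exact EffT_all.1 fun K hK => (EffT_iff _ _).2 ((h2 K hK).2.1.1 (h K hK)).2

end gen2

end Run7.h278.LG
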