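import Pool.Agent.Run7.h278.LG.Expl
import Pool.Agent.Run7.h278.LM.Lim

set_option autoImplicit false

/-!
# Zeros off the line, and the means
-/

namespace Run7.h278.LG

open Complex Filter Topology MeasureTheory Set Run7.h278.LM Run7.h278.WL
open Pool.Agent.H24R2.JP (Par)
open scoped ENNReal

theorem off_zero {f : ℂ → ℂ} (h : ¬RHf f) : ∃ ρ : ℂ, 1 / 2 < ρ.re ∧ f (ρ * (ρ - 1)) = 0 := by
  unfold RHf at h
  push Not at h
  obtain ⟨v, hv, hn⟩ := h
  obtain ⟨z, hz⟩ := IsAlgClosed.exists_pow_nat_eq (v + 1 / 4) (n := 2) (by norm_num)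
  have hre : z.re ≠ 0 := by
    intro h0
    have h1 : v = ((-(z.im ^ 2) - 1 / 4 : ℝ) : ℂ) := by
      have h2 : z = z.im * I := by
        apply Complex.ext <;> simp [h0]
      have h3 : v = z ^ 2 - 1 / 4 := by linear_combination -hz
      rw [h3, h2, mul_pow, Complex.I_sq]
      push_cast
      simp
    exact hn _ (by nlinarith [sq_nonneg z.im]) h1
  rcases lt_or_gt_of_ne hre with h1 | h1
  · refine ⟨1 / 2 - z, by simp; linarith, ?_⟩
    rw [← hv]
    congr 1
    linear_combination hz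
  · refine ⟨1 / 2 + z, by simp; exact h1, ?_⟩
    rw [← hv]
    congr 1
    linear_combination hz

section main

variable {J : Type} [Fintype J] {f : ℂ → ℂ} {lam : ℕ → ℝ} {d m m' Q : ℝ} {μ : J → ℝ}
variable (D : LD f lam d m m' Q μ)

include D

theorem no_zero {δ : ℝ} (hδ : 0 < δ)
    (hi : IntegrableOn (fun u : ℝ => Real.exp (-δ * u) * aL lam m (cL f m m' Q μ).re u ^ 2) (Ioi 0)) {ρ : ℂ}
    (hρ : 1 / 2 + δ / 2 < ρ.re) : f (ρ * (ρ - 1)) ≠ 0 := by
  intro hzero
  set aa : ℝ → ℝ := aL lam m (cL f m m' Q μ).re with haa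
  have aa_cont : Continuous aa := aL_cont D.lam_le m _
  have hconv : ∀ σ : ℝ, δ / 2 < σ → IntegrableOn (fun u : ℝ => |aa u| * Real.exp (-σ * u)) (Ioi 0) := by
    intro σ hσ
    have h1 : IntegrableOn (fun u : ℝ => Real.exp (-δ * u) * aa u ^ 2 + Real.exp (-(2 * σ - δ) * u)) (Ioi 0) :=
      hi.add (integrableOn_exp_mul_Ioi (a := -(2 * σ - δ)) (by linarith) 0)
    have hc : Continuous fun u : ℝ => |aa u| * Real.exp (-σ * u) := aa_cont.abs.mul (by fun_prop)
    refine Integrable.mono' h1 hc.aestronglyMeasurable (Eventually.of_forall fun u => ?_)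
    rw [Real.norm_eq_abs, abs_of_nonneg (by positivity)]
    have e1 : Real.exp (-δ * u) = Real.exp (-δ / 2 * u) ^ 2 := by
      rw [← Real.exp_nat_mul]
      congr 1
      push_cast
      ring
    have e2 : Real.exp (-(2 * σ - δ) * u) = Real.exp (-(σ - δ / 2) * u) ^ 2 := by
      rw [← Real.exp_nat_mul]
      congr 1
      push_cast
      ring
    have e3 : Real.exp (-σ * u) = Real.exp (-δ / 2 * u) * Real.exp (-(σ - δ / 2) * u) := by
      rw [← Real.exp_add]
      congr 1
      ring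
    rw [e1, e2, e3, ← sq_abs (aa u)]
    nlinarith [sq_nonneg (Real.exp (-δ / 2 * u) * |aa u| - Real.exp (-(σ - δ / 2) * u)),
      mul_nonneg (mul_nonneg (Real.exp_pos (-δ / 2 * u)).le (abs_nonneg (aa u))) (Real.exp_pos (-(σ - δ / 2) * u)).le]
  set H : ℂ → ℂ := fun w => ∫ u : ℝ in Ioi 0, (aa u : ℂ) * cexp (-(w - 1 / 2) * u) with hH
  set U : Set ℂ := {w | 1 / 2 + δ / 2 < w.re} with hU
  have hUo : IsOpen U := isOpen_lt continuous_const continuous_re
  have hUc : Convex ℝ U := convex_halfSpace_re_gt _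
  have hHd : DifferentiableOn ℂ H U := by
    have h1 := lap_diff aa_cont hconv
    have h2 : DifferentiableOn ℂ (fun w : ℂ => w - 1 / 2) U := by fun_prop
    refine DifferentiableOn.comp (g := fun p : ℂ => ∫ u : ℝ in Ioi 0, (aa u : ℂ) * cexp (-p * u))
      (f := fun w : ℂ => w - 1 / 2) h1 h2 fun w hw => ?_
    have hw' : 1 / 2 + δ / 2 < w.re := hw
    have : (w - 1 / 2).re = w.re - 1 / 2 := by simp
    show δ / 2 < (w - 1 / 2).re
    rw [this]
    linarith
  have hHa : AnalyticOnNhd ℂ H U := hHd.analyticOnNhd hUo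
  set hz : ℂ → ℂ := fun w => f (w * (w - 1)) with hhz
  have hza : ∀ w, AnalyticAt ℂ hz w := by
    intro w
    have : Differentiable ℂ hz := D.diff.comp (by fun_prop : Differentiable ℂ fun w : ℂ => w * (w - 1))
    exact this.analyticAt w
  set K : ℂ → ℂ := fun w => 2 * (m' * (w - 1) + m * w + w * (w - 1) * (Q + ∑ j, GG (μ j) w) - w ^ 2 * (w - 1) ^ 2 * H w -
    m * w ^ 2 + (cL f m m' Q μ).re * (w ^ 2 * (w - 1))) with hK
  have hKa : AnalyticOnNhd ℂ K U := by
    intro w hw
    have hw' : 1 / 2 + δ / 2 < w.re := hw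
    have h1 : AnalyticAt ℂ (fun w : ℂ => (m' : ℂ) * (w - 1) + m * w) w := by fun_prop
    have h2 : AnalyticAt ℂ (fun w : ℂ => ∑ j, GG (μ j) w) w :=
      Finset.analyticAt_fun_sum _ fun j _ => GG_cont (D.pos j) (by linarith)
    have h3 : AnalyticAt ℂ (fun w : ℂ => w * (w - 1) * (Q + ∑ j, GG (μ j) w)) w := by
      have h4 : AnalyticAt ℂ (fun w : ℂ => w * (w - 1)) w := by fun_prop
      exact h4.mul (analyticAt_const.add h2)
    have h5 : AnalyticAt ℂ (fun w : ℂ => w ^ 2 * (w - 1) ^ 2 * H w) w := by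
      have h6 : AnalyticAt ℂ (fun w : ℂ => w ^ 2 * (w - 1) ^ 2) w := by fun_prop
      exact h6.mul (hHa w hw)
    have h7 : AnalyticAt ℂ (fun w : ℂ => (m : ℂ) * w ^ 2) w := by fun_prop
    have h8 : AnalyticAt ℂ (fun w : ℂ => ((cL f m m' Q μ).re : ℂ) * (w ^ 2 * (w - 1))) w := by fun_prop
    exact analyticAt_const.mul ((((h1.add h3).sub h5).sub h7).add h8)
  have hP : ∀ w, AnalyticAt ℂ (fun w : ℂ => w * (w - 1)) w := fun w => by fun_prop
  have hL : AnalyticOnNhd ℂ (fun w => w * (w - 1) * deriv hz w) U := fun w _ => (hP w).mul (hza w).deriv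
  have hR : AnalyticOnNhd ℂ (fun w => hz w * K w) U := fun w hw => (hza w).mul (hKa w hw)
  have h3U : (3 + δ : ℂ) ∈ U := by
    show 1 / 2 + δ / 2 < (3 + δ : ℂ).re
    simp
    linarith
  have hev : (fun w => w * (w - 1) * deriv hz w) =ᶠ[𝓝 (3 + δ : ℂ)] fun w => hz w * K w := by
    have : {w : ℂ | 2 < w.re} ∈ 𝓝 (3 + δ : ℂ) :=
      (isOpen_lt continuous_const continuous_re).mem_nhds (by simp; linarith)
    filter_upwards [this] with w hw
    have hw2 : 2 < w.re := hw
    have hw1 : w ≠ 1 := fun h => by rw [h] at hw2; norm_num at hw2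
    have hw0 : w ≠ 0 := fun h => by rw [h] at hw2; norm_num at hw2
    have hwm : w - 1 ≠ 0 := sub_ne_zero.2 hw1
    have hfx : f (w * (w - 1)) ≠ 0 := D.right w (by linarith)
    have hd : deriv hz w = (2 * w - 1) * deriv f (w * (w - 1)) := by
      have h2 : HasDerivAt (fun w : ℂ => w * (w - 1)) (2 * w - 1) w := by
        have := (hasDerivAt_id w).mul ((hasDerivAt_id w).sub_const (1 : ℂ))
        have e : (1 : ℂ) * (id w - 1) + id w * 1 = 2 * w - 1 := by
          simp only [id]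
          ring
        rw [e] at this
        exact this
      have h3 : HasDerivAt hz (deriv f (w * (w - 1)) * (2 * w - 1)) w :=
        HasDerivAt.comp (h₂ := f) w (D.diff _).hasDerivAt h2
      rw [h3.deriv]
      ring
    have h4 := D.log w (by linarith)
    rw [logDeriv_apply] at h4
    have h5 : (2 * w - 1) * deriv f (w * (w - 1)) = f (w * (w - 1)) *
        (2 * (m' / w + m / (w - 1) + Q + ∑ j, GG (μ j) w - LSeries (fun n => (lam n : ℂ)) w)) := by
      rw [← h4]
      field_simp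
    rw [hd, h5, hK, hhz, hH]
    simp only
    rw [(aL_lap D.lam_le m _ hw2).2]
    generalize (∑ j, GG (μ j) w) = A
    generalize LSeries (fun n => (lam n : ℂ)) w = L
    generalize f (w * (w - 1)) = F
    field_simp
    ring
  have hEq := hL.eqOn_of_preconnected_of_eventuallyEq hR hUc.isPreconnected h3U hev
  have hρU : ρ ∈ U := hρ
  have hevρ : ((fun w : ℂ => w * (w - 1)) * (fun w => deriv hz w)) =ᶠ[𝓝 ρ] (hz * K) := by
    filter_upwards [hUo.mem_nhds hρU] with w hw
    exact hEq hw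
  have ho := analyticOrderAt_congr hevρ
  rw [analyticOrderAt_mul (hP ρ) (hza ρ).deriv, analyticOrderAt_mul (hza ρ) (hKa ρ hρU)] at ho
  have hρ0 : ρ ≠ 0 := by
    intro h
    rw [h] at hρ
    simp at hρ
    linarith
  have hρ1 : ρ ≠ 1 := by
    rintro rfl
    rw [sub_self, mul_zero] at hzero
    exact D.ne hzero
  have hP0 : analyticOrderAt (fun w : ℂ => w * (w - 1)) ρ = 0 :=
    (hP ρ).analyticOrderAt_eq_zero.2 (mul_ne_zero hρ0 (sub_ne_zero.2 hρ1))
  rw [hP0, zero_add] at ho
  have hzρ : hz ρ = 0 := hzero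
  have ho3 := (hza ρ).analyticOrderAt_deriv_add_one
  simp only [hzρ, sub_zero] at ho3
  have hfin : analyticOrderAt hz ρ ≠ ⊤ := by
    intro htop
    have h1 : hz =ᶠ[𝓝 ρ] 0 := analyticOrderAt_eq_top.1 htop
    have h2 : AnalyticOnNhd ℂ hz univ := fun w _ => hza w
    have h3 := h2.eqOn_of_preconnected_of_eventuallyEq (g := 0) (fun w _ => analyticAt_const) isPreconnected_univ (mem_univ ρ) h1
    have h4 := h3 (mem_univ (1 : ℂ))
    have h5 : hz 1 = f 0 := by
      rw [hhz]
      simp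
    rw [h5] at h4
    exact D.ne h4
  have hle : analyticOrderAt hz ρ ≤ analyticOrderAt (deriv hz) ρ := by
    have : analyticOrderAt (deriv hz) ρ = analyticOrderAt (fun w => deriv hz w) ρ := rfl
    rw [this, ho]
    exact le_self_add
  have ho4 : analyticOrderAt (deriv hz) ρ + 1 = analyticOrderAt hz ρ := ho3
  rw [← ho4] at hle
  have hfin2 : analyticOrderAt (deriv hz) ρ ≠ ⊤ := by
    intro htop
    rw [htop] at ho4
    exact hfin (by rw [← ho4]; rfl)
  clear ho ho3 ho4
  generalize analyticOrderAt (deriv hz) ρ = x at *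
  cases x with
  | top => exact hfin2 rfl
  | coe n =>
    have : n + 1 ≤ n := by exact_mod_cast hle
    omega

/-- the Abel mean with values in `[0, ∞]` -/
noncomputable def ML (lam : ℕ → ℝ) (m c s δ : ℝ) : ℝ≥0∞ :=
  ∫⁻ u in Ioi (0 : ℝ), ENNReal.ofReal (δ * Real.exp (-δ * u) * Real.cosh (s * aL lam m c u))

theorem Ff_bdd (u : ℝ) : |Ff f u| ≤ ∑' v : ZF f, 2 * wv f v :=
  FI_le (w := wv f) (fv f) (wv_pos D) (wv_summable D) u

theorem aL_bdd (hRH : RHf f) : ∃ B : ℝ, 0 ≤ B ∧ (∀ u : ℝ, |Ff f u| ≤ B) ∧ ∀ u : ℝ, 0 < u → |aL lam m (cL f m m' Q μ).re u| ≤ B := by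
  obtain ⟨K, hK, h⟩ := near D hRH
  have hF : ∀ u : ℝ, |Ff f u| ≤ ∑' v : ZF f, 2 * wv f v := Ff_bdd D
  have h0 : 0 ≤ ∑' v : ZF f, 2 * wv f v := tsum_nonneg fun v => by have := wv_pos D v; positivity
  refine ⟨∑' v : ZF f, 2 * wv f v + K * 2, by linarith, fun u => by linarith [hF u], fun u hu => ?_⟩
  have h1 := h u hu
  have h2 : (1 + u) * Real.exp (-u / 2) ≤ 2 := by
    have h3 := Real.add_one_le_exp (u / 2)
    have h4 : Real.exp (u / 2) * Real.exp (-u / 2) = 1 := by
      rw [← Real.exp_add]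
      have : u / 2 + -u / 2 = 0 := by ring
      rw [this, Real.exp_zero]
    have h5 := Real.exp_pos (-u / 2)
    nlinarith
  have h3 : |aL lam m (cL f m m' Q μ).re u| ≤ |aL lam m (cL f m m' Q μ).re u - Ff f u| + |Ff f u| := by
    calc |aL lam m (cL f m m' Q μ).re u| = |(aL lam m (cL f m m' Q μ).re u - Ff f u) + Ff f u| := by rw [sub_add_cancel]
      _ ≤ _ := abs_add_le _ _
  nlinarith [hF u]

/-- on RH the mean for the function is the mean for the sum of cosines -/
theorem aL_mean (hRH : RHf f) {s : ℝ} (hs : 0 < s) {L : ℝ}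
    (h : Tendsto (Am fun u => Real.cosh (s * Ff f u)) (𝓝[>] 0) (𝓝 L)) :
    Tendsto (ML lam m (cL f m m' Q μ).re s) (𝓝[>] 0) (𝓝 (ENNReal.ofReal L)) ∧
      ∀ δ : ℝ, 0 < δ → ML lam m (cL f m m' Q μ).re s δ < ⊤ := by
  obtain ⟨K, hK, hn⟩ := near D hRH
  obtain ⟨B, hB, hF, ha⟩ := aL_bdd D hRH
  set aa : ℝ → ℝ := aL lam m (cL f m m' Q μ).re with haa
  have aa_cont : Continuous aa := aL_cont D.lam_le m _
  have hbb : ∀ x : ℝ, |x| ≤ B → |Real.cosh (s * x)| ≤ Real.cosh (s * B) := by
    intro x hx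
    rw [abs_of_pos (Real.cosh_pos _), Real.cosh_le_cosh, abs_mul, abs_mul, abs_of_pos hs, abs_of_nonneg hB]
    gcongr
  have hc1 : ContinuousOn (fun u => Real.cosh (s * aa u)) (Ioi 0) :=
    (Real.continuous_cosh.comp (continuous_const.mul aa_cont)).continuousOn
  have hc2 : ContinuousOn (fun u => Real.cosh (s * Ff f u)) (Ioi 0) :=
    (Real.continuous_cosh.comp (continuous_const.mul (Ff_cont D))).continuousOn
  have hdiff : Tendsto (fun u => Real.cosh (s * aa u) - Real.cosh (s * Ff f u)) atTop (𝓝 0) := by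
    have h1 : Tendsto (fun u : ℝ => Real.cosh (s * B) * (s * (K * ((1 + u) * Real.exp (-u / 2))))) atTop (𝓝 0) := by
      have h2 : Tendsto (fun u : ℝ => (1 + u) * Real.exp (-u / 2)) atTop (𝓝 0) := by
        have a1 : Tendsto (fun u : ℝ => u ^ 1 * Real.exp (-(1 / 2) * u)) atTop (𝓝 0) := by
          simpa using tendsto_rpow_mul_exp_neg_mul_atTop_nhds_zero 1 (1 / 2) (by norm_num)
        have a2 : Tendsto (fun u : ℝ => Real.exp (-(1 / 2) * u)) atTop (𝓝 0) := by
          simpa using tendsto_rpow_mul_exp_neg_mul_atTop_nhds_zero 0 (1 / 2) (by norm_num)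
        have a3 := a2.add a1
        rw [add_zero] at a3
        refine a3.congr fun u => ?_
        have : -u / 2 = -(1 / 2) * u := by ring
        rw [this]
        ring
      have h3 := ((h2.const_mul K).const_mul s).const_mul (Real.cosh (s * B))
      simpa using h3
    rw [tendsto_zero_iff_norm_tendsto_zero]
    refine squeeze_zero' (Eventually.of_forall fun u => norm_nonneg _) ?_ h1
    filter_upwards [eventually_gt_atTop 0] with u hu
    rw [Real.norm_eq_abs]
    have h4 : |s * aa u| ≤ s * B := by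
      rw [abs_mul, abs_of_pos hs]
      have := ha u hu
      gcongr
    have h5 : |s * Ff f u| ≤ s * B := by
      rw [abs_mul, abs_of_pos hs]
      have := hF u
      gcongr
    refine (cosh_lip h4 h5).trans ?_
    rw [← mul_sub, abs_mul, abs_of_pos hs]
    have h6 := hn u hu
    have := Real.cosh_pos (s * B)
    gcongr
  have h1 := Am_tail hc1 hc2 (fun u hu => hbb _ (ha u hu)) (fun u _ => hbb _ (hF u)) hdiff
  have h2 : Tendsto (Am fun u => Real.cosh (s * aa u)) (𝓝[>] 0) (𝓝 L) := by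
    have := h1.add h
    rw [zero_add] at this
    refine this.congr fun δ => ?_
    ring
  have h3 : ∀ δ : ℝ, 0 < δ → ML lam m (cL f m m' Q μ).re s δ = ENNReal.ofReal (Am (fun u => Real.cosh (s * aa u)) δ) := by
    intro δ hδ
    have hi := (Am_int hc1 (fun u hu => hbb _ (ha u hu)) hδ).const_mul δ
    unfold ML Am
    rw [← integral_const_mul, ofReal_integral_eq_lintegral_ofReal hi (Eventually.of_forall fun u => by
      have := Real.cosh_pos (s * aa u)
      show 0 ≤ δ * (Real.exp (-δ * u) * Real.cosh (s * aa u))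
      positivity)]
    refine lintegral_congr fun u => ?_
    rw [mul_assoc]
  refine ⟨?_, fun δ hδ => by rw [h3 δ hδ]; exact ENNReal.ofReal_lt_top⟩
  refine (ENNReal.tendsto_ofReal h2).congr' ?_
  filter_upwards [self_mem_nhdsWithin] with δ hδ
  exact (h3 δ hδ).symm

/-- without RH the means are infinite -/
theorem off_top (hRH : ¬RHf f) {s : ℝ} (hs : 0 < s) :
    ∃ δ₀ : ℝ, 0 < δ₀ ∧ ∀ δ : ℝ, 0 < δ → δ < δ₀ → ML lam m (cL f m m' Q μ).re s δ = ⊤ := by
  obtain ⟨ρ, h1, h2⟩ := off_zero hRH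
  refine ⟨2 * (ρ.re - 1 / 2), by linarith, fun δ hδ hlt => ?_⟩
  by_contra htop
  refine no_zero D hδ ?_ (by linarith : 1 / 2 + δ / 2 < ρ.re) h2
  set aa : ℝ → ℝ := aL lam m (cL f m m' Q μ).re with haa
  have aa_cont : Continuous aa := aL_cont D.lam_le m _
  have hc : Continuous fun u : ℝ => δ * Real.exp (-δ * u) * Real.cosh (s * aa u) := by
    have h3 : Continuous fun u => Real.cosh (s * aa u) := Real.continuous_cosh.comp (continuous_const.mul aa_cont)
    exact (by fun_prop : Continuous fun u : ℝ => δ * Real.exp (-δ * u)).mul h3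
  have hint : IntegrableOn (fun u : ℝ => δ * Real.exp (-δ * u) * Real.cosh (s * aa u)) (Ioi 0) := by
    refine ⟨hc.aestronglyMeasurable, ?_⟩
    rw [hasFiniteIntegral_iff_ofReal (Eventually.of_forall fun u => by
      have := Real.cosh_pos (s * aa u)
      show 0 ≤ δ * Real.exp (-δ * u) * Real.cosh (s * aa u)
      positivity)]
    exact lt_top_iff_ne_top.2 htop
  have hc2 : Continuous fun u : ℝ => Real.exp (-δ * u) * aa u ^ 2 := by
    fun_prop
  refine Integrable.mono' (hint.const_mul (4 / (s ^ 2 * δ))) hc2.aestronglyMeasurable (Eventually.of_forall fun u => ?_)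
  rw [Real.norm_eq_abs, abs_of_nonneg (by positivity)]
  have h3 : (s * aa u) ^ 2 / 4 ≤ Real.cosh (s * aa u) := by
    rw [← Real.cosh_abs, ← sq_abs]
    have h4 := Real.quadratic_le_exp_of_nonneg (abs_nonneg (s * aa u))
    have h5 : Real.cosh |s * aa u| = (Real.exp |s * aa u| + Real.exp (-|s * aa u|)) / 2 := Real.cosh_eq _
    have h6 := Real.exp_pos (-|s * aa u|)
    have h7 := abs_nonneg (s * aa u)
    linarith
  have hs2 : 0 < s ^ 2 := by positivity
  calc Real.exp (-δ * u) * aa u ^ 2 = 4 / (s ^ 2 * δ) * (δ * Real.exp (-δ * u) * ((s * aa u) ^ 2 / 4)) := by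
        field_simp
    _ ≤ 4 / (s ^ 2 * δ) * (δ * Real.exp (-δ * u) * Real.cosh (s * aa u)) := by gcongr

end main

end Run7.h278.LG
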