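import Pool.Agent.Run7.h278.LG.ExactZ
import Pool.Agent.Run7.h278.LG.Alpha

set_option autoImplicit false

/-!
# Close ordinates and the rate of the mean square
-/

namespace Run7.h278.LG

open Filter Topology MeasureTheory Set Run7.h278.LM Run7.h278.WL
open scoped ENNReal

/-- the term of a close pair -/
noncomputable def PT (v : ℝ) (p : TZ × TZ) : ℝ :=
  open Classical in if (p.1 : ℝ) < p.2 ∧ (p.2 : ℝ) - p.1 ≤ v then wZ p.1 * wZ p.2 else 0

/-- the weighted number of close pairs -/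
noncomputable def PP (v : ℝ) : ℝ := ∑' p : TZ × TZ, PT v p

theorem PT_nn (w1 : ∀ t : TZ, 0 < wZ t) (v : ℝ) (p : TZ × TZ) : 0 ≤ PT v p := by
  unfold PT
  split_ifs
  · exact mul_nonneg (w1 _).le (w1 _).le
  · exact le_refl 0

theorem PT_le (w1 : ∀ t : TZ, 0 < wZ t) (v : ℝ) (p : TZ × TZ) : PT v p ≤ wZ p.1 * wZ p.2 := by
  unfold PT
  split_ifs
  · exact le_refl _
  · exact mul_nonneg (w1 _).le (w1 _).le

theorem PT_sum (w1 : ∀ t : TZ, 0 < wZ t) (s1 : Summable wZ) (v : ℝ) : Summable (PT v) :=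
  Summable.of_nonneg_of_le (PT_nn w1 v) (PT_le w1 v) (Summable.mul_of_nonneg s1 s1 (fun t => (w1 t).le) fun t => (w1 t).le)

theorem PP_nr (w1 : ∀ t : TZ, 0 < wZ t) (s1 : Summable wZ) {t0 v : ℝ} (ht : ∀ t ∈ TZ, t0 ≤ t) (hv : v < 2 * t0) :
    nr (xx wZ) (tt fun t : TZ => (t : ℝ)) 2 v = 4 * PP v := by
  classical
  have x0 := xx_pos w1
  have xs := xx_sum s1
  have hP := (PT_sum w1 s1 v).hasSum
  have hP' : HasSum (fun p : TZ × TZ => PT v (p.2, p.1)) (PP v) := by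
    have := (Equiv.prodComm TZ TZ).hasSum_iff.2 hP
    exact this
  have hpos : ∀ t : TZ, t0 ≤ (t : ℝ) := fun t => ht t t.2
  set g : (TZ ⊕ TZ) × (TZ ⊕ TZ) → ℝ := fun p => nT (xx wZ) (tt fun t : TZ => (t : ℝ)) 2 v ![p.1, p.2] with hg
  have hval : ∀ y y' : TZ ⊕ TZ, g (y, y') = if tt (fun t : TZ => (t : ℝ)) y + tt (fun t : TZ => (t : ℝ)) y' ≠ 0 ∧
      |tt (fun t : TZ => (t : ℝ)) y + tt (fun t : TZ => (t : ℝ)) y'| ≤ v then xx wZ y * xx wZ y' else 0 := by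
    intro y y'
    rw [hg]
    simp only
    unfold nT
    simp [Fin.sum_univ_two, Fin.prod_univ_two]
  have b1 : ∀ t t' : TZ, g (Sum.inl t, Sum.inl t') = 0 := by
    intro t t'
    rw [hval]
    refine if_neg ?_
    rintro ⟨-, h⟩
    have h1 : |(t : ℝ) + t'| ≤ v := h
    have h2 := le_abs_self ((t : ℝ) + t')
    have h3 := hpos t
    have h4 := hpos t'
    linarith
  have b2 : ∀ t t' : TZ, g (Sum.inr t, Sum.inr t') = 0 := by
    intro t t'
    rw [hval]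
    refine if_neg ?_
    rintro ⟨-, h⟩
    have h1 : |-(t : ℝ) + -(t' : ℝ)| ≤ v := h
    have h2 := neg_abs_le (-(t : ℝ) + -(t' : ℝ))
    have h3 := hpos t
    have h4 := hpos t'
    linarith
  have key : ∀ t t' : TZ, (if (t : ℝ) - t' ≠ 0 ∧ |(t : ℝ) - t'| ≤ v then wZ t * wZ t' else 0) = PT v (t, t') + PT v (t', t) := by
    intro t t'
    unfold PT
    simp only
    rcases lt_trichotomy (t : ℝ) t' with h | h | h
    · have e : |(t : ℝ) - t'| = t' - t := by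
        rw [abs_sub_comm, abs_of_pos (by linarith)]
      rw [e, if_neg (c := (t' : ℝ) < t ∧ _) (fun h' => by linarith [h'.1]), add_zero]
      by_cases h1 : (t' : ℝ) - t ≤ v
      · rw [if_pos ⟨by linarith [sub_ne_zero.2 h.ne], h1⟩, if_pos ⟨h, h1⟩]
      · rw [if_neg (fun h' => h1 h'.2), if_neg (fun h' => h1 h'.2)]
    · rw [if_neg (fun h' => h'.1 (by linarith)), if_neg (fun h' => by linarith [h'.1]), if_neg (fun h' => by linarith [h'.1]), add_zero]
    · have e : |(t : ℝ) - t'| = t - t' := abs_of_pos (by linarith)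
      rw [e, if_neg (c := (t : ℝ) < t' ∧ _) (fun h' => by linarith [h'.1]), zero_add]
      by_cases h1 : (t : ℝ) - t' ≤ v
      · rw [if_pos ⟨sub_ne_zero.2 h.ne', h1⟩, if_pos ⟨h, h1⟩]
        ring
      · rw [if_neg (fun h' => h1 h'.2), if_neg (fun h' => h1 h'.2)]
  have b3 : ∀ t t' : TZ, g (Sum.inl t, Sum.inr t') = PT v (t, t') + PT v (t', t) := by
    intro t t'
    rw [hval, ← key]
    show (if (t : ℝ) + -(t' : ℝ) ≠ 0 ∧ |(t : ℝ) + -(t' : ℝ)| ≤ v then wZ t * wZ t' else 0) = _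
    rw [← sub_eq_add_neg]
  have b4 : ∀ t t' : TZ, g (Sum.inr t, Sum.inl t') = PT v (t, t') + PT v (t', t) := by
    intro t t'
    rw [hval, ← key]
    show (if -(t : ℝ) + (t' : ℝ) ≠ 0 ∧ |-(t : ℝ) + (t' : ℝ)| ≤ v then wZ t * wZ t' else 0) = _
    rw [show -(t : ℝ) + (t' : ℝ) = -((t : ℝ) - t') by ring, abs_neg]
    simp only [ne_eq, neg_eq_zero]
  have h2P : HasSum (fun p : TZ × TZ => PT v (p.1, p.2) + PT v (p.2, p.1)) (2 * PP v) := by
    rw [two_mul]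
    exact hP.add hP'
  have hz : HasSum (fun _ : TZ × TZ => (0 : ℝ)) 0 := hasSum_zero
  have c1 : HasSum (fun p : TZ × (TZ ⊕ TZ) => g (Sum.inl p.1, p.2)) (0 + 2 * PP v) := by
    refine (Equiv.prodSumDistrib TZ TZ TZ).symm.hasSum_iff.1 (HasSum.sum (hz.congr_fun fun p => ?_) (h2P.congr_fun fun p => ?_))
    · exact b1 p.1 p.2
    · exact b3 p.1 p.2
  have c2 : HasSum (fun p : TZ × (TZ ⊕ TZ) => g (Sum.inr p.1, p.2)) (2 * PP v + 0) := by
    refine (Equiv.prodSumDistrib TZ TZ TZ).symm.hasSum_iff.1 (HasSum.sum (h2P.congr_fun fun p => ?_) (hz.congr_fun fun p => ?_))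
    · exact b4 p.1 p.2
    · exact b2 p.1 p.2
  have c3 : HasSum g ((0 + 2 * PP v) + (2 * PP v + 0)) :=
    (Equiv.sumProdDistrib TZ TZ (TZ ⊕ TZ)).symm.hasSum_iff.1 (HasSum.sum (c1.congr_fun fun p => rfl) (c2.congr_fun fun p => rfl))
  have c4 := (finTwoArrowEquiv (TZ ⊕ TZ)).hasSum_iff.2 c3
  have c5 : g ∘ (finTwoArrowEquiv (TZ ⊕ TZ)) = nT (xx wZ) (tt fun t : TZ => (t : ℝ)) 2 v := by
    funext f
    rw [hg]
    simp only [Function.comp_apply]
    congr 1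
    funext i
    fin_cases i <;> rfl
  rw [c5] at c4
  unfold nr
  rw [c4.tsum_eq]
  ring

/-- **The rate of the mean square is the order of the weighted number of close pairs.** -/
theorem zeta_pairs {c : ℝ} (hc : 0 < c) (hc1 : c ≤ 1) : RateAt (PM aa 0 1) c ↔ RiemannHypothesis ∧
    ∃ C : ℝ, ∀ v : ℝ, 0 < v → v < 1 → PP v ≤ C * v ^ c := by
  rw [zeta_exact le_rfl hc hc1]
  refine and_congr_right fun hRH => ?_
  obtain ⟨cm, -⟩ := cmZ hRH
  obtain ⟨t0, ht0, ht⟩ := cm.ct.t0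
  obtain ⟨w1, s1, -⟩ := zeta_core hRH
  set S := (∑' y, xx wZ y) ^ 2 with hS
  have hS0 : 0 ≤ S := pow_nonneg (tsum_nonneg fun y => (xx_pos w1 y).le) 2
  have hSP : 0 ≤ (∑' p : TZ × TZ, wZ p.1 * wZ p.2) := tsum_nonneg fun p => mul_nonneg (w1 _).le (w1 _).le
  have hsp : Summable fun p : TZ × TZ => wZ p.1 * wZ p.2 := Summable.mul_of_nonneg s1 s1 (fun t => (w1 t).le) fun t => (w1 t).le
  have hge : ∀ v : ℝ, 2 * t0 ≤ v → 1 ≤ (2 * t0) ^ (-c) * v ^ c := by
    intro v hv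
    have h1 : (2 * t0) ^ c ≤ v ^ c := Real.rpow_le_rpow (by positivity) hv hc.le
    rw [Real.rpow_neg (by positivity), ← div_eq_inv_mul, one_le_div (by positivity)]
    exact h1
  constructor
  · rintro ⟨C, h⟩
    refine ⟨|C| + (∑' p : TZ × TZ, wZ p.1 * wZ p.2) * (2 * t0) ^ (-c), fun v hv hv1 => ?_⟩
    have hvc : 0 < v ^ c := by positivity
    have h2 : C * v ^ c ≤ |C| * v ^ c := mul_le_mul_of_nonneg_right (le_abs_self C) hvc.le
    have h3 : 0 ≤ |C| * v ^ c := by positivity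
    rcases lt_or_ge v (2 * t0) with h1 | h1
    · have h4 := h v hv hv1
      rw [show 2 * 1 = 2 by rfl, PP_nr w1 s1 ht h1] at h4
      have h5 : 0 ≤ (∑' p : TZ × TZ, wZ p.1 * wZ p.2) * (2 * t0) ^ (-c) * v ^ c := by positivity
      have h6 : 0 ≤ PP v := tsum_nonneg fun p => PT_nn w1 v p
      linarith
    · have h4 : PP v ≤ ∑' p : TZ × TZ, wZ p.1 * wZ p.2 := Summable.tsum_le_tsum (PT_le w1 v) (PT_sum w1 s1 v) hsp
      have h5 := mul_le_mul_of_nonneg_left (hge v h1) hSP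
      linarith
  · rintro ⟨C, h⟩
    refine ⟨4 * |C| + S * (2 * t0) ^ (-c), fun v hv hv1 => ?_⟩
    have hvc : 0 < v ^ c := by positivity
    have h2 : C * v ^ c ≤ |C| * v ^ c := mul_le_mul_of_nonneg_right (le_abs_self C) hvc.le
    have h3 : 0 ≤ |C| * v ^ c := by positivity
    rcases lt_or_ge v (2 * t0) with h1 | h1
    · have h4 := h v hv hv1
      rw [show 2 * 1 = 2 by rfl, PP_nr w1 s1 ht h1]
      have h5 : 0 ≤ S * (2 * t0) ^ (-c) * v ^ c := by positivity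
      linarith
    · have h4 := nr_le (τ := tt fun t : TZ => (t : ℝ)) (xx_pos w1) (xx_sum s1) 2 v
      have h5 := mul_le_mul_of_nonneg_left (hge v h1) hS0
      rw [show 2 * 1 = 2 by rfl]
      linarith

end Run7.h278.LG
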