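import Pool.Agent.Run7.h278.LG.Mult

set_option autoImplicit false

/-!
# Moments of almost periodic cosine sums and relations of bounded length
-/

namespace Run7.h278.LG

open Complex Filter Topology MeasureTheory Set Run7.h278.LM

/-- the mean value of an absolutely convergent sum of exponentials -/
theorem mean_rep {κ : Type} {d θ : κ → ℝ} (h0 : ∀ i, 0 < d i) (hs : Summable d) {G : ℝ → ℝ}
    (hrep : ∀ u : ℝ, HasSum (fun i => (d i : ℂ) * cexp (I * θ i * u)) (G u : ℂ)) :
    Tendsto (Am G) (𝓝[>] 0) (𝓝 (∑' i, open Classical in if θ i = 0 then d i else 0)) := by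
  classical
  have : Countable κ := by
    have h1 := hs.countable_support
    have h2 : Function.support d = univ := by
      ext i
      simp [(h0 i).ne']
    rw [h2] at h1
    exact countable_univ_iff.1 h1
  have hdn : Summable fun i => ‖(d i : ℂ)‖ := by
    refine hs.congr fun i => ?_
    rw [Complex.norm_real, Real.norm_eq_abs, abs_of_pos (h0 i)]
  have hval : ∀ δ : ℝ, 0 < δ → ((Am G δ : ℝ) : ℂ) = ∑' i, (d i : ℂ) * ((δ : ℂ) * (1 / ((δ : ℂ) - I * θ i))) := by
    intro δ hδ
    have h1 := lap_sum (c := fun i => (d i : ℂ)) (a := fun i => (δ : ℂ) - I * θ i) hδ (fun i => by simp) hdn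
    unfold Am
    rw [Complex.ofReal_mul, ← integral_complex_ofReal]
    have h2 : ∀ u : ℝ, ((Real.exp (-δ * u) * G u : ℝ) : ℂ) = ∑' i, (d i : ℂ) * cexp (-((δ : ℂ) - I * θ i) * u) := by
      intro u
      rw [Complex.ofReal_mul, ← (hrep u).tsum_eq, ← tsum_mul_left]
      refine tsum_congr fun i => ?_
      have h3 : cexp (-((δ : ℂ) - I * θ i) * u) = ((Real.exp (-δ * u) : ℝ) : ℂ) * cexp (I * θ i * u) := by
        push_cast
        rw [← Complex.exp_add]
        congr 1
        ring
      rw [h3]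
      ring
    simp_rw [h2]
    rw [← h1.tsum_eq, ← tsum_mul_left]
    refine tsum_congr fun i => ?_
    ring
  have hlim : Tendsto (fun δ : ℝ => ∑' i, (d i : ℂ) * ((δ : ℂ) * (1 / ((δ : ℂ) - I * θ i)))) (𝓝[>] 0)
      (𝓝 (∑' i, (d i : ℂ) * (if θ i = 0 then 1 else 0))) := by
    refine tendsto_tsum_of_dominated_convergence hdn (fun i => (tend_one (θ i)).const_mul _) ?_
    filter_upwards [self_mem_nhdsWithin] with δ hδ i
    rw [norm_mul]
    exact mul_le_of_le_one_right (norm_nonneg _) (norm_one_le hδ _)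
  have e : ∑' i, (d i : ℂ) * (if θ i = 0 then 1 else 0) = ((∑' i, (if θ i = 0 then d i else 0) : ℝ) : ℂ) := by
    rw [Complex.ofReal_tsum]
    refine tsum_congr fun i => ?_
    by_cases h1 : θ i = 0 <;> simp [h1]
  rw [e] at hlim
  have h4 : Tendsto (fun δ : ℝ => ((Am G δ : ℝ) : ℂ)) (𝓝[>] 0) (𝓝 ((∑' i, (if θ i = 0 then d i else 0) : ℝ) : ℂ)) := by
    refine hlim.congr' ?_
    filter_upwards [self_mem_nhdsWithin] with δ hδ
    exact (hval δ hδ).symm
  have h5 := (Complex.continuous_re.tendsto _).comp h4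
  exact h5

section

variable {ι : Type} (w t : ι → ℝ)

/-- the coefficients of both signs -/
noncomputable def xx : ι ⊕ ι → ℝ := Sum.elim w w

/-- the frequencies of both signs -/
noncomputable def tt : ι ⊕ ι → ℝ := Sum.elim t fun i => -t i

variable {w}

theorem xx_pos (hw : ∀ i, 0 < w i) (y : ι ⊕ ι) : 0 < xx w y := by
  rcases y with i | i <;> exact hw i

theorem xx_sum (hs : Summable w) : Summable (xx w) :=
  (HasSum.sum (f := xx w) hs.hasSum hs.hasSum).summable

theorem FI_rep (hw : ∀ i, 0 < w i) (hs : Summable w) (u : ℝ) : ∑' y, (xx w y : ℂ) * cexp (I * tt t y * u) = (FI w t u : ℂ) := by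
  have hn : ∀ τ : ι → ℝ, Summable fun i => (w i : ℂ) * cexp (I * τ i * u) := by
    intro τ
    rw [← summable_norm_iff]
    refine hs.congr fun i => ?_
    rw [norm_mul, LM.norm_I, Complex.norm_real, Real.norm_eq_abs, abs_of_pos (hw i), mul_one]
  have h1 := (hn t).hasSum
  have h2 := (hn fun i => -t i).hasSum
  have h3 := HasSum.sum (f := fun y => (xx w y : ℂ) * cexp (I * tt t y * u)) h1 h2
  rw [h3.tsum_eq, ← (hn t).tsum_add (hn fun i => -t i)]
  unfold FI
  rw [Complex.ofReal_tsum]
  refine tsum_congr fun i => ?_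
  push_cast
  rw [Complex.cos, show (t i : ℂ) * u * I = I * t i * u by ring, show -((t i : ℂ) * u) * I = -(I * t i * u) by ring,
    show I * -(t i : ℂ) * u = -(I * t i * u) by ring]
  ring

/-- the powers of the sum -/
theorem FI_pow (hw : ∀ i, 0 < w i) (hs : Summable w) (p : ℕ) (u : ℝ) :
    HasSum (fun a : Dg (ι ⊕ ι) p => ((p.factorial * Tr (xx w) a.1 : ℝ) : ℂ) * cexp (I * fr (tt t) a.1 * u))
      ((FI w t u ^ p : ℝ) : ℂ) := by
  have h := pow_rep (τ := tt t) (xx_pos hw) (xx_sum hs) p u
  rw [FI_rep t hw hs] at h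
  rwa [Complex.ofReal_pow]

variable (w)

/-- the mean of the `p`-th power -/
noncomputable def Ek (p : ℕ) : ℝ := ∑' a : Dg (ι ⊕ ι) p, open Classical in if fr (tt t) a.1 = 0 then p.factorial * Tr (xx w) a.1 else 0

/-- the mean of the `p`-th power for independent frequencies -/
noncomputable def Mk (p : ℕ) : ℝ := p.factorial * ∑' n : {n : ι →₀ ℕ // 2 * n.degree = p}, Tr w n.1 ^ 2

variable {w}

theorem Ek_tendsto (hw : ∀ i, 0 < w i) (hs : Summable w) (p : ℕ) : Tendsto (Am fun u => FI w t u ^ p) (𝓝[>] 0) (𝓝 (Ek w t p)) :=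
  mean_rep (fun a => mul_pos (by positivity) (Tr_pos (xx_pos hw) _)) ((Tr_summable (xx_pos hw) (xx_sum hs) p).mul_left _)
    fun u => FI_pow t hw hs p u

theorem fr_sumElim (p q : ι →₀ ℕ) : fr (tt t) (p.sumElim q) = (p.sum fun i n => n * t i) - q.sum fun i n => n * t i := by
  unfold fr
  rw [Finsupp.sum_sumElim]
  unfold Finsupp.sum tt
  simp only [Function.comp_apply, Sum.elim_inl, Sum.elim_inr]
  rw [sub_eq_add_neg, ← Finset.sum_neg_distrib]
  congr 1
  refine Finset.sum_congr rfl fun i _ => ?_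
  ring

theorem Tr_sumElim (p q : ι →₀ ℕ) : Tr (xx w) (p.sumElim q) = Tr w p * Tr w q := by
  unfold Tr
  rw [Finsupp.prod_sumElim]
  rfl

theorem deg_sumElim (p q : ι →₀ ℕ) : (p.sumElim q).degree = p.degree + q.degree := by
  have h : ∀ {α : Type} (f : α →₀ ℕ), f.degree = f.sum fun _ n => n := fun f => rfl
  rw [h, h, h, Finsupp.sum_sumElim]
  rfl

/-- a linear relation of length at most `p` and of the same parity -/
def Rl (t : ι → ℝ) (p : ℕ) : Prop := ∃ m : ι →₀ ℤ, m ≠ 0 ∧ (m.sum fun i n => (n : ℝ) * t i) = 0 ∧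
  (m.sum fun _ n => n.natAbs) ≤ p ∧ Even (p + m.sum fun _ n => n.natAbs)

theorem sum_sup {α : Type} [AddCommMonoid α] {f : ι →₀ ℕ} {S : Finset ι} (h : f.support ⊆ S) (g : ι → ℕ → α) (hg : ∀ i, g i 0 = 0) :
    f.sum g = ∑ i ∈ S, g i (f i) := Finsupp.sum_of_support_subset _ h _ fun i _ => hg i

theorem sum_supZ {α : Type} [AddCommMonoid α] {f : ι →₀ ℤ} {S : Finset ι} (h : f.support ⊆ S) (g : ι → ℤ → α) (hg : ∀ i, g i 0 = 0) :
    f.sum g = ∑ i ∈ S, g i (f i) := Finsupp.sum_of_support_subset _ h _ fun i _ => hg i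

/-- from a term outside the diagonal to a relation -/
theorem rel_of {p : ℕ} {P Q : ι →₀ ℕ} (hd : P.degree + Q.degree = p) (hne : P ≠ Q) (hf : fr (tt t) (P.sumElim Q) = 0) : Rl t p := by
  classical
  set m : ι →₀ ℤ := P.mapRange Int.ofNat rfl - Q.mapRange Int.ofNat rfl with hm
  have hmi : ∀ i, m i = (P i : ℤ) - Q i := fun i => rfl
  set S := P.support ∪ Q.support with hS
  have hP : P.support ⊆ S := Finset.subset_union_left
  have hQ : Q.support ⊆ S := Finset.subset_union_right
  have hmS : m.support ⊆ S := by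
    intro i hi
    rw [Finsupp.mem_support_iff, hmi] at hi
    rw [hS, Finset.mem_union, Finsupp.mem_support_iff, Finsupp.mem_support_iff]
    by_contra hc
    push Not at hc
    rw [hc.1, hc.2] at hi
    exact hi (by simp)
  have e1 : P.degree = ∑ i ∈ S, P i := sum_sup hP (fun _ n => n) fun _ => rfl
  have e2 : Q.degree = ∑ i ∈ S, Q i := sum_sup hQ (fun _ n => n) fun _ => rfl
  have e3 : (m.sum fun _ n => n.natAbs) = ∑ i ∈ S, (m i).natAbs := sum_supZ hmS (fun _ n => n.natAbs) fun _ => rfl
  refine ⟨m, ?_, ?_, ?_, ?_⟩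
  · intro h
    apply hne
    ext i
    have := hmi i
    rw [h, Finsupp.zero_apply] at this
    omega
  · rw [sum_supZ hmS (fun i n => (n : ℝ) * t i) fun i => by simp]
    rw [fr_sumElim, sum_sup hP (fun i n => (n : ℝ) * t i) (fun i => by simp), sum_sup hQ (fun i n => (n : ℝ) * t i) (fun i => by simp),
      ← Finset.sum_sub_distrib] at hf
    rw [← hf]
    refine Finset.sum_congr rfl fun i _ => ?_
    rw [hmi]
    push_cast
    ring
  · rw [e3, ← hd, e1, e2, ← Finset.sum_add_distrib]
    refine Finset.sum_le_sum fun i _ => ?_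
    rw [hmi]
    omega
  · rw [e3, ← hd, e1, e2, ← Finset.sum_add_distrib, ← Finset.sum_add_distrib]
    refine Finset.even_sum _ fun i _ => ?_
    rw [hmi, Nat.even_iff]
    omega

/-- from a relation to a term outside the diagonal -/
theorem of_rel {p : ℕ} (h : Rl t p) : ∃ P Q : ι →₀ ℕ, P.degree + Q.degree = p ∧ P ≠ Q ∧ fr (tt t) (P.sumElim Q) = 0 := by
  classical
  obtain ⟨m, hm0, hm1, hm2, hm3⟩ := h
  obtain ⟨i₀, hi₀⟩ : m.support.Nonempty := by
    rw [Finset.nonempty_iff_ne_empty]
    intro h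
    exact hm0 (Finsupp.support_eq_empty.1 h)
  set L := m.sum fun _ n => n.natAbs with hL
  have hLS : L = ∑ i ∈ m.support, (m i).natAbs := rfl
  obtain ⟨c, hc⟩ : ∃ c, p = L + 2 * c := by
    rw [Nat.even_iff] at hm3
    exact ⟨(p - L) / 2, by omega⟩
  set P : ι →₀ ℕ := m.mapRange Int.toNat rfl + Finsupp.single i₀ c with hP
  set Q : ι →₀ ℕ := m.mapRange (fun n => (-n).toNat) rfl + Finsupp.single i₀ c with hQ
  have hPi : ∀ i, P i = (m i).toNat + if i₀ = i then c else 0 := fun i => by
    rw [hP, Finsupp.add_apply, Finsupp.mapRange_apply, Finsupp.single_apply]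
  have hQi : ∀ i, Q i = (-m i).toNat + if i₀ = i then c else 0 := fun i => by
    rw [hQ, Finsupp.add_apply, Finsupp.mapRange_apply, Finsupp.single_apply]
  have hPS : P.support ⊆ m.support := by
    intro i hi
    rw [Finsupp.mem_support_iff, hPi] at hi
    rw [Finsupp.mem_support_iff]
    intro h0
    rw [h0] at hi
    have : i₀ ≠ i := fun h => by
      rw [h, Finsupp.mem_support_iff] at hi₀
      exact hi₀ h0
    simp [this] at hi
  have hQS : Q.support ⊆ m.support := by
    intro i hi
    rw [Finsupp.mem_support_iff, hQi] at hi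
    rw [Finsupp.mem_support_iff]
    intro h0
    rw [h0] at hi
    have : i₀ ≠ i := fun h => by
      rw [h, Finsupp.mem_support_iff] at hi₀
      exact hi₀ h0
    simp [this] at hi
  refine ⟨P, Q, ?_, ?_, ?_⟩
  · have e1 : P.degree = ∑ i ∈ m.support, P i := sum_sup hPS (fun _ n => n) fun _ => rfl
    have e2 : Q.degree = ∑ i ∈ m.support, Q i := sum_sup hQS (fun _ n => n) fun _ => rfl
    rw [e1, e2, ← Finset.sum_add_distrib]
    have e3 : ∀ i, P i + Q i = (m i).natAbs + if i₀ = i then 2 * c else 0 := fun i => by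
      rw [hPi, hQi]
      split_ifs <;> omega
    simp_rw [e3]
    rw [Finset.sum_add_distrib, ← hLS, Finset.sum_ite_eq, if_pos hi₀, hc]
  · intro h
    have h1 := DFunLike.congr_fun h i₀
    rw [hPi, hQi] at h1
    rw [Finsupp.mem_support_iff] at hi₀
    omega
  · rw [fr_sumElim, sum_sup hPS (fun i n => (n : ℝ) * t i) (fun i => by simp), sum_sup hQS (fun i n => (n : ℝ) * t i) (fun i => by simp),
      ← Finset.sum_sub_distrib, ← hm1]
    refine Finset.sum_congr rfl fun i _ => ?_
    rw [← sub_mul]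
    congr 1
    have e : ((P i : ℤ) - Q i) = m i := by
      rw [hPi, hQi]
      split_ifs <;> push_cast <;> omega
    exact_mod_cast e

/-- **The means of the powers.** -/
theorem Ek_Mk (hw : ∀ i, 0 < w i) (hs : Summable w) (p : ℕ) : 0 ≤ Mk w p ∧ Mk w p ≤ Ek w t p ∧ (Ek w t p = Mk w p ↔ ¬Rl t p) := by
  classical
  set f : Dg (ι ⊕ ι) p → ℝ := fun a => if fr (tt t) a.1 = 0 then p.factorial * Tr (xx w) a.1 else 0 with hf
  have hpos : ∀ a : Dg (ι ⊕ ι) p, 0 < (p.factorial : ℝ) * Tr (xx w) a.1 := fun a => mul_pos (by positivity) (Tr_pos (xx_pos hw) _)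
  have hf0 : ∀ a, 0 ≤ f a := fun a => by
    rw [hf]
    simp only
    split_ifs
    · exact (hpos a).le
    · exact le_refl 0
  have hfs : Summable f := Summable.of_nonneg_of_le hf0 (fun a => by
    rw [hf]
    simp only
    split_ifs
    · exact le_refl _
    · exact (hpos a).le) ((Tr_summable (xx_pos hw) (xx_sum hs) p).mul_left (p.factorial : ℝ))
  have hE : Ek w t p = ∑' a, f a := by
    unfold Ek
    refine tsum_congr fun a => ?_
    rw [hf]
  have hdd : ∀ n : ι →₀ ℕ, (n.sumElim n).degree = 2 * n.degree := fun n => by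
    rw [deg_sumElim]
    ring
  set ψ : {n : ι →₀ ℕ // 2 * n.degree = p} → Dg (ι ⊕ ι) p := fun n => ⟨n.1.sumElim n.1, by rw [hdd, n.2]⟩ with hψ
  have hinj : Function.Injective ψ := by
    intro n n' h
    rw [hψ] at h
    simp only [Subtype.mk.injEq] at h
    refine Subtype.ext ?_
    ext i
    have := DFunLike.congr_fun h (Sum.inl i)
    simpa using this
  have hψv : ∀ n, f (ψ n) = p.factorial * Tr w n.1 ^ 2 := by
    intro n
    rw [hf, hψ]
    simp only
    rw [fr_sumElim, sub_self, if_pos rfl, Tr_sumElim]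
    ring
  set g : Dg (ι ⊕ ι) p → ℝ := fun a => if a ∈ range ψ then f a else 0 with hg
  have hgle : ∀ a, g a ≤ f a := fun a => by
    rw [hg]
    simp only
    split_ifs
    · exact le_refl _
    · exact hf0 a
  have hg0 : ∀ a, 0 ≤ g a := fun a => by
    rw [hg]
    simp only
    split_ifs
    · exact hf0 a
    · exact le_refl 0
  have hgs : Summable g := Summable.of_nonneg_of_le hg0 hgle hfs
  have hM : Mk w p = ∑' a, g a := by
    have h1 : ∑' n, g (ψ n) = ∑' a, g a := by
      refine hinj.tsum_eq ?_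
      intro a ha
      by_contra hc
      apply ha
      rw [hg]
      simp only
      rw [if_neg hc]
    rw [← h1]
    unfold Mk
    rw [← tsum_mul_left]
    refine tsum_congr fun n => ?_
    rw [hg]
    simp only
    rw [if_pos (mem_range_self n), hψv]
  have hdiff : HasSum (fun a => f a - g a) (Ek w t p - Mk w p) := by
    rw [hE, hM]
    exact hfs.hasSum.sub hgs.hasSum
  have hd0 : ∀ a, 0 ≤ f a - g a := fun a => sub_nonneg.2 (hgle a)
  refine ⟨?_, ?_, ?_⟩
  · rw [hM]
    exact tsum_nonneg hg0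
  · have := hdiff.nonneg hd0
    linarith
  · have h1 : Ek w t p = Mk w p ↔ ∀ a, f a - g a = 0 := by
      rw [← sub_eq_zero]
      constructor
      · intro h
        rw [h] at hdiff
        have h2 := (hasSum_zero_iff_of_nonneg hd0).1 hdiff
        exact fun a => congrFun h2 a
      · intro h
        have h2 : HasSum (fun a => f a - g a) 0 := by
          simp_rw [h]
          exact hasSum_zero
        exact hdiff.unique h2
    rw [h1]
    constructor
    · intro h hR
      obtain ⟨P, Q, h2, h3, h4⟩ := of_rel t hR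
      set a : Dg (ι ⊕ ι) p := ⟨P.sumElim Q, by rw [deg_sumElim, h2]⟩ with ha
      have h5 : a ∉ range ψ := by
        rintro ⟨n, hn⟩
        have h6 : n.1.sumElim n.1 = P.sumElim Q := congrArg Subtype.val hn
        apply h3
        ext i
        have h7 := DFunLike.congr_fun h6 (Sum.inl i)
        have h8 := DFunLike.congr_fun h6 (Sum.inr i)
        simp only [Finsupp.sumElim_inl, Finsupp.sumElim_inr] at h7 h8
        omega
      have h6 := h a
      rw [hg] at h6
      simp only at h6
      rw [if_neg h5, sub_zero] at h6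
      have h7 : f a = p.factorial * Tr (xx w) a.1 := by
        rw [hf]
        simp only
        rw [if_pos h4]
      rw [h7] at h6
      exact absurd h6 (hpos a).ne'
    · intro hR a
      by_cases ha : a ∈ range ψ
      · rw [hg]
        simp only
        rw [if_pos ha, sub_self]
      · rw [hg]
        simp only
        rw [if_neg ha, sub_zero, hf]
        simp only
        rw [if_neg]
        intro h4
        apply hR
        set P := Finsupp.comapDomain Sum.inl a.1 Sum.inl_injective.injOn with hP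
        set Q := Finsupp.comapDomain Sum.inr a.1 Sum.inr_injective.injOn with hQ
        have e : P.sumElim Q = a.1 := Finsupp.comapDomain_sumElim_comapDomain a.1
        have hdeg : P.degree + Q.degree = p := by
          rw [← deg_sumElim, e, a.2]
        refine rel_of t hdeg ?_ (by rw [e]; exact h4)
        intro hPQ
        apply ha
        refine ⟨⟨P, ?_⟩, ?_⟩
        · rw [← hPQ] at hdeg
          omega
        · rw [hψ]
          refine Subtype.ext ?_
          simp only
          rw [← e, ← hPQ]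

theorem Mk_odd {p : ℕ} (hp : ¬Even p) : Mk w p = 0 := by
  unfold Mk
  have : IsEmpty {n : ι →₀ ℕ // 2 * n.degree = p} := ⟨fun n => hp ⟨n.1.degree, by have := n.2; omega⟩⟩
  rw [tsum_empty, mul_zero]

end

end Run7.h278.LG
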