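import Pool.Agent.Run7.h278.LG.Tau2

set_option autoImplicit false

/-!
# Multiplicities and the kernel of the second difference
-/

namespace Run7.h278.LG

open Filter Topology MeasureTheory Set
open scoped ENNReal

/-- lower bound for the kernel -/
theorem ker_lb {y t : ℝ} (hy : 1 ≤ y) (h1 : y < t) (h2 : t ≤ 2 * y) :
    1 / (2 * y ^ 4) * (1 - 1 / (2 * y ^ 2)) ≤ 32 * Real.sin (t * (Real.pi / (4 * y)) / 2) ^ 4 / (1 / 4 + t ^ 2) ^ 2 := by
  have hp := Real.pi_pos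
  have hy0 : 0 < y := by linarith
  have ht0 : 0 < t := by linarith
  set lam := t / (2 * y) with hlam
  have l0 : 0 ≤ lam := by positivity
  have l1 : lam ≤ 1 := by
    rw [hlam, div_le_one (by positivity)]
    exact h2
  have e1 : t * (Real.pi / (4 * y)) / 2 = lam * (Real.pi / 4) := by
    rw [hlam]
    field_simp
  have c1 : lam * (Real.sqrt 2 / 2) ≤ Real.sin (lam * (Real.pi / 4)) := by
    have h3 := strictConcaveOn_sin_Icc.concaveOn.2 (show (0 : ℝ) ∈ Icc 0 Real.pi from ⟨le_refl 0, hp.le⟩)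
      (show Real.pi / 4 ∈ Icc 0 Real.pi from ⟨by positivity, by linarith⟩) (show 0 ≤ 1 - lam by linarith) l0 (by ring)
    simp only [smul_eq_mul, Real.sin_zero, mul_zero, zero_add, Real.sin_pi_div_four] at h3
    exact h3
  have c2 : lam ^ 4 / 4 ≤ Real.sin (lam * (Real.pi / 4)) ^ 4 := by
    have h3 := pow_le_pow_left₀ (by positivity) c1 4
    have h4 : (lam * (Real.sqrt 2 / 2)) ^ 4 = lam ^ 4 / 4 := by
      have h5 : Real.sqrt 2 ^ 2 = 2 := Real.sq_sqrt (by norm_num)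
      have h6 : Real.sqrt 2 ^ 4 = 4 := by
        rw [show Real.sqrt 2 ^ 4 = (Real.sqrt 2 ^ 2) ^ 2 by ring, h5]
        norm_num
      have h7 : (lam * (Real.sqrt 2 / 2)) ^ 4 = lam ^ 4 * Real.sqrt 2 ^ 4 / 16 := by ring
      rw [h7, h6]
      ring
    linarith
  rw [e1]
  have h3 : 1 / (2 * y ^ 4) * (t ^ 2 / (1 / 4 + t ^ 2)) ^ 2 ≤ 32 * Real.sin (lam * (Real.pi / 4)) ^ 4 / (1 / 4 + t ^ 2) ^ 2 := by
    have h4 : 1 / (2 * y ^ 4) * (t ^ 2 / (1 / 4 + t ^ 2)) ^ 2 = 32 * (lam ^ 4 / 4) / (1 / 4 + t ^ 2) ^ 2 := by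
      rw [hlam]
      field_simp
      ring
    rw [h4]
    gcongr
  refine le_trans ?_ h3
  refine mul_le_mul_of_nonneg_left ?_ (by positivity)
  have h4 : 1 - 1 / (4 * t ^ 2) ≤ t ^ 2 / (1 / 4 + t ^ 2) := by
    rw [le_div_iff₀ (by positivity)]
    have : (1 - 1 / (4 * t ^ 2)) * (1 / 4 + t ^ 2) = t ^ 2 - 1 / (16 * t ^ 2) := by
      field_simp
      ring
    rw [this]
    have : 0 < 1 / (16 * t ^ 2) := by positivity
    linarith
  have h5 : 1 / (4 * t ^ 2) ≤ 1 / (4 * y ^ 2) := by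
    refine one_div_le_one_div_of_le (by positivity) ?_
    gcongr
  have h6 : 1 / (4 * y ^ 2) ≤ 1 / 4 := by
    refine one_div_le_one_div_of_le (by positivity) ?_
    nlinarith
  have h7 : 0 ≤ 1 - 1 / (4 * y ^ 2) := by linarith
  have h8 : (1 - 1 / (4 * y ^ 2)) ^ 2 ≤ (t ^ 2 / (1 / 4 + t ^ 2)) ^ 2 := pow_le_pow_left₀ h7 (by linarith) 2
  refine le_trans ?_ h8
  have h9 : (1 - 1 / (4 * y ^ 2)) ^ 2 = 1 - 1 / (2 * y ^ 2) + (1 / (4 * y ^ 2)) ^ 2 := by
    field_simp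
    ring
  rw [h9]
  have := sq_nonneg (1 / (4 * y ^ 2))
  linarith

/-- dyadic summation for an upper bound -/
theorem dyad0 {B : ℝ → ℝ} (h0 : ∀ y, 0 ≤ B y) (hm : ∀ y z, y ≤ z → B y ≤ B z)
    (h : ∀ ε : ℝ, 0 < ε → ∀ᶠ y in atTop, B (2 * y) - B y ≤ ε * (y * Real.log y)) :
    Tendsto (fun y => B y / (y * Real.log y)) atTop (𝓝 0) := by
  have key : ∀ ε : ℝ, 0 < ε → ∃ Y : ℝ, 3 ≤ Y ∧ ∀ y, Y ≤ y → B y ≤ B (2 * Y) + ε * (y * Real.log y) := by
    intro ε hε
    obtain ⟨Y0, hY0⟩ := eventually_atTop.1 (h ε hε)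
    set Y := max Y0 3 with hY
    have hY3 : 3 ≤ Y := le_max_right _ _
    refine ⟨Y, hY3, ?_⟩
    have key : ∀ n : ℕ, ∀ y, Y ≤ y → y ≤ 2 ^ (n + 1) * Y → B y ≤ B (2 * Y) + ε * (y * Real.log y) := by
      intro n
      induction n with
      | zero =>
        intro y hy hy2
        rw [zero_add, pow_one] at hy2
        have h1 := hm y (2 * Y) hy2
        have h2 : 0 ≤ Real.log y := Real.log_nonneg (by linarith)
        have h3 : 0 ≤ ε * (y * Real.log y) := mul_nonneg hε.le (mul_nonneg (by linarith) h2)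
        linarith
      | succ n ih =>
        intro y hy hy2
        rcases le_total y (2 ^ (n + 1) * Y) with h4 | h4
        · exact ih y hy h4
        · have hp : (1 : ℝ) ≤ 2 ^ n := one_le_pow₀ (by norm_num)
          have h2 : Y ≤ y / 2 := by
            rw [pow_succ] at h4
            have : Y ≤ 2 ^ n * Y := le_mul_of_one_le_left (by linarith) hp
            linarith
          have h3 : y / 2 ≤ 2 ^ (n + 1) * Y := by
            rw [pow_succ] at hy2
            linarith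
          have h5 := ih (y / 2) h2 h3
          have h6 := hY0 (y / 2) ((le_max_left _ _).trans h2)
          rw [show 2 * (y / 2) = y by ring] at h6
          have hl : Real.log (y / 2) ≤ Real.log y := Real.log_le_log (by linarith) (by linarith)
          have hl0 : 0 ≤ Real.log (y / 2) := Real.log_nonneg (by linarith)
          have h7 : y / 2 * Real.log (y / 2) ≤ y / 2 * Real.log y := mul_le_mul_of_nonneg_left hl (by linarith)
          have h8 := mul_le_mul_of_nonneg_left h7 hε.le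
          have h9 : ε * (y / 2 * Real.log y) + ε * (y / 2 * Real.log y) = ε * (y * Real.log y) := by ring
          linarith
    intro y hy
    obtain ⟨n, hn⟩ := exists_nat_ge (y / Y)
    refine key n y hy ?_
    rw [div_le_iff₀ (by linarith)] at hn
    refine hn.trans (mul_le_mul_of_nonneg_right ?_ (by linarith))
    have h2 : (n : ℝ) ≤ 2 ^ n := by exact_mod_cast n.lt_two_pow_self.le
    have h3 : (2 : ℝ) ^ n ≤ 2 ^ (n + 1) := pow_le_pow_right₀ (by norm_num) (by omega)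
    linarith
  have hyl : Tendsto (fun y : ℝ => y * Real.log y) atTop atTop := tendsto_id.atTop_mul_atTop₀ Real.tendsto_log_atTop
  rw [Metric.tendsto_atTop']
  intro ε hε
  obtain ⟨Y, hY, h1⟩ := key (ε / 3) (by positivity)
  have h2 : ∀ᶠ y : ℝ in atTop, B (2 * Y) / (y * Real.log y) < ε / 3 := (tendsto_const_nhds.div_atTop hyl).eventually_lt_const (by positivity)
  obtain ⟨Z, hZ⟩ := eventually_atTop.1 h2
  refine ⟨max Y Z, fun y hy => ?_⟩
  have hy1 : Y ≤ y := (le_max_left _ _).trans hy.le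
  have hy2 : Z ≤ y := (le_max_right _ _).trans hy.le
  have hy0 : 0 < y := by linarith
  have hly : 0 < Real.log y := Real.log_pos (by linarith)
  have hyy : 0 < y * Real.log y := by positivity
  rw [Real.dist_eq, sub_zero, abs_of_nonneg (div_nonneg (h0 y) hyy.le), div_lt_iff₀ hyy]
  have h3 := hZ y hy2
  rw [div_lt_iff₀ hyy] at h3
  have h4 := h1 y hy1
  nlinarith

/-- the sum over the kernel -/
noncomputable def KS (T : Set ℝ) (b : ℝ → ℝ) (h : ℝ) : ℝ := ∑' t : T, 32 * Real.sin (t * h / 2) ^ 4 * (b t / (1 / 4 + (t : ℝ) ^ 2) ^ 2)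

/-- locally finite multiplicities -/
structure Cm (T : Set ℝ) (m : ℝ → ℝ) : Prop where
  pos : ∀ t ∈ T, 0 < t
  int : ∀ t : T, ∃ n : ℕ, 1 ≤ n ∧ m t = n
  sum : Summable fun t : T => m t / (1 / 4 + (t : ℝ) ^ 2)

section

variable {T : Set ℝ} {m : ℝ → ℝ}

theorem Cm.one (cm : Cm T m) (t : T) : 1 ≤ m t := by
  obtain ⟨n, h1, h2⟩ := cm.int t
  rw [h2]
  exact_mod_cast h1

theorem Cm.fin (cm : Cm T m) (y : ℝ) : (T ∩ Iic y).Finite := by
  have h1 := cm.sum.tendsto_cofinite_zero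
  have h2 : ∀ᶠ t : T in cofinite, m t / (1 / 4 + (t : ℝ) ^ 2) < 1 / (1 / 4 + y ^ 2) := h1.eventually_lt_const (by positivity)
  rw [eventually_cofinite] at h2
  refine (h2.image Subtype.val).subset ?_
  rintro t ⟨h3, h4⟩
  refine ⟨⟨t, h3⟩, ?_, rfl⟩
  have ht := cm.pos t h3
  have h5 : t ≤ y := h4
  have h6 := cm.one ⟨t, h3⟩
  show ¬(m t / (1 / 4 + t ^ 2) < 1 / (1 / 4 + y ^ 2))
  rw [not_lt, div_le_div_iff₀ (by positivity) (by positivity)]
  have h7 : t ^ 2 ≤ y ^ 2 := by gcongr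
  have h8 : 1 ≤ m t := h6
  have h9 : 0 ≤ 1 / 4 + y ^ 2 := by positivity
  nlinarith [mul_le_mul_of_nonneg_right h8 h9]

theorem Cm.ct (cm : Cm T m) : Ct T m := ⟨cm.pos, fun t => by linarith [cm.one t], cm.fin⟩

theorem Cm.cd (cm : Cm T m) : Ct T (fun t => m t ^ 2 - m t) := ⟨cm.pos, fun t => by
  have := cm.one t
  nlinarith, cm.fin⟩

theorem Cm.sq_sum (cm : Cm T m) : Summable fun t : T => m t ^ 2 / (1 / 4 + (t : ℝ) ^ 2) ^ 2 := by
  have h0 : ∀ t : T, 0 ≤ m t / (1 / 4 + (t : ℝ) ^ 2) := fun t => by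
    have := cm.one t
    positivity
  refine Summable.of_nonneg_of_le (fun t => by positivity) (fun t => ?_) (cm.sum.mul_left (∑' t : T, m t / (1 / 4 + (t : ℝ) ^ 2)))
  have h1 : m t / (1 / 4 + (t : ℝ) ^ 2) ≤ ∑' t : T, m t / (1 / 4 + (t : ℝ) ^ 2) := cm.sum.le_tsum t fun s _ => h0 s
  have h2 : m t ^ 2 / (1 / 4 + (t : ℝ) ^ 2) ^ 2 = (m t / (1 / 4 + (t : ℝ) ^ 2)) * (m t / (1 / 4 + (t : ℝ) ^ 2)) := by
    rw [← sq, div_pow]
  rw [h2]
  exact mul_le_mul_of_nonneg_right h1 (h0 t)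

theorem Cm.ks_sum (cm : Cm T m) {b : ℝ → ℝ} (hb0 : ∀ t : T, 0 ≤ b t) (hb : ∀ t : T, b t ≤ m t ^ 2) (h : ℝ) :
    Summable fun t : T => 32 * Real.sin (t * h / 2) ^ 4 * (b t / (1 / 4 + (t : ℝ) ^ 2) ^ 2) := by
  have h4 : ∀ t : T, 0 ≤ Real.sin (t * h / 2) ^ 4 := fun t => by
    rw [show Real.sin (t * h / 2) ^ 4 = (Real.sin (t * h / 2) ^ 2) ^ 2 by ring]
    positivity
  refine Summable.of_nonneg_of_le (fun t => ?_) (fun t => ?_) (cm.sq_sum.mul_left 32)
  · have := hb0 t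
    have := h4 t
    positivity
  · have h1 : Real.sin (t * h / 2) ^ 2 ≤ 1 := Real.sin_sq_le_one _
    have h2 : Real.sin (t * h / 2) ^ 4 ≤ 1 := by
      rw [show Real.sin (t * h / 2) ^ 4 = (Real.sin (t * h / 2) ^ 2) ^ 2 by ring]
      exact pow_le_one₀ (sq_nonneg _) h1
    have h3 : b t / (1 / 4 + (t : ℝ) ^ 2) ^ 2 ≤ m t ^ 2 / (1 / 4 + (t : ℝ) ^ 2) ^ 2 := by
      have := hb t
      gcongr
    have h5 : 0 ≤ b t / (1 / 4 + (t : ℝ) ^ 2) ^ 2 := div_nonneg (hb0 t) (by positivity)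
    have h6 := h4 t
    nlinarith [mul_le_mul_of_nonneg_right h2 h5]

theorem Cm.split (cm : Cm T m) (h : ℝ) : KS T (fun t => m t ^ 2) h = KS T m h + KS T (fun t => m t ^ 2 - m t) h := by
  unfold KS
  have h1 := cm.ks_sum (b := m) (fun t => by linarith [cm.one t]) (fun t => by nlinarith [cm.one t]) h
  have h2 := cm.ks_sum (b := fun t => m t ^ 2 - m t) (fun t => by nlinarith [cm.one t]) (fun t => by
    show m t ^ 2 - m t ≤ m t ^ 2
    linarith [cm.one t]) h
  rw [← h1.tsum_add h2]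
  refine tsum_congr fun t => ?_
  ring

theorem log_ratio : Tendsto (fun y : ℝ => Real.log (1 / (Real.pi / (4 * y))) / Real.log y * (1 / (1 - 1 / (2 * y ^ 2)))) atTop (𝓝 1) := by
  have hp := Real.pi_pos
  have h1 : Tendsto (fun y : ℝ => Real.log (4 / Real.pi) / Real.log y + 1) atTop (𝓝 (0 + 1)) :=
    (tendsto_const_nhds.div_atTop Real.tendsto_log_atTop).add tendsto_const_nhds
  have h2 : Tendsto (fun y : ℝ => 1 / (1 - 1 / (2 * y ^ 2))) atTop (𝓝 (1 / (1 - 0))) := by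
    refine tendsto_const_nhds.div (tendsto_const_nhds.sub ?_) (by norm_num)
    refine tendsto_const_nhds.div_atTop ?_
    exact (tendsto_pow_atTop (by norm_num)).const_mul_atTop (by norm_num)
  have h3 := h1.mul h2
  norm_num at h3
  refine h3.congr' ?_
  filter_upwards [eventually_ge_atTop 3] with y hy
  have hy0 : 0 < y := by linarith
  have hly : 0 < Real.log y := Real.log_pos (by linarith)
  have e : 1 / (Real.pi / (4 * y)) = 4 / Real.pi * y := by
    field_simp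
  rw [e, Real.log_mul (by positivity) hy0.ne']
  congr 1
  · field_simp
  · norm_num

/-- **multiplicities from an upper bound for the mean square** -/
theorem Cm.upper (cm : Cm T m) {κ η : ℝ} (hl : Tendsto (fun y => Bt T m y / (y * Real.log y)) atTop (𝓝 κ))
    (hA : ∀ᶠ h in 𝓝[>] (0 : ℝ), KS T (fun t => m t ^ 2) h ≤ (κ * Gc + η) * (h ^ 3 * Real.log (1 / h))) {ε : ℝ} (hε : 0 < ε) :
    ∀ᶠ y in atTop, Bt T (fun t => m t ^ 2 - m t) (2 * y) - Bt T (fun t => m t ^ 2 - m t) y ≤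
      Real.pi ^ 3 / 32 * (η + ε) * (y * Real.log y) := by
  have hp := Real.pi_pos
  have hinv : Tendsto (fun h : ℝ => 1 / h) (𝓝[>] 0) atTop := by
    simpa using tendsto_inv_nhdsGT_zero (𝕜 := ℝ)
  have hL : Tendsto (fun h : ℝ => Real.log (1 / h)) (𝓝[>] 0) atTop := Real.tendsto_log_atTop.comp hinv
  have hL1 : ∀ᶠ h in 𝓝[>] (0 : ℝ), 1 ≤ Real.log (1 / h) := hL.eventually_ge_atTop 1
  have h1 : ∀ᶠ h in 𝓝[>] (0 : ℝ), κ * Gc - ε / 2 < KS T m h / (h ^ 3 * Real.log (1 / h)) :=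
    (cm.ct.tau hl).eventually_const_lt (by linarith)
  have h2 : ∀ᶠ h in 𝓝[>] (0 : ℝ), KS T (fun t => m t ^ 2 - m t) h ≤ (η + ε / 2) * (h ^ 3 * Real.log (1 / h)) := by
    filter_upwards [h1, hA, hL1, self_mem_nhdsWithin] with h h1 h2 h3 h4
    have h4' : (0 : ℝ) < h := h4
    have h5 : 0 < h ^ 3 * Real.log (1 / h) := by
      have : 0 < Real.log (1 / h) := by linarith
      positivity
    rw [lt_div_iff₀ h5] at h1
    rw [cm.split h] at h2
    linarith
  have hy : Tendsto (fun y : ℝ => Real.pi / (4 * y)) atTop (𝓝[>] 0) := by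
    rw [tendsto_nhdsWithin_iff]
    refine ⟨tendsto_const_nhds.div_atTop (tendsto_id.const_mul_atTop (by norm_num)), ?_⟩
    filter_upwards [eventually_gt_atTop 0] with y hy
    show 0 < Real.pi / (4 * y)
    positivity
  have h3 := hy.eventually h2
  have h4 : ∀ᶠ y : ℝ in atTop, (η + ε / 2) * (Real.log (1 / (Real.pi / (4 * y))) / Real.log y * (1 / (1 - 1 / (2 * y ^ 2)))) < η + ε := by
    have h5 := log_ratio.const_mul (η + ε / 2)
    rw [mul_one] at h5
    exact h5.eventually_lt_const (by linarith)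
  filter_upwards [h3, h4, eventually_ge_atTop 3] with y h3 h4 hy3
  have hy0 : 0 < y := by linarith
  have hly : 0 < Real.log y := Real.log_pos (by linarith)
  set Dd := Bt T (fun t => m t ^ 2 - m t) (2 * y) - Bt T (fun t => m t ^ 2 - m t) y with hDd
  have c0 : 0 < 1 - 1 / (2 * y ^ 2) := by
    rw [sub_pos, div_lt_one (by positivity)]
    nlinarith
  have h5 : 1 / (2 * y ^ 4) * (1 - 1 / (2 * y ^ 2)) * Dd ≤ KS T (fun t => m t ^ 2 - m t) (Real.pi / (4 * y)) := by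
    rw [hDd]
    unfold Bt KS
    have s1 := cm.cd.sm (2 * y)
    have s2 := cm.cd.sm y
    rw [← s1.tsum_sub s2, ← tsum_mul_left]
    refine Summable.tsum_le_tsum (fun t => ?_) ((s1.sub s2).mul_left _) (cm.ks_sum (b := fun t => m t ^ 2 - m t) (fun t => cm.cd.nn t) (fun t => by
      show m t ^ 2 - m t ≤ m t ^ 2
      linarith [cm.one t]) _)
    have hD : 0 ≤ m t ^ 2 - m t := cm.cd.nn t
    have hR : 0 ≤ 32 * Real.sin (t * (Real.pi / (4 * y)) / 2) ^ 4 * ((m t ^ 2 - m t) / (1 / 4 + (t : ℝ) ^ 2) ^ 2) := by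
      rw [show Real.sin (t * (Real.pi / (4 * y)) / 2) ^ 4 = (Real.sin (t * (Real.pi / (4 * y)) / 2) ^ 2) ^ 2 by ring]
      positivity
    by_cases a1 : (t : ℝ) ≤ y
    · rw [if_pos a1, if_pos (by linarith), sub_self, mul_zero]
      exact hR
    · rw [if_neg a1, sub_zero]
      by_cases a2 : (t : ℝ) ≤ 2 * y
      · rw [if_pos a2]
        have h6 := mul_le_mul_of_nonneg_right (ker_lb (by linarith) (not_le.1 a1) a2) hD
        refine h6.trans (le_of_eq ?_)
        ring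
      · rw [if_neg a2, mul_zero]
        exact hR
  have h6 := h5.trans h3
  have h7 : (1 - 1 / (2 * y ^ 2)) * Dd ≤ Real.pi ^ 3 / 32 * (η + ε / 2) * (y * Real.log (1 / (Real.pi / (4 * y)))) := by
    have h8 := mul_le_mul_of_nonneg_left h6 (by positivity : 0 ≤ 2 * y ^ 4)
    have h9 : 2 * y ^ 4 * (1 / (2 * y ^ 4) * (1 - 1 / (2 * y ^ 2)) * Dd) = (1 - 1 / (2 * y ^ 2)) * Dd := by
      field_simp
    have h10 : 2 * y ^ 4 * ((η + ε / 2) * ((Real.pi / (4 * y)) ^ 3 * Real.log (1 / (Real.pi / (4 * y))))) =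
        Real.pi ^ 3 / 32 * (η + ε / 2) * (y * Real.log (1 / (Real.pi / (4 * y)))) := by
      generalize Real.log (1 / (Real.pi / (4 * y))) = LL
      field_simp
      ring
    rw [h9, h10] at h8
    exact h8
  have h8 : Dd ≤ Real.pi ^ 3 / 32 * (y * Real.log y) *
      ((η + ε / 2) * (Real.log (1 / (Real.pi / (4 * y))) / Real.log y * (1 / (1 - 1 / (2 * y ^ 2))))) := by
    have h9 : Dd ≤ (Real.pi ^ 3 / 32 * (η + ε / 2) * (y * Real.log (1 / (Real.pi / (4 * y))))) / (1 - 1 / (2 * y ^ 2)) := by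
      rw [le_div_iff₀ c0, mul_comm]
      exact h7
    refine h9.trans (le_of_eq ?_)
    generalize Real.log (1 / (Real.pi / (4 * y))) = LL
    generalize 1 - 1 / (2 * y ^ 2) = cc at c0
    field_simp
  calc Dd ≤ _ := h8
    _ ≤ Real.pi ^ 3 / 32 * (y * Real.log y) * (η + ε) := mul_le_mul_of_nonneg_left h4.le (by positivity)
    _ = _ := by ring

/-- **the equality case** -/
theorem Cm.iff (cm : Cm T m) {κ : ℝ} (hl : Tendsto (fun y => Bt T m y / (y * Real.log y)) atTop (𝓝 κ)) :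
    (∀ ε : ℝ, 0 < ε → ∀ᶠ h in 𝓝[>] (0 : ℝ), KS T (fun t => m t ^ 2) h ≤ (κ * Gc + ε) * (h ^ 3 * Real.log (1 / h))) ↔
      Tendsto (fun y => Bt T (fun t => m t ^ 2 - m t) y / (y * Real.log y)) atTop (𝓝 0) := by
  have hinv : Tendsto (fun h : ℝ => 1 / h) (𝓝[>] 0) atTop := by
    simpa using tendsto_inv_nhdsGT_zero (𝕜 := ℝ)
  have hL : Tendsto (fun h : ℝ => Real.log (1 / h)) (𝓝[>] 0) atTop := Real.tendsto_log_atTop.comp hinv
  have hL1 : ∀ᶠ h in 𝓝[>] (0 : ℝ), 1 ≤ Real.log (1 / h) := hL.eventually_ge_atTop 1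
  constructor
  · intro h
    refine dyad0 (fun y => cm.cd.Bt_nn y) (fun y z hyz => cm.cd.mono hyz) fun ε hε => ?_
    have h1 := cm.upper hl (h (ε / 4) (by positivity)) (ε := ε / 4) (by positivity)
    filter_upwards [h1, eventually_ge_atTop 3] with y h1 hy
    refine h1.trans (mul_le_mul_of_nonneg_right ?_ ?_)
    · have h2 : Real.pi ^ 3 ≤ 64 := by
        have := Real.pi_lt_four
        have := Real.pi_pos
        calc Real.pi ^ 3 ≤ 4 ^ 3 := by gcongr
          _ = 64 := by norm_num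
      nlinarith
    · exact mul_nonneg (by linarith) (Real.log_nonneg (by linarith))
  · intro h ε hε
    have h1 := (cm.ct.tau hl).add (cm.cd.tau h)
    rw [zero_mul, add_zero] at h1
    have h2 := h1.eventually_lt_const (show κ * Gc < κ * Gc + ε by linarith)
    filter_upwards [h2, hL1, self_mem_nhdsWithin] with h h2 h3 h4
    have h4' : (0 : ℝ) < h := h4
    have h5 : 0 < h ^ 3 * Real.log (1 / h) := by
      have : 0 < Real.log (1 / h) := by linarith
      positivity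
    rw [← add_div, div_lt_iff₀ h5] at h2
    rw [cm.split h]
    exact h2.le

/-- **the lower bound** -/
theorem Cm.lower (cm : Cm T m) {κ : ℝ} (hl : Tendsto (fun y => Bt T m y / (y * Real.log y)) atTop (𝓝 κ)) {ε : ℝ} (hε : 0 < ε) :
    ∀ᶠ h in 𝓝[>] (0 : ℝ), (κ * Gc - ε) * (h ^ 3 * Real.log (1 / h)) ≤ KS T (fun t => m t ^ 2) h := by
  have hinv : Tendsto (fun h : ℝ => 1 / h) (𝓝[>] 0) atTop := by
    simpa using tendsto_inv_nhdsGT_zero (𝕜 := ℝ)
  have hL : Tendsto (fun h : ℝ => Real.log (1 / h)) (𝓝[>] 0) atTop := Real.tendsto_log_atTop.comp hinv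
  have hL1 : ∀ᶠ h in 𝓝[>] (0 : ℝ), 1 ≤ Real.log (1 / h) := hL.eventually_ge_atTop 1
  have h2 := (cm.ct.tau hl).eventually_const_lt (show κ * Gc - ε < κ * Gc by linarith)
  filter_upwards [h2, hL1, self_mem_nhdsWithin] with h h2 h3 h4
  have h4' : (0 : ℝ) < h := h4
  have h5 : 0 < h ^ 3 * Real.log (1 / h) := by
    have : 0 < Real.log (1 / h) := by linarith
    positivity
  rw [lt_div_iff₀ h5] at h2
  rw [cm.split h]
  have h6 : 0 ≤ KS T (fun t => m t ^ 2 - m t) h := by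
    unfold KS
    refine tsum_nonneg fun t => ?_
    have hD : 0 ≤ m t ^ 2 - m t := cm.cd.nn t
    rw [show Real.sin (t * h / 2) ^ 4 = (Real.sin (t * h / 2) ^ 2) ^ 2 by ring]
    positivity
  have h7 : KS T m h = ∑' t : T, 32 * Real.sin (t * h / 2) ^ 4 * (m t / (1 / 4 + (t : ℝ) ^ 2) ^ 2) := rfl
  linarith

end

end Run7.h278.LG
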