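import Pool.Agent.Run7.h278.LG.Cor
import Pool.Agent.Run7.h278.LG.Near
import Pool.Agent.Run7.h278.LG.Tau3

set_option autoImplicit false

/-!
# The rate of convergence of the moments
-/

namespace Run7.h278.LG

open Complex Filter Topology MeasureTheory Set Run7.h278.LM
open scoped ENNReal

section

variable {Y : Type}

theorem pi_hasSum {x : Y → ℝ} (h0 : ∀ y, 0 ≤ x y) (hs : Summable x) (K : ℕ) :
    HasSum (fun f : Fin K → Y => ∏ i, x (f i)) ((∑' y, x y) ^ K) := by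
  induction K with
  | zero =>
    have h1 : (fun f : Fin 0 → Y => ∏ i, x (f i)) = fun _ => 1 := by
      funext f
      simp
    rw [h1, pow_zero]
    have : Unique (Fin 0 → Y) := ⟨⟨fun i => i.elim0⟩, fun f => funext fun i => i.elim0⟩
    simp
  | succ K ih =>
    have hn : ∀ f : Fin K → Y, 0 ≤ ∏ i, x (f i) := fun f => Finset.prod_nonneg fun i _ => h0 _
    have hq : Summable fun p : Y × (Fin K → Y) => x p.1 * ∏ i, x (p.2 i) :=
      Summable.mul_of_nonneg (f := x) (g := fun f : Fin K → Y => ∏ i, x (f i)) hs ih.summable h0 hn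
    have h1 : HasSum (fun p : Y × (Fin K → Y) => x p.1 * ∏ i, x (p.2 i)) ((∑' y, x y) * (∑' y, x y) ^ K) :=
      HasSum.mul (f := x) (g := fun f : Fin K → Y => ∏ i, x (f i)) hs.hasSum ih hq
    rw [← pow_succ'] at h1
    have e : (fun p : Y × (Fin K → Y) => x p.1 * ∏ i, x (p.2 i)) =
        (fun f : Fin (K + 1) → Y => ∏ i, x (f i)) ∘ (Fin.consEquiv fun _ : Fin (K + 1) => Y) := by
      funext p
      simp [Fin.prod_univ_succ]
    rw [e] at h1
    exact (Equiv.hasSum_iff (Fin.consEquiv fun _ : Fin (K + 1) => Y)).1 h1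

/-- powers of a sum of exponentials -/
theorem pi_rep {x τ : Y → ℝ} (h0 : ∀ y, 0 < x y) (hs : Summable x) {G : ℝ → ℝ}
    (hrep : ∀ u : ℝ, HasSum (fun y => (x y : ℂ) * cexp (I * τ y * u)) (G u : ℂ)) (K : ℕ) (u : ℝ) :
    HasSum (fun f : Fin K → Y => ((∏ i, x (f i) : ℝ) : ℂ) * cexp (I * ((∑ i, τ (f i) : ℝ) : ℂ) * u)) ((G u ^ K : ℝ) : ℂ) := by
  induction K with
  | zero =>
    have h1 : (fun f : Fin 0 → Y => ((∏ i, x (f i) : ℝ) : ℂ) * cexp (I * ((∑ i, τ (f i) : ℝ) : ℂ) * u)) = fun _ => 1 := by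
      funext f
      simp
    rw [h1, pow_zero]
    have : Unique (Fin 0 → Y) := ⟨⟨fun i => i.elim0⟩, fun f => funext fun i => i.elim0⟩
    simp
  | succ K ih =>
    have hn : ∀ f : Fin K → Y, 0 ≤ ∏ i, x (f i) := fun f => Finset.prod_nonneg fun i _ => (h0 _).le
    have n1 : Summable fun y => ‖(x y : ℂ) * cexp (I * τ y * u)‖ := by
      refine hs.congr fun i => ?_
      rw [norm_mul, LM.norm_I, Complex.norm_real, Real.norm_eq_abs, abs_of_pos (h0 i), mul_one]
    have n2 : Summable fun f : Fin K → Y => ‖((∏ i, x (f i) : ℝ) : ℂ) * cexp (I * ((∑ i, τ (f i) : ℝ) : ℂ) * u)‖ := by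
      refine (pi_hasSum (fun y => (h0 y).le) hs K).summable.congr fun f => ?_
      rw [norm_mul, LM.norm_I, Complex.norm_real, Real.norm_eq_abs, abs_of_nonneg (hn f), mul_one]
    have h3 := prod_aux (hrep u) ih n1 n2
    rw [show (G u : ℂ) * ((G u ^ K : ℝ) : ℂ) = ((G u ^ (K + 1) : ℝ) : ℂ) by push_cast; ring] at h3
    have e : (fun p : Y × (Fin K → Y) => (x p.1 : ℂ) * cexp (I * τ p.1 * u) * (((∏ i, x (p.2 i) : ℝ) : ℂ) * cexp (I * ((∑ i, τ (p.2 i) : ℝ) : ℂ) * u))) =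
        (fun f : Fin (K + 1) → Y => ((∏ i, x (f i) : ℝ) : ℂ) * cexp (I * ((∑ i, τ (f i) : ℝ) : ℂ) * u)) ∘ (Fin.consEquiv fun _ : Fin (K + 1) => Y) := by
      funext p
      simp only [Function.comp_apply, Fin.consEquiv_apply, Fin.prod_univ_succ, Fin.sum_univ_succ, Fin.cons_zero, Fin.cons_succ]
      push_cast
      rw [show I * ((τ p.1 : ℂ) + ∑ i, (τ (p.2 i) : ℂ)) * u = I * τ p.1 * u + I * (∑ i, (τ (p.2 i) : ℂ)) * u by ring, Complex.exp_add]
      ring
    rw [e] at h3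
    exact (Equiv.hasSum_iff (Fin.consEquiv fun _ : Fin (K + 1) => Y)).1 h3

/-- the Abel mean of a sum of exponentials -/
theorem Am_formula {κ : Type} {d θ : κ → ℝ} (h0 : ∀ i, 0 < d i) (hs : Summable d) {G : ℝ → ℝ}
    (hrep : ∀ u : ℝ, HasSum (fun i => (d i : ℂ) * cexp (I * θ i * u)) (G u : ℂ)) {δ : ℝ} (hδ : 0 < δ) :
    HasSum (fun i => d i * (δ ^ 2 / (δ ^ 2 + θ i ^ 2))) (Am G δ) := by
  have : Countable κ := by
    have h1 := hs.countable_support
    have h2 : Function.support d = univ := by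
      ext i
      simp [(h0 i).ne']
    rw [h2] at h1
    exact countable_univ_iff.1 h1
  have hdn : Summable fun i => ‖(d i : ℂ)‖ := by
    refine hs.congr fun i => ?_
    rw [Complex.norm_real, Real.norm_eq_abs, abs_of_pos (h0 i)]
  have h1 := lap_sum (c := fun i => (d i : ℂ)) (a := fun i => (δ : ℂ) - I * θ i) hδ (fun i => by simp) hdn
  have h2 : ∀ u : ℝ, ((Real.exp (-δ * u) * G u : ℝ) : ℂ) = ∑' i, (d i : ℂ) * cexp (-((δ : ℂ) - I * θ i) * u) := by
    intro u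
    rw [Complex.ofReal_mul, ← (hrep u).tsum_eq, ← tsum_mul_left]
    refine tsum_congr fun i => ?_
    have h3 : cexp (-((δ : ℂ) - I * θ i) * u) = ((Real.exp (-δ * u) : ℝ) : ℂ) * cexp (I * θ i * u) := by
      push_cast
      rw [← Complex.exp_add]
      congr 1
      ring
    rw [h3]
    ring
  simp_rw [← h2] at h1
  rw [integral_complex_ofReal] at h1
  have h3 := Complex.hasSum_re (h1.mul_left (δ : ℂ))
  have h4 : ((δ : ℂ) * ((∫ u in Ioi (0 : ℝ), Real.exp (-δ * u) * G u : ℝ) : ℂ)).re = Am G δ := by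
    unfold Am
    rw [← Complex.ofReal_mul, Complex.ofReal_re]
  rw [h4] at h3
  refine h3.congr_fun ?_
  intro i
  have h5 : (δ : ℂ) - I * θ i ≠ 0 := by
    intro h
    have := congrArg Complex.re h
    simp at this
    exact hδ.ne' this
  have h6 : (0 : ℝ) < δ ^ 2 + θ i ^ 2 := by positivity
  have h7 : (δ : ℂ) * ((d i : ℂ) * (1 / ((δ : ℂ) - I * θ i))) = ((d i * (δ ^ 2 / (δ ^ 2 + θ i ^ 2)) : ℝ) : ℂ) + ((d i * (δ * θ i / (δ ^ 2 + θ i ^ 2)) : ℝ) : ℂ) * I := by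
    have h8 : ((δ : ℂ) ^ 2 + (θ i : ℂ) ^ 2) ≠ 0 := by exact_mod_cast h6.ne'
    push_cast
    field_simp
    ring_nf
    rw [show (I : ℂ) ^ 2 = -1 from Complex.I_sq]
    ring
  rw [h7, Complex.add_re, Complex.re_ofReal_mul, Complex.I_re, mul_zero, add_zero, Complex.ofReal_re]

theorem pow_diff {a b : ℝ} (hb : 0 ≤ b) (hab : b ≤ a) (K : ℕ) : a ^ K - b ^ K ≤ K * a ^ (K - 1) * (a - b) := by
  induction K with
  | zero => simp
  | succ K ih =>
    have ha : 0 ≤ a := hb.trans hab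
    have h1 : a ^ (K + 1) - b ^ (K + 1) = a * (a ^ K - b ^ K) + b ^ K * (a - b) := by ring
    have h2 : b ^ K ≤ a ^ K := pow_le_pow_left₀ hb hab K
    have h3 : a * (a ^ K - b ^ K) ≤ a * (K * a ^ (K - 1) * (a - b)) := mul_le_mul_of_nonneg_left ih ha
    have h4 : a * (K * a ^ (K - 1) * (a - b)) = K * a ^ K * (a - b) := by
      rcases Nat.eq_zero_or_pos K with h | h
      · rw [h]
        simp
      · have : a ^ K = a * a ^ (K - 1) := by
          rw [← pow_succ']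
          congr 1
          omega
        rw [this]
        ring
    have h5 : b ^ K * (a - b) ≤ a ^ K * (a - b) := mul_le_mul_of_nonneg_right h2 (by linarith)
    rw [h1, Nat.add_sub_cancel]
    push_cast
    linarith

variable {x τ : Y → ℝ} {G : ℝ → ℝ}

/-- the limit of the mean of the `K`-th power -/
noncomputable def LK (x τ : Y → ℝ) (K : ℕ) : ℝ := ∑' f : Fin K → Y, open Classical in if ∑ i, τ (f i) = 0 then ∏ i, x (f i) else 0

theorem rate_sum (h0 : ∀ y, 0 < x y) (hs : Summable x)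
    (hrep : ∀ u : ℝ, HasSum (fun y => (x y : ℂ) * cexp (I * τ y * u)) (G u : ℂ)) (K : ℕ) {δ : ℝ} (hδ : 0 < δ) :
    HasSum (fun f : Fin K → Y => open Classical in if ∑ i, τ (f i) = 0 then 0 else (∏ i, x (f i)) * (δ ^ 2 / (δ ^ 2 + (∑ i, τ (f i)) ^ 2)))
      (Am (fun u => G u ^ K) δ - LK x τ K) := by
  classical
  have hp : ∀ f : Fin K → Y, 0 < ∏ i, x (f i) := fun f => Finset.prod_pos fun i _ => h0 _
  have hsum := (pi_hasSum (fun y => (h0 y).le) hs K).summable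
  have h1 := Am_formula (d := fun f : Fin K → Y => ∏ i, x (f i)) (θ := fun f => ∑ i, τ (f i)) hp hsum (G := fun u => G u ^ K)
    (pi_rep h0 hs hrep K) hδ
  have h2 : Summable fun f : Fin K → Y => if ∑ i, τ (f i) = 0 then ∏ i, x (f i) else 0 := by
    refine Summable.of_nonneg_of_le (fun f => ?_) (fun f => ?_) hsum
    · split_ifs
      · exact (hp f).le
      · exact le_refl 0
    · split_ifs
      · exact le_refl _
      · exact (hp f).le
  have h3 := h1.sub h2.hasSum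
  unfold LK
  refine h3.congr_fun ?_
  intro f
  by_cases h : ∑ i, τ (f i) = 0
  · rw [if_pos h, if_pos h, h]
    have : δ ^ 2 ≠ 0 := by positivity
    field_simp
    ring
  · rw [if_neg h, if_neg h, sub_zero]

theorem term_nn (h0 : ∀ y, 0 < x y) {K : ℕ} (δ : ℝ) (f : Fin K → Y) :
    0 ≤ (open Classical in if ∑ i, τ (f i) = 0 then 0 else (∏ i, x (f i)) * (δ ^ 2 / (δ ^ 2 + (∑ i, τ (f i)) ^ 2))) := by
  classical
  split_ifs
  · exact le_refl 0
  · have : 0 < ∏ i, x (f i) := Finset.prod_pos fun i _ => h0 _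
    positivity

theorem rate_pos (h0 : ∀ y, 0 < x y) (hs : Summable x)
    (hrep : ∀ u : ℝ, HasSum (fun y => (x y : ℂ) * cexp (I * τ y * u)) (G u : ℂ)) (K : ℕ) {δ : ℝ} (hδ : 0 < δ) :
    0 ≤ Am (fun u => G u ^ K) δ - LK x τ K :=
  (rate_sum h0 hs hrep K hδ).nonneg fun f => term_nn h0 δ f

/-- lower bound from one tuple -/
theorem rate_lower (h0 : ∀ y, 0 < x y) (hs : Summable x)
    (hrep : ∀ u : ℝ, HasSum (fun y => (x y : ℂ) * cexp (I * τ y * u)) (G u : ℂ)) {K : ℕ} {δ : ℝ} (hδ : 0 < δ) {f : Fin K → Y}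
    (hf : ∑ i, τ (f i) ≠ 0) : (∏ i, x (f i)) * (δ ^ 2 / (δ ^ 2 + (∑ i, τ (f i)) ^ 2)) ≤ Am (fun u => G u ^ K) δ - LK x τ K := by
  classical
  have h1 := le_hasSum (rate_sum h0 hs hrep K hδ) f fun g _ => term_nn h0 δ g
  rwa [if_neg hf] at h1

/-- upper bound -/
theorem rate_upper (h0 : ∀ y, 0 < x y) (hs : Summable x)
    (hrep : ∀ u : ℝ, HasSum (fun y => (x y : ℂ) * cexp (I * τ y * u)) (G u : ℂ)) {K : ℕ} {δ g X : ℝ} (hδ : 0 < δ) (hg : 0 < g)
    (hgap : ∀ f : Fin K → Y, (∀ i, |τ (f i)| ≤ X) → ∑ i, τ (f i) ≠ 0 → g ≤ |∑ i, τ (f i)|) :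
    Am (fun u => G u ^ K) δ - LK x τ K ≤ (∑' y, x y) ^ K * (δ ^ 2 / g ^ 2) +
      K * (∑' y, x y) ^ (K - 1) * ((∑' y, x y) - ∑' y, if |τ y| ≤ X then x y else 0) := by
  classical
  set x' : Y → ℝ := fun y => if |τ y| ≤ X then x y else 0 with hx'
  have x0 : ∀ y, 0 ≤ x' y := fun y => by
    rw [hx']
    simp only
    split_ifs
    · exact (h0 y).le
    · exact le_refl 0
  have xle : ∀ y, x' y ≤ x y := fun y => by
    rw [hx']
    simp only
    split_ifs
    · exact le_refl _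
    · exact (h0 y).le
  have xs : Summable x' := Summable.of_nonneg_of_le x0 xle hs
  have hle : ∑' y, x' y ≤ ∑' y, x y := Summable.tsum_le_tsum xle xs hs
  have a1 := pi_hasSum (fun y => (h0 y).le) hs K
  have a2 := pi_hasSum x0 xs K
  have a3 := (a1.mul_right (δ ^ 2 / g ^ 2)).add (a1.sub a2)
  have h1 := hasSum_le (fun f => ?_) (rate_sum h0 hs hrep K hδ) a3
  · refine h1.trans ?_
    have h2 := pow_diff (tsum_nonneg x0) hle K
    linarith
  · show (if ∑ i, τ (f i) = 0 then 0 else (∏ i, x (f i)) * (δ ^ 2 / (δ ^ 2 + (∑ i, τ (f i)) ^ 2))) ≤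
      (∏ i, x (f i)) * (δ ^ 2 / g ^ 2) + ((∏ i, x (f i)) - ∏ i, x' (f i))
    have hp : 0 < ∏ i, x (f i) := Finset.prod_pos fun i _ => h0 _
    by_cases hsm : ∀ i, |τ (f i)| ≤ X
    · have e : ∏ i, x' (f i) = ∏ i, x (f i) := Finset.prod_congr rfl fun i _ => if_pos (hsm i)
      rw [e, sub_self, add_zero]
      by_cases h : ∑ i, τ (f i) = 0
      · rw [if_pos h]
        positivity
      · rw [if_neg h]
        refine mul_le_mul_of_nonneg_left ?_ hp.le
        have h3 := hgap f hsm h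
        have h4 : g ^ 2 ≤ (∑ i, τ (f i)) ^ 2 := by
          rw [← sq_abs (∑ i, τ (f i))]
          exact pow_le_pow_left₀ hg.le h3 2
        exact div_le_div_of_nonneg_left (by positivity) (by positivity) (by nlinarith [sq_nonneg δ])
    · push Not at hsm
      obtain ⟨j, hj⟩ := hsm
      have e : ∏ i, x' (f i) = 0 := Finset.prod_eq_zero (Finset.mem_univ j) (if_neg (not_le.2 hj))
      rw [e, sub_zero]
      have h5 : (if ∑ i, τ (f i) = 0 then 0 else (∏ i, x (f i)) * (δ ^ 2 / (δ ^ 2 + (∑ i, τ (f i)) ^ 2))) ≤ ∏ i, x (f i) := by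
        split_ifs
        · exact hp.le
        · refine mul_le_of_le_one_right hp.le ?_
          rw [div_le_one (by positivity)]
          nlinarith [sq_nonneg (∑ i, τ (f i))]
      have h6 : 0 ≤ (∏ i, x (f i)) * (δ ^ 2 / g ^ 2) := by positivity
      linarith

/-- tuples with nonzero sum are not too small -/
def EffY (τ : Y → ℝ) (K : ℕ) : Prop := ∃ A c : ℝ, 0 < A ∧ 0 < c ∧ ∀ X : ℝ, 1 ≤ X → ∀ f : Fin K → Y, (∀ i, |τ (f i)| ≤ X) →
  ∑ i, τ (f i) ≠ 0 → c * X ^ (-A) ≤ |∑ i, τ (f i)|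

/-- **A power rate of convergence is an effective lower bound.** -/
theorem rate_iff (h0 : ∀ y, 0 < x y) (hs : Summable x)
    (hrep : ∀ u : ℝ, HasSum (fun y => (x y : ℂ) * cexp (I * τ y * u)) (G u : ℂ)) (K : ℕ)
    {cw : ℝ} (hcw : 0 < cw) (hlow : ∀ y (X : ℝ), 1 ≤ X → |τ y| ≤ X → cw * X ^ (-2 : ℝ) ≤ x y)
    {Ct : ℝ} (htail : ∀ X : ℝ, 1 ≤ X → ((∑' y, x y) - ∑' y, open Classical in if |τ y| ≤ X then x y else 0) ≤ Ct * X ^ (-(1 / 2) : ℝ)) :
    (∃ c C : ℝ, 0 < c ∧ ∀ δ : ℝ, 0 < δ → δ < 1 → Am (fun u => G u ^ K) δ - LK x τ K ≤ C * δ ^ c) ↔ EffY τ K := by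
  classical
  constructor
  · rintro ⟨c, C, hc, h⟩
    have hC' : 0 < |C| + 1 := by positivity
    set c1 : ℝ := (cw ^ K / (2 * (|C| + 1))) ^ (1 / c) with hc1
    have hc10 : 0 < c1 := by positivity
    refine ⟨2 * K / c + 1, min c1 1, by positivity, by positivity, fun X hX f hf hne => ?_⟩
    have hX0 : 0 < X := by linarith
    have hXA : X ^ (-(2 * K / c + 1) : ℝ) ≤ X ^ (-(2 * K / c) : ℝ) := Real.rpow_le_rpow_of_exponent_le hX (by linarith)
    have hXA1 : X ^ (-(2 * K / c) : ℝ) ≤ 1 := Real.rpow_le_one_of_one_le_of_nonpos hX (by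
      have : 0 ≤ 2 * (K : ℝ) / c := by positivity
      linarith)
    have hXp : 0 < X ^ (-(2 * K / c) : ℝ) := by positivity
    set Θ := ∑ i, τ (f i) with hΘ
    rcases le_or_gt 1 |Θ| with h1 | h1
    · have h2 : min c1 1 * X ^ (-(2 * K / c + 1) : ℝ) ≤ 1 * 1 :=
        mul_le_mul (min_le_right _ _) (hXA.trans hXA1) (by positivity) zero_le_one
      linarith
    · have hΘ0 : 0 < |Θ| := abs_pos.2 hne
      have h2 := (rate_lower h0 hs hrep hΘ0 hne).trans (h |Θ| hΘ0 h1)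
      have h3 : |Θ| ^ 2 / (|Θ| ^ 2 + Θ ^ 2) = 1 / 2 := by
        rw [sq_abs]
        have : Θ ^ 2 ≠ 0 := by positivity
        field_simp
        norm_num
      rw [← hΘ, h3] at h2
      have h4 : (cw * X ^ (-2 : ℝ)) ^ K ≤ ∏ i, x (f i) := by
        have := Finset.prod_le_prod (s := Finset.univ) (f := fun _ : Fin K => cw * X ^ (-2 : ℝ)) (g := fun i => x (f i))
          (fun i _ => by positivity) (fun i _ => hlow (f i) X hX (hf i))
        simpa using this
      have h5 : C * |Θ| ^ c ≤ (|C| + 1) * |Θ| ^ c := by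
        refine mul_le_mul_of_nonneg_right ?_ (by positivity)
        have := le_abs_self C
        linarith
      have h6 : cw ^ K / (2 * (|C| + 1)) * X ^ (-(2 * K : ℝ)) ≤ |Θ| ^ c := by
        have e : (cw * X ^ (-2 : ℝ)) ^ K = cw ^ K * X ^ (-(2 * K : ℝ)) := by
          rw [mul_pow, ← Real.rpow_natCast (X ^ (-2 : ℝ)) K, ← Real.rpow_mul hX0.le]
          congr 2
          ring
        rw [e] at h4
        rw [div_mul_eq_mul_div, div_le_iff₀ (by positivity)]
        nlinarith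
      have h7 := Real.rpow_le_rpow (by positivity) h6 (by positivity : 0 ≤ 1 / c)
      rw [← Real.rpow_mul (abs_nonneg _), mul_one_div_cancel hc.ne', Real.rpow_one, Real.mul_rpow (by positivity) (by positivity),
        ← Real.rpow_mul hX0.le, ← hc1] at h7
      rw [show -(2 * (K : ℝ)) * (1 / c) = -(2 * K / c) by ring] at h7
      refine le_trans ?_ h7
      exact mul_le_mul (min_le_left _ _) hXA (by positivity) hc10.le
  · rintro ⟨A, c1, hA, hc1, h⟩
    set S := ∑' y, x y with hS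
    have hS0 : 0 ≤ S := tsum_nonneg fun y => (h0 y).le
    have hCt : 0 ≤ Ct := by
      have h1 := htail 1 le_rfl
      rw [Real.one_rpow, mul_one] at h1
      refine le_trans ?_ h1
      rw [sub_nonneg]
      refine Summable.tsum_le_tsum (fun y => ?_) (Summable.of_nonneg_of_le (fun y => ?_) (fun y => ?_) hs) hs
      · split_ifs
        · exact le_refl _
        · exact (h0 y).le
      · split_ifs
        · exact (h0 y).le
        · exact le_refl 0
      · split_ifs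
        · exact le_refl _
        · exact (h0 y).le
    refine ⟨1 / (2 * (A + 1)), S ^ K / c1 ^ 2 + K * S ^ (K - 1) * Ct, by positivity, fun δ hδ hδ1 => ?_⟩
    set X := δ ^ (-(1 / (A + 1))) with hX
    have hX1 : 1 ≤ X := Real.one_le_rpow_of_pos_of_le_one_of_nonpos hδ hδ1.le (by
      have : 0 < 1 / (A + 1) := by positivity
      linarith)
    have hX0 : 0 < X := by linarith
    have h1 := rate_upper h0 hs hrep (K := K) hδ (g := c1 * X ^ (-A)) (X := X) (by positivity) (fun f hf hne => h X hX1 f hf hne)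
    have e1 : X ^ (-A) = δ ^ (A / (A + 1)) := by
      rw [hX, ← Real.rpow_mul hδ.le]
      congr 1
      field_simp
    have e2 : X ^ (-(1 / 2) : ℝ) = δ ^ (1 / (2 * (A + 1))) := by
      rw [hX, ← Real.rpow_mul hδ.le]
      congr 1
      field_simp
    have e3 : δ ^ 2 / (c1 * X ^ (-A)) ^ 2 ≤ δ ^ (1 / (2 * (A + 1))) / c1 ^ 2 := by
      rw [e1, mul_pow, ← Real.rpow_natCast (δ ^ (A / (A + 1))) 2, ← Real.rpow_mul hδ.le, div_le_div_iff₀ (by positivity) (by positivity)]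
      have h2 : δ ^ 2 ≤ δ ^ (1 / (2 * (A + 1))) * δ ^ (A / (A + 1) * ((2 : ℕ) : ℝ)) := by
        rw [← Real.rpow_add hδ, ← Real.rpow_natCast δ 2]
        refine Real.rpow_le_rpow_of_exponent_ge hδ hδ1.le ?_
        push_cast
        rw [div_mul_eq_mul_div, div_add_div _ _ (by positivity) (by positivity), div_le_iff₀ (by positivity)]
        nlinarith
      calc δ ^ 2 * c1 ^ 2 ≤ (δ ^ (1 / (2 * (A + 1))) * δ ^ (A / (A + 1) * ((2 : ℕ) : ℝ))) * c1 ^ 2 :=
            mul_le_mul_of_nonneg_right h2 (by positivity)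
        _ = _ := by ring
    have h2 := htail X hX1
    rw [e2] at h2
    have h3 : (∑' y, if |τ y| ≤ X then x y else 0) = ∑' y, if |τ y| ≤ X then x y else 0 := rfl
    calc Am (fun u => G u ^ K) δ - LK x τ K ≤ _ := h1
      _ ≤ S ^ K * (δ ^ (1 / (2 * (A + 1))) / c1 ^ 2) + K * S ^ (K - 1) * (Ct * δ ^ (1 / (2 * (A + 1)))) :=
          add_le_add (mul_le_mul_of_nonneg_left e3 (by positivity)) (mul_le_mul_of_nonneg_left h2 (by positivity))
      _ = _ := by ring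

/-- tuples with nonzero sum are at least a power -/
def EffYA (τ : Y → ℝ) (K : ℕ) (A : ℝ) : Prop := ∃ c : ℝ, 0 < c ∧ ∀ X : ℝ, 1 ≤ X → ∀ f : Fin K → Y, (∀ i, |τ (f i)| ≤ X) →
  ∑ i, τ (f i) ≠ 0 → c * X ^ (-A) ≤ |∑ i, τ (f i)|

theorem rate_to_eff (h0 : ∀ y, 0 < x y) (hs : Summable x)
    (hrep : ∀ u : ℝ, HasSum (fun y => (x y : ℂ) * cexp (I * τ y * u)) (G u : ℂ)) (K : ℕ)
    {cw : ℝ} (hcw : 0 < cw) (hlow : ∀ y (X : ℝ), 1 ≤ X → |τ y| ≤ X → cw * X ^ (-2 : ℝ) ≤ x y) {c C : ℝ} (hc : 0 < c)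
    (h : ∀ δ : ℝ, 0 < δ → δ < 1 → Am (fun u => G u ^ K) δ - LK x τ K ≤ C * δ ^ c) : EffYA τ K (2 * K / c) := by
  have hC' : 0 < |C| + 1 := by positivity
  set c1 : ℝ := (cw ^ K / (2 * (|C| + 1))) ^ (1 / c) with hc1
  have hc10 : 0 < c1 := by positivity
  refine ⟨min c1 1, by positivity, fun X hX f hf hne => ?_⟩
  have hX0 : 0 < X := by linarith
  have hXA1 : X ^ (-(2 * K / c) : ℝ) ≤ 1 := Real.rpow_le_one_of_one_le_of_nonpos hX (by
    have : 0 ≤ 2 * (K : ℝ) / c := by positivity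
    linarith)
  have hXp : 0 < X ^ (-(2 * K / c) : ℝ) := by positivity
  set Θ := ∑ i, τ (f i) with hΘ
  rcases le_or_gt 1 |Θ| with h1 | h1
  · have h2 : min c1 1 * X ^ (-(2 * K / c) : ℝ) ≤ 1 * 1 :=
      mul_le_mul (min_le_right _ _) hXA1 (by positivity) zero_le_one
    linarith
  · have hΘ0 : 0 < |Θ| := abs_pos.2 hne
    have h2 := (rate_lower h0 hs hrep hΘ0 hne).trans (h |Θ| hΘ0 h1)
    have h3 : |Θ| ^ 2 / (|Θ| ^ 2 + Θ ^ 2) = 1 / 2 := by
      rw [sq_abs]
      have : Θ ^ 2 ≠ 0 := by positivity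
      field_simp
      norm_num
    rw [← hΘ, h3] at h2
    have h4 : (cw * X ^ (-2 : ℝ)) ^ K ≤ ∏ i, x (f i) := by
      have := Finset.prod_le_prod (s := Finset.univ) (f := fun _ : Fin K => cw * X ^ (-2 : ℝ)) (g := fun i => x (f i))
        (fun i _ => by positivity) (fun i _ => hlow (f i) X hX (hf i))
      simpa using this
    have h5 : C * |Θ| ^ c ≤ (|C| + 1) * |Θ| ^ c := by
      refine mul_le_mul_of_nonneg_right ?_ (by positivity)
      have := le_abs_self C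
      linarith
    have h6 : cw ^ K / (2 * (|C| + 1)) * X ^ (-(2 * K : ℝ)) ≤ |Θ| ^ c := by
      have e : (cw * X ^ (-2 : ℝ)) ^ K = cw ^ K * X ^ (-(2 * K : ℝ)) := by
        rw [mul_pow, ← Real.rpow_natCast (X ^ (-2 : ℝ)) K, ← Real.rpow_mul hX0.le]
        congr 2
        ring
      rw [e] at h4
      rw [div_mul_eq_mul_div, div_le_iff₀ (by positivity)]
      nlinarith
    have h7 := Real.rpow_le_rpow (by positivity) h6 (by positivity : 0 ≤ 1 / c)
    rw [← Real.rpow_mul (abs_nonneg _), mul_one_div_cancel hc.ne', Real.rpow_one, Real.mul_rpow (by positivity) (by positivity),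
      ← Real.rpow_mul hX0.le, ← hc1] at h7
    rw [show -(2 * (K : ℝ)) * (1 / c) = -(2 * K / c) by ring] at h7
    refine le_trans ?_ h7
    exact mul_le_mul_of_nonneg_right (min_le_left _ _) hXp.le

theorem eff_to_rate (h0 : ∀ y, 0 < x y) (hs : Summable x)
    (hrep : ∀ u : ℝ, HasSum (fun y => (x y : ℂ) * cexp (I * τ y * u)) (G u : ℂ)) (K : ℕ)
    {Ct : ℝ} (htail : ∀ X : ℝ, 1 ≤ X → ((∑' y, x y) - ∑' y, open Classical in if |τ y| ≤ X then x y else 0) ≤ Ct * X ^ (-(1 / 2) : ℝ))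
    {A : ℝ} (hA : 0 ≤ A) (h : EffYA τ K A) :
    ∃ C : ℝ, ∀ δ : ℝ, 0 < δ → δ < 1 → Am (fun u => G u ^ K) δ - LK x τ K ≤ C * δ ^ (1 / (2 * (A + 1))) := by
  classical
  obtain ⟨c1, hc1, h⟩ := h
  set S := ∑' y, x y with hS
  have hS0 : 0 ≤ S := tsum_nonneg fun y => (h0 y).le
  refine ⟨S ^ K / c1 ^ 2 + K * S ^ (K - 1) * Ct, fun δ hδ hδ1 => ?_⟩
  set X := δ ^ (-(1 / (A + 1))) with hX
  have hX1 : 1 ≤ X := Real.one_le_rpow_of_pos_of_le_one_of_nonpos hδ hδ1.le (by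
    have : 0 < 1 / (A + 1) := by positivity
    linarith)
  have hX0 : 0 < X := by linarith
  have h1 := rate_upper h0 hs hrep (K := K) hδ (g := c1 * X ^ (-A)) (X := X) (by positivity) (fun f hf hne => h X hX1 f hf hne)
  have e1 : X ^ (-A) = δ ^ (A / (A + 1)) := by
    rw [hX, ← Real.rpow_mul hδ.le]
    congr 1
    field_simp
  have e2 : X ^ (-(1 / 2) : ℝ) = δ ^ (1 / (2 * (A + 1))) := by
    rw [hX, ← Real.rpow_mul hδ.le]
    congr 1
    field_simp
  have e3 : δ ^ 2 / (c1 * X ^ (-A)) ^ 2 ≤ δ ^ (1 / (2 * (A + 1))) / c1 ^ 2 := by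
    rw [e1, mul_pow, ← Real.rpow_natCast (δ ^ (A / (A + 1))) 2, ← Real.rpow_mul hδ.le, div_le_div_iff₀ (by positivity) (by positivity)]
    have h2 : δ ^ 2 ≤ δ ^ (1 / (2 * (A + 1))) * δ ^ (A / (A + 1) * ((2 : ℕ) : ℝ)) := by
      rw [← Real.rpow_add hδ, ← Real.rpow_natCast δ 2]
      refine Real.rpow_le_rpow_of_exponent_ge hδ hδ1.le ?_
      push_cast
      rw [div_mul_eq_mul_div, div_add_div _ _ (by positivity) (by positivity), div_le_iff₀ (by positivity)]
      nlinarith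
    calc δ ^ 2 * c1 ^ 2 ≤ (δ ^ (1 / (2 * (A + 1))) * δ ^ (A / (A + 1) * ((2 : ℕ) : ℝ))) * c1 ^ 2 :=
          mul_le_mul_of_nonneg_right h2 (by positivity)
      _ = _ := by ring
  have h2 := htail X hX1
  rw [e2] at h2
  calc Am (fun u => G u ^ K) δ - LK x τ K ≤ _ := h1
    _ ≤ S ^ K * (δ ^ (1 / (2 * (A + 1))) / c1 ^ 2) + K * S ^ (K - 1) * (Ct * δ ^ (1 / (2 * (A + 1)))) :=
        add_le_add (mul_le_mul_of_nonneg_left e3 (by positivity)) (mul_le_mul_of_nonneg_left h2 (by positivity))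
    _ = _ := by ring

end

end Run7.h278.LG
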