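import Pool.Agent.Run7.h278.LG.RateG
import Pool.Agent.Run7.h278.LG.FamCor
import Pool.Agent.Run7.h278.LG.DirPow

set_option autoImplicit false

/-!
# Rates of convergence and effective linear independence for families of L-functions
-/

namespace Run7.h278.LG

open Complex Filter Topology MeasureTheory Set Run7.h278.LM Run7.h278.WL
open scoped ENNReal

/-- converges with rate `δ^c` to `L` -/
def RateL (V : ℝ → ℝ≥0∞) (L c : ℝ) : Prop := ∃ C : ℝ, ∀ δ : ℝ, 0 < δ → δ < 1 → V δ < ⊤ ∧ |(V δ).toReal - L| ≤ C * δ ^ c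

section

variable {T : Set ℝ} {a : ℝ → ℝ} {k : ℝ} {w : T → ℝ} {M B Ct cw : ℝ}

/-- the abstract theorem -/
theorem Rt.main (hT : ∀ t ∈ T, 0 < t) (r : Rt a k w (fun t : T => (t : ℝ)) M B Ct cw) :
    (∀ K : ℕ, (∃ L c : ℝ, 0 < c ∧ RateL (PM a k K) L c) ↔ ∃ A : ℝ, 0 < A ∧ EffTA T (2 * K) A) ∧
    (∀ (K : ℕ) (c : ℝ), 0 < c → c ≤ 1 → (∃ L : ℝ, RateL (PM a k K) L c) → EffTA T (2 * K) (4 * K / c)) ∧
    (∀ (K : ℕ) (A : ℝ), 0 ≤ A → EffTA T (2 * K) A → ∃ L : ℝ, RateL (PM a k K) L (1 / (2 * (A + 1)))) ∧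
    ((∀ K : ℕ, 1 ≤ K → ∃ c : ℝ, 0 < c ∧ RateL (PM a k K) ((2 * K).factorial * ∑' n : Dg T K, Tr w n.1 ^ 2) c) ↔
      (LinearIndependent ℚ fun t : T => (t : ℝ)) ∧ ∀ p : ℕ, ∃ A : ℝ, 0 < A ∧ EffTA T p A) := by
  have q2 : ∀ (K : ℕ) (c : ℝ), 0 < c → c ≤ 1 → (∃ L : ℝ, RateL (PM a k K) L c) → EffTA T (2 * K) (4 * K / c) := by
    rintro K c hc hc1 ⟨L, C, h⟩
    have h1 := (EffYA_EffTA hT _ _).1 ((r.exp K).1 c hc hc1 ⟨L, C, h⟩)
    have e : (2 * (2 * K : ℕ) / c : ℝ) = 4 * K / c := by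
      push_cast
      ring
    rwa [e] at h1
  have q3 : ∀ (K : ℕ) (A : ℝ), 0 ≤ A → EffTA T (2 * K) A → ∃ L : ℝ, RateL (PM a k K) L (1 / (2 * (A + 1))) := by
    intro K A hA h
    obtain ⟨L, C, h⟩ := (r.exp K).2 A hA ((EffYA_EffTA hT _ _).2 h)
    exact ⟨L, C, h⟩
  have hmono : ∀ (p : ℕ) (A A' : ℝ), A ≤ A' → EffTA T p A → EffTA T p A' := by
    rintro p A A' hA ⟨c, hc, h⟩
    refine ⟨c, hc, fun X hX f hf hne => le_trans ?_ (h X hX f hf hne)⟩
    exact mul_le_mul_of_nonneg_left (Real.rpow_le_rpow_of_exponent_le hX (by linarith)) hc.le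
  have q1 : ∀ K : ℕ, (∃ L c : ℝ, 0 < c ∧ RateL (PM a k K) L c) ↔ ∃ A : ℝ, 0 < A ∧ EffTA T (2 * K) A := by
    intro K
    constructor
    · rintro ⟨L, c, hc, C, h⟩
      have hc' : 0 < min c 1 := by positivity
      have h1 := q2 K (min c 1) hc' (min_le_right _ _) ⟨L, |C|, fun δ h0 h1 => ⟨(h δ h0 h1).1, (h δ h0 h1).2.trans (by
        refine mul_le_mul (le_abs_self C) ?_ (by positivity) (abs_nonneg _)
        exact Real.rpow_le_rpow_of_exponent_ge h0 h1.le (min_le_left _ _))⟩⟩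
      exact ⟨4 * K / min c 1 + 1, by positivity, hmono _ _ _ (by linarith) h1⟩
    · rintro ⟨A, hA, h⟩
      obtain ⟨L, h1⟩ := q3 K A hA.le h
      exact ⟨L, _, by positivity, h1⟩
  refine ⟨q1, q2, q3, ?_⟩
  have hall : (∀ K : ℕ, 1 ≤ K → ∃ A : ℝ, 0 < A ∧ EffTA T (2 * K) A) ↔ ∀ p : ℕ, ∃ A : ℝ, 0 < A ∧ EffTA T p A := by
    simp_rw [← EffT_iff]
    exact EffT_all
  constructor
  · intro h
    have h3 := hall.1 fun K hK => by
      obtain ⟨c, hc, h⟩ := h K hK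
      exact (q1 K).1 ⟨_, c, hc, h⟩
    refine ⟨(all_rel _).1 fun K hK => ?_, h3⟩
    obtain ⟨E, e1, e2⟩ := r.lim K
    obtain ⟨c, hc, C, h⟩ := h K hK
    have h4 := rate_lim hc fun δ h0 h1 => (h δ h0 h1).2
    exact e2.1 (tendsto_nhds_unique e1 h4)
  · rintro ⟨hLI, hE⟩ K hK
    obtain ⟨L, c, hc, C, h⟩ := (q1 K).2 (hE (2 * K))
    obtain ⟨E, e1, e2⟩ := r.lim K
    have h4 := rate_lim hc fun δ h0 h1 => (h δ h0 h1).2
    have h5 : L = (2 * K).factorial * ∑' n : Dg T K, Tr w n.1 ^ 2 := by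
      rw [← tendsto_nhds_unique e1 h4]
      exact e2.2 ((all_rel _).2 hLI K hK)
    rw [h5] at h
    exact ⟨c, hc, C, h⟩

end

/-! ### The tail of the sum over the zeros -/

theorem prod_exp {R : ℝ} (hR : 0 < R) (m : Multiset ℂ) (hm : ∀ u ∈ m, ∃ y : ℝ, y < 0 ∧ u = y) :
    ‖(m.map fun u => 1 - (R : ℂ) / u).prod‖ = Real.exp ((m.map fun u => Real.log (1 + R / ‖u‖)).sum) := by
  induction m using Multiset.induction_on with
  | empty => simp
  | cons u m ih =>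
    rw [Multiset.map_cons, Multiset.prod_cons, Multiset.map_cons, Multiset.sum_cons, norm_mul, Real.exp_add,
      ih fun v hv => hm v (Multiset.mem_cons_of_mem hv)]
    congr 1
    obtain ⟨y, hy, rfl⟩ := hm u (Multiset.mem_cons_self _ _)
    rw [Real.exp_log (by positivity), Complex.norm_real, Real.norm_eq_abs, abs_of_neg hy]
    have h1 : (1 - (R : ℂ) / (y : ℂ)) = ((1 + R / -y : ℝ) : ℂ) := by
      push_cast
      ring
    rw [h1, Complex.norm_real, Real.norm_eq_abs, abs_of_pos]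
    have : 0 < -y := by linarith
    positivity

theorem tail_fin {f : ℂ → ℂ} (hf : Differentiable ℂ f) (h0 : f 0 ≠ 0) {Z : ℕ → Multiset ℂ} (hZ : Zeros f Z) (hRH : RHf f) {K : ℝ}
    (hgr : ∀ x, ‖f x‖ ≤ Real.exp (K * (1 + ‖x‖) ^ (3 / 4 : ℝ))) {R : ℝ} (hR : 1 ≤ R) (S : Finset ℂ) (hS : ∀ v ∈ S, f v = 0 ∧ R < ‖v‖) :
    ∑ v ∈ S, (mu f v : ℝ) / (2 * ‖v‖) ≤ (2 * |K| + |Real.log ‖f 0‖|) * R ^ (-(1 / 4) : ℝ) := by
  classical
  have hR0 : 0 < R := by linarith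
  set g : ℂ → ℝ := fun u => Real.log (1 + R / ‖u‖) with hg
  have hg0 : ∀ u, 0 ≤ g u := fun u => Real.log_nonneg (by
    have : 0 ≤ R / ‖u‖ := by positivity
    linarith)
  have hmem : ∀ N, ∀ u ∈ Z N, ∃ y : ℝ, y < 0 ∧ u = y := by
    intro N u hu
    have h1 := hZ.cnt N u (hZ.mem N u hu).1
    have h2 : mu f u ≠ 0 := by
      rw [← h1]
      exact (Multiset.count_pos.2 hu).ne'
    obtain ⟨y, hy, h3⟩ := hRH u ((mu_pos hf h0 u).1 h2)
    exact ⟨y, by linarith, h3⟩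
  have hlim : Tendsto (fun N => ‖f 0‖ * Real.exp (((Z N).map g).sum)) atTop (𝓝 ‖f R‖) := by
    have h1 := ((tendstoLocallyUniformlyOn_univ.2 hZ.lim).tendsto_at (mem_univ (R : ℂ))).norm
    refine h1.congr fun N => ?_
    rw [norm_mul, prod_exp hR0 _ (hmem N)]
  set σ := ∑ v ∈ S, (mu f v : ℝ) * g v with hσ
  have hf0 : 0 < ‖f 0‖ := norm_pos_iff.2 h0
  have hle : ‖f 0‖ * Real.exp σ ≤ ‖f R‖ := by
    refine ge_of_tendsto hlim ?_
    obtain ⟨N0, hN0⟩ := exists_nat_ge (∑ v ∈ S, ‖v‖)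
    filter_upwards [eventually_ge_atTop N0] with N hN
    refine mul_le_mul_of_nonneg_left (Real.exp_le_exp.2 ?_) hf0.le
    rw [Finset.sum_multiset_map_count]
    have hvN : ∀ v ∈ S, ‖v‖ ≤ (N : ℝ) + 1 := by
      intro v hv
      have h1 := Finset.single_le_sum (f := fun v : ℂ => ‖v‖) (fun i _ => norm_nonneg i) hv
      have h2 : (N0 : ℝ) ≤ N := by exact_mod_cast hN
      linarith
    have hsub : S ⊆ (Z N).toFinset := by
      intro v hv
      rw [Multiset.mem_toFinset, ← Multiset.count_pos, hZ.cnt N v (hvN v hv)]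
      exact Nat.pos_of_ne_zero ((mu_pos hf h0 v).2 (hS v hv).1)
    have h1 : σ = ∑ v ∈ S, (Z N).count v • g v := by
      rw [hσ]
      refine Finset.sum_congr rfl fun v hv => ?_
      rw [hZ.cnt N v (hvN v hv), nsmul_eq_mul]
    rw [h1]
    exact Finset.sum_le_sum_of_subset_of_nonneg hsub fun v _ _ => nsmul_nonneg (hg0 v) _
  have h1 : σ ≤ K * (1 + R) ^ (3 / 4 : ℝ) - Real.log ‖f 0‖ := by
    have h2 := hle.trans (hgr R)
    rw [Complex.norm_real, Real.norm_of_nonneg hR0.le] at h2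
    have h3 := Real.log_le_log (by positivity) h2
    rw [Real.log_mul hf0.ne' (Real.exp_pos _).ne', Real.log_exp, Real.log_exp] at h3
    linarith
  have hRp : 0 < R ^ (3 / 4 : ℝ) := by positivity
  have h2 : σ ≤ (2 * |K| + |Real.log ‖f 0‖|) * R ^ (3 / 4 : ℝ) := by
    have a1 : (1 + R) ^ (3 / 4 : ℝ) ≤ 2 * R ^ (3 / 4 : ℝ) := by
      calc (1 + R) ^ (3 / 4 : ℝ) ≤ (2 * R) ^ (3 / 4 : ℝ) := Real.rpow_le_rpow (by positivity) (by linarith) (by norm_num)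
        _ = 2 ^ (3 / 4 : ℝ) * R ^ (3 / 4 : ℝ) := Real.mul_rpow (by norm_num) hR0.le
        _ ≤ 2 * R ^ (3 / 4 : ℝ) := by
          refine mul_le_mul_of_nonneg_right ?_ hRp.le
          calc (2 : ℝ) ^ (3 / 4 : ℝ) ≤ 2 ^ (1 : ℝ) := Real.rpow_le_rpow_of_exponent_le (by norm_num) (by norm_num)
            _ = 2 := Real.rpow_one 2
    have a2 : K * (1 + R) ^ (3 / 4 : ℝ) ≤ |K| * (2 * R ^ (3 / 4 : ℝ)) :=
      (mul_le_mul_of_nonneg_right (le_abs_self K) (by positivity)).trans (mul_le_mul_of_nonneg_left a1 (abs_nonneg _))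
    have a3 : -Real.log ‖f 0‖ ≤ |Real.log ‖f 0‖| * R ^ (3 / 4 : ℝ) := by
      have b1 : 1 ≤ R ^ (3 / 4 : ℝ) := Real.one_le_rpow hR (by norm_num)
      have b2 := neg_le_abs (Real.log ‖f 0‖)
      nlinarith [abs_nonneg (Real.log ‖f 0‖)]
    linarith
  have h3 : R * ∑ v ∈ S, (mu f v : ℝ) / (2 * ‖v‖) ≤ σ := by
    rw [Finset.mul_sum, hσ]
    refine Finset.sum_le_sum fun v hv => ?_
    have hv0 : 0 < ‖v‖ := hR0.trans (hS v hv).2
    have b1 : 1 - (1 + R / ‖v‖)⁻¹ ≤ g v := Real.one_sub_inv_le_log_of_pos (by positivity)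
    have b2 : R / (2 * ‖v‖) ≤ 1 - (1 + R / ‖v‖)⁻¹ := by
      have b3 : 1 - (1 + R / ‖v‖)⁻¹ = R / (‖v‖ + R) := by
        field_simp
        ring
      rw [b3]
      exact div_le_div_of_nonneg_left hR0.le (by positivity) (by linarith [(hS v hv).2])
    have b4 := mul_le_mul_of_nonneg_left (b2.trans b1) (Nat.cast_nonneg (α := ℝ) (mu f v))
    refine le_trans (le_of_eq ?_) b4
    ring
  have h4 : ∑ v ∈ S, (mu f v : ℝ) / (2 * ‖v‖) ≤ (2 * |K| + |Real.log ‖f 0‖|) * R ^ (3 / 4 : ℝ) / R := by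
    rw [le_div_iff₀ hR0]
    linarith
  refine h4.trans (le_of_eq ?_)
  rw [mul_div_assoc]
  congr 1
  conv_lhs => rw [← Real.rpow_one R]
  rw [← Real.rpow_mul hR0.le, ← Real.rpow_sub hR0]
  norm_num

section

variable {J : Type} [Fintype J] {l : J → List ℝ} {r : J → ℕ} {N : J → ℝ} {b c : J → ℕ → ℂ} {X : J → ℂ → ℂ} {d : J → ℕ}
variable (F : Family l r N b c X d)

include F

theorem Family.tail (hd : ∀ j, 1 ≤ d j) (hG : GRHf X) : ∃ Ct : ℝ, ∀ X0 : ℝ, 1 ≤ X0 →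
    (∑' t : TS X, open Classical in if (t : ℝ) ≤ X0 then 0 else MO X d t / (1 / 4 + (t : ℝ) ^ 2)) ≤ Ct * X0 ^ (-(1 / 2) : ℝ) := by
  classical
  obtain ⟨w, D⟩ := F.rd
  have hDf := fL_data D
  have hRH := (F.rh_iff hd).2 hG
  obtain ⟨K, hK⟩ := fL_gr D
  obtain ⟨Z, hZ⟩ := hDf.zer
  set f := fL (PL X d) with hf
  refine ⟨2 * |K| + |Real.log ‖f 0‖|, fun X0 hX0 => ?_⟩
  have hX00 : 0 < X0 := by linarith
  have hpos : ∀ t : TS X, 0 < MO X d t / (1 / 4 + (t : ℝ) ^ 2) := fun t => F.wT_pos hd t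
  have hsum : Summable fun t : TS X => if (t : ℝ) ≤ X0 then 0 else MO X d t / (1 / 4 + (t : ℝ) ^ 2) := by
    refine Summable.of_nonneg_of_le (fun t => ?_) (fun t => ?_) (F.wT_sum hd hG)
    · split_ifs
      · exact le_refl 0
      · exact (hpos t).le
    · split_ifs
      · exact (hpos t).le
      · exact le_refl _
  refine hsum.tsum_le_of_sum_le fun S => ?_
  set φ : TS X → ℂ := fun t => -(1 / 4 + ((t : ℝ) : ℂ) ^ 2) with hφ
  have hφr : ∀ t : TS X, φ t = ((-(1 / 4 + (t : ℝ) ^ 2) : ℝ) : ℂ) := fun t => by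
    rw [hφ]
    push_cast
    ring
  have hnorm : ∀ t : TS X, ‖φ t‖ = 1 / 4 + (t : ℝ) ^ 2 := fun t => by
    rw [hφr, Complex.norm_real, Real.norm_eq_abs, abs_neg, abs_of_pos (by positivity)]
  have hinj : Set.InjOn φ (S.filter fun t : TS X => ¬(t : ℝ) ≤ X0) := by
    intro t _ t' _ h
    have h1 : ‖φ t‖ = ‖φ t'‖ := by rw [h]
    rw [hnorm, hnorm] at h1
    have h2 : 0 < (t : ℝ) := t.2.1
    have h3 : 0 < (t' : ℝ) := t'.2.1
    have h4 : (t : ℝ) ^ 2 = (t' : ℝ) ^ 2 := by linarith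
    exact Subtype.ext ((sq_eq_sq₀ h2.le h3.le).1 h4)
  have hmu : ∀ t : TS X, (mu f (φ t) : ℝ) = 2 * MO X d t := fun t => F.mu_f t.2.1
  have e1 : (∑ t ∈ S, if (t : ℝ) ≤ X0 then 0 else MO X d t / (1 / 4 + (t : ℝ) ^ 2)) =
      ∑ v ∈ (S.filter fun t : TS X => ¬(t : ℝ) ≤ X0).image φ, (mu f v : ℝ) / (2 * ‖v‖) := by
    rw [Finset.sum_image hinj, Finset.sum_filter]
    refine Finset.sum_congr rfl fun t _ => ?_
    by_cases h : (t : ℝ) ≤ X0
    · rw [if_pos h, if_neg (not_not.2 h)]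
    · rw [if_neg h, if_pos h, hmu, hnorm]
      have : 0 < 1 / 4 + (t : ℝ) ^ 2 := by positivity
      field_simp
  rw [e1]
  have h1 := tail_fin hDf.diff hDf.ne hZ hRH hK (R := X0 ^ 2) (by nlinarith) ((S.filter fun t : TS X => ¬(t : ℝ) ≤ X0).image φ) (by
    intro v hv
    rw [Finset.mem_image] at hv
    obtain ⟨t, ht, rfl⟩ := hv
    rw [Finset.mem_filter] at ht
    have h2 : X0 < t := not_le.1 ht.2
    refine ⟨?_, ?_⟩
    · rw [← mu_pos hDf.diff hDf.ne]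
      intro h3
      have h4 := hmu t
      rw [h3] at h4
      have h5 := (F.MO_pos hd).2 t.2.2
      simp at h4
      linarith
    · rw [hnorm]
      nlinarith)
  refine h1.trans (le_of_eq ?_)
  congr 1
  rw [← Real.rpow_natCast X0 2, ← Real.rpow_mul hX00.le]
  norm_num

/-- the family satisfies the hypotheses of the abstract theorem -/
theorem Family.rt (hd : ∀ j, 1 ≤ d j) {lam' : ℕ → ℝ} {d' : ℝ} (hl' : ∀ n, |lam' n| ≤ d' * ArithmeticFunction.vonMangoldt n)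
    (hC : Cl (lamF c d) lam') : ∃ C : ℝ, Tendsto (fun σ : ℝ => mF r d / (σ - 1) - RS lam' σ) (𝓝[>] 1) (𝓝 (C - mF r d)) ∧
      (GRHf X → ∃ M B Ct cw : ℝ, Rt (aL lam' (mF r d) C) (4 * rO X d) (fun t : TS X => MO X d t / (1 / 4 + (t : ℝ) ^ 2))
        (fun t : TS X => (t : ℝ)) M B Ct cw) ∧
      (¬GRHf X → ∀ K : ℕ, 1 ≤ K → ∀ k : ℝ, ∃ δ₀ : ℝ, 0 < δ₀ ∧ ∀ δ : ℝ, 0 < δ → δ < δ₀ → PM (aL lam' (mF r d) C) k K δ = ⊤) := by
  classical
  obtain ⟨w, D⟩ := F.rd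
  have hDf := fL_data D
  have hl := hDf.lam_le
  set C0 := (cL (fL (PL X d)) (mF r d) (mF r d - zF l d) (QF N d) (μF l d)).re with hC0
  set K' := ∑' n : ℕ, |lamF c d n - lam' n| / (n : ℝ) ^ (1 / 4 : ℝ) with hK'
  have hcl : ∀ u : ℝ, |aL lam' (mF r d) (C0 + dc (lamF c d) lam') u - aL (lamF c d) (mF r d) C0 u| ≤ K' * Real.exp (-u / 4) :=
    fun u => cmp hl hl' hC _ _
  have hK0 : 0 ≤ K' := tsum_nonneg fun n => by positivity
  have he1 : ∀ u : ℝ, 0 < u → Real.exp (-u / 4) ≤ 1 := fun u hu => by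
    rw [Real.exp_le_one_iff]
    linarith
  refine ⟨C0 + dc (lamF c d) lam', ?_, ?_, ?_⟩
  · have h1 := (cL_lim_real hDf).add (dc_lim hl hl' hC)
    have e : (C0 - mF r d) + dc (lamF c d) lam' = C0 + dc (lamF c d) lam' - mF r d := by ring
    rw [← hC0, e] at h1
    refine h1.congr fun σ => ?_
    ring
  · intro hG
    have hRH := (F.rh_iff hd).2 hG
    obtain ⟨K, hK, hn0⟩ := near hDf hRH
    obtain ⟨B0, hB0, hF0, ha0⟩ := aL_bdd hDf hRH
    rw [← hC0] at hn0 ha0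
    set bb : ℝ → ℝ := aL (lamF c d) (mF r d) C0 with hbb
    set aa : ℝ → ℝ := aL lam' (mF r d) (C0 + dc (lamF c d) lam') with haa
    obtain ⟨Ct, hCt⟩ := F.tail hd hG
    have hF : ∀ u, Ff (fL (PL X d)) u = 4 * rO X d + FI (fun t : TS X => MO X d t / (1 / 4 + (t : ℝ) ^ 2)) (fun t : TS X => (t : ℝ)) u := by
      intro u
      have h4 := F.Ff_T hd hG 1 u
      rw [one_mul] at h4
      rw [h4]
      simp_rw [one_mul, mul_one]
      rfl
    have hr0 : 0 ≤ rO X d := Finset.sum_nonneg fun j _ => by positivity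
    refine ⟨4 * K + K', B0 + K' + 4 * rO X d, Ct, 4 / 5, aL_cont hl' _ _, fun t => F.wT_pos hd t, F.wT_sum hd hG, fun t => t.2.1, by positivity, ?_, ?_, ?_, by norm_num, ?_, hCt⟩
    · intro u hu
      have h1 := hcl u
      have h2 := ha0 u hu
      have h3 := he1 u hu
      have h4 : |aa u| ≤ |aa u - bb u| + |bb u| := by
        calc |aa u| = |(aa u - bb u) + bb u| := by rw [sub_add_cancel]
          _ ≤ _ := abs_add_le _ _
      have h5 : |aa u - 4 * rO X d| ≤ |aa u| + |4 * rO X d| := abs_sub _ _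
      rw [abs_of_nonneg (by positivity : 0 ≤ 4 * rO X d)] at h5
      nlinarith
    · intro u
      have h1 := hF0 u
      rw [hF] at h1
      have h2 : |FI (fun t : TS X => MO X d t / (1 / 4 + (t : ℝ) ^ 2)) (fun t : TS X => (t : ℝ)) u| ≤
          |4 * rO X d + FI (fun t : TS X => MO X d t / (1 / 4 + (t : ℝ) ^ 2)) (fun t : TS X => (t : ℝ)) u| + |4 * rO X d| := by
        have := abs_sub (4 * rO X d + FI (fun t : TS X => MO X d t / (1 / 4 + (t : ℝ) ^ 2)) (fun t : TS X => (t : ℝ)) u) (4 * rO X d)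
        rwa [add_sub_cancel_left] at this
      rw [abs_of_nonneg (by positivity : 0 ≤ 4 * rO X d)] at h2
      linarith
    · intro u hu
      have h1 : aa u - 4 * rO X d - FI (fun t : TS X => MO X d t / (1 / 4 + (t : ℝ) ^ 2)) (fun t : TS X => (t : ℝ)) u =
          (bb u - Ff (fL (PL X d)) u) + (aa u - bb u) := by
        rw [hF]
        ring
      rw [h1]
      refine (abs_add_le _ _).trans ?_
      have h2 := hn0 u hu
      have h3 := hcl u
      have h4 : (1 + u) * Real.exp (-u / 2) ≤ 4 * Real.exp (-u / 4) := by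
        have h5 : u / 4 + 1 ≤ Real.exp (u / 4) := Real.add_one_le_exp _
        have h6 : Real.exp (-u / 2) = Real.exp (-u / 4) * Real.exp (-u / 4) := by
          rw [← Real.exp_add]
          congr 1
          ring
        have h7 : Real.exp (u / 4) * Real.exp (-u / 4) = 1 := by
          rw [← Real.exp_add]
          have : u / 4 + -u / 4 = 0 := by ring
          rw [this, Real.exp_zero]
        rw [h6]
        have h8 : (1 + u) * Real.exp (-u / 4) ≤ 4 := by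
          have : (1 + u) ≤ 4 * Real.exp (u / 4) := by linarith
          have h9 := mul_le_mul_of_nonneg_right this (Real.exp_pos (-u / 4)).le
          nlinarith
        nlinarith [Real.exp_pos (-u / 4)]
      have h5 := mul_le_mul_of_nonneg_left h4 hK
      nlinarith
    · intro t X0 hX0 ht
      have hX00 : 0 < X0 := by linarith
      have ht0 : 0 < (t : ℝ) := t.2.1
      have h1 : (1 : ℝ) ≤ MO X d t := by
        obtain ⟨j, hj⟩ := t.2.2
        unfold MO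
        have h2 : 1 ≤ mu (X j) (1 / 2 + (t : ℝ) * I) := Nat.one_le_iff_ne_zero.2 ((F.mu_ne _ _).2 hj)
        have h3 := Finset.single_le_sum (f := fun j => (d j : ℝ) * mu (X j) (1 / 2 + (t : ℝ) * I)) (fun i _ => by positivity) (Finset.mem_univ j)
        have h4 : (1 : ℝ) ≤ d j := by exact_mod_cast hd j
        have h5 : (1 : ℝ) ≤ mu (X j) (1 / 2 + (t : ℝ) * I) := by exact_mod_cast h2
        nlinarith
      rw [show (-2 : ℝ) = -((2 : ℕ) : ℝ) by norm_num, Real.rpow_neg hX00.le, Real.rpow_natCast]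
      rw [← div_eq_mul_inv, div_le_div_iff₀ (by positivity) (by positivity)]
      have h3 : (t : ℝ) ^ 2 ≤ X0 ^ 2 := by gcongr
      have h4 : 1 ≤ X0 ^ 2 := one_le_pow₀ hX0
      nlinarith
  · intro hG K hK k
    have hRH : ¬RHf (fL (PL X d)) := fun h => hG ((F.rh_iff hd).1 h)
    obtain ⟨ρ, h1, h2⟩ := off_zero hRH
    have q2 : ∀ u, 0 < u → |aL lam' (mF r d) (C0 + dc (lamF c d) lam') u - aL (lamF c d) (mF r d) C0 u| ≤ K' := fun u hu => by
      have h3 := hcl u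
      have h4 := he1 u hu
      nlinarith
    refine ⟨2 * (ρ.re - 1 / 2), by linarith, fun δ hδ hlt => ?_⟩
    exact pow_top (aL_cont hl' _ _) (aL_cont hl _ _) q2 hδ (fun hi => no_zero hDf hδ hi (by linarith : 1 / 2 + δ / 2 < ρ.re) h2) k hK

/-- **Rates for families.** -/
theorem Family.rate (hd : ∀ j, 1 ≤ d j) {lam' : ℕ → ℝ} {d' : ℝ} (hl' : ∀ n, |lam' n| ≤ d' * ArithmeticFunction.vonMangoldt n)
    (hC : Cl (lamF c d) lam') : ∃ C : ℝ, Tendsto (fun σ : ℝ => mF r d / (σ - 1) - RS lam' σ) (𝓝[>] 1) (𝓝 (C - mF r d)) ∧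
      (∀ K : ℕ, 1 ≤ K →
        (GRHf X → Summable fun n : Dg (TS X) K => Tr (fun t : TS X => MO X d t / (1 / 4 + (t : ℝ) ^ 2)) n.1 ^ 2) ∧
        ((∃ L c : ℝ, 0 < c ∧ RateL (PM (aL lam' (mF r d) C) (4 * rO X d) K) L c) ↔ GRHf X ∧ ∃ A : ℝ, 0 < A ∧ EffTA (TS X) (2 * K) A) ∧
        (∀ c : ℝ, 0 < c → c ≤ 1 → (∃ L : ℝ, RateL (PM (aL lam' (mF r d) C) (4 * rO X d) K) L c) → GRHf X ∧ EffTA (TS X) (2 * K) (4 * K / c)) ∧
        (∀ A : ℝ, 0 ≤ A → GRHf X → EffTA (TS X) (2 * K) A → ∃ L : ℝ, RateL (PM (aL lam' (mF r d) C) (4 * rO X d) K) L (1 / (2 * (A + 1))))) ∧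
      ((∀ K : ℕ, 1 ≤ K → ∃ c : ℝ, 0 < c ∧ RateL (PM (aL lam' (mF r d) C) (4 * rO X d) K)
          ((2 * K).factorial * ∑' n : Dg (TS X) K, Tr (fun t : TS X => MO X d t / (1 / 4 + (t : ℝ) ^ 2)) n.1 ^ 2) c) ↔
        GRHf X ∧ (LinearIndependent ℚ fun t : TS X => (t : ℝ)) ∧ ∀ p : ℕ, ∃ A : ℝ, 0 < A ∧ EffTA (TS X) p A) := by
  obtain ⟨C, h1, h2, h3⟩ := F.rt hd hl' hC
  refine ⟨C, h1, ?_⟩
  by_cases hG : GRHf X
  · obtain ⟨M, B, Ct, cw, r⟩ := h2 hG
    obtain ⟨q1, q2, q3, q4⟩ := r.main (fun t ht => ht.1)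
    refine ⟨fun K hK => ⟨fun _ => sq_summable' r.w1 r.s1 K, ?_, fun c hc hc1 h => ⟨hG, q2 K c hc hc1 h⟩, fun A hA _ h => q3 K A hA h⟩, ?_⟩
    · rw [q1 K]
      exact ⟨fun h => ⟨hG, h⟩, fun h => h.2⟩
    · rw [q4]
      exact ⟨fun h => ⟨hG, h⟩, fun h => h.2⟩
  · have hno : ∀ K : ℕ, 1 ≤ K → ∀ L c : ℝ, ¬RateL (PM (aL lam' (mF r d) C) (4 * rO X d) K) L c := by
      rintro K hK L c ⟨C', h⟩
      obtain ⟨δ₀, h0, h4⟩ := h3 hG K hK (4 * rO X d)
      have hδ0 : 0 < min (δ₀ / 2) (1 / 2) := by positivity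
      have hδ1 : min (δ₀ / 2) (1 / 2) < 1 := (min_le_right _ _).trans_lt (by norm_num)
      have hδ2 : min (δ₀ / 2) (1 / 2) < δ₀ := (min_le_left _ _).trans_lt (by linarith)
      have h5 := (h _ hδ0 hδ1).1
      rw [h4 _ hδ0 hδ2] at h5
      exact absurd h5 (lt_irrefl _)
    refine ⟨fun K hK => ⟨fun h => absurd h hG, ?_, ?_, fun A _ h => absurd h hG⟩, ?_⟩
    · constructor
      · rintro ⟨L, c, -, h⟩
        exact absurd h (hno K hK L c)
      · exact fun h => absurd h.1 hG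
    · rintro c - - ⟨L, h⟩
      exact absurd h (hno K hK L c)
    · constructor
      · intro h
        obtain ⟨c, -, h⟩ := h 1 le_rfl
        exact absurd h (hno 1 le_rfl _ c)
      · exact fun h => absurd h.1 hG

end

end Run7.h278.LG
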