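import Pool.Agent.Run7.h278.LG.RateLI

set_option autoImplicit false

/-!
# Rates of convergence and effective linear independence, general form
-/

namespace Run7.h278.LG

open Filter Topology MeasureTheory Set Run7.h278.LM Run7.h278.WL
open scoped ENNReal

/-- means of close functions -/
theorem Am_close4 {f g : ℝ → ℝ} (hf : Continuous f) (hg : Continuous g) {B M : ℝ} (hfB : ∀ u, 0 < u → |f u| ≤ B) (hgB : ∀ u, 0 < u → |g u| ≤ B)
    (h : ∀ u, 0 < u → |f u - g u| ≤ M * Real.exp (-u / 4)) {δ : ℝ} (hδ : 0 < δ) : |Am f δ - Am g δ| ≤ 4 * |M| * δ := by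
  have h1 := Am_int hf.continuousOn hfB hδ
  have h2 := Am_int hg.continuousOn hgB hδ
  unfold Am
  rw [← mul_sub, ← integral_sub h1 h2, abs_mul, abs_of_pos hδ]
  have h3 : ‖∫ u in Ioi (0 : ℝ), (Real.exp (-δ * u) * f u - Real.exp (-δ * u) * g u)‖ ≤ ∫ u in Ioi (0 : ℝ), |M| * Real.exp (-(1 / 4) * u) := by
    refine norm_integral_le_of_norm_le ((integrableOn_exp_mul_Ioi (a := -(1 / 4)) (by norm_num) 0).const_mul _) ?_
    refine (ae_restrict_mem measurableSet_Ioi).mono fun u hu => ?_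
    have hu0 : (0 : ℝ) < u := hu
    rw [← mul_sub, norm_mul, Real.norm_eq_abs, Real.norm_eq_abs, abs_of_pos (Real.exp_pos _)]
    have h4 : Real.exp (-δ * u) ≤ 1 := by
      rw [Real.exp_le_one_iff]
      nlinarith
    have h5 : |f u - g u| ≤ |M| * Real.exp (-(1 / 4) * u) := by
      refine (h u hu0).trans ?_
      rw [show -(1 / 4) * u = -u / 4 by ring]
      exact mul_le_mul_of_nonneg_right (le_abs_self M) (Real.exp_pos _).le
    calc Real.exp (-δ * u) * |f u - g u| ≤ 1 * (|M| * Real.exp (-(1 / 4) * u)) := mul_le_mul h4 h5 (abs_nonneg _) zero_le_one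
      _ = _ := one_mul _
  have h4 : ∫ u in Ioi (0 : ℝ), |M| * Real.exp (-(1 / 4) * u) = |M| * 4 := by
    rw [integral_const_mul, integral_exp_mul_Ioi (by norm_num)]
    simp
  rw [h4, Real.norm_eq_abs] at h3
  nlinarith [mul_le_mul_of_nonneg_left h3 hδ.le]

section

variable {T : Type} (a : ℝ → ℝ) (k : ℝ) (w τ : T → ℝ) (M B Ct cw : ℝ)

/-- the data -/
structure Rt : Prop where
  ca : Continuous a
  w1 : ∀ t, 0 < w t
  s1 : Summable w
  tp : ∀ t, 0 < τ t
  hB : 0 ≤ B
  ba : ∀ u, 0 < u → |a u - k| ≤ B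
  bF : ∀ u, |FI w τ u| ≤ B
  near : ∀ u, 0 < u → |a u - k - FI w τ u| ≤ M * Real.exp (-u / 4)
  cp : 0 < cw
  low : ∀ t (X : ℝ), 1 ≤ X → τ t ≤ X → cw * X ^ (-2 : ℝ) ≤ w t
  tail : ∀ X : ℝ, 1 ≤ X → (∑' t, open Classical in if τ t ≤ X then 0 else w t) ≤ Ct * X ^ (-(1 / 2) : ℝ)

variable {a k w τ M B Ct cw}

theorem Rt.exp (r : Rt a k w τ M B Ct cw) (K : ℕ) :
    (∀ c : ℝ, 0 < c → c ≤ 1 → RateAt (PM a k K) c → EffYA (tt τ) (2 * K) (2 * (2 * K : ℕ) / c)) ∧
    (∀ A : ℝ, 0 ≤ A → EffYA (tt τ) (2 * K) A → RateAt (PM a k K) (1 / (2 * (A + 1)))) := by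
  classical
  have w1 := r.w1
  have s1 := r.s1
  have hB := r.hB
  have x0 := xx_pos w1
  have xs := xx_sum s1
  have cF : Continuous (FI w τ) := FI_cont _ w1 s1
  have hrep : ∀ u : ℝ, HasSum (fun y => (xx w y : ℂ) * Complex.exp (Complex.I * tt τ y * u)) (FI w τ u : ℂ) := by
    intro u
    rw [← FI_rep τ w1 s1 u]
    refine Summable.hasSum ?_
    rw [← summable_norm_iff]
    refine (xx_sum s1).congr fun y => ?_
    rw [norm_mul, LM.norm_I, Complex.norm_real, Real.norm_eq_abs, abs_of_pos (xx_pos w1 y), mul_one]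
  have habs : ∀ y : T ⊕ T, |tt τ y| = Sum.elim τ τ y := by
    rintro (t | t)
    · exact abs_of_pos (r.tp t)
    · show |-τ t| = τ t
      rw [abs_neg]
      exact abs_of_pos (r.tp t)
  have hlow : ∀ (y : T ⊕ T) (X : ℝ), 1 ≤ X → |tt τ y| ≤ X → cw * X ^ (-2 : ℝ) ≤ xx w y := by
    intro y X hX hy
    rw [habs] at hy
    rcases y with t | t
    · exact r.low t X hX hy
    · exact r.low t X hX hy
  have htail : ∀ X : ℝ, 1 ≤ X → ((∑' y, xx w y) - ∑' y, if |tt τ y| ≤ X then xx w y else 0) ≤ 2 * Ct * X ^ (-(1 / 2) : ℝ) := by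
    intro X hX
    have h1 := r.tail X hX
    have hsm : Summable fun t : T => if τ t ≤ X then w t else 0 :=
      Summable.of_nonneg_of_le (fun t => by
        split_ifs
        · exact (w1 t).le
        · exact le_refl 0) (fun t => by
        split_ifs
        · exact le_refl _
        · exact (w1 t).le) s1
    have a1 : ∑' y, xx w y = (∑' t, w t) + ∑' t, w t := (HasSum.sum (f := xx w) s1.hasSum s1.hasSum).tsum_eq
    have a2 : (∑' y, if |tt τ y| ≤ X then xx w y else 0) =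
        (∑' t : T, if τ t ≤ X then w t else 0) + ∑' t : T, if τ t ≤ X then w t else 0 := by
      refine (HasSum.sum (f := fun y => if |tt τ y| ≤ X then xx w y else 0) ?_ ?_).tsum_eq
      · refine hsm.hasSum.congr_fun fun t => ?_
        simp only [Function.comp_apply]
        rw [habs]
        rfl
      · refine hsm.hasSum.congr_fun fun t => ?_
        simp only [Function.comp_apply]
        rw [habs]
        rfl
    have a3 : (∑' t, w t) - (∑' t : T, if τ t ≤ X then w t else 0) = ∑' t : T, if τ t ≤ X then 0 else w t := by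
      rw [← s1.tsum_sub hsm]
      refine tsum_congr fun t => ?_
      split_ifs
      · exact sub_self _
      · exact sub_zero _
    rw [a1, a2]
    linarith
  -- comparison of the means
  have ca : Continuous fun u => a u - k := r.ca.sub continuous_const
  have hclose : ∃ C1 : ℝ, 0 ≤ C1 ∧ ∀ δ : ℝ, 0 < δ → |Am (fun u => (a u - k) ^ (2 * K)) δ - Am (fun u => FI w τ u ^ (2 * K)) δ| ≤ C1 * δ := by
    refine ⟨4 * |(2 * K : ℕ) * B ^ (2 * K - 1) * M|, by positivity, fun δ hδ => ?_⟩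
    refine Am_close4 (f := fun u => (a u - k) ^ (2 * K)) (g := fun u => FI w τ u ^ (2 * K)) (B := B ^ (2 * K)) (ca.pow _) (cF.pow _) (fun u hu => ?_) (fun u _ => ?_) (fun u hu => ?_) hδ
    · rw [abs_pow]
      exact pow_le_pow_left₀ (abs_nonneg _) (r.ba u hu) _
    · rw [abs_pow]
      exact pow_le_pow_left₀ (abs_nonneg _) (r.bF u) _
    · refine (pow_close (r.ba u hu) (r.bF u) (2 * K)).trans ?_
      refine (mul_le_mul_of_nonneg_left (r.near u hu) (by positivity)).trans (le_of_eq ?_)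
      ring
  obtain ⟨C1, hC1, hclose⟩ := hclose
  have hint : ∀ δ : ℝ, 0 < δ → IntegrableOn (fun u : ℝ => Real.exp (-δ * u) * (a u - k) ^ (2 * K)) (Ioi 0) := fun δ hδ =>
    Am_int (f := fun u => (a u - k) ^ (2 * K)) (ca.pow _).continuousOn (B := B ^ (2 * K)) (fun u hu => by
      rw [abs_pow]
      exact pow_le_pow_left₀ (abs_nonneg _) (r.ba u hu) _) hδ
  have hV : ∀ δ : ℝ, 0 < δ → PM a k K δ = ENNReal.ofReal (Am (fun u => (a u - k) ^ (2 * K)) δ) := by
    intro δ hδ
    unfold PM Am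
    have e : ∀ u : ℝ, δ * Real.exp (-δ * u) * (a u - k) ^ (2 * K) = δ * (Real.exp (-δ * u) * (a u - k) ^ (2 * K)) := fun u => by ring
    simp_rw [e]
    rw [← integral_const_mul, ofReal_integral_eq_lintegral_ofReal ((hint δ hδ).const_mul δ)]
    refine (ae_restrict_mem measurableSet_Ioi).mono fun u _ => ?_
    have : 0 ≤ (a u - k) ^ (2 * K) := Even.pow_nonneg (even_two_mul K) _
    show 0 ≤ δ * (Real.exp (-δ * u) * (a u - k) ^ (2 * K))
    positivity
  have hAnn : ∀ δ : ℝ, 0 < δ → 0 ≤ Am (fun u => (a u - k) ^ (2 * K)) δ := by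
    intro δ hδ
    unfold Am
    refine mul_nonneg hδ.le (setIntegral_nonneg measurableSet_Ioi fun u _ => ?_)
    show 0 ≤ Real.exp (-δ * u) * (a u - k) ^ (2 * K)
    have : 0 ≤ (a u - k) ^ (2 * K) := Even.pow_nonneg (even_two_mul K) _
    positivity
  have hLK : Tendsto (Am fun u => FI w τ u ^ (2 * K)) (𝓝[>] 0) (𝓝 (LK (xx w) (tt τ) (2 * K))) :=
    mean_rep (fun f => Finset.prod_pos fun i _ => x0 _) (pi_hasSum (fun y => (x0 y).le) xs (2 * K)).summable (pi_rep x0 xs hrep (2 * K))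
  have hmin : ∀ (c C : ℝ), 0 < c → ∀ δ : ℝ, 0 < δ → δ < 1 → C * δ ^ c + C1 * δ ≤ (|C| + C1) * δ ^ (min c 1) := by
    intro c C hc δ h0 h1
    have a1 : δ ^ c ≤ δ ^ (min c 1) := Real.rpow_le_rpow_of_exponent_ge h0 h1.le (min_le_left _ _)
    have a2 : δ ≤ δ ^ (min c 1) := by
      have := Real.rpow_le_rpow_of_exponent_ge h0 h1.le (min_le_right c 1)
      rwa [Real.rpow_one] at this
    have a3 : C * δ ^ c ≤ |C| * δ ^ (min c 1) :=
      (mul_le_mul_of_nonneg_right (le_abs_self C) (by positivity)).trans (mul_le_mul_of_nonneg_left a1 (abs_nonneg _))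
    have a4 := mul_le_mul_of_nonneg_left a2 hC1
    linarith
  constructor
  · rintro c hc hc1 ⟨L, C, h⟩
    have hA : ∀ δ : ℝ, 0 < δ → δ < 1 → |Am (fun u => (a u - k) ^ (2 * K)) δ - L| ≤ C * δ ^ c := by
      intro δ h0 h1
      have h2 := (h δ h0 h1).2
      rwa [hV δ h0, ENNReal.toReal_ofReal (hAnn δ h0)] at h2
    have hb : ∀ δ : ℝ, 0 < δ → δ < 1 → |Am (fun u => FI w τ u ^ (2 * K)) δ - L| ≤ (|C| + C1) * δ ^ c := by
      intro δ h0 h1
      have a1 := hA δ h0 h1
      have a2 := hclose δ h0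
      rw [abs_sub_comm] at a2
      have a3 := abs_sub_le (Am (fun u => FI w τ u ^ (2 * K)) δ) (Am (fun u => (a u - k) ^ (2 * K)) δ) L
      have a4 := hmin c C hc δ h0 h1
      rw [min_eq_left hc1] at a4
      linarith
    have hL : L = LK (xx w) (tt τ) (2 * K) := by
      have h3 := rate_lim hc hb
      exact tendsto_nhds_unique h3 hLK
    refine rate_to_eff x0 xs hrep (2 * K) r.cp hlow hc (C := |C| + C1) fun δ h0 h1 => ?_
    have h2 := hb δ h0 h1
    rw [hL] at h2
    exact (le_abs_self _).trans h2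
  · intro A hA0 h
    obtain ⟨C, h⟩ := eff_to_rate x0 xs hrep (2 * K) htail hA0 h
    have hc1 : 1 / (2 * (A + 1)) ≤ 1 := by
      rw [div_le_one (by positivity)]
      linarith
    refine ⟨LK (xx w) (tt τ) (2 * K), |C| + C1, fun δ h0 h1 => ⟨?_, ?_⟩⟩
    · rw [hV δ h0]
      exact ENNReal.ofReal_lt_top
    · rw [hV δ h0, ENNReal.toReal_ofReal (hAnn δ h0)]
      have a1 := h δ h0 h1
      have a2 := rate_pos x0 xs hrep (2 * K) h0
      have a3 := hclose δ h0
      have a4 := abs_sub_le (Am (fun u => (a u - k) ^ (2 * K)) δ) (Am (fun u => FI w τ u ^ (2 * K)) δ) (LK (xx w) (tt τ) (2 * K))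
      rw [abs_of_nonneg a2] at a4
      have a5 := hmin (1 / (2 * (A + 1))) C (by positivity) δ h0 h1
      rw [min_eq_left hc1] at a5
      linarith

/-- the limit -/
theorem Rt.lim (r : Rt a k w τ M B Ct cw) (K : ℕ) :
    ∃ E : ℝ, Tendsto (fun δ => (PM a k K δ).toReal) (𝓝[>] 0) (𝓝 E) ∧
      (E = (2 * K).factorial * ∑' n : Dg T K, Tr w n.1 ^ 2 ↔ ¬Rl τ (2 * K)) := by
  have hN : Nr a (fun u => k + FI w τ u) (B + |k|) := by
    refine ⟨r.ca, continuous_const.add (FI_cont _ r.w1 r.s1), by have := r.hB; positivity, fun u hu => ?_, fun u => ?_, ?_⟩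
    · have h1 := r.ba u hu
      have h2 := abs_add_le (a u - k) k
      rw [sub_add_cancel] at h2
      linarith
    · have h1 := r.bF u
      have h2 := abs_add_le k (FI w τ u)
      linarith
    · have h1 : Tendsto (fun u : ℝ => M * Real.exp (-u / 4)) atTop (𝓝 0) := by
        have a2 : Tendsto (fun u : ℝ => Real.exp (-(1 / 4) * u)) atTop (𝓝 0) := by
          simpa using tendsto_rpow_mul_exp_neg_mul_atTop_nhds_zero 0 (1 / 4) (by norm_num)
        have a3 := a2.const_mul M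
        rw [mul_zero] at a3
        refine a3.congr fun u => ?_
        have : -u / 4 = -(1 / 4) * u := by ring
        rw [this]
      rw [tendsto_zero_iff_norm_tendsto_zero]
      refine squeeze_zero' (Eventually.of_forall fun u => norm_nonneg _) ?_ h1
      filter_upwards [eventually_gt_atTop 0] with u hu
      have h2 := r.near u hu
      rw [show a u - k - FI w τ u = a u - (k + FI w τ u) by ring] at h2
      exact h2
  have l1 := even_lim _ hN r.w1 r.s1 K
  have l2 := (ENNReal.tendsto_toReal ENNReal.ofReal_ne_top).comp l1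
  obtain ⟨n1, n2, n3⟩ := Ek_Mk τ r.w1 r.s1 (2 * K)
  rw [ENNReal.toReal_ofReal (n1.trans n2)] at l2
  exact ⟨_, l2, by rw [← Mk_even K]; exact n3⟩

end

end Run7.h278.LG
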