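import Pool.Agent.Run7.h278.LG.RateZ

set_option autoImplicit false

/-!
# Effective linear independence and the rate of convergence of the moments
-/

namespace Run7.h278.LG

open Filter Topology MeasureTheory Set Run7.h278.LM Run7.h278.WL
open scoped ENNReal

/-- relations of all lengths -/
theorem all_rel {ι : Type} (t : ι → ℝ) : (∀ K : ℕ, 1 ≤ K → ¬Rl t (2 * K)) ↔ LinearIndependent ℚ t := by
  constructor
  · intro h
    by_contra hne
    obtain ⟨p, hp⟩ : ∃ m : ι →₀ ℤ, m ≠ 0 ∧ (m.sum fun i n => (n : ℝ) * t i) = 0 := by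
      rw [← LinearIndependent.iff_fractionRing (R := ℤ) (K := ℚ), linearIndependent_iff] at hne
      push Not at hne
      obtain ⟨m, h1, h2⟩ := hne
      refine ⟨m, h2, ?_⟩
      rw [Finsupp.linearCombination_apply] at h1
      rw [← h1]
      refine Finsupp.sum_congr fun i _ => ?_
      rw [zsmul_eq_mul]
    set ℓ := p.sum fun _ k => k.natAbs with hℓ
    refine h (ℓ + 1) (by omega) ⟨2 • p, ?_, ?_, ?_, ?_⟩
    · intro h0
      apply hp.1
      ext i
      have := DFunLike.congr_fun h0 i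
      simpa using this
    · have h3 : ((2 • p : ι →₀ ℤ).sum fun i n => (n : ℝ) * t i) = 2 * p.sum fun i n => (n : ℝ) * t i := by
        rw [two_smul, Finsupp.sum_add_index' (by simp) (by intro a b c; push_cast; ring)]
        ring
      rw [h3, hp.2, mul_zero]
    · have h3 : ((2 • p : ι →₀ ℤ).sum fun _ n => n.natAbs) ≤ 2 * ℓ := by
        have h4 : (2 • p : ι →₀ ℤ).support ⊆ p.support := Finsupp.support_smul
        rw [Finsupp.sum_of_support_subset _ h4 (fun _ n => n.natAbs) (by simp), hℓ]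
        unfold Finsupp.sum
        rw [Finset.mul_sum]
        refine Finset.sum_le_sum fun i _ => ?_
        simp only [Finsupp.coe_smul, Pi.smul_apply]
        rw [show (2 • p i : ℤ) = 2 * p i by simp, Int.natAbs_mul]
        norm_num
      omega
    · have h3 : ((2 • p : ι →₀ ℤ).sum fun _ n => n.natAbs) = 2 * ℓ := by
        have h4 : (2 • p : ι →₀ ℤ).support ⊆ p.support := Finsupp.support_smul
        rw [Finsupp.sum_of_support_subset _ h4 (fun _ n => n.natAbs) (by simp), hℓ]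
        unfold Finsupp.sum
        rw [Finset.mul_sum]
        refine Finset.sum_congr rfl fun i _ => ?_
        simp only [Finsupp.coe_smul, Pi.smul_apply]
        rw [show (2 • p i : ℤ) = 2 * p i by simp, Int.natAbs_mul]
        norm_num
      rw [h3]
      exact (even_two_mul _).add (even_two_mul _)
  · rintro h K - ⟨m, h1, h2, -, -⟩
    rw [linearIndependent_iff'] at h
    apply h1
    ext i
    by_contra hne
    have hmem : i ∈ m.support := Finsupp.mem_support_iff.2 hne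
    have h7 := h m.support (fun i => (m i : ℚ)) (by
      have h8 : ∑ i ∈ m.support, (m i : ℝ) * t i = 0 := h2
      refine Eq.trans ?_ h8
      refine Finset.sum_congr rfl fun i _ => ?_
      rw [Rat.smul_def]
      push_cast
      rfl) i hmem
    exact hne (by exact_mod_cast h7)

/-- sums of `p` elements of `T` with signs are zero or not too small -/
def EffT (T : Set ℝ) (p : ℕ) : Prop := ∃ A c : ℝ, 0 < A ∧ 0 < c ∧ ∀ X : ℝ, 1 ≤ X → ∀ f : Fin p → ℝ, (∀ i, |f i| ∈ T ∧ |f i| ≤ X) →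
  ∑ i, f i ≠ 0 → c * X ^ (-A) ≤ |∑ i, f i|

theorem EffY_EffT {T : Set ℝ} (hT : ∀ t ∈ T, 0 < t) (p : ℕ) : EffY (tt fun t : T => (t : ℝ)) p ↔ EffT T p := by
  constructor
  · rintro ⟨A, c, hA, hc, h⟩
    refine ⟨A, c, hA, hc, fun X hX f hf hne => ?_⟩
    have h1 : ∀ i, ∃ y : T ⊕ T, tt (fun t : T => (t : ℝ)) y = f i := by
      intro i
      rcases le_total 0 (f i) with h2 | h2
      · exact ⟨Sum.inl ⟨|f i|, (hf i).1⟩, abs_of_nonneg h2⟩
      · refine ⟨Sum.inr ⟨|f i|, (hf i).1⟩, ?_⟩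
        show -|f i| = f i
        rw [abs_of_nonpos h2, neg_neg]
    choose y hy using h1
    have h2 := h X hX y (fun i => by
      rw [hy]
      exact (hf i).2)
    simp_rw [hy] at h2
    exact h2 hne
  · rintro ⟨A, c, hA, hc, h⟩
    refine ⟨A, c, hA, hc, fun X hX y hy hne => h X hX (fun i => tt (fun t : T => (t : ℝ)) (y i)) (fun i => ⟨?_, hy i⟩) hne⟩
    rcases y i with t | t
    · show |(t : ℝ)| ∈ T
      rw [abs_of_pos (hT t t.2)]
      exact t.2
    · show |-(t : ℝ)| ∈ T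
      rw [abs_neg, abs_of_pos (hT t t.2)]
      exact t.2

theorem EffT_all {T : Set ℝ} : (∀ K : ℕ, 1 ≤ K → EffT T (2 * K)) ↔ ∀ p : ℕ, EffT T p := by
  constructor
  · intro h p
    rcases Nat.eq_zero_or_pos p with hp | hp
    · subst hp
      refine ⟨1, 1, one_pos, one_pos, fun X _ f _ hne => ?_⟩
      exact absurd (by simp) hne
    · obtain ⟨A, c, hA, hc, h⟩ := h p hp
      refine ⟨A, c / 2, hA, by positivity, fun X hX f hf hne => ?_⟩
      set e : Fin 2 × Fin p ≃ Fin (2 * p) := finProdFinEquiv with he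
      have e1 : ∑ i, f (e.symm i).2 = 2 * ∑ i, f i := by
        rw [← Equiv.sum_comp e]
        simp only [Equiv.symm_apply_apply]
        rw [Fintype.sum_prod_type]
        simp
      have h1 := h X hX (fun i => f (e.symm i).2) (fun i => hf _) (by
        rw [e1]
        exact mul_ne_zero two_ne_zero hne)
      rw [e1, abs_mul, abs_of_pos (by norm_num : (0 : ℝ) < 2)] at h1
      linarith
  · intro h K _
    exact h (2 * K)

/-- gaps -/
theorem EffT_two {T : Set ℝ} {t0 : ℝ} (h0 : 0 < t0) (ht : ∀ t ∈ T, t0 ≤ t) : EffT T (2 * 1) ↔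
    ∃ A c : ℝ, 0 < A ∧ 0 < c ∧ ∀ X : ℝ, 1 ≤ X → ∀ t ∈ T, ∀ t' ∈ T, t < t' → t' ≤ X → c * X ^ (-A) ≤ t' - t := by
  constructor
  · rintro ⟨A, c, hA, hc, h⟩
    refine ⟨A, c, hA, hc, fun X hX t h1 t' h2 hlt hle => ?_⟩
    have a1 : 0 < t := h0.trans_le (ht t h1)
    have a2 : 0 < t' := h0.trans_le (ht t' h2)
    have h3 := h X hX ![t', -t] (fun i => by
      fin_cases i
      · show |t'| ∈ T ∧ |t'| ≤ X
        rw [abs_of_pos a2]
        exact ⟨h2, hle⟩
      · show |-t| ∈ T ∧ |-t| ≤ X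
        rw [abs_neg, abs_of_pos a1]
        exact ⟨h1, hlt.le.trans hle⟩)
    have h4 : ∑ i, (![t', -t] : Fin 2 → ℝ) i = t' - t := by
      simp [Fin.sum_univ_two]
      ring
    have h5 : ∑ i : Fin (2 * 1), (![t', -t] : Fin 2 → ℝ) i = t' - t := h4
    rw [h5, abs_of_pos (by linarith)] at h3
    exact h3 (by linarith)
  · rintro ⟨A, c, hA, hc, h⟩
    refine ⟨A, min c t0, hA, by positivity, fun X hX f hf hne => ?_⟩
    have hX0 : 0 < X := by linarith
    have hXA : X ^ (-A) ≤ 1 := Real.rpow_le_one_of_one_le_of_nonpos hX (by linarith)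
    have hXp : 0 < X ^ (-A) := by positivity
    have h4 : ∑ i, f i = f 0 + f 1 := Fin.sum_univ_two f
    rw [h4] at hne ⊢
    obtain ⟨a1, a2⟩ := hf 0
    obtain ⟨b1, b2⟩ := hf 1
    have hmc : min c t0 * X ^ (-A) ≤ c * X ^ (-A) := mul_le_mul_of_nonneg_right (min_le_left _ _) hXp.le
    have hmt : min c t0 * X ^ (-A) ≤ t0 := by
      have := mul_le_mul (min_le_right c t0) hXA hXp.le h0.le
      linarith
    have ha := ht _ a1
    have hb := ht _ b1
    have hgap : ∀ u v : ℝ, u ∈ T → v ∈ T → u ≤ X → v ≤ X → u ≠ v → min c t0 * X ^ (-A) ≤ |u - v| := by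
      intro u v hu hv hu' hv' huv
      rcases lt_or_gt_of_ne huv with h5 | h5
      · rw [abs_sub_comm, abs_of_pos (by linarith)]
        exact hmc.trans (h X hX u hu v hv h5 hv')
      · rw [abs_of_pos (by linarith)]
        exact hmc.trans (h X hX v hv u hu h5 hu')
    rcases le_total 0 (f 0) with s0 | s0 <;> rcases le_total 0 (f 1) with s1 | s1
    · rw [abs_of_nonneg s0] at ha
      rw [abs_of_nonneg (by linarith)]
      linarith
    · have h6 := hgap _ _ a1 b1 a2 b2 (by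
        rw [abs_of_nonneg s0, abs_of_nonpos s1]
        intro h7
        exact hne (by linarith))
      rw [abs_of_nonneg s0, abs_of_nonpos s1] at h6
      rwa [sub_neg_eq_add] at h6
    · have h6 := hgap _ _ b1 a1 b2 a2 (by
        rw [abs_of_nonpos s0, abs_of_nonneg s1]
        intro h7
        exact hne (by linarith))
      rw [abs_of_nonpos s0, abs_of_nonneg s1, sub_neg_eq_add, add_comm] at h6
      exact h6
    · rw [abs_of_nonpos s0] at ha
      rw [abs_of_nonpos (by linarith)]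
      linarith

theorem rate_lim {V : ℝ → ℝ} {L c C : ℝ} (hc : 0 < c) (h : ∀ δ : ℝ, 0 < δ → δ < 1 → |V δ - L| ≤ C * δ ^ c) : Tendsto V (𝓝[>] 0) (𝓝 L) := by
  have h2 : Tendsto (fun δ : ℝ => C * δ ^ c) (𝓝[>] 0) (𝓝 0) := by
    have h3 : Tendsto (fun δ : ℝ => δ ^ c) (𝓝[>] 0) (𝓝 0) := by
      have h4 : Tendsto (fun δ : ℝ => δ ^ c) (𝓝 0) (𝓝 (0 ^ c)) := (Real.continuousAt_rpow_const 0 c (Or.inr hc.le)).tendsto
      rw [Real.zero_rpow hc.ne'] at h4
      exact h4.mono_left nhdsWithin_le_nhds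
    have h5 := h3.const_mul C
    rwa [mul_zero] at h5
  have h3 : Tendsto (fun δ : ℝ => V δ - L) (𝓝[>] 0) (𝓝 0) := by
    rw [tendsto_zero_iff_norm_tendsto_zero]
    refine squeeze_zero' (Eventually.of_forall fun _ => norm_nonneg _) ?_ h2
    have h4 : ∀ᶠ δ in 𝓝[>] (0 : ℝ), δ < 1 := eventually_nhdsWithin_of_eventually_nhds (eventually_lt_nhds one_pos)
    filter_upwards [h4, self_mem_nhdsWithin] with δ h4 h5
    exact h δ h5 h4
  have h6 := h3.add_const L
  simpa using h6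

/-- the moment for independent phases -/
noncomputable def DmZ (K : ℕ) : ℝ :=
  (2 * K).factorial * ∑' n : Dg TZ K, Tr (fun t : TZ => (WL.mt t : ℝ) / (1 / 4 + (t : ℝ) ^ 2)) n.1 ^ 2

/-- **Rates, effective and exact linear independence.** -/
theorem zeta_rate_LI :
    (∀ K : ℕ, 1 ≤ K → (PowerRate (PM aa 0 K) ↔ RiemannHypothesis ∧ EffT TZ (2 * K))) ∧
    ((∀ K : ℕ, 1 ≤ K → PowerRate (PM aa 0 K)) ↔ RiemannHypothesis ∧ ∀ p : ℕ, EffT TZ p) ∧
    ((∀ K : ℕ, 1 ≤ K → ∃ c C : ℝ, 0 < c ∧ ∀ δ : ℝ, 0 < δ → δ < 1 → PM aa 0 K δ < ⊤ ∧ |(PM aa 0 K δ).toReal - DmZ K| ≤ C * δ ^ c) ↔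
      RiemannHypothesis ∧ (LinearIndependent ℚ fun t : TZ => (t : ℝ)) ∧ ∀ p : ℕ, EffT TZ p) := by
  have hT : ∀ t ∈ TZ, 0 < t := fun t ht => ht.1
  have h1 : ∀ K : ℕ, 1 ≤ K → (PowerRate (PM aa 0 K) ↔ RiemannHypothesis ∧ EffT TZ (2 * K)) := fun K hK => by
    rw [zeta_rate hK, EffY_EffT hT]
  have h2 : (∀ K : ℕ, 1 ≤ K → PowerRate (PM aa 0 K)) ↔ RiemannHypothesis ∧ ∀ p : ℕ, EffT TZ p := by
    constructor
    · intro h
      exact ⟨((h1 1 le_rfl).1 (h 1 le_rfl)).1, EffT_all.1 fun K hK => ((h1 K hK).1 (h K hK)).2⟩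
    · rintro ⟨hRH, h⟩ K hK
      exact (h1 K hK).2 ⟨hRH, h _⟩
  have hlimR : RiemannHypothesis → ∀ K : ℕ, ∃ E : ℝ, Tendsto (fun δ => (PM aa 0 K δ).toReal) (𝓝[>] 0) (𝓝 E) ∧
      (E = DmZ K ↔ ¬Rl (fun t : TZ => (t : ℝ)) (2 * K)) := by
    intro hRH K
    obtain ⟨cm, -⟩ := cmZ hRH
    obtain ⟨B, hB⟩ := nrZ hRH
    set e : TZ ≃ TI := Equiv.subtypeEquivRight fun t => by
      show 0 < t ∧ riemannZeta (1 / 2 + Complex.I * t) = 0 ↔ _
      rw [Z_zero_iff] with he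
    have w1 : ∀ t : TZ, 0 < (WL.mt t : ℝ) / (1 / 4 + (t : ℝ) ^ 2) := fun t => WW_pos (e t)
    have s1 : Summable fun t : TZ => (WL.mt t : ℝ) / (1 / 4 + (t : ℝ) ^ 2) := cm.sum
    have hF : FFz = fun u => 0 + FI (fun t : TZ => (WL.mt t : ℝ) / (1 / 4 + (t : ℝ) ^ 2)) (fun t : TZ => (t : ℝ)) u := by
      funext u
      rw [zero_add]
      exact (e.tsum_eq (fun t : TI => 2 * WW t * Real.cos (t * u))).symm
    rw [hF] at hB
    have l1 := even_lim _ hB w1 s1 K
    have l2 := (ENNReal.tendsto_toReal ENNReal.ofReal_ne_top).comp l1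
    obtain ⟨n1, n2, n3⟩ := Ek_Mk (fun t : TZ => (t : ℝ)) w1 s1 (2 * K)
    have hD : Mk (fun t : TZ => (WL.mt t : ℝ) / (1 / 4 + (t : ℝ) ^ 2)) (2 * K) = DmZ K := Mk_even K
    rw [ENNReal.toReal_ofReal (n1.trans n2)] at l2
    exact ⟨_, l2, by rw [← hD]; exact n3⟩
  refine ⟨h1, h2, ?_, ?_⟩
  · intro h
    have h3 := h2.1 fun K hK => by
      obtain ⟨c, C, hc, h⟩ := h K hK
      exact ⟨DmZ K, c, C, hc, h⟩
    refine ⟨h3.1, (all_rel _).1 fun K hK => ?_, h3.2⟩
    obtain ⟨E, e1, e2⟩ := hlimR h3.1 K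
    obtain ⟨c, C, hc, h⟩ := h K hK
    have h4 := rate_lim hc fun δ h0 h1 => (h δ h0 h1).2
    exact e2.1 (tendsto_nhds_unique e1 h4)
  · rintro ⟨hRH, hLI, hE⟩ K hK
    obtain ⟨L, c, C, hc, h⟩ := h2.2 ⟨hRH, hE⟩ K hK
    obtain ⟨E, e1, e2⟩ := hlimR hRH K
    have h4 := rate_lim hc fun δ h0 h1 => (h δ h0 h1).2
    have h5 : L = DmZ K := by
      rw [← tendsto_nhds_unique e1 h4]
      exact e2.2 ((all_rel _).2 hLI K hK)
    rw [h5] at h
    exact ⟨c, C, hc, h⟩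

/-- **The rate of convergence of the mean square and the gaps.** -/
theorem zeta_gap : PowerRate (PM aa 0 1) ↔ RiemannHypothesis ∧
    ∃ A c : ℝ, 0 < A ∧ 0 < c ∧ ∀ X : ℝ, 1 ≤ X → ∀ t ∈ TZ, ∀ t' ∈ TZ, t < t' → t' ≤ X → c * X ^ (-A) ≤ t' - t := by
  rw [(zeta_rate_LI.1 1 le_rfl)]
  refine and_congr_right fun hRH => ?_
  obtain ⟨cm, -⟩ := cmZ hRH
  obtain ⟨t0, ht0, ht⟩ := cm.ct.t0
  exact EffT_two ht0 ht

/-- sums of `p` elements of `T` with signs are zero or at least `c X^(-A)` -/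
def EffTA (T : Set ℝ) (p : ℕ) (A : ℝ) : Prop := ∃ c : ℝ, 0 < c ∧ ∀ X : ℝ, 1 ≤ X → ∀ f : Fin p → ℝ, (∀ i, |f i| ∈ T ∧ |f i| ≤ X) →
  ∑ i, f i ≠ 0 → c * X ^ (-A) ≤ |∑ i, f i|

theorem EffT_iff (T : Set ℝ) (p : ℕ) : EffT T p ↔ ∃ A : ℝ, 0 < A ∧ EffTA T p A := by
  constructor
  · rintro ⟨A, c, hA, hc, h⟩
    exact ⟨A, hA, c, hc, h⟩
  · rintro ⟨A, hA, c, hc, h⟩
    exact ⟨A, c, hA, hc, h⟩

theorem EffYA_EffTA {T : Set ℝ} (hT : ∀ t ∈ T, 0 < t) (p : ℕ) (A : ℝ) : EffYA (tt fun t : T => (t : ℝ)) p A ↔ EffTA T p A := by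
  constructor
  · rintro ⟨c, hc, h⟩
    refine ⟨c, hc, fun X hX f hf hne => ?_⟩
    have h1 : ∀ i, ∃ y : T ⊕ T, tt (fun t : T => (t : ℝ)) y = f i := by
      intro i
      rcases le_total 0 (f i) with h2 | h2
      · exact ⟨Sum.inl ⟨|f i|, (hf i).1⟩, abs_of_nonneg h2⟩
      · refine ⟨Sum.inr ⟨|f i|, (hf i).1⟩, ?_⟩
        show -|f i| = f i
        rw [abs_of_nonpos h2, neg_neg]
    choose y hy using h1
    have h2 := h X hX y (fun i => by
      rw [hy]
      exact (hf i).2)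
    simp_rw [hy] at h2
    exact h2 hne
  · rintro ⟨c, hc, h⟩
    refine ⟨c, hc, fun X hX y hy hne => h X hX (fun i => tt (fun t : T => (t : ℝ)) (y i)) (fun i => ⟨?_, hy i⟩) hne⟩
    rcases y i with t | t
    · show |(t : ℝ)| ∈ T
      rw [abs_of_pos (hT t t.2)]
      exact t.2
    · show |-(t : ℝ)| ∈ T
      rw [abs_neg, abs_of_pos (hT t t.2)]
      exact t.2

/-- gaps at least a power -/
def GapA (T : Set ℝ) (A : ℝ) : Prop := ∃ c : ℝ, 0 < c ∧ ∀ X : ℝ, 1 ≤ X → ∀ t ∈ T, ∀ t' ∈ T, t < t' → t' ≤ X → c * X ^ (-A) ≤ t' - t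

theorem EffTA_two {T : Set ℝ} {t0 A : ℝ} (h0 : 0 < t0) (ht : ∀ t ∈ T, t0 ≤ t) (hA : 0 ≤ A) : EffTA T (2 * 1) A ↔ GapA T A := by
  constructor
  · rintro ⟨c, hc, h⟩
    refine ⟨c, hc, fun X hX t h1 t' h2 hlt hle => ?_⟩
    have a1 : 0 < t := h0.trans_le (ht t h1)
    have a2 : 0 < t' := h0.trans_le (ht t' h2)
    have h3 := h X hX ![t', -t] (fun i => by
      fin_cases i
      · show |t'| ∈ T ∧ |t'| ≤ X
        rw [abs_of_pos a2]
        exact ⟨h2, hle⟩
      · show |-t| ∈ T ∧ |-t| ≤ X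
        rw [abs_neg, abs_of_pos a1]
        exact ⟨h1, hlt.le.trans hle⟩)
    have h5 : ∑ i : Fin (2 * 1), (![t', -t] : Fin 2 → ℝ) i = t' - t := by
      have h4 : ∑ i, (![t', -t] : Fin 2 → ℝ) i = t' - t := by
        simp [Fin.sum_univ_two]
        ring
      exact h4
    rw [h5, abs_of_pos (by linarith)] at h3
    exact h3 (by linarith)
  · rintro ⟨c, hc, h⟩
    refine ⟨min c t0, by positivity, fun X hX f hf hne => ?_⟩
    have hX0 : 0 < X := by linarith
    have hXA : X ^ (-A) ≤ 1 := Real.rpow_le_one_of_one_le_of_nonpos hX (by linarith)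
    have hXp : 0 < X ^ (-A) := by positivity
    have h4 : ∑ i, f i = f 0 + f 1 := Fin.sum_univ_two f
    rw [h4] at hne ⊢
    obtain ⟨a1, a2⟩ := hf 0
    obtain ⟨b1, b2⟩ := hf 1
    have hmc : min c t0 * X ^ (-A) ≤ c * X ^ (-A) := mul_le_mul_of_nonneg_right (min_le_left _ _) hXp.le
    have hmt : min c t0 * X ^ (-A) ≤ t0 := by
      have := mul_le_mul (min_le_right c t0) hXA hXp.le h0.le
      linarith
    have ha := ht _ a1
    have hb := ht _ b1
    have hgap : ∀ u v : ℝ, u ∈ T → v ∈ T → u ≤ X → v ≤ X → u ≠ v → min c t0 * X ^ (-A) ≤ |u - v| := by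
      intro u v hu hv hu' hv' huv
      rcases lt_or_gt_of_ne huv with h5 | h5
      · rw [abs_sub_comm, abs_of_pos (by linarith)]
        exact hmc.trans (h X hX u hu v hv h5 hv')
      · rw [abs_of_pos (by linarith)]
        exact hmc.trans (h X hX v hv u hu h5 hu')
    rcases le_total 0 (f 0) with s0 | s0 <;> rcases le_total 0 (f 1) with s1 | s1
    · rw [abs_of_nonneg s0] at ha
      rw [abs_of_nonneg (by linarith)]
      linarith
    · have h6 := hgap _ _ a1 b1 a2 b2 (by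
        rw [abs_of_nonneg s0, abs_of_nonpos s1]
        intro h7
        exact hne (by linarith))
      rw [abs_of_nonneg s0, abs_of_nonpos s1] at h6
      rwa [sub_neg_eq_add] at h6
    · have h6 := hgap _ _ b1 a1 b2 a2 (by
        rw [abs_of_nonpos s0, abs_of_nonneg s1]
        intro h7
        exact hne (by linarith))
      rw [abs_of_nonpos s0, abs_of_nonneg s1, sub_neg_eq_add, add_comm] at h6
      exact h6
    · rw [abs_of_nonpos s0] at ha
      rw [abs_of_nonpos (by linarith)]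
      linarith

/-- **The exponents.** -/
theorem zeta_exp {K : ℕ} (hK : 1 ≤ K) :
    (∀ c : ℝ, 0 < c → c ≤ 1 → RateAt (PM aa 0 K) c → RiemannHypothesis ∧ EffTA TZ (2 * K) (4 * K / c)) ∧
    (∀ A : ℝ, 0 ≤ A → RiemannHypothesis → EffTA TZ (2 * K) A → RateAt (PM aa 0 K) (1 / (2 * (A + 1)))) := by
  have hT : ∀ t ∈ TZ, 0 < t := fun t ht => ht.1
  constructor
  · intro c hc hc1 h
    have hRH : RiemannHypothesis := by
      obtain ⟨L, C, h⟩ := h
      exact ((zeta_rate hK).1 ⟨L, c, C, hc, h⟩).1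
    refine ⟨hRH, (EffYA_EffTA hT _ _).1 ?_⟩
    have h1 := (zeta_rate_exp hRH K).1 c hc hc1 h
    have e : (2 * (2 * K : ℕ) / c : ℝ) = 4 * K / c := by
      push_cast
      ring
    rwa [e] at h1
  · intro A hA hRH h
    exact (zeta_rate_exp hRH K).2 A hA ((EffYA_EffTA hT _ _).2 h)

/-- **The rate of convergence of the mean square and the gaps, with exponents.** -/
theorem zeta_gap_exp :
    (∀ c : ℝ, 0 < c → c ≤ 1 → RateAt (PM aa 0 1) c → RiemannHypothesis ∧ GapA TZ (4 / c)) ∧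
    (∀ A : ℝ, 0 ≤ A → RiemannHypothesis → GapA TZ A → RateAt (PM aa 0 1) (1 / (2 * (A + 1)))) := by
  obtain ⟨h1, h2⟩ := zeta_exp (K := 1) le_rfl
  constructor
  · intro c hc hc1 h
    obtain ⟨hRH, h3⟩ := h1 c hc hc1 h
    obtain ⟨cm, -⟩ := cmZ hRH
    obtain ⟨t0, ht0, ht⟩ := cm.ct.t0
    refine ⟨hRH, ?_⟩
    have h4 := (EffTA_two ht0 ht (by positivity)).1 h3
    have e : (4 * (1 : ℕ) / c : ℝ) = 4 / c := by
      push_cast
      ring
    rwa [e] at h4
  · intro A hA hRH h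
    obtain ⟨cm, -⟩ := cmZ hRH
    obtain ⟨t0, ht0, ht⟩ := cm.ct.t0
    exact h2 A hA hRH ((EffTA_two ht0 ht hA).2 h)

end Run7.h278.LG
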