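import Pool.Agent.Run7.h278.LG.Near
import Pool.Agent.Run7.h278.LM.Fin

set_option autoImplicit false

/-!
# The function of the Riemann zeta function
-/

namespace Run7.h278.LG

open Complex Filter Topology MeasureTheory Set Run7.h278.LM Run7.h278.WL
open scoped ENNReal

/-- the ordinates with multiplicity -/
abbrev Oz : Type := Σ t : TI, Fin (mt (t : ℝ))

/-- the weights with multiplicity -/
noncomputable def wz (x : Oz) : ℝ := 1 / (1 / 4 + (x.1 : ℝ) ^ 2)

theorem wz_pos (x : Oz) : 0 < wz x := by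
  unfold wz
  positivity

theorem wz_sum : Summable wz := by
  rw [summable_sigma_of_nonneg fun x => (wz_pos x).le]
  refine ⟨fun t => (hasSum_fintype _).summable, ?_⟩
  refine WW_summable.congr fun t => ?_
  rw [tsum_fintype]
  unfold wz WW
  simp only [Finset.sum_const, Finset.card_univ, Fintype.card_fin, nsmul_eq_mul]
  ring

theorem FI_wz : FI wz (fun x : Oz => (x.1 : ℝ)) = FFz := by
  funext u
  unfold FI FFz
  have h1 : Summable fun x : Oz => 2 * wz x * Real.cos ((x.1 : ℝ) * u) :=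
    Summable.of_norm_bounded (wz_sum.mul_left 2) (fun x => term_le wz (fun x : Oz => (x.1 : ℝ)) wz_pos x u)
  rw [h1.tsum_sigma' fun t => (hasSum_fintype _).summable]
  refine tsum_congr fun t => ?_
  rw [tsum_fintype]
  unfold wz WW
  simp only [Finset.sum_const, Finset.card_univ, Fintype.card_fin, nsmul_eq_mul]
  ring

theorem nrZ (hRH : RiemannHypothesis) : ∃ B : ℝ, Nr aa FFz B := by
  obtain ⟨K, hK, h⟩ := aa_near hRH
  obtain ⟨B, hB, hF, ha⟩ := aa_bdd hRH
  refine ⟨B, aa_cont, FFz_cont, hB, ha, hF, ?_⟩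
  rw [tendsto_zero_iff_norm_tendsto_zero]
  have h2 : Tendsto (fun u : ℝ => K * Real.exp (-u / 2)) atTop (𝓝 0) := by
    have a2 : Tendsto (fun u : ℝ => Real.exp (-(1 / 2) * u)) atTop (𝓝 0) := by
      simpa using tendsto_rpow_mul_exp_neg_mul_atTop_nhds_zero 0 (1 / 2) (by norm_num)
    have a3 := a2.const_mul K
    rw [mul_zero] at a3
    refine a3.congr fun u => ?_
    have : -u / 2 = -(1 / 2) * u := by ring
    rw [this]
  refine squeeze_zero' (Eventually.of_forall fun u => norm_nonneg _) ?_ h2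
  filter_upwards [eventually_gt_atTop 0] with u hu
  exact h u hu

theorem noZ (hRH : ¬RiemannHypothesis) : ∃ δ₀ : ℝ, 0 < δ₀ ∧ ∀ δ : ℝ, 0 < δ → δ < δ₀ →
    ¬IntegrableOn (fun u : ℝ => Real.exp (-δ * u) * aa u ^ 2) (Ioi 0) := by
  obtain ⟨ρ, h1, h2⟩ := off_zero hRH
  refine ⟨2 * (ρ.re - 1 / 2), by linarith, fun δ hδ hlt hi => ?_⟩
  exact no_zero hδ hi (by linarith : 1 / 2 + δ / 2 < ρ.re) h2

/-- the sum of the weights -/
theorem sum_WW (hRH : RiemannHypothesis) : ∑' t : TI, 2 * WW t = 2 + Real.eulerMascheroniConstant - Real.log (4 * Real.pi) := by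
  have h0 : FFz 0 = ∑' t : TI, 2 * WW t := by
    unfold FFz
    refine tsum_congr fun t => ?_
    rw [mul_zero, Real.cos_zero, mul_one]
  rw [← h0]
  have hR0 : RR 0 = 1 - Real.log 2 := by
    unfold RR
    have h1 := Complex.hasSum_re sum_log2
    have h2 : (((1 - Real.log 2 : ℝ) : ℂ)).re = 1 - Real.log 2 := Complex.ofReal_re _
    rw [h2] at h1
    rw [← h1.tsum_eq]
    refine tsum_congr fun k => ?_
    rw [mul_zero, Real.exp_zero, mul_one]
    have h3 : (1 / ((2 * (k : ℂ) + 2) * (2 * k + 3))) = ((1 / ((2 * (k : ℝ) + 2) * (2 * k + 3)) : ℝ) : ℂ) := by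
      push_cast
      rfl
    rw [h3, Complex.ofReal_re]
  have hS0 : SS 0 = 0 := by
    have h1 : SS 0 = ∑ n ∈ Finset.range 2, st n 0 := SS_eq (by simp)
    rw [h1]
    simp [Finset.sum_range_succ, st]
  have ha0 : aa 0 = 1 + Real.eulerMascheroniConstant := by
    rw [aa_eq, hS0]
    simp
  have hlim : Tendsto (fun u => aa u + RR u - Real.log (2 * Real.pi) * Real.exp (-u / 2)) (𝓝[>] 0) (𝓝 (FFz 0)) := by
    refine ((FFz_cont.tendsto 0).mono_left nhdsWithin_le_nhds).congr' ?_
    filter_upwards [self_mem_nhdsWithin] with u hu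
    have h := explicit hRH hu
    unfold DD at h
    linarith
  have h1 : Tendsto aa (𝓝[>] 0) (𝓝 (aa 0)) := (aa_cont.tendsto 0).mono_left nhdsWithin_le_nhds
  have h2 : Tendsto RR (𝓝[>] 0) (𝓝 (RR 0)) := ((RR_cont 0 (mem_Ici.2 (le_refl 0))).mono Ioi_subset_Ici_self)
  have h3 : Tendsto (fun u : ℝ => Real.log (2 * Real.pi) * Real.exp (-u / 2)) (𝓝[>] 0) (𝓝 (Real.log (2 * Real.pi) * Real.exp (-0 / 2))) :=
    ((by fun_prop : Continuous fun u : ℝ => Real.log (2 * Real.pi) * Real.exp (-u / 2)).tendsto 0).mono_left nhdsWithin_le_nhds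
  have h4 := tendsto_nhds_unique hlim ((h1.add h2).sub h3)
  rw [h4, ha0, hR0]
  have h5 : Real.log (4 * Real.pi) = Real.log 2 + Real.log (2 * Real.pi) := by
    rw [← Real.log_mul (by norm_num) (by positivity)]
    congr 1
    ring
  rw [h5]
  simp
  ring

/-- relations with multiplicity -/
theorem Rl_Oz {p : ℕ} (hp : 2 ≤ p) (he : Even p) : ¬Rl (fun x : Oz => (x.1 : ℝ)) p ↔
    (∀ t : TI, mt (t : ℝ) = 1) ∧ ¬Rl (fun t : TI => (t : ℝ)) p := by
  classical
  have hsimple : (∀ t : TI, mt (t : ℝ) = 1) → (Rl (fun x : Oz => (x.1 : ℝ)) p ↔ Rl (fun t : TI => (t : ℝ)) p) := by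
    intro h1
    have hl : Function.LeftInverse (fun t : TI => (⟨t, ⟨0, mt_pos t⟩⟩ : Oz)) (fun x : Oz => x.1) := by
      rintro ⟨t, k⟩
      have h3 := h1 t
      have h4 : (⟨0, mt_pos t⟩ : Fin (mt (t : ℝ))) = k := by
        apply Fin.ext
        simp only
        omega
      simp only
      rw [h4]
    have e : ∃ e : Oz ≃ TI, ∀ x, e x = x.1 := ⟨⟨fun x => x.1, fun t => ⟨t, ⟨0, mt_pos t⟩⟩, hl, fun t => rfl⟩, fun x => rfl⟩
    obtain ⟨e, he'⟩ := e
    exact Rl_equiv _ (t' := fun t : TI => (t : ℝ)) e (fun x => by rw [he']) p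
  constructor
  · intro h
    have h1 : ∀ t : TI, mt (t : ℝ) = 1 := by
      intro t
      by_contra hne
      have h1 := mt_pos t
      have h2 : 1 < mt (t : ℝ) := by omega
      apply h
      set x : Oz := ⟨t, ⟨0, h1⟩⟩ with hx
      set y : Oz := ⟨t, ⟨1, h2⟩⟩ with hy
      have hxy : x ≠ y := by
        intro hh
        rw [hx, hy] at hh
        simp at hh
      set m : Oz →₀ ℤ := Finsupp.single x 1 + Finsupp.single y (-1) with hm
      have hmx : m x = 1 := by
        rw [hm, Finsupp.add_apply, Finsupp.single_eq_same, Finsupp.single_apply, if_neg hxy.symm, add_zero]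
      have hmy : m y = -1 := by
        rw [hm, Finsupp.add_apply, Finsupp.single_eq_same, Finsupp.single_apply, if_neg hxy, zero_add]
      have hS : m.support ⊆ {x, y} := by
        intro z hz
        rw [Finsupp.mem_support_iff, hm, Finsupp.add_apply, Finsupp.single_apply, Finsupp.single_apply] at hz
        rw [Finset.mem_insert, Finset.mem_singleton]
        by_contra hc
        push Not at hc
        rw [if_neg (fun hh => hc.1 hh.symm), if_neg (fun hh => hc.2 hh.symm)] at hz
        exact hz (by simp)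
      have hL : (m.sum fun _ n => n.natAbs) = 2 := by
        rw [sum_supZ hS (fun _ n => n.natAbs) (fun _ => rfl), Finset.sum_pair hxy, hmx, hmy]
        rfl
      refine ⟨m, ?_, ?_, ?_, ?_⟩
      · intro hh
        rw [hh] at hmx
        simp at hmx
      · rw [sum_supZ hS (fun (i : Oz) n => (n : ℝ) * (i.1 : ℝ)) (fun _ => by simp), Finset.sum_pair hxy, hmx, hmy]
        push_cast
        ring
      · rw [hL]
        exact hp
      · rw [hL]
        exact he.add (by decide)
    exact ⟨h1, fun h2 => h ((hsimple h1).2 h2)⟩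
  · rintro ⟨h1, h2⟩ h3
    exact h2 ((hsimple h1).1 h3)

section

variable {ι : Type} {w : ι → ℝ}

theorem Mk_even (K : ℕ) : Mk w (2 * K) = (2 * K).factorial * ∑' n : Dg ι K, Tr w n.1 ^ 2 := by
  unfold Mk
  congr 1
  exact (Equiv.subtypeEquivRight (fun n : ι →₀ ℕ => by
    constructor
    · intro h
      omega
    · intro h
      rw [h])).tsum_eq (fun n : Dg ι K => Tr w n.1 ^ 2)

theorem sq_summable (hw : ∀ i, 0 < w i) (hs : Summable w) (K : ℕ) : Summable fun n : Dg ι K => Tr w n.1 ^ 2 := by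
  have h1 := Tr_summable hw hs K
  refine Summable.of_nonneg_of_le (fun n => sq_nonneg _) (fun n => ?_) (h1.mul_left (∑' n : Dg ι K, Tr w n.1))
  have h2 := h1.le_tsum n fun k _ => (Tr_pos hw _).le
  have h3 := Tr_pos hw n.1
  rw [sq]
  gcongr

end

end Run7.h278.LG
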