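import Pool.Agent.Run7.h278.LG.DirSd2
import Pool.Agent.Run7.h278.LG.Zt

set_option autoImplicit false

/-!
# Second differences for the Riemann zeta function
-/

namespace Run7.h278.LG

open Filter Topology MeasureTheory Set DirichletCharacter Run7.h278.LM Run7.h278.WL
open scoped ENNReal

section

variable {q : ℕ} [NeZero q] {J : Type} [Fintype J] {χ : J → DirichletCharacter ℂ q}

/-- the consequences of the formula for the mean square -/
theorem dir_W (hp : ∀ j, (χ j).IsPrimitive) (W : ℝ → ℝ≥0∞)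
    (h0 : GRHD χ → Summable fun t : TSD χ => oD χ (fun _ => 1) t / (1 / 4 + (t : ℝ) ^ 2)) (hW2 : ∀ h : ℝ, 0 < h → (W h < ⊤ ↔ GRHD χ))
    (hW3 : ∀ h : ℝ, 0 < h → GRHD χ →
      W h = ENNReal.ofReal (∑' t : TSD χ, 32 * Real.sin (t * h / 2) ^ 4 * (oD χ (fun _ => 1) t / (1 / 4 + (t : ℝ) ^ 2)) ^ 2)) :
    (∀ ε : ℝ, 0 < ε → ∀ᶠ h in 𝓝[>] (0 : ℝ), ENNReal.ofReal ((2 / 3 * Fintype.card J - ε) * (h ^ 3 * Real.log (1 / h))) ≤ W h) ∧
    (∀ ε : ℝ, 0 < ε → ∀ᶠ h in 𝓝[>] (0 : ℝ), ENNReal.ofReal ((2 / 3 * Fintype.card J + 16 / Real.pi ^ 4 *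
      ∑ j, (1 - (H370.Ns (LFunction (χ j)) (Real.pi / (4 * h)) (2 * (Real.pi / (4 * h))) : ℝ) /
        H370.NN (LFunction (χ j)) (Real.pi / (4 * h)) (2 * (Real.pi / (4 * h)))) - ε) * (h ^ 3 * Real.log (1 / h))) ≤ W h) ∧
    (∀ ε : ℝ, 0 < ε → ∀ᶠ h in 𝓝[>] (0 : ℝ), ENNReal.ofReal ((2 / 3 * Fintype.card J + 32 / Real.pi ^ 4 *
      ∑ j, (1 - (H370.Nd (LFunction (χ j)) (Real.pi / (4 * h)) (2 * (Real.pi / (4 * h))) : ℝ) /
        H370.NN (LFunction (χ j)) (Real.pi / (4 * h)) (2 * (Real.pi / (4 * h)))) - ε) * (h ^ 3 * Real.log (1 / h))) ≤ W h) ∧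
    ((∀ ε : ℝ, 0 < ε → ∀ᶠ h in 𝓝[>] (0 : ℝ), W h ≤ ENNReal.ofReal ((2 / 3 * Fintype.card J + ε) * (h ^ 3 * Real.log (1 / h)))) ↔
      GRHD χ ∧ Tendsto (fun y => Bt (TSD χ) (fun t => oD χ (fun _ => 1) t ^ 2 - oD χ (fun _ => 1) t) y / (y * Real.log y)) atTop (𝓝 0)) ∧
    ∀ η : ℝ, 0 ≤ η → (∀ᶠ h in 𝓝[>] (0 : ℝ), W h ≤ ENNReal.ofReal ((2 / 3 * Fintype.card J + η) * (h ^ 3 * Real.log (1 / h)))) →
      GRHD χ ∧ ∀ j, ∀ ε : ℝ, 0 < ε → ∀ᶠ y in atTop,
        (1 - Real.pi ^ 4 / 16 * η - ε) * (H370.NN (LFunction (χ j)) y (2 * y) : ℝ) ≤ H370.Ns (LFunction (χ j)) y (2 * y) ∧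
        (1 - Real.pi ^ 4 / 32 * η - ε) * (H370.NN (LFunction (χ j)) y (2 * y) : ℝ) ≤ H370.Nd (LFunction (χ j)) y (2 * y) := by
  have hpi := Real.pi_pos
  have hGc : Fintype.card J / (2 * Real.pi) * Gc = 2 / 3 * Fintype.card J := by
    rw [Gc_eq]
    field_simp
    ring
  have hfin : ∀ M : ℝ, (∀ᶠ h in 𝓝[>] (0 : ℝ), W h ≤ ENNReal.ofReal (M * (h ^ 3 * Real.log (1 / h)))) → GRHD χ := by
    intro M h
    obtain ⟨x, hx⟩ := (h.and self_mem_nhdsWithin).exists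
    exact (hW2 x hx.2).1 (hx.1.trans_lt ENNReal.ofReal_lt_top)
  have hks : ∀ h : ℝ, 0 < h → GRHD χ → W h = ENNReal.ofReal (KS (TSD χ) (fun t => oD χ (fun _ => 1) t ^ 2) h) := by
    intro h hh hG
    rw [hW3 h hh hG]
    unfold KS
    congr 1
    refine tsum_congr fun t => ?_
    rw [div_pow]
  have htop : ¬GRHD χ → ∀ h : ℝ, 0 < h → W h = ⊤ := by
    intro hG h hh
    by_contra hc
    exact hG ((hW2 h hh).1 (lt_top_iff_ne_top.2 hc))
  have hcm : GRHD χ → Cm (TSD χ) (oD χ (fun _ => 1)) := fun hG => dir_cm hp (h0 hG)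
  have hup : ∀ M : ℝ, 0 ≤ M → GRHD χ → ((∀ᶠ h in 𝓝[>] (0 : ℝ), W h ≤ ENNReal.ofReal (M * (h ^ 3 * Real.log (1 / h)))) ↔
      ∀ᶠ h in 𝓝[>] (0 : ℝ), KS (TSD χ) (fun t => oD χ (fun _ => 1) t ^ 2) h ≤ M * (h ^ 3 * Real.log (1 / h))) := by
    intro M hM hG
    refine eventually_congr ?_
    filter_upwards [log_pos_ev, self_mem_nhdsWithin] with h h1 h2
    rw [hks h h2 hG, ENNReal.ofReal_le_ofReal_iff (mul_nonneg hM h1.le)]
  refine ⟨fun ε hε => ?_, fun ε hε => ?_, fun ε hε => ?_, ⟨fun h => ?_, fun h ε hε => ?_⟩, fun η hη h => ?_⟩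
  · by_cases hG : GRHD χ
    · have h1 := (hcm hG).lower (dir_count hp hG (hcm hG)) hε
      filter_upwards [h1, self_mem_nhdsWithin] with h h1 h2
      rw [hks h h2 hG]
      rw [hGc] at h1
      exact ENNReal.ofReal_le_ofReal h1
    · filter_upwards [self_mem_nhdsWithin] with h h2
      rw [htop hG h h2]
      exact le_top
  · by_cases hG : GRHD χ
    · have h1 := dir_local hp hG (hcm hG) (fun j y => (H370.Ns (LFunction (χ j)) y (2 * y) : ℝ)) (fun a => (a : ℝ) - (if a = 1 then 1 else 0))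
        (c := 1) one_pos (fun a => (w_facts a).1) (fun a => (w_facts a).2.2.1) (fun a => by
          rw [one_mul]
          exact (nat_ineq le_rfl ⟨a, rfl⟩).1) (fun j y hy A hA => by
          obtain ⟨n1, -, n3⟩ := NN_A (H370.good_dirichlet (χ j) (hp j)) (fun s h1 h2 h3 => hG j s h1 h2 h3) (show (0 : ℝ) ≤ y by linarith) (fun t ht => ((hA t).1 ht).2)
            (fun t h1 h2 h3 => (hA t).2 ⟨⟨by linarith, j, h3⟩, h1, h2⟩)
          rw [n1, n3]
          push_cast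
          rw [← Finset.sum_sub_distrib]) hε
      filter_upwards [h1, self_mem_nhdsWithin] with h h1 h2
      rw [hks h h2 hG]
      rw [one_mul] at h1
      exact ENNReal.ofReal_le_ofReal h1
    · filter_upwards [self_mem_nhdsWithin] with h h2
      rw [htop hG h h2]
      exact le_top
  · by_cases hG : GRHD χ
    · have h1 := dir_local hp hG (hcm hG) (fun j y => (H370.Nd (LFunction (χ j)) y (2 * y) : ℝ)) (fun a => (a : ℝ) - (if a ≠ 0 then 1 else 0))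
        (c := 1 / 2) (by norm_num) (fun a => (w_facts a).2.1) (fun a => (w_facts a).2.2.2) (fun a => (nat_ineq le_rfl ⟨a, rfl⟩).2) (fun j y hy A hA => by
          obtain ⟨n1, n2, -⟩ := NN_A (H370.good_dirichlet (χ j) (hp j)) (fun s h1 h2 h3 => hG j s h1 h2 h3) (show (0 : ℝ) ≤ y by linarith) (fun t ht => ((hA t).1 ht).2)
            (fun t h1 h2 h3 => (hA t).2 ⟨⟨by linarith, j, h3⟩, h1, h2⟩)
          rw [n1, n2]
          push_cast
          rw [← Finset.sum_sub_distrib]) hε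
      filter_upwards [h1, self_mem_nhdsWithin] with h h1 h2
      rw [hks h h2 hG]
      rw [show 16 / (1 / 2 * Real.pi ^ 4) = 32 / Real.pi ^ 4 by
        have := Real.pi_pos
        field_simp
        norm_num] at h1
      exact ENNReal.ofReal_le_ofReal h1
    · filter_upwards [self_mem_nhdsWithin] with h h2
      rw [htop hG h h2]
      exact le_top
  · have hG := hfin _ (h 1 one_pos)
    refine ⟨hG, ((hcm hG).iff (dir_count hp hG (hcm hG))).1 fun ε hε => ?_⟩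
    rw [hGc]
    exact (hup _ (by positivity) hG).1 (h ε hε)
  · obtain ⟨hG, h⟩ := h
    refine (hup _ (by positivity) hG).2 ?_
    have h1 := ((hcm hG).iff (dir_count hp hG (hcm hG))).2 h ε hε
    rwa [hGc] at h1
  · have hG := hfin _ h
    refine ⟨hG, fun j ε hε => ?_⟩
    refine dir_simple hp hG (hcm hG) (fun ε hε => ?_) j hε
    refine (hcm hG).upper (dir_count hp hG (hcm hG)) ?_ hε
    rw [hGc]
    exact (hup _ (by positivity) hG).1 h

end

/-- the trivial character modulo `1` -/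
noncomputable def chi1 : Unit → DirichletCharacter ℂ 1 := fun _ => 1

/-- the ordinates of the zeros on the critical line -/
def TZ : Set ℝ := {t : ℝ | 0 < t ∧ riemannZeta (1 / 2 + Complex.I * t) = 0}

theorem L_one : LFunction (1 : DirichletCharacter ℂ 1) = riemannZeta := LFunction_modOne_eq

theorem TSD_one : TSD chi1 = TZ := by
  ext t
  unfold TSD TZ chi1
  simp only [Set.mem_ofPred_eq]
  refine and_congr_right fun _ => ?_
  rw [L_one, mul_comm Complex.I]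
  constructor
  · rintro ⟨-, h⟩
    exact h
  · intro h
    exact ⟨(), h⟩

theorem oD_one (t : ℝ) : oD chi1 (fun _ => 1) t = WL.mt t := by
  unfold oD chi1 WL.mt
  rw [L_one, mul_comm Complex.I]
  simp

theorem GRHD_one : GRHD chi1 ↔ RiemannHypothesis := by
  unfold GRHD chi1
  rw [L_one]
  constructor
  · intro h
    by_contra hRH
    obtain ⟨ρ, h1, h2'⟩ := LM.off_zero hRH
    have h2 : riemannZeta ρ = 0 := by
      have hne : ρ ≠ 1 := fun h => by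
        rw [h, hz_one] at h2'
        exact one_ne_zero h2'
      rw [hz_ne hne] at h2'
      exact (mul_eq_zero.1 h2').resolve_left (sub_ne_zero.2 hne)
    have h3 : ρ.re < 1 := by
      by_contra hc
      exact riemannZeta_ne_zero_of_one_le_re (not_lt.1 hc) h2
    have h4 := h () ρ (by linarith) h3 h2
    linarith
  · intro h _ s h1 h2 h3
    refine h s h3 ?_ ?_
    · rintro ⟨n, rfl⟩
      have h4 : (-2 * ((n : ℂ) + 1)).re = -2 * ((n : ℝ) + 1) := by simp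
      rw [h4] at h1
      have : (0 : ℝ) ≤ n := Nat.cast_nonneg n
      linarith
    · rintro rfl
      simp at h2

/-- **The mean square of the second difference for zeta.** -/
theorem zeta_sd0 {h : ℝ} (hh : 0 < h) :
    ∃ L : ℝ≥0∞, Tendsto (VM aa h) (𝓝[>] 0) (𝓝 L) ∧ (L < ⊤ ↔ RiemannHypothesis) ∧
      (RiemannHypothesis → (Summable fun t : TZ => (WL.mt t : ℝ) / (1 / 4 + (t : ℝ) ^ 2)) ∧
        L = ENNReal.ofReal (∑' t : TZ, 32 * Real.sin (t * h / 2) ^ 4 * ((WL.mt t : ℝ) / (1 / 4 + (t : ℝ) ^ 2)) ^ 2)) := by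
  by_cases hRH : RiemannHypothesis
  · obtain ⟨B, hB⟩ := nrZ hRH
    set e : TZ ≃ TI := Equiv.subtypeEquivRight fun t => by
      show 0 < t ∧ riemannZeta (1 / 2 + Complex.I * t) = 0 ↔ _
      rw [Z_zero_iff] with he
    have w1 : ∀ t : TZ, 0 < (WL.mt t : ℝ) / (1 / 4 + (t : ℝ) ^ 2) := fun t => WW_pos (e t)
    have s1 : Summable fun t : TZ => (WL.mt t : ℝ) / (1 / 4 + (t : ℝ) ^ 2) := e.summable_iff.2 WW_summable
    have hF : FFz = fun u => 0 + FI (fun t : TZ => (fun t : ℝ => (WL.mt t : ℝ) / (1 / 4 + t ^ 2)) t) (fun t : TZ => (t : ℝ)) u := by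
      funext u
      rw [zero_add]
      exact (e.tsum_eq (fun t : TI => 2 * WW t * Real.cos (t * u))).symm
    rw [hF] at hB
    have hD := hB.dd hh
    have h5 := hD.comp (φ := fun x => x ^ 2) (by fun_prop)
      (Dd2_mean (T := TZ) (W := fun t => (WL.mt t : ℝ) / (1 / 4 + t ^ 2)) (fun t ht => ht.1) w1 s1 0 hh)
    refine ⟨_, ?_, ⟨fun _ => hRH, fun _ => ENNReal.ofReal_lt_top⟩, fun _ => ⟨s1, rfl⟩⟩
    refine (ENNReal.tendsto_ofReal h5).congr' ?_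
    filter_upwards [self_mem_nhdsWithin] with δ hδ
    exact (hD.lint (φ := fun x => x ^ 2) (by fun_prop) (fun x => sq_nonneg x) hδ).symm
  · obtain ⟨δ₀, h0, h1⟩ := noZ hRH
    refine ⟨⊤, ?_, ⟨fun h => absurd h (lt_irrefl _), fun h => absurd h hRH⟩, fun h => absurd h hRH⟩
    refine tendsto_const_nhds.congr' ?_
    have h2 : ∀ᶠ δ in 𝓝[>] (0 : ℝ), δ < δ₀ := eventually_nhdsWithin_of_eventually_nhds (eventually_lt_nhds h0)
    filter_upwards [h2, self_mem_nhdsWithin] with δ h2 h3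
    exact (VM_top aa_cont aa_cont (K' := 0) (fun u _ => by simp) h3 hh (h1 δ h3 h2)).symm

/-- **Second differences and simple zeros of zeta.** -/
theorem zeta_sd :
    ∃ W : ℝ → ℝ≥0∞, (∀ h : ℝ, 0 < h → Tendsto (VM aa h) (𝓝[>] 0) (𝓝 (W h)) ∧ (W h < ⊤ ↔ RiemannHypothesis) ∧
        (RiemannHypothesis → W h = ENNReal.ofReal (∑' t : TZ, 32 * Real.sin (t * h / 2) ^ 4 * ((WL.mt t : ℝ) / (1 / 4 + (t : ℝ) ^ 2)) ^ 2))) ∧
      (∀ ε : ℝ, 0 < ε → ∀ᶠ h in 𝓝[>] (0 : ℝ), ENNReal.ofReal ((2 / 3 - ε) * (h ^ 3 * Real.log (1 / h))) ≤ W h) ∧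
      (∀ ε : ℝ, 0 < ε → ∀ᶠ h in 𝓝[>] (0 : ℝ), ENNReal.ofReal ((2 / 3 + 16 / Real.pi ^ 4 *
        (1 - (H370.Ns riemannZeta (Real.pi / (4 * h)) (2 * (Real.pi / (4 * h))) : ℝ) /
          H370.NN riemannZeta (Real.pi / (4 * h)) (2 * (Real.pi / (4 * h)))) - ε) * (h ^ 3 * Real.log (1 / h))) ≤ W h) ∧
      (∀ ε : ℝ, 0 < ε → ∀ᶠ h in 𝓝[>] (0 : ℝ), ENNReal.ofReal ((2 / 3 + 32 / Real.pi ^ 4 *
        (1 - (H370.Nd riemannZeta (Real.pi / (4 * h)) (2 * (Real.pi / (4 * h))) : ℝ) /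
          H370.NN riemannZeta (Real.pi / (4 * h)) (2 * (Real.pi / (4 * h)))) - ε) * (h ^ 3 * Real.log (1 / h))) ≤ W h) ∧
      ((∀ ε : ℝ, 0 < ε → ∀ᶠ h in 𝓝[>] (0 : ℝ), W h ≤ ENNReal.ofReal ((2 / 3 + ε) * (h ^ 3 * Real.log (1 / h)))) ↔
        RiemannHypothesis ∧ Tendsto (fun y => Bt TZ (fun t => (WL.mt t : ℝ) ^ 2 - WL.mt t) y / (y * Real.log y)) atTop (𝓝 0)) ∧
      ∀ η : ℝ, 0 ≤ η → (∀ᶠ h in 𝓝[>] (0 : ℝ), W h ≤ ENNReal.ofReal ((2 / 3 + η) * (h ^ 3 * Real.log (1 / h)))) →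
        RiemannHypothesis ∧ ∀ ε : ℝ, 0 < ε → ∀ᶠ y in atTop,
          (1 - Real.pi ^ 4 / 16 * η - ε) * (H370.NN riemannZeta y (2 * y) : ℝ) ≤ H370.Ns riemannZeta y (2 * y) ∧
          (1 - Real.pi ^ 4 / 32 * η - ε) * (H370.NN riemannZeta y (2 * y) : ℝ) ≤ H370.Nd riemannZeta y (2 * y) := by
  have h0 : ∀ h : ℝ, 0 < h → _ := fun h hh => zeta_sd0 hh
  choose! W hW1 hW2 hW3 using h0
  refine ⟨W, fun h hh => ⟨hW1 h hh, hW2 h hh, fun hRH => (hW3 h hh hRH).2⟩, ?_⟩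
  have key := dir_W (χ := chi1) (fun _ => isPrimitive_one_level_one) W (fun hG => by
    have h1 := (hW3 1 one_pos (GRHD_one.1 hG)).1
    rw [TSD_one]
    simp_rw [oD_one]
    exact h1) (fun h hh => (hW2 h hh).trans GRHD_one.symm) (fun h hh hG => by
    rw [(hW3 h hh (GRHD_one.1 hG)).2, TSD_one]
    simp_rw [oD_one])
  rw [TSD_one, GRHD_one] at key
  simp_rw [oD_one] at key
  have hc : (Fintype.card Unit : ℝ) = 1 := by simp
  rw [hc, mul_one] at key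
  simp only [chi1, L_one, Finset.univ_unique, Finset.sum_singleton] at key
  obtain ⟨k1, k2, k3, k4, k5⟩ := key
  exact ⟨k1, k2, k3, k4, fun η hη h => ⟨(k5 η hη h).1, (k5 η hη h).2 ()⟩⟩

end Run7.h278.LG
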