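import Pool.Agent.Run7.h278.LG.Rate
import Pool.Agent.Run7.h278.LG.ZetaSd

set_option autoImplicit false

/-!
# The rate of convergence of the moments for the Riemann zeta function
-/

namespace Run7.h278.LG

open Filter Topology MeasureTheory Set Run7.h278.LM Run7.h278.WL
open scoped ENNReal

section

variable {T : Set ℝ} {m : ℝ → ℝ}

/-- the tail of the sum of the weights -/
theorem Cm.tail (cm : Cm T m) {C : ℝ} (hC : 0 ≤ C) (hb : ∀ y, 0 < y → Bt T m y ≤ C * y * (1 + Real.log (1 + y))) {X : ℝ} (hX : 1 ≤ X) :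
    (∑' t : T, if (t : ℝ) ≤ X then 0 else m t / (1 / 4 + (t : ℝ) ^ 2)) ≤ 24 * C * X ^ (-(1 / 2) : ℝ) := by
  have hw : ∀ t : T, 0 ≤ m t / (1 / 4 + (t : ℝ) ^ 2) := fun t => by
    have := cm.one t
    positivity
  set tl : ℝ → ℝ := fun X => ∑' t : T, if (t : ℝ) ≤ X then 0 else m t / (1 / 4 + (t : ℝ) ^ 2) with htl
  have hsm : ∀ X : ℝ, Summable fun t : T => if (t : ℝ) ≤ X then 0 else m t / (1 / 4 + (t : ℝ) ^ 2) := fun X =>
    Summable.of_nonneg_of_le (fun t => by
      split_ifs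
      · exact le_refl 0
      · exact hw t) (fun t => by
      split_ifs
      · exact hw t
      · exact le_refl _) cm.sum
  have hstep : ∀ X : ℝ, 1 ≤ X → tl X - tl (2 * X) ≤ 6 * C * X ^ (-(1 / 2) : ℝ) := by
    intro X hX
    have hX0 : 0 < X := by linarith
    have h1 : tl X - tl (2 * X) ≤ 1 / X ^ 2 * Bt T m (2 * X) := by
      rw [htl]
      simp only
      unfold Bt
      rw [← (hsm X).tsum_sub (hsm (2 * X)), ← tsum_mul_left]
      refine Summable.tsum_le_tsum (fun t => ?_) ((hsm X).sub (hsm (2 * X))) ((cm.ct.sm (2 * X)).mul_left _)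
      have h1m := cm.one t
      by_cases a1 : (t : ℝ) ≤ X
      · rw [if_pos a1, if_pos (by linarith), if_pos (by linarith), sub_self]
        positivity
      · rw [if_neg a1]
        by_cases a2 : (t : ℝ) ≤ 2 * X
        · rw [if_pos a2, if_pos a2, sub_zero, div_mul_eq_mul_div, one_mul]
          refine div_le_div_of_nonneg_left (by linarith) (by positivity) ?_
          have := not_le.1 a1
          nlinarith
        · rw [if_neg a2, if_neg a2, sub_self, mul_zero]
    have h2 := hb (2 * X) (by linarith)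
    have h3 : 1 + Real.log (1 + 2 * X) ≤ 3 * X ^ (1 / 2 : ℝ) := by
      have h4 : Real.log (1 + 2 * X) ≤ Real.log 3 + Real.log X := by
        rw [← Real.log_mul (by norm_num) hX0.ne']
        exact Real.log_le_log (by linarith) (by linarith)
      have h5 : Real.log X ≤ 2 * (X ^ (1 / 2 : ℝ) - 1) := by
        have h6 : Real.log X = 2 * Real.log (X ^ (1 / 2 : ℝ)) := by
          rw [Real.log_rpow hX0]
          ring
        have h7 := Real.log_le_sub_one_of_pos (show 0 < X ^ (1 / 2 : ℝ) by positivity)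
        linarith
      have h6 : Real.log 3 ≤ 2 := by
        have := Real.log_le_sub_one_of_pos (show (0 : ℝ) < 3 by norm_num)
        linarith
      have h7 : 1 ≤ X ^ (1 / 2 : ℝ) := Real.one_le_rpow hX (by norm_num)
      linarith
    have h4 : 1 / X ^ 2 * (C * (2 * X) * (3 * X ^ (1 / 2 : ℝ))) = 6 * C * X ^ (-(1 / 2) : ℝ) := by
      have h5 : X ^ (-(1 / 2) : ℝ) = X ^ (1 / 2 : ℝ) / X := by
        rw [eq_div_iff hX0.ne']
        calc X ^ (-(1 / 2) : ℝ) * X = X ^ (-(1 / 2) : ℝ) * X ^ (1 : ℝ) := by rw [Real.rpow_one]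
          _ = X ^ (-(1 / 2) + 1 : ℝ) := (Real.rpow_add hX0 _ _).symm
          _ = X ^ (1 / 2 : ℝ) := by norm_num
      rw [h5]
      field_simp
      ring
    rw [← h4]
    refine h1.trans (mul_le_mul_of_nonneg_left (h2.trans ?_) (by positivity))
    exact mul_le_mul_of_nonneg_left h3 (by positivity)
  have hE : ∀ n : ℕ, tl X - 24 * C * X ^ (-(1 / 2) : ℝ) ≤ tl (2 ^ n * X) := by
    have h1 : ∀ X : ℝ, 1 ≤ X → tl X - 24 * C * X ^ (-(1 / 2) : ℝ) ≤ tl (2 * X) - 24 * C * (2 * X) ^ (-(1 / 2) : ℝ) := by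
      intro X hX
      have hX0 : 0 < X := by linarith
      have h2 := hstep X hX
      have h3 : (2 * X) ^ (-(1 / 2) : ℝ) ≤ 3 / 4 * X ^ (-(1 / 2) : ℝ) := by
        rw [Real.mul_rpow (by norm_num) hX0.le]
        refine mul_le_mul_of_nonneg_right ?_ (by positivity)
        rw [Real.rpow_neg (by norm_num), ← Real.sqrt_eq_rpow, inv_le_comm₀ (by positivity) (by norm_num)]
        refine Real.le_sqrt_of_sq_le ?_
        norm_num
      nlinarith [mul_le_mul_of_nonneg_left h3 hC]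
    have h2 : ∀ n : ℕ, tl X - 24 * C * X ^ (-(1 / 2) : ℝ) ≤ tl (2 ^ n * X) - 24 * C * (2 ^ n * X) ^ (-(1 / 2) : ℝ) := by
      intro n
      induction n with
      | zero => simp
      | succ n ih =>
        have h3 : (1 : ℝ) ≤ 2 ^ n * X := by
          have : (1 : ℝ) ≤ 2 ^ n := one_le_pow₀ (by norm_num)
          nlinarith
        have h4 := h1 (2 ^ n * X) h3
        rw [show 2 * (2 ^ n * X) = 2 ^ (n + 1) * X by ring] at h4
        exact ih.trans h4
    intro n
    have h3 : (0 : ℝ) ≤ (2 ^ n * X) ^ (-(1 / 2) : ℝ) := by positivity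
    have h4 := h2 n
    have h5 : 0 ≤ 24 * C * (2 ^ n * X) ^ (-(1 / 2) : ℝ) := by positivity
    linarith
  have hlim : Tendsto tl atTop (𝓝 0) := by
    have h1 : Tendsto tl atTop (𝓝 (∑' _ : T, (0 : ℝ))) := by
      refine tendsto_tsum_of_dominated_convergence cm.sum (fun t => ?_) (Eventually.of_forall fun X t => ?_)
      · refine tendsto_const_nhds.congr' ?_
        filter_upwards [eventually_ge_atTop (t : ℝ)] with X hX
        rw [if_pos hX]
      · rw [Real.norm_eq_abs]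
        split_ifs
        · rw [abs_zero]
          exact hw t
        · rw [abs_of_nonneg (hw t)]
    rwa [tsum_zero] at h1
  have h2 : Tendsto (fun n : ℕ => tl (2 ^ n * X)) atTop (𝓝 0) :=
    hlim.comp ((tendsto_pow_atTop_atTop_of_one_lt (by norm_num)).atTop_mul_const (by linarith))
  have h3 := ge_of_tendsto' h2 hE
  linarith

end

/-- means of close functions -/
theorem Am_close {f g : ℝ → ℝ} (hf : Continuous f) (hg : Continuous g) {B M : ℝ} (hfB : ∀ u, 0 < u → |f u| ≤ B) (hgB : ∀ u, 0 < u → |g u| ≤ B)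
    (h : ∀ u, 0 < u → |f u - g u| ≤ M * Real.exp (-u / 2)) {δ : ℝ} (hδ : 0 < δ) : |Am f δ - Am g δ| ≤ 2 * |M| * δ := by
  have h1 := Am_int hf.continuousOn hfB hδ
  have h2 := Am_int hg.continuousOn hgB hδ
  unfold Am
  rw [← mul_sub, ← integral_sub h1 h2, abs_mul, abs_of_pos hδ]
  have h3 : ‖∫ u in Ioi (0 : ℝ), (Real.exp (-δ * u) * f u - Real.exp (-δ * u) * g u)‖ ≤ ∫ u in Ioi (0 : ℝ), |M| * Real.exp (-(1 / 2) * u) := by
    refine norm_integral_le_of_norm_le ((integrableOn_exp_mul_Ioi (a := -(1 / 2)) (by norm_num) 0).const_mul _) ?_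
    refine (ae_restrict_mem measurableSet_Ioi).mono fun u hu => ?_
    have hu0 : (0 : ℝ) < u := hu
    rw [← mul_sub, norm_mul, Real.norm_eq_abs, Real.norm_eq_abs, abs_of_pos (Real.exp_pos _)]
    have h4 : Real.exp (-δ * u) ≤ 1 := by
      rw [Real.exp_le_one_iff]
      nlinarith
    have h5 : |f u - g u| ≤ |M| * Real.exp (-(1 / 2) * u) := by
      refine (h u hu0).trans ?_
      rw [show -(1 / 2) * u = -u / 2 by ring]
      exact mul_le_mul_of_nonneg_right (le_abs_self M) (Real.exp_pos _).le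
    calc Real.exp (-δ * u) * |f u - g u| ≤ 1 * (|M| * Real.exp (-(1 / 2) * u)) := mul_le_mul h4 h5 (abs_nonneg _) zero_le_one
      _ = _ := one_mul _
  have h4 : ∫ u in Ioi (0 : ℝ), |M| * Real.exp (-(1 / 2) * u) = |M| * 2 := by
    rw [integral_const_mul, integral_exp_mul_Ioi (by norm_num)]
    simp
  rw [h4, Real.norm_eq_abs] at h3
  nlinarith [mul_le_mul_of_nonneg_left h3 hδ.le]

theorem pow_close {a b B : ℝ} (ha : |a| ≤ B) (hb : |b| ≤ B) (n : ℕ) : |a ^ n - b ^ n| ≤ n * B ^ (n - 1) * |a - b| := by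
  have hB : 0 ≤ B := (abs_nonneg a).trans ha
  induction n with
  | zero => simp
  | succ n ih =>
    have h1 : a ^ (n + 1) - b ^ (n + 1) = a * (a ^ n - b ^ n) + b ^ n * (a - b) := by ring
    rw [h1]
    refine (abs_add_le _ _).trans ?_
    rw [abs_mul, abs_mul, abs_pow, Nat.add_sub_cancel]
    have h2 : |a| * |a ^ n - b ^ n| ≤ B * (n * B ^ (n - 1) * |a - b|) := mul_le_mul ha ih (abs_nonneg _) hB
    have h3 : B * (n * B ^ (n - 1) * |a - b|) = n * B ^ n * |a - b| := by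
      rcases Nat.eq_zero_or_pos n with h | h
      · rw [h]
        simp
      · have : B ^ n = B * B ^ (n - 1) := by
          rw [← pow_succ']
          congr 1
          omega
        rw [this]
        ring
    have h4 : |b| ^ n * |a - b| ≤ B ^ n * |a - b| := mul_le_mul_of_nonneg_right (pow_le_pow_left₀ (abs_nonneg _) hb n) (abs_nonneg _)
    push_cast
    linarith

/-- converges with a power rate to a finite limit -/
def PowerRate (V : ℝ → ℝ≥0∞) : Prop := ∃ L c C : ℝ, 0 < c ∧ ∀ δ : ℝ, 0 < δ → δ < 1 → V δ < ⊤ ∧ |(V δ).toReal - L| ≤ C * δ ^ c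

theorem cmZ (hRH : RiemannHypothesis) : Cm TZ (fun t => (WL.mt t : ℝ)) ∧
    ∃ C : ℝ, 0 ≤ C ∧ ∀ y, 0 < y → Bt TZ (fun t => (WL.mt t : ℝ)) y ≤ C * y * (1 + Real.log (1 + y)) := by
  have hG := GRHD_one.2 hRH
  obtain ⟨L, -, -, h⟩ := zeta_sd0 one_pos
  have e : oD chi1 (fun _ => 1) = fun t => (WL.mt t : ℝ) := funext oD_one
  have hs := (h hRH).1
  have cm : Cm (TSD chi1) (oD chi1 (fun _ => 1)) := dir_cm (fun _ => DirichletCharacter.isPrimitive_one_level_one) (by
    rw [TSD_one, e]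
    exact hs)
  have hl := dir_count (χ := chi1) (fun _ => DirichletCharacter.isPrimitive_one_level_one) hG cm
  rw [TSD_one, e] at cm hl
  exact ⟨cm, cm.ct.bd hl⟩

/-- **The rate of convergence for zeta.** -/
theorem zeta_rate {K : ℕ} (hK : 1 ≤ K) : PowerRate (PM aa 0 K) ↔ RiemannHypothesis ∧ EffY (tt fun t : TZ => (t : ℝ)) (2 * K) := by
  classical
  by_cases hRH : RiemannHypothesis
  swap
  · refine ⟨fun h => ?_, fun h => absurd h.1 hRH⟩
    exfalso
    obtain ⟨L, c, C, hc, h⟩ := h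
    obtain ⟨δ₀, h0, h1⟩ := noZ hRH
    set δ := min (δ₀ / 2) (1 / 2) with hδ
    have hδ0 : 0 < δ := by positivity
    have hδ1 : δ < 1 := (min_le_right _ _).trans_lt (by norm_num)
    have hδ2 : δ < δ₀ := (min_le_left _ _).trans_lt (by linarith)
    have h2 := pow_top aa_cont aa_cont (K' := 0) (fun u _ => by simp) hδ0 (h1 δ hδ0 hδ2) 0 hK
    exact absurd h2 (h δ hδ0 hδ1).1.ne
  obtain ⟨cm, Cb, hCb, hbd⟩ := cmZ hRH
  obtain ⟨M, hM, hnear⟩ := aa_near hRH
  obtain ⟨B, hB, hFB, haB⟩ := aa_bdd hRH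
  obtain ⟨t0, ht0, ht⟩ := cm.ct.t0
  set w : TZ → ℝ := fun t => (WL.mt t : ℝ) / (1 / 4 + (t : ℝ) ^ 2) with hw
  have w1 : ∀ t : TZ, 0 < w t := fun t => by
    have h1 : (1 : ℝ) ≤ WL.mt t := cm.one t
    rw [hw]
    simp only
    positivity
  have s1 : Summable w := cm.sum
  set e : TZ ≃ TI := Equiv.subtypeEquivRight fun t => by
    show 0 < t ∧ riemannZeta (1 / 2 + Complex.I * t) = 0 ↔ _
    rw [Z_zero_iff] with he
  have hF : FFz = FI w (fun t : TZ => (t : ℝ)) := by
    funext u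
    exact (e.tsum_eq (fun t : TI => 2 * WW t * Real.cos (t * u))).symm
  have x0 := xx_pos w1
  have xs := xx_sum s1
  have hrep : ∀ u : ℝ, HasSum (fun y => (xx w y : ℂ) * Complex.exp (Complex.I * tt (fun t : TZ => (t : ℝ)) y * u)) (FFz u : ℂ) := by
    intro u
    rw [hF, ← FI_rep (fun t : TZ => (t : ℝ)) w1 s1 u]
    refine Summable.hasSum ?_
    rw [← summable_norm_iff]
    refine (xx_sum s1).congr fun y => ?_
    rw [norm_mul, LM.norm_I, Complex.norm_real, Real.norm_eq_abs, abs_of_pos (xx_pos w1 y), mul_one]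
  have habs : ∀ y : TZ ⊕ TZ, |tt (fun t : TZ => (t : ℝ)) y| = Sum.elim (fun t : TZ => (t : ℝ)) (fun t : TZ => (t : ℝ)) y := by
    rintro (t | t)
    · exact abs_of_pos t.2.1
    · show |-(t : ℝ)| = t
      rw [abs_neg]
      exact abs_of_pos t.2.1
  set cw : ℝ := 4 / 5 with hcw
  have hlow : ∀ (y : TZ ⊕ TZ) (X : ℝ), 1 ≤ X → |tt (fun t : TZ => (t : ℝ)) y| ≤ X → cw * X ^ (-2 : ℝ) ≤ xx w y := by
    intro y X hX hy
    have hX0 : 0 < X := by linarith
    have key : ∀ t : TZ, (t : ℝ) ≤ X → cw * X ^ (-2 : ℝ) ≤ w t := by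
      intro t ht
      have h1 : (1 : ℝ) ≤ WL.mt t := cm.one t
      have h2 : (0 : ℝ) < t := t.2.1
      rw [hw, hcw, show (-2 : ℝ) = -((2 : ℕ) : ℝ) by norm_num, Real.rpow_neg hX0.le, Real.rpow_natCast]
      simp only
      rw [← div_eq_mul_inv, div_le_div_iff₀ (by positivity) (by positivity)]
      have h3 : (t : ℝ) ^ 2 ≤ X ^ 2 := by gcongr
      have h4 : 1 ≤ X ^ 2 := one_le_pow₀ hX
      nlinarith
    rw [habs] at hy
    rcases y with t | t
    · exact key t hy
    · exact key t hy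
  have htail : ∀ X : ℝ, 1 ≤ X → ((∑' y, xx w y) - ∑' y, if |tt (fun t : TZ => (t : ℝ)) y| ≤ X then xx w y else 0) ≤ 48 * Cb * X ^ (-(1 / 2) : ℝ) := by
    intro X hX
    have h1 := cm.tail hCb hbd hX
    have hsm : Summable fun t : TZ => if (t : ℝ) ≤ X then w t else 0 :=
      Summable.of_nonneg_of_le (fun t => by
        split_ifs
        · exact (w1 t).le
        · exact le_refl 0) (fun t => by
        split_ifs
        · exact le_refl _
        · exact (w1 t).le) s1
    have a1 : ∑' y, xx w y = (∑' t, w t) + ∑' t, w t := (HasSum.sum (f := xx w) s1.hasSum s1.hasSum).tsum_eq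
    have a2 : (∑' y, if |tt (fun t : TZ => (t : ℝ)) y| ≤ X then xx w y else 0) =
        (∑' t : TZ, if (t : ℝ) ≤ X then w t else 0) + ∑' t : TZ, if (t : ℝ) ≤ X then w t else 0 := by
      refine (HasSum.sum (f := fun y => if |tt (fun t : TZ => (t : ℝ)) y| ≤ X then xx w y else 0) ?_ ?_).tsum_eq
      · refine hsm.hasSum.congr_fun fun t => ?_
        simp only [Function.comp_apply]
        rw [habs]
        rfl
      · refine hsm.hasSum.congr_fun fun t => ?_
        simp only [Function.comp_apply]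
        rw [habs]
        rfl
    have a3 : (∑' t, w t) - (∑' t : TZ, if (t : ℝ) ≤ X then w t else 0) = ∑' t : TZ, if (t : ℝ) ≤ X then 0 else w t := by
      rw [← s1.tsum_sub hsm]
      refine tsum_congr fun t => ?_
      split_ifs
      · exact sub_self _
      · exact sub_zero _
    rw [a1, a2]
    have h2 : (∑' t : TZ, if (t : ℝ) ≤ X then 0 else w t) ≤ 24 * Cb * X ^ (-(1 / 2) : ℝ) := h1
    linarith
  have key := rate_iff x0 xs hrep (2 * K) (show 0 < cw by norm_num) hlow htail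
  -- comparison of the means
  have hclose : ∃ C1 : ℝ, 0 ≤ C1 ∧ ∀ δ : ℝ, 0 < δ → |Am (fun u => aa u ^ (2 * K)) δ - Am (fun u => FFz u ^ (2 * K)) δ| ≤ C1 * δ := by
    refine ⟨2 * |(2 * K : ℕ) * B ^ (2 * K - 1) * M|, by positivity, fun δ hδ => ?_⟩
    refine Am_close (f := fun u => aa u ^ (2 * K)) (g := fun u => FFz u ^ (2 * K)) (B := B ^ (2 * K)) (aa_cont.pow _) (FFz_cont.pow _) (fun u hu => ?_) (fun u _ => ?_) (fun u hu => ?_) hδ
    · rw [abs_pow]
      exact pow_le_pow_left₀ (abs_nonneg _) (haB u hu) _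
    · rw [abs_pow]
      exact pow_le_pow_left₀ (abs_nonneg _) (hFB u) _
    · refine (pow_close (haB u hu) (hFB u) (2 * K)).trans ?_
      refine (mul_le_mul_of_nonneg_left (hnear u hu) (by positivity)).trans (le_of_eq ?_)
      ring
  obtain ⟨C1, hC1, hclose⟩ := hclose
  obtain ⟨B', hNr⟩ := nrZ hRH
  have hV : ∀ δ : ℝ, 0 < δ → PM aa 0 K δ = ENNReal.ofReal (Am (fun u => aa u ^ (2 * K)) δ) := by
    intro δ hδ
    have h1 := hNr.lint (φ := fun x => x ^ (2 * K)) (by fun_prop) (fun x => by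
      rw [pow_mul]
      positivity) hδ
    unfold PM
    simp only [sub_zero]
    exact h1
  have hAnn : ∀ δ : ℝ, 0 < δ → 0 ≤ Am (fun u => aa u ^ (2 * K)) δ := by
    intro δ hδ
    unfold Am
    refine mul_nonneg hδ.le (setIntegral_nonneg measurableSet_Ioi fun u _ => ?_)
    show 0 ≤ Real.exp (-δ * u) * aa u ^ (2 * K)
    rw [pow_mul]
    positivity
  have hLK : Tendsto (Am fun u => FFz u ^ (2 * K)) (𝓝[>] 0) (𝓝 (LK (xx w) (tt fun t : TZ => (t : ℝ)) (2 * K))) :=
    mean_rep (fun f => Finset.prod_pos fun i _ => x0 _) (pi_hasSum (fun y => (x0 y).le) xs (2 * K)).summable (pi_rep x0 xs hrep (2 * K))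
  have hmin : ∀ (c C : ℝ), 0 < c → ∀ δ : ℝ, 0 < δ → δ < 1 → C * δ ^ c + C1 * δ ≤ (|C| + C1) * δ ^ (min c 1) := by
    intro c C hc δ h0 h1
    have a1 : δ ^ c ≤ δ ^ (min c 1) := Real.rpow_le_rpow_of_exponent_ge h0 h1.le (min_le_left _ _)
    have a2 : δ ≤ δ ^ (min c 1) := by
      have := Real.rpow_le_rpow_of_exponent_ge h0 h1.le (min_le_right c 1)
      rwa [Real.rpow_one] at this
    have a3 : C * δ ^ c ≤ |C| * δ ^ (min c 1) :=
      (mul_le_mul_of_nonneg_right (le_abs_self C) (by positivity)).trans (mul_le_mul_of_nonneg_left a1 (abs_nonneg _))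
    have a4 := mul_le_mul_of_nonneg_left a2 hC1
    linarith
  constructor
  · rintro ⟨L, c, C, hc, h⟩
    refine ⟨hRH, key.1 ⟨min c 1, |C| + C1, by positivity, fun δ h0 h1 => ?_⟩⟩
    have hA : ∀ δ : ℝ, 0 < δ → δ < 1 → |Am (fun u => aa u ^ (2 * K)) δ - L| ≤ C * δ ^ c := by
      intro δ h0 h1
      have h2 := (h δ h0 h1).2
      rwa [hV δ h0, ENNReal.toReal_ofReal (hAnn δ h0)] at h2
    have hb : ∀ δ : ℝ, 0 < δ → δ < 1 → |Am (fun u => FFz u ^ (2 * K)) δ - L| ≤ (|C| + C1) * δ ^ (min c 1) := by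
      intro δ h0 h1
      have a1 := hA δ h0 h1
      have a2 := hclose δ h0
      rw [abs_sub_comm] at a2
      have a3 := abs_sub_le (Am (fun u => FFz u ^ (2 * K)) δ) (Am (fun u => aa u ^ (2 * K)) δ) L
      have a4 := hmin c C hc δ h0 h1
      linarith
    have hL : L = LK (xx w) (tt fun t : TZ => (t : ℝ)) (2 * K) := by
      have h2 : Tendsto (fun δ : ℝ => (|C| + C1) * δ ^ (min c 1)) (𝓝[>] 0) (𝓝 0) := by
        have h3 : Tendsto (fun δ : ℝ => δ ^ (min c 1)) (𝓝[>] 0) (𝓝 0) := by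
          have h4 : Tendsto (fun δ : ℝ => δ ^ (min c 1)) (𝓝 0) (𝓝 (0 ^ (min c 1))) :=
            (Real.continuousAt_rpow_const 0 (min c 1) (Or.inr (by positivity))).tendsto
          rw [Real.zero_rpow (by positivity)] at h4
          exact h4.mono_left nhdsWithin_le_nhds
        have h5 := h3.const_mul (|C| + C1)
        rwa [mul_zero] at h5
      have h3 : Tendsto (fun δ : ℝ => Am (fun u => FFz u ^ (2 * K)) δ - L) (𝓝[>] 0) (𝓝 0) := by
        rw [tendsto_zero_iff_norm_tendsto_zero]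
        refine squeeze_zero' (Eventually.of_forall fun _ => norm_nonneg _) ?_ h2
        have h4 : ∀ᶠ δ in 𝓝[>] (0 : ℝ), δ < 1 := eventually_nhdsWithin_of_eventually_nhds (eventually_lt_nhds one_pos)
        filter_upwards [h4, self_mem_nhdsWithin] with δ h4 h5
        exact hb δ h5 h4
      have h6 := h3.add_const L
      simp only [sub_add_cancel, zero_add] at h6
      exact tendsto_nhds_unique h6 hLK
    have h2 := hb δ h0 h1
    rw [hL] at h2
    exact (le_abs_self _).trans h2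
  · rintro ⟨-, h⟩
    obtain ⟨c, C, hc, h⟩ := key.2 h
    refine ⟨LK (xx w) (tt fun t : TZ => (t : ℝ)) (2 * K), min c 1, |C| + C1, by positivity, fun δ h0 h1 => ⟨?_, ?_⟩⟩
    · rw [hV δ h0]
      exact ENNReal.ofReal_lt_top
    · rw [hV δ h0, ENNReal.toReal_ofReal (hAnn δ h0)]
      have a1 := h δ h0 h1
      have a2 := rate_pos x0 xs hrep (2 * K) h0
      have a3 := hclose δ h0
      have a4 := abs_sub_le (Am (fun u => aa u ^ (2 * K)) δ) (Am (fun u => FFz u ^ (2 * K)) δ) (LK (xx w) (tt fun t : TZ => (t : ℝ)) (2 * K))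
      rw [abs_of_nonneg a2] at a4
      have a5 := hmin c C hc δ h0 h1
      linarith

/-- converges with rate `δ^c` to a finite limit -/
def RateAt (V : ℝ → ℝ≥0∞) (c : ℝ) : Prop := ∃ L C : ℝ, ∀ δ : ℝ, 0 < δ → δ < 1 → V δ < ⊤ ∧ |(V δ).toReal - L| ≤ C * δ ^ c

/-- **The rate of convergence for zeta, with exponents.** -/
theorem zeta_rate_exp (hRH : RiemannHypothesis) (K : ℕ) :
    (∀ c : ℝ, 0 < c → c ≤ 1 → RateAt (PM aa 0 K) c → EffYA (tt fun t : TZ => (t : ℝ)) (2 * K) (2 * (2 * K : ℕ) / c)) ∧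
    (∀ A : ℝ, 0 ≤ A → EffYA (tt fun t : TZ => (t : ℝ)) (2 * K) A → RateAt (PM aa 0 K) (1 / (2 * (A + 1)))) := by
  classical
  obtain ⟨cm, Cb, hCb, hbd⟩ := cmZ hRH
  obtain ⟨M, hM, hnear⟩ := aa_near hRH
  obtain ⟨B, hB, hFB, haB⟩ := aa_bdd hRH
  obtain ⟨t0, ht0, ht⟩ := cm.ct.t0
  set w : TZ → ℝ := fun t => (WL.mt t : ℝ) / (1 / 4 + (t : ℝ) ^ 2) with hw
  have w1 : ∀ t : TZ, 0 < w t := fun t => by
    have h1 : (1 : ℝ) ≤ WL.mt t := cm.one t
    rw [hw]
    simp only
    positivity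
  have s1 : Summable w := cm.sum
  set e : TZ ≃ TI := Equiv.subtypeEquivRight fun t => by
    show 0 < t ∧ riemannZeta (1 / 2 + Complex.I * t) = 0 ↔ _
    rw [Z_zero_iff] with he
  have hF : FFz = FI w (fun t : TZ => (t : ℝ)) := by
    funext u
    exact (e.tsum_eq (fun t : TI => 2 * WW t * Real.cos (t * u))).symm
  have x0 := xx_pos w1
  have xs := xx_sum s1
  have hrep : ∀ u : ℝ, HasSum (fun y => (xx w y : ℂ) * Complex.exp (Complex.I * tt (fun t : TZ => (t : ℝ)) y * u)) (FFz u : ℂ) := by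
    intro u
    rw [hF, ← FI_rep (fun t : TZ => (t : ℝ)) w1 s1 u]
    refine Summable.hasSum ?_
    rw [← summable_norm_iff]
    refine (xx_sum s1).congr fun y => ?_
    rw [norm_mul, LM.norm_I, Complex.norm_real, Real.norm_eq_abs, abs_of_pos (xx_pos w1 y), mul_one]
  have habs : ∀ y : TZ ⊕ TZ, |tt (fun t : TZ => (t : ℝ)) y| = Sum.elim (fun t : TZ => (t : ℝ)) (fun t : TZ => (t : ℝ)) y := by
    rintro (t | t)
    · exact abs_of_pos t.2.1
    · show |-(t : ℝ)| = t
      rw [abs_neg]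
      exact abs_of_pos t.2.1
  set cw : ℝ := 4 / 5 with hcw
  have hlow : ∀ (y : TZ ⊕ TZ) (X : ℝ), 1 ≤ X → |tt (fun t : TZ => (t : ℝ)) y| ≤ X → cw * X ^ (-2 : ℝ) ≤ xx w y := by
    intro y X hX hy
    have hX0 : 0 < X := by linarith
    have key : ∀ t : TZ, (t : ℝ) ≤ X → cw * X ^ (-2 : ℝ) ≤ w t := by
      intro t ht
      have h1 : (1 : ℝ) ≤ WL.mt t := cm.one t
      have h2 : (0 : ℝ) < t := t.2.1
      rw [hw, hcw, show (-2 : ℝ) = -((2 : ℕ) : ℝ) by norm_num, Real.rpow_neg hX0.le, Real.rpow_natCast]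
      simp only
      rw [← div_eq_mul_inv, div_le_div_iff₀ (by positivity) (by positivity)]
      have h3 : (t : ℝ) ^ 2 ≤ X ^ 2 := by gcongr
      have h4 : 1 ≤ X ^ 2 := one_le_pow₀ hX
      nlinarith
    rw [habs] at hy
    rcases y with t | t
    · exact key t hy
    · exact key t hy
  have htail : ∀ X : ℝ, 1 ≤ X → ((∑' y, xx w y) - ∑' y, if |tt (fun t : TZ => (t : ℝ)) y| ≤ X then xx w y else 0) ≤ 48 * Cb * X ^ (-(1 / 2) : ℝ) := by
    intro X hX
    have h1 := cm.tail hCb hbd hX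
    have hsm : Summable fun t : TZ => if (t : ℝ) ≤ X then w t else 0 :=
      Summable.of_nonneg_of_le (fun t => by
        split_ifs
        · exact (w1 t).le
        · exact le_refl 0) (fun t => by
        split_ifs
        · exact le_refl _
        · exact (w1 t).le) s1
    have a1 : ∑' y, xx w y = (∑' t, w t) + ∑' t, w t := (HasSum.sum (f := xx w) s1.hasSum s1.hasSum).tsum_eq
    have a2 : (∑' y, if |tt (fun t : TZ => (t : ℝ)) y| ≤ X then xx w y else 0) =
        (∑' t : TZ, if (t : ℝ) ≤ X then w t else 0) + ∑' t : TZ, if (t : ℝ) ≤ X then w t else 0 := by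
      refine (HasSum.sum (f := fun y => if |tt (fun t : TZ => (t : ℝ)) y| ≤ X then xx w y else 0) ?_ ?_).tsum_eq
      · refine hsm.hasSum.congr_fun fun t => ?_
        simp only [Function.comp_apply]
        rw [habs]
        rfl
      · refine hsm.hasSum.congr_fun fun t => ?_
        simp only [Function.comp_apply]
        rw [habs]
        rfl
    have a3 : (∑' t, w t) - (∑' t : TZ, if (t : ℝ) ≤ X then w t else 0) = ∑' t : TZ, if (t : ℝ) ≤ X then 0 else w t := by
      rw [← s1.tsum_sub hsm]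
      refine tsum_congr fun t => ?_
      split_ifs
      · exact sub_self _
      · exact sub_zero _
    rw [a1, a2]
    have h2 : (∑' t : TZ, if (t : ℝ) ≤ X then 0 else w t) ≤ 24 * Cb * X ^ (-(1 / 2) : ℝ) := h1
    linarith
  -- comparison of the means
  have hclose : ∃ C1 : ℝ, 0 ≤ C1 ∧ ∀ δ : ℝ, 0 < δ → |Am (fun u => aa u ^ (2 * K)) δ - Am (fun u => FFz u ^ (2 * K)) δ| ≤ C1 * δ := by
    refine ⟨2 * |(2 * K : ℕ) * B ^ (2 * K - 1) * M|, by positivity, fun δ hδ => ?_⟩
    refine Am_close (f := fun u => aa u ^ (2 * K)) (g := fun u => FFz u ^ (2 * K)) (B := B ^ (2 * K)) (aa_cont.pow _) (FFz_cont.pow _) (fun u hu => ?_) (fun u _ => ?_) (fun u hu => ?_) hδ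
    · rw [abs_pow]
      exact pow_le_pow_left₀ (abs_nonneg _) (haB u hu) _
    · rw [abs_pow]
      exact pow_le_pow_left₀ (abs_nonneg _) (hFB u) _
    · refine (pow_close (haB u hu) (hFB u) (2 * K)).trans ?_
      refine (mul_le_mul_of_nonneg_left (hnear u hu) (by positivity)).trans (le_of_eq ?_)
      ring
  obtain ⟨C1, hC1, hclose⟩ := hclose
  obtain ⟨B', hNr⟩ := nrZ hRH
  have hV : ∀ δ : ℝ, 0 < δ → PM aa 0 K δ = ENNReal.ofReal (Am (fun u => aa u ^ (2 * K)) δ) := by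
    intro δ hδ
    have h1 := hNr.lint (φ := fun x => x ^ (2 * K)) (by fun_prop) (fun x => by
      rw [pow_mul]
      positivity) hδ
    unfold PM
    simp only [sub_zero]
    exact h1
  have hAnn : ∀ δ : ℝ, 0 < δ → 0 ≤ Am (fun u => aa u ^ (2 * K)) δ := by
    intro δ hδ
    unfold Am
    refine mul_nonneg hδ.le (setIntegral_nonneg measurableSet_Ioi fun u _ => ?_)
    show 0 ≤ Real.exp (-δ * u) * aa u ^ (2 * K)
    rw [pow_mul]
    positivity
  have hLK : Tendsto (Am fun u => FFz u ^ (2 * K)) (𝓝[>] 0) (𝓝 (LK (xx w) (tt fun t : TZ => (t : ℝ)) (2 * K))) :=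
    mean_rep (fun f => Finset.prod_pos fun i _ => x0 _) (pi_hasSum (fun y => (x0 y).le) xs (2 * K)).summable (pi_rep x0 xs hrep (2 * K))
  have hmin : ∀ (c C : ℝ), 0 < c → ∀ δ : ℝ, 0 < δ → δ < 1 → C * δ ^ c + C1 * δ ≤ (|C| + C1) * δ ^ (min c 1) := by
    intro c C hc δ h0 h1
    have a1 : δ ^ c ≤ δ ^ (min c 1) := Real.rpow_le_rpow_of_exponent_ge h0 h1.le (min_le_left _ _)
    have a2 : δ ≤ δ ^ (min c 1) := by
      have := Real.rpow_le_rpow_of_exponent_ge h0 h1.le (min_le_right c 1)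
      rwa [Real.rpow_one] at this
    have a3 : C * δ ^ c ≤ |C| * δ ^ (min c 1) :=
      (mul_le_mul_of_nonneg_right (le_abs_self C) (by positivity)).trans (mul_le_mul_of_nonneg_left a1 (abs_nonneg _))
    have a4 := mul_le_mul_of_nonneg_left a2 hC1
    linarith
  constructor
  · rintro c hc hc1 ⟨L, C, h⟩
    have hA : ∀ δ : ℝ, 0 < δ → δ < 1 → |Am (fun u => aa u ^ (2 * K)) δ - L| ≤ C * δ ^ c := by
      intro δ h0 h1
      have h2 := (h δ h0 h1).2
      rwa [hV δ h0, ENNReal.toReal_ofReal (hAnn δ h0)] at h2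
    have hb : ∀ δ : ℝ, 0 < δ → δ < 1 → |Am (fun u => FFz u ^ (2 * K)) δ - L| ≤ (|C| + C1) * δ ^ c := by
      intro δ h0 h1
      have a1 := hA δ h0 h1
      have a2 := hclose δ h0
      rw [abs_sub_comm] at a2
      have a3 := abs_sub_le (Am (fun u => FFz u ^ (2 * K)) δ) (Am (fun u => aa u ^ (2 * K)) δ) L
      have a4 := hmin c C hc δ h0 h1
      rw [min_eq_left hc1] at a4
      linarith
    have hL : L = LK (xx w) (tt fun t : TZ => (t : ℝ)) (2 * K) := by
      have h2 : Tendsto (fun δ : ℝ => (|C| + C1) * δ ^ c) (𝓝[>] 0) (𝓝 0) := by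
        have h3 : Tendsto (fun δ : ℝ => δ ^ c) (𝓝[>] 0) (𝓝 0) := by
          have h4 : Tendsto (fun δ : ℝ => δ ^ c) (𝓝 0) (𝓝 (0 ^ c)) :=
            (Real.continuousAt_rpow_const 0 c (Or.inr hc.le)).tendsto
          rw [Real.zero_rpow hc.ne'] at h4
          exact h4.mono_left nhdsWithin_le_nhds
        have h5 := h3.const_mul (|C| + C1)
        rwa [mul_zero] at h5
      have h3 : Tendsto (fun δ : ℝ => Am (fun u => FFz u ^ (2 * K)) δ - L) (𝓝[>] 0) (𝓝 0) := by
        rw [tendsto_zero_iff_norm_tendsto_zero]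
        refine squeeze_zero' (Eventually.of_forall fun _ => norm_nonneg _) ?_ h2
        have h4 : ∀ᶠ δ in 𝓝[>] (0 : ℝ), δ < 1 := eventually_nhdsWithin_of_eventually_nhds (eventually_lt_nhds one_pos)
        filter_upwards [h4, self_mem_nhdsWithin] with δ h4 h5
        exact hb δ h5 h4
      have h6 := h3.add_const L
      simp only [sub_add_cancel, zero_add] at h6
      exact tendsto_nhds_unique h6 hLK
    refine rate_to_eff x0 xs hrep (2 * K) (show 0 < cw by norm_num) hlow hc (C := |C| + C1) fun δ h0 h1 => ?_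
    have h2 := hb δ h0 h1
    rw [hL] at h2
    exact (le_abs_self _).trans h2
  · intro A hA0 h
    obtain ⟨C, h⟩ := eff_to_rate x0 xs hrep (2 * K) htail hA0 h
    have hc1 : 1 / (2 * (A + 1)) ≤ 1 := by
      rw [div_le_one (by positivity)]
      linarith
    refine ⟨LK (xx w) (tt fun t : TZ => (t : ℝ)) (2 * K), |C| + C1, fun δ h0 h1 => ⟨?_, ?_⟩⟩
    · rw [hV δ h0]
      exact ENNReal.ofReal_lt_top
    · rw [hV δ h0, ENNReal.toReal_ofReal (hAnn δ h0)]
      have a1 := h δ h0 h1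
      have a2 := rate_pos x0 xs hrep (2 * K) h0
      have a3 := hclose δ h0
      have a4 := abs_sub_le (Am (fun u => aa u ^ (2 * K)) δ) (Am (fun u => FFz u ^ (2 * K)) δ) (LK (xx w) (tt fun t : TZ => (t : ℝ)) (2 * K))
      rw [abs_of_nonneg a2] at a4
      have a5 := hmin (1 / (2 * (A + 1))) C (by positivity) δ h0 h1
      rw [min_eq_left hc1] at a5
      linarith

end Run7.h278.LG
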