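import Pool.Agent.Run7.h278.LG.Off
import Pool.Agent.Run7.h278.LG.Mach
import Pool.Agent.Run7.h278.LI.Adm

set_option autoImplicit false

/-!
# Completed L-functions with real coefficients
-/

namespace Run7.h278.LG

open Complex Filter Topology MeasureTheory Set Run7.h278.LM Run7.h278.WL
open scoped ComplexConjugate
open Pool.Agent.H24R2.JP (Par)
open Pool.Agent.Helper935.EX (rt rt_sq norm_rt_sq even_rt differentiable_even_rt)
open Run7.h278.LI (Gr32 stF stF_diff rpow_aux)

/-- A completed L-function with real coefficients. -/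
structure RD {J : Type} [Fintype J] (L : ℂ → ℂ) (w : ℂ) (lam : ℕ → ℝ) (d m m' Q : ℝ) (μ : J → ℝ) : Prop where
  norm : ‖w‖ = 1
  diff : Differentiable ℂ L
  fe : ∀ s, L (1 - s) = w * conj (L (conj s))
  gr : Gr32 L
  one : L 1 ≠ 0
  right : ∀ s : ℂ, 1 < s.re → L s ≠ 0
  lam_le : ∀ n, |lam n| ≤ d * ArithmeticFunction.vonMangoldt n
  pos : ∀ j, 0 < μ j
  log : ∀ s : ℂ, 1 < s.re → logDeriv L s = m' / s + m / (s - 1) + Q + ∑ j, GG (μ j) s - LSeries (fun n => (lam n : ℂ)) s

/-- the even function -/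
noncomputable def FfL (L : ℂ → ℂ) (z : ℂ) : ℂ := L (1 / 2 + z) * stF L (1 / 2 + z)

/-- the function whose zeros are the `ρ(ρ - 1)` -/
noncomputable def fL (L : ℂ → ℂ) (x : ℂ) : ℂ := FfL L (rt (x + 1 / 4))

theorem order_stF {L : ℂ → ℂ} (hd : Differentiable ℂ L) (s : ℂ) :
    analyticOrderAt (stF L) s = analyticOrderAt L (conj s) := by
  have key : ∀ (L : ℂ → ℂ) (_ : Differentiable ℂ L) (s : ℂ), analyticOrderAt L (conj s) ≤ analyticOrderAt (stF L) s := by
    intro L hd s
    have hA : AnalyticAt ℂ L (conj s) := hd.analyticAt _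
    have hB : AnalyticAt ℂ (stF L) s := (stF_diff hd).analyticAt _
    rcases eq_or_ne (analyticOrderAt L (conj s)) ⊤ with h | h
    · have h1 := analyticOrderAt_eq_top.1 h
      have h2 : stF L =ᶠ[𝓝 s] fun _ => 0 := by
        have hc : Tendsto (fun z : ℂ => conj z) (𝓝 s) (𝓝 (conj s)) := Complex.continuous_conj.tendsto s
        filter_upwards [hc.eventually h1] with z hz
        unfold stF
        rw [hz]
        simp
      have h3 : analyticOrderAt (stF L) s = ⊤ := analyticOrderAt_eq_top.2 h2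
      rw [h3]
      exact le_top
    · obtain ⟨n, hn⟩ := ENat.ne_top_iff_exists.1 h
      rw [← hn]
      obtain ⟨g, hg, hg0, hge⟩ := (hA.analyticOrderAt_eq_natCast).1 hn.symm
      have h5 : analyticOrderAt (stF L) s = n := by
        rw [hB.analyticOrderAt_eq_natCast]
        refine ⟨stF g, ?_, ?_, ?_⟩
        · have h6 : ∀ᶠ z in 𝓝 (conj s), AnalyticAt ℂ g z := hg.eventually_analyticAt
          have hc : Tendsto (fun z : ℂ => conj z) (𝓝 s) (𝓝 (conj s)) := Complex.continuous_conj.tendsto s
          have h7 : ∀ᶠ z in 𝓝 s, DifferentiableAt ℂ (stF g) z := by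
            filter_upwards [hc.eventually h6] with z hz
            have h8 := hz.differentiableAt.hasDerivAt.conj_conj
            rw [Complex.conj_conj] at h8
            exact h8.differentiableAt
          rw [analyticAt_iff_eventually_differentiableAt]
          exact h7
        · unfold stF
          exact (_root_.map_ne_zero _).2 hg0
        · have hc : Tendsto (fun z : ℂ => conj z) (𝓝 s) (𝓝 (conj s)) := Complex.continuous_conj.tendsto s
          filter_upwards [hc.eventually hge] with z hz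
          unfold stF
          rw [hz, smul_eq_mul, map_mul, map_pow, map_sub, Complex.conj_conj, Complex.conj_conj, smul_eq_mul]
      rw [h5]
  refine le_antisymm ?_ (key L hd s)
  have h1 := key (stF L) (stF_diff hd) (conj s)
  rw [Complex.conj_conj] at h1
  have h2 : stF (stF L) = L := by
    funext z
    unfold stF
    rw [Complex.conj_conj, Complex.conj_conj]
  rwa [h2] at h1

section main

variable {J : Type} [Fintype J] {L : ℂ → ℂ} {w : ℂ} {lam : ℕ → ℝ} {d m m' Q : ℝ} {μ : J → ℝ}
variable (D : RD L w lam d m m' Q μ)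

include D

theorem ww : w * conj w = 1 := by
  rw [Complex.mul_conj, Complex.normSq_eq_norm_sq, D.norm]
  simp

theorem FfL_diff : Differentiable ℂ (FfL L) := (D.diff.comp (by fun_prop)).mul ((stF_diff D.diff).comp (by fun_prop))

theorem FfL_even (u : ℂ) : FfL L (-u) = FfL L u := by
  unfold FfL stF
  have e1 : (1 / 2 + -u : ℂ) = 1 - (1 / 2 + u) := by ring
  have e2 : conj (1 - (1 / 2 + u)) = 1 - conj (1 / 2 + u) := by
    rw [map_sub, map_one]
  rw [e1, e2, D.fe, D.fe, Complex.conj_conj, map_mul, Complex.conj_conj]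
  linear_combination (conj (L (conj (1 / 2 + u))) * L (1 / 2 + u)) * ww D

theorem fL_diff : Differentiable ℂ (fL L) := by
  have h := differentiable_even_rt (FfL_diff D) (FfL_even D)
  exact h.comp (by fun_prop : Differentiable ℂ fun x : ℂ => x + 1 / 4)

theorem fL_eq (s : ℂ) : fL L (s * (s - 1)) = L s * stF L s := by
  unfold fL
  rw [even_rt (FfL_even D) (w := s - 1 / 2) (by ring)]
  unfold FfL
  rw [show (1 / 2 + (s - 1 / 2) : ℂ) = s by ring]

theorem fL_gr : ∃ K : ℝ, ∀ x, ‖fL L x‖ ≤ Real.exp (K * (1 + ‖x‖) ^ (3 / 4 : ℝ)) := by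
  obtain ⟨K, hK⟩ := D.gr
  have hfg : ∀ x, ‖FfL L (rt x)‖ ≤ Real.exp ((2 * |K| * (2 * (1 + (3 / 2) ^ 2)) ^ (3 / 4 : ℝ)) * (1 + ‖x‖) ^ (3 / 4 : ℝ)) := by
    intro x
    have hb : ∀ s : ℂ, ‖s‖ ≤ 1 / 2 + ‖rt x‖ → ‖L s‖ ≤ Real.exp (|K| * (3 / 2 + ‖rt x‖) ^ (3 / 2 : ℝ)) := by
      intro s hs
      refine (hK s).trans (Real.exp_le_exp.2 ?_)
      calc K * (1 + ‖s‖) ^ (3 / 2 : ℝ) ≤ |K| * (1 + ‖s‖) ^ (3 / 2 : ℝ) := by
            gcongr
            exact le_abs_self K
        _ ≤ |K| * (3 / 2 + ‖rt x‖) ^ (3 / 2 : ℝ) :=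
            mul_le_mul_of_nonneg_left (Real.rpow_le_rpow (by positivity) (by linarith) (by norm_num))
              (abs_nonneg K)
    have hs1 : ‖(1 / 2 + rt x : ℂ)‖ ≤ 1 / 2 + ‖rt x‖ := by
      refine (norm_add_le _ _).trans (le_of_eq ?_)
      congr 1
      norm_num
    have hs2 : ‖conj (1 / 2 + rt x : ℂ)‖ ≤ 1 / 2 + ‖rt x‖ := by rwa [RCLike.norm_conj]
    have h2 := hb _ hs1
    have h3 : ‖stF L (1 / 2 + rt x)‖ ≤ Real.exp (|K| * (3 / 2 + ‖rt x‖) ^ (3 / 2 : ℝ)) := by
      unfold stF
      rw [RCLike.norm_conj]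
      exact hb _ hs2
    have h4 := rpow_aux (norm_nonneg (rt x)) (c := 3 / 2) (by norm_num)
    rw [norm_rt_sq] at h4
    calc ‖FfL L (rt x)‖ = ‖L (1 / 2 + rt x)‖ * ‖stF L (1 / 2 + rt x)‖ := by
          unfold FfL
          rw [norm_mul]
      _ ≤ Real.exp (|K| * (3 / 2 + ‖rt x‖) ^ (3 / 2 : ℝ)) * Real.exp (|K| * (3 / 2 + ‖rt x‖) ^ (3 / 2 : ℝ)) := by
          gcongr
      _ = Real.exp (2 * |K| * (3 / 2 + ‖rt x‖) ^ (3 / 2 : ℝ)) := by
          rw [← Real.exp_add]
          congr 1
          ring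
      _ ≤ Real.exp (2 * |K| * ((2 * (1 + (3 / 2) ^ 2)) ^ (3 / 4 : ℝ) * (1 + ‖x‖) ^ (3 / 4 : ℝ))) := by
          gcongr
      _ = _ := by
          congr 1
          ring
  refine ⟨2 * |K| * (2 * (1 + (3 / 2) ^ 2)) ^ (3 / 4 : ℝ) * 2 ^ (3 / 4 : ℝ), fun x => ?_⟩
  refine (hfg (x + 1 / 4)).trans (Real.exp_le_exp.2 ?_)
  rw [mul_assoc _ ((2 : ℝ) ^ (3 / 4 : ℝ)), ← Real.mul_rpow (by norm_num) (by positivity)]
  have h1 : ‖x + 1 / 4‖ ≤ ‖x‖ + 1 / 4 := by
    refine (norm_add_le _ _).trans (le_of_eq ?_)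
    congr 1
    norm_num
  have h2 : (1 + ‖x + 1 / 4‖) ^ (3 / 4 : ℝ) ≤ (2 * (1 + ‖x‖)) ^ (3 / 4 : ℝ) :=
    Real.rpow_le_rpow (by positivity) (by linarith [norm_nonneg x]) (by norm_num)
  have h3 : 0 ≤ 2 * |K| * (2 * (1 + (3 / 2) ^ 2)) ^ (3 / 4 : ℝ) := by positivity
  exact mul_le_mul_of_nonneg_left h2 h3

theorem fL_zero_ne : fL L 0 ≠ 0 := by
  have h := fL_eq D 1
  rw [sub_self, mul_zero] at h
  rw [h]
  refine mul_ne_zero D.one ?_
  unfold stF
  rw [map_one]
  exact (_root_.map_ne_zero _).2 D.one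

theorem zero_strip {s : ℂ} (hs : L s = 0) : 0 ≤ s.re ∧ s.re ≤ 1 := by
  constructor
  · by_contra h
    push Not at h
    have h1 := D.fe (1 - s)
    rw [sub_sub_cancel, hs] at h1
    have hw0 : w ≠ 0 := fun h0 => by
      have := D.norm
      rw [h0, norm_zero] at this
      exact zero_ne_one this
    have h2 : L (conj (1 - s)) = 0 := by
      have := (mul_eq_zero.1 h1.symm).resolve_left hw0
      exact (_root_.map_eq_zero _).1 this
    exact D.right _ (by simp; linarith) h2
  · by_contra h
    push Not at h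
    exact D.right s h hs

theorem fL_par {v : ℂ} (hv : fL L v = 0) : v ∈ Par := by
  set z := rt (v + 1 / 4) with hz
  have hz2 : z ^ 2 = v + 1 / 4 := rt_sq _
  have h1 : FfL L z = 0 := hv
  unfold FfL at h1
  have hre : |z.re| ≤ 1 / 2 := by
    rcases mul_eq_zero.1 h1 with h2 | h2
    · have h3 := zero_strip D h2
      rw [Complex.add_re] at h3
      norm_num at h3
      rw [abs_le]
      constructor <;> linarith
    · unfold stF at h2
      have h3 := zero_strip D ((_root_.map_eq_zero _).1 h2)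
      rw [Complex.conj_re, Complex.add_re] at h3
      norm_num at h3
      rw [abs_le]
      constructor <;> linarith
  have hv2 : v = z ^ 2 - 1 / 4 := by linear_combination -hz2
  show v.re + v.im ^ 2 ≤ 1 / 4
  have e1 : v.re = z.re ^ 2 - z.im ^ 2 - 1 / 4 := by
    rw [hv2, pow_two, Complex.sub_re, Complex.mul_re]
    norm_num
    ring
  have e2 : v.im = 2 * z.re * z.im := by
    rw [hv2, pow_two, Complex.sub_im, Complex.mul_im]
    norm_num
    ring
  rw [e1, e2]
  have h5 : z.re ^ 2 ≤ 1 / 4 := by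
    rw [← sq_abs]
    nlinarith [abs_nonneg z.re]
  nlinarith [sq_nonneg z.im, mul_nonneg (sq_nonneg z.im) (sub_nonneg.2 h5)]

omit D in
theorem LS_conj (lam : ℕ → ℝ) (s : ℂ) : LSeries (fun n => (lam n : ℂ)) (conj s) = conj (LSeries (fun n => (lam n : ℂ)) s) := by
  unfold LSeries
  rw [Complex.conj_tsum]
  refine tsum_congr fun n => ?_
  rw [LSeries.term_def, LSeries.term_def]
  split_ifs
  · simp
  · rw [map_div₀, Complex.conj_ofReal]
    congr 1
    rw [← Complex.ofReal_natCast, Complex.cpow_conj _ _ (by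
      rw [Complex.arg_ofReal_of_nonneg (Nat.cast_nonneg n)]
      exact Real.pi_pos.ne), Complex.conj_ofReal]

omit D in
theorem GG_conj (ν : ℝ) (s : ℂ) : GG ν (conj s) = conj (GG ν s) := by
  have h : ∀ z : ℂ, Gammaℝ (conj z) = conj (Gammaℝ z) := by
    intro z
    rw [Gammaℝ_def, Gammaℝ_def, map_mul, ← Complex.Gamma_conj]
    have e1 : (Real.pi : ℂ) ^ (-conj z / 2) = conj ((Real.pi : ℂ) ^ (-z / 2)) := by
      have e2 : -conj z / 2 = conj (-z / 2) := by rw [map_div₀, map_neg, map_ofNat]
      rw [e2, Complex.cpow_conj _ _ (by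
        rw [Complex.arg_ofReal_of_nonneg Real.pi_pos.le]
        exact Real.pi_pos.ne), Complex.conj_ofReal]
    rw [e1, map_div₀, map_ofNat]
  have h2 : deriv Gammaℝ (conj (s + ν)) = conj (deriv Gammaℝ (s + ν)) := by
    have := congrFun (deriv_conj_conj (f := Gammaℝ)) (s + ν)
    have e : (conj ∘ Gammaℝ ∘ conj) = Gammaℝ := by
      funext z
      simp only [Function.comp_apply]
      rw [h, Complex.conj_conj]
    rw [e] at this
    rw [this]
    simp [Function.comp]
  unfold GG
  have e : conj s + ν = conj (s + ν) := by rw [map_add, Complex.conj_ofReal]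
  rw [e, logDeriv_apply, logDeriv_apply, h, h2, map_div₀]

/-- the logarithmic derivative of the conjugate function -/
theorem stF_log {s : ℂ} (hs : 1 < s.re) : logDeriv (stF L) s = logDeriv L s := by
  have h2 : deriv (stF L) s = conj (deriv L (conj s)) := by
    have h8 := (D.diff (conj s)).hasDerivAt.conj_conj
    rw [Complex.conj_conj] at h8
    exact h8.deriv
  have h3 : logDeriv (stF L) s = conj (logDeriv L (conj s)) := by
    rw [logDeriv_apply, logDeriv_apply, h2, map_div₀]
    rfl
  rw [h3, D.log s hs, D.log (conj s) (by simpa using hs), map_sub, map_add, map_add, map_add, map_sum, LS_conj, Complex.conj_conj,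
    map_div₀, map_div₀, map_sub, map_one, Complex.conj_ofReal, Complex.conj_ofReal, Complex.conj_ofReal, Complex.conj_conj]
  simp_rw [GG_conj, Complex.conj_conj]

/-- the conjugate function is a multiple -/
theorem stF_eq : ∃ c : ℂ, c ≠ 0 ∧ ∀ s, stF L s = c * L s := by
  set U : Set ℂ := {s | 1 < s.re} with hU
  have hUo : IsOpen U := isOpen_lt continuous_const continuous_re
  have hUc : Convex ℝ U := convex_halfSpace_re_gt _
  have hdq : DifferentiableOn ℂ (fun s => stF L s / L s) U := fun s hs =>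
    (((stF_diff D.diff) s).div (D.diff s) (D.right s hs)).differentiableWithinAt
  have hd0 : ∀ s ∈ U, deriv (fun s => stF L s / L s) s = 0 := by
    intro s hs
    have h1 := D.right s hs
    have h2 : stF L s ≠ 0 := by
      unfold stF
      have hs' : 1 < s.re := hs
      exact (_root_.map_ne_zero _).2 (D.right _ (by simpa using hs'))
    have h3 : deriv (fun s => stF L s / L s) s = (deriv (stF L) s * L s - stF L s * deriv L s) / L s ^ 2 :=
      ((((stF_diff D.diff) s).hasDerivAt).div ((D.diff s).hasDerivAt) h1).deriv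
    rw [h3]
    have h4 := stF_log D hs
    rw [logDeriv_apply, logDeriv_apply, div_eq_div_iff h2 h1] at h4
    rw [div_eq_zero_iff]
    left
    linear_combination h4
  have h2U : (2 : ℂ) ∈ U := by show 1 < (2 : ℂ).re; norm_num
  have hconst : ∀ s ∈ U, stF L s / L s = stF L 2 / L 2 := by
    intro s hs
    exact hUc.is_const_of_fderivWithin_eq_zero (𝕜 := ℂ) hdq (fun z hz => by
      rw [fderivWithin_of_isOpen hUo hz]
      ext
      have := hd0 z hz
      rw [← fderiv_apply_one_eq_deriv] at this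
      simpa using this) hs h2U
  refine ⟨stF L 2 / L 2, ?_, ?_⟩
  · refine div_ne_zero ?_ (D.right 2 h2U)
    unfold stF
    exact (_root_.map_ne_zero _).2 (D.right _ (by simp))
  · have h1 : AnalyticOnNhd ℂ (stF L) univ := fun z _ => (stF_diff D.diff).analyticAt z
    have h2 : AnalyticOnNhd ℂ (fun s => stF L 2 / L 2 * L s) univ := fun z _ => (D.diff.const_mul _).analyticAt z
    have h3 := h1.eqOn_of_preconnected_of_eventuallyEq h2 isPreconnected_univ (mem_univ (2 : ℂ)) (by
      filter_upwards [hUo.mem_nhds h2U] with s hs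
      have := hconst s hs
      rw [div_eq_iff (D.right s hs)] at this
      exact this)
    intro s
    exact h3 (mem_univ s)

theorem fL_data : LD (fL L) lam d m m' Q μ where
  diff := fL_diff D
  ne := fL_zero_ne D
  zer := by
    obtain ⟨K, hK⟩ := fL_gr D
    exact exists_zeros (fL L) K (fL_diff D) (fL_zero_ne D) hK
  par := fun u hu => fL_par D hu
  lam_le := D.lam_le
  pos := D.pos
  right := by
    intro s hs
    rw [fL_eq D]
    refine mul_ne_zero (D.right s hs) ?_
    unfold stF
    exact (_root_.map_ne_zero _).2 (D.right _ (by simpa using hs))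
  log := by
    intro s hs
    have h0 : L s ≠ 0 := D.right s hs
    have h1 : stF L s ≠ 0 := by
      unfold stF
      exact (_root_.map_ne_zero _).2 (D.right _ (by simpa using hs))
    have h2 : HasDerivAt (fun w : ℂ => w * (w - 1)) (2 * s - 1) s := by
      have := (hasDerivAt_id s).mul ((hasDerivAt_id s).sub_const (1 : ℂ))
      have e : (1 : ℂ) * (id s - 1) + id s * 1 = 2 * s - 1 := by
        simp only [id]
        ring
      rw [e] at this
      exact this
    have h3 : HasDerivAt (fun s => fL L (s * (s - 1))) (deriv (fL L) (s * (s - 1)) * (2 * s - 1)) s :=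
      HasDerivAt.comp (h₂ := fL L) s ((fL_diff D) _).hasDerivAt h2
    have h4 : (fun s => fL L (s * (s - 1))) = fun s => L s * stF L s := funext fun s => fL_eq D s
    rw [h4] at h3
    have h5 := ((D.diff s).hasDerivAt.mul ((stF_diff D.diff) s).hasDerivAt)
    have h6 := h3.unique h5
    have h7 : (2 * s - 1) * logDeriv (fL L) (s * (s - 1)) = logDeriv L s + logDeriv (stF L) s := by
      rw [logDeriv_apply, logDeriv_apply, logDeriv_apply, fL_eq D]
      field_simp
      linear_combination h6
    rw [h7, stF_log D hs, D.log s hs]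
    ring

/-- orders -/
theorem order_ne_top (s : ℂ) : analyticOrderAt L s ≠ ⊤ := by
  intro htop
  have h1 : L =ᶠ[𝓝 s] 0 := analyticOrderAt_eq_top.1 htop
  have h2 : AnalyticOnNhd ℂ L univ := fun w _ => D.diff.analyticAt w
  have h3 := h2.eqOn_of_preconnected_of_eventuallyEq (g := 0) (fun w _ => analyticAt_const) isPreconnected_univ (mem_univ s) h1
  exact D.one (h3 (mem_univ 1))

theorem order_g (s : ℂ) : analyticOrderAt (fun s => L s * stF L s) s = 2 * analyticOrderAt L s := by
  obtain ⟨c, hc, h⟩ := stF_eq D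
  have h1 : (fun s => L s * stF L s) = (fun _ => c) * (L * L) := by
    funext s
    simp only [Pi.mul_apply]
    rw [h]
    ring
  have hA := D.diff.analyticAt s
  have hc0 : analyticOrderAt (fun _ : ℂ => c) s = 0 := analyticAt_const.analyticOrderAt_eq_zero.2 hc
  rw [h1, analyticOrderAt_mul analyticAt_const (hA.mul hA), analyticOrderAt_mul hA hA, hc0, zero_add, two_mul]

theorem order_conj (s : ℂ) : analyticOrderAt L (conj s) = analyticOrderAt L s := by
  obtain ⟨c, hc, h⟩ := stF_eq D
  rw [← order_stF D.diff]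
  have h1 : stF L = (fun _ => c) * L := by
    funext s
    simp only [Pi.mul_apply]
    rw [h]
  have hc0 : analyticOrderAt (fun _ : ℂ => c) s = 0 := analyticAt_const.analyticOrderAt_eq_zero.2 hc
  rw [h1, analyticOrderAt_mul analyticAt_const (D.diff.analyticAt s), hc0, zero_add]

/-- the order of `fL` away from the centre -/
theorem order_f {s : ℂ} (hs : s ≠ 1 / 2) : analyticOrderAt (fL L) (s * (s - 1)) = 2 * analyticOrderAt L s := by
  rw [← order_g D]
  have h1 : (fun s => L s * stF L s) = fL L ∘ fun s : ℂ => s * (s - 1) := by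
    funext z
    simp only [Function.comp_apply]
    rw [fL_eq D]
  rw [h1, analyticOrderAt_comp_of_deriv_ne_zero (by fun_prop)]
  have h2 : HasDerivAt (fun w : ℂ => w * (w - 1)) (2 * s - 1) s := by
    have := (hasDerivAt_id s).mul ((hasDerivAt_id s).sub_const (1 : ℂ))
    have e : (1 : ℂ) * (id s - 1) + id s * 1 = 2 * s - 1 := by
      simp only [id]
      ring
    rw [e] at this
    exact this
  rw [h2.deriv]
  intro h
  apply hs
  linear_combination (1 / 2) * h

theorem order_half : analyticOrderAt (fL L) (-(1 / 4)) * 2 = 2 * analyticOrderAt L (1 / 2) := by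
  rw [← order_g D]
  have h1 : (fun s => L s * stF L s) = fL L ∘ fun s : ℂ => s * (s - 1) := by
    funext z
    simp only [Function.comp_apply]
    rw [fL_eq D]
  rw [h1, AnalyticAt.analyticOrderAt_comp ((fL_diff D).analyticAt _) (by fun_prop)]
  have e1 : (1 / 2 : ℂ) * (1 / 2 - 1) = -(1 / 4) := by norm_num
  rw [e1]
  congr 1
  have h2 : AnalyticAt ℂ (fun x : ℂ => x * (x - 1) - -(1 / 4)) (1 / 2) := by fun_prop
  have h3 : analyticOrderAt (fun x : ℂ => x * (x - 1) - -(1 / 4)) (1 / 2) = (2 : ℕ) := by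
    rw [h2.analyticOrderAt_eq_natCast]
    refine ⟨fun _ => 1, analyticAt_const, one_ne_zero, Eventually.of_forall fun z => ?_⟩
    rw [smul_eq_mul]
    ring
  rw [h3]
  rfl

/-- the Riemann hypothesis -/
theorem RH_iff : RHf (fL L) ↔ ∀ s, L s = 0 → s.re = 1 / 2 := by
  constructor
  · intro h s hs
    have h1 : fL L (s * (s - 1)) = 0 := by rw [fL_eq D, hs, zero_mul]
    obtain ⟨y, hy, hv⟩ := h _ h1
    have h2 : (s - 1 / 2) ^ 2 = ((y + 1 / 4 : ℝ) : ℂ) := by
      push_cast
      linear_combination hv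
    have e1 := congrArg Complex.re h2
    have e2 := congrArg Complex.im h2
    rw [pow_two, Complex.mul_re, Complex.ofReal_re] at e1
    rw [pow_two, Complex.mul_im, Complex.ofReal_im] at e2
    have e3 : (s - 1 / 2).re = s.re - 1 / 2 := by simp
    have e4 : (s - 1 / 2).im = s.im := by simp
    rw [e3, e4] at e1 e2
    by_contra hne
    have h5 : s.re - 1 / 2 ≠ 0 := fun h => hne (by linarith)
    have h6 : s.im = 0 := by
      have : 2 * ((s.re - 1 / 2) * s.im) = 0 := by linarith
      rcases mul_eq_zero.1 this with h7 | h7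
      · norm_num at h7
      · exact (mul_eq_zero.1 h7).resolve_left h5
    rw [h6] at e1
    have : 0 < (s.re - 1 / 2) * (s.re - 1 / 2) := mul_self_pos.2 h5
    nlinarith
  · intro h v hv
    set z := rt (v + 1 / 4) with hz
    have hz2 : z ^ 2 = v + 1 / 4 := rt_sq _
    have h1 : FfL L z = 0 := hv
    unfold FfL at h1
    have hre : z.re = 0 := by
      rcases mul_eq_zero.1 h1 with h2 | h2
      · have h3 := h _ h2
        rw [Complex.add_re] at h3
        norm_num at h3
        exact h3
      · unfold stF at h2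
        have h3 := h _ ((_root_.map_eq_zero _).1 h2)
        rw [Complex.conj_re, Complex.add_re] at h3
        norm_num at h3
        exact h3
    refine ⟨-(z.im ^ 2) - 1 / 4, by nlinarith [sq_nonneg z.im], ?_⟩
    have h2 : z = z.im * I := by
      apply Complex.ext <;> simp [hre]
    have h3 : v = z ^ 2 - 1 / 4 := by linear_combination -hz2
    rw [h3, h2, mul_pow, Complex.I_sq]
    push_cast
    simp

end main

end Run7.h278.LG
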