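import Pool.Agent.Run7.h278.LG.FamCor

set_option autoImplicit false

/-!
# Second differences in the mean square
-/

namespace Run7.h278.LG

open Complex Filter Topology MeasureTheory Set Run7.h278.LM
open scoped ENNReal

/-- square integrability with a weight passes from the difference to the function -/
theorem shift_int {f : ℝ → ℝ} (hf : Continuous f) {h δ : ℝ} (hh : 0 < h) (hδ : 0 < δ)
    (hi : IntegrableOn (fun u : ℝ => Real.exp (-δ * u) * (f (u + h) - f u) ^ 2) (Ioi 0)) :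
    IntegrableOn (fun u : ℝ => Real.exp (-δ * u) * f u ^ 2) (Ioi 0) := by
  have hc : Continuous fun u : ℝ => Real.exp (-δ * u) * f u ^ 2 := by fun_prop
  have hcg : Continuous fun u : ℝ => Real.exp (-δ * u) * (f (u + h) - f u) ^ 2 := by fun_prop
  set θ := Real.exp (-δ * h) with hθ
  have hθ0 : 0 < θ := Real.exp_pos _
  have hθ1 : θ < 1 := by
    rw [hθ, Real.exp_lt_one_iff]
    nlinarith
  set η := (1 - θ) / (2 * θ) with hη
  have hη0 : 0 < η := by
    rw [hη]
    have : 0 < 1 - θ := by linarith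
    positivity
  have hκ : θ * (1 + η) = (1 + θ) / 2 := by
    rw [hη]
    field_simp
    ring
  set Dd := ∫ u in Ioi (0 : ℝ), Real.exp (-δ * u) * (f (u + h) - f u) ^ 2 with hDd
  have hD0 : 0 ≤ Dd := setIntegral_nonneg measurableSet_Ioi fun u _ => by positivity
  set I : ℕ → ℝ := fun n => ∫ u in (0 : ℝ)..(n * h), Real.exp (-δ * u) * f u ^ 2 with hI
  have hI1 : 0 ≤ I 1 := intervalIntegral.integral_nonneg (by simpa using hh.le) fun u _ => by positivity
  set M := (I 1 + θ * (1 + 1 / η) * Dd) * (2 / (1 - θ)) with hM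
  have h1θ : 0 < 1 - θ := by linarith
  have hM0 : 0 ≤ M := by positivity
  have hstep : ∀ n : ℕ, I (n + 1) ≤ I 1 + (1 + θ) / 2 * I n + θ * (1 + 1 / η) * Dd := by
    intro n
    have e1 : I (n + 1) = I 1 + ∫ u in (h : ℝ)..((n + 1 : ℕ) * h), Real.exp (-δ * u) * f u ^ 2 := by
      rw [hI]
      simp only
      rw [Nat.cast_one, one_mul]
      exact (intervalIntegral.integral_add_adjacent_intervals (hc.intervalIntegrable _ _) (hc.intervalIntegrable _ _)).symm
    have e2 : ∫ u in (h : ℝ)..((n + 1 : ℕ) * h), Real.exp (-δ * u) * f u ^ 2 =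
        θ * ∫ u in (0 : ℝ)..(n * h), Real.exp (-δ * u) * f (u + h) ^ 2 := by
      rw [← intervalIntegral.integral_const_mul]
      have e3 := intervalIntegral.integral_comp_add_right (a := 0) (b := n * h) (fun u : ℝ => Real.exp (-δ * u) * f u ^ 2) h
      have e4 : (n : ℝ) * h + h = ((n + 1 : ℕ) : ℝ) * h := by
        push_cast
        ring
      rw [zero_add, e4] at e3
      rw [← e3]
      refine intervalIntegral.integral_congr fun u _ => ?_
      rw [hθ, ← mul_assoc, ← Real.exp_add]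
      congr 2
      ring
    have e5 : ∫ u in (0 : ℝ)..(n * h), Real.exp (-δ * u) * f (u + h) ^ 2 ≤
        (1 + η) * I n + (1 + 1 / η) * ∫ u in (0 : ℝ)..(n * h), Real.exp (-δ * u) * (f (u + h) - f u) ^ 2 := by
      rw [hI, ← intervalIntegral.integral_const_mul, ← intervalIntegral.integral_const_mul,
        ← intervalIntegral.integral_add ((hc.const_mul _).intervalIntegrable _ _) ((hcg.const_mul _).intervalIntegrable _ _)]
      refine intervalIntegral.integral_mono_on (by positivity) ?_ ?_ fun u _ => ?_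
      · exact (by fun_prop : Continuous fun u : ℝ => Real.exp (-δ * u) * f (u + h) ^ 2).intervalIntegrable _ _
      · exact ((hc.const_mul _).add (hcg.const_mul _)).intervalIntegrable _ _
      · have h1 : f (u + h) ^ 2 ≤ (1 + η) * f u ^ 2 + (1 + 1 / η) * (f (u + h) - f u) ^ 2 := by
          set a := f u
          set b := f (u + h) - f u with hb
          have e : f (u + h) = a + b := by rw [hb]; ring
          rw [e]
          have h2 : 0 ≤ (η * a - b) ^ 2 / η := by positivity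
          have h3 : (η * a - b) ^ 2 / η = η * a ^ 2 - 2 * a * b + 1 / η * b ^ 2 := by
            field_simp
            ring
          rw [h3] at h2
          nlinarith
        have h2 := Real.exp_pos (-δ * u)
        nlinarith [mul_le_mul_of_nonneg_left h1 h2.le]
    have e6 : ∫ u in (0 : ℝ)..(n * h), Real.exp (-δ * u) * (f (u + h) - f u) ^ 2 ≤ Dd := by
      rw [intervalIntegral.integral_of_le (by positivity)]
      exact setIntegral_mono_set hi (Eventually.of_forall fun u => by positivity) (Ioc_subset_Ioi_self.eventuallyLE)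
    have h7 : 0 ≤ 1 + 1 / η := by positivity
    rw [e1, e2]
    have h8 : θ * ∫ u in (0 : ℝ)..(n * h), Real.exp (-δ * u) * f (u + h) ^ 2 ≤ θ * ((1 + η) * I n + (1 + 1 / η) * Dd) := by
      refine mul_le_mul_of_nonneg_left (e5.trans ?_) hθ0.le
      have := mul_le_mul_of_nonneg_left e6 h7
      linarith
    have h9 : θ * ((1 + η) * I n + (1 + 1 / η) * Dd) = (θ * (1 + η)) * I n + θ * (1 + 1 / η) * Dd := by ring
    rw [h9, hκ] at h8
    linarith
  have hb : ∀ n : ℕ, I n ≤ M := by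
    intro n
    induction n with
    | zero =>
      have : I 0 = 0 := by
        rw [hI]
        simp
      rw [this]
      exact hM0
    | succ n ih =>
      have h1 := hstep n
      have h2 : M * (1 - θ) = 2 * (I 1 + θ * (1 + 1 / η) * Dd) := by
        rw [hM]
        field_simp
      have h3 : (1 + θ) / 2 * I n ≤ (1 + θ) / 2 * M := mul_le_mul_of_nonneg_left ih (by positivity)
      nlinarith
  refine integrableOn_Ioi_of_intervalIntegral_norm_bounded (l := atTop) (b := fun n : ℕ => (n : ℝ) * h) M 0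
    (fun n => hc.integrableOn_Ioc) (tendsto_natCast_atTop_atTop.atTop_mul_const hh) (Eventually.of_forall fun n => ?_)
  have e : (∫ x in (0 : ℝ)..(n * h), ‖Real.exp (-δ * x) * f x ^ 2‖) = I n := by
    rw [hI]
    refine intervalIntegral.integral_congr fun u _ => ?_
    rw [Real.norm_eq_abs, abs_of_nonneg (by positivity)]
  rw [e]
  exact hb n

/-- the second difference -/
def Dd2 (f : ℝ → ℝ) (h u : ℝ) : ℝ := f (u + 2 * h) - 2 * f (u + h) + f u

theorem Dd2_cont {f : ℝ → ℝ} (hf : Continuous f) (h : ℝ) : Continuous (Dd2 f h) := by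
  unfold Dd2
  fun_prop

theorem shift_int2 {f : ℝ → ℝ} (hf : Continuous f) {h δ : ℝ} (hh : 0 < h) (hδ : 0 < δ)
    (hi : IntegrableOn (fun u : ℝ => Real.exp (-δ * u) * Dd2 f h u ^ 2) (Ioi 0)) :
    IntegrableOn (fun u : ℝ => Real.exp (-δ * u) * f u ^ 2) (Ioi 0) := by
  have h1 : IntegrableOn (fun u : ℝ => Real.exp (-δ * u) * ((fun v => f (v + h) - f v) (u + h) - (fun v => f (v + h) - f v) u) ^ 2) (Ioi 0) := by
    refine hi.congr_fun (fun u _ => ?_) measurableSet_Ioi
    simp only [Dd2]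
    rw [show u + 2 * h = u + h + h by ring]
    ring
  exact shift_int hf hh hδ (shift_int (by fun_prop : Continuous fun v => f (v + h) - f v) hh hδ h1)

/-- the Abel mean of a shifted function -/
theorem Am_shift {φ : ℝ → ℝ} (hφ : Continuous φ) {B : ℝ} (hB : ∀ u, |φ u| ≤ B) {h L : ℝ} (hh : 0 ≤ h)
    (hL : Tendsto (Am φ) (𝓝[>] 0) (𝓝 L)) : Tendsto (Am fun u => φ (u + h)) (𝓝[>] 0) (𝓝 L) := by
  have hc : ∀ δ : ℝ, Continuous fun u : ℝ => Real.exp (-δ * u) * φ u := fun δ => by fun_prop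
  have key : ∀ δ : ℝ, 0 < δ → Am (fun u => φ (u + h)) δ = Real.exp (δ * h) * (Am φ δ - δ * ∫ u in (0 : ℝ)..h, Real.exp (-δ * u) * φ u) := by
    intro δ hδ
    have hi : IntegrableOn (fun u : ℝ => Real.exp (-δ * u) * φ u) (Ioi 0) := Am_int hφ.continuousOn (fun u _ => hB u) hδ
    have e1 : ∫ u in Ioi (0 : ℝ), Real.exp (-δ * u) * φ u = (∫ u in (0 : ℝ)..h, Real.exp (-δ * u) * φ u) +
        ∫ u in Ioi h, Real.exp (-δ * u) * φ u := by
      rw [intervalIntegral.integral_of_le hh, ← setIntegral_union (by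
        rw [Set.disjoint_left]
        intro x hx hx'
        exact absurd hx.2 (not_le.2 hx')) measurableSet_Ioi (hi.mono_set Ioc_subset_Ioi_self) (hi.mono_set (Ioi_subset_Ioi hh)),
        Ioc_union_Ioi_eq_Ioi hh]
    have e2 : ∫ u in Ioi h, Real.exp (-δ * u) * φ u = Real.exp (-δ * h) * ∫ u in Ioi (0 : ℝ), Real.exp (-δ * u) * φ (u + h) := by
      rw [← integral_const_mul]
      have e3 := (measurePreserving_add_right volume h).setIntegral_preimage_emb (measurableEmbedding_addRight h)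
        (fun u : ℝ => Real.exp (-δ * u) * φ u) (Ioi h)
      rw [preimage_add_const_Ioi, sub_self] at e3
      rw [← e3]
      refine setIntegral_congr_fun measurableSet_Ioi fun u _ => ?_
      rw [← mul_assoc, ← Real.exp_add]
      congr 2
      ring
    unfold Am
    rw [e1, e2]
    have e4 : Real.exp (δ * h) * Real.exp (-δ * h) = 1 := by
      rw [← Real.exp_add]
      simp
    calc δ * ∫ u in Ioi (0 : ℝ), Real.exp (-δ * u) * φ (u + h) =
        (Real.exp (δ * h) * Real.exp (-δ * h)) * (δ * ∫ u in Ioi (0 : ℝ), Real.exp (-δ * u) * φ (u + h)) := by rw [e4, one_mul]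
      _ = _ := by ring
  have h1 : Tendsto (fun δ : ℝ => δ * ∫ u in (0 : ℝ)..h, Real.exp (-δ * u) * φ u) (𝓝[>] 0) (𝓝 0) := by
    have h2 : Tendsto (fun δ : ℝ => δ * (B * h)) (𝓝[>] 0) (𝓝 0) := by
      have : Tendsto (fun δ : ℝ => δ * (B * h)) (𝓝 0) (𝓝 (0 * (B * h))) := (continuous_id.mul continuous_const).tendsto 0
      rw [zero_mul] at this
      exact this.mono_left nhdsWithin_le_nhds
    rw [tendsto_zero_iff_norm_tendsto_zero]
    refine squeeze_zero' (Eventually.of_forall fun _ => norm_nonneg _) ?_ h2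
    filter_upwards [self_mem_nhdsWithin] with δ hδ
    have hδ' : 0 < δ := hδ
    rw [norm_mul, Real.norm_eq_abs, abs_of_pos hδ']
    refine mul_le_mul_of_nonneg_left ?_ hδ'.le
    have h3 := intervalIntegral.norm_integral_le_of_norm_le_const (a := 0) (b := h) (C := B) (f := fun u : ℝ => Real.exp (-δ * u) * φ u) (by
      intro u hu
      rw [uIoc_of_le hh] at hu
      rw [norm_mul, Real.norm_eq_abs, Real.norm_eq_abs, abs_of_pos (Real.exp_pos _)]
      have h4 : Real.exp (-δ * u) ≤ 1 := by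
        rw [Real.exp_le_one_iff]
        nlinarith [hu.1]
      calc Real.exp (-δ * u) * |φ u| ≤ 1 * B := mul_le_mul h4 (hB u) (abs_nonneg _) zero_le_one
        _ = B := one_mul B)
    rwa [sub_zero, abs_of_nonneg hh] at h3
  have h2 : Tendsto (fun δ : ℝ => Real.exp (δ * h)) (𝓝[>] 0) (𝓝 1) := by
    have : Tendsto (fun δ : ℝ => Real.exp (δ * h)) (𝓝 0) (𝓝 (Real.exp (0 * h))) := (by fun_prop : Continuous fun δ : ℝ => Real.exp (δ * h)).tendsto 0
    rw [zero_mul, Real.exp_zero] at this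
    exact this.mono_left nhdsWithin_le_nhds
  have h3 := h2.mul (hL.sub h1)
  rw [one_mul, sub_zero] at h3
  refine h3.congr' ?_
  filter_upwards [self_mem_nhdsWithin] with δ hδ
  exact (key δ hδ).symm

section

variable {T : Set ℝ} {W : ℝ → ℝ}

/-- the second difference of a cosine sum -/
theorem Dd2_FI (hw : ∀ t : T, 0 < W t) (hs : Summable fun t : T => W t) (c h u : ℝ) :
    Dd2 (fun v => c + FI (fun t : T => W t) (fun t : T => (t : ℝ)) v) h u =
      -FI (fun t : ↥{t | t ∈ T ∧ Real.sin (t * h / 2) ≠ 0} => 4 * Real.sin (t * h / 2) ^ 2 * W t)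
        (fun t : ↥{t | t ∈ T ∧ Real.sin (t * h / 2) ≠ 0} => (t : ℝ)) (u + h) := by
  have hsum : ∀ v : ℝ, Summable fun t : T => 2 * W t * Real.cos (t * v) := fun v =>
    Summable.of_norm_bounded (hs.mul_left 2) fun t => term_le (fun t : T => W t) (fun t : T => (t : ℝ)) hw t v
  have e1 : Dd2 (fun v => c + FI (fun t : T => W t) (fun t : T => (t : ℝ)) v) h u =
      ∑' t : T, -(2 * (4 * Real.sin (t * h / 2) ^ 2 * W t) * Real.cos (t * (u + h))) := by
    unfold Dd2 FI
    have e : ∀ t : T, -(2 * (4 * Real.sin (t * h / 2) ^ 2 * W t) * Real.cos (t * (u + h))) =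
        2 * W t * Real.cos (t * (u + 2 * h)) - 2 * (2 * W t * Real.cos (t * (u + h))) + 2 * W t * Real.cos (t * u) := by
      intro t
      have h1 : Real.cos (t * (u + 2 * h)) + Real.cos (t * u) = 2 * Real.cos (t * (u + h)) * Real.cos (t * h) := by
        rw [show (t : ℝ) * (u + 2 * h) = t * (u + h) + t * h by ring, show (t : ℝ) * u = t * (u + h) - t * h by ring,
          Real.cos_add, Real.cos_sub]
        ring
      have h2 : Real.cos (t * h) = 1 - 2 * Real.sin (t * h / 2) ^ 2 := by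
        rw [show (t : ℝ) * h = 2 * (t * h / 2) by ring, Real.cos_two_mul, Real.sin_sq]
        ring_nf
      linear_combination (-2 * W t) * h1 - (4 * W t * Real.cos (t * (u + h))) * h2
    rw [tsum_congr e, ((hsum _).sub ((hsum _).mul_left 2)).tsum_add (hsum _), (hsum _).tsum_sub ((hsum _).mul_left 2), tsum_mul_left]
    ring
  rw [e1, tsum_neg]
  congr 1
  unfold FI
  set g : ℝ → ℝ := fun t => 2 * (4 * Real.sin (t * h / 2) ^ 2 * W t) * Real.cos (t * (u + h)) with hg
  show ∑' t : T, g t = ∑' t : ↥{t | t ∈ T ∧ Real.sin (t * h / 2) ≠ 0}, g t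
  rw [tsum_subtype, tsum_subtype]
  refine tsum_congr fun t => ?_
  by_cases h1 : t ∈ T
  · by_cases h2 : Real.sin (t * h / 2) = 0
    · rw [Set.indicator_of_mem h1, Set.indicator_of_notMem (fun h3 => h3.2 h2), hg]
      simp only
      rw [h2]
      ring
    · rw [Set.indicator_of_mem h1, Set.indicator_of_mem (show t ∈ {t | t ∈ T ∧ Real.sin (t * h / 2) ≠ 0} from ⟨h1, h2⟩)]
  · rw [Set.indicator_of_notMem h1, Set.indicator_of_notMem (fun h3 => h1 h3.1)]

/-- the mean square of the second difference -/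
theorem Dd2_mean (hT : ∀ t ∈ T, 0 < t) (hw : ∀ t : T, 0 < W t) (hs : Summable fun t : T => W t) (c : ℝ) {h : ℝ} (hh : 0 < h) :
    Tendsto (Am fun u => Dd2 (fun v => c + FI (fun t : T => W t) (fun t : T => (t : ℝ)) v) h u ^ 2) (𝓝[>] 0)
      (𝓝 (∑' t : T, 32 * Real.sin (t * h / 2) ^ 4 * W t ^ 2)) := by
  set T' : Set ℝ := {t | t ∈ T ∧ Real.sin (t * h / 2) ≠ 0} with hT'
  set W' : ℝ → ℝ := fun t => 4 * Real.sin (t * h / 2) ^ 2 * W t with hW'
  have hw' : ∀ t : T', 0 < W' t := fun t => by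
    have h1 := hw ⟨t, t.2.1⟩
    have h2 : 0 < Real.sin (t * h / 2) ^ 2 := by
      have := t.2.2
      positivity
    rw [hW']
    simp only
    positivity
  have hs' : Summable fun t : T' => W' t := by
    have h1 : Summable fun t : T' => W t := hs.comp_injective (i := fun t : T' => (⟨t.1, t.2.1⟩ : T)) (by
      intro a b hab
      exact Subtype.ext (congrArg (fun x : T => (x : ℝ)) hab))
    refine Summable.of_nonneg_of_le (fun t => (hw' t).le) (fun t => ?_) (h1.mul_left 4)
    rw [hW']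
    simp only
    have h2 := hw ⟨t, t.2.1⟩
    have h3 : Real.sin (t * h / 2) ^ 2 ≤ 1 := Real.sin_sq_le_one _
    have h4 : (W t : ℝ) = W ((⟨t, t.2.1⟩ : T) : ℝ) := rfl
    nlinarith
  have h1 := cov11 T' T' W' W' (fun t ht => hT t ht.1) (fun t ht => hT t ht.1) hw' hs' hw' hs'
  have h2 : Tendsto (Am fun u => FI (fun t : T' => W' t) (fun t : T' => (t : ℝ)) u ^ 2) (𝓝[>] 0)
      (𝓝 (∑' t : ↥(T' ∩ T'), 2 * (W' t * W' t))) := by
    refine h1.congr fun δ => ?_
    congr 1
    funext u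
    ring
  have hFc : Continuous (FI (fun t : T' => W' t) (fun t : T' => (t : ℝ))) := FI_cont _ hw' hs'
  have h3 := Am_shift (φ := fun u => FI (fun t : T' => W' t) (fun t : T' => (t : ℝ)) u ^ 2) (hFc.pow 2)
    (B := (∑' t : T', 2 * W' t) ^ 2) (fun u => by
      rw [abs_pow]
      exact pow_le_pow_left₀ (abs_nonneg _) (FI_le _ hw' hs' u) 2) hh.le h2
  have e : ∑' t : ↥(T' ∩ T'), 2 * (W' t * W' t) = ∑' t : T, 32 * Real.sin (t * h / 2) ^ 4 * W t ^ 2 := by
    rw [Set.inter_self]
    set g : ℝ → ℝ := fun t => 32 * Real.sin (t * h / 2) ^ 4 * W t ^ 2 with hg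
    have e1 : ∀ t : ↥T', 2 * (W' t * W' t) = g t := fun t => by
      rw [hW', hg]
      simp only
      ring
    rw [tsum_congr e1]
    show ∑' t : T', g t = ∑' t : T, g t
    rw [tsum_subtype, tsum_subtype]
    refine tsum_congr fun t => ?_
    by_cases h1 : t ∈ T
    · by_cases h2 : Real.sin (t * h / 2) = 0
      · rw [Set.indicator_of_mem h1, Set.indicator_of_notMem (fun h3 => h3.2 h2), hg]
        simp only
        rw [h2]
        ring
      · rw [Set.indicator_of_mem h1, Set.indicator_of_mem (show t ∈ T' from ⟨h1, h2⟩)]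
    · rw [Set.indicator_of_notMem h1, Set.indicator_of_notMem (fun h3 => h1 h3.1)]
  rw [e] at h3
  refine h3.congr fun δ => ?_
  congr 1
  funext u
  rw [Dd2_FI hw hs c h u]
  ring

end

/-- the Abel mean of the square of the second difference -/
noncomputable def VM (a : ℝ → ℝ) (h δ : ℝ) : ℝ≥0∞ := ∫⁻ u in Ioi (0 : ℝ), ENNReal.ofReal (δ * Real.exp (-δ * u) * Dd2 a h u ^ 2)

theorem Nr.dd {a F : ℝ → ℝ} {B h : ℝ} (n : Nr a F B) (hh : 0 < h) : Nr (Dd2 a h) (Dd2 F h) (4 * B) := by
  refine ⟨Dd2_cont n.ca h, Dd2_cont n.cF h, by linarith [n.hB], fun u hu => ?_, fun u => ?_, ?_⟩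
  · have h1 := abs_le.1 (n.ba (u + 2 * h) (by linarith))
    have h2 := abs_le.1 (n.ba (u + h) (by linarith))
    have h3 := abs_le.1 (n.ba u hu)
    unfold Dd2
    rw [abs_le]
    constructor <;> linarith [h1.1, h1.2, h2.1, h2.2, h3.1, h3.2]
  · have h1 := abs_le.1 (n.bF (u + 2 * h))
    have h2 := abs_le.1 (n.bF (u + h))
    have h3 := abs_le.1 (n.bF u)
    unfold Dd2
    rw [abs_le]
    constructor <;> linarith [h1.1, h1.2, h2.1, h2.2, h3.1, h3.2]
  · have h1 := n.lim.comp (tendsto_atTop_add_const_right atTop (2 * h) tendsto_id)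
    have h2 := n.lim.comp (tendsto_atTop_add_const_right atTop h tendsto_id)
    have h4 := (h1.sub (h2.const_mul 2)).add n.lim
    simp only [mul_zero, sub_zero, add_zero] at h4
    refine h4.congr fun u => ?_
    unfold Dd2
    simp only [Function.comp_apply, id]
    ring

/-- without boundedness -/
theorem VM_top {a b : ℝ → ℝ} (ca : Continuous a) (cb : Continuous b) {K' : ℝ} (hab : ∀ u, 0 < u → |a u - b u| ≤ K')
    {δ h : ℝ} (hδ : 0 < δ) (hh : 0 < h) (hno : ¬IntegrableOn (fun u : ℝ => Real.exp (-δ * u) * b u ^ 2) (Ioi 0)) : VM a h δ = ⊤ := by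
  by_contra htop
  apply hno
  have hc : Continuous fun u : ℝ => δ * Real.exp (-δ * u) * Dd2 a h u ^ 2 := by
    have := Dd2_cont ca h
    fun_prop
  have hint : IntegrableOn (fun u : ℝ => δ * Real.exp (-δ * u) * Dd2 a h u ^ 2) (Ioi 0) := by
    refine ⟨hc.aestronglyMeasurable, ?_⟩
    rw [hasFiniteIntegral_iff_ofReal (Eventually.of_forall fun u => by
      show 0 ≤ δ * Real.exp (-δ * u) * Dd2 a h u ^ 2
      positivity)]
    exact lt_top_iff_ne_top.2 htop
  have hint2 : IntegrableOn (fun u : ℝ => Real.exp (-δ * u) * Dd2 a h u ^ 2) (Ioi 0) := by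
    refine (hint.const_mul (1 / δ)).congr (Eventually.of_forall fun u => ?_)
    simp only
    field_simp
  have h1 := shift_int2 ca hh hδ hint2
  have h2 : IntegrableOn (fun u : ℝ => 2 * (Real.exp (-δ * u) * a u ^ 2) + 2 * K' ^ 2 * Real.exp (-δ * u)) (Ioi 0) :=
    (h1.const_mul 2).add ((integrableOn_exp_mul_Ioi (a := -δ) (by linarith) 0).const_mul _)
  refine Integrable.mono' h2 (by fun_prop : Continuous fun u : ℝ => Real.exp (-δ * u) * b u ^ 2).aestronglyMeasurable ?_
  refine (ae_restrict_mem measurableSet_Ioi).mono fun u hu => ?_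
  have hu' : (0 : ℝ) < u := hu
  rw [Real.norm_eq_abs, abs_of_nonneg (by positivity)]
  have h3 := hab u hu'
  have h4 : (a u - b u) ^ 2 ≤ K' ^ 2 := sq_le_sq' (by linarith [(abs_le.1 h3).1]) (abs_le.1 h3).2
  have h5 : b u ^ 2 ≤ 2 * a u ^ 2 + 2 * K' ^ 2 := by nlinarith [sq_nonneg (2 * a u - b u)]
  have h6 := Real.exp_pos (-δ * u)
  nlinarith [mul_le_mul_of_nonneg_left h5 h6.le]

section fam

open Run7.h278.WL

variable {J : Type} [Fintype J] {l : J → List ℝ} {r : J → ℕ} {N : J → ℝ} {b c : J → ℕ → ℂ} {X : J → ℂ → ℂ} {d : J → ℕ}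
variable (F : Family l r N b c X d)

include F

/-- **The mean square of the second difference for families.** -/
theorem Family.sd (hd : ∀ j, 1 ≤ d j) {lam' : ℕ → ℝ} {d' : ℝ} (hl' : ∀ n, |lam' n| ≤ d' * ArithmeticFunction.vonMangoldt n)
    (hC : Cl (lamF c d) lam') :
    ∃ C : ℝ, Tendsto (fun σ : ℝ => mF r d / (σ - 1) - RS lam' σ) (𝓝[>] 1) (𝓝 (C - mF r d)) ∧
      ∀ h : ℝ, 0 < h → ∃ L : ℝ≥0∞, Tendsto (VM (aL lam' (mF r d) C) h) (𝓝[>] 0) (𝓝 L) ∧ (L < ⊤ ↔ GRHf X) ∧
        (GRHf X → (Summable fun t : TS X => MO X d t / (1 / 4 + (t : ℝ) ^ 2)) ∧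
          L = ENNReal.ofReal (∑' t : TS X, 32 * Real.sin (t * h / 2) ^ 4 * (MO X d t / (1 / 4 + (t : ℝ) ^ 2)) ^ 2)) := by
  obtain ⟨C, h1, h2, h3⟩ := F.pack hd hl' hC
  refine ⟨C, h1, fun h hh => ?_⟩
  by_cases hG : GRHf X
  · obtain ⟨B, hB⟩ := h2 hG
    have hF : Ff (fL (PL X d)) = fun u => 4 * rO X d + FI (fun t : TS X => MO X d t / (1 / 4 + (t : ℝ) ^ 2)) (fun t : TS X => (t : ℝ)) u := by
      funext u
      have h4 := F.Ff_T hd hG 1 u
      rw [one_mul] at h4
      rw [h4]
      simp_rw [one_mul]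
      ring_nf
      rfl
    rw [hF] at hB
    have w1 : ∀ t : TS X, 0 < MO X d t / (1 / 4 + (t : ℝ) ^ 2) := fun t => F.wT_pos hd t
    have s1 : Summable fun t : TS X => MO X d t / (1 / 4 + (t : ℝ) ^ 2) := F.wT_sum hd hG
    have hD := hB.dd hh
    have h5 := hD.comp (φ := fun x => x ^ 2) (by fun_prop)
      (Dd2_mean (T := TS X) (W := fun t => MO X d t / (1 / 4 + t ^ 2)) (fun t ht => ht.1) w1 s1 (4 * rO X d) hh)
    refine ⟨_, ?_, ⟨fun _ => hG, fun _ => ENNReal.ofReal_lt_top⟩, fun _ => ⟨s1, rfl⟩⟩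
    refine (ENNReal.tendsto_ofReal h5).congr' ?_
    filter_upwards [self_mem_nhdsWithin] with δ hδ
    exact (hD.lint (φ := fun x => x ^ 2) (by fun_prop) (fun x => sq_nonneg x) hδ).symm
  · obtain ⟨b', K', δ₀, q1, q2, q3, q4⟩ := h3 hG
    refine ⟨⊤, ?_, ⟨fun h => absurd h (lt_irrefl _), fun h => absurd h hG⟩, fun h => absurd h hG⟩
    refine tendsto_const_nhds.congr' ?_
    filter_upwards [Ioo_mem_nhdsGT q3] with δ hδ
    exact (VM_top (aL_cont hl' _ _) q1 q2 hδ.1 hh (q4 δ hδ.1 hδ.2)).symm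

end fam

end Run7.h278.LG
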