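import Pool.Agent.Run7.h278.LG.DirMain

set_option autoImplicit false

/-!
# The characters which are trivial on a subgroup
-/

namespace Run7.h278.LG

open Complex Filter Topology MeasureTheory Set DirichletCharacter
open scoped ComplexConjugate ENNReal

section

variable {q : ℕ} [NeZero q] (H : Subgroup (ZMod q)ˣ)

/-- the characters modulo `q` which are trivial on `H` -/
abbrev Ann : Type := {χ : DirichletCharacter ℂ q // ∀ h ∈ H, χ (h : ZMod q) = 1}

noncomputable instance : Fintype (Ann H) := Fintype.ofFinite _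

noncomputable local instance : Fintype H := Fintype.ofFinite _

/-- the inverse -/
noncomputable def invA : Ann H ≃ Ann H where
  toFun χ := ⟨χ.1⁻¹, fun h hh => by
    rw [MulChar.inv_apply_eq_inv', χ.2 h hh, inv_one]⟩
  invFun χ := ⟨χ.1⁻¹, fun h hh => by
    rw [MulChar.inv_apply_eq_inv', χ.2 h hh, inv_one]⟩
  left_inv χ := Subtype.ext (inv_inv χ.1)
  right_inv χ := Subtype.ext (inv_inv χ.1)

theorem sum_H (χ : DirichletCharacter ℂ q) : ∑ h : H, χ ((h : (ZMod q)ˣ) : ZMod q) =
    (open Classical in if (∀ h ∈ H, χ (h : ZMod q) = 1) then (Nat.card H : ℂ) else 0) := by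
  classical
  split_ifs with hχ
  · rw [Finset.sum_congr rfl fun h _ => hχ h.1 h.2, Finset.sum_const, nsmul_eq_mul, mul_one, Finset.card_univ, Nat.card_eq_fintype_card]
  · push Not at hχ
    obtain ⟨h0, hh0, hne⟩ := hχ
    have h1 : ∑ h : H, χ ((h : (ZMod q)ˣ) : ZMod q) = χ (h0 : ZMod q) * ∑ h : H, χ ((h : (ZMod q)ˣ) : ZMod q) := by
      rw [Finset.mul_sum]
      refine (Fintype.sum_equiv (Equiv.mulLeft (⟨h0, hh0⟩ : H)) _ _ fun h => ?_).symm
      simp [map_mul]
    have h2 : (1 - χ (h0 : ZMod q)) * ∑ h : H, χ ((h : (ZMod q)ˣ) : ZMod q) = 0 := by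
      linear_combination h1
    exact (mul_eq_zero.1 h2).resolve_left fun h => hne (sub_eq_zero.1 h).symm

/-- orthogonality -/
theorem sum_Ann (a : ZMod q) : ∑ χ : Ann H, χ.1 a =
    (open Classical in if (∃ h ∈ H, ((h : (ZMod q)ˣ) : ZMod q) = a) then (H.index : ℂ) else 0) := by
  classical
  have hcard : (Nat.card H : ℂ) ≠ 0 := Nat.cast_ne_zero.2 (Nat.card_pos).ne'
  have h1 : (Nat.card H : ℂ) * ∑ χ : Ann H, χ.1 a = ∑ χ : DirichletCharacter ℂ q, (∑ h : H, χ ((h : (ZMod q)ˣ) : ZMod q)) * χ a := by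
    rw [Finset.mul_sum]
    simp_rw [sum_H H]
    simp only [ite_mul, zero_mul]
    rw [← Finset.sum_filter]
    exact (Finset.sum_subtype (Finset.univ.filter fun χ : DirichletCharacter ℂ q => ∀ h ∈ H, χ (h : ZMod q) = 1) (fun χ => by simp)
      (fun χ : DirichletCharacter ℂ q => (Nat.card H : ℂ) * χ a)).symm
  have h2 : ∑ χ : DirichletCharacter ℂ q, (∑ h : H, χ ((h : (ZMod q)ˣ) : ZMod q)) * χ a =
      ∑ h : H, (if (((h : (ZMod q)ˣ) : ZMod q) * a = 1) then (q.totient : ℂ) else 0) := by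
    simp_rw [Finset.sum_mul]
    rw [Finset.sum_comm]
    refine Finset.sum_congr rfl fun h _ => ?_
    rw [← DirichletCharacter.sum_characters_eq ℂ (((h : (ZMod q)ˣ) : ZMod q) * a)]
    refine Finset.sum_congr rfl fun χ _ => ?_
    rw [map_mul]
  have h3 : ∑ h : H, (if (((h : (ZMod q)ˣ) : ZMod q) * a = 1) then (q.totient : ℂ) else 0) =
      if (∃ h ∈ H, ((h : (ZMod q)ˣ) : ZMod q) = a) then (q.totient : ℂ) else 0 := by
    split_ifs with hex
    · obtain ⟨h0, hh0, rfl⟩ := hex
      rw [Finset.sum_eq_single (⟨h0⁻¹, H.inv_mem hh0⟩ : H)]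
      · rw [if_pos]
        simp
      · intro h _ hne
        rw [if_neg]
        intro h4
        apply hne
        have h5 : (h : (ZMod q)ˣ) * h0 = 1 := by
          apply Units.ext
          rw [Units.val_mul, Units.val_one]
          exact h4
        exact Subtype.ext (eq_inv_of_mul_eq_one_left h5)
      · intro h4
        exact absurd (Finset.mem_univ _) h4
    · refine Finset.sum_eq_zero fun h _ => ?_
      rw [if_neg]
      intro h4
      apply hex
      refine ⟨(h : (ZMod q)ˣ)⁻¹, H.inv_mem h.2, ?_⟩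
      have h5 : ((((h : (ZMod q)ˣ)⁻¹ : (ZMod q)ˣ)) : ZMod q) * (((h : (ZMod q)ˣ) : ZMod q) * a) = a := by
        rw [← mul_assoc, ← Units.val_mul]
        simp
      rw [h4, mul_one] at h5
      exact h5
  have h4 : (q.totient : ℂ) = Nat.card H * H.index := by
    have h5 := H.card_mul_index
    rw [Nat.card_eq_fintype_card (α := (ZMod q)ˣ), ZMod.card_units_eq_totient] at h5
    exact_mod_cast h5.symm
  rw [h2, h3] at h1
  split_ifs at h1 ⊢ with hex
  · rw [h4] at h1
    exact mul_left_cancel₀ hcard h1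
  · exact (mul_eq_zero.1 h1).resolve_left hcard

end

end Run7.h278.LG
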