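import Pool.Agent.Run7.h278.LG.Sd

set_option autoImplicit false

/-!
# Sums against the kernel of the second difference
-/

namespace Run7.h278.LG

open Filter Topology MeasureTheory Set
open scoped ENNReal

/-- the kernel -/
noncomputable def gk (ε x : ℝ) : ℝ := 32 * Real.sin (x / 2) ^ 4 / (ε + x ^ 2) ^ 2

/-- its derivative -/
noncomputable def gk' (ε x : ℝ) : ℝ :=
  64 * Real.sin (x / 2) ^ 3 * Real.cos (x / 2) / (ε + x ^ 2) ^ 2 - 128 * x * Real.sin (x / 2) ^ 4 / (ε + x ^ 2) ^ 3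

theorem gk_nn (ε x : ℝ) : 0 ≤ gk ε x := by
  unfold gk
  have : Real.sin (x / 2) ^ 4 = (Real.sin (x / 2) ^ 2) ^ 2 := by ring
  rw [this]
  positivity

theorem gk_deriv {ε x : ℝ} (hε : 0 ≤ ε) (hx : 0 < x) : HasDerivAt (gk ε) (gk' ε x) x := by
  have h0 : 0 < ε + x ^ 2 := by positivity
  have h1 : HasDerivAt (fun x : ℝ => Real.sin (x / 2)) (Real.cos (x / 2) * (1 / 2)) x := ((hasDerivAt_id x).div_const 2).sin
  have h2 : HasDerivAt (fun x : ℝ => ε + x ^ 2) (2 * x) x := by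
    simpa using (hasDerivAt_pow 2 x).const_add ε
  have h3 := ((h1.fun_pow 4).const_mul 32).fun_div (h2.fun_pow 2) (by positivity)
  have e : gk ε = fun x => 32 * Real.sin (x / 2) ^ 4 / (ε + x ^ 2) ^ 2 := rfl
  rw [e]
  refine h3.congr_deriv ?_
  unfold gk'
  push_cast
  field_simp
  ring

theorem gk'_bd {ε x : ℝ} (hε : 0 ≤ ε) (hx : 0 < x) : |gk' ε x| ≤ 384 / (x * (1 + x ^ 3)) := by
  set s := |Real.sin (x / 2)| with hs
  have s0 : 0 ≤ s := abs_nonneg _
  have s1 : s ≤ 1 := Real.abs_sin_le_one _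
  have s2 : s ≤ x / 2 := by
    have := Real.abs_sin_le_abs (x := x / 2)
    rwa [abs_of_pos (by positivity : (0 : ℝ) < x / 2)] at this
  have c1 : |Real.cos (x / 2)| ≤ 1 := Real.abs_cos_le_one _
  have h0 : 0 < x ^ 2 := by positivity
  have a1 : (x ^ 2) ^ 2 ≤ (ε + x ^ 2) ^ 2 := pow_le_pow_left₀ h0.le (by linarith) 2
  have a2 : (x ^ 2) ^ 3 ≤ (ε + x ^ 2) ^ 3 := pow_le_pow_left₀ h0.le (by linarith) 3
  have e1 : |64 * Real.sin (x / 2) ^ 3 * Real.cos (x / 2) / (ε + x ^ 2) ^ 2| ≤ 64 * s ^ 3 / (x ^ 2) ^ 2 := by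
    rw [abs_div, abs_mul, abs_mul, abs_pow, abs_of_pos (by norm_num : (0 : ℝ) < 64), abs_of_pos (by positivity : (0 : ℝ) < (ε + x ^ 2) ^ 2)]
    refine div_le_div₀ (by positivity) ?_ (by positivity) a1
    exact mul_le_of_le_one_right (by positivity) c1
  have e2 : |128 * x * Real.sin (x / 2) ^ 4 / (ε + x ^ 2) ^ 3| ≤ 128 * x * s ^ 4 / (x ^ 2) ^ 3 := by
    rw [abs_div, abs_mul, abs_mul, abs_pow, abs_of_pos (by norm_num : (0 : ℝ) < 128), abs_of_pos hx,
      abs_of_pos (by positivity : (0 : ℝ) < (ε + x ^ 2) ^ 3)]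
    exact div_le_div_of_nonneg_left (by positivity) (by positivity) a2
  have e3 : 64 * s ^ 3 / (x ^ 2) ^ 2 + 128 * x * s ^ 4 / (x ^ 2) ^ 3 = (64 * s ^ 3 * x + 128 * s ^ 4) / x ^ 5 := by
    field_simp
  have e4 : (64 * s ^ 3 * x + 128 * s ^ 4) * (x * (1 + x ^ 3)) ≤ 384 * x ^ 5 := by
    have e5 : (64 * s ^ 3 * x + 128 * s ^ 4) * (1 + x ^ 3) ≤ 384 * x ^ 4 := by
      rcases le_total x 1 with h | h
      · have p1 : s ^ 3 ≤ (x / 2) ^ 3 := pow_le_pow_left₀ s0 s2 3
        have p2 : s ^ 4 ≤ (x / 2) ^ 4 := pow_le_pow_left₀ s0 s2 4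
        have p3 : x ^ 3 ≤ 1 := pow_le_one₀ hx.le h
        have p4 : 64 * s ^ 3 * x + 128 * s ^ 4 ≤ 16 * x ^ 4 := by nlinarith
        have p5 : 0 ≤ 64 * s ^ 3 * x + 128 * s ^ 4 := by positivity
        have p6 : 0 < x ^ 4 := by positivity
        nlinarith
      · have p1 : s ^ 3 ≤ 1 := pow_le_one₀ s0 s1
        have p2 : s ^ 4 ≤ 1 := pow_le_one₀ s0 s1
        have p3 : 1 ≤ x ^ 3 := one_le_pow₀ h
        have p4 : 64 * s ^ 3 * x + 128 * s ^ 4 ≤ 192 * x := by nlinarith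
        have p5 : 0 ≤ 64 * s ^ 3 * x + 128 * s ^ 4 := by positivity
        calc (64 * s ^ 3 * x + 128 * s ^ 4) * (1 + x ^ 3) ≤ (192 * x) * (2 * x ^ 3) :=
              mul_le_mul p4 (by linarith) (by positivity) (by positivity)
          _ = 384 * x ^ 4 := by ring
    calc (64 * s ^ 3 * x + 128 * s ^ 4) * (x * (1 + x ^ 3)) = ((64 * s ^ 3 * x + 128 * s ^ 4) * (1 + x ^ 3)) * x := by ring
      _ ≤ (384 * x ^ 4) * x := mul_le_mul_of_nonneg_right e5 hx.le
      _ = 384 * x ^ 5 := by ring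
  unfold gk'
  refine (abs_sub _ _).trans ((add_le_add e1 e2).trans ?_)
  rw [e3, div_le_div_iff₀ (by positivity) (by positivity)]
  exact e4

theorem cube_le {x : ℝ} (hx : 0 < x) : (1 + x) / (1 + x ^ 3) ≤ 2 * (1 + x ^ 2)⁻¹ := by
  rw [← div_eq_mul_inv, div_le_div_iff₀ (by positivity) (by positivity)]
  nlinarith [mul_nonneg (by linarith : 0 ≤ 1 + x) (sq_nonneg (1 - x))]

theorem gk'_meas (ε : ℝ) : Measurable (gk' ε) := by
  unfold gk'
  fun_prop

/-- the fundamental theorem of calculus for the kernel -/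
theorem gk_ftc {ε a : ℝ} (hε : 0 ≤ ε) (ha : 0 < a) : IntegrableOn (gk' ε) (Ioi a) ∧ ∫ x in Ioi a, -gk' ε x = gk ε a := by
  have hi : IntegrableOn (gk' ε) (Ioi a) := by
    refine Integrable.mono' ((integrable_inv_one_add_sq.const_mul (768 / a)).integrableOn (s := Ioi a)) (gk'_meas ε).aestronglyMeasurable ?_
    refine (ae_restrict_mem measurableSet_Ioi).mono fun x hx => ?_
    have hx0 : 0 < x := ha.trans hx
    rw [Real.norm_eq_abs]
    refine (gk'_bd hε hx0).trans ?_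
    have h1 := cube_le hx0
    have h2 : 384 / (x * (1 + x ^ 3)) ≤ 384 / a * ((1 + x) / (1 + x ^ 3)) := by
      rw [div_mul_div_comm, div_le_div_iff₀ (by positivity) (by positivity)]
      have hx' : a < x := hx
      have h3 : 0 < 1 + x ^ 3 := by positivity
      have h4 : a ≤ (1 + x) * x := by nlinarith
      nlinarith [mul_le_mul_of_nonneg_right h4 h3.le]
    refine h2.trans ?_
    have h3 := mul_le_mul_of_nonneg_left h1 (by positivity : 0 ≤ 384 / a)
    refine h3.trans (le_of_eq ?_)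
    ring
  refine ⟨hi, ?_⟩
  have hlim : Tendsto (gk ε) atTop (𝓝 0) := by
    have h1 : Tendsto (fun x : ℝ => 32 * (x ^ 4)⁻¹) atTop (𝓝 0) := by
      have := (tendsto_inv_atTop_zero.comp (tendsto_pow_atTop (α := ℝ) (n := 4) (by norm_num))).const_mul 32
      simpa using this
    refine squeeze_zero' (Eventually.of_forall fun x => gk_nn ε x) ?_ h1
    filter_upwards [eventually_gt_atTop 0] with x hx
    unfold gk
    rw [← div_eq_mul_inv]
    refine div_le_div₀ (by norm_num) ?_ (by positivity) ?_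
    · have h2 : Real.sin (x / 2) ^ 2 ≤ 1 := Real.sin_sq_le_one _
      nlinarith [sq_nonneg (Real.sin (x / 2) ^ 2), sq_nonneg (Real.sin (x / 2))]
    · have h3 : x ^ 2 ≤ ε + x ^ 2 := by linarith
      calc x ^ 4 = (x ^ 2) ^ 2 := by ring
        _ ≤ (ε + x ^ 2) ^ 2 := pow_le_pow_left₀ (by positivity) h3 2
  have h1 := integral_Ioi_of_hasDerivAt_of_tendsto (gk_deriv hε ha).continuousAt.continuousWithinAt
    (fun x hx => gk_deriv hε (ha.trans hx)) hi hlim
  rw [integral_neg, h1]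
  ring

section

variable (T : Set ℝ) (b : ℝ → ℝ)

/-- the counting function -/
noncomputable def Bt (y : ℝ) : ℝ := ∑' t : T, if (t : ℝ) ≤ y then b t else 0

/-- locally finite positive weights -/
structure Ct : Prop where
  pos : ∀ t ∈ T, 0 < t
  nn : ∀ t : T, 0 ≤ b t
  fin : ∀ y : ℝ, (T ∩ Iic y).Finite

end

section

variable {T : Set ℝ} {b : ℝ → ℝ}

theorem Ct.count (ct : Ct T b) : Countable T := by
  have : T = ⋃ n : ℕ, T ∩ Iic (n : ℝ) := by
    ext x
    simp only [mem_iUnion, mem_inter_iff, mem_Iic]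
    constructor
    · intro h
      obtain ⟨n, hn⟩ := exists_nat_ge x
      exact ⟨n, h, hn⟩
    · rintro ⟨n, h, -⟩
      exact h
  have hc : T.Countable := by
    rw [this]
    exact countable_iUnion fun n => (ct.fin n).countable
  exact hc.to_subtype

theorem Ct.sm (ct : Ct T b) (y : ℝ) : Summable fun t : T => if (t : ℝ) ≤ y then b t else 0 := by
  refine summable_of_hasFiniteSupport ?_
  have h1 : (Subtype.val ⁻¹' (T ∩ Iic y) : Set T).Finite := (ct.fin y).preimage Subtype.val_injective.injOn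
  refine h1.subset fun t ht => ?_
  have ht' : (if (t : ℝ) ≤ y then b t else 0) ≠ 0 := ht
  refine ⟨t.2, ?_⟩
  by_contra hc
  exact ht' (if_neg hc)

theorem Ct.ite_nn (ct : Ct T b) (y : ℝ) (t : T) : 0 ≤ if (t : ℝ) ≤ y then b t else 0 := by
  split_ifs
  · exact ct.nn t
  · exact le_refl 0

theorem Ct.Bt_nn (ct : Ct T b) (y : ℝ) : 0 ≤ Bt T b y := tsum_nonneg fun t => ct.ite_nn y t

theorem Ct.mono (ct : Ct T b) {y z : ℝ} (h : y ≤ z) : Bt T b y ≤ Bt T b z := by
  refine Summable.tsum_le_tsum (fun t => ?_) (ct.sm y) (ct.sm z)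
  by_cases h1 : (t : ℝ) ≤ y
  · rw [if_pos h1, if_pos (h1.trans h)]
  · rw [if_neg h1]
    exact ct.ite_nn z t

theorem Ct.t0 (ct : Ct T b) : ∃ t0 : ℝ, 0 < t0 ∧ ∀ t ∈ T, t0 ≤ t := by
  rcases (T ∩ Iic (1 : ℝ)).eq_empty_or_nonempty with h | h
  · refine ⟨1, one_pos, fun t ht => ?_⟩
    by_contra hc
    have : t ∈ T ∩ Iic (1 : ℝ) := ⟨ht, (not_le.1 hc).le⟩
    rw [h] at this
    exact this
  · obtain ⟨a, ha, hm⟩ := exists_min_image (T ∩ Iic (1 : ℝ)) id (ct.fin 1) h
    refine ⟨a, ct.pos a ha.1, fun t ht => ?_⟩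
    rcases le_total t 1 with h1 | h1
    · exact hm t ⟨ht, h1⟩
    · exact (show a ≤ 1 from ha.2).trans h1

theorem Ct.zero (_ : Ct T b) {t0 y : ℝ} (h : ∀ t ∈ T, t0 ≤ t) (hy : y < t0) : Bt T b y = 0 := by
  unfold Bt
  have : ∀ t : T, (if (t : ℝ) ≤ y then b t else 0) = 0 := fun t => if_neg (not_le.2 (hy.trans_le (h t t.2)))
  rw [tsum_congr this, tsum_zero]

/-- the sum against the kernel as an integral of the counting function -/
theorem Ct.cake (ct : Ct T b) {ε h C : ℝ} (hε : 0 ≤ ε) (hh : 0 < h) (hC : ∀ x, 0 < x → Bt T b (x / h) ≤ C * x * (1 + x)) :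
    ∑' t : T, b t * gk ε (t * h) = ∫ x in Ioi (0 : ℝ), -gk' ε x * Bt T b (x / h) := by
  have := ct.count
  set F : T → ℝ → ℝ := fun t x => -gk' ε x * (if (t : ℝ) ≤ x / h then b t else 0) with hF
  have hmeas : ∀ t : T, Measurable (F t) := fun t => by
    refine (gk'_meas ε).neg.mul (Measurable.ite ?_ measurable_const measurable_const)
    exact measurableSet_le measurable_const (measurable_id.div_const h)
  have h1 : ∀ x : ℝ, -gk' ε x * Bt T b (x / h) = ∑' t : T, F t x := fun x => by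
    rw [hF]
    simp only
    rw [tsum_mul_left]
    rfl
  have h2 : ∀ t : T, ∫ x in Ioi (0 : ℝ), F t x = b t * gk ε (t * h) := by
    intro t
    have ha : 0 < (t : ℝ) * h := mul_pos (ct.pos t t.2) hh
    have e1 : ∀ x : ℝ, F t x = (Ici ((t : ℝ) * h)).indicator (fun x => -gk' ε x * b t) x := by
      intro x
      rw [hF]
      simp only
      by_cases hx : (t : ℝ) * h ≤ x
      · rw [indicator_of_mem (show x ∈ Ici ((t : ℝ) * h) from hx), if_pos ((le_div_iff₀ hh).2 hx)]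
      · rw [indicator_of_notMem (show x ∉ Ici ((t : ℝ) * h) from hx), if_neg (fun h3 => hx ((le_div_iff₀ hh).1 h3)), mul_zero]
    simp_rw [e1]
    rw [setIntegral_indicator measurableSet_Ici]
    have e2 : Ioi (0 : ℝ) ∩ Ici ((t : ℝ) * h) = Ici ((t : ℝ) * h) := inter_eq_right.2 fun x hx => ha.trans_le hx
    rw [e2, integral_Ici_eq_integral_Ioi, integral_mul_const, (gk_ftc hε ha).2]
    ring
  rw [show (fun x => -gk' ε x * Bt T b (x / h)) = fun x => ∑' t : T, F t x from funext h1,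
    integral_tsum (fun t => (hmeas t).aestronglyMeasurable) ?_]
  · exact (tsum_congr h2).symm
  · rw [← lintegral_tsum (fun t => (hmeas t).enorm.aemeasurable)]
    have e1 : ∀ x : ℝ, ∑' t : T, ‖F t x‖ₑ = ENNReal.ofReal (|gk' ε x| * Bt T b (x / h)) := by
      intro x
      unfold Bt
      rw [← tsum_mul_left, ENNReal.ofReal_tsum_of_nonneg (fun t => mul_nonneg (abs_nonneg _) (ct.ite_nn _ t)) ((ct.sm _).mul_left _)]
      refine tsum_congr fun t => ?_
      rw [Real.enorm_eq_ofReal_abs, hF]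
      simp only
      rw [abs_mul, abs_neg, abs_of_nonneg (ct.ite_nn _ t)]
    simp_rw [e1]
    have e2 : ∫⁻ x in Ioi (0 : ℝ), ENNReal.ofReal (|gk' ε x| * Bt T b (x / h)) ≤ ∫⁻ x in Ioi (0 : ℝ), ENNReal.ofReal ((768 * |C|) * (1 + x ^ 2)⁻¹) := by
      refine setLIntegral_mono' measurableSet_Ioi fun x hx => ENNReal.ofReal_le_ofReal ?_
      have hx0 : (0 : ℝ) < x := hx
      have h3 : Bt T b (x / h) ≤ |C| * x * (1 + x) := (hC x hx0).trans (by
        have := le_abs_self C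
        gcongr)
      calc |gk' ε x| * Bt T b (x / h) ≤ (384 / (x * (1 + x ^ 3))) * (|C| * x * (1 + x)) :=
            mul_le_mul (gk'_bd hε hx0) h3 (ct.Bt_nn _) (by positivity)
        _ = (384 * |C|) * ((1 + x) / (1 + x ^ 3)) := by
            field_simp
        _ ≤ (384 * |C|) * (2 * (1 + x ^ 2)⁻¹) := mul_le_mul_of_nonneg_left (cube_le hx0) (by positivity)
        _ = (768 * |C|) * (1 + x ^ 2)⁻¹ := by ring
    refine (e2.trans_lt ?_).ne
    have h4 : Integrable (fun x : ℝ => (768 * |C|) * (1 + x ^ 2)⁻¹) (volume.restrict (Ioi 0)) :=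
      (integrable_inv_one_add_sq.const_mul _).integrableOn
    have h5 := h4.2
    rwa [hasFiniteIntegral_iff_ofReal (Eventually.of_forall fun x => by
      show 0 ≤ (768 * |C|) * (1 + x ^ 2)⁻¹
      positivity)] at h5

/-- the constant -/
noncomputable def Gc : ℝ := ∫ x in Ioi (0 : ℝ), -gk' 0 x * x

/-- **asymptotics of sums against the kernel** -/
theorem Ct.lim (ct : Ct T b) {ε ℓ : ℝ → ℝ} (hε0 : ∀ h, 0 ≤ ε h) (hε : Tendsto ε (𝓝[>] 0) (𝓝 0))
    (hℓ : ∀ᶠ h in 𝓝[>] (0 : ℝ), 0 ≤ ℓ h) {C κ : ℝ} (hC : 0 ≤ C)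
    (hb : ∀ᶠ h in 𝓝[>] (0 : ℝ), ∀ x, 0 < x → ℓ h * Bt T b (x / h) ≤ C * x * (1 + x))
    (hB : ∀ h, 0 < h → ∃ C, ∀ x, 0 < x → Bt T b (x / h) ≤ C * x * (1 + x))
    (hl : ∀ x, 0 < x → Tendsto (fun h => ℓ h * Bt T b (x / h)) (𝓝[>] 0) (𝓝 (κ * x))) :
    Tendsto (fun h => ℓ h * ∑' t : T, b t * gk (ε h) (t * h)) (𝓝[>] 0) (𝓝 (κ * Gc)) := by
  have h1 : Tendsto (fun h => ∫ x in Ioi (0 : ℝ), -gk' (ε h) x * (ℓ h * Bt T b (x / h))) (𝓝[>] 0)
      (𝓝 (∫ x in Ioi (0 : ℝ), -gk' 0 x * (κ * x))) := by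
    refine tendsto_integral_filter_of_dominated_convergence (fun x => (768 * C) * (1 + x ^ 2)⁻¹) ?_ ?_ ?_ ?_
    · refine Eventually.of_forall fun h => Measurable.aestronglyMeasurable ?_
      refine (gk'_meas _).neg.mul (measurable_const.mul ?_)
      have hm : Monotone (Bt T b) := fun y z hyz => ct.mono hyz
      exact hm.measurable.comp (measurable_id.div_const h)
    · filter_upwards [hb, hℓ] with h hb hℓ
      refine (ae_restrict_mem measurableSet_Ioi).mono fun x hx => ?_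
      have hx0 : (0 : ℝ) < x := hx
      have h2 : 0 ≤ ℓ h * Bt T b (x / h) := mul_nonneg hℓ (ct.Bt_nn _)
      rw [norm_mul, norm_neg, Real.norm_eq_abs, Real.norm_eq_abs, abs_of_nonneg h2]
      calc |gk' (ε h) x| * (ℓ h * Bt T b (x / h)) ≤ (384 / (x * (1 + x ^ 3))) * (C * x * (1 + x)) :=
            mul_le_mul (gk'_bd (hε0 h) hx0) (hb x hx0) h2 (by positivity)
        _ = (384 * C) * ((1 + x) / (1 + x ^ 3)) := by
            field_simp
        _ ≤ (384 * C) * (2 * (1 + x ^ 2)⁻¹) := mul_le_mul_of_nonneg_left (cube_le hx0) (by positivity)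
        _ = (768 * C) * (1 + x ^ 2)⁻¹ := by ring
    · exact (integrable_inv_one_add_sq.const_mul _).integrableOn
    · refine (ae_restrict_mem measurableSet_Ioi).mono fun x hx => ?_
      have hx0 : (0 : ℝ) < x := hx
      have h2 : Tendsto (fun h => gk' (ε h) x) (𝓝[>] 0) (𝓝 (gk' 0 x)) := by
        have hc : ContinuousAt (fun e : ℝ => gk' e x) 0 := by
          have h3 : (0 + x ^ 2 : ℝ) ≠ 0 := by positivity
          unfold gk'
          refine ContinuousAt.sub ?_ ?_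
          · refine ContinuousAt.div continuousAt_const (by fun_prop) (pow_ne_zero _ h3)
          · refine ContinuousAt.div continuousAt_const (by fun_prop) (pow_ne_zero _ h3)
        exact hc.tendsto.comp hε
      exact h2.neg.mul (hl x hx0)
  have e1 : ∫ x in Ioi (0 : ℝ), -gk' 0 x * (κ * x) = κ * Gc := by
    unfold Gc
    rw [← integral_const_mul]
    refine integral_congr_ae (Eventually.of_forall fun x => ?_)
    simp only
    ring
  rw [e1] at h1
  refine h1.congr' ?_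
  filter_upwards [self_mem_nhdsWithin] with h hh
  have hh0 : (0 : ℝ) < h := hh
  obtain ⟨C', hC'⟩ := hB h hh0
  rw [ct.cake (hε0 h) hh0 hC', ← integral_const_mul]
  refine integral_congr_ae (Eventually.of_forall fun x => ?_)
  simp only
  ring

end

end Run7.h278.LG
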