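import Pool.Agent.Run7.h278.LG.Tau

set_option autoImplicit false

/-!
# Asymptotics of sums against the kernel of the second difference
-/

namespace Run7.h278.LG

open Filter Topology MeasureTheory Set
open scoped ENNReal

section

variable {T : Set ℝ} {b : ℝ → ℝ}

theorem Ct.bd (ct : Ct T b) {κ : ℝ} (hl : Tendsto (fun y => Bt T b y / (y * Real.log y)) atTop (𝓝 κ)) :
    ∃ C : ℝ, 0 ≤ C ∧ ∀ y, 0 < y → Bt T b y ≤ C * y * (1 + Real.log (1 + y)) := by
  obtain ⟨t0, ht0, ht⟩ := ct.t0
  have h1 : ∀ᶠ y in atTop, Bt T b y / (y * Real.log y) < |κ| + 1 := hl.eventually_lt_const (by linarith [le_abs_self κ])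
  obtain ⟨Y0, hY0⟩ := eventually_atTop.1 h1
  set Y := max Y0 3 with hY
  have hY3 : 3 ≤ Y := le_max_right _ _
  have hBY : 0 ≤ Bt T b Y := ct.Bt_nn Y
  have hC : 0 ≤ |κ| + 1 + Bt T b Y / t0 := by positivity
  refine ⟨|κ| + 1 + Bt T b Y / t0, hC, fun y hy => ?_⟩
  have hlog : 0 ≤ Real.log (1 + y) := Real.log_nonneg (by linarith)
  rcases lt_or_ge y Y with h | h
  · rcases lt_or_ge y t0 with h2 | h2
    · rw [ct.zero ht h2]
      positivity
    · have h3 : Bt T b y ≤ Bt T b Y := ct.mono h.le
      have h4 : Bt T b Y ≤ Bt T b Y / t0 * y := by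
        rw [div_mul_eq_mul_div, le_div_iff₀ ht0]
        exact mul_le_mul_of_nonneg_left h2 hBY
      have h5 : Bt T b Y / t0 * y ≤ (|κ| + 1 + Bt T b Y / t0) * y := by
        refine mul_le_mul_of_nonneg_right ?_ hy.le
        have := abs_nonneg κ
        linarith
      have h6 : (|κ| + 1 + Bt T b Y / t0) * y ≤ (|κ| + 1 + Bt T b Y / t0) * y * (1 + Real.log (1 + y)) :=
        le_mul_of_one_le_right (by positivity) (by linarith)
      linarith
  · have hy3 : 3 ≤ y := hY3.trans h
    have h2 := hY0 y ((le_max_left _ _).trans h)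
    have hly : 0 < Real.log y := Real.log_pos (by linarith)
    rw [div_lt_iff₀ (by positivity)] at h2
    have h3 : Real.log y ≤ 1 + Real.log (1 + y) := by
      have := Real.log_le_log hy (by linarith : y ≤ 1 + y)
      linarith
    calc Bt T b y ≤ (|κ| + 1) * (y * Real.log y) := h2.le
      _ ≤ (|κ| + 1 + Bt T b Y / t0) * (y * Real.log y) := by
          refine mul_le_mul_of_nonneg_right ?_ (by positivity)
          have : 0 ≤ Bt T b Y / t0 := by positivity
          linarith
      _ ≤ (|κ| + 1 + Bt T b Y / t0) * (y * (1 + Real.log (1 + y))) := by gcongr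
      _ = _ := by ring

/-- **the Abelian theorem** -/
theorem Ct.tau (ct : Ct T b) {κ : ℝ} (hl : Tendsto (fun y => Bt T b y / (y * Real.log y)) atTop (𝓝 κ)) :
    Tendsto (fun h => (∑' t : T, 32 * Real.sin (t * h / 2) ^ 4 * (b t / (1 / 4 + (t : ℝ) ^ 2) ^ 2)) / (h ^ 3 * Real.log (1 / h)))
      (𝓝[>] 0) (𝓝 (κ * Gc)) := by
  obtain ⟨C, hC, hbd⟩ := ct.bd hl
  have hinv : Tendsto (fun h : ℝ => 1 / h) (𝓝[>] 0) atTop := by
    simpa using tendsto_inv_nhdsGT_zero (𝕜 := ℝ)
  have hL : Tendsto (fun h : ℝ => Real.log (1 / h)) (𝓝[>] 0) atTop := Real.tendsto_log_atTop.comp hinv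
  have hL1 : ∀ᶠ h in 𝓝[>] (0 : ℝ), 1 ≤ Real.log (1 / h) := hL.eventually_ge_atTop 1
  have hh1 : ∀ᶠ h in 𝓝[>] (0 : ℝ), h ≤ 1 := by
    filter_upwards [hinv.eventually_ge_atTop 1, self_mem_nhdsWithin] with h h1 h2
    have h2' : (0 : ℝ) < h := h2
    rwa [le_div_iff₀ h2', one_mul] at h1
  have key := ct.lim (ε := fun h => h ^ 2 / 4) (ℓ := fun h => h / Real.log (1 / h)) (C := 2 * C) (κ := κ) (fun h => by positivity) ?_ ?_
    (by positivity) ?_ ?_ ?_
  · refine key.congr' ?_
    filter_upwards [hL1, self_mem_nhdsWithin] with h h1 h2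
    have h2' : (0 : ℝ) < h := h2
    have e : ∀ t : T, b t * gk (h ^ 2 / 4) (t * h) = (1 / h ^ 4) * (32 * Real.sin (t * h / 2) ^ 4 * (b t / (1 / 4 + (t : ℝ) ^ 2) ^ 2)) := by
      intro t
      unfold gk
      have h3 : h ^ 2 / 4 + ((t : ℝ) * h) ^ 2 = h ^ 2 * (1 / 4 + (t : ℝ) ^ 2) := by ring
      rw [h3]
      have h4 : 0 < 1 / 4 + (t : ℝ) ^ 2 := by positivity
      field_simp
    rw [tsum_congr e, tsum_mul_left]
    have hL0 : 0 < Real.log (1 / h) := by linarith
    generalize (∑' t : T, 32 * Real.sin (t * h / 2) ^ 4 * (b t / (1 / 4 + (t : ℝ) ^ 2) ^ 2)) = S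
    field_simp
  · have : Tendsto (fun h : ℝ => h ^ 2 / 4) (𝓝 0) (𝓝 (0 ^ 2 / 4)) := (by fun_prop : Continuous fun h : ℝ => h ^ 2 / 4).tendsto 0
    rw [show (0 : ℝ) ^ 2 / 4 = 0 by norm_num] at this
    exact this.mono_left nhdsWithin_le_nhds
  · filter_upwards [hL1, self_mem_nhdsWithin] with h h1 h2
    have h2' : (0 : ℝ) < h := h2
    exact div_nonneg h2'.le (by linarith)
  · filter_upwards [hL1, hh1, self_mem_nhdsWithin] with h h1 h3 h2 x hx
    have h2' : (0 : ℝ) < h := h2
    have hL0 : 0 < Real.log (1 / h) := by linarith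
    have h4 := hbd (x / h) (by positivity)
    have h5 : Real.log (1 + x / h) ≤ x + Real.log (1 / h) := by
      have h6 : 1 + x / h ≤ (1 + x) * (1 / h) := by
        have : (1 + x) * (1 / h) = 1 / h + x / h := by ring
        rw [this]
        have h7 : 1 ≤ 1 / h := by
          rw [le_div_iff₀ h2', one_mul]
          exact h3
        linarith
      have h7 := Real.log_le_log (by positivity : 0 < 1 + x / h) h6
      rw [Real.log_mul (by positivity) (by positivity)] at h7
      have h8 : Real.log (1 + x) ≤ x := by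
        have := Real.log_le_sub_one_of_pos (by linarith : 0 < 1 + x)
        linarith
      linarith
    calc h / Real.log (1 / h) * Bt T b (x / h) ≤ h / Real.log (1 / h) * (C * (x / h) * (1 + Real.log (1 + x / h))) :=
          mul_le_mul_of_nonneg_left h4 (by positivity)
      _ = C * x * ((1 + Real.log (1 + x / h)) / Real.log (1 / h)) := by
          field_simp
      _ ≤ C * x * (2 + x) := by
          refine mul_le_mul_of_nonneg_left ?_ (by positivity)
          rw [div_le_iff₀ hL0]
          nlinarith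
      _ ≤ 2 * C * x * (1 + x) := by nlinarith [mul_nonneg hC hx.le, mul_nonneg (mul_nonneg hC hx.le) hx.le]
  · intro h hh
    refine ⟨C * (1 / h) * (1 + 1 / h), fun x hx => ?_⟩
    have h4 := hbd (x / h) (by positivity)
    have h5 : Real.log (1 + x / h) ≤ x / h := by
      have := Real.log_le_sub_one_of_pos (by positivity : 0 < 1 + x / h)
      linarith
    calc Bt T b (x / h) ≤ C * (x / h) * (1 + Real.log (1 + x / h)) := h4
      _ ≤ C * (x / h) * (1 + x / h) := mul_le_mul_of_nonneg_left (by linarith) (by positivity)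
      _ ≤ C * (x / h) * ((1 + 1 / h) * (1 + x)) := by
          refine mul_le_mul_of_nonneg_left ?_ (by positivity)
          have : (1 + 1 / h) * (1 + x) = 1 + x / h + (1 / h + x) := by ring
          rw [this]
          have : 0 < 1 / h + x := by positivity
          linarith
      _ = _ := by ring
  · intro x hx
    have hy : Tendsto (fun h : ℝ => x / h) (𝓝[>] 0) atTop := by
      have := hinv.const_mul_atTop hx
      refine this.congr fun h => ?_
      ring
    have h1 := (hl.comp hy).mul_const x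
    have h2 : Tendsto (fun h : ℝ => Real.log (x / h) / Real.log (1 / h)) (𝓝[>] 0) (𝓝 1) := by
      have h3 : Tendsto (fun h : ℝ => Real.log x / Real.log (1 / h) + 1) (𝓝[>] 0) (𝓝 (0 + 1)) :=
        (tendsto_const_nhds.div_atTop hL).add tendsto_const_nhds
      rw [zero_add] at h3
      refine h3.congr' ?_
      filter_upwards [hL1, self_mem_nhdsWithin] with h h1 h2
      have h2' : (0 : ℝ) < h := h2
      have hL0 : 0 < Real.log (1 / h) := by linarith
      rw [show x / h = x * (1 / h) by ring, Real.log_mul hx.ne' (by positivity)]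
      field_simp
    have h3 := h1.mul h2
    rw [mul_one] at h3
    refine h3.congr' ?_
    filter_upwards [hL1, hy.eventually_ge_atTop 3, self_mem_nhdsWithin] with h h1 h4 h2
    have h2' : (0 : ℝ) < h := h2
    have hL0 : 0 < Real.log (1 / h) := by linarith
    have hL2 : 0 < Real.log (x / h) := Real.log_pos (by linarith)
    simp only [Function.comp_apply]
    field_simp

end

/-- dyadic summation -/
theorem dyad {E : ℝ → ℝ} {C Y M : ℝ} (hY : 0 < Y) (hC : 0 ≤ C) (h1 : ∀ y, Y ≤ y → |E (2 * y) - E y| ≤ C * y)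
    (hM : ∀ y, Y ≤ y → y ≤ 2 * Y → |E y| ≤ M) : ∃ K : ℝ, 0 ≤ K ∧ ∀ y, Y ≤ y → |E y| ≤ K * y := by
  have hM0 : 0 ≤ M := (abs_nonneg _).trans (hM Y le_rfl (by linarith))
  have hK : 0 ≤ C + M / Y := by positivity
  refine ⟨C + M / Y, hK, ?_⟩
  have key : ∀ n : ℕ, ∀ y, Y ≤ y → y ≤ 2 ^ (n + 1) * Y → |E y| ≤ (C + M / Y) * y := by
    intro n
    induction n with
    | zero =>
      intro y hy hy2
      rw [zero_add, pow_one] at hy2
      refine (hM y hy hy2).trans ?_
      have h2 : M ≤ M / Y * y := by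
        rw [div_mul_eq_mul_div, le_div_iff₀ hY]
        exact mul_le_mul_of_nonneg_left hy hM0
      have h3 : 0 ≤ C * y := mul_nonneg hC (hY.le.trans hy)
      nlinarith
    | succ n ih =>
      intro y hy hy2
      rcases le_total y (2 ^ (n + 1) * Y) with h | h
      · exact ih y hy h
      · have hp : (1 : ℝ) ≤ 2 ^ n := one_le_pow₀ (by norm_num)
        have h2 : Y ≤ y / 2 := by
          rw [pow_succ] at h
          have : Y ≤ 2 ^ n * Y := le_mul_of_one_le_left hY.le hp
          linarith
        have h3 : y / 2 ≤ 2 ^ (n + 1) * Y := by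
          rw [pow_succ] at hy2
          linarith
        have h4 := ih (y / 2) h2 h3
        have h5 := h1 (y / 2) h2
        rw [show 2 * (y / 2) = y by ring] at h5
        have h6 := abs_sub_abs_le_abs_sub (E y) (E (y / 2))
        have h7 : 0 ≤ M / Y := by positivity
        have hy0 : 0 ≤ y := hY.le.trans hy
        nlinarith [mul_nonneg h7 hy0]
  intro y hy
  obtain ⟨n, hn⟩ := exists_nat_ge (y / Y)
  refine key n y hy ?_
  rw [div_le_iff₀ hY] at hn
  refine hn.trans (mul_le_mul_of_nonneg_right ?_ hY.le)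
  have h2 : (n : ℝ) ≤ 2 ^ n := by exact_mod_cast n.lt_two_pow_self.le
  have h3 : (2 : ℝ) ^ n ≤ 2 ^ (n + 1) := pow_le_pow_right₀ (by norm_num) (by omega)
  linarith

/-- the order of magnitude of a counting function from its dyadic differences -/
theorem dyad_lim {B : ℝ → ℝ} {C Y κ : ℝ} (hY : 3 ≤ Y) (hC : 0 ≤ C) (hκ : 0 ≤ κ) (h1 : ∀ y, Y ≤ y → |B (2 * y) - B y - κ * (y * Real.log y)| ≤ C * y)
    (h0 : ∀ y, 0 ≤ B y) (hm : ∀ y z, y ≤ z → B y ≤ B z) : Tendsto (fun y => B y / (y * Real.log y)) atTop (𝓝 κ) := by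
  have hl2 : 0 ≤ Real.log 2 := Real.log_nonneg (by norm_num)
  obtain ⟨K, hK0, hK⟩ := dyad (E := fun y => B y - κ * (y * Real.log y)) (C := C + 2 * κ * Real.log 2) (Y := Y)
    (M := B (2 * Y) + κ * (2 * Y * Real.log (2 * Y))) (by linarith) (by positivity) (fun y hy => by
      have hy0 : 0 < y := by linarith
      have e : B (2 * y) - κ * (2 * y * Real.log (2 * y)) - (B y - κ * (y * Real.log y)) =
          (B (2 * y) - B y - κ * (y * Real.log y)) - 2 * κ * Real.log 2 * y := by
        rw [Real.log_mul (by norm_num) hy0.ne']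
        ring
      rw [e]
      have h2 := h1 y hy
      refine (abs_sub _ _).trans ?_
      rw [abs_of_nonneg (by positivity : 0 ≤ 2 * κ * Real.log 2 * y)]
      linarith) (fun y hy hy2 => by
      have hy0 : 0 < y := by linarith
      have hly : 0 ≤ Real.log y := Real.log_nonneg (by linarith)
      have h2 : Real.log y ≤ Real.log (2 * Y) := Real.log_le_log hy0 hy2
      have h3 : y * Real.log y ≤ 2 * Y * Real.log (2 * Y) := mul_le_mul hy2 h2 hly (by linarith)
      refine (abs_sub _ _).trans ?_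
      rw [abs_of_nonneg (h0 y), abs_of_nonneg (by positivity : 0 ≤ κ * (y * Real.log y))]
      exact add_le_add (hm _ _ hy2) (mul_le_mul_of_nonneg_left h3 hκ))
  have h2 : Tendsto (fun y => (B y - κ * (y * Real.log y)) / (y * Real.log y)) atTop (𝓝 0) := by
    have h3 : Tendsto (fun y : ℝ => K / Real.log y) atTop (𝓝 0) := tendsto_const_nhds.div_atTop Real.tendsto_log_atTop
    rw [tendsto_zero_iff_norm_tendsto_zero]
    refine squeeze_zero' (Eventually.of_forall fun _ => norm_nonneg _) ?_ h3
    filter_upwards [eventually_ge_atTop Y] with y hy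
    have hy0 : 0 < y := by linarith
    have hly : 0 < Real.log y := Real.log_pos (by linarith)
    rw [Real.norm_eq_abs, abs_div, abs_of_pos (by positivity : 0 < y * Real.log y), div_le_div_iff₀ (by positivity) hly]
    have h4 := hK y hy
    nlinarith [mul_le_mul_of_nonneg_right h4 hly.le]
  have h3 := h2.add_const κ
  rw [zero_add] at h3
  refine h3.congr' ?_
  filter_upwards [eventually_ge_atTop 3] with y hy
  have hy0 : 0 < y := by linarith
  have hly : 0 < Real.log y := Real.log_pos (by linarith)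
  field_simp
  ring

end Run7.h278.LG
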