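import Pool.Agent.Run7.h278.LG.Kap

set_option autoImplicit false

/-!
# Expansions of sums of Poisson kernels
-/

namespace Run7.h278.LG

open Filter Topology MeasureTheory Set
open scoped ENNReal

/-- a polynomial which is `o(x^k)` -/
theorem pol_dvd (k : ℕ) : ∀ q : Polynomial ℝ, Tendsto (fun x : ℝ => q.eval x / x ^ k) (𝓝[>] 0) (𝓝 0) → Polynomial.X ^ (k + 1) ∣ q := by
  have h0 : ∀ q : Polynomial ℝ, Tendsto (fun x : ℝ => q.eval x) (𝓝[>] 0) (𝓝 0) → ∃ r : Polynomial ℝ, q = Polynomial.X * r := by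
    intro q h
    have h1 : Tendsto (fun x : ℝ => q.eval x) (𝓝[>] 0) (𝓝 (q.eval 0)) := (q.continuous.tendsto 0).mono_left nhdsWithin_le_nhds
    have h2 := tendsto_nhds_unique h1 h
    have h3 : Polynomial.X ∣ q := by
      rw [Polynomial.X_dvd_iff, Polynomial.coeff_zero_eq_eval_zero]
      exact h2
    exact h3
  induction k with
  | zero =>
    intro q h
    simp only [pow_zero, div_one] at h
    obtain ⟨r, hr⟩ := h0 q h
    exact ⟨r, by rw [hr]; ring⟩
  | succ k ih =>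
    intro q h
    have hx : Tendsto (fun x : ℝ => x ^ (k + 1)) (𝓝[>] 0) (𝓝 0) := by
      have : Tendsto (fun x : ℝ => x ^ (k + 1)) (𝓝 0) (𝓝 (0 ^ (k + 1))) := (continuous_pow (k + 1)).tendsto 0
      rw [zero_pow (by omega)] at this
      exact this.mono_left nhdsWithin_le_nhds
    have h1 := h.mul hx
    rw [zero_mul] at h1
    have h2 : Tendsto (fun x : ℝ => q.eval x) (𝓝[>] 0) (𝓝 0) := by
      refine h1.congr' ?_
      filter_upwards [self_mem_nhdsWithin] with x hx
      have hx0 : (0 : ℝ) < x := hx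
      field_simp
    obtain ⟨r, hr⟩ := h0 q h2
    have h3 : Tendsto (fun x : ℝ => r.eval x / x ^ k) (𝓝[>] 0) (𝓝 0) := by
      refine h.congr' ?_
      filter_upwards [self_mem_nhdsWithin] with x hx
      have hx0 : (0 : ℝ) < x := hx
      rw [hr, Polynomial.eval_mul, Polynomial.eval_X, pow_succ]
      field_simp
    obtain ⟨s, hs⟩ := ih r h3
    exact ⟨s, by rw [hr, hs]; ring⟩

theorem pol_bd (r : Polynomial ℝ) : ∃ C : ℝ, 0 ≤ C ∧ ∀ x : ℝ, 0 ≤ x → x ≤ 1 → |r.eval x| ≤ C := by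
  obtain ⟨C, hC⟩ := (isCompact_Icc (a := (0 : ℝ)) (b := 1)).exists_bound_of_continuousOn r.continuous.continuousOn
  exact ⟨C, (norm_nonneg _).trans (hC 0 ⟨le_rfl, zero_le_one⟩), fun x h0 h1 => hC x ⟨h0, h1⟩⟩

section

variable {κ : Type} {D θ : κ → ℝ}

/-- the kernels -/
noncomputable def gq (θ : κ → ℝ) (k : ℕ) (δ : ℝ) (i : κ) : ℝ := (δ / θ i) ^ (2 * k) * (δ ^ 2 / (δ ^ 2 + θ i ^ 2))

theorem gq_nn (k : ℕ) (δ : ℝ) (i : κ) : 0 ≤ gq θ k δ i := by
  unfold gq
  have : 0 ≤ (δ / θ i) ^ (2 * k) := by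
    rw [pow_mul]
    positivity
  positivity

/-- sums -/
noncomputable def Rq (D θ : κ → ℝ) (k : ℕ) (δ : ℝ) : ℝ := ∑' i, D i * gq θ k δ i

theorem gq_le (k : ℕ) {δ : ℝ} (hδ : 0 < δ) (i : κ) : gq θ k δ i ≤ δ ^ (2 * k) * (1 / θ i ^ (2 * k)) := by
  unfold gq
  have h1 : 0 ≤ (δ / θ i) ^ (2 * k) := by
    rw [pow_mul]
    positivity
  have h2 : δ ^ 2 / (δ ^ 2 + θ i ^ 2) ≤ 1 := by
    rw [div_le_one (by positivity)]
    nlinarith [sq_nonneg (θ i)]
  calc (δ / θ i) ^ (2 * k) * (δ ^ 2 / (δ ^ 2 + θ i ^ 2)) ≤ (δ / θ i) ^ (2 * k) * 1 := mul_le_mul_of_nonneg_left h2 h1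
    _ = _ := by
      rw [div_pow]
      ring

theorem gq_sum (h0 : ∀ i, 0 ≤ D i) {k : ℕ} (hs : Summable fun i => D i / θ i ^ (2 * k)) {δ : ℝ} (hδ : 0 < δ) :
    Summable fun i => D i * gq θ k δ i := by
  refine Summable.of_nonneg_of_le (fun i => mul_nonneg (h0 i) (gq_nn k δ i)) (fun i => ?_) (hs.mul_left (δ ^ (2 * k)))
  refine (mul_le_mul_of_nonneg_left (gq_le k hδ i) (h0 i)).trans (le_of_eq ?_)
  ring

theorem Rq_step (h0 : ∀ i, 0 ≤ D i) (hz : ∀ i, θ i = 0 → D i = 0) {k : ℕ} (hs : Summable fun i => D i / θ i ^ (2 * k))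
    (hs' : Summable fun i => D i / θ i ^ (2 * (k + 1))) {δ : ℝ} (hδ : 0 < δ) :
    Rq D θ k δ = δ ^ (2 * (k + 1)) * (∑' i, D i / θ i ^ (2 * (k + 1))) - Rq D θ (k + 1) δ := by
  unfold Rq
  rw [← tsum_mul_left, ← (hs'.mul_left _).tsum_sub (gq_sum h0 hs' hδ)]
  refine tsum_congr fun i => ?_
  by_cases hi : θ i = 0
  · rw [hz i hi]
    simp
  · unfold gq
    have h1 : δ ^ 2 + θ i ^ 2 ≠ 0 := by positivity
    rw [div_pow, div_pow, show 2 * (k + 1) = 2 * k + 2 by ring, pow_add, pow_add]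
    field_simp
    ring

theorem Rq_o (h0 : ∀ i, 0 ≤ D i) (hz : ∀ i, θ i = 0 → D i = 0) {k : ℕ} (hs : Summable fun i => D i / θ i ^ (2 * k)) :
    Tendsto (fun δ : ℝ => Rq D θ k δ / δ ^ (2 * k)) (𝓝[>] 0) (𝓝 0) := by
  have h1 : Tendsto (fun δ : ℝ => ∑' i, D i / θ i ^ (2 * k) * (δ ^ 2 / (δ ^ 2 + θ i ^ 2))) (𝓝[>] 0) (𝓝 (∑' _ : κ, (0 : ℝ))) := by
    refine tendsto_tsum_of_dominated_convergence hs (fun i => ?_) (Eventually.of_forall fun δ i => ?_)
    · by_cases hi : θ i = 0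
      · rw [hz i hi]
        simp
      · have h2 : Tendsto (fun δ : ℝ => δ ^ 2 / (δ ^ 2 + θ i ^ 2)) (𝓝 0) (𝓝 (0 ^ 2 / (0 ^ 2 + θ i ^ 2))) := by
          refine Tendsto.div ?_ ?_ (by positivity)
          · exact (continuous_pow 2).tendsto 0
          · exact ((continuous_pow 2).tendsto 0).add_const _
        have h3 := (h2.const_mul (D i / θ i ^ (2 * k))).mono_left (nhdsWithin_le_nhds (s := Ioi (0 : ℝ)))
        simpa using h3
    · have h2 : 0 ≤ D i / θ i ^ (2 * k) := by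
        have := h0 i
        rw [pow_mul]
        positivity
      have h3 : δ ^ 2 / (δ ^ 2 + θ i ^ 2) ≤ 1 := div_le_one_of_le₀ (by nlinarith [sq_nonneg (θ i)]) (by positivity)
      rw [Real.norm_eq_abs, abs_of_nonneg (by positivity)]
      exact mul_le_of_le_one_right h2 h3
  rw [tsum_zero] at h1
  refine h1.congr' ?_
  filter_upwards [self_mem_nhdsWithin] with δ hδ
  have hδ0 : (0 : ℝ) < δ := hδ
  unfold Rq
  rw [← tsum_div_const]
  refine tsum_congr fun i => ?_
  unfold gq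
  rw [div_pow]
  by_cases hi : θ i = 0
  · rw [hz i hi]
    simp
  · field_simp

/-- **From the expansion to the number of near relations.** -/
theorem exp_near (h0 : ∀ i, 0 ≤ D i) (hz : ∀ i, θ i = 0 → D i = 0) (hs : Summable D) {c C : ℝ} (hc : 0 < c) {q : Polynomial ℝ}
    (h : ∀ δ : ℝ, 0 < δ → δ < 1 → |Rq D θ 0 δ - q.eval (δ ^ 2)| ≤ C * δ ^ c) :
    ∃ C' : ℝ, ∀ v : ℝ, 0 < v → v < 1 → (∑' i, open Classical in if |θ i| ≤ v then D i else 0) ≤ C' * v ^ c := by
  classical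
  -- the remainder is `O(δ^(min c (2k+2)))`
  have hbig : ∀ (k : ℕ), (2 * k : ℝ) < c → Summable (fun i => D i / θ i ^ (2 * k)) → ∀ (q : Polynomial ℝ) (C : ℝ),
      (∀ δ : ℝ, 0 < δ → δ < 1 → |Rq D θ k δ - q.eval (δ ^ 2)| ≤ C * δ ^ c) →
      ∃ C' : ℝ, 0 ≤ C' ∧ ∀ δ : ℝ, 0 < δ → δ < 1 → Rq D θ k δ ≤ C' * (δ ^ c + δ ^ (2 * (k + 1))) := by
    intro k hk hsk q C h
    have h1 := Rq_o h0 hz hsk
    have h2 : Tendsto (fun δ : ℝ => C * δ ^ (c - 2 * k)) (𝓝[>] 0) (𝓝 0) := by
      have h3 : Tendsto (fun δ : ℝ => δ ^ (c - 2 * k)) (𝓝 0) (𝓝 (0 ^ (c - 2 * k))) :=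
        (Real.continuousAt_rpow_const 0 (c - 2 * k) (Or.inr (by linarith))).tendsto
      rw [Real.zero_rpow (by linarith)] at h3
      have h4 := (h3.mono_left (nhdsWithin_le_nhds (s := Ioi (0 : ℝ)))).const_mul C
      rwa [mul_zero] at h4
    have h3 : Tendsto (fun δ : ℝ => q.eval (δ ^ 2) / (δ ^ 2) ^ k) (𝓝[>] 0) (𝓝 0) := by
      have h4 : Tendsto (fun δ : ℝ => q.eval (δ ^ 2) / (δ ^ 2) ^ k - Rq D θ k δ / δ ^ (2 * k)) (𝓝[>] 0) (𝓝 0) := by
        rw [tendsto_zero_iff_norm_tendsto_zero]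
        refine squeeze_zero' (Eventually.of_forall fun _ => norm_nonneg _) ?_ h2
        have h5 : ∀ᶠ δ in 𝓝[>] (0 : ℝ), δ < 1 := eventually_nhdsWithin_of_eventually_nhds (eventually_lt_nhds one_pos)
        filter_upwards [h5, self_mem_nhdsWithin] with δ h5 h6
        have h6' : (0 : ℝ) < δ := h6
        rw [← pow_mul, ← sub_div, norm_div, Real.norm_eq_abs, Real.norm_eq_abs, abs_of_pos (pow_pos h6' (2 * k)), abs_sub_comm,
          div_le_iff₀ (by positivity)]
        refine (h δ h6' h5).trans (le_of_eq ?_)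
        rw [mul_assoc, ← Real.rpow_natCast δ (2 * k), ← Real.rpow_add h6']
        congr 2
        push_cast
        ring
      have h5 := h4.add h1
      simpa using h5
    have h4 : Tendsto (fun x : ℝ => q.eval x / x ^ k) (𝓝[>] 0) (𝓝 0) := by
      have h5 : Tendsto (fun x : ℝ => Real.sqrt x) (𝓝[>] 0) (𝓝[>] 0) := by
        refine tendsto_nhdsWithin_iff.2 ⟨?_, ?_⟩
        · have := Real.continuous_sqrt.tendsto 0
          rw [Real.sqrt_zero] at this
          exact this.mono_left nhdsWithin_le_nhds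
        · filter_upwards [self_mem_nhdsWithin] with x hx
          exact Real.sqrt_pos.2 hx
      refine (h3.comp h5).congr' ?_
      filter_upwards [self_mem_nhdsWithin] with x hx
      have hx0 : (0 : ℝ) < x := hx
      simp only [Function.comp_apply]
      rw [Real.sq_sqrt hx0.le]
    obtain ⟨r, hr⟩ := pol_dvd k q h4
    obtain ⟨B, hB, hb⟩ := pol_bd r
    refine ⟨|C| + B, by positivity, fun δ hδ hδ1 => ?_⟩
    have h5 := (abs_le.1 (h δ hδ hδ1)).2
    have h6 := le_abs_self (q.eval (δ ^ 2))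
    have h7 : |q.eval (δ ^ 2)| ≤ B * δ ^ (2 * (k + 1)) := by
      rw [hr, Polynomial.eval_mul, Polynomial.eval_pow, Polynomial.eval_X, abs_mul, abs_of_pos (by positivity), ← pow_mul, mul_comm]
      exact mul_le_mul_of_nonneg_right (hb _ (by positivity) (pow_le_one₀ hδ.le hδ1.le)) (by positivity)
    have h8 : C * δ ^ c ≤ |C| * δ ^ c := mul_le_mul_of_nonneg_right (le_abs_self C) (by positivity)
    have h9 : 0 ≤ B * δ ^ c := by positivity
    have h10 : 0 ≤ |C| * δ ^ (2 * (k + 1)) := by positivity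
    linarith
  -- induction
  have hind : ∀ k : ℕ, (2 * k : ℝ) < c → Summable (fun i => D i / θ i ^ (2 * k)) ∧ ∃ (q : Polynomial ℝ) (C : ℝ),
      ∀ δ : ℝ, 0 < δ → δ < 1 → |Rq D θ k δ - q.eval (δ ^ 2)| ≤ C * δ ^ c := by
    intro k
    induction k with
    | zero =>
      intro _
      refine ⟨?_, q, C, h⟩
      simpa using hs
    | succ k ih =>
      intro hk
      push_cast at hk
      obtain ⟨hsk, q, C, hq⟩ := ih (by linarith)
      obtain ⟨C', hC', hb⟩ := hbig k (by linarith) hsk q C hq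
      have hb2 : ∀ δ : ℝ, 0 < δ → δ < 1 → Rq D θ k δ ≤ 2 * C' * δ ^ (2 * (k + 1)) := by
        intro δ h1 h2
        have h3 : δ ^ c ≤ δ ^ (2 * (k + 1)) := by
          rw [← Real.rpow_natCast δ (2 * (k + 1))]
          refine Real.rpow_le_rpow_of_exponent_ge h1 h2.le ?_
          push_cast
          linarith
        have h4 := hb δ h1 h2
        nlinarith [mul_le_mul_of_nonneg_left h3 hC']
      have hs' : Summable fun i => D i / θ i ^ (2 * (k + 1)) := by
        refine summable_of_sum_le (c := 2 * C') (fun i => ?_) fun s => ?_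
        · have := h0 i
          rw [pow_mul]
          positivity
        · have h1 : Tendsto (fun δ : ℝ => ∑ i ∈ s, D i * (1 / θ i ^ (2 * k) * (1 / (δ ^ 2 + θ i ^ 2)))) (𝓝[>] 0)
              (𝓝 (∑ i ∈ s, D i / θ i ^ (2 * (k + 1)))) := by
            refine tendsto_finsetSum _ fun i _ => ?_
            by_cases hi : θ i = 0
            · rw [hz i hi]
              simp
            · have h2 : Tendsto (fun δ : ℝ => D i * (1 / θ i ^ (2 * k) * (1 / (δ ^ 2 + θ i ^ 2)))) (𝓝 0)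
                  (𝓝 (D i * (1 / θ i ^ (2 * k) * (1 / (0 ^ 2 + θ i ^ 2))))) := by
                refine (Tendsto.const_mul _ ?_).const_mul _
                exact tendsto_const_nhds.div (((continuous_pow 2).tendsto 0).add_const _) (by positivity)
              have e : D i * (1 / θ i ^ (2 * k) * (1 / (0 ^ 2 + θ i ^ 2))) = D i / θ i ^ (2 * (k + 1)) := by
                rw [show 2 * (k + 1) = 2 * k + 2 by ring, pow_add]
                field_simp
                ring
              rw [e] at h2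
              exact h2.mono_left nhdsWithin_le_nhds
          refine le_of_tendsto h1 ?_
          have h5 : ∀ᶠ δ in 𝓝[>] (0 : ℝ), δ < 1 := eventually_nhdsWithin_of_eventually_nhds (eventually_lt_nhds one_pos)
          filter_upwards [h5, self_mem_nhdsWithin] with δ h5 h6
          have h6' : (0 : ℝ) < δ := h6
          have h7 : ∑ i ∈ s, D i * gq θ k δ i ≤ Rq D θ k δ :=
            (gq_sum h0 hsk h6').sum_le_tsum s fun i _ => mul_nonneg (h0 i) (gq_nn k δ i)
          have h8 : ∑ i ∈ s, D i * gq θ k δ i = δ ^ (2 * (k + 1)) * ∑ i ∈ s, D i * (1 / θ i ^ (2 * k) * (1 / (δ ^ 2 + θ i ^ 2))) := by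
            rw [Finset.mul_sum]
            refine Finset.sum_congr rfl fun i _ => ?_
            unfold gq
            rw [div_pow]
            ring
          have h9 := h7.trans (hb2 δ h6' h5)
          rw [h8, mul_comm] at h9
          exact le_of_mul_le_mul_right h9 (by positivity)
      refine ⟨hs', Polynomial.C (∑' i, D i / θ i ^ (2 * (k + 1))) * Polynomial.X ^ (k + 1) - q, C, fun δ h1 h2 => ?_⟩
      have h3 := Rq_step h0 hz hsk hs' h1
      have h4 := hq δ h1 h2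
      rw [Polynomial.eval_sub, Polynomial.eval_mul, Polynomial.eval_C, Polynomial.eval_pow, Polynomial.eval_X, ← pow_mul]
      have e : Rq D θ (k + 1) δ - ((∑' i, D i / θ i ^ (2 * (k + 1))) * δ ^ (2 * (k + 1)) - q.eval (δ ^ 2)) = -(Rq D θ k δ - q.eval (δ ^ 2)) := by
        rw [h3]
        ring
      rw [e, abs_neg]
      exact h4
  -- the right `k`
  obtain ⟨k, hk1, hk2⟩ : ∃ k : ℕ, (2 * k : ℝ) < c ∧ c ≤ 2 * (k + 1) := by
    refine ⟨⌈c / 2⌉₊ - 1, ?_, ?_⟩
    · have h1 : 0 < ⌈c / 2⌉₊ := Nat.ceil_pos.2 (by positivity)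
      have h2 : ((⌈c / 2⌉₊ - 1 : ℕ) : ℝ) = ⌈c / 2⌉₊ - 1 := by
        rw [Nat.cast_sub h1]
        simp
      have h3 := Nat.ceil_lt_add_one (show 0 ≤ c / 2 by positivity)
      rw [h2]
      linarith
    · have h1 : 0 < ⌈c / 2⌉₊ := Nat.ceil_pos.2 (by positivity)
      have h2 : ((⌈c / 2⌉₊ - 1 : ℕ) : ℝ) = ⌈c / 2⌉₊ - 1 := by
        rw [Nat.cast_sub h1]
        simp
      have h3 := Nat.le_ceil (c / 2)
      rw [h2]
      linarith
  obtain ⟨hsk, q, C, hq⟩ := hind k hk1
  obtain ⟨C', hC', hb⟩ := hbig k hk1 hsk q C hq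
  refine ⟨4 * C', fun v hv hv1 => ?_⟩
  have h1 : v ^ (2 * (k + 1)) ≤ v ^ c := by
    rw [← Real.rpow_natCast v (2 * (k + 1))]
    refine Real.rpow_le_rpow_of_exponent_ge hv hv1.le ?_
    push_cast
    linarith
  have h2 := hb v hv hv1
  have h3 : (∑' i, if |θ i| ≤ v then D i else 0) ≤ 2 * Rq D θ k v := by
    unfold Rq
    rw [← tsum_mul_left]
    refine Summable.tsum_le_tsum (fun i => ?_) (Summable.of_nonneg_of_le (fun i => ?_) (fun i => ?_) hs) ((gq_sum h0 hsk hv).mul_left 2)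
    · have hg := gq_nn (θ := θ) k v i
      have hD := h0 i
      split_ifs with hi
      · by_cases hi0 : θ i = 0
        · rw [hz i hi0]
          simp
        · have hpos : 0 < |θ i| := abs_pos.2 hi0
          have h4 : θ i ^ 2 ≤ v ^ 2 := by
            rw [← sq_abs (θ i)]
            exact pow_le_pow_left₀ hpos.le hi 2
          have h5 : 1 ≤ (v / θ i) ^ (2 * k) := by
            rw [pow_mul, div_pow]
            exact one_le_pow₀ (by rwa [one_le_div (by positivity)])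
          have h6 : 1 / 2 ≤ v ^ 2 / (v ^ 2 + θ i ^ 2) := by
            rw [div_le_div_iff₀ (by norm_num) (by positivity)]
            linarith
          have h7 : 1 / 2 ≤ gq θ k v i := by
            unfold gq
            nlinarith
          nlinarith
      · positivity
    · have hD := h0 i
      split_ifs
      · exact hD
      · exact le_refl 0
    · have hD := h0 i
      split_ifs
      · exact le_refl _
      · exact hD
  have h4 := mul_le_mul_of_nonneg_left h1 hC'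
  linarith

end

end Run7.h278.LG
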