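import Pool.Agent.Run7.h278.LG.Tay

set_option autoImplicit false

/-!
# From the number of near relations to the expansion
-/

namespace Run7.h278.LG

open Filter Topology MeasureTheory Set
open scoped ENNReal

section

variable {κ : Type} {D θ : κ → ℝ}

theorem near_gq (h0 : ∀ i, 0 ≤ D i) (hz : ∀ i, θ i = 0 → D i = 0) (hs : Summable D) {c C : ℝ} (hC : 0 ≤ C)
    (h : ∀ v : ℝ, 0 < v → (∑' i, open Classical in if |θ i| ≤ v then D i else 0) ≤ C * v ^ c) {k : ℕ} (hk1 : (2 * k : ℝ) < c)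
    (hk2 : c < 2 * (k + 1)) :
    ∃ C' : ℝ, 0 ≤ C' ∧ ∀ δ : ℝ, 0 < δ → Summable (fun i => D i * gq θ k δ i) ∧ Rq D θ k δ ≤ C' * δ ^ c := by
  classical
  have hNs : ∀ v : ℝ, Summable fun i => if |θ i| ≤ v then D i else 0 := fun v =>
    Summable.of_nonneg_of_le (fun i => by
      split_ifs
      · exact h0 i
      · exact le_refl 0) (fun i => by
      split_ifs
      · exact le_refl _
      · exact h0 i) hs
  have hNn : ∀ (v : ℝ) (i : κ), 0 ≤ (if |θ i| ≤ v then D i else 0) := fun v i => by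
    split_ifs
    · exact h0 i
    · exact le_refl 0
  have hfin : ∀ (s : Finset κ) (v : ℝ), 0 < v → ∑ i ∈ s, (if |θ i| ≤ v then D i else 0) ≤ C * v ^ c := fun s v hv =>
    ((hNs v).sum_le_tsum s fun i _ => hNn v i).trans (h v hv)
  set ρ1 : ℝ := 2 ^ c / 4 ^ (k + 1) with hρ1
  set ρ2 : ℝ := 4 ^ k / 2 ^ c with hρ2
  have h4k : ∀ n : ℕ, (4 : ℝ) ^ n = 2 ^ (2 * n : ℝ) := fun n => by
    rw [show (4 : ℝ) = 2 ^ (2 : ℝ) by norm_num, ← Real.rpow_natCast, ← Real.rpow_mul (by norm_num)]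
  have r1 : ρ1 < 1 := by
    rw [hρ1, div_lt_one (by positivity), h4k]
    refine Real.rpow_lt_rpow_of_exponent_lt one_lt_two ?_
    push_cast
    linarith
  have r2 : ρ2 < 1 := by
    rw [hρ2, div_lt_one (by positivity), h4k]
    exact Real.rpow_lt_rpow_of_exponent_lt one_lt_two hk1
  have r10 : 0 ≤ ρ1 := by positivity
  have r20 : 0 ≤ ρ2 := by positivity
  have g1s : HasSum (fun j : ℕ => ρ1 ^ j) (1 - ρ1)⁻¹ := hasSum_geometric_of_lt_one r10 r1
  have g2s : HasSum (fun j : ℕ => ρ2 ^ j) (1 - ρ2)⁻¹ := hasSum_geometric_of_lt_one r20 r2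
  have i1 : 0 ≤ (1 - ρ1)⁻¹ := inv_nonneg.2 (by linarith)
  have i2 : 0 ≤ (1 - ρ2)⁻¹ := inv_nonneg.2 (by linarith)
  refine ⟨C * 2 ^ c * (1 - ρ1)⁻¹ + C * 4 ^ k * (1 - ρ2)⁻¹, by positivity, fun δ hδ => ?_⟩
  set R1 : ℕ → ℝ := fun j => C * 2 ^ c * δ ^ c * ρ1 ^ j with hR1
  set R2 : ℕ → ℝ := fun j => C * 4 ^ k * δ ^ c * ρ2 ^ j with hR2
  have R1s : HasSum R1 (C * 2 ^ c * δ ^ c * (1 - ρ1)⁻¹) := g1s.mul_left _
  have R2s : HasSum R2 (C * 4 ^ k * δ ^ c * (1 - ρ2)⁻¹) := g2s.mul_left _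
  set G1 : ℕ → κ → ℝ := fun j i => (1 / 4 ^ (k + 1)) ^ j * (if |θ i| ≤ 2 ^ (j + 1) * δ then D i else 0) with hG1
  set G2 : ℕ → κ → ℝ := fun j i => 4 ^ k * (4 ^ k) ^ j * (if |θ i| ≤ (1 / 2) ^ j * δ then D i else 0) with hG2
  have n1 : ∀ j i, 0 ≤ G1 j i := fun j i => mul_nonneg (by positivity) (hNn _ i)
  have n2 : ∀ j i, 0 ≤ G2 j i := fun j i => mul_nonneg (by positivity) (hNn _ i)
  have s1 : ∀ (s : Finset κ) (j : ℕ), ∑ i ∈ s, G1 j i ≤ R1 j := by
    intro s j
    rw [hG1, hR1]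
    simp only
    rw [← Finset.mul_sum]
    refine (mul_le_mul_of_nonneg_left (hfin s (2 ^ (j + 1) * δ) (by positivity)) (by positivity)).trans (le_of_eq ?_)
    rw [Real.mul_rpow (by positivity) hδ.le, hρ1]
    have e : ((2 : ℝ) ^ (j + 1)) ^ c = 2 ^ c * (2 ^ c) ^ j := by
      rw [← Real.rpow_natCast 2 (j + 1), ← Real.rpow_mul (by norm_num), mul_comm, Real.rpow_mul (by norm_num), Real.rpow_natCast, pow_succ]
      ring
    rw [e, div_pow, div_pow, one_pow]
    ring
  have s2 : ∀ (s : Finset κ) (j : ℕ), ∑ i ∈ s, G2 j i ≤ R2 j := by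
    intro s j
    rw [hG2, hR2]
    simp only
    rw [← Finset.mul_sum]
    refine (mul_le_mul_of_nonneg_left (hfin s ((1 / 2) ^ j * δ) (by positivity)) (by positivity)).trans (le_of_eq ?_)
    rw [Real.mul_rpow (by positivity) hδ.le, hρ2]
    have e : (((1 : ℝ) / 2) ^ j) ^ c = 1 / (2 ^ c) ^ j := by
      rw [← Real.rpow_natCast (1 / 2) j, ← Real.rpow_mul (by norm_num), mul_comm, Real.rpow_mul (by norm_num), Real.rpow_natCast,
        Real.div_rpow (by norm_num) (by norm_num), Real.one_rpow, div_pow, one_pow]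
    rw [e, div_pow]
    ring
  have l1 : ∀ i, Summable fun j => G1 j i := fun i => Summable.of_nonneg_of_le (fun j => n1 j i) (fun j => by
    have := s1 {i} j
    simpa using this) R1s.summable
  have l2 : ∀ i, Summable fun j => G2 j i := fun i => Summable.of_nonneg_of_le (fun j => n2 j i) (fun j => by
    have := s2 {i} j
    simpa using this) R2s.summable
  have key : ∀ i, D i * gq θ k δ i ≤ (∑' j, G1 j i) + ∑' j, G2 j i := by
    intro i
    have t1 : 0 ≤ ∑' j, G1 j i := tsum_nonneg fun j => n1 j i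
    have t2 : 0 ≤ ∑' j, G2 j i := tsum_nonneg fun j => n2 j i
    by_cases hi : θ i = 0
    · rw [hz i hi, zero_mul]
      linarith
    have hpos : 0 < |θ i| := abs_pos.2 hi
    have hDi := h0 i
    have hg : gq θ k δ i = (δ ^ 2 / θ i ^ 2) ^ k * (δ ^ 2 / (δ ^ 2 + θ i ^ 2)) := by
      unfold gq
      rw [pow_mul, div_pow]
    rcases le_or_gt |θ i| δ with hle | hlt
    · have hex : ∃ j : ℕ, (1 / 2) ^ (j + 1) * δ < |θ i| := by
        obtain ⟨j, hj⟩ := pow_unbounded_of_one_lt (δ / |θ i|) one_lt_two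
        refine ⟨j, ?_⟩
        rw [div_lt_iff₀ hpos] at hj
        rw [one_div, inv_pow, ← div_eq_inv_mul, div_lt_iff₀ (by positivity), pow_succ]
        nlinarith
      set j := Nat.find hex with hj
      have hj1 : (1 / 2) ^ (j + 1) * δ < |θ i| := Nat.find_spec hex
      have hj2 : |θ i| ≤ (1 / 2) ^ j * δ := by
        rcases Nat.eq_zero_or_pos j with h3 | h3
        · rw [h3]
          simpa using hle
        · have h4 : ¬ (1 / 2) ^ (j - 1 + 1) * δ < |θ i| := Nat.find_min hex (by omega)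
          rw [Nat.sub_add_cancel h3, not_lt] at h4
          exact h4
      have h5 : D i * gq θ k δ i ≤ G2 j i := by
        rw [hG2]
        simp only
        rw [if_pos hj2, hg, mul_comm]
        refine mul_le_mul_of_nonneg_right ?_ hDi
        have h6 : δ ^ 2 / θ i ^ 2 ≤ 4 ^ (j + 1) := by
          rw [div_le_iff₀ (by positivity), ← sq_abs (θ i)]
          have h7 : δ ≤ 2 ^ (j + 1) * |θ i| := by
            rw [one_div, inv_pow, ← div_eq_inv_mul, div_lt_iff₀ (by positivity)] at hj1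
            linarith
          have h8 : δ ^ 2 ≤ (2 ^ (j + 1) * |θ i|) ^ 2 := pow_le_pow_left₀ hδ.le h7 2
          refine h8.trans (le_of_eq ?_)
          rw [mul_pow, ← pow_mul, mul_comm (j + 1) 2, pow_mul]
          norm_num
        have h7 : δ ^ 2 / (δ ^ 2 + θ i ^ 2) ≤ 1 := div_le_one_of_le₀ (by nlinarith [sq_nonneg (θ i)]) (by positivity)
        calc (δ ^ 2 / θ i ^ 2) ^ k * (δ ^ 2 / (δ ^ 2 + θ i ^ 2)) ≤ (4 ^ (j + 1)) ^ k * 1 :=
              mul_le_mul (pow_le_pow_left₀ (by positivity) h6 k) h7 (by positivity) (by positivity)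
          _ = 4 ^ k * (4 ^ k) ^ j := by
            rw [mul_one, ← pow_mul, mul_comm (j + 1) k, pow_mul, pow_succ]
            ring
      have h6 := (l2 i).le_tsum j fun j' _ => n2 j' i
      linarith
    · have hex : ∃ j : ℕ, |θ i| ≤ 2 ^ (j + 1) * δ := by
        obtain ⟨j, hj⟩ := pow_unbounded_of_one_lt (|θ i| / δ) one_lt_two
        refine ⟨j, ?_⟩
        rw [div_lt_iff₀ hδ] at hj
        rw [pow_succ]
        have : 0 < (2 : ℝ) ^ j * δ := by positivity
        linarith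
      set j := Nat.find hex with hj
      have hj1 : |θ i| ≤ 2 ^ (j + 1) * δ := Nat.find_spec hex
      have hj2 : 2 ^ j * δ ≤ |θ i| := by
        rcases Nat.eq_zero_or_pos j with h3 | h3
        · rw [h3]
          simpa using hlt.le
        · have h4 : ¬ |θ i| ≤ 2 ^ (j - 1 + 1) * δ := Nat.find_min hex (by omega)
          rw [Nat.sub_add_cancel h3, not_le] at h4
          exact h4.le
      have h5 : D i * gq θ k δ i ≤ G1 j i := by
        rw [hG1]
        simp only
        rw [if_pos hj1, hg, mul_comm]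
        refine mul_le_mul_of_nonneg_right ?_ hDi
        have h6 : δ ^ 2 / θ i ^ 2 ≤ 1 / 4 ^ j := by
          rw [div_le_div_iff₀ (by positivity) (by positivity), ← sq_abs (θ i), one_mul]
          have h8 : (2 ^ j * δ) ^ 2 ≤ |θ i| ^ 2 := pow_le_pow_left₀ (by positivity) hj2 2
          refine le_trans (le_of_eq ?_) h8
          rw [mul_pow, ← pow_mul, mul_comm j 2, pow_mul]
          norm_num
          ring
        have h7 : δ ^ 2 / (δ ^ 2 + θ i ^ 2) ≤ δ ^ 2 / θ i ^ 2 :=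
          div_le_div_of_nonneg_left (by positivity) (by positivity) (by nlinarith [sq_nonneg δ])
        calc (δ ^ 2 / θ i ^ 2) ^ k * (δ ^ 2 / (δ ^ 2 + θ i ^ 2)) ≤ (δ ^ 2 / θ i ^ 2) ^ k * (δ ^ 2 / θ i ^ 2) :=
              mul_le_mul_of_nonneg_left h7 (by positivity)
          _ = (δ ^ 2 / θ i ^ 2) ^ (k + 1) := (pow_succ _ _).symm
          _ ≤ (1 / 4 ^ j) ^ (k + 1) := pow_le_pow_left₀ (by positivity) h6 _
          _ = (1 / 4 ^ (k + 1)) ^ j := by
            rw [div_pow, div_pow, one_pow, one_pow, ← pow_mul, ← pow_mul, mul_comm]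
      have h6 := (l1 i).le_tsum j fun j' _ => n1 j' i
      linarith
  have hall : ∀ s : Finset κ, ∑ i ∈ s, D i * gq θ k δ i ≤ C * 2 ^ c * δ ^ c * (1 - ρ1)⁻¹ + C * 4 ^ k * δ ^ c * (1 - ρ2)⁻¹ := by
    intro s
    calc ∑ i ∈ s, D i * gq θ k δ i ≤ ∑ i ∈ s, ((∑' j, G1 j i) + ∑' j, G2 j i) := Finset.sum_le_sum fun i _ => key i
      _ = (∑' j, ∑ i ∈ s, G1 j i) + ∑' j, ∑ i ∈ s, G2 j i := by
        rw [Finset.sum_add_distrib, Summable.tsum_finsetSum fun i _ => l1 i, Summable.tsum_finsetSum fun i _ => l2 i]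
      _ ≤ (∑' j, R1 j) + ∑' j, R2 j := by
        refine add_le_add ?_ ?_
        · exact Summable.tsum_le_tsum (s1 s) (Summable.of_nonneg_of_le (fun j => Finset.sum_nonneg fun i _ => n1 j i) (s1 s) R1s.summable) R1s.summable
        · exact Summable.tsum_le_tsum (s2 s) (Summable.of_nonneg_of_le (fun j => Finset.sum_nonneg fun i _ => n2 j i) (s2 s) R2s.summable) R2s.summable
      _ = _ := by rw [R1s.tsum_eq, R2s.tsum_eq]
  have hnn : ∀ i, 0 ≤ D i * gq θ k δ i := fun i => mul_nonneg (h0 i) (gq_nn k δ i)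
  refine ⟨summable_of_sum_le hnn hall, ?_⟩
  refine (Real.tsum_le_of_sum_le hnn hall).trans (le_of_eq ?_)
  ring

/-- **From the number of near relations to the expansion.** -/
theorem near_exp (h0 : ∀ i, 0 ≤ D i) (hz : ∀ i, θ i = 0 → D i = 0) (hs : Summable D) {c C : ℝ} (hC : 0 ≤ C)
    (h : ∀ v : ℝ, 0 < v → (∑' i, open Classical in if |θ i| ≤ v then D i else 0) ≤ C * v ^ c) {k : ℕ} (hk1 : (2 * k : ℝ) < c)
    (hk2 : c < 2 * (k + 1)) :
    ∃ (q : Polynomial ℝ) (C' : ℝ), ∀ δ : ℝ, 0 < δ → |Rq D θ 0 δ - q.eval (δ ^ 2)| ≤ C' * δ ^ c := by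
  classical
  obtain ⟨C', hC', hg⟩ := near_gq h0 hz hs hC h hk1 hk2
  have hpw : ∀ j : ℕ, j ≤ k → Summable fun i => D i / θ i ^ (2 * j) := by
    intro j hj
    refine Summable.of_nonneg_of_le (fun i => ?_) (fun i => ?_) (((hg 1 one_pos).1.mul_left 2).add hs)
    · have := h0 i
      rw [pow_mul]
      positivity
    · have hDi := h0 i
      have hgn := gq_nn (θ := θ) k 1 i
      by_cases hi : θ i = 0
      · rw [hz i hi]
        simp
      rcases le_or_gt |θ i| 1 with h1 | h1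
      · have h2 : θ i ^ 2 ≤ 1 := by
          rw [← sq_abs]
          exact pow_le_one₀ (abs_nonneg _) h1
        have h3 : 1 / θ i ^ (2 * j) ≤ 2 * gq θ k 1 i := by
          unfold gq
          have h4 : 1 / θ i ^ (2 * j) ≤ (1 / θ i) ^ (2 * k) := by
            rw [div_pow, one_pow, pow_mul, pow_mul]
            refine one_div_le_one_div_of_le (by positivity) ?_
            exact pow_le_pow_of_le_one (by positivity) h2 hj
          have h5 : (1 : ℝ) / 2 ≤ 1 ^ 2 / (1 ^ 2 + θ i ^ 2) := by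
            rw [div_le_div_iff₀ (by norm_num) (by positivity)]
            linarith
          have h6 : 0 ≤ (1 / θ i) ^ (2 * k) := by
            rw [pow_mul]
            positivity
          nlinarith
        have h4 : D i / θ i ^ (2 * j) = D i * (1 / θ i ^ (2 * j)) := by ring
        rw [h4]
        have h5 := mul_le_mul_of_nonneg_left h3 hDi
        linarith
      · have h2 : 1 ≤ θ i ^ (2 * j) := by
          rw [pow_mul, ← sq_abs]
          exact one_le_pow₀ (one_le_pow₀ h1.le)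
        have h3 : D i / θ i ^ (2 * j) ≤ D i := div_le_self hDi h2
        have h4 : 0 ≤ D i * gq θ k 1 i := mul_nonneg hDi hgn
        linarith
  have hind : ∀ m : ℕ, m ≤ k → ∃ q : Polynomial ℝ, ∀ δ : ℝ, 0 < δ → |Rq D θ (k - m) δ - q.eval (δ ^ 2)| ≤ Rq D θ k δ := by
    intro m
    induction m with
    | zero =>
      intro _
      refine ⟨0, fun δ hδ => ?_⟩
      have hR0 : 0 ≤ Rq D θ k δ := tsum_nonneg fun i => mul_nonneg (h0 i) (gq_nn k δ i)
      rw [Polynomial.eval_zero, sub_zero, Nat.sub_zero, abs_of_nonneg hR0]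
    | succ m ih =>
      intro hm
      obtain ⟨q, hq⟩ := ih (by omega)
      set j := k - (m + 1) with hj
      have e : k - m = j + 1 := by omega
      rw [e] at hq
      refine ⟨Polynomial.C (∑' i, D i / θ i ^ (2 * (j + 1))) * Polynomial.X ^ (j + 1) - q, fun δ hδ => ?_⟩
      have h3 := Rq_step h0 hz (hpw j (by omega)) (hpw (j + 1) (by omega)) hδ
      rw [Polynomial.eval_sub, Polynomial.eval_mul, Polynomial.eval_C, Polynomial.eval_pow, Polynomial.eval_X, ← pow_mul]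
      have e2 : Rq D θ j δ - ((∑' i, D i / θ i ^ (2 * (j + 1))) * δ ^ (2 * (j + 1)) - q.eval (δ ^ 2)) = -(Rq D θ (j + 1) δ - q.eval (δ ^ 2)) := by
        rw [h3]
        ring
      rw [e2, abs_neg]
      exact hq δ hδ
  obtain ⟨q, hq⟩ := hind k le_rfl
  rw [Nat.sub_self] at hq
  exact ⟨q, C', fun δ hδ => (hq δ hδ).trans (hg δ hδ).2⟩

/-- **The expansion and the number of near relations.** -/
theorem exp_iff (h0 : ∀ i, 0 ≤ D i) (hz : ∀ i, θ i = 0 → D i = 0) (hs : Summable D) {c : ℝ} (hc : 0 < c) (hne : ∀ n : ℕ, c ≠ 2 * n) :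
    (∃ (q : Polynomial ℝ) (C : ℝ), ∀ δ : ℝ, 0 < δ → δ < 1 → |Rq D θ 0 δ - q.eval (δ ^ 2)| ≤ C * δ ^ c) ↔
      ∃ C : ℝ, ∀ v : ℝ, 0 < v → v < 1 → (∑' i, open Classical in if |θ i| ≤ v then D i else 0) ≤ C * v ^ c := by
  classical
  constructor
  · rintro ⟨q, C, h⟩
    exact exp_near h0 hz hs hc h
  · rintro ⟨C, h⟩
    have hS : 0 ≤ ∑' i, D i := tsum_nonneg h0
    have hall : ∀ v : ℝ, 0 < v → (∑' i, if |θ i| ≤ v then D i else 0) ≤ (|C| + ∑' i, D i) * v ^ c := by
      intro v hv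
      have hvc : 0 < v ^ c := by positivity
      rcases lt_or_ge v 1 with h1 | h1
      · have h2 := h v hv h1
        have h3 : C * v ^ c ≤ |C| * v ^ c := mul_le_mul_of_nonneg_right (le_abs_self C) hvc.le
        have h4 := mul_nonneg hS hvc.le
        linarith
      · have h2 : (∑' i, if |θ i| ≤ v then D i else 0) ≤ ∑' i, D i := Summable.tsum_le_tsum (fun i => by
          split_ifs
          · exact le_refl _
          · exact h0 i) (Summable.of_nonneg_of_le (fun i => by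
          split_ifs
          · exact h0 i
          · exact le_refl 0) (fun i => by
          split_ifs
          · exact le_refl _
          · exact h0 i) hs) hs
        have h3 : 1 ≤ v ^ c := Real.one_le_rpow h1 hc.le
        have h4 := mul_le_mul_of_nonneg_left h3 hS
        have h5 : 0 ≤ |C| * v ^ c := by positivity
        linarith
    have h1 : 0 < ⌈c / 2⌉₊ := Nat.ceil_pos.2 (by positivity)
    have h2 : ((⌈c / 2⌉₊ - 1 : ℕ) : ℝ) = ⌈c / 2⌉₊ - 1 := by
      rw [Nat.cast_sub h1]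
      simp
    have h3 := Nat.ceil_lt_add_one (show 0 ≤ c / 2 by positivity)
    have h4 := Nat.le_ceil (c / 2)
    have h5 : c / 2 ≠ (⌈c / 2⌉₊ : ℝ) := fun h => hne ⌈c / 2⌉₊ (by linarith)
    have h6 : c / 2 < (⌈c / 2⌉₊ : ℝ) := lt_of_le_of_ne h4 h5
    obtain ⟨q, C', hq⟩ := near_exp h0 hz hs (by positivity) hall (k := ⌈c / 2⌉₊ - 1) (by rw [h2]; linarith) (by rw [h2]; linarith)
    exact ⟨q, C', fun δ hδ _ => hq δ hδ⟩

end

end Run7.h278.LG
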