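import Pool.Agent.Run7.h278.LG.TayZ

set_option autoImplicit false

/-!
# Expansions of all moments, and linear independence
-/

namespace Run7.h278.LG

open Filter Topology MeasureTheory Set Run7.h278.LM Run7.h278.WL
open scoped ENNReal

/-- the value of the expansion at `0` -/
theorem LKZ (hRH : RiemannHypothesis) (K : ℕ) :
    (LK (xx wZ) (tt fun t : TZ => (t : ℝ)) (2 * K) = DmZ K ↔ ¬Rl (fun t : TZ => (t : ℝ)) (2 * K)) ∧
    Tendsto (fun δ => (PM bc 0 K δ).toReal) (𝓝[>] 0) (𝓝 (LK (xx wZ) (tt fun t : TZ => (t : ℝ)) (2 * K))) := by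
  obtain ⟨w1, s1, hrep⟩ := zeta_core hRH
  have x0 := xx_pos w1
  have xs := xx_sum s1
  have hLK : Tendsto (Am fun u => FFz u ^ (2 * K)) (𝓝[>] 0) (𝓝 (LK (xx wZ) (tt fun t : TZ => (t : ℝ)) (2 * K))) :=
    mean_rep (fun f => Finset.prod_pos fun i _ => x0 _) (pi_hasSum (fun y => (x0 y).le) xs (2 * K)).summable (pi_rep x0 xs hrep (2 * K))
  have hbc : Tendsto (fun δ => (PM bc 0 K δ).toReal) (𝓝[>] 0) (𝓝 (LK (xx wZ) (tt fun t : TZ => (t : ℝ)) (2 * K))) := by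
    refine hLK.congr' ?_
    filter_upwards [self_mem_nhdsWithin] with δ hδ
    obtain ⟨h1, h2⟩ := bc_V hRH K (show (0 : ℝ) < δ from hδ)
    rw [h1, ENNReal.toReal_ofReal h2]
  refine ⟨?_, hbc⟩
  obtain ⟨B, hB⟩ := nrZ hRH
  have hN : Nr FFz FFz B := ⟨hB.cF, hB.cF, hB.hB, fun u _ => hB.bF u, hB.bF, by simp⟩
  set e : TZ ≃ TI := Equiv.subtypeEquivRight fun t => by
    show 0 < t ∧ riemannZeta (1 / 2 + Complex.I * t) = 0 ↔ _
    rw [Z_zero_iff] with he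
  have hF : FFz = fun u => 0 + FI wZ (fun t : TZ => (t : ℝ)) u := by
    funext u
    rw [zero_add]
    exact (e.tsum_eq (fun t : TI => 2 * WW t * Real.cos (t * u))).symm
  have hN2 : Nr FFz (fun u => 0 + FI wZ (fun t : TZ => (t : ℝ)) u) B := by
    rw [← hF]
    exact hN
  have l1 := even_lim _ hN2 w1 s1 K
  have l2 := (ENNReal.tendsto_toReal ENNReal.ofReal_ne_top).comp l1
  obtain ⟨n1, n2, n3⟩ := Ek_Mk (fun t : TZ => (t : ℝ)) w1 s1 (2 * K)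
  have hD : Mk wZ (2 * K) = DmZ K := Mk_even K
  rw [ENNReal.toReal_ofReal (n1.trans n2)] at l2
  have hV : ∀ᶠ δ in 𝓝[>] (0 : ℝ), (PM FFz 0 K δ).toReal = Am (fun u => FFz u ^ (2 * K)) δ := by
    filter_upwards [self_mem_nhdsWithin] with δ hδ
    have hδ0 : (0 : ℝ) < δ := hδ
    have h1 := hN.lint (φ := fun x => x ^ (2 * K)) (by fun_prop) (fun x => by
      rw [pow_mul]
      positivity) hδ0
    have h2 : PM FFz 0 K δ = ENNReal.ofReal (Am (fun u => FFz u ^ (2 * K)) δ) := by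
      rw [← h1]
      unfold PM
      simp only [sub_zero]
    rw [h2, ENNReal.toReal_ofReal (bc_V hRH K hδ0).2]
  have l3 := Tendsto.congr' hV l2
  have h5 := tendsto_nhds_unique l3 hLK
  rw [← h5, ← hD]
  exact n3

/-- agrees with a polynomial in `δ²` with constant term `D` up to `O(δ^c)` -/
def ExpD (V : ℝ → ℝ≥0∞) (D c : ℝ) : Prop := ∃ (q : Polynomial ℝ) (C : ℝ), q.eval 0 = D ∧
  ∀ δ : ℝ, 0 < δ → δ < 1 → V δ < ⊤ ∧ |(V δ).toReal - q.eval (δ ^ 2)| ≤ C * δ ^ c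

theorem ExpD_val {V : ℝ → ℝ≥0∞} {c C L : ℝ} {q : Polynomial ℝ} (hc : 0 < c) (hL : Tendsto (fun δ => (V δ).toReal) (𝓝[>] 0) (𝓝 L))
    (h : ∀ δ : ℝ, 0 < δ → δ < 1 → V δ < ⊤ ∧ |(V δ).toReal - q.eval (δ ^ 2)| ≤ C * δ ^ c) : q.eval 0 = L := by
  have h1 : Tendsto (fun δ : ℝ => q.eval (δ ^ 2)) (𝓝[>] 0) (𝓝 (q.eval 0)) := by
    have h2 : Tendsto (fun δ : ℝ => q.eval (δ ^ 2)) (𝓝 0) (𝓝 (q.eval ((0 : ℝ) ^ 2))) :=
      (q.continuous.comp (continuous_pow 2)).tendsto 0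
    rw [zero_pow two_ne_zero] at h2
    exact h2.mono_left nhdsWithin_le_nhds
  have h2 : Tendsto (fun δ : ℝ => C * δ ^ c) (𝓝[>] 0) (𝓝 0) := by
    have h4 : Tendsto (fun δ : ℝ => δ ^ c) (𝓝 0) (𝓝 (0 ^ c)) := (Real.continuousAt_rpow_const 0 c (Or.inr hc.le)).tendsto
    rw [Real.zero_rpow hc.ne'] at h4
    have h5 := (h4.mono_left (nhdsWithin_le_nhds (s := Ioi (0 : ℝ)))).const_mul C
    rwa [mul_zero] at h5
  have h3 : Tendsto (fun δ : ℝ => (V δ).toReal - q.eval (δ ^ 2)) (𝓝[>] 0) (𝓝 0) := by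
    rw [tendsto_zero_iff_norm_tendsto_zero]
    refine squeeze_zero' (Eventually.of_forall fun _ => norm_nonneg _) ?_ h2
    have h4 : ∀ᶠ δ in 𝓝[>] (0 : ℝ), δ < 1 := eventually_nhdsWithin_of_eventually_nhds (eventually_lt_nhds one_pos)
    filter_upwards [h4, self_mem_nhdsWithin] with δ h4 h5
    exact (h δ h5 h4).2
  have h4 := hL.sub h3
  have h5 : Tendsto (fun δ : ℝ => q.eval (δ ^ 2)) (𝓝[>] 0) (𝓝 (L - 0)) := h4.congr fun δ => by ring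
  rw [sub_zero] at h5
  exact tendsto_nhds_unique h1 h5

/-- **Expansions of all moments with the values for independent phases.** -/
theorem zeta_expand_LI {c : ℕ → ℝ} (hc : ∀ K, 0 < c K) (hne : ∀ (K n : ℕ), c K ≠ 2 * n) :
    (∀ K : ℕ, 1 ≤ K → ExpD (PM bc 0 K) (DmZ K) (c K)) ↔
      RiemannHypothesis ∧ (LinearIndependent ℚ fun t : TZ => (t : ℝ)) ∧
        ∀ K : ℕ, 1 ≤ K → ∃ C : ℝ, ∀ v : ℝ, 0 < v → v < 1 → NZ (2 * K) v ≤ C * v ^ c K := by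
  constructor
  · intro h
    have hE : ∀ K : ℕ, 1 ≤ K → ExpAt (PM bc 0 K) (c K) := fun K hK => by
      obtain ⟨q, C, -, h⟩ := h K hK
      exact ⟨q, C, h⟩
    have hRH := bc_RH le_rfl (hE 1 le_rfl)
    refine ⟨hRH, (all_rel _).1 fun K hK => ?_, fun K hK => ?_⟩
    · obtain ⟨q, C, h1, h2⟩ := h K hK
      obtain ⟨l1, l2⟩ := LKZ hRH K
      refine l1.1 ?_
      rw [← h1]
      exact (ExpD_val (hc K) l2 h2).symm
    · obtain ⟨-, C, h3⟩ := (zeta_expand hK (hc K)).1 (hE K hK)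
      exact ⟨C, fun v hv hv1 => by
        rw [NZ_eq]
        exact h3 v hv hv1⟩
  · rintro ⟨hRH, hLI, h⟩ K hK
    obtain ⟨C, h1⟩ := h K hK
    obtain ⟨q, C', h2⟩ := (zeta_expand hK (hc K)).2 (hne K) hRH ⟨C, fun v hv hv1 => by
      rw [← NZ_eq]
      exact h1 v hv hv1⟩
    obtain ⟨l1, l2⟩ := LKZ hRH K
    refine ⟨q, C', ?_, h2⟩
    rw [ExpD_val (hc K) l2 h2]
    exact l1.2 ((all_rel _).2 hLI K hK)

end Run7.h278.LG
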