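import Pool.Agent.Run7.h278.LG.Tay2

set_option autoImplicit false

/-!
# Expansions of the moments for the Riemann zeta function
-/

namespace Run7.h278.LG

open Filter Topology MeasureTheory Set Run7.h278.LM Run7.h278.WL
open scoped ENNReal

/-- the remainder without the contribution of the trivial zeros, continuous version -/
noncomputable def bc (u : ℝ) : ℝ := aa u - Real.log (2 * Real.pi) * Real.exp (-u / 2) + RR (max u 0)

theorem RR_term {u : ℝ} (hu : 0 ≤ u) (k : ℕ) : 1 / ((2 * (k : ℝ) + 2) * (2 * k + 3)) * Real.exp (-(2 * k + 5 / 2) * u) ≤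
    1 / ((2 * (k : ℝ) + 2) * (2 * k + 3)) := by
  have hk : (0 : ℝ) ≤ k := Nat.cast_nonneg k
  refine mul_le_of_le_one_right (by positivity) ?_
  rw [Real.exp_le_one_iff]
  nlinarith

theorem RR_bd {u : ℝ} (hu : 0 ≤ u) : 0 ≤ RR u ∧ RR u ≤ ∑' k : ℕ, 1 / ((2 * (k : ℝ) + 2) * (2 * k + 3)) := by
  unfold RR
  refine ⟨tsum_nonneg fun k => by positivity, ?_⟩
  exact Summable.tsum_le_tsum (RR_term hu) (Summable.of_nonneg_of_le (fun k => by positivity) (RR_term hu) ck_summable) ck_summable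

theorem bc_cont : Continuous bc := by
  have h1 : Continuous fun u : ℝ => RR (max u 0) := by
    unfold RR
    refine continuous_tsum (u := fun k : ℕ => 1 / ((2 * (k : ℝ) + 2) * (2 * k + 3))) (fun k => by fun_prop) ck_summable fun k u => ?_
    rw [Real.norm_eq_abs, abs_of_nonneg (by positivity)]
    exact RR_term (le_max_right _ _) k
  unfold bc
  exact (aa_cont.sub (by fun_prop)).add h1

theorem bc_eq (hRH : RiemannHypothesis) {u : ℝ} (hu : 0 < u) : bc u = FFz u := by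
  have h := Run7.h278.LM.explicit hRH hu
  unfold DD at h
  unfold bc
  rw [max_eq_left hu.le]
  linarith

theorem bc_near : ∃ K : ℝ, ∀ u : ℝ, 0 < u → |bc u - aa u| ≤ K := by
  refine ⟨Real.log (2 * Real.pi) + ∑' k : ℕ, 1 / ((2 * (k : ℝ) + 2) * (2 * k + 3)), fun u hu => ?_⟩
  have h1 : 0 ≤ Real.log (2 * Real.pi) := Real.log_nonneg (by linarith [Real.pi_gt_three])
  have h2 : Real.exp (-u / 2) ≤ 1 := by
    rw [Real.exp_le_one_iff]
    linarith
  have h3 := Real.exp_pos (-u / 2)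
  obtain ⟨h4, h5⟩ := RR_bd hu.le
  unfold bc
  rw [max_eq_left hu.le, show aa u - Real.log (2 * Real.pi) * Real.exp (-u / 2) + RR u - aa u = RR u - Real.log (2 * Real.pi) * Real.exp (-u / 2) by ring,
    abs_le]
  constructor <;> nlinarith [mul_nonneg h1 h3.le, mul_le_mul_of_nonneg_left h2 h1]

theorem bc_V (hRH : RiemannHypothesis) (K : ℕ) {δ : ℝ} (hδ : 0 < δ) : PM bc 0 K δ = ENNReal.ofReal (Am (fun u => FFz u ^ (2 * K)) δ) ∧
    0 ≤ Am (fun u => FFz u ^ (2 * K)) δ := by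
  obtain ⟨B, hB⟩ := nrZ hRH
  have hF : Nr FFz FFz B := ⟨hB.cF, hB.cF, hB.hB, fun u _ => hB.bF u, hB.bF, by simp⟩
  have h1 := hF.lint (φ := fun x => x ^ (2 * K)) (by fun_prop) (fun x => by
    rw [pow_mul]
    positivity) hδ
  refine ⟨?_, ?_⟩
  · rw [← h1]
    unfold PM
    simp only [sub_zero]
    refine setLIntegral_congr_fun measurableSet_Ioi fun u hu => ?_
    have hu0 : (0 : ℝ) < u := hu
    show ENNReal.ofReal (δ * Real.exp (-δ * u) * bc u ^ (2 * K)) = _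
    rw [bc_eq hRH hu0]
  · unfold Am
    refine mul_nonneg hδ.le (setIntegral_nonneg measurableSet_Ioi fun u _ => ?_)
    show 0 ≤ Real.exp (-δ * u) * FFz u ^ (2 * K)
    rw [pow_mul]
    positivity

/-- agrees with a polynomial in `δ²` up to `O(δ^c)` -/
def ExpAt (V : ℝ → ℝ≥0∞) (c : ℝ) : Prop := ∃ (q : Polynomial ℝ) (C : ℝ), ∀ δ : ℝ, 0 < δ → δ < 1 → V δ < ⊤ ∧ |(V δ).toReal - q.eval (δ ^ 2)| ≤ C * δ ^ c

theorem bc_RH {K : ℕ} (hK : 1 ≤ K) {c : ℝ} (h : ExpAt (PM bc 0 K) c) : RiemannHypothesis := by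
  by_contra hRH
  obtain ⟨q, C, h⟩ := h
  obtain ⟨δ₀, h0, h1⟩ := noZ hRH
  obtain ⟨K', hK'⟩ := bc_near
  set δ := min (δ₀ / 2) (1 / 2) with hδ
  have hδ0 : 0 < δ := by positivity
  have hδ1 : δ < 1 := (min_le_right _ _).trans_lt (by norm_num)
  have hδ2 : δ < δ₀ := (min_le_left _ _).trans_lt (by linarith)
  have h2 := pow_top bc_cont aa_cont hK' hδ0 (h1 δ hδ0 hδ2) 0 hK
  exact absurd h2 (h δ hδ0 hδ1).1.ne

section

variable {Y : Type}

/-- the weights of the tuples with nonzero sum -/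
noncomputable def Dn (x τ : Y → ℝ) (K : ℕ) (f : Fin K → Y) : ℝ := open Classical in if ∑ i, τ (f i) = 0 then 0 else ∏ i, x (f i)

theorem Rq_Am {x τ : Y → ℝ} {G : ℝ → ℝ} (h0 : ∀ y, 0 < x y) (hs : Summable x)
    (hrep : ∀ u : ℝ, HasSum (fun y => (x y : ℂ) * Complex.exp (Complex.I * τ y * u)) (G u : ℂ)) (K : ℕ) {δ : ℝ} (hδ : 0 < δ) :
    Rq (Dn x τ K) (fun f => ∑ i, τ (f i)) 0 δ = Am (fun u => G u ^ K) δ - LK x τ K := by
  classical
  rw [← (rate_sum h0 hs hrep K hδ).tsum_eq]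
  unfold Rq
  refine tsum_congr fun f => ?_
  unfold Dn gq
  rw [mul_zero, pow_zero, one_mul]
  split_ifs
  · rw [zero_mul]
  · rfl

theorem Dn_nn {x τ : Y → ℝ} (h0 : ∀ y, 0 < x y) (K : ℕ) (f : Fin K → Y) : 0 ≤ Dn x τ K f := by
  unfold Dn
  split_ifs
  · exact le_refl 0
  · exact Finset.prod_nonneg fun i _ => (h0 _).le

theorem Dn_le {x τ : Y → ℝ} (h0 : ∀ y, 0 < x y) (K : ℕ) (f : Fin K → Y) : Dn x τ K f ≤ ∏ i, x (f i) := by
  unfold Dn
  split_ifs
  · exact Finset.prod_nonneg fun i _ => (h0 _).le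
  · exact le_refl _

theorem Dn_near (x τ : Y → ℝ) (K : ℕ) (v : ℝ) : (∑' f : Fin K → Y, open Classical in if |∑ i, τ (f i)| ≤ v then Dn x τ K f else 0) = nr x τ K v := by
  classical
  unfold nr
  refine tsum_congr fun f => ?_
  unfold nT Dn
  by_cases h1 : ∑ i, τ (f i) = 0
  · rw [if_pos h1, ite_self]
    symm
    exact if_neg fun h => h.1 h1
  · rw [if_neg h1]
    by_cases h2 : |∑ i, τ (f i)| ≤ v
    · rw [if_pos h2, if_pos ⟨h1, h2⟩]
    · rw [if_neg h2, if_neg (fun h => h2 h.2)]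

end

/-- **Expansions and near relations for zeta.** -/
theorem zeta_expand {K : ℕ} (hK : 1 ≤ K) {c : ℝ} (hc : 0 < c) :
    (ExpAt (PM bc 0 K) c → RiemannHypothesis ∧ ∃ C : ℝ, ∀ v : ℝ, 0 < v → v < 1 → nr (xx wZ) (tt fun t : TZ => (t : ℝ)) (2 * K) v ≤ C * v ^ c) ∧
    ((∀ n : ℕ, c ≠ 2 * n) → RiemannHypothesis → (∃ C : ℝ, ∀ v : ℝ, 0 < v → v < 1 → nr (xx wZ) (tt fun t : TZ => (t : ℝ)) (2 * K) v ≤ C * v ^ c) →
      ExpAt (PM bc 0 K) c) := by
  classical
  constructor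
  · intro h
    have hRH := bc_RH hK h
    obtain ⟨w1, s1, hrep⟩ := zeta_core hRH
    have x0 := xx_pos w1
    have xs := xx_sum s1
    obtain ⟨q, C, h⟩ := h
    refine ⟨hRH, ?_⟩
    have h1 := exp_near (D := Dn (xx wZ) (tt fun t : TZ => (t : ℝ)) (2 * K)) (θ := fun f => ∑ i, tt (fun t : TZ => (t : ℝ)) (f i))
      (Dn_nn x0 (2 * K)) (fun f hf => if_pos hf)
      (Summable.of_nonneg_of_le (Dn_nn x0 (2 * K)) (Dn_le x0 (2 * K)) (pi_hasSum (fun y => (x0 y).le) xs (2 * K)).summable) hc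
      (q := q - Polynomial.C (LK (xx wZ) (tt fun t : TZ => (t : ℝ)) (2 * K))) (C := C) (fun δ h0 h1 => by
        rw [Rq_Am x0 xs hrep (2 * K) h0, Polynomial.eval_sub, Polynomial.eval_C]
        have h2 := (h δ h0 h1).2
        obtain ⟨h3, h4⟩ := bc_V hRH K h0
        rw [h3, ENNReal.toReal_ofReal h4] at h2
        rw [sub_sub_sub_cancel_right]
        exact h2)
    simp only [Dn_near] at h1
    exact h1
  · intro hne hRH h
    obtain ⟨w1, s1, hrep⟩ := zeta_core hRH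
    have x0 := xx_pos w1
    have xs := xx_sum s1
    obtain ⟨q, C, h1⟩ := (exp_iff (D := Dn (xx wZ) (tt fun t : TZ => (t : ℝ)) (2 * K)) (θ := fun f => ∑ i, tt (fun t : TZ => (t : ℝ)) (f i))
      (Dn_nn x0 (2 * K)) (fun f hf => if_pos hf)
      (Summable.of_nonneg_of_le (Dn_nn x0 (2 * K)) (Dn_le x0 (2 * K)) (pi_hasSum (fun y => (x0 y).le) xs (2 * K)).summable) hc hne).2 (by
        simp only [Dn_near]
        exact h)
    refine ⟨q + Polynomial.C (LK (xx wZ) (tt fun t : TZ => (t : ℝ)) (2 * K)), C, fun δ h0 h2 => ?_⟩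
    obtain ⟨h3, h4⟩ := bc_V hRH K h0
    rw [h3, ENNReal.toReal_ofReal h4]
    refine ⟨ENNReal.ofReal_lt_top, ?_⟩
    have h5 := h1 δ h0 h2
    rw [Rq_Am x0 xs hrep (2 * K) h0] at h5
    rw [Polynomial.eval_add, Polynomial.eval_C]
    rw [show Am (fun u => FFz u ^ (2 * K)) δ - (q.eval (δ ^ 2) + LK (xx wZ) (tt fun t : TZ => (t : ℝ)) (2 * K)) =
      Am (fun u => FFz u ^ (2 * K)) δ - LK (xx wZ) (tt fun t : TZ => (t : ℝ)) (2 * K) - q.eval (δ ^ 2) by ring]
    exact h5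

/-- near relations of length two and pairs -/
theorem nr_PP (hRH : RiemannHypothesis) {c : ℝ} (hc : 0 < c) :
    (∃ C : ℝ, ∀ v : ℝ, 0 < v → v < 1 → nr (xx wZ) (tt fun t : TZ => (t : ℝ)) (2 * 1) v ≤ C * v ^ c) ↔
      ∃ C : ℝ, ∀ v : ℝ, 0 < v → v < 1 → PP v ≤ C * v ^ c := by
  obtain ⟨cm, -⟩ := cmZ hRH
  obtain ⟨t0, ht0, ht⟩ := cm.ct.t0
  obtain ⟨w1, s1, -⟩ := zeta_core hRH
  set S := (∑' y, xx wZ y) ^ 2 with hS
  have hS0 : 0 ≤ S := pow_nonneg (tsum_nonneg fun y => (xx_pos w1 y).le) 2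
  have hSP : 0 ≤ (∑' p : TZ × TZ, wZ p.1 * wZ p.2) := tsum_nonneg fun p => mul_nonneg (w1 _).le (w1 _).le
  have hsp : Summable fun p : TZ × TZ => wZ p.1 * wZ p.2 := Summable.mul_of_nonneg s1 s1 (fun t => (w1 t).le) fun t => (w1 t).le
  have hge : ∀ v : ℝ, 2 * t0 ≤ v → 1 ≤ (2 * t0) ^ (-c) * v ^ c := by
    intro v hv
    have h1 : (2 * t0) ^ c ≤ v ^ c := Real.rpow_le_rpow (by positivity) hv hc.le
    rw [Real.rpow_neg (by positivity), ← div_eq_inv_mul, one_le_div (by positivity)]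
    exact h1
  constructor
  · rintro ⟨C, h⟩
    refine ⟨|C| + (∑' p : TZ × TZ, wZ p.1 * wZ p.2) * (2 * t0) ^ (-c), fun v hv hv1 => ?_⟩
    have hvc : 0 < v ^ c := by positivity
    have h2 : C * v ^ c ≤ |C| * v ^ c := mul_le_mul_of_nonneg_right (le_abs_self C) hvc.le
    have h3 : 0 ≤ |C| * v ^ c := by positivity
    rcases lt_or_ge v (2 * t0) with h1 | h1
    · have h4 := h v hv hv1
      rw [show 2 * 1 = 2 by rfl, PP_nr w1 s1 ht h1] at h4
      have h5 : 0 ≤ (∑' p : TZ × TZ, wZ p.1 * wZ p.2) * (2 * t0) ^ (-c) * v ^ c := by positivity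
      have h6 : 0 ≤ PP v := tsum_nonneg fun p => PT_nn w1 v p
      linarith
    · have h4 : PP v ≤ ∑' p : TZ × TZ, wZ p.1 * wZ p.2 := Summable.tsum_le_tsum (PT_le w1 v) (PT_sum w1 s1 v) hsp
      have h5 := mul_le_mul_of_nonneg_left (hge v h1) hSP
      linarith
  · rintro ⟨C, h⟩
    refine ⟨4 * |C| + S * (2 * t0) ^ (-c), fun v hv hv1 => ?_⟩
    have hvc : 0 < v ^ c := by positivity
    have h2 : C * v ^ c ≤ |C| * v ^ c := mul_le_mul_of_nonneg_right (le_abs_self C) hvc.le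
    have h3 : 0 ≤ |C| * v ^ c := by positivity
    rcases lt_or_ge v (2 * t0) with h1 | h1
    · have h4 := h v hv hv1
      rw [show 2 * 1 = 2 by rfl, PP_nr w1 s1 ht h1]
      have h5 : 0 ≤ S * (2 * t0) ^ (-c) * v ^ c := by positivity
      linarith
    · have h4 := nr_le (τ := tt fun t : TZ => (t : ℝ)) (xx_pos w1) (xx_sum s1) 2 v
      have h5 := mul_le_mul_of_nonneg_left (hge v h1) hS0
      rw [show 2 * 1 = 2 by rfl]
      linarith

/-- **Expansions and close pairs for zeta.** -/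
theorem zeta_expand_pairs {c : ℝ} (hc : 0 < c) :
    (ExpAt (PM bc 0 1) c → RiemannHypothesis ∧ ∃ C : ℝ, ∀ v : ℝ, 0 < v → v < 1 → PP v ≤ C * v ^ c) ∧
    ((∀ n : ℕ, c ≠ 2 * n) → RiemannHypothesis → (∃ C : ℝ, ∀ v : ℝ, 0 < v → v < 1 → PP v ≤ C * v ^ c) → ExpAt (PM bc 0 1) c) := by
  obtain ⟨h1, h2⟩ := zeta_expand (K := 1) le_rfl hc
  refine ⟨fun h => ?_, fun hne hRH h => h2 hne hRH ((nr_PP hRH hc).2 h)⟩
  obtain ⟨hRH, h3⟩ := h1 h
  exact ⟨hRH, (nr_PP hRH hc).1 h3⟩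

/-- from the pairs to the gaps -/
theorem pairs_gap (hRH : RiemannHypothesis) {c : ℝ} (hc : 0 < c) (h : ∃ C : ℝ, ∀ v : ℝ, 0 < v → v < 1 → PP v ≤ C * v ^ c) : GapA TZ (4 / c) := by
  classical
  obtain ⟨C, h⟩ := h
  obtain ⟨cm, -⟩ := cmZ hRH
  obtain ⟨w1, s1, -⟩ := zeta_core hRH
  have hC' : 0 < |C| + 1 := by positivity
  set c1 : ℝ := ((4 / 5) ^ 2 / (|C| + 1)) ^ (1 / c) with hc1
  have hc10 : 0 < c1 := by positivity
  refine ⟨min c1 1, by positivity, fun X hX t ht t' ht' hlt hle => ?_⟩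
  have hX0 : 0 < X := by linarith
  have hXA1 : X ^ (-(4 / c) : ℝ) ≤ 1 := Real.rpow_le_one_of_one_le_of_nonpos hX (by
    have : 0 ≤ 4 / c := by positivity
    linarith)
  have hXp : 0 < X ^ (-(4 / c) : ℝ) := by positivity
  have hv : 0 < t' - t := by linarith
  rcases le_or_gt 1 (t' - t) with h1 | h1
  · have h2 : min c1 1 * X ^ (-(4 / c) : ℝ) ≤ 1 * 1 := mul_le_mul (min_le_right _ _) hXA1 (by positivity) zero_le_one
    linarith
  · have h2 := h (t' - t) hv h1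
    have h3 : wZ ⟨t, ht⟩ * wZ ⟨t', ht'⟩ ≤ PP (t' - t) := by
      have h4 := (PT_sum w1 s1 (t' - t)).le_tsum (⟨t, ht⟩, ⟨t', ht'⟩) fun p _ => PT_nn w1 _ p
      have e : PT (t' - t) (⟨t, ht⟩, ⟨t', ht'⟩) = wZ ⟨t, ht⟩ * wZ ⟨t', ht'⟩ := by
        unfold PT
        exact if_pos ⟨hlt, le_refl _⟩
      rw [e] at h4
      exact h4
    have key : ∀ s : TZ, (s : ℝ) ≤ X → 4 / 5 * X ^ (-2 : ℝ) ≤ wZ s := by
      intro s hs
      have h1 : (1 : ℝ) ≤ WL.mt s := cm.one s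
      have h2 : (0 : ℝ) < s := TZ_pos s
      unfold wZ
      rw [show (-2 : ℝ) = -((2 : ℕ) : ℝ) by norm_num, Real.rpow_neg hX0.le, Real.rpow_natCast, ← div_eq_mul_inv, div_le_div_iff₀ (by positivity) (by positivity)]
      have h3 : (s : ℝ) ^ 2 ≤ X ^ 2 := by gcongr
      have h4 : 1 ≤ X ^ 2 := one_le_pow₀ hX
      nlinarith
    have h4 : (4 / 5 * X ^ (-2 : ℝ)) * (4 / 5 * X ^ (-2 : ℝ)) ≤ (|C| + 1) * (t' - t) ^ c := by
      refine (mul_le_mul (key ⟨t, ht⟩ (hlt.le.trans hle)) (key ⟨t', ht'⟩ hle) (by positivity) (w1 _).le).trans ?_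
      refine h3.trans (h2.trans ?_)
      refine mul_le_mul_of_nonneg_right ?_ (by positivity)
      have := le_abs_self C
      linarith
    have h6 : (4 / 5) ^ 2 / (|C| + 1) * X ^ (-4 : ℝ) ≤ (t' - t) ^ c := by
      have e : (4 / 5 * X ^ (-2 : ℝ)) * (4 / 5 * X ^ (-2 : ℝ)) = (4 / 5) ^ 2 * X ^ (-4 : ℝ) := by
        rw [show (-4 : ℝ) = -2 + -2 by norm_num, Real.rpow_add hX0]
        ring
      rw [e] at h4
      rw [div_mul_eq_mul_div, div_le_iff₀ (by positivity)]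
      linarith
    have h7 := Real.rpow_le_rpow (by positivity) h6 (by positivity : 0 ≤ 1 / c)
    rw [← Real.rpow_mul hv.le, mul_one_div_cancel hc.ne', Real.rpow_one, Real.mul_rpow (by positivity) (by positivity),
      ← Real.rpow_mul hX0.le, ← hc1] at h7
    rw [show (-4 : ℝ) * (1 / c) = -(4 / c) by ring] at h7
    refine le_trans ?_ h7
    exact mul_le_mul_of_nonneg_right (min_le_left _ _) hXp.le

/-- **The order of the smallest gaps and the order of the expansion.** -/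
theorem alpha_expand {g : ℕ → ℝ} (hg : EnumZ g) (hRH : RiemannHypothesis) {c : ℝ} (hc : 0 < c) :
    (ExpAt (PM bc 0 1) c → FinMult → ((-(4 / c) : ℝ) : EReal) ≤ alpha g) ∧
    (¬ExpAt (PM bc 0 1) c → alpha g ≤ ((-(3 / c) : ℝ) : EReal)) := by
  constructor
  · intro h hF
    obtain ⟨-, h1⟩ := (zeta_expand_pairs hc).1 h
    obtain ⟨cm, hl⟩ := cmZ' hRH
    exact (enumZ_en hRH hg).lower cm.ct (by have := Real.pi_pos; positivity) hl ((finMult_iff hRH).1 hF) (pairs_gap hRH hc h1)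
  · intro hne
    by_contra hlt
    rw [not_le] at hlt
    obtain ⟨b, hb1, hb2⟩ := EReal.lt_iff_exists_real_btwn.1 hlt
    have hb3 : -(3 / c) < b := by exact_mod_cast hb1
    set A := max (-b) (1 / c) with hA
    have hA0 : 0 < A := lt_max_of_lt_right (by positivity)
    have hA1 : A < 3 / c := max_lt (by linarith) (div_lt_div_of_pos_right (by norm_num) hc)
    have hAc : A * c < 3 := by rwa [lt_div_iff₀ hc] at hA1
    have hAal : ((-A : ℝ) : EReal) < alpha g := lt_of_le_of_lt (by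
      rw [EReal.coe_le_coe_iff]
      linarith [le_max_left (-b) (1 / c)]) hb2
    obtain ⟨cm, hl⟩ := cmZ' hRH
    have hone : ∀ t ∈ TZ, 1 ≤ WL.mt t := fun t ht => by
      have := cm.one ⟨t, ht⟩
      exact_mod_cast this
    obtain ⟨-, h4⟩ := (enumZ_en hRH hg).upper cm.ct hone hl hA0 hAal
    -- a slightly larger exponent which is not an even integer
    obtain ⟨c', h5, h6, h7⟩ : ∃ c' : ℝ, c ≤ c' ∧ A * c' < 3 ∧ ∀ n : ℕ, c' ≠ 2 * n := by
      have hlt : c < 3 / A := by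
        rw [lt_div_iff₀ hA0]
        linarith
      by_cases hn : ∀ n : ℕ, c ≠ 2 * n
      · exact ⟨c, le_rfl, hAc, hn⟩
      · push Not at hn
        obtain ⟨n, hn⟩ := hn
        refine ⟨min ((c + 3 / A) / 2) (c + 1), le_min (by linarith) (by linarith), ?_, fun k hk => ?_⟩
        · have h8 : A * min ((c + 3 / A) / 2) (c + 1) ≤ A * ((c + 3 / A) / 2) := mul_le_mul_of_nonneg_left (min_le_left _ _) hA0.le
          have h9 : A * ((c + 3 / A) / 2) = (A * c + 3) / 2 := by field_simp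
          linarith
        · have h8 : c < min ((c + 3 / A) / 2) (c + 1) := lt_min (by linarith) (by linarith)
          have h9 := min_le_right ((c + 3 / A) / 2) (c + 1)
          rw [hk, hn] at h8 h9
          have h10 : (n : ℝ) < k := by linarith
          have h11 : n + 1 ≤ k := by exact_mod_cast h10
          have h12 : (n : ℝ) + 1 ≤ k := by exact_mod_cast h11
          linarith
    have hc' : 0 < c' := by linarith
    obtain ⟨q, C, h8⟩ := (zeta_expand_pairs hc').2 h7 hRH (gap_pairs hRH hA0.le hc' h6 h4)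
    apply hne
    refine ⟨q, |C|, fun δ h0 h1 => ⟨(h8 δ h0 h1).1, (h8 δ h0 h1).2.trans ?_⟩⟩
    refine mul_le_mul (le_abs_self C) ?_ (by positivity) (abs_nonneg _)
    exact Real.rpow_le_rpow_of_exponent_ge h0 h1.le h5

end Run7.h278.LG
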