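import Pool.Agent.Run7.h278.LG.Str
import Pool.Agent.H307R2.LU

set_option autoImplicit false

/-!
# Central values
-/

namespace Run7.h278.LG

open Complex Filter Topology MeasureTheory Set DirichletCharacter
open scoped ENNReal

/-- `ζ(1/2) ≠ 0` (as in `TH223.AP`) -/
lemma zeta_half_ne : riemannZeta (1 / 2 : ℂ) ≠ 0 := by
  have h0 : (0:ℝ) < 1 / 2 := by norm_num
  have hne : (((1 / 2 : ℝ)) : ℂ) ≠ 1 := by
    intro h
    have : (1 / 2 : ℝ) = 1 := by exact_mod_cast h
    norm_num at this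
  have e0 := Pool.Agent.H307R2.zeta_eq (N := 1) le_rfl (s := ((1 / 2 : ℝ) : ℂ)) (by simp) hne
  have e1 : Pool.Agent.H307R2.TM 1 Pool.Agent.H307R2.Ez ((1 / 2 : ℝ) : ℂ) =
      ((∫ t in Ioi ((1 : ℕ) : ℝ), (-(Int.fract t)) * t ^ (-((1 / 2 : ℝ) + 1)) : ℝ) : ℂ) := by
    unfold Pool.Agent.H307R2.TM
    rw [← integral_complex_ofReal]
    refine MeasureTheory.setIntegral_congr_fun measurableSet_Ioi fun t ht => ?_
    have ht' : (1 : ℝ) < t := by simpa using ht
    have ht0 : 0 ≤ t := by linarith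
    simp only [Pool.Agent.H307R2.Ez]
    rw [Complex.ofReal_mul, Complex.ofReal_cpow ht0]
    push_cast
    rfl
  have e2 : (∫ t in Ioi ((1 : ℕ) : ℝ), (-(Int.fract t)) * t ^ (-((1 / 2 : ℝ) + 1)) : ℝ) ≤ 0 := by
    apply MeasureTheory.setIntegral_nonpos measurableSet_Ioi
    intro t ht
    have ht' : (1 : ℝ) < t := by simpa using ht
    have : 0 ≤ Int.fract t * t ^ (-((1 / 2 : ℝ) + 1)) :=
      mul_nonneg (Int.fract_nonneg t) (Real.rpow_nonneg (by linarith) _)
    linarith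
  rw [e1] at e0
  set I := (∫ t in Ioi ((1 : ℕ) : ℝ), (-(Int.fract t)) * t ^ (-((1 / 2 : ℝ) + 1)) : ℝ) with hI
  have e3 : riemannZeta (1 / 2 : ℂ) = ((1 + 1 / ((1 / 2 : ℝ) - 1) + (1 / 2) * I : ℝ) : ℂ) := by
    have e4 : (((1 / 2 : ℝ)) : ℂ) = (1 / 2 : ℂ) := by push_cast; rfl
    rw [e4] at e0
    rw [e0]
    push_cast
    simp
  rw [e3]
  intro h
  have h2 : (1 + 1 / ((1 / 2 : ℝ) - 1) + (1 / 2) * I : ℝ) = 0 := by exact_mod_cast h
  norm_num at h2
  linarith

/-- the principal character has no zero at `1/2` -/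
theorem triv_half (q : ℕ) [NeZero q] : LFunction (1 : DirichletCharacter ℂ q) (1 / 2) ≠ 0 := by
  have h := LFunctionTrivChar_eq_mul_riemannZeta (N := q) (s := 1 / 2) (by norm_num)
  unfold LFunctionTrivChar at h
  rw [h]
  refine mul_ne_zero ?_ zeta_half_ne
  have := euler_ne (1 : DirichletCharacter ℂ 1) q (s := 1 / 2) (by norm_num)
  have e : ∏ p ∈ q.primeFactors, (1 - (1 : DirichletCharacter ℂ 1) (p : ZMod 1) * (p : ℂ) ^ (-(1 / 2 : ℂ))) =
      ∏ p ∈ q.primeFactors, (1 - (p : ℂ) ^ (-(1 / 2 : ℂ))) := by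
    refine Finset.prod_congr rfl fun p _ => ?_
    rw [Subsingleton.elim ((p : ℕ) : ZMod 1) 1, map_one, one_mul]
  rwa [e] at this

/-- an infinite product of numbers which are at least one -/
theorem one_le_tprod' {ι : Type} {f : ι → ℝ} (h : Multipliable f) (h1 : ∀ i, 1 ≤ f i) : 1 ≤ ∏' i, f i := by
  have hP : Tendsto (fun S : Finset ι => ∏ i ∈ S, f i) atTop (𝓝 (∏' i, f i)) := h.hasProd
  refine ge_of_tendsto' hP fun S => ?_
  classical
  induction S using Finset.induction_on with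
  | empty => simp
  | insert j S hj ih =>
    rw [Finset.prod_insert hj]
    nlinarith [h1 j]

/-- the inequality without the central factor -/
theorem center_of {L : ℝ≥0∞} {G I : Prop} {C r s : ℝ} (hs : 0 < s) (hr : 0 ≤ r) (hC : G → 1 ≤ C) (h4 : L < ⊤ ↔ G)
    (h5 : ENNReal.ofReal (Real.cosh (4 * s * r) * C) ≤ L) (h6 : L = ENNReal.ofReal (Real.cosh (4 * s * r) * C) ↔ G ∧ I) :
    ENNReal.ofReal C ≤ L ∧ (L = ENNReal.ofReal C ↔ G ∧ I ∧ r = 0) := by
  by_cases hG : G
  · have hC1 := hC hG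
    have h1 := Real.one_le_cosh (4 * s * r)
    have hle : C ≤ Real.cosh (4 * s * r) * C := by nlinarith
    refine ⟨(ENNReal.ofReal_le_ofReal hle).trans h5, ?_, ?_⟩
    · intro h
      have h7 : ENNReal.ofReal (Real.cosh (4 * s * r) * C) ≤ ENNReal.ofReal C := h ▸ h5
      have h8 := (ENNReal.ofReal_le_ofReal_iff (by linarith)).1 h7
      have h9 : Real.cosh (4 * s * r) ≤ 1 := by nlinarith
      have h10 : Real.cosh (4 * s * r) = Real.cosh 0 := by
        rw [Real.cosh_zero]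
        exact le_antisymm h9 h1
      have h11 : r = 0 := by
        have h12 : ¬(0 < 4 * s * r) := fun hp => by
          have := Real.one_lt_cosh.2 hp.ne'
          linarith
        by_contra hne
        have : 0 < r := lt_of_le_of_ne hr (Ne.symm hne)
        exact h12 (by positivity)
      rw [h11, mul_zero, Real.cosh_zero, one_mul] at h6
      exact ⟨hG, (h6.1 h).2, h11⟩
    · rintro ⟨_, hI, h11⟩
      rw [h11, mul_zero, Real.cosh_zero, one_mul] at h6
      exact h6.2 ⟨hG, hI⟩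
  · have : L = ⊤ := by
      by_contra hne
      exact hG (h4.1 (lt_top_iff_ne_top.2 hne))
    rw [this]
    exact ⟨le_top, fun h => absurd h.symm ENNReal.ofReal_ne_top, fun h => absurd h.1 hG⟩

end Run7.h278.LG
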